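import Pool.Agent.Lib.MP_2c6f70_nt.RU.CDefs
import Pool.Agent.Lib.MP_2c6f70_nt.KW.Hom

/-!
# One of the approximants does not vanish

If `FF (A i) (B i) = 0` for all `K ≤ i ≤ K + j`, then for consecutive indices `A_i B_(i+1) - A_(i+1) B_i` has degree at most `2 i + j + 1`, vanishing
coefficients below `2 i + j + 1`, and its homogenization vanishes: it is zero.  So `A B' = A' B` for the two ends; the trailing
degrees of `A^2 - B^2 D` and `A'^2 - B'^2 D` (`A'^2 - B'^2 D = (A' + B' g) (A' - B' g)`) give a contradiction.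
-/

set_option autoImplicit false

namespace Pool.Agent.Lib.MP_2c6f70_nt.RU

open Polynomial Pool.Agent.Lib.MP_2c6f70_nt Pool.Agent.Lib.MP_2c6f70_nt.KW

/-- A polynomial of degree at most `m` with vanishing coefficients below `m` and a vanishing homogenization is zero. -/
private theorem CNon_zero {P : ℤ[X]} {m : ℕ} (hd : P.natDegree ≤ m) (h0 : ∀ l < m, P.coeff l = 0)
    {u v : ℤ} (hv : v ≠ 0) (h : hom P m u v = 0) : P = 0 := by
  have h1 : hom P m u v = P.coeff m * v ^ m := by
    unfold hom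
    rw [Finset.sum_range_succ, Finset.sum_eq_zero, zero_add, Nat.sub_self, pow_zero, mul_one]
    intro i hi
    rw [h0 i (Finset.mem_range.1 hi), zero_mul, zero_mul]
  rw [h1] at h
  have h2 : P.coeff m = 0 := (mul_eq_zero.1 h).resolve_right (pow_ne_zero _ hv)
  ext l
  rw [coeff_zero]
  rcases lt_trichotomy l m with h3 | h3 | h3
  · exact h0 l h3
  · rw [h3, h2]
  · exact coeff_eq_zero_of_natDegree_lt (lt_of_le_of_lt hd h3)

/-- Consecutive approximants are proportional if `FF` vanishes for both. -/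
private theorem CNon_step {g : PowerSeries ℤ} {j i H H' : ℕ} {A B A' B' : ℤ[X]}
    (hP : IsPade g i j H A B) (hP' : IsPade g (i + 1) j H' A' B') {u v : ℤ} (hu : u ≠ 0) (hv : v ≠ 0)
    (Y : ℤ) (h : FF A B i j u v Y = 0) (h' : FF A' B' (i + 1) j u v Y = 0) : A * B' = A' * B := by
  have hd1 : (A * B').natDegree ≤ 2 * i + j + 1 :=
    natDegree_mul_le.trans (by have := hP.degA; have := hP'.degB; omega)
  have hd2 : (A' * B).natDegree ≤ 2 * i + j + 1 :=
    natDegree_mul_le.trans (by have := hP'.degA; have := hP.degB; omega)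
  have h1 : A * B' - A' * B = 0 := by
    refine CNon_zero ((natDegree_sub_le _ _).trans (max_le hd1 hd2)) ?_ (u := u) hv ?_
    · intro l hl
      have e1 : (PowerSeries.X : PowerSeries ℤ) ^ (2 * i + j + 1) ∣
          ((A : PowerSeries ℤ) + (B : PowerSeries ℤ) * g) := PowerSeries.X_pow_dvd_iff.2 hP.van
      have e2 : (PowerSeries.X : PowerSeries ℤ) ^ (2 * i + j + 1) ∣
          ((A' : PowerSeries ℤ) + (B' : PowerSeries ℤ) * g) :=
        PowerSeries.X_pow_dvd_iff.2 fun l hl => hP'.van l (by omega)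
      have e3 : ((A * B' - A' * B : ℤ[X]) : PowerSeries ℤ) =
          ((A : PowerSeries ℤ) + (B : PowerSeries ℤ) * g) * (B' : PowerSeries ℤ) -
            ((A' : PowerSeries ℤ) + (B' : PowerSeries ℤ) * g) * (B : PowerSeries ℤ) := by
        rw [Polynomial.coe_sub, Polynomial.coe_mul, Polynomial.coe_mul]
        ring
      have e4 : (PowerSeries.X : PowerSeries ℤ) ^ (2 * i + j + 1) ∣
          ((A * B' - A' * B : ℤ[X]) : PowerSeries ℤ) := by
        rw [e3]
        exact dvd_sub (e1.mul_right _) (e2.mul_right _)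
      have e5 := PowerSeries.X_pow_dvd_iff.1 e4 l hl
      rwa [Polynomial.coeff_coe] at e5
    · have e1 := hom_mul hP.degA hP'.degB hu v
      have e2 := hom_mul hP'.degA hP.degB hu v
      unfold FF at h h'
      rw [hom_sub, show 2 * i + j + 1 = (i + j) + (i + 1) by ring, e1,
        show (i + j) + (i + 1) = (i + 1 + j) + i by ring, e2]
      have e3 : hom A (i + j) u v = - (hom B i u v * Y) := by linarith
      have e4 : hom A' (i + 1 + j) u v = - (hom B' (i + 1) u v * Y) := by linarith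
      rw [e3, e4]
      ring
  exact sub_eq_zero.1 h1

theorem exists_ne {g : PowerSeries ℤ} {D : ℤ[X]} {j K : ℕ} {H : ℕ → ℕ} {A B : ℕ → ℤ[X]}
    (hgD : g ^ 2 = (D : PowerSeries ℤ)) (hD : D.natDegree ≤ 2 * j)
    (hns : ∀ A B : ℤ[X], B ≠ 0 → A ^ 2 - B ^ 2 * D ≠ 0)
    (hP : ∀ i, K ≤ i → i ≤ K + j → IsPade g i j (H i) (A i) (B i))
    {u v : ℤ} (hu : u ≠ 0) (hv : v ≠ 0) (Y : ℤ) :
    ∃ i, K ≤ i ∧ i ≤ K + j ∧ FF (A i) (B i) i j u v Y ≠ 0 := by
  by_contra hcon
  push Not at hcon
  -- the two ends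
  have key : ∀ n, n ≤ j → A K * B (K + n) = A (K + n) * B K := by
    intro n
    induction n with
    | zero => intro _; rfl
    | succ n ih =>
      intro hn
      have h1 := ih (by omega)
      have h2 := CNon_step (hP (K + n) (by omega) (by omega)) (hP (K + n + 1) (by omega) (by omega))
        hu hv Y (hcon _ (by omega) (by omega)) (hcon _ (by omega) (by omega))
      have h3 : B (K + n) ≠ 0 := (hP (K + n) (by omega) (by omega)).ne
      refine mul_left_cancel₀ h3 ?_
      calc B (K + n) * (A K * B (K + (n + 1))) = (A K * B (K + n)) * B (K + n + 1) := by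
            rw [← add_assoc]; ring
        _ = (A (K + n) * B (K + n + 1)) * B K := by rw [h1]; ring
        _ = B (K + n) * (A (K + (n + 1)) * B K) := by rw [h2, ← add_assoc]; ring
  have hkey := key j le_rfl
  have hP0 := hP K le_rfl (by omega)
  have hP1 := hP (K + j) (by omega) le_rfl
  obtain ⟨A0, hA0⟩ : ∃ A0, A0 = A K := ⟨_, rfl⟩
  obtain ⟨B0, hB0⟩ : ∃ B0, B0 = B K := ⟨_, rfl⟩
  obtain ⟨A1, hA1⟩ : ∃ A1, A1 = A (K + j) := ⟨_, rfl⟩
  obtain ⟨B1, hB1⟩ : ∃ B1, B1 = B (K + j) := ⟨_, rfl⟩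
  rw [← hA0, ← hB0] at hP0
  rw [← hA1, ← hB1] at hP1
  rw [← hA0, ← hB0, ← hA1, ← hB1] at hkey
  obtain ⟨P, hPd⟩ : ∃ P : ℤ[X], P = A0 ^ 2 - B0 ^ 2 * D := ⟨_, rfl⟩
  obtain ⟨P', hPd'⟩ : ∃ P' : ℤ[X], P' = A1 ^ 2 - B1 ^ 2 * D := ⟨_, rfl⟩
  have hPne : P ≠ 0 := by rw [hPd]; exact hns A0 B0 hP0.ne
  have hPne' : P' ≠ 0 := by rw [hPd']; exact hns A1 B1 hP1.ne
  have hdegP : P.natDegree ≤ 2 * K + 2 * j := by
    rw [hPd]
    refine (natDegree_sub_le _ _).trans (max_le ?_ ?_)
    · refine natDegree_pow_le.trans ?_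
      have := hP0.degA
      omega
    · refine natDegree_mul_le.trans ?_
      have h2 : (B0 ^ 2).natDegree ≤ 2 * B0.natDegree := natDegree_pow_le
      have := hP0.degB
      omega
  have hdegP' : P'.natDegree ≤ 2 * (K + j) + 2 * j := by
    rw [hPd']
    refine (natDegree_sub_le _ _).trans (max_le ?_ ?_)
    · refine natDegree_pow_le.trans ?_
      have := hP1.degA
      omega
    · refine natDegree_mul_le.trans ?_
      have h2 : (B1 ^ 2).natDegree ≤ 2 * B1.natDegree := natDegree_pow_le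
      have := hP1.degB
      omega
  -- the trailing degrees
  have heq : P * B1 ^ 2 = P' * B0 ^ 2 := by
    rw [hPd, hPd']
    have h1 : (A0 * B1) ^ 2 = (A1 * B0) ^ 2 := by rw [hkey]
    linear_combination h1
  have htr : P.natTrailingDegree + 2 * B1.natTrailingDegree =
      P'.natTrailingDegree + 2 * B0.natTrailingDegree := by
    have h1 := congrArg Polynomial.natTrailingDegree heq
    rw [natTrailingDegree_mul hPne (pow_ne_zero _ hP1.ne),
      natTrailingDegree_mul hPne' (pow_ne_zero _ hP0.ne), pow_two, pow_two,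
      natTrailingDegree_mul hP1.ne hP1.ne, natTrailingDegree_mul hP0.ne hP0.ne] at h1
    omega
  have h3 : P.natTrailingDegree ≤ P.natDegree := natTrailingDegree_le_natDegree P
  have h4 : P'.natTrailingDegree ≤ P'.natDegree := natTrailingDegree_le_natDegree P'
  -- the lower bound
  have hlow : 2 * (K + j) + j + 1 + B1.natTrailingDegree ≤ P'.natTrailingDegree := by
    have hB1t : B1.natTrailingDegree ≤ K + j :=
      (natTrailingDegree_le_natDegree B1).trans hP1.degB
    have e1 : (PowerSeries.X : PowerSeries ℤ) ^ (2 * (K + j) + j + 1) ∣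
        ((A1 : PowerSeries ℤ) + (B1 : PowerSeries ℤ) * g) := PowerSeries.X_pow_dvd_iff.2 hP1.van
    have e2 : (PowerSeries.X : PowerSeries ℤ) ^ B1.natTrailingDegree ∣ (B1 : PowerSeries ℤ) := by
      refine PowerSeries.X_pow_dvd_iff.2 fun l hl => ?_
      rw [Polynomial.coeff_coe]
      exact coeff_eq_zero_of_lt_natTrailingDegree hl
    have e3 : (PowerSeries.X : PowerSeries ℤ) ^ B1.natTrailingDegree ∣
        ((A1 : PowerSeries ℤ) - (B1 : PowerSeries ℤ) * g) := by
      have e4 : (A1 : PowerSeries ℤ) - (B1 : PowerSeries ℤ) * g =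
          ((A1 : PowerSeries ℤ) + (B1 : PowerSeries ℤ) * g) - (B1 : PowerSeries ℤ) * (2 * g) := by ring
      rw [e4]
      refine dvd_sub ((pow_dvd_pow _ (by omega)).trans e1) (e2.mul_right _)
    have e5 : (PowerSeries.X : PowerSeries ℤ) ^ (2 * (K + j) + j + 1 + B1.natTrailingDegree) ∣
        (P' : PowerSeries ℤ) := by
      have e6 : (P' : PowerSeries ℤ) = ((A1 : PowerSeries ℤ) + (B1 : PowerSeries ℤ) * g) *
          ((A1 : PowerSeries ℤ) - (B1 : PowerSeries ℤ) * g) := by
        rw [hPd', Polynomial.coe_sub, Polynomial.coe_pow, Polynomial.coe_mul, Polynomial.coe_pow,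
          ← hgD]
        ring
      rw [e6, pow_add]
      exact mul_dvd_mul e1 e3
    refine le_natTrailingDegree hPne' fun l hl => ?_
    have e7 := PowerSeries.X_pow_dvd_iff.1 e5 l hl
    rwa [Polynomial.coeff_coe] at e7
  omega

end Pool.Agent.Lib.MP_2c6f70_nt.RU
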