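import Pool.Agent.Lib.MP_2c6f70_nt.RU.CPig
import Pool.Agent.Lib.MP_2c6f70_nt.RU.CNon
import Pool.Agent.Lib.MP_2c6f70_nt.KW.CorA

/-!
# JOB CBd: bounds for the product of the moduli of one type

Adapt the proofs of `CorA_setup`, `bound_a`, `bound_b` in `KW/CorA.lean` (copy them): instead of one approximant with `HH` take `A i`, `B i`, `K ≤ i ≤ K + j` from
`exists_pade_sharp` (`HS`), and the index `i` of `exists_ne` (`sub_ne_zero_of_inj` of `KW/Nonv.lean` for `hns`, `DD` is the product; `u = 4 a`, `v = q`,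
`Y = ε 4^j ∏ x`).  No hypothesis on `log q` is needed any more.
-/

set_option autoImplicit false

namespace Pool.Agent.Lib.MP_2c6f70_nt.RU

open Polynomial Pool.Agent.Lib.MP_2c6f70_nt Pool.Agent.Lib.MP_2c6f70_nt.KW

private theorem CBd_setup {q a N j K : ℕ} {S J : Finset ℕ} (hq : 2 ≤ q) (ha : 1 ≤ a)
    (hN : 1 ≤ N) (hc : Nat.Coprime q a) (hS : Rts q a N S) (hJ : J ⊆ S) (hJc : J.card = 2 * j)
    (hj : 1 ≤ j) {z : ℕ}
    (hz : z ∈ S) (ε : ℤ) (hε : ε = 1 ∨ ε = -1) (P : Finset ℕ) (hPq : P ⊆ q.primeFactors)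
    (h : ∀ p ∈ P, ∏ x ∈ J, sg q z p x = (ε : ℝ)) :
    ∃ (i : ℕ) (g : PowerSeries ℤ) (A B : Polynomial ℤ), K ≤ i ∧ i ≤ K + j ∧ g ^ 2 = (DD q a J : PowerSeries ℤ) ∧
      PowerSeries.coeff 0 g = 1 ∧ (∀ i, |PowerSeries.coeff i g| ≤ 4 ^ j * (8 * (N : ℤ)) ^ i) ∧
      IsPade g i j (HS N i j) A B ∧
      (∏ p ∈ P, (mr q p : ℝ)) ^ (2 * i + j + 1) ≤
        2 * (|FF A B i j (4 * (a : ℤ)) q (ε * (4 ^ j * ∏ x ∈ J, (x : ℤ)))| : ℝ) := by
  classical
  have hq1 : 1 ≤ q := by omega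
  obtain ⟨g, hg1, hg2, hg3⟩ := exists_sqrt J (nn q a) N
    (fun x hx => (nn_spec hq1 hS (hJ hx)).2.le)
  have hgD : g ^ 2 = (DD q a J : PowerSeries ℤ) := by
    rw [hg1]
    unfold DD
    rw [← Polynomial.coeToPowerSeries.ringHom_apply, map_prod]
    refine Finset.prod_congr rfl fun x _ => ?_
    rw [Polynomial.coeToPowerSeries.ringHom_apply, Polynomial.coe_add, Polynomial.coe_one,
      Polynomial.coe_mul, Polynomial.coe_X, Polynomial.coe_C]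
  have h4 : (2 : ℤ) ^ J.card = 4 ^ j := by
    rw [hJc, pow_mul]
    norm_num
  have hgb : ∀ i, |PowerSeries.coeff i g| ≤ 4 ^ j * (8 * (N : ℤ)) ^ i := by
    intro i
    rw [← h4]
    exact hg3 i
  have hex : ∀ i, ∃ A B : ℤ[X], IsPade g i j (HS N i j) A B := fun i => exists_pade_sharp hN i j hgb
  choose A B hAB using hex
  have hns : ∀ A B : ℤ[X], B ≠ 0 → A ^ 2 - B ^ 2 * DD q a J ≠ 0 := by
    intro A B hB
    have hinj : Set.InjOn (nn q a) (J : Set ℕ) := (nn_inj hq1 hS).mono (by exact_mod_cast hJ)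
    exact sub_ne_zero_of_inj J (nn q a) hinj (by omega) A B hB
  have hu : (4 * (a : ℤ)) ≠ 0 := by
    have : 0 < a := ha
    have : (0 : ℤ) < a := by exact_mod_cast this
    omega
  have hv : (q : ℤ) ≠ 0 := by
    have : 0 < q := by omega
    have : (0 : ℤ) < q := by exact_mod_cast this
    omega
  obtain ⟨i, hi1, hi2, hne⟩ := exists_ne (g := g) (D := DD q a J) (j := j) (K := K) (H := fun i => HS N i j) (A := A)
    (B := B) hgD ((DD_natDegree_le q a J).trans hJc.le) hns (fun i _ _ => hAB i) hu hv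
    (ε * (4 ^ j * ∏ x ∈ J, (x : ℤ)))
  refine ⟨i, g, A i, B i, hi1, hi2, hgD, hg2, hgb, hAB i, ?_⟩
  have hdvd := glob_dvd hq1 ha hc hS hJ hJc hz hgD hg2 (hAB i) ε hε P hPq h
  set F := FF (A i) (B i) i j (4 * (a : ℤ)) q (ε * (4 ^ j * ∏ x ∈ J, (x : ℤ))) with hF
  have hpos : 0 < |2 * F| := abs_pos.2 (mul_ne_zero (by norm_num) hne)
  have hle := Int.le_of_dvd hpos ((dvd_abs _ _).2 hdvd)
  rw [abs_mul, abs_two] at hle
  exact_mod_cast hle

private theorem CBd_log {q m : ℕ} (P : Finset ℕ) (hPq : P ⊆ q.primeFactors) :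
    Real.log ((∏ p ∈ P, (mr q p : ℝ)) ^ m) = m * ∑ p ∈ P, Real.log (mr q p) ∧
      0 < (∏ p ∈ P, (mr q p : ℝ)) ^ m := by
  have h : ∀ p ∈ P, (0 : ℝ) < mr q p := by
    intro p hp
    have := mr_pos (hPq hp)
    exact_mod_cast this
  refine ⟨?_, pow_pos (Finset.prod_pos h) _⟩
  rw [Real.log_pow, Real.log_prod (fun p hp => (h p hp).ne')]

private theorem CBd_prod {j : ℕ} {J : Finset ℕ} (hJc : J.card = 2 * j) :
    (4 : ℤ) ^ j * ∏ x ∈ J, (x : ℤ) = ∏ x ∈ J, (2 * (x : ℤ)) := by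
  rw [Finset.prod_mul_distrib, Finset.prod_const, hJc, pow_mul]
  norm_num

theorem bound_a' {q a N j K : ℕ} {S J : Finset ℕ} (hq : 2 ≤ q) (ha : 1 ≤ a) (hN : 1 ≤ N)
    (hc : Nat.Coprime q a) (hS : Rts q a N S) (hJ : J ⊆ S) (hJc : J.card = 2 * j) (hj : 1 ≤ j)
    (hjK : j ≤ K) {z : ℕ} (hz : z ∈ S)
    (ε : ℤ) (hε : ε = 1 ∨ ε = -1) (P : Finset ℕ) (hPq : P ⊆ q.primeFactors)
    (h : ∀ p ∈ P, ∏ x ∈ J, sg q z p x = (ε : ℝ)) :
    ∃ i : ℕ, K ≤ i ∧ i ≤ K + j ∧ (2 * (i : ℝ) + j + 1) * ∑ p ∈ P, Real.log (mr q p) ≤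
      Real.log (4 * ((i : ℝ) + j + 1)) + Real.log (HS N i j) +
        ((i : ℝ) + j) * Real.log (4 * ((a : ℝ) + q * N)) := by
  classical
  have hq1 : 1 ≤ q := by omega
  obtain ⟨i, g, A, B, hi1, hi2, _, _, _, hP, hle⟩ :=
    CBd_setup (K := K) hq ha hN hc hS hJ hJc hj hz ε hε P hPq h
  refine ⟨i, hi1, hi2, ?_⟩
  obtain ⟨hlog, hpos⟩ := CBd_log (m := 2 * i + j + 1) P hPq
  have hμ : ∀ x ∈ J, (2 * (x : ℤ)) ^ 2 ≤ ((4 * (a + q * N) : ℕ) : ℤ) := by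
    intro x hx
    obtain ⟨h1, h2⟩ := nn_spec hq1 hS (hJ hx)
    have h3 : (x : ℤ) ^ 2 = a + q * nn q a x := by exact_mod_cast h1
    have h4 : (q : ℤ) * nn q a x ≤ q * N := by
      exact_mod_cast Nat.mul_le_mul_left q h2.le
    push_cast
    nlinarith
  have hY : |ε * (4 ^ j * ∏ x ∈ J, (x : ℤ))| ≤ ((4 * (a + q * N) : ℕ) : ℤ) ^ j := by
    have h1 : |ε * (4 ^ j * ∏ x ∈ J, (x : ℤ))| = |4 ^ j * ∏ x ∈ J, (x : ℤ)| := by
      rcases hε with rfl | rfl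
      · rw [one_mul]
      · rw [neg_one_mul, abs_neg]
    rw [h1]
    refine abs_le_of_sq_le_sq ?_ (by positivity)
    rw [CBd_prod hJc, ← Finset.prod_pow, ← pow_mul, mul_comm j 2, ← hJc,
      ← Finset.prod_const]
    exact Finset.prod_le_prod (fun x _ => sq_nonneg _) hμ
  have hb := FF_abs_le (A := A) (B := B) (K := i) (j := j) (H := HS N i j) hP.boundA hP.boundB
    (u := 4 * (a : ℤ)) (v := q) (Y := ε * (4 ^ j * ∏ x ∈ J, (x : ℤ))) (μ := 4 * (a + q * N))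
    (by
      rw [abs_of_nonneg (by positivity)]
      push_cast
      have : (0 : ℤ) ≤ (q : ℤ) * N := by positivity
      linarith)
    (by
      rw [abs_of_nonneg (by positivity)]
      push_cast
      have h1 : (q : ℤ) * 1 ≤ q * N := by exact_mod_cast Nat.mul_le_mul_left q hN
      have h2 : (0 : ℤ) ≤ a := by positivity
      have h3 : (0 : ℤ) ≤ q := by positivity
      linarith)
    hY
  have hb' : (|FF A B i j (4 * (a : ℤ)) q (ε * (4 ^ j * ∏ x ∈ J, (x : ℤ)))| : ℝ) ≤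
      2 * ((i : ℝ) + j + 1) * (HS N i j) * (4 * ((a : ℝ) + q * N)) ^ (i + j) := by
    exact_mod_cast hb
  have hHpos : (0 : ℝ) < HS N i j := by exact_mod_cast HS_pos (N := N) (K := i) (j := j) hN
  have ha' : (0 : ℝ) < a := by exact_mod_cast ha
  have h5 : (∏ p ∈ P, (mr q p : ℝ)) ^ (2 * i + j + 1) ≤
      (4 * ((i : ℝ) + j + 1)) * (HS N i j) * (4 * ((a : ℝ) + q * N)) ^ (i + j) := by
    refine hle.trans ?_
    linarith
  have h6 := Real.log_le_log hpos h5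
  rw [hlog, Real.log_mul (by positivity) (by positivity), Real.log_mul (by positivity)
    (by positivity), Real.log_pow] at h6
  push_cast at h6
  exact h6

theorem bound_b' {q a N j K k : ℕ} {S J : Finset ℕ} (hq : 2 ≤ q) (ha : 1 ≤ a) (hN : 1 ≤ N)
    (hc : Nat.Coprime q a) (hS : Rts q a N S) (hJ : J ⊆ S) (hJc : J.card = 2 * j) (hj : 1 ≤ j)
    (hjk : j ≤ k) (hjK : j ≤ K)
    (haN : 4 ^ (k + 2) * N * q ≤ a) {z : ℕ} (hz : z ∈ S) (P : Finset ℕ) (hPq : P ⊆ q.primeFactors)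
    (h : ∀ p ∈ P, ∏ x ∈ J, sg q z p x = 1) :
    ∃ i : ℕ, K ≤ i ∧ i ≤ K + j ∧ (2 * (i : ℝ) + j + 1) * ∑ p ∈ P, Real.log (mr q p) ≤
      Real.log (12 * 16 ^ j * ((i : ℝ) + 1)) + Real.log (HS N i j) +
        (2 * (i : ℝ) + j + 1) * (Real.log (16 * N) + Real.log q) - ((i : ℝ) + 1) * Real.log (4 * a) := by
  classical
  have hq1 : 1 ≤ q := by omega
  obtain ⟨i, g, A, B, hi1, hi2, hgD, hg0, hgb, hP, hle⟩ :=
    CBd_setup (K := K) hq ha hN hc hS hJ hJc hj hz 1 (Or.inl rfl) P hPq (by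
      intro p hp
      rw [h p hp]
      norm_num)
  refine ⟨i, hi1, hi2, ?_⟩
  obtain ⟨hlog, hpos⟩ := CBd_log (m := 2 * i + j + 1) P hPq
  rw [one_mul] at hle
  have hj4 : 4 ^ (j + 2) * N * q ≤ a := by
    refine le_trans ?_ haN
    exact Nat.mul_le_mul_right _ (Nat.mul_le_mul_right _ (Nat.pow_le_pow_right (by norm_num)
      (by omega)))
  have hYu : (4 * (a : ℤ)) ^ j ≤ 4 ^ j * ∏ x ∈ J, (x : ℤ) := by
    have h0 : (0 : ℤ) ≤ 4 ^ j * ∏ x ∈ J, (x : ℤ) := by positivity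
    refine (pow_le_pow_iff_left₀ (by positivity) h0 two_ne_zero).1 ?_
    rw [CBd_prod hJc, ← Finset.prod_pow, ← pow_mul, mul_comm j 2, ← hJc]
    rw [← Finset.prod_const]
    refine Finset.prod_le_prod (fun x _ => by positivity) fun x hx => ?_
    obtain ⟨h1, _⟩ := nn_spec hq1 hS (hJ hx)
    have h3 : (x : ℤ) ^ 2 = a + q * nn q a x := by exact_mod_cast h1
    have h4 : (0 : ℤ) ≤ (q : ℤ) * nn q a x := by positivity
    nlinarith
  have hb := FF_even_le (K := i) (j := j) (H := HS N i j) (N := N) (g := g) (D := DD q a J)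
    (A := A) (B := B) (hjK.trans hi1) hN hgD ((DD_natDegree_le q a J).trans hJc.le) hg0 hgb hP
    (u := 4 * (a : ℤ)) (v := q) (Y := 4 ^ j * ∏ x ∈ J, (x : ℤ)) (by exact_mod_cast hq1)
    (by
      have h1 : ((4 ^ (j + 2) * N * q : ℕ) : ℤ) ≤ a := by exact_mod_cast hj4
      push_cast at h1
      have h2 : (4 : ℤ) ^ (j + 3) = 4 * 4 ^ (j + 2) := by ring
      rw [h2]
      linarith)
    (sq_prod hq1 ha hS hJ hJc) hYu
  have hHpos : (0 : ℝ) < HS N i j := by exact_mod_cast HS_pos (N := N) (K := i) (j := j) hN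
  have ha' : (0 : ℝ) < a := by exact_mod_cast ha
  have hq' : (0 : ℝ) < q := by
    have : 0 < q := by omega
    exact_mod_cast this
  have hN' : (0 : ℝ) < N := by exact_mod_cast hN
  have hu : (((4 * (a : ℤ) : ℤ)) : ℝ) = 4 * (a : ℝ) := by push_cast; rfl
  have hv : (((q : ℤ)) : ℝ) = (q : ℝ) := by push_cast; rfl
  rw [hu, hv] at hb
  have h5 : (∏ p ∈ P, (mr q p : ℝ)) ^ (2 * i + j + 1) * (4 * (a : ℝ)) ^ (i + 1) ≤
      (12 * 16 ^ j * ((i : ℝ) + 1)) * (HS N i j) * ((16 * N) ^ (2 * i + j + 1) *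
        (q : ℝ) ^ (2 * i + j + 1)) := by
    have h6 := mul_le_mul_of_nonneg_right hle (by positivity : (0 : ℝ) ≤ (4 * (a : ℝ)) ^ (i + 1))
    refine h6.trans ?_
    rw [mul_assoc]
    refine (mul_le_mul_of_nonneg_left hb (by norm_num : (0 : ℝ) ≤ 2)).trans (le_of_eq ?_)
    ring
  have hc0 : 0 < 12 * 16 ^ j * ((i : ℝ) + 1) := by positivity
  obtain ⟨c, hc1⟩ : ∃ c, c = 12 * 16 ^ j * ((i : ℝ) + 1) := ⟨_, rfl⟩
  rw [← hc1] at h5 hc0 ⊢
  have h6 := Real.log_le_log (mul_pos hpos (by positivity)) h5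
  rw [Real.log_mul hpos.ne' (by positivity), hlog, Real.log_mul (by positivity) (by positivity),
    Real.log_mul (by positivity) (by positivity), Real.log_mul (by positivity) (by positivity),
    Real.log_pow, Real.log_pow, Real.log_pow] at h6
  push_cast at h6
  linarith

end Pool.Agent.Lib.MP_2c6f70_nt.RU
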