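import Pool.Agent.Lib.MP_2c6f70_nt.RU.CBd
import Pool.Agent.Lib.MP_2c6f70_nt.KW.CorB

/-!
# JOB CCor: the sharp correlation bound

Adapt the proof of `corr_le` in `KW/CorB.lean` (copy it with its private lemmas).  `i` = the index given by `bound_a'` / `bound_b'` (a different one for the even and the odd
primes), `K ≤ i ≤ K + j`, `m = 2 i + j + 1`, `ℓ = log (8 N) ≥ 2`, `X = log q + LL`.
`log HS N i j = (i + 1) log (2 (i+1) 4^j) + (i + 1) (i + j) ℓ`, `m ≥ 2 (i + 1)`, so `2 log HS / m ≤ log (2 (i+1) 4^j) + (i + j) ℓ ≤ (K + 2 j) ℓ + log 2 + log (K + j + 1) + 1.4 j`.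
Everything else: as in `corr_le`, after division by `m` at most `30 k ℓ + log (4 K)`.  `K + j + 1 ≤ 3 K`, `log (3 K) ≤ log K + 1.1`.
-/

set_option autoImplicit false

namespace Pool.Agent.Lib.MP_2c6f70_nt.RU

open Polynomial Pool.Agent.Lib.MP_2c6f70_nt Pool.Agent.Lib.MP_2c6f70_nt.KW

private theorem CCor_div {m K j X R M : ℝ} (hm : 2 * K ≤ m) (hK : 0 < K) (hj : 1 ≤ j)
    (hX : 0 ≤ X) (h : m * M ≤ (j - 1) * X + m * R) : M ≤ (j - 1) / (2 * K) * X + R := by
  have hm0 : 0 < m := by linarith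
  have h1 : M ≤ ((j - 1) * X) / m + R := by
    have h2 : m * M ≤ m * (((j - 1) * X) / m + R) := by
      rw [mul_add, mul_div_cancel₀ _ hm0.ne']
      exact h
    exact le_of_mul_le_mul_left h2 hm0
  have h3 : ((j - 1) * X) / m ≤ ((j - 1) * X) / (2 * K) :=
    div_le_div_of_nonneg_left (mul_nonneg (by linarith) hX) (by linarith) hm
  have h4 : ((j - 1) * X) / (2 * K) = (j - 1) / (2 * K) * X := by ring
  linarith

private theorem CCor_sign (q z p : ℕ) (J : Finset ℕ) :
    ∏ x ∈ J, sg q z p x = 1 ∨ ∏ x ∈ J, sg q z p x = -1 := by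
  classical
  induction J using Finset.induction with
  | empty => exact Or.inl Finset.prod_empty
  | insert y J hy ih =>
    rw [Finset.prod_insert hy]
    rcases sg_eq_or q z p y with h | h <;> rcases ih with h' | h' <;> rw [h, h'] <;> norm_num

private theorem CCor_four : Real.log 4 ≤ 1.4 := by
  have h : Real.log 4 = 2 * Real.log 2 := by
    rw [show (4 : ℝ) = 2 ^ 2 by norm_num, Real.log_pow]
    push_cast
    ring
  rw [h]
  linarith [Real.log_two_lt_d9]

private theorem CCor_eight : 2 ≤ Real.log 8 := by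
  have h : Real.log 8 = 3 * Real.log 2 := by
    rw [show (8 : ℝ) = 2 ^ 3 by norm_num, Real.log_pow]
    push_cast
    ring
  rw [h]
  linarith [Real.log_two_gt_d9]

private theorem CCor_split {q z : ℕ} (J : Finset ℕ) (hq : 2 ≤ q) : ∃ Pe Po : Finset ℕ,
    Pe ⊆ q.primeFactors ∧ Po ⊆ q.primeFactors ∧
    (∀ p ∈ Pe, ∏ x ∈ J, sg q z p x = 1) ∧ (∀ p ∈ Po, ∏ x ∈ J, sg q z p x = -1) ∧
    (∑ p ∈ q.primeFactors, Real.log (mr q p) * ∏ x ∈ J, sg q z p x =
      ∑ p ∈ Pe, Real.log (mr q p) - ∑ p ∈ Po, Real.log (mr q p)) ∧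
    ∑ p ∈ Pe, Real.log (mr q p) + ∑ p ∈ Po, Real.log (mr q p) ≤ Real.log q ∧
    Real.log q - Real.log 8 ≤ ∑ p ∈ Pe, Real.log (mr q p) + ∑ p ∈ Po, Real.log (mr q p) := by
  classical
  have hsum : ∑ p ∈ q.primeFactors, Real.log (mr q p) =
      Real.log ((∏ p ∈ q.primeFactors, mr q p : ℕ) : ℝ) := by
    rw [Nat.cast_prod, Real.log_prod]
    intro p hp
    have := mr_pos hp
    positivity
  obtain ⟨h1, h2⟩ := prod_mr_le (q := q) (by omega)
  have hpos : 1 ≤ ∏ p ∈ q.primeFactors, mr q p := by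
    by_contra h
    have h3 : ∏ p ∈ q.primeFactors, mr q p = 0 := by omega
    rw [h3] at h2
    omega
  have hposR : (0 : ℝ) < ((∏ p ∈ q.primeFactors, mr q p : ℕ) : ℝ) := by exact_mod_cast hpos
  have hle : Real.log ((∏ p ∈ q.primeFactors, mr q p : ℕ) : ℝ) ≤ Real.log q :=
    Real.log_le_log hposR (by exact_mod_cast h1)
  have hge : Real.log q ≤
      Real.log 8 + Real.log ((∏ p ∈ q.primeFactors, mr q p : ℕ) : ℝ) := by
    rw [← Real.log_mul (by norm_num) hposR.ne']
    refine Real.log_le_log (by exact_mod_cast (by omega : 0 < q)) ?_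
    exact_mod_cast h2
  have hadd : ∑ p ∈ q.primeFactors.filter (fun p => ∏ x ∈ J, sg q z p x = 1),
      Real.log (mr q p) + ∑ p ∈ q.primeFactors.filter (fun p => ¬ ∏ x ∈ J, sg q z p x = 1),
      Real.log (mr q p) = Real.log ((∏ p ∈ q.primeFactors, mr q p : ℕ) : ℝ) := by
    rw [Finset.sum_filter_add_sum_filter_not, hsum]
  have he : ∀ p ∈ q.primeFactors.filter (fun p => ∏ x ∈ J, sg q z p x = 1),
      ∏ x ∈ J, sg q z p x = 1 := fun p hp => (Finset.mem_filter.1 hp).2
  have ho : ∀ p ∈ q.primeFactors.filter (fun p => ¬ ∏ x ∈ J, sg q z p x = 1),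
      ∏ x ∈ J, sg q z p x = -1 := fun p hp =>
    (CCor_sign q z p J).resolve_left (Finset.mem_filter.1 hp).2
  refine ⟨q.primeFactors.filter (fun p => ∏ x ∈ J, sg q z p x = 1),
    q.primeFactors.filter (fun p => ¬ ∏ x ∈ J, sg q z p x = 1), Finset.filter_subset _ _,
    Finset.filter_subset _ _, he, ho, ?_, ?_, ?_⟩
  · rw [← Finset.sum_filter_add_sum_filter_not q.primeFactors
      (fun p => ∏ x ∈ J, sg q z p x = 1), Finset.sum_congr rfl (fun p hp => by
        rw [he p hp, mul_one] : ∀ p ∈ q.primeFactors.filter (fun p => ∏ x ∈ J, sg q z p x = 1),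
          Real.log (mr q p) * ∏ x ∈ J, sg q z p x = Real.log (mr q p)),
      Finset.sum_congr rfl (fun p hp => by
        rw [ho p hp, mul_neg_one] :
          ∀ p ∈ q.primeFactors.filter (fun p => ¬ ∏ x ∈ J, sg q z p x = 1),
          Real.log (mr q p) * ∏ x ∈ J, sg q z p x = -Real.log (mr q p)),
      Finset.sum_neg_distrib]
    ring
  · rw [hadd]
    exact hle
  · rw [hadd]
    linarith

private theorem CCor_HS {N K k i j : ℕ} (hN : 1 ≤ N) (hj : 1 ≤ j) (hjk : j ≤ k) (hkK : k ≤ K)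
    (hi2 : i ≤ K + j) :
    2 * Real.log (HS N i j) ≤ (2 * (i : ℝ) + j + 1) *
      (((K : ℝ) + 2 * k) * Real.log (8 * N) + Real.log K + 1.8 + 1.4 * k) := by
  have hN' : (1 : ℝ) ≤ N := by exact_mod_cast hN
  have hj' : (1 : ℝ) ≤ j := by exact_mod_cast hj
  have hjk' : (j : ℝ) ≤ k := by exact_mod_cast hjk
  have hkK' : (k : ℝ) ≤ K := by exact_mod_cast hkK
  have hi2' : (i : ℝ) ≤ K + j := by exact_mod_cast hi2
  have hi0 : (0 : ℝ) ≤ i := by positivity
  have hl0 : 0 ≤ Real.log (8 * N) := Real.log_nonneg (by linarith)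
  have e1 : Real.log (HS N i j) = ((i : ℝ) + 1) *
      (Real.log (2 * ((i : ℝ) + 1) * 4 ^ j) + ((i : ℝ) + j) * Real.log (8 * N)) := by
    unfold HS
    push_cast
    rw [Real.log_mul (by positivity) (by positivity), Real.log_pow, Real.log_pow]
    push_cast
    ring
  have e2 : Real.log (2 * ((i : ℝ) + 1) * 4 ^ j) =
      Real.log 2 + Real.log ((i : ℝ) + 1) + j * Real.log 4 := by
    rw [Real.log_mul (by positivity) (by positivity), Real.log_mul (by norm_num) (by positivity),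
      Real.log_pow]
  have e3 : Real.log ((i : ℝ) + 1) ≤ 1.1 + Real.log K := by
    have h1 : Real.log ((i : ℝ) + 1) ≤ Real.log (3 * K) :=
      Real.log_le_log (by positivity) (by linarith)
    rw [Real.log_mul (by norm_num) (by linarith)] at h1
    have h3 : Real.log 3 ≤ 1.1 := by
      have h4 : Real.log 3 ≤ Real.log 2 + (3 / 2 - 1) := by
        have h5 : (3 : ℝ) = 2 * (3 / 2) := by norm_num
        have h6 : Real.log (3 / 2) ≤ 3 / 2 - 1 := Real.log_le_sub_one_of_pos (by norm_num)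
        have h7 : Real.log 3 = Real.log 2 + Real.log (3 / 2) := by
          rw [← Real.log_mul (by norm_num) (by norm_num)]
          norm_num
        linarith
      have h8 : 5 * Real.log 3 ≤ 8 * Real.log 2 := by
        have h9 : Real.log ((3 : ℝ) ^ 5) ≤ Real.log ((2 : ℝ) ^ 8) :=
          Real.log_le_log (by norm_num) (by norm_num)
        rw [Real.log_pow, Real.log_pow] at h9
        push_cast at h9
        exact h9
      have h10 : 12 * Real.log 3 ≤ 19 * Real.log 2 + Real.log (3 ^ 12 / 2 ^ 19) := by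
        have h11 : Real.log ((3 : ℝ) ^ 12 / 2 ^ 19) = 12 * Real.log 3 - 19 * Real.log 2 := by
          rw [Real.log_div (by norm_num) (by norm_num), Real.log_pow, Real.log_pow]
          push_cast
          ring
        linarith
      have h12 : Real.log ((3 : ℝ) ^ 12 / 2 ^ 19) ≤ 3 ^ 12 / 2 ^ 19 - 1 :=
        Real.log_le_sub_one_of_pos (by norm_num)
      have h13 : (3 : ℝ) ^ 12 / 2 ^ 19 - 1 ≤ 0.0137 := by norm_num
      linarith [Real.log_two_lt_d9]
    linarith
  have e4 : (j : ℝ) * Real.log 4 ≤ 1.4 * k := by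
    have h1 : (j : ℝ) * Real.log 4 ≤ j * 1.4 :=
      mul_le_mul_of_nonneg_left CCor_four (by linarith)
    linarith
  have e5 : ((i : ℝ) + j) * Real.log (8 * N) ≤ ((K : ℝ) + 2 * k) * Real.log (8 * N) :=
    mul_le_mul_of_nonneg_right (by linarith) hl0
  have e6 : 0 ≤ ((K : ℝ) + 2 * k) * Real.log (8 * N) + Real.log K + 1.8 + 1.4 * k := by
    have h1 : 0 ≤ Real.log K := Real.log_nonneg (by linarith)
    have h2 : 0 ≤ ((K : ℝ) + 2 * k) * Real.log (8 * N) := mul_nonneg (by linarith) hl0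
    linarith
  rw [e1, e2]
  have e7 : Real.log 2 + Real.log ((i : ℝ) + 1) + j * Real.log 4 +
      ((i : ℝ) + j) * Real.log (8 * N) ≤
      ((K : ℝ) + 2 * k) * Real.log (8 * N) + Real.log K + 1.8 + 1.4 * k := by
    linarith [Real.log_two_lt_d9]
  calc 2 * (((i : ℝ) + 1) * (Real.log 2 + Real.log ((i : ℝ) + 1) + j * Real.log 4 +
      ((i : ℝ) + j) * Real.log (8 * N)))
      = (2 * ((i : ℝ) + 1)) * (Real.log 2 + Real.log ((i : ℝ) + 1) + j * Real.log 4 +
      ((i : ℝ) + j) * Real.log (8 * N)) := by ring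
    _ ≤ (2 * ((i : ℝ) + 1)) * (((K : ℝ) + 2 * k) * Real.log (8 * N) + Real.log K + 1.8 +
        1.4 * k) := mul_le_mul_of_nonneg_left e7 (by positivity)
    _ ≤ _ := mul_le_mul_of_nonneg_right (by linarith) e6

private theorem CCor_a {i j : ℕ} (hi : 1 ≤ i) :
    2 * Real.log (4 * ((i : ℝ) + j + 1)) ≤ (2 * (i : ℝ) + j + 1) * 2 := by
  have hi' : (1 : ℝ) ≤ i := by exact_mod_cast hi
  have hj' : (0 : ℝ) ≤ j := by positivity
  rw [Real.log_mul (by norm_num) (by positivity)]
  have h1 : Real.log ((i : ℝ) + j + 1) ≤ (i : ℝ) + j + 1 - 1 :=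
    Real.log_le_sub_one_of_pos (by positivity)
  linarith [CCor_four]

private theorem CCor_b {i j : ℕ} (hi : 1 ≤ i) (hij : j ≤ i) :
    2 * Real.log (12 * 16 ^ j * ((i : ℝ) + 1)) ≤ (2 * (i : ℝ) + j + 1) * 6 := by
  have hi' : (1 : ℝ) ≤ i := by exact_mod_cast hi
  have hij' : (j : ℝ) ≤ i := by exact_mod_cast hij
  have hj' : (0 : ℝ) ≤ j := by positivity
  rw [Real.log_mul (by positivity) (by positivity), Real.log_mul (by norm_num) (by positivity),
    Real.log_pow]
  have h1 : Real.log ((i : ℝ) + 1) ≤ (i : ℝ) + 1 - 1 :=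
    Real.log_le_sub_one_of_pos (by positivity)
  have h2 : Real.log 16 = 2 * Real.log 4 := by
    rw [show (16 : ℝ) = 4 ^ 2 by norm_num, Real.log_pow]
    push_cast
    ring
  have h3 : Real.log 12 ≤ 2.8 := by
    have h4 : Real.log 12 ≤ Real.log 16 := Real.log_le_log (by norm_num) (by norm_num)
    rw [h2] at h4
    linarith [CCor_four]
  have h5 : (j : ℝ) * Real.log 16 ≤ j * 2.8 :=
    mul_le_mul_of_nonneg_left (by rw [h2]; linarith [CCor_four]) hj'
  linarith

/-- First type of bound, divided by the modulus. -/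
private theorem CCor_divA {m i j K k Y X C w A H Hb : ℝ} (hm : m = 2 * i + j + 1) (hK : 0 < K)
    (hKi : K ≤ i) (hj : 1 ≤ j) (hjk : j ≤ k) (hX : 0 ≤ X) (hC : 0 ≤ C) (hY : Y ≤ X + C)
    (h : m * w ≤ A + H + (i + j) * Y) (hA : 2 * A ≤ m * 2) (hH : 2 * H ≤ m * Hb) :
    2 * w - X ≤ (k - 1) / (2 * K) * X + (2 + Hb + 2 * C) := by
  have h1 : 2 * w - X ≤ (j - 1) / (2 * K) * X + (2 + Hb + 2 * C) := by
    refine CCor_div (m := m) (by linarith) hK hj hX ?_
    have e1 : (i + j) * Y ≤ (i + j) * (X + C) := mul_le_mul_of_nonneg_left hY (by linarith)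
    have e2 : 2 * ((i + j) * (X + C)) = (m + (j - 1)) * X + (m + (j - 1)) * C := by
      rw [hm]; ring
    have e3 : (m + (j - 1)) * C ≤ (2 * m) * C := mul_le_mul_of_nonneg_right (by linarith) hC
    have e4 : m * (2 * w - X) = 2 * (m * w) - m * X := by ring
    have e5 : (m + (j - 1)) * X = m * X + (j - 1) * X := by ring
    have e6 : m * (2 + Hb + 2 * C) = m * 2 + m * Hb + (2 * m) * C := by ring
    rw [e4, e6]
    linarith
  have h2 : (j - 1) / (2 * K) * X ≤ (k - 1) / (2 * K) * X :=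
    mul_le_mul_of_nonneg_right (div_le_div_of_nonneg_right (by linarith) (by linarith)) hX
  linarith

/-- Second type of bound, divided by the modulus. -/
private theorem CCor_divB {m i j K k X W T L4 w A H Hb : ℝ} (hm : m = 2 * i + j + 1) (hK : 0 < K)
    (hKi : K ≤ i) (hj : 1 ≤ j) (hjk : j ≤ k) (hX : 0 ≤ X) (hL4 : X ≤ L4)
    (h : m * w ≤ A + H + m * (T + W) - (i + 1) * L4) (hA : 2 * A ≤ m * 6)
    (hH : 2 * H ≤ m * Hb) :
    2 * w - 2 * W + X ≤ (k - 1) / (2 * K) * X + (6 + Hb + 2 * T) := by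
  have h1 : 2 * w - 2 * W + X ≤ (j - 1) / (2 * K) * X + (6 + Hb + 2 * T) := by
    refine CCor_div (m := m) (by linarith) hK hj hX ?_
    have e1 : (i + 1) * X ≤ (i + 1) * L4 := mul_le_mul_of_nonneg_left hL4 (by linarith)
    have e2 : 2 * ((i + 1) * X) = m * X - (j - 1) * X := by
      rw [hm]; ring
    have e4 : m * (2 * w - 2 * W + X) = 2 * (m * w) - 2 * (m * W) + m * X := by ring
    have e5 : m * (T + W) = m * T + m * W := by ring
    have e6 : m * (6 + Hb + 2 * T) = m * 6 + m * Hb + 2 * (m * T) := by ring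
    rw [e4, e6]
    rw [e5] at h
    linarith
  have h2 : (j - 1) / (2 * K) * X ≤ (k - 1) / (2 * K) * X :=
    mul_le_mul_of_nonneg_right (div_le_div_of_nonneg_right (by linarith) (by linarith)) hX
  linarith

theorem corr_sharp {q a N j K k : ℕ} {S J : Finset ℕ} (hq : 2 ≤ q) (ha : 1 ≤ a) (hN : 1 ≤ N)
    (hc : Nat.Coprime q a) (hS : Rts q a N S) (hJ : J ⊆ S) (hJc : J.card = 2 * j) (hj : 1 ≤ j)
    (hjk : j ≤ k) (hkK : k ≤ K) {z : ℕ} (hz : z ∈ S) :
    |GG q z J + LL q a N k| ≤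
      ((k : ℝ) - 1) / (2 * K) * (Real.log q + LL q a N k) + ((K : ℝ) + 40 * k) * Real.log (8 * N) +
        2 * Real.log K := by
  have hL := LL_nonneg (q := q) (a := a) (N := N) (k := k) (by omega) hN
  obtain ⟨Pe, Po, hPe, hPo, he, ho, hdiff, hsumle, hsumge⟩ := CCor_split (z := z) J hq
  unfold GG
  obtain ⟨W, hWd⟩ : ∃ W : ℝ, W = Real.log q := ⟨_, rfl⟩
  obtain ⟨l, hl⟩ : ∃ l : ℝ, l = Real.log (8 * N) := ⟨_, rfl⟩
  obtain ⟨we, hwe⟩ : ∃ w : ℝ, w = ∑ p ∈ Pe, Real.log (mr q p) := ⟨_, rfl⟩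
  obtain ⟨wo, hwo⟩ : ∃ w : ℝ, w = ∑ p ∈ Po, Real.log (mr q p) := ⟨_, rfl⟩
  have hjK : j ≤ K := hjk.trans hkK
  have hN' : (1 : ℝ) ≤ N := by exact_mod_cast hN
  have hj' : (1 : ℝ) ≤ j := by exact_mod_cast hj
  have hjk' : (j : ℝ) ≤ k := by exact_mod_cast hjk
  have hkK' : (k : ℝ) ≤ K := by exact_mod_cast hkK
  have hk1 : (1 : ℝ) ≤ k := by linarith
  have hK1 : (1 : ℝ) ≤ K := by linarith
  have hqR : (2 : ℝ) ≤ q := by exact_mod_cast hq
  have haR : (1 : ℝ) ≤ a := by exact_mod_cast ha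
  have hlN : l = Real.log 8 + Real.log N := by
    rw [hl, Real.log_mul (by norm_num) (by linarith)]
  have hlogN : 0 ≤ Real.log N := Real.log_nonneg hN'
  have hl8 : Real.log 8 ≤ l := by linarith
  have h80 : 0 ≤ Real.log 8 := by linarith [CCor_eight]
  have hl2 : 2 ≤ l := by linarith [CCor_eight]
  have hW0 : 0 ≤ W := by
    rw [hWd]
    exact Real.log_nonneg (by linarith)
  have hlK : 0 ≤ Real.log K := Real.log_nonneg hK1
  have hkl : (k : ℝ) * 2 ≤ k * l := mul_le_mul_of_nonneg_left hl2 (by linarith)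
  have hl1 : l ≤ k * l := le_mul_of_one_le_left (by linarith) hk1
  rw [hdiff, ← hwe, ← hwo, ← hl, ← hWd]
  rw [← hwe, ← hwo, ← hWd] at hsumle hsumge
  obtain ⟨X, hXd⟩ : ∃ X : ℝ, X = W + LL q a N k := ⟨_, rfl⟩
  have hX : 0 ≤ X := by linarith
  obtain ⟨Hb, hHbd⟩ : ∃ Hb : ℝ, Hb = ((K : ℝ) + 2 * k) * l + Real.log K + 1.8 + 1.4 * k :=
    ⟨_, rfl⟩
  have hHb : ∀ i : ℕ, i ≤ K + j →
      2 * Real.log (HS N i j) ≤ (2 * (i : ℝ) + j + 1) * Hb := by
    intro i hi
    rw [hHbd, hl]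
    exact CCor_HS hN hj hjk hkK hi
  obtain ⟨io, hio1, hio2, hbo⟩ := bound_a' hq ha hN hc hS hJ hJc hj hjK hz (-1) (Or.inr rfl)
    Po hPo (fun p hp => by rw [ho p hp]; norm_num)
  rw [← hwo] at hbo
  have hio1' : (K : ℝ) ≤ io := by exact_mod_cast hio1
  have hio0 : 1 ≤ io := by omega
  by_cases hcase : 4 ^ (k + 2) * N * q ≤ a
  · -- the place at infinity
    have hLL : LL q a N k = Real.log a - W := by
      unfold LL
      rw [if_pos hcase, hWd]
    have hla : Real.log a = X := by linarith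
    have hNq : (N : ℝ) * q ≤ a := by
      have h1 : N * q ≤ a := by
        refine le_trans ?_ hcase
        have h2 : 1 ≤ 4 ^ (k + 2) := Nat.one_le_pow _ _ (by norm_num)
        calc N * q = 1 * (N * q) := (one_mul _).symm
          _ ≤ 4 ^ (k + 2) * (N * q) := Nat.mul_le_mul_right _ h2
          _ = 4 ^ (k + 2) * N * q := (mul_assoc _ _ _).symm
      exact_mod_cast h1
    have hlog1 : Real.log (4 * ((a : ℝ) + q * N)) ≤ X + Real.log 8 := by
      rw [← hla, ← Real.log_mul (by linarith) (by norm_num)]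
      refine Real.log_le_log (by positivity) ?_
      linarith [mul_comm (N : ℝ) q]
    obtain ⟨ie, hie1, hie2, hbe⟩ := bound_b' hq ha hN hc hS hJ hJc hj hjk hjK hcase hz Pe hPe he
    rw [← hwe, ← hWd] at hbe
    have hie1' : (K : ℝ) ≤ ie := by exact_mod_cast hie1
    have hie0 : 1 ≤ ie := by omega
    have hlog2 : X ≤ Real.log (4 * a) := by
      rw [← hla]
      exact Real.log_le_log (by linarith) (by linarith)
    have hlog16 : Real.log (16 * N) ≤ l + 0.7 := by
      have h1 : (16 : ℝ) * N = 2 * (8 * N) := by ring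
      rw [h1, Real.log_mul (by norm_num) (by positivity), ← hl]
      linarith [Real.log_two_lt_d9]
    have ra := CCor_divA rfl (by linarith) hio1' hj' hjk' hX h80 hlog1 hbo
      (CCor_a hio0) (hHb io hio2)
    have rb := CCor_divB rfl (by linarith) hie1' hj' hjk' hX hlog2 hbe
      (CCor_b hie0 (by omega)) (hHb ie hie2)
    rw [← hXd, abs_le]
    have hLX : LL q a N k = X - W := by linarith
    have ek : ((K : ℝ) + 40 * k) * l = ((K : ℝ) + 2 * k) * l + 38 * (k * l) := by ring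
    rw [hLX, ek]
    constructor
    · linarith
    · linarith
  · -- no weight at infinity
    have hLL : LL q a N k = 0 := by
      unfold LL
      rw [if_neg hcase]
    obtain ⟨ie, hie1, hie2, hbe⟩ := bound_a' hq ha hN hc hS hJ hJc hj hjK hz 1 (Or.inl rfl)
      Pe hPe (fun p hp => by rw [he p hp]; norm_num)
    rw [← hwe] at hbe
    have hie1' : (K : ℝ) ≤ ie := by exact_mod_cast hie1
    have hie0 : 1 ≤ ie := by omega
    have hlog1 : Real.log (4 * ((a : ℝ) + q * N)) ≤ W + (l + (k + 4) * Real.log 4) := by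
      have h1 : a + q * N ≤ 4 ^ (k + 3) * (N * q) := by
        have h2 : a ≤ 4 ^ (k + 2) * (N * q) := by
          rw [← mul_assoc]
          exact (not_le.mp hcase).le
        have h3 : 1 ≤ 4 ^ (k + 2) := Nat.one_le_pow _ _ (by norm_num)
        have h4 : 1 * (N * q) ≤ 4 ^ (k + 2) * (N * q) := Nat.mul_le_mul_right _ h3
        have h5 : 4 ^ (k + 3) * (N * q) = 4 * (4 ^ (k + 2) * (N * q)) := by ring
        have h6 : q * N = N * q := mul_comm _ _
        omega
      have h2 : (4 : ℝ) * ((a : ℝ) + q * N) ≤ 4 ^ (k + 4) * (N * q) := by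
        have h3 : ((a + q * N : ℕ) : ℝ) ≤ ((4 ^ (k + 3) * (N * q) : ℕ) : ℝ) := by
          exact_mod_cast h1
        push_cast at h3
        have h4 : (4 : ℝ) ^ (k + 4) * (N * q) = 4 * (4 ^ (k + 3) * (N * q)) := by ring
        rw [h4]
        linarith
      have h3 : Real.log (4 ^ (k + 4) * ((N : ℝ) * q)) =
          (k + 4) * Real.log 4 + (Real.log N + W) := by
        rw [Real.log_mul (by positivity) (by positivity),
          Real.log_mul (by positivity) (by positivity), Real.log_pow, hWd]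
        push_cast
        ring
      have h4 := Real.log_le_log (by positivity) h2
      rw [h3] at h4
      linarith
    have h40 : 0 ≤ Real.log 4 := Real.log_nonneg (by norm_num)
    have hk4 : ((k : ℝ) + 4) * Real.log 4 ≤ 7 * k := by
      have h1 : ((k : ℝ) + 4) * Real.log 4 ≤ (5 * k) * 1.4 :=
        mul_le_mul (by linarith) CCor_four h40 (by linarith)
      linarith
    have hC : 0 ≤ l + (k + 4) * Real.log 4 := by
      have h1 : 0 ≤ ((k : ℝ) + 4) * Real.log 4 := mul_nonneg (by linarith) h40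
      linarith
    have hXW : X = W := by linarith
    have ra := CCor_divA rfl (by linarith) hio1' hj' hjk' hW0 hC hlog1 hbo
      (CCor_a hio0) (hHb io hio2)
    have rb := CCor_divA rfl (by linarith) hie1' hj' hjk' hW0 hC hlog1 hbe
      (CCor_a hie0) (hHb ie hie2)
    rw [hLL, add_zero, add_zero, abs_le]
    have ek : ((K : ℝ) + 40 * k) * l = ((K : ℝ) + 2 * k) * l + 38 * (k * l) := by ring
    rw [ek]
    constructor
    · linarith
    · linarith

end Pool.Agent.Lib.MP_2c6f70_nt.RU
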