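import Pool.Agent.Lib.MP_2c6f70_nt.RU.Defs

/-!
# Block C: definitions
`HS N K j`: the bound of the coefficients of the Pade approximants (weighted pigeonhole).
`GG q z J`: the correlation of the sign vectors of the elements of `J`.
-/

set_option autoImplicit false

namespace Pool.Agent.Lib.MP_2c6f70_nt.RU

open Pool.Agent.Lib.MP_2c6f70_nt Pool.Agent.Lib.MP_2c6f70_nt.KW

/-- The bound of the coefficients. -/
def HS (N K j : ℕ) : ℕ := (2 * (K + 1) * 4 ^ j) ^ (K + 1) * (8 * N) ^ ((K + 1) * (K + j))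

/-- The correlation of the sign vectors of the elements of `J`. -/
noncomputable def GG (q z : ℕ) (J : Finset ℕ) : ℝ :=
  ∑ p ∈ q.primeFactors, Real.log (mr q p) * ∏ x ∈ J, sg q z p x

theorem HS_pos {N K j : ℕ} (hN : 1 ≤ N) : 1 ≤ HS N K j := by
  unfold HS
  have : 0 < N := hN
  exact Nat.succ_le_of_lt (by positivity)

end Pool.Agent.Lib.MP_2c6f70_nt.RU
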