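import Pool.Agent.Lib.MP_2c6f70_nt.RU.CDefs
import Pool.Agent.Lib.MP_2c6f70_nt.KW.Rank

/-!
# JOB CLam: the weight at infinity is small; correlations of two and four sign vectors
-/

set_option autoImplicit false

namespace Pool.Agent.Lib.MP_2c6f70_nt.RU

open Pool.Agent.Lib.MP_2c6f70_nt Pool.Agent.Lib.MP_2c6f70_nt.KW

/-- `C log (8 N) ≤ N^(1/4)` and `C ≤ N^(1/4)` for large `N`. -/
private theorem CLam_large (C : ℝ) : ∃ N₀ : ℕ, ∀ N : ℕ, N₀ ≤ N →
    C * Real.log (8 * N) ≤ (N : ℝ) ^ (1 / 4 : ℝ) ∧ C ≤ (N : ℝ) ^ (1 / 4 : ℝ) := by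
  have t : Filter.Tendsto (fun N : ℕ => (N : ℝ) ^ (1 / 8 : ℝ)) Filter.atTop Filter.atTop :=
    (tendsto_rpow_atTop (by norm_num)).comp tendsto_natCast_atTop_atTop
  obtain ⟨N₁, h₁⟩ := Filter.eventually_atTop.1
    (t.eventually_ge_atTop (|C| * (8 * (8 : ℝ) ^ (1 / 8 : ℝ)) + |C| + 1))
  refine ⟨N₁, fun N hN => ?_⟩
  have h2 := h₁ N hN
  have h8 : (0 : ℝ) ≤ (8 : ℝ) ^ (1 / 8 : ℝ) := Real.rpow_nonneg (by norm_num) _
  have hC : 0 ≤ |C| := abs_nonneg C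
  set y : ℝ := (N : ℝ) ^ (1 / 8 : ℝ) with hy
  have hy1 : 1 ≤ y := by nlinarith [mul_nonneg hC h8]
  have hN0 : (0 : ℝ) ≤ N := Nat.cast_nonneg N
  have e : (N : ℝ) ^ (1 / 4 : ℝ) = y * y := by
    have hN1 : N ≠ 0 := by
      rintro rfl
      rw [hy, Nat.cast_zero, Real.zero_rpow (by norm_num)] at hy1
      linarith
    have hpos : (0 : ℝ) < N := by exact_mod_cast Nat.pos_of_ne_zero hN1
    rw [hy, ← Real.rpow_add hpos]
    norm_num
  have hlog : Real.log (8 * N) ≤ 8 * (8 : ℝ) ^ (1 / 8 : ℝ) * y := by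
    have h3 := Real.log_le_rpow_div (x := 8 * (N : ℝ)) (by positivity)
      (show (0 : ℝ) < 1 / 8 by norm_num)
    rw [Real.mul_rpow (by norm_num) hN0] at h3
    calc Real.log (8 * N) ≤ (8 : ℝ) ^ (1 / 8 : ℝ) * (N : ℝ) ^ (1 / 8 : ℝ) / (1 / 8) := h3
      _ = _ := by rw [hy]; ring
  have hlog0 : 0 ≤ Real.log (8 * N) := by
    have h3 : (8 : ℝ) * N = ((8 * N : ℕ) : ℝ) := by push_cast; ring
    rw [h3]
    exact Real.log_natCast_nonneg _
  constructor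
  · calc C * Real.log (8 * N) ≤ |C| * Real.log (8 * N) :=
        mul_le_mul_of_nonneg_right (le_abs_self C) hlog0
      _ ≤ |C| * (8 * (8 : ℝ) ^ (1 / 8 : ℝ) * y) := mul_le_mul_of_nonneg_left hlog hC
      _ = (|C| * (8 * (8 : ℝ) ^ (1 / 8 : ℝ))) * y := by ring
      _ ≤ y * y := mul_le_mul_of_nonneg_right (by linarith) (by linarith)
      _ = _ := e.symm
  · rw [e]
    have h3 := le_abs_self C
    have h4 : |C| ≤ y := by nlinarith [mul_nonneg hC h8]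
    nlinarith

/-- `rank_ineq` with the fixed `k` and `K = K(c, k)` constant, `I = S.powersetCard k`, `n = C(#S, k) → ∞` (`#S ≥ N^(1/4)`):
`LL^2 ≤ (W + LL)^2 (1/n + (k/K)^2)`, so `LL ≤ δ (W + LL)`, `δ = sqrt (1/n + (k/K)^2)` small, `LL ≤ c W`.  The hypothesis `50 K^2 log (8N) ≤ log q`
holds for large `N` because `log q ≥ N^(1/4)`. -/
theorem LL_small (c : ℝ) (hc : 0 < c) (k : ℕ) (hk : 1 ≤ k) : ∃ N₀ : ℕ, ∀ N ≥ N₀, ∀ (q a : ℕ) (S : Finset ℕ),
    Ctx q a N S → (N : ℝ) ^ (1 / 4 : ℝ) ≤ Real.log q → (N : ℝ) ^ (1 / 4 : ℝ) ≤ (S.card : ℝ) →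
      LL q a N k ≤ c * Real.log q := by
  classical
  obtain ⟨δ, hδ⟩ : ∃ δ : ℝ, δ = c / (1 + c) := ⟨_, rfl⟩
  have hδ0 : 0 < δ := by rw [hδ]; positivity
  have hδ1 : δ < 1 := by rw [hδ, div_lt_one (by linarith)]; linarith
  have hδc : δ * (1 + c) = c := by
    rw [hδ]
    field_simp
  have hkr : (1 : ℝ) ≤ k := by exact_mod_cast hk
  obtain ⟨K, hK⟩ := exists_nat_ge (2 * (k : ℝ) / δ)
  have hK2 : 2 * (k : ℝ) ≤ δ * K := by
    rw [div_le_iff₀ hδ0] at hK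
    linarith
  have hKr : (0 : ℝ) < K := by
    by_contra h
    have h1 : δ * (K : ℝ) ≤ 0 := mul_nonpos_of_nonneg_of_nonpos hδ0.le (not_lt.1 h)
    linarith
  have hkK : k ≤ K := by
    have h1 : (k : ℝ) ≤ K := by nlinarith
    exact_mod_cast h1
  obtain ⟨N₁, h₁⟩ := CLam_large (50 * (K : ℝ) ^ 2)
  obtain ⟨N₂, h₂⟩ := CLam_large ((k.factorial : ℝ) * (2 / δ ^ 2) + k)
  refine ⟨max N₁ N₂, fun N hN q a S hctx hq hS => ?_⟩
  have a1 := (h₁ N (le_trans (le_max_left _ _) hN)).1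
  have a2 := (h₂ N (le_trans (le_max_right _ _) hN)).2
  have key := rank_ineq hctx.hq hctx.ha hctx.hN hctx.cop hctx.rts hk hkK (a1.trans hq)
    (S.powersetCard k) (Finset.Subset.refl _)
  have hL := LL_nonneg (q := q) (a := a) (N := N) (k := k) (by have := hctx.hq; omega) hctx.hN
  have hW : 0 ≤ Real.log q := Real.log_natCast_nonneg q
  rw [Finset.card_powersetCard] at key
  set n : ℝ := ((S.card.choose k : ℕ) : ℝ) with hn
  have hfac : (0 : ℝ) < k.factorial := by exact_mod_cast Nat.factorial_pos k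
  have hnδ : 2 / δ ^ 2 ≤ n := by
    have b1 : ((S.card + 1 - k : ℕ) : ℝ) ^ k ≤ k.factorial * n := by
      have := Nat.pow_le_choose (α := ℝ) k S.card
      rw [div_le_iff₀ hfac] at this
      linarith
    have b2 : (k.factorial : ℝ) * (2 / δ ^ 2) ≤ ((S.card + 1 - k : ℕ) : ℝ) := by
      have b3 : (k.factorial : ℝ) * (2 / δ ^ 2) + k ≤ S.card := a2.trans hS
      have b4 : (0 : ℝ) ≤ (k.factorial : ℝ) * (2 / δ ^ 2) := by positivity
      have b5 : k ≤ S.card := by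
        have : (k : ℝ) ≤ S.card := by linarith
        exact_mod_cast this
      have b6 : ((S.card + 1 - k : ℕ) : ℝ) = S.card + 1 - k := by
        rw [Nat.cast_sub (by omega)]
        push_cast
        ring
      rw [b6]
      linarith
    have b7 : ((S.card + 1 - k : ℕ) : ℝ) ≤ ((S.card + 1 - k : ℕ) : ℝ) ^ k := by
      have b8 : 1 ≤ S.card + 1 - k := by
        by_contra h
        have h0 : S.card + 1 - k = 0 := by omega
        rw [h0] at b2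
        have : (0 : ℝ) < (k.factorial : ℝ) * (2 / δ ^ 2) := by positivity
        push_cast at b2
        linarith
      have b9 := Nat.le_self_pow (show k ≠ 0 by omega) (S.card + 1 - k)
      exact_mod_cast b9
    have b10 : (k.factorial : ℝ) * (2 / δ ^ 2) ≤ k.factorial * n := b2.trans (b7.trans b1)
    exact le_of_mul_le_mul_left b10 hfac
  have hn0 : 0 < n := lt_of_lt_of_le (by positivity) hnδ
  have hnδ' : 2 ≤ δ ^ 2 * n := by
    rw [div_le_iff₀ (by positivity)] at hnδ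
    linarith
  have hsum : 0 ≤ ∑ p ∈ q.primeFactors, Real.log (mr q p) ^ 2 :=
    Finset.sum_nonneg fun p _ => sq_nonneg _
  set M : ℝ := Real.log q + LL q a N k with hM
  have hM0 : 0 ≤ M := by linarith
  have hkKr : (k : ℝ) / K ≤ δ / 2 := by
    rw [div_le_iff₀ hKr]
    linarith
  have hkK2 : ((k : ℝ) / K) ^ 2 ≤ δ ^ 2 / 4 := by
    have h1 : 0 ≤ (k : ℝ) / K := by positivity
    nlinarith
  have h3 : n * LL q a N k ^ 2 ≤ M ^ 2 * (n * δ ^ 2) := by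
    have c1 : n * LL q a N k ^ 2 ≤ M ^ 2 * (1 + n * ((k : ℝ) / K) ^ 2) := by
      refine le_trans ?_ key
      exact mul_le_mul_of_nonneg_left (by linarith) hn0.le
    refine c1.trans ?_
    refine mul_le_mul_of_nonneg_left ?_ (sq_nonneg _)
    have c2 : n * ((k : ℝ) / K) ^ 2 ≤ n * (δ ^ 2 / 4) := mul_le_mul_of_nonneg_left hkK2 hn0.le
    nlinarith
  have h4 : LL q a N k ^ 2 ≤ (δ * M) ^ 2 := by
    have c3 : n * LL q a N k ^ 2 ≤ n * (δ * M) ^ 2 := by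
      calc _ ≤ M ^ 2 * (n * δ ^ 2) := h3
        _ = _ := by ring
    exact le_of_mul_le_mul_left c3 hn0
  have h5 : LL q a N k ≤ δ * M := by
    have c4 := abs_le_of_sq_le_sq h4 (mul_nonneg hδ0.le hM0)
    exact (le_abs_self _).trans c4
  have h6 : (1 + c) * LL q a N k ≤ c * (Real.log q + LL q a N k) := by
    calc (1 + c) * LL q a N k ≤ (1 + c) * (δ * M) := mul_le_mul_of_nonneg_left h5 (by linarith)
      _ = (δ * (1 + c)) * M := by ring
      _ = _ := by rw [hδc, hM]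
  linarith

/-- `corr_le` (file `KW/CorB.lean`) with `k = 2`, `K = K(c)` constant, and `LL_small`: `|G| ≤ (1/(2K)) (W + LL) + 25 K log (8N) + LL`. -/
theorem corr24' (c : ℝ) (hc : 0 < c) : ∃ N₀ : ℕ, ∀ N ≥ N₀, ∀ (q a : ℕ) (S : Finset ℕ) (z : ℕ),
    Ctx q a N S → (N : ℝ) ^ (1 / 4 : ℝ) ≤ Real.log q → (N : ℝ) ^ (1 / 4 : ℝ) ≤ (S.card : ℝ) → z ∈ S →
    ∀ J ⊆ S, J.card = 2 ∨ J.card = 4 →
      |∑ p ∈ q.primeFactors, wp q p * ∏ x ∈ J, sg q z p x| ≤ c * Real.log q := by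
  obtain ⟨c₁, hc₁⟩ : ∃ c₁ : ℝ, c₁ = min (c / 4) 1 := ⟨_, rfl⟩
  have hc₁0 : 0 < c₁ := by rw [hc₁]; exact lt_min (by linarith) one_pos
  have hc₁a : c₁ ≤ c / 4 := by rw [hc₁]; exact min_le_left _ _
  have hc₁b : c₁ ≤ 1 := by rw [hc₁]; exact min_le_right _ _
  obtain ⟨N₁, h₁⟩ := LL_small c₁ hc₁0 2 (by norm_num)
  obtain ⟨K₀, hK₀⟩ := exists_nat_ge (4 / c)
  obtain ⟨K, hK⟩ : ∃ K : ℕ, K = K₀ + 2 := ⟨_, rfl⟩
  have hK2 : 2 ≤ K := by omega
  have hKr : (2 : ℝ) ≤ K := by exact_mod_cast hK2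
  have hKc : 4 ≤ c * K := by
    rw [div_le_iff₀ hc] at hK₀
    rw [hK]
    push_cast
    nlinarith
  obtain ⟨N₂, h₂⟩ := CLam_large (50 * (K : ℝ) ^ 2)
  refine ⟨max N₁ N₂, fun N hN q a S z hctx hq hS hz J hJ hJc => ?_⟩
  have a1 := h₁ N (le_trans (le_max_left _ _) hN) q a S hctx hq hS
  have a2 := ((h₂ N (le_trans (le_max_right _ _) hN)).1).trans hq
  have hL := LL_nonneg (q := q) (a := a) (N := N) (k := 2) (by have := hctx.hq; omega) hctx.hN
  have hW : 0 ≤ Real.log q := Real.log_natCast_nonneg q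
  obtain ⟨j, hj1, hj2, hj⟩ : ∃ j : ℕ, 1 ≤ j ∧ j ≤ 2 ∧ J.card = 2 * j := by
    rcases hJc with h | h
    · exact ⟨1, le_rfl, by norm_num, h⟩
    · exact ⟨2, by norm_num, le_rfl, h⟩
  have key := corr_le hctx.hq hctx.ha hctx.hN hctx.cop hctx.rts hJ hj hj1 hj2 hK2 a2 hz
  have hjr : ((j : ℕ) : ℝ) ≤ 2 := by exact_mod_cast hj2
  have hjr1 : (1 : ℝ) ≤ ((j : ℕ) : ℝ) := by exact_mod_cast hj1
  set W : ℝ := Real.log q with hWd
  set L : ℝ := LL q a N 2 with hLd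
  have e0 : ∑ p ∈ q.primeFactors, wp q p * ∏ x ∈ J, sg q z p x =
      ∑ p ∈ q.primeFactors, Real.log (mr q p) * ∏ x ∈ J, sg q z p x := rfl
  rw [e0]
  set G : ℝ := ∑ p ∈ q.primeFactors, Real.log (mr q p) * ∏ x ∈ J, sg q z p x with hG
  have hL1 : L ≤ c / 4 * W := a1.trans (mul_le_mul_of_nonneg_right hc₁a hW)
  have hL2 : L ≤ W := by
    calc L ≤ c₁ * W := a1
      _ ≤ 1 * W := mul_le_mul_of_nonneg_right hc₁b hW
      _ = W := one_mul W
  have hKinv : 1 / (K : ℝ) ≤ c / 4 := by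
    rw [div_le_iff₀ (by linarith)]
    linarith
  have b1 : ((j : ℝ) - 1) / (2 * K) * (W + L) ≤ c / 4 * W := by
    have c1 : ((j : ℝ) - 1) / (2 * K) ≤ 1 / (2 * K) :=
      div_le_div_of_nonneg_right (by linarith) (by linarith)
    calc ((j : ℝ) - 1) / (2 * K) * (W + L) ≤ 1 / (2 * K) * (W + L) :=
          mul_le_mul_of_nonneg_right c1 (by linarith)
      _ ≤ 1 / (2 * K) * (2 * W) := mul_le_mul_of_nonneg_left (by linarith) (by positivity)
      _ = 1 / (K : ℝ) * W := by field_simp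
      _ ≤ _ := mul_le_mul_of_nonneg_right hKinv hW
  have b2 : 25 * (K : ℝ) * Real.log (8 * N) ≤ c / 4 * W := by
    have c2 : 25 * (K : ℝ) * Real.log (8 * N) =
        1 / (2 * K) * (50 * (K : ℝ) ^ 2 * Real.log (8 * N)) := by
      field_simp
      ring
    rw [c2]
    calc _ ≤ 1 / (2 * (K : ℝ)) * W := mul_le_mul_of_nonneg_left a2 (by positivity)
      _ ≤ 1 / (K : ℝ) * W := by
        refine mul_le_mul_of_nonneg_right ?_ hW
        exact div_le_div_of_nonneg_left (by norm_num) (by linarith) (by linarith)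
      _ ≤ _ := mul_le_mul_of_nonneg_right hKinv hW
  have h3 := abs_le.1 key
  rw [abs_le]
  constructor
  · nlinarith [mul_nonneg hc.le hW]
  · nlinarith [mul_nonneg hc.le hW]

end Pool.Agent.Lib.MP_2c6f70_nt.RU
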