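import Pool.Agent.Lib.MP_2c6f70_nt.RU.CDefs
import Pool.Agent.Lib.MP_2c6f70_nt.KW.Rank

/-!
# The trace inequality with an abstract correlation bound

The proof of `rank_ineq` in `KW/Rank.lean`, `I = S.powersetCard k`, off-diagonal terms at most `E` by hypothesis.
-/

set_option autoImplicit false

namespace Pool.Agent.Lib.MP_2c6f70_nt.RU

open Pool.Agent.Lib.MP_2c6f70_nt Pool.Agent.Lib.MP_2c6f70_nt.KW

theorem rank_gen {q a N k : ℕ} {S : Finset ℕ} (hq : 2 ≤ q) (hN : 1 ≤ N) {z : ℕ} (hk : 1 ≤ k)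
    (E : ℝ) (hE : 0 ≤ E)
    (hcor : ∀ j, 1 ≤ j → j ≤ k → ∀ J ⊆ S, J.card = 2 * j → |GG q z J + LL q a N k| ≤ E) :
    ((S.card.choose k : ℕ) : ℝ) * (∑ p ∈ q.primeFactors, Real.log (mr q p) ^ 2 + LL q a N k ^ 2) ≤
      (Real.log q + LL q a N k) ^ 2 + (S.card.choose k : ℕ) * E ^ 2 := by
  classical
  obtain ⟨I, hId⟩ : ∃ I : Finset (Finset ℕ), I = S.powersetCard k := ⟨_, rfl⟩
  have hIc : I.card = S.card.choose k := by rw [hId, Finset.card_powersetCard]
  rw [← hIc]
  have hI : I ⊆ S.powersetCard k := by rw [hId]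
  have hq1 : 1 ≤ q := by omega
  have hq0 : q ≠ 0 := by omega
  have hL0 : 0 ≤ LL q a N k := LL_nonneg hq1 hN
  have hW0 : 0 ≤ Real.log q := Real.log_natCast_nonneg q
  have h0 : (0 : ℕ) ∉ q.primeFactors := fun h => (Nat.prime_of_mem_primeFactors h).ne_zero rfl
  let w : ℕ → ℝ := fun p => if p = 0 then LL q a N k else Real.log (mr q p)
  let s : ℕ → Finset ℕ → ℝ := fun p X => if p = 0 then 1 else ∏ x ∈ X, sg q z p x
  have hw0 : w 0 = LL q a N k := if_pos rfl
  have hp0 : ∀ p ∈ q.primeFactors, p ≠ 0 := fun p hp =>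
    (Nat.prime_of_mem_primeFactors hp).ne_zero
  have hwp : ∀ p ∈ q.primeFactors, w p = Real.log (mr q p) := fun p hp => if_neg (hp0 p hp)
  have hs0 : ∀ X, s 0 X = 1 := fun X => if_pos rfl
  have hsp : ∀ p ∈ q.primeFactors, ∀ X, s p X = ∏ x ∈ X, sg q z p x := fun p hp X =>
    if_neg (hp0 p hp)
  have hmr : ∀ p ∈ q.primeFactors, 0 ≤ Real.log (mr q p) := fun p _ =>
    Real.log_natCast_nonneg _
  have hss : ∀ p ∈ insert 0 q.primeFactors, ∀ X ∈ I, s p X * s p X = 1 := by
    intro p hp X _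
    rcases Finset.mem_insert.1 hp with rfl | hp
    · rw [hs0, one_mul]
    · rw [hsp p hp, ← Finset.prod_mul_distrib]
      exact Finset.prod_eq_one fun x _ => sg_sq q z p x
  have key := trace_ineq_w (insert 0 q.primeFactors) I w (by
    intro p hp
    rcases Finset.mem_insert.1 hp with rfl | hp
    · rw [hw0]
      exact hL0
    · rw [hwp p hp]
      exact hmr p hp) s hss
  have hdiag : ∀ X ∈ I, |∑ p ∈ insert 0 q.primeFactors, w p * (s p X * s p X)| ≤
      Real.log q + LL q a N k := by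
    intro X hX
    have e : ∑ p ∈ insert 0 q.primeFactors, w p * (s p X * s p X) =
        LL q a N k + ∑ p ∈ q.primeFactors, Real.log (mr q p) := by
      rw [Finset.sum_insert h0, hw0, hss 0 (Finset.mem_insert_self _ _) X hX, mul_one]
      congr 1
      refine Finset.sum_congr rfl fun p hp => ?_
      rw [hwp p hp, hss p (Finset.mem_insert_of_mem hp) X hX, mul_one]
    have h1 : ∑ p ∈ q.primeFactors, Real.log (mr q p) ≤ Real.log q := by
      have h2 : ∀ p ∈ q.primeFactors, ((mr q p : ℕ) : ℝ) ≠ 0 := fun p hp => by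
        have := mr_pos hp
        positivity
      rw [← Real.log_prod h2]
      have h3 : (∏ p ∈ q.primeFactors, ((mr q p : ℕ) : ℝ)) ≤ q := by
        exact_mod_cast (prod_mr_le hq0).1
      refine Real.log_le_log ?_ h3
      exact Finset.prod_pos fun p hp => by
        have := mr_pos hp
        positivity
    rw [e, abs_of_nonneg (add_nonneg hL0 (Finset.sum_nonneg hmr))]
    linarith
  have hoff : ∀ X ∈ I, ∀ Y ∈ I, X ≠ Y →
      |∑ p ∈ insert 0 q.primeFactors, w p * (s p X * s p Y)| ≤ E := by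
    intro X hX Y hY hne
    have hX1 := Finset.mem_powersetCard.1 (hI hX)
    have hY1 := Finset.mem_powersetCard.1 (hI hY)
    obtain ⟨hc1, hj1, hj2⟩ := Rank_card hX1.2 hY1.2 hne
    have hJ : (X \ Y) ∪ (Y \ X) ⊆ S :=
      Finset.union_subset (Finset.sdiff_subset.trans hX1.1) (Finset.sdiff_subset.trans hY1.1)
    have h1 := hcor _ hj1 hj2 _ hJ hc1
    have e : ∑ p ∈ insert 0 q.primeFactors, w p * (s p X * s p Y) =
        GG q z ((X \ Y) ∪ (Y \ X)) + LL q a N k := by
      unfold GG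
      rw [Finset.sum_insert h0, hw0, hs0, hs0, mul_one, mul_one, add_comm]
      congr 1
      refine Finset.sum_congr rfl fun p hp => ?_
      rw [hwp p hp, hsp p hp, hsp p hp, Rank_prod (fun x => sg_sq q z p x)]
    rw [e]
    exact h1
  have hsum : (∑ p ∈ insert 0 q.primeFactors, w p ^ 2) =
      ∑ p ∈ q.primeFactors, Real.log (mr q p) ^ 2 + LL q a N k ^ 2 := by
    rw [Finset.sum_insert h0, hw0, add_comm]
    congr 1
    exact Finset.sum_congr rfl fun p hp => by rw [hwp p hp]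
  rw [hsum] at key
  set M : ℝ := Real.log q + LL q a N k with hM
  have hM0 : 0 ≤ M := by linarith
  have hbound : ∑ X ∈ I, ∑ Y ∈ I, (∑ p ∈ insert 0 q.primeFactors, w p * (s p X * s p Y)) ^ 2 ≤
      ∑ X ∈ I, ∑ Y ∈ I, ((if X = Y then M ^ 2 else 0) + E ^ 2) := by
    refine Finset.sum_le_sum fun X hX => Finset.sum_le_sum fun Y hY => ?_
    split_ifs with hXY
    · subst hXY
      have h1 := sq_le_sq' (abs_le.1 (hdiag X hX)).1 (abs_le.1 (hdiag X hX)).2
      linarith [sq_nonneg E]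
    · have h1 := sq_le_sq' (abs_le.1 (hoff X hX Y hY hXY)).1 (abs_le.1 (hoff X hX Y hY hXY)).2
      linarith
  have hcomp : ∑ X ∈ I, ∑ Y ∈ I, ((if X = Y then M ^ 2 else 0) + E ^ 2) =
      I.card * (M ^ 2 + I.card * E ^ 2) := by
    have h1 : ∀ X ∈ I, ∑ Y ∈ I, ((if X = Y then M ^ 2 else 0) + E ^ 2) =
        M ^ 2 + I.card * E ^ 2 := by
      intro X hX
      rw [Finset.sum_add_distrib, Finset.sum_ite_eq, if_pos hX, Finset.sum_const, nsmul_eq_mul]
    rw [Finset.sum_congr rfl h1, Finset.sum_const, nsmul_eq_mul]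
  rw [hcomp] at hbound
  have hfin := key.trans hbound
  rcases Nat.eq_zero_or_pos I.card with hn | hn
  · rw [hn]
    push_cast
    nlinarith [sq_nonneg M]
  · have hnr : (0 : ℝ) < I.card := by exact_mod_cast hn
    refine le_of_mul_le_mul_left ?_ hnr
    calc _ = (∑ p ∈ q.primeFactors, Real.log (mr q p) ^ 2 + LL q a N k ^ 2) *
          (I.card : ℝ) ^ 2 := by ring
      _ ≤ _ := hfin

end Pool.Agent.Lib.MP_2c6f70_nt.RU
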