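import Pool.Agent.Lib.MP_2c6f70_nt.RU.CCor
import Pool.Agent.Lib.MP_2c6f70_nt.RU.CRank
import Pool.Agent.Lib.MP_2c6f70_nt.RU.CLam

/-!
# The sharp second moment

`k` minimal with `T^k ≥ W`, `T = #S`, `K = ⌈r⌉ + k`, `r = sqrt ((k-1) X / (2 l))`, `X = W + LL`, `l = log (8N)`.
-/

set_option autoImplicit false

namespace Pool.Agent.Lib.MP_2c6f70_nt.RU

open Pool.Agent.Lib.MP_2c6f70_nt Pool.Agent.Lib.MP_2c6f70_nt.KW

private theorem CFin_core {q a N k : ℕ} {S : Finset ℕ} (hctx : Ctx q a N S) (hk : 1 ≤ k)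
    (hT : 2 * k ≤ S.card) {X l : ℝ} (hX : X = Real.log q + LL q a N k) (hl : l = Real.log (8 * N))
    (hX1 : 1 ≤ X) :
    ∑ p ∈ q.primeFactors, wp q p ^ 2 ≤ X ^ 2 * ((2 * (k : ℝ)) ^ k / (S.card : ℝ) ^ k) +
      (2 * Real.sqrt (((k : ℝ) - 1) * X * l / 2) + (42 * k + 1) * l + 2 * Real.log (4 * k * X)) ^ 2 := by
  obtain ⟨hq, ha, hN, hc, hS⟩ := hctx
  have hkr : (1 : ℝ) ≤ k := by exact_mod_cast hk
  have hNr : (1 : ℝ) ≤ N := by exact_mod_cast hN
  have hl1 : 1 ≤ l := by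
    rw [hl]
    have h1 : Real.log 8 ≤ Real.log (8 * N) := Real.log_le_log (by norm_num) (by linarith)
    have h2 : Real.log 8 = 3 * Real.log 2 := by
      rw [show (8 : ℝ) = 2 ^ 3 by norm_num, Real.log_pow]
      push_cast
      ring
    linarith [Real.log_two_gt_d9]
  have hSne : S.Nonempty := by
    rw [← Finset.card_pos]
    omega
  obtain ⟨z, hz⟩ := hSne
  obtain ⟨r, hr⟩ : ∃ r : ℝ, r = Real.sqrt (((k : ℝ) - 1) * X / (2 * l)) := ⟨_, rfl⟩
  have hr0 : 0 ≤ r := by rw [hr]; exact Real.sqrt_nonneg _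
  have hr2 : r ^ 2 = ((k : ℝ) - 1) * X / (2 * l) := by
    rw [hr, Real.sq_sqrt]
    exact div_nonneg (mul_nonneg (by linarith) (by linarith)) (by linarith)
  have hr3 : r ^ 2 * l = ((k : ℝ) - 1) * X / 2 := by
    rw [hr2]
    field_simp
  have hrl : r * l = Real.sqrt (((k : ℝ) - 1) * X * l / 2) := by
    have h1 : ((k : ℝ) - 1) * X * l / 2 = (r * l) ^ 2 := by
      have h2 : (r * l) ^ 2 = (r ^ 2 * l) * l := by ring
      rw [h2, hr3]
      ring
    rw [h1, Real.sqrt_sq (by positivity)]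
  have hrk : r ≤ k * X := by
    refine le_of_sq_le_sq ?_ (by positivity)
    rw [hr2, div_le_iff₀ (by linarith)]
    have h1 : ((k : ℝ) - 1) * X ≤ k * X := by
      have : 0 ≤ X := by linarith
      linarith only [this]
    have h2 : (k : ℝ) * X ≤ (k * X) ^ 2 := by
      have h3 : 1 ≤ (k : ℝ) * X := by nlinarith only [hkr, hX1]
      nlinarith only [h3]
    have h4 : ((k : ℝ) * X) ^ 2 ≤ (k * X) ^ 2 * (2 * l) := by
      have : 0 ≤ ((k : ℝ) * X) ^ 2 := by positivity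
      nlinarith only [this, hl1]
    linarith
  obtain ⟨K, hK⟩ : ∃ K : ℕ, K = ⌈r⌉₊ + k := ⟨_, rfl⟩
  have hkK : k ≤ K := by omega
  have hK1 : (1 : ℝ) ≤ K := by
    have : 1 ≤ K := hk.trans hkK
    exact_mod_cast this
  have hKr : r ≤ K := by
    have h1 := Nat.le_ceil r
    rw [hK]
    push_cast
    linarith
  have hKu : (K : ℝ) ≤ r + 1 + k := by
    have h1 := Nat.ceil_lt_add_one hr0
    rw [hK]
    push_cast
    linarith
  have hKX : (K : ℝ) ≤ 4 * k * X := by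
    have h1 : (k : ℝ) ≤ k * X := le_mul_of_one_le_right (by linarith) hX1
    linarith
  obtain ⟨E, hE⟩ : ∃ E : ℝ, E = 2 * Real.sqrt (((k : ℝ) - 1) * X * l / 2) + (42 * k + 1) * l +
      2 * Real.log (4 * k * X) := ⟨_, rfl⟩
  have hlogK : Real.log K ≤ Real.log (4 * k * X) := Real.log_le_log (by linarith) hKX
  have hlogK0 : 0 ≤ Real.log K := Real.log_nonneg hK1
  have hE0 : 0 ≤ E := by
    rw [hE]
    have h1 := Real.sqrt_nonneg (((k : ℝ) - 1) * X * l / 2)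
    have h2 : 0 ≤ (42 * (k : ℝ) + 1) * l := mul_nonneg (by linarith) (by linarith)
    linarith
  have hcor : ∀ j, 1 ≤ j → j ≤ k → ∀ J ⊆ S, J.card = 2 * j → |GG q z J + LL q a N k| ≤ E := by
    intro j hj hjk J hJ hJc
    have h1 := corr_sharp hq ha hN hc hS hJ hJc hj hjk hkK hz
    rw [← hX, ← hl] at h1
    refine h1.trans ?_
    have h2 : ((k : ℝ) - 1) / (2 * K) * X ≤ r * l := by
      have h3 : ((k : ℝ) - 1) / (2 * K) * X = (r ^ 2 * l) / K := by
        rw [hr3]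
        field_simp
      rw [h3, div_le_iff₀ (by linarith)]
      have h4 : r * l * r ≤ r * l * K := mul_le_mul_of_nonneg_left hKr (by positivity)
      linarith only [h4]
    have h5 : (K : ℝ) * l ≤ (r + 1 + k) * l := mul_le_mul_of_nonneg_right hKu (by linarith)
    rw [hE, ← hrl]
    have h6 : (k : ℝ) * l ≥ 0 := by positivity
    have h7 : ((K : ℝ) + 40 * k) * l = K * l + 40 * (k * l) := by ring
    have h8 : (r + 1 + k) * l = r * l + l + k * l := by ring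
    have h9 : (42 * (k : ℝ) + 1) * l = 42 * (k * l) + l := by ring
    rw [h7, h9]
    linarith
  have hmain := rank_gen hq hN hk E hE0 hcor
  rw [← hX] at hmain
  rw [← hE]
  -- the binomial coefficient
  obtain ⟨n, hn⟩ : ∃ n : ℝ, n = ((S.card.choose k : ℕ) : ℝ) := ⟨_, rfl⟩
  rw [← hn] at hmain
  have hTr : (2 : ℝ) * k ≤ S.card := by exact_mod_cast hT
  have hT0 : (0 : ℝ) < S.card := by linarith
  have hnlow : (S.card : ℝ) ^ k / (2 * (k : ℝ)) ^ k ≤ n := by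
    have h2 : (((S.card + 1 - k : ℕ) : ℝ) ^ k) / (k.factorial : ℝ) ≤ (S.card.choose k : ℝ) :=
      Nat.pow_le_choose (α := ℝ) k S.card
    have hf0 : (0 : ℝ) < (k.factorial : ℝ) := by exact_mod_cast k.factorial_pos
    have hf1 : (k.factorial : ℝ) ≤ (k : ℝ) ^ k := by exact_mod_cast k.factorial_le_pow
    have h3 : (S.card : ℝ) / 2 ≤ ((S.card + 1 - k : ℕ) : ℝ) := by
      rw [Nat.cast_sub (by omega)]
      push_cast
      linarith
    rw [hn]
    refine le_trans ?_ h2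
    rw [div_le_div_iff₀ (by positivity) hf0]
    have h4 : ((S.card : ℝ) / 2) ^ k ≤ ((S.card + 1 - k : ℕ) : ℝ) ^ k :=
      pow_le_pow_left₀ (by positivity) h3 k
    have h5 : (S.card : ℝ) ^ k = 2 ^ k * ((S.card : ℝ) / 2) ^ k := by
      rw [← mul_pow]
      congr 1
      ring
    rw [h5, mul_pow]
    calc 2 ^ k * ((S.card : ℝ) / 2) ^ k * (k.factorial : ℝ) ≤
        2 ^ k * ((S.card + 1 - k : ℕ) : ℝ) ^ k * (k : ℝ) ^ k := by
          refine mul_le_mul ?_ hf1 hf0.le (by positivity)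
          exact mul_le_mul_of_nonneg_left h4 (by positivity)
      _ = ((S.card + 1 - k : ℕ) : ℝ) ^ k * (2 ^ k * (k : ℝ) ^ k) := by ring
  have hn0 : 0 < n := lt_of_lt_of_le (by positivity) hnlow
  have hsum : ∑ p ∈ q.primeFactors, wp q p ^ 2 ≤
      ∑ p ∈ q.primeFactors, Real.log (mr q p) ^ 2 + LL q a N k ^ 2 := by
    have h1 : ∑ p ∈ q.primeFactors, wp q p ^ 2 = ∑ p ∈ q.primeFactors, Real.log (mr q p) ^ 2 := rfl
    rw [h1]
    linarith [sq_nonneg (LL q a N k)]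
  refine hsum.trans ?_
  obtain ⟨M, hM⟩ : ∃ M : ℝ, M = ∑ p ∈ q.primeFactors, Real.log (mr q p) ^ 2 + LL q a N k ^ 2 :=
    ⟨_, rfl⟩
  rw [← hM] at hmain ⊢
  have h1 : M ≤ X ^ 2 / n + E ^ 2 := by
    refine le_of_mul_le_mul_left ?_ hn0
    rw [mul_add, mul_div_cancel₀ _ hn0.ne']
    exact hmain
  refine h1.trans ?_
  have h2 : X ^ 2 / n ≤ X ^ 2 * ((2 * (k : ℝ)) ^ k / (S.card : ℝ) ^ k) := by
    rw [div_eq_mul_inv]
    refine mul_le_mul_of_nonneg_left ?_ (sq_nonneg _)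
    rw [inv_eq_one_div, div_le_iff₀ hn0]
    have h3 : (1 : ℝ) = (2 * (k : ℝ)) ^ k / (S.card : ℝ) ^ k *
        ((S.card : ℝ) ^ k / (2 * (k : ℝ)) ^ k) := by
      field_simp
    calc (1 : ℝ) = (2 * (k : ℝ)) ^ k / (S.card : ℝ) ^ k *
        ((S.card : ℝ) ^ k / (2 * (k : ℝ)) ^ k) := h3
      _ ≤ _ := mul_le_mul_of_nonneg_left hnlow (by positivity)
  linarith

/-- Elementary: `(x + y)^2 ≤ (1 + θ) x^2 + (1 + 1/θ) y^2`. -/
private theorem CFin_sq {θ x y : ℝ} (hθ : 0 < θ) :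
    (x + y) ^ 2 ≤ (1 + θ) * x ^ 2 + (1 + 1 / θ) * y ^ 2 := by
  have h1 : (1 + θ) * x ^ 2 + (1 + 1 / θ) * y ^ 2 - (x + y) ^ 2 = (θ * x - y) ^ 2 / θ := by
    field_simp
    ring
  have h2 : 0 ≤ (θ * x - y) ^ 2 / θ := by positivity
  linarith

/-- The inequality for fixed `N`, with all the conditions of largeness. -/
private theorem CFin_det {q a N k k₁ : ℕ} {S : Finset ℕ} {A s θ : ℝ} (hctx : Ctx q a N S) (hk : 1 ≤ k)
    (hkk : k ≤ k₁) (hT : 2 * k₁ ≤ S.card) (hθ : 0 < θ) (hθ1 : θ ≤ 1) (hs : 0 < s) (hA : 1 ≤ A)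
    (hL1 : 1 ≤ Real.log N) (hL8 : Real.log 8 ≤ θ * Real.log N)
    (hW1 : 1 ≤ Real.log q) (hWA : Real.log (Real.log q) ≤ A * Real.log N)
    (hLL : LL q a N k ≤ θ * Real.log q) (hLL0 : 0 ≤ LL q a N k)
    (hTk : Real.log q ≤ (S.card : ℝ) ^ k)
    (hk1 : ((k : ℝ) - 1) * (s * Real.log N) ≤ Real.log (Real.log q)) :
    ∑ p ∈ q.primeFactors, wp q p ^ 2 ≤ 4 * (2 * (k₁ : ℝ)) ^ k₁ * Real.log q +
      (2 * (1 + θ) ^ 3 / s * (Real.log q * Real.log (Real.log q)) +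
      (1 + 1 / θ) * ((50 * k₁ + 4 * A + 3) * (2 * Real.log N)) ^ 2) := by
  obtain ⟨X, hX⟩ : ∃ X : ℝ, X = Real.log q + LL q a N k := ⟨_, rfl⟩
  obtain ⟨l, hl⟩ : ∃ l : ℝ, l = Real.log (8 * N) := ⟨_, rfl⟩
  obtain ⟨W, hW⟩ : ∃ W : ℝ, W = Real.log q := ⟨_, rfl⟩
  obtain ⟨L, hL⟩ : ∃ L : ℝ, L = Real.log N := ⟨_, rfl⟩
  obtain ⟨w, hw⟩ : ∃ w : ℝ, w = Real.log W := ⟨_, rfl⟩
  have hN := hctx.hN
  have hNr : (1 : ℝ) ≤ N := by exact_mod_cast hN
  have hkr : (1 : ℝ) ≤ k := by exact_mod_cast hk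
  have hkk' : (k : ℝ) ≤ k₁ := by exact_mod_cast hkk
  have h0 := CFin_core hctx hk (by omega) hX hl (by rw [hX]; linarith)
  rw [← hW] at hX hW1 hWA hLL hTk hk1 ⊢
  rw [← hw] at hWA hk1 ⊢
  rw [← hL] at hL1 hL8 hWA hk1 ⊢
  have hw0 : 0 ≤ w := by rw [hw]; exact Real.log_nonneg hW1
  have hlL : l = Real.log 8 + L := by
    rw [hl, hL, Real.log_mul (by norm_num) (by linarith)]
  have hl1 : l ≤ (1 + θ) * L := by rw [hlL]; linarith
  have hl2 : l ≤ 2 * L := by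
    have : θ * L ≤ 1 * L := mul_le_mul_of_nonneg_right hθ1 (by linarith)
    linarith
  have hl0 : 0 ≤ l := by
    rw [hlL]
    have : 0 ≤ Real.log 8 := Real.log_nonneg (by norm_num)
    linarith
  have hXW : X ≤ (1 + θ) * W := by rw [hX]; linarith
  have hX2 : X ≤ 2 * W := by
    have : θ * W ≤ 1 * W := mul_le_mul_of_nonneg_right hθ1 (by linarith)
    linarith
  have hX1 : 1 ≤ X := by rw [hX]; linarith
  refine h0.trans (add_le_add ?_ ?_)
  · -- first term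
    have hT0 : (0 : ℝ) < (S.card : ℝ) ^ k := by linarith
    have h1 : (2 * (k : ℝ)) ^ k ≤ (2 * (k₁ : ℝ)) ^ k₁ := by
      calc (2 * (k : ℝ)) ^ k ≤ (2 * (k₁ : ℝ)) ^ k := pow_le_pow_left₀ (by positivity) (by linarith) k
        _ ≤ (2 * (k₁ : ℝ)) ^ k₁ := pow_le_pow_right₀ (by linarith) hkk
    have h2 : (2 * (k : ℝ)) ^ k / (S.card : ℝ) ^ k ≤ (2 * (k₁ : ℝ)) ^ k₁ / W :=
      div_le_div₀ (by positivity) h1 (by linarith) hTk
    have h3 : X ^ 2 ≤ 4 * W ^ 2 := by nlinarith only [hX1, hX2]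
    calc X ^ 2 * ((2 * (k : ℝ)) ^ k / (S.card : ℝ) ^ k) ≤ (4 * W ^ 2) * ((2 * (k₁ : ℝ)) ^ k₁ / W) :=
          mul_le_mul h3 h2 (by positivity) (by positivity)
      _ = 4 * (2 * (k₁ : ℝ)) ^ k₁ * W := by
          field_simp
  · -- second term
    have h1 : (2 * Real.sqrt (((k : ℝ) - 1) * X * l / 2) + (42 * k + 1) * l + 2 * Real.log (4 * k * X)) ^ 2 ≤
        (1 + θ) * (2 * Real.sqrt (((k : ℝ) - 1) * X * l / 2)) ^ 2 +
          (1 + 1 / θ) * ((42 * k + 1) * l + 2 * Real.log (4 * k * X)) ^ 2 := by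
      rw [add_assoc]
      exact CFin_sq hθ
    refine h1.trans (add_le_add ?_ ?_)
    · have hnn : 0 ≤ ((k : ℝ) - 1) * X * l / 2 := by
        have : 0 ≤ (k : ℝ) - 1 := by linarith
        positivity
      rw [mul_pow, Real.sq_sqrt hnn]
      have h2 : ((k : ℝ) - 1) * l ≤ (1 + θ) * (w / s) := by
        have h3 : ((k : ℝ) - 1) * l ≤ ((k : ℝ) - 1) * ((1 + θ) * L) :=
          mul_le_mul_of_nonneg_left hl1 (by linarith)
        have h4 : ((k : ℝ) - 1) * L ≤ w / s := by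
          rw [le_div_iff₀ hs]
          linarith
        have h5 : ((k : ℝ) - 1) * ((1 + θ) * L) = (1 + θ) * (((k : ℝ) - 1) * L) := by ring
        rw [h5] at h3
        exact h3.trans (mul_le_mul_of_nonneg_left h4 (by linarith))
      have h6 : X * (((k : ℝ) - 1) * l) ≤ ((1 + θ) * W) * ((1 + θ) * (w / s)) :=
        mul_le_mul hXW h2 (mul_nonneg (by linarith) hl0) (by positivity)
      have h7 : (1 + θ) * (2 ^ 2 * (((k : ℝ) - 1) * X * l / 2)) = 2 * (1 + θ) * (X * (((k : ℝ) - 1) * l)) := by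
        ring
      rw [h7]
      calc 2 * (1 + θ) * (X * (((k : ℝ) - 1) * l)) ≤ 2 * (1 + θ) * (((1 + θ) * W) * ((1 + θ) * (w / s))) :=
            mul_le_mul_of_nonneg_left h6 (by linarith)
        _ = 2 * (1 + θ) ^ 3 / s * (W * w) := by ring
    · have h2 : Real.log (4 * k * X) ≤ 4 * k₁ + 1 + A * L := by
        have h3 : (4 : ℝ) * k * X ≤ (4 * k₁) * (2 * W) := mul_le_mul (by linarith) hX2 (by linarith) (by linarith)
        have h4 : Real.log (4 * k * X) ≤ Real.log ((4 * k₁) * (2 * W)) :=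
          Real.log_le_log (by positivity) h3
        have h5 : Real.log ((4 * k₁) * (2 * W)) = Real.log (4 * k₁) + (Real.log 2 + w) := by
          have h7 : (4 * (k₁ : ℝ)) ≠ 0 := by
            have : (0 : ℝ) < 4 * k₁ := by linarith
            exact this.ne'
          have h8 : (2 * W) ≠ 0 := by
            have : (0 : ℝ) < 2 * W := by linarith
            exact this.ne'
          have h9 : W ≠ 0 := by
            have : (0 : ℝ) < W := by linarith
            exact this.ne'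
          rw [Real.log_mul h7 h8, Real.log_mul (two_ne_zero) h9, hw]
        have h6 : Real.log (4 * (k₁ : ℝ)) ≤ 4 * k₁ - 1 := Real.log_le_sub_one_of_pos (by linarith)
        linarith [Real.log_two_lt_d9]
      have h2' : 0 ≤ Real.log (4 * k * X) := by
        refine Real.log_nonneg ?_
        have : (1 : ℝ) ≤ 4 * k := by linarith
        nlinarith only [this, hX1]
      have h3 : (42 * (k : ℝ) + 1) * l + 2 * Real.log (4 * k * X) ≤ (50 * k₁ + 4 * A + 3) * (2 * L) := by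
        have h4 : (42 * (k : ℝ) + 1) * l ≤ (42 * k₁ + 1) * (2 * L) :=
          mul_le_mul (by linarith) hl2 hl0 (by linarith)
        have h5 : (4 * (k₁ : ℝ) + 1) ≤ (4 * k₁ + 1) * L := le_mul_of_one_le_right (by linarith) hL1
        have h6 : (42 * (k₁ : ℝ) + 1) * (2 * L) + 2 * ((4 * k₁ + 1) * L + A * L) ≤
            (50 * k₁ + 4 * A + 3) * (2 * L) := by
          have h7 : (50 * (k₁ : ℝ) + 4 * A + 3) * (2 * L) - ((42 * (k₁ : ℝ) + 1) * (2 * L) +
              2 * ((4 * k₁ + 1) * L + A * L)) = (4 * k₁ + 3 * A + 1) * (2 * L) := by ring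
          have h8 : 0 ≤ (4 * (k₁ : ℝ) + 3 * A + 1) * (2 * L) :=
            mul_nonneg (by linarith) (by linarith)
          linarith
        linarith
      have h4 : 0 ≤ (42 * (k : ℝ) + 1) * l + 2 * Real.log (4 * k * X) := by
        have : 0 ≤ (42 * (k : ℝ) + 1) * l := mul_nonneg (by linarith) hl0
        linarith
      refine mul_le_mul_of_nonneg_left ?_ (by positivity)
      exact pow_le_pow_left₀ h4 h3 2

theorem sharp_moment' (A ε η : ℝ) (hε : 0 < ε) (hη : 0 < η) :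
    ∃ N₀ : ℕ, ∀ N ≥ N₀, ∀ (q a : ℕ) (S : Finset ℕ),
    Ctx q a N S → (N : ℝ) ^ (1 / 4 : ℝ) ≤ Real.log q → Real.log q ≤ (N : ℝ) ^ A →
    (N : ℝ) ^ (1 / 2 + ε) ≤ (S.card : ℝ) →
      ∑ p ∈ q.primeFactors, wp q p ^ 2 ≤
        (2 + η) / (1 / 2 + ε) * Real.log q * Real.log (Real.log q) := by
  obtain ⟨s, hs⟩ : ∃ s : ℝ, s = 1 / 2 + ε := ⟨_, rfl⟩
  have hs0 : 0 < s := by rw [hs]; linarith
  obtain ⟨A', hA'⟩ : ∃ A' : ℝ, A' = max A 1 := ⟨_, rfl⟩
  have hA1 : 1 ≤ A' := by rw [hA']; exact le_max_right _ _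
  obtain ⟨θ, hθd⟩ : ∃ θ : ℝ, θ = min 1 (η / 28) := ⟨_, rfl⟩
  have hθ0 : 0 < θ := by rw [hθd]; exact lt_min one_pos (by positivity)
  have hθ1 : θ ≤ 1 := by rw [hθd]; exact min_le_left _ _
  have hθ2 : θ ≤ η / 28 := by rw [hθd]; exact min_le_right _ _
  obtain ⟨k₁, hk₁⟩ : ∃ k₁ : ℕ, k₁ = ⌈A' / s⌉₊ + 1 := ⟨_, rfl⟩
  -- the weight at infinity
  choose! NL hNL using fun k (hk : 1 ≤ k) => LL_small θ hθ0 k hk
  obtain ⟨N₁, hN₁⟩ : ∃ N₁ : ℕ, ∀ k ≤ k₁, NL k ≤ N₁ :=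
    ⟨(Finset.range (k₁ + 1)).sup NL, fun k hk =>
      Finset.le_sup (f := NL) (Finset.mem_range.2 (by omega))⟩
  obtain ⟨C₁, hC₁⟩ : ∃ C : ℝ, C = 4 * (2 * (k₁ : ℝ)) ^ k₁ := ⟨_, rfl⟩
  obtain ⟨C₂, hC₂⟩ : ∃ C : ℝ, C = (1 + 1 / θ) * ((50 * k₁ + 4 * A' + 3) * 2) ^ 2 := ⟨_, rfl⟩
  have hC₁0 : 0 ≤ C₁ := by rw [hC₁]; positivity
  have hC₂0 : 0 ≤ C₂ := by rw [hC₂]; positivity
  have t1 : Filter.Tendsto (fun N : ℕ => Real.log (N : ℝ)) Filter.atTop Filter.atTop :=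
    Real.tendsto_log_atTop.comp tendsto_natCast_atTop_atTop
  have t2 : Filter.Tendsto (fun N : ℕ => (N : ℝ) ^ (1 / 2 : ℝ)) Filter.atTop Filter.atTop :=
    (tendsto_rpow_atTop (by norm_num)).comp tendsto_natCast_atTop_atTop
  have t3 : ∀ᶠ N : ℕ in Filter.atTop, 16 * s * C₂ * Real.log (N : ℝ) ≤ η * (N : ℝ) ^ (1 / 4 : ℝ) := by
    have h1 := (isLittleO_log_rpow_atTop (show (0 : ℝ) < 1 / 4 by norm_num)).def
      (show (0 : ℝ) < η / (16 * s * C₂ + 1) by positivity)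
    have h2 := tendsto_natCast_atTop_atTop.eventually h1
    filter_upwards [h2, Filter.eventually_ge_atTop 1] with N hN hN1
    have hNr : (1 : ℝ) ≤ N := by exact_mod_cast hN1
    rw [Real.norm_of_nonneg (Real.log_nonneg hNr), Real.norm_of_nonneg (by positivity)] at hN
    have h3 : 0 < 16 * s * C₂ + 1 := by positivity
    have h4 : (16 * s * C₂ + 1) * Real.log (N : ℝ) ≤ η * (N : ℝ) ^ (1 / 4 : ℝ) := by
      have h5 := mul_le_mul_of_nonneg_left hN h3.le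
      have h6 : (16 * s * C₂ + 1) * (η / (16 * s * C₂ + 1) * (N : ℝ) ^ (1 / 4 : ℝ)) =
          η * (N : ℝ) ^ (1 / 4 : ℝ) := by
        field_simp
      linarith
    have h7 := Real.log_nonneg hNr
    linarith
  obtain ⟨N₂, hN₂⟩ := Filter.eventually_atTop.1
    (((t1.eventually_ge_atTop (max 4 (max (Real.log 8 / θ) (16 * s * C₁ / η)))).and
      (t2.eventually_ge_atTop (2 * (k₁ : ℝ)))).and t3)
  refine ⟨max N₁ (max N₂ 1), ?_⟩
  intro N hN q a S hctx hW1 hWA hT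
  have hNN1 : N₁ ≤ N := le_trans (le_max_left _ _) hN
  have hNN2 : N₂ ≤ N := le_trans (le_trans (le_max_left _ _) (le_max_right _ _)) hN
  have hN1 : 1 ≤ N := le_trans (le_trans (le_max_right _ _) (le_max_right _ _)) hN
  have hNr : (1 : ℝ) ≤ N := by exact_mod_cast hN1
  have hN0 : (0 : ℝ) < N := by linarith
  obtain ⟨⟨hlog, hhalf⟩, ht3⟩ := hN₂ N hNN2
  have hL4 : 4 ≤ Real.log (N : ℝ) := le_trans (le_max_left _ _) hlog
  have hLθ : Real.log 8 / θ ≤ Real.log (N : ℝ) :=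
    le_trans (le_trans (le_max_left _ _) (le_max_right _ _)) hlog
  have hLC : 16 * s * C₁ / η ≤ Real.log (N : ℝ) :=
    le_trans (le_trans (le_max_right _ _) (le_max_right _ _)) hlog
  rw [← hs] at hT ⊢
  obtain ⟨L, hL⟩ : ∃ L : ℝ, L = Real.log (N : ℝ) := ⟨_, rfl⟩
  obtain ⟨W, hW⟩ : ∃ W : ℝ, W = Real.log (q : ℝ) := ⟨_, rfl⟩
  obtain ⟨w, hw⟩ : ∃ w : ℝ, w = Real.log W := ⟨_, rfl⟩
  have hNq1 : (1 : ℝ) ≤ (N : ℝ) ^ (1 / 4 : ℝ) := Real.one_le_rpow hNr (by norm_num)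
  have hWge1 : 1 ≤ Real.log (q : ℝ) := hNq1.trans hW1
  have hwL : L / 4 ≤ w := by
    rw [hw, hL, hW]
    have h1 := Real.log_le_log (by positivity) hW1
    rw [Real.log_rpow hN0] at h1
    linarith
  have hwA : w ≤ A' * L := by
    rw [hw, hL, hW]
    have h1 := Real.log_le_log (by linarith) hWA
    rw [Real.log_rpow hN0] at h1
    refine h1.trans (mul_le_mul_of_nonneg_right ?_ (by linarith))
    rw [hA']
    exact le_max_left _ _
  have hw0 : 0 < w := by rw [← hL] at hL4; linarith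
  have hlogT : s * L ≤ Real.log (S.card : ℝ) := by
    have h1 := Real.log_le_log (by positivity) hT
    rw [Real.log_rpow hN0] at h1
    rw [hL]
    exact h1
  have hsL : 0 < s * L := by rw [hL]; exact mul_pos hs0 (by linarith)
  have hlogT0 : 0 < Real.log (S.card : ℝ) := by linarith
  have hTT : (2 * (k₁ : ℝ)) ≤ S.card := by
    refine hhalf.trans (le_trans ?_ hT)
    refine Real.rpow_le_rpow_of_exponent_le hNr ?_
    rw [hs]
    linarith
  have hTnat : 2 * k₁ ≤ S.card := by exact_mod_cast hTT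
  have hTpos : (0 : ℝ) < S.card := by
    have h1 : 1 ≤ k₁ := by omega
    have h2 : (1 : ℝ) ≤ k₁ := by exact_mod_cast h1
    linarith
  -- the choice of k
  obtain ⟨k, hk⟩ : ∃ k : ℕ, k = ⌈w / Real.log (S.card : ℝ)⌉₊ := ⟨_, rfl⟩
  have hk1 : 1 ≤ k := by
    rw [hk]
    exact Nat.one_le_ceil_iff.2 (by positivity)
  have hkup : (k : ℝ) - 1 < w / Real.log (S.card : ℝ) := by
    have h1 := Nat.ceil_lt_add_one (show 0 ≤ w / Real.log (S.card : ℝ) by positivity)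
    rw [← hk] at h1
    linarith
  have hklow : w / Real.log (S.card : ℝ) ≤ k := by rw [hk]; exact Nat.le_ceil _
  have hkk : k ≤ k₁ := by
    have h1 : w / Real.log (S.card : ℝ) ≤ A' / s := by
      rw [div_le_div_iff₀ hlogT0 hs0]
      calc w * s ≤ (A' * L) * s := mul_le_mul_of_nonneg_right hwA hs0.le
        _ = A' * (s * L) := by ring
        _ ≤ A' * Real.log (S.card : ℝ) := mul_le_mul_of_nonneg_left hlogT (by linarith)
    have h2 : k ≤ ⌈A' / s⌉₊ := by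
      rw [hk]
      exact Nat.ceil_mono h1
    omega
  have hTk : Real.log q ≤ (S.card : ℝ) ^ k := by
    rw [← hW, ← Real.log_le_log_iff (by rw [hW]; linarith) (by positivity), Real.log_pow, ← hw]
    rw [div_le_iff₀ hlogT0] at hklow
    exact hklow
  have hkm : ((k : ℝ) - 1) * (s * L) ≤ w := by
    have h1 : ((k : ℝ) - 1) * (s * L) ≤ ((k : ℝ) - 1) * Real.log (S.card : ℝ) := by
      refine mul_le_mul_of_nonneg_left hlogT ?_
      have : (1 : ℝ) ≤ k := by exact_mod_cast hk1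
      linarith
    rw [lt_div_iff₀ hlogT0] at hkup
    linarith
  have hSN : (N : ℝ) ^ (1 / 4 : ℝ) ≤ (S.card : ℝ) := by
    refine le_trans ?_ hT
    refine Real.rpow_le_rpow_of_exponent_le hNr ?_
    rw [hs]
    linarith
  have hLL := hNL k hk1 N ((hN₁ k hkk).trans hNN1) q a S hctx hW1 hSN
  have hLL0 : 0 ≤ LL q a N k := LL_nonneg (by have := hctx.hq; omega) hN1
  have hmain := CFin_det (A := A') (s := s) (θ := θ) hctx hk1 hkk hTnat hθ0 hθ1 hs0 hA1 (by linarith) (by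
    rw [div_le_iff₀ hθ0] at hLθ
    linarith) hWge1 (by
    rw [← hW, ← hw, ← hL]
    exact hwA) hLL hLL0 hTk (by
    rw [← hW, ← hw, ← hL]
    exact hkm)
  rw [← hC₁, ← hW, ← hw, ← hL] at hmain
  rw [← hW, ← hw]
  rw [← hW] at hW1 hWge1
  refine hmain.trans ?_
  have e1 : (1 + 1 / θ) * ((50 * k₁ + 4 * A' + 3) * (2 * L)) ^ 2 = C₂ * L ^ 2 := by
    rw [hC₂]
    ring
  rw [e1]
  have hθ3 : 2 * (1 + θ) ^ 3 ≤ 2 + η / 2 := by
    have h1 : θ ^ 2 ≤ θ := by nlinarith only [hθ0, hθ1]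
    have h2 : θ ^ 3 ≤ θ := by
      have : θ ^ 3 = θ * θ ^ 2 := by ring
      nlinarith only [this, h1, hθ0, hθ1]
    nlinarith only [h1, h2, hθ2]
  have hWw : 0 ≤ W * w := by positivity
  have e2 : 2 * (1 + θ) ^ 3 / s * (W * w) ≤ (2 + η / 2) / s * (W * w) :=
    mul_le_mul_of_nonneg_right (div_le_div_of_nonneg_right hθ3 hs0.le) hWw
  have e3 : C₁ * W ≤ η / 4 / s * (W * w) := by
    have h1 : 16 * s * C₁ ≤ L * η := by
      rw [div_le_iff₀ hη, ← hL] at hLC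
      exact hLC
    have h2 : 4 * s * C₁ ≤ η * w := by nlinarith only [h1, hwL, hη]
    have h3 : C₁ ≤ η / 4 / s * w := by
      rw [div_div, div_mul_eq_mul_div, le_div_iff₀ (by positivity)]
      linarith
    calc C₁ * W ≤ (η / 4 / s * w) * W := mul_le_mul_of_nonneg_right h3 (by linarith)
      _ = η / 4 / s * (W * w) := by ring
  have e4 : C₂ * L ^ 2 ≤ η / 4 / s * (W * w) := by
    rw [← hL] at ht3
    have h1 : 16 * s * C₂ * L ≤ η * W := ht3.trans (mul_le_mul_of_nonneg_left hW1 hη.le)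
    have hL0 : 0 ≤ L := by rw [hL]; linarith
    have h2 : 4 * s * (C₂ * L ^ 2) ≤ η * (W * w) := by
      have h3 : (16 * s * C₂ * L) * L ≤ (η * W) * (4 * w) :=
        mul_le_mul h1 (by linarith) hL0 (by positivity)
      linarith only [h3]
    rw [div_div, div_mul_eq_mul_div, le_div_iff₀ (by positivity)]
    linarith
  have e5 : (2 + η) / s * W * w = (2 + η / 2) / s * (W * w) + η / 4 / s * (W * w) +
      η / 4 / s * (W * w) := by
    field_simp
    ring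
  rw [e5]
  linarith

end Pool.Agent.Lib.MP_2c6f70_nt.RU
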