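import Pool.Agent.Lib.MP_2c6f70_nt.RU.CDefs
import Pool.Agent.Lib.MP_2c6f70_nt.KW.Pade

/-!
# JOB CPig: Pade approximants by a weighted pigeonhole principle
-/

set_option autoImplicit false

namespace Pool.Agent.Lib.MP_2c6f70_nt.RU

open Polynomial Pool.Agent.Lib.MP_2c6f70_nt Pool.Agent.Lib.MP_2c6f70_nt.KW

/-- Weighted Siegel lemma.  Box `0 ≤ t_i ≤ H ρ^i` (`∏ (H ρ^i + 1)` points).  The value of equation `e` lies between `- ∑ max (- M e i) 0 H ρ^i`
and `∑ max (M e i) 0 H ρ^i`: an interval with at most `∑ |M e i| H ρ^i + 1 ≤ (K + 1) H T e + 1` points.  Pigeonhole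
(`Finset.exists_ne_map_eq_of_card_lt_of_maps_to` with `Fintype.piFinset`), take the difference of two points with the same values. -/
theorem wsiegel (K H ρ : ℕ) (T : Fin K → ℕ) (M : Fin K → Fin (K + 1) → ℤ)
    (hM : ∀ e i, |M e i| * (ρ : ℤ) ^ (i : ℕ) ≤ T e)
    (hlt : ∏ e, ((K + 1) * H * T e + 1) < ∏ i : Fin (K + 1), (H * ρ ^ (i : ℕ) + 1)) :
    ∃ t : Fin (K + 1) → ℤ, t ≠ 0 ∧ (∀ e, ∑ i, M e i * t i = 0) ∧
      ∀ i, |t i| ≤ (H : ℤ) * (ρ : ℤ) ^ (i : ℕ) := by
  classical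
  obtain ⟨lo, hlo⟩ : ∃ lo : Fin K → ℤ, ∀ e, lo e = -∑ i : Fin (K + 1), max (-(M e i)) 0 * ((H * ρ ^ (i : ℕ) : ℕ) : ℤ) :=
    ⟨_, fun _ => rfl⟩
  obtain ⟨hi, hhi⟩ : ∃ hi : Fin K → ℤ, ∀ e, hi e = ∑ i : Fin (K + 1), max (M e i) 0 * ((H * ρ ^ (i : ℕ) : ℕ) : ℤ) :=
    ⟨_, fun _ => rfl⟩
  have hdiff : ∀ e, hi e - lo e ≤ (((K + 1) * H * T e : ℕ) : ℤ) := by
    intro e
    rw [hhi, hlo, sub_neg_eq_add, ← Finset.sum_add_distrib]
    have h1 : ∀ i : Fin (K + 1), max (M e i) 0 * ((H * ρ ^ (i : ℕ) : ℕ) : ℤ) +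
        max (-(M e i)) 0 * ((H * ρ ^ (i : ℕ) : ℕ) : ℤ) ≤ (H : ℤ) * T e := by
      intro i
      have h2 : max (M e i) 0 + max (-(M e i)) 0 = |M e i| := by
        rcases le_total 0 (M e i) with h | h
        · rw [max_eq_left h, max_eq_right (by linarith), abs_of_nonneg h, add_zero]
        · rw [max_eq_right h, max_eq_left (by linarith), abs_of_nonpos h, zero_add]
      rw [← add_mul, h2]
      push_cast
      have h3 := mul_le_mul_of_nonneg_left (hM e i) (Int.natCast_nonneg H)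
      linarith [h3, (by ring : |M e i| * ((H : ℤ) * (ρ : ℤ) ^ (i : ℕ)) = (H : ℤ) * (|M e i| * (ρ : ℤ) ^ (i : ℕ)))]
    refine (Finset.sum_le_sum fun i _ => h1 i).trans (le_of_eq ?_)
    rw [Finset.sum_const, Finset.card_univ, Fintype.card_fin, nsmul_eq_mul]
    push_cast
    ring
  have hcard : (Fintype.piFinset fun e : Fin K => Finset.Icc (lo e) (hi e)).card <
      (Fintype.piFinset fun i : Fin (K + 1) => Finset.range (H * ρ ^ (i : ℕ) + 1)).card := by
    rw [Fintype.card_piFinset, Fintype.card_piFinset]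
    simp only [Int.card_Icc, Finset.card_range]
    refine lt_of_le_of_lt (Finset.prod_le_prod' fun e _ => ?_) hlt
    have := hdiff e
    omega
  obtain ⟨x, hx, y, hy, hxy, hf⟩ := Finset.exists_ne_map_eq_of_card_lt_of_maps_to hcard
    (f := fun t e => ∑ i, M e i * (t i : ℤ)) (by
      intro t ht
      rw [Finset.mem_coe, Fintype.mem_piFinset] at ht
      rw [Finset.mem_coe, Fintype.mem_piFinset]
      intro e
      have hti : ∀ i, (t i : ℤ) ≤ ((H * ρ ^ (i : ℕ) : ℕ) : ℤ) := by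
        intro i
        have := Finset.mem_range.1 (ht i)
        exact_mod_cast Nat.lt_succ_iff.1 this
      rw [Finset.mem_Icc, hlo, hhi, ← Finset.sum_neg_distrib]
      refine ⟨Finset.sum_le_sum fun i _ => ?_, Finset.sum_le_sum fun i _ => ?_⟩
      · have h1 : -(M e i) ≤ max (-(M e i)) 0 := le_max_left _ _
        have h2 : 0 ≤ max (-(M e i)) 0 := le_max_right _ _
        have h3 := mul_le_mul_of_nonneg_left (hti i) h2
        have h4 := mul_le_mul_of_nonneg_right h1 (Int.natCast_nonneg (t i))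
        linarith
      · have h1 : M e i ≤ max (M e i) 0 := le_max_left _ _
        have h2 : 0 ≤ max (M e i) 0 := le_max_right _ _
        have h3 := mul_le_mul_of_nonneg_left (hti i) h2
        have h4 := mul_le_mul_of_nonneg_right h1 (Int.natCast_nonneg (t i))
        linarith)
  rw [Fintype.mem_piFinset] at hx hy
  refine ⟨fun i => (x i : ℤ) - y i, ?_, ?_, ?_⟩
  · intro h0
    apply hxy
    funext i
    have := congrFun h0 i
    simp only [Pi.zero_apply] at this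
    omega
  · intro e
    have h1 : ∑ i, M e i * (x i : ℤ) = ∑ i, M e i * (y i : ℤ) := congrFun hf e
    simp only [mul_sub, Finset.sum_sub_distrib]
    linarith
  · intro i
    have h1 := Finset.mem_range.1 (hx i)
    have h2 := Finset.mem_range.1 (hy i)
    have h3 : (x i : ℤ) ≤ ((H * ρ ^ (i : ℕ) : ℕ) : ℤ) := by exact_mod_cast Nat.lt_succ_iff.1 h1
    have h4 : (y i : ℤ) ≤ ((H * ρ ^ (i : ℕ) : ℕ) : ℤ) := by exact_mod_cast Nat.lt_succ_iff.1 h2
    push_cast at h3 h4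
    have h5 := Int.natCast_nonneg (x i)
    have h6 := Int.natCast_nonneg (y i)
    show |(x i : ℤ) - y i| ≤ _
    rw [abs_le]
    constructor <;> linarith

/-- As `KW.exists_pade` (file `KW/Pade.lean`, reuse `Pade_B`, `Pade_B_coeff`, `Pade_B_mul`) with `wsiegel` instead of Siegel's lemma: `M e i = coeff (K + j + 1 + e - i) g`,
`ρ = 8 N`, `T e = 4^j (8N)^(K + j + 1 + e)`, `H = (2 (K+1) 4^j)^K (8N)^(K (K+j))`.  `(K+1) H T e + 1 ≤ 2 (K+1) H T e`, so the product over `e` is at most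
`(2 (K+1) 4^j H)^K (8N)^(K (K+j+1) + K(K-1)/2) = H^(K+1) (8N)^(K(K+1)/2) < ∏ (H ρ^i + 1)`.
`|t_i| ≤ H (8N)^K`, the coefficients of `A` are at most `(K+1) H 4^j (8N)^(K+j)`; both are at most `HS N K j`. -/
theorem exists_pade_sharp {g : PowerSeries ℤ} {N : ℕ} (hN : 1 ≤ N) (K j : ℕ)
    (hg : ∀ i, |PowerSeries.coeff i g| ≤ 4 ^ j * (8 * (N : ℤ)) ^ i) :
    ∃ A B : ℤ[X], IsPade g K j (HS N K j) A B := by
  classical
  have hN0 : 0 < N := hN
  obtain ⟨ρ, hρ⟩ : ∃ ρ : ℕ, ρ = 8 * N := ⟨_, rfl⟩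
  have hρ1 : 1 ≤ ρ := by omega
  have hρz : (8 * (N : ℤ)) = (ρ : ℤ) := by rw [hρ]; push_cast; rfl
  obtain ⟨c, hcd⟩ : ∃ c : ℕ, c = 2 * (K + 1) * 4 ^ j * ρ ^ (K + j) := ⟨_, rfl⟩
  have hρK : 0 < ρ ^ (K + j) := Nat.pow_pos hρ1
  have h4j : 0 < 4 ^ j := Nat.pow_pos (by norm_num)
  have hc1 : 1 ≤ c := by
    rw [hcd]
    exact Nat.succ_le_of_lt (by positivity)
  obtain ⟨H, hH⟩ : ∃ H : ℕ, H = c ^ K := ⟨_, rfl⟩
  have hH1 : 1 ≤ H := by
    rw [hH]
    exact Nat.one_le_pow _ _ hc1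
  have hHS : HS N K j = c * H := by
    unfold HS
    rw [hH, ← pow_succ', hcd, hρ, mul_comm (K + 1) (K + j), pow_mul (8 * N) (K + j) (K + 1), ← mul_pow]
  have hgρ : ∀ i, |PowerSeries.coeff i g| ≤ (4 : ℤ) ^ j * (ρ : ℤ) ^ i := by
    intro i
    have := hg i
    rwa [hρz] at this
  obtain ⟨t, ht, hMt, hti⟩ := wsiegel K H ρ (fun e => 4 ^ j * ρ ^ (K + j + 1 + (e : ℕ)))
    (fun e i => PowerSeries.coeff (K + j + 1 + (e : ℕ) - (i : ℕ)) g)
    (by
      intro e i
      have hi : (i : ℕ) ≤ K + j + 1 + (e : ℕ) := by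
        have := i.isLt
        omega
      have h1 := mul_le_mul_of_nonneg_right (hgρ (K + j + 1 + (e : ℕ) - (i : ℕ)))
        (pow_nonneg (Int.natCast_nonneg ρ) (i : ℕ))
      refine h1.trans (le_of_eq ?_)
      push_cast
      rw [mul_assoc, ← pow_add, Nat.sub_add_cancel hi])
    (by
      have h1 : ∏ e : Fin K, ((K + 1) * H * (4 ^ j * ρ ^ (K + j + 1 + (e : ℕ))) + 1) ≤
          ∏ e : Fin K, (c * (H * ρ ^ ((e : ℕ) + 1))) := by
        refine Finset.prod_le_prod' fun e _ => ?_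
        have h2 : c * (H * ρ ^ ((e : ℕ) + 1)) = 2 * ((K + 1) * H * (4 ^ j * ρ ^ (K + j + 1 + (e : ℕ)))) := by
          rw [hcd, (by ring : K + j + 1 + (e : ℕ) = (K + j) + ((e : ℕ) + 1)), pow_add ρ (K + j)]
          ring
        have h3 : 0 < ρ ^ (K + j + 1 + (e : ℕ)) := Nat.pow_pos hρ1
        have h4 : 1 ≤ (K + 1) * H * (4 ^ j * ρ ^ (K + j + 1 + (e : ℕ))) := by
          have hH0 : 0 < H := hH1
          exact Nat.succ_le_of_lt (by positivity)
        omega
      have h2 : ∏ e : Fin K, (c * (H * ρ ^ ((e : ℕ) + 1))) = ∏ i : Fin (K + 1), (H * ρ ^ (i : ℕ)) := by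
        rw [Finset.prod_mul_distrib, Finset.prod_const, Finset.card_univ, Fintype.card_fin, ← hH,
          Fin.prod_univ_succ]
        simp only [Fin.val_zero, pow_zero, mul_one, Fin.val_succ]
      rw [h2] at h1
      refine lt_of_le_of_lt h1 ?_
      refine Finset.prod_lt_prod_of_nonempty (fun i _ => ?_) (fun i _ => Nat.lt_succ_self _) ⟨0, Finset.mem_univ _⟩
      have hH0 : 0 < H := hH1
      have h3 : 0 < ρ ^ (i : ℕ) := Nat.pow_pos hρ1
      positivity)
  obtain ⟨s, hs⟩ : ∃ s : ℕ → ℤ, s = fun i => if h : i < K + 1 then t ⟨i, h⟩ else 0 := ⟨_, rfl⟩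
  have hst : ∀ i : Fin (K + 1), s (i : ℕ) = t i := by
    intro i
    rw [hs]
    simp only [i.isLt, dif_pos]
  have hsb : ∀ i, |s i| ≤ (H : ℤ) * (ρ : ℤ) ^ i := by
    intro i
    by_cases hi : i < K + 1
    · have h1 := hst ⟨i, hi⟩
      have h2 : s i = t ⟨i, hi⟩ := h1
      rw [h2]
      exact hti _
    · have h2 : s i = 0 := by
        rw [hs]
        simp only [hi, dif_neg, not_false_iff]
      rw [h2, abs_zero]
      positivity
  rw [hHS]
  have hρ1' : (1 : ℤ) ≤ (ρ : ℤ) := by exact_mod_cast hρ1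
  refine ⟨-(PowerSeries.trunc (K + j + 1) ((Pade_B K s : PowerSeries ℤ) * g)), Pade_B K s,
    ?_, ?_, ?_, ?_, ?_, ?_⟩
  · rw [natDegree_neg, natDegree_le_iff_coeff_eq_zero]
    intro m hm
    rw [PowerSeries.coeff_trunc, if_neg (by omega)]
  · rw [natDegree_le_iff_coeff_eq_zero]
    intro m hm
    rw [Pade_B_coeff, if_neg (by omega)]
  · intro h0
    apply ht
    funext i
    have h1 := congrArg (fun P : ℤ[X] => P.coeff (i : ℕ)) h0
    simp only [Pade_B_coeff, coeff_zero] at h1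
    rw [if_pos (Nat.lt_succ_iff.1 i.isLt), hst] at h1
    exact h1
  · intro l
    rw [coeff_neg, abs_neg, PowerSeries.coeff_trunc]
    by_cases hl : l < K + j + 1
    · rw [if_pos hl, Pade_B_mul]
      calc |∑ i ∈ Finset.range (K + 1), s i * (if i ≤ l then PowerSeries.coeff (l - i) g else 0)|
          ≤ ∑ i ∈ Finset.range (K + 1), |s i * (if i ≤ l then PowerSeries.coeff (l - i) g else 0)| :=
            Finset.abs_sum_le_sum_abs _ _
        _ ≤ ∑ i ∈ Finset.range (K + 1), ((H : ℤ) * (4 : ℤ) ^ j * (ρ : ℤ) ^ (K + j)) := by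
            refine Finset.sum_le_sum fun i _ => ?_
            by_cases hi : i ≤ l
            · rw [if_pos hi, abs_mul]
              have h1 := mul_le_mul (hsb i) (hgρ (l - i)) (abs_nonneg _) (by positivity)
              refine h1.trans ?_
              have h2 : (H : ℤ) * (ρ : ℤ) ^ i * ((4 : ℤ) ^ j * (ρ : ℤ) ^ (l - i)) =
                  (H : ℤ) * (4 : ℤ) ^ j * (ρ : ℤ) ^ l := by
                have h3 : (ρ : ℤ) ^ l = (ρ : ℤ) ^ i * (ρ : ℤ) ^ (l - i) := by
                  rw [← pow_add, Nat.add_sub_cancel' hi]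
                rw [h3]
                ring
              rw [h2]
              exact mul_le_mul_of_nonneg_left (pow_le_pow_right₀ hρ1' (by omega)) (by positivity)
            · rw [if_neg hi, mul_zero, abs_zero]
              positivity
        _ ≤ ((c * H : ℕ) : ℤ) := by
            rw [Finset.sum_const, Finset.card_range, nsmul_eq_mul, hcd]
            push_cast
            have h1 : (0 : ℤ) ≤ ((K : ℤ) + 1) * ((H : ℤ) * (4 : ℤ) ^ j * (ρ : ℤ) ^ (K + j)) := by positivity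
            linarith [h1, (by ring : 2 * ((K : ℤ) + 1) * 4 ^ j * (ρ : ℤ) ^ (K + j) * (H : ℤ) =
              2 * (((K : ℤ) + 1) * ((H : ℤ) * (4 : ℤ) ^ j * (ρ : ℤ) ^ (K + j))))]
    · rw [if_neg hl, abs_zero]
      exact Int.natCast_nonneg _
  · intro i
    rw [Pade_B_coeff]
    by_cases hi : i ≤ K
    · rw [if_pos hi]
      refine (hsb i).trans ?_
      have h1 : (ρ : ℤ) ^ i ≤ (c : ℤ) := by
        have h2 : ρ ^ i ≤ ρ ^ (K + j) := Nat.pow_le_pow_right hρ1 (by omega)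
        have h3 : ρ ^ (K + j) ≤ c := by
          rw [hcd]
          exact Nat.le_mul_of_pos_left _ (by positivity)
        exact_mod_cast h2.trans h3
      have h4 := mul_le_mul_of_nonneg_left h1 (Int.natCast_nonneg H)
      push_cast
      linarith [h4, mul_comm (c : ℤ) (H : ℤ)]
    · rw [if_neg hi, abs_zero]
      exact Int.natCast_nonneg _
  · intro l hl
    rw [map_add, Polynomial.coeff_coe, coeff_neg, PowerSeries.coeff_trunc]
    by_cases hl2 : l < K + j + 1
    · rw [if_pos hl2, neg_add_cancel]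
    · rw [if_neg hl2, neg_zero, zero_add, Pade_B_mul]
      have he : l - (K + j + 1) < K := by omega
      have h1 := hMt ⟨l - (K + j + 1), he⟩
      rw [Finset.sum_range]
      rw [← h1]
      refine Finset.sum_congr rfl fun i _ => ?_
      have hi := i.isLt
      rw [if_pos (by omega), hst, mul_comm]
      congr 3
      show l - (i : ℕ) = K + j + 1 + (l - (K + j + 1)) - (i : ℕ)
      omega

end Pool.Agent.Lib.MP_2c6f70_nt.RU
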