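import Pool.Agent.Lib.MP_2c6f70_nt.RU.Defs

/-!
# JOB DA: common neighbourhoods and matchings

`common_nbhd`.  `deg j = #{k ∈ S : k ≠ j, E j k}`, `∑_j deg j ≥ θ #S^2`.  Count the pairs `(j, f)`, `j ∈ S`, `f : Fin R → ℕ` with values in the neighbourhood of `j`: `∑_j (deg j)^R ≥ #S (θ #S)^R`
(`inner_le_nnorm_mul_nnorm`-free: power mean `inner`/`Finset.inner_mul_le_norm_mul_norm` is not needed, use `inner_le..`: `(∑ x_j)^R ≤ #S^(R-1) ∑ x_j^R`: `inner` version `Finset.sum_pow_le_pow_mul_sum_pow`/`pow_sum_div_card_le_sum_pow`,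
Mathlib: `inner_le_nnorm_mul_nnorm` no; `inner` no; `pow_arith_mean_le_arith_mean_pow` or `inner`...; any proof).  The `f` that are not injective: at most `R^2 #S^(R-1)` of them (`Fintype.piFinset (fun _ => S)`: choose two positions with equal values), so at most `R^2 #S^R` pairs `(j, f)`.
So the number of `(j, f)` with `f` injective is `≥ θ^R #S^(R+1) - R^2 #S^R ≥ (θ^R / 2) #S^(R+1)`.  There are `#S^R` functions `f`, so some injective `f` has `≥ (θ^R/2) #S` elements `j`.  `K` = image of `f`.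

`matching`.  A set `P` of ordered pairs with `2 m #V < #P`, `t.1 ≠ t.2`, in `V × V`, contains `m` pairwise disjoint pairs (greedy): induction on `m`; `m` disjoint pairs cover `2 m` vertices and each vertex is in at most `2 #V` ordered pairs, so the pairs
meeting the previous ones are at most `4 m #V`: hence the hypothesis `4 m #V < #P`.
-/

set_option autoImplicit false

namespace Pool.Agent.Lib.MP_2c6f70_nt.RU

/-- Powers: the sum of the `R`-th powers of the truncated degrees is large. -/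
private theorem DA_pow {S : Finset ℕ} (hS : S.Nonempty) (d : ℕ → ℝ) {θ : ℝ} {R : ℕ} (hR : 1 ≤ R)
    (hE : θ * (S.card : ℝ) ^ 2 ≤ ∑ j ∈ S, d j) (hpos : 0 ≤ θ * S.card - R) :
    (S.card : ℝ) * (θ * S.card - R) ^ R ≤ ∑ j ∈ S, max (d j - R) 0 ^ R := by
  have hc : (0 : ℝ) < S.card := by exact_mod_cast hS.card_pos
  obtain ⟨n, rfl⟩ : ∃ n, R = n + 1 := ⟨R - 1, by omega⟩
  have h1 := pow_sum_div_card_le_sum_pow (s := S) (f := fun j => max (d j - ((n + 1 : ℕ) : ℝ)) 0)
    (fun j _ => le_max_right _ _) n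
  refine le_trans ?_ h1
  have h2 : (S.card : ℝ) * (θ * S.card - ((n + 1 : ℕ) : ℝ)) ≤
      ∑ j ∈ S, max (d j - ((n + 1 : ℕ) : ℝ)) 0 := by
    have h3 : ∑ j ∈ S, (d j - ((n + 1 : ℕ) : ℝ)) ≤ ∑ j ∈ S, max (d j - ((n + 1 : ℕ) : ℝ)) 0 :=
      Finset.sum_le_sum fun j _ => le_max_left _ _
    rw [Finset.sum_sub_distrib, Finset.sum_const, nsmul_eq_mul] at h3
    nlinarith
  have h4 := pow_le_pow_left₀ (mul_nonneg hc.le hpos) h2 (n + 1)
  rw [le_div_iff₀ (by positivity)]
  refine le_trans (le_of_eq ?_) h4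
  rw [mul_pow]
  ring

/-- Bernoulli. -/
private theorem DA_bern {θ s : ℝ} {R : ℕ} (hθ : 0 < θ) (hθ1 : θ ≤ 1) (hs : 0 < s) (hR : 1 ≤ R)
    (hbig : (R : ℝ) ^ 2 ≤ θ ^ R / 2 * s) :
    0 ≤ θ * s - R ∧ θ ^ R / 2 * s ^ R ≤ (θ * s - R) ^ R := by
  have hR1 : (1 : ℝ) ≤ R := by exact_mod_cast hR
  have h1 : θ ^ R ≤ θ := by
    have h := pow_le_pow_of_le_one hθ.le hθ1 hR
    rwa [pow_one] at h
  have h2 : (R : ℝ) ^ 2 ≤ θ * s / 2 := by
    have h3 : θ ^ R / 2 * s ≤ θ / 2 * s := by
      apply mul_le_mul_of_nonneg_right _ hs.le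
      linarith
    linarith
  have hts : 0 < θ * s := mul_pos hθ hs
  have h3 : (R : ℝ) ≤ (R : ℝ) ^ 2 := by nlinarith
  refine ⟨by linarith, ?_⟩
  have h4 : θ * s - R = θ * s * (1 + -((R : ℝ) / (θ * s))) := by
    field_simp
    ring
  have h5 : (R : ℝ) / (θ * s) ≤ 1 := by
    rw [div_le_one hts]
    linarith
  have h6 := one_add_mul_le_pow (a := -((R : ℝ) / (θ * s))) (by linarith) R
  have h7 : (R : ℝ) * ((R : ℝ) / (θ * s)) ≤ 1 / 2 := by
    rw [← mul_div_assoc, div_le_iff₀ hts]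
    nlinarith
  rw [h4, mul_pow, mul_pow]
  have h8 : (1 : ℝ) / 2 ≤ (1 + -((R : ℝ) / (θ * s))) ^ R := by linarith
  have h9 : 0 ≤ θ ^ R * s ^ R := by positivity
  nlinarith [mul_le_mul_of_nonneg_left h8 h9]

open Classical in
theorem common_nbhd {S : Finset ℕ} (E : ℕ → ℕ → Prop) {θ : ℝ} (hθ : 0 < θ) (hS : S.Nonempty)
    (hE : θ * (S.card : ℝ) ^ 2 ≤ (((pairs S).filter (fun t => E t.1 t.2)).card : ℝ)) (R : ℕ) (hR : 1 ≤ R)
    (hbig : (R : ℝ) ^ 2 ≤ θ ^ R / 2 * S.card) :
    ∃ K ⊆ S, K.card = R ∧ ∃ V ⊆ S, θ ^ R / 2 * S.card ≤ (V.card : ℝ) ∧ ∀ x ∈ V, ∀ k ∈ K, x ≠ k ∧ E x k := by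
  have hc : (0 : ℝ) < S.card := by exact_mod_cast hS.card_pos
  obtain ⟨D, hD⟩ : ∃ D : ℕ → Finset ℕ, D = fun j => S.filter (fun k => j ≠ k ∧ E j k) := ⟨_, rfl⟩
  -- the number of pairs is the sum of the degrees
  have hsum : (((pairs S).filter (fun t => E t.1 t.2)).card : ℝ) = ∑ j ∈ S, ((D j).card : ℝ) := by
    have h1 : ((pairs S).filter (fun t => E t.1 t.2)) =
        (S ×ˢ S).filter (fun t => t.1 ≠ t.2 ∧ E t.1 t.2) := by
      unfold pairs
      rw [Finset.filter_filter]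
    rw [h1, Finset.card_filter, Finset.sum_product, ← Nat.cast_sum]
    congr 1
    refine Finset.sum_congr rfl fun j _ => ?_
    rw [hD]
    simp only []
    rw [Finset.card_filter]
  have hθ1 : θ ≤ 1 := by
    have h1 : (((pairs S).filter (fun t => E t.1 t.2)).card : ℝ) ≤ (S.card : ℝ) ^ 2 := by
      have h2 : ((pairs S).filter (fun t => E t.1 t.2)).card ≤ S.card * S.card := by
        unfold pairs
        rw [← Finset.card_product]
        exact Finset.card_le_card ((Finset.filter_subset _ _).trans (Finset.filter_subset _ _))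
      rw [sq]
      exact_mod_cast h2
    have h3 : θ * (S.card : ℝ) ^ 2 ≤ 1 * (S.card : ℝ) ^ 2 := by linarith
    exact le_of_mul_le_mul_right h3 (by positivity)
  obtain ⟨hpos, hbern⟩ := DA_bern hθ hθ1 hc hR hbig
  rw [hsum] at hE
  have hpow := DA_pow hS (fun j => ((D j).card : ℝ)) hR hE hpos
  -- double counting
  have hdc := Finset.sum_card_bipartiteAbove_eq_sum_card_bipartiteBelow (s := S)
    (t := S.powersetCard R) (fun (j : ℕ) (K : Finset ℕ) => K ⊆ D j)
  have hab : ∀ j ∈ S, ((S.powersetCard R).bipartiteAbove (fun (j : ℕ) (K : Finset ℕ) => K ⊆ D j) j).card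
      = (D j).card.choose R := by
    intro j _
    rw [← Finset.card_powersetCard]
    congr 1
    ext K
    rw [Finset.mem_bipartiteAbove, Finset.mem_powersetCard, Finset.mem_powersetCard]
    constructor
    · rintro ⟨⟨_, h2⟩, h3⟩
      exact ⟨h3, h2⟩
    · rintro ⟨h1, h2⟩
      refine ⟨⟨h1.trans ?_, h2⟩, h1⟩
      rw [hD]
      exact Finset.filter_subset _ _
  rw [Finset.sum_congr rfl hab] at hdc
  have hfac : (0 : ℝ) < (R.factorial : ℝ) := by exact_mod_cast R.factorial_pos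
  have hlow : ∀ j ∈ S, max (((D j).card : ℝ) - R) 0 ^ R ≤ (R.factorial : ℝ) * ((D j).card.choose R : ℝ) := by
    intro j _
    have h1 : ((D j).card + 1 - R) ^ R ≤ R.factorial * (D j).card.choose R := by
      rw [← Nat.descFactorial_eq_factorial_mul_choose]
      exact Nat.pow_sub_le_descFactorial _ _
    have h2 : max (((D j).card : ℝ) - R) 0 ≤ (((D j).card + 1 - R : ℕ) : ℝ) := by
      apply max_le
      · have h3 : (D j).card ≤ ((D j).card + 1 - R) + R := by omega
        have h4 : ((D j).card : ℝ) ≤ (((D j).card + 1 - R : ℕ) : ℝ) + R := by exact_mod_cast h3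
        linarith
      · positivity
    refine le_trans (pow_le_pow_left₀ (le_max_right _ _) h2 R) ?_
    exact_mod_cast h1
  have hup : (R.factorial : ℝ) * (S.card.choose R : ℝ) ≤ (S.card : ℝ) ^ R := by
    have h1 : R.factorial * S.card.choose R ≤ S.card ^ R := by
      rw [← Nat.descFactorial_eq_factorial_mul_choose]
      exact Nat.descFactorial_le_pow _ _
    exact_mod_cast h1
  have htot : θ ^ R / 2 * S.card * ((R.factorial : ℝ) * (S.card.choose R : ℝ)) ≤
      (R.factorial : ℝ) * ∑ j ∈ S, ((D j).card.choose R : ℝ) := by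
    have h1 : ∑ j ∈ S, max (((D j).card : ℝ) - R) 0 ^ R ≤
        (R.factorial : ℝ) * ∑ j ∈ S, ((D j).card.choose R : ℝ) := by
      rw [Finset.mul_sum]
      exact Finset.sum_le_sum hlow
    refine le_trans ?_ (le_trans hpow h1)
    have h2 : θ ^ R / 2 * S.card * ((R.factorial : ℝ) * (S.card.choose R : ℝ)) ≤
        θ ^ R / 2 * S.card * (S.card : ℝ) ^ R :=
      mul_le_mul_of_nonneg_left hup (by positivity)
    have h3 := mul_le_mul_of_nonneg_left hbern hc.le
    nlinarith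
  have hRS : R ≤ S.card := by
    have h1 : (0 : ℝ) ≤ θ * S.card - R := hpos
    have h2 : (R : ℝ) ≤ S.card := by nlinarith
    exact_mod_cast h2
  have hch : (0 : ℝ) < (S.card.choose R : ℝ) := by exact_mod_cast Nat.choose_pos hRS
  by_contra hcon
  have hbel : ∀ K ∈ S.powersetCard R,
      ((S.bipartiteBelow (fun (j : ℕ) (K : Finset ℕ) => K ⊆ D j) K).card : ℝ) < θ ^ R / 2 * S.card := by
    intro K hK
    rw [Finset.mem_powersetCard] at hK
    by_contra hlt
    rw [not_lt] at hlt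
    refine hcon ⟨K, hK.1, hK.2, S.bipartiteBelow (fun (j : ℕ) (K : Finset ℕ) => K ⊆ D j) K,
      Finset.filter_subset _ _, hlt, ?_⟩
    intro x hx k hk
    rw [Finset.mem_bipartiteBelow] at hx
    have h1 := hx.2 hk
    rw [hD] at h1
    exact (Finset.mem_filter.1 h1).2
  have hdc' : (∑ j ∈ S, ((D j).card.choose R : ℝ)) = ∑ K ∈ S.powersetCard R,
      ((S.bipartiteBelow (fun (j : ℕ) (K : Finset ℕ) => K ⊆ D j) K).card : ℝ) := by
    exact_mod_cast hdc
  have hlt : (∑ j ∈ S, ((D j).card.choose R : ℝ)) < S.card.choose R * (θ ^ R / 2 * S.card) := by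
    rw [hdc']
    have h1 : (S.card.choose R : ℝ) * (θ ^ R / 2 * S.card) =
        ∑ K ∈ S.powersetCard R, (θ ^ R / 2 * (S.card : ℝ)) := by
      rw [Finset.sum_const, Finset.card_powersetCard, nsmul_eq_mul]
    rw [h1]
    apply Finset.sum_lt_sum_of_nonempty
    · exact Finset.powersetCard_nonempty.2 hRS
    · exact hbel
  nlinarith [mul_lt_mul_of_pos_left hlt hfac]

theorem matching {V : Finset ℕ} (P : Finset (ℕ × ℕ)) (hP : P ⊆ pairs V) (m : ℕ)
    (h : 4 * m * V.card < P.card) :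
    ∃ M ⊆ P, M.card = m ∧ ∀ s ∈ M, ∀ t ∈ M, s ≠ t → s.1 ≠ t.1 ∧ s.1 ≠ t.2 ∧ s.2 ≠ t.1 ∧ s.2 ≠ t.2 := by
  classical
  induction m with
  | zero => exact ⟨∅, Finset.empty_subset _, rfl, by simp⟩
  | succ m ih =>
    obtain ⟨M, hMP, hMc, hM⟩ := ih (lt_of_le_of_lt (by nlinarith) h)
    -- the covered vertices
    obtain ⟨C, hC⟩ : ∃ C : Finset ℕ, C = M.image Prod.fst ∪ M.image Prod.snd := ⟨_, rfl⟩
    have hCc : C.card ≤ 2 * m := by
      rw [hC]
      refine (Finset.card_union_le _ _).trans ?_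
      have h1 : (M.image Prod.fst).card ≤ M.card := Finset.card_image_le
      have h2 : (M.image Prod.snd).card ≤ M.card := Finset.card_image_le
      omega
    obtain ⟨t, htP, ht⟩ : ∃ t ∈ P, t ∉ C ×ˢ V ∪ V ×ˢ C := by
      by_contra hcon
      push Not at hcon
      have h1 : P.card ≤ (C ×ˢ V ∪ V ×ˢ C).card := Finset.card_le_card hcon
      have h2 : (C ×ˢ V ∪ V ×ˢ C).card ≤ C.card * V.card + V.card * C.card := by
        refine (Finset.card_union_le _ _).trans ?_
        rw [Finset.card_product, Finset.card_product]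
      have h3 : C.card * V.card ≤ 2 * m * V.card := Nat.mul_le_mul_right _ hCc
      have h4 : V.card * C.card = C.card * V.card := Nat.mul_comm _ _
      nlinarith
    have htV : t.1 ∈ V ∧ t.2 ∈ V := by
      have h1 := hP htP
      unfold pairs at h1
      rw [Finset.mem_filter, Finset.mem_product] at h1
      exact h1.1
    rw [Finset.mem_union, Finset.mem_product, Finset.mem_product, not_or] at ht
    have h1 : t.1 ∉ C := fun h1 => ht.1 ⟨h1, htV.2⟩
    have h2 : t.2 ∉ C := fun h2 => ht.2 ⟨htV.1, h2⟩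
    have hcov : ∀ s ∈ M, s.1 ∈ C ∧ s.2 ∈ C := by
      intro s hs
      rw [hC]
      exact ⟨Finset.mem_union_left _ (Finset.mem_image_of_mem _ hs),
        Finset.mem_union_right _ (Finset.mem_image_of_mem _ hs)⟩
    have htM : t ∉ M := fun h3 => h1 (hcov t h3).1
    refine ⟨insert t M, Finset.insert_subset htP hMP, ?_, ?_⟩
    · rw [Finset.card_insert_of_notMem htM, hMc]
    · intro s hs u hu hne
      rw [Finset.mem_insert] at hs hu
      rcases hs with rfl | hs
      · rcases hu with rfl | hu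
        · exact absurd rfl hne
        · obtain ⟨h3, h4⟩ := hcov u hu
          exact ⟨fun h => h1 (h ▸ h3), fun h => h1 (h ▸ h4), fun h => h2 (h ▸ h3), fun h => h2 (h ▸ h4)⟩
      · rcases hu with rfl | hu
        · obtain ⟨h3, h4⟩ := hcov s hs
          exact ⟨fun h => h1 (h ▸ h3), fun h => h2 (h ▸ h3), fun h => h1 (h ▸ h4), fun h => h2 (h ▸ h4)⟩
        · exact hM s hs u hu hne

end Pool.Agent.Lib.MP_2c6f70_nt.RU
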