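import Pool.Agent.Lib.MP_2c6f70_nt.RU.LB

/-!
# JOB DB: the symbols `tt` are determined by the signs on a common neighbourhood

`p ∈ q.primeFactors`, `p ≠ 2`; `K` contains `k₊` with sign `1` and `k₋` with sign `-1` at `p`; `bb q z x k = b₀` for all `x ∈ V`, `k ∈ K`.

`t_determined`: for `x ∈ V` with sign `e` take `k = k_±` of the same sign: `leg_same`: `J(b₀|p) = J(2 e z|p) tt x tt k`, all factors `± 1` (`tt_pm`, `z_pm`), so `tt x = J(b₀|p) J(2 e z|p) tt k`, which depends only on `e`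
(if no `x ∈ V` has sign `e` take `τ = 1`).  In particular then `J(b₀|p) = ± 1`.

`val_one` (`p % 4 = 1`, so `J(-1|p) = 1`, `J(2 e z|p) = J(2 z|p) =: κ` for `e = ± 1`): signs equal: `J(bb x y|p) = κ tt x tt y = κ τ_e^2 = κ`.  Signs different: by symmetry (`aa_comm`) let `y < x`: `leg_diff`:
`J(aa x y|p) = J(2 e z|p) J(∏..|p) tt x tt y = κ J(∏ ..|p) τ₊ τ₋ =: ω'`.

`val_three` (`p % 4 = 3`, `J(-1|p) = -1`, `J(2 e z|p) = e J(2 z|p)`): signs equal to `e`: `J(bb x y|p) = e J(2z|p) τ_e^2 = κ e`.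
-/

set_option autoImplicit false

namespace Pool.Agent.Lib.MP_2c6f70_nt.RU

open Pool.Agent.Lib.MP_2c6f70_nt Pool.Agent.Lib.MP_2c6f70_nt.KW

private theorem DB_prod_pm {q p : ℕ} (hp : p ∈ q.primeFactors) (D : Finset ℕ) (hD : D ⊆ q.primeFactors.erase p) :
    jacobiSym ((∏ p' ∈ D, mr q p' : ℕ) : ℤ) p = 1 ∨ jacobiSym ((∏ p' ∈ D, mr q p' : ℕ) : ℤ) p = -1 := by
  have hpp := Nat.prime_of_mem_primeFactors hp
  have hc : Nat.Coprime (∏ p' ∈ D, mr q p') p := by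
    refine Nat.Coprime.prod_left (fun p' hp' => ?_)
    have h1 := Finset.mem_erase.mp (hD hp')
    obtain ⟨k, hk, -⟩ := mr_pow h1.2
    rw [hk]
    exact Nat.Coprime.pow_left k
      ((Nat.coprime_primes (Nat.prime_of_mem_primeFactors h1.2) hpp).mpr h1.1)
  exact jacobiSym.eq_one_or_neg_one (by rw [Int.gcd_natCast_natCast]; exact hc)

/-- All `x ∈ V` of sign `e` have the same symbol. -/
private theorem DB_det {q a N : ℕ} {S K V : Finset ℕ} {z b₀ p : ℕ} (h : Ctx q a N S) (hz : z ∈ S) (hK : K ⊆ S)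
    (hV : V ⊆ S) (hb : ∀ x ∈ V, ∀ k ∈ K, x ≠ k ∧ bb q z x k = b₀) (hp : p ∈ q.primeFactors) (hp2 : p ≠ 2)
    (e : ℤ) (he : e = 1 ∨ e = -1) (h1 : ∃ k ∈ K, sg q z p k = (e : ℝ)) {x : ℕ} (hx : x ∈ V)
    {y : ℕ} (hy : y ∈ V) (hsx : sg q z p x = (e : ℝ)) (hsy : sg q z p y = (e : ℝ)) :
    tt q z p x = tt q z p y := by
  obtain ⟨k, hk, hke⟩ := h1
  have ex := leg_same h (hV hx) (hK hk) hz (hb x hx k hk).1 hp hp2 (hsx.trans hke.symm) (e := e) hsx.symm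
  have ey := leg_same h (hV hy) (hK hk) hz (hb y hy k hk).1 hp hp2 (hsy.trans hke.symm) (e := e) hsy.symm
  rw [(hb x hx k hk).2] at ex
  rw [(hb y hy k hk).2, ex] at ey
  rcases z_pm h hz hp hp2 he with hz1 | hz1 <;> rcases tt_pm hp z k with hk1 | hk1 <;>
    rw [hz1, hk1] at ey <;> linarith

theorem t_determined {q a N : ℕ} {S K V : Finset ℕ} {z b₀ p : ℕ} (h : Ctx q a N S) (hz : z ∈ S) (hK : K ⊆ S)
    (hV : V ⊆ S) (hb : ∀ x ∈ V, ∀ k ∈ K, x ≠ k ∧ bb q z x k = b₀) (hp : p ∈ q.primeFactors) (hp2 : p ≠ 2)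
    (h1 : ∃ k ∈ K, sg q z p k = 1) (h2 : ∃ k ∈ K, sg q z p k = -1) :
    ∃ τ₁ τ₂ : ℤ, (τ₁ = 1 ∨ τ₁ = -1) ∧ (τ₂ = 1 ∨ τ₂ = -1) ∧
      ∀ x ∈ V, (sg q z p x = 1 → tt q z p x = τ₁) ∧ (sg q z p x = -1 → tt q z p x = τ₂) := by
  have key : ∀ e : ℤ, (e = 1 ∨ e = -1) → (∃ k ∈ K, sg q z p k = (e : ℝ)) →
      ∃ τ : ℤ, (τ = 1 ∨ τ = -1) ∧ ∀ x ∈ V, sg q z p x = (e : ℝ) → tt q z p x = τ := by
    intro e he hk
    by_cases hx0 : ∃ x ∈ V, sg q z p x = (e : ℝ)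
    · obtain ⟨x0, hx0, hs0⟩ := hx0
      exact ⟨tt q z p x0, tt_pm hp z x0, fun x hx hs => DB_det h hz hK hV hb hp hp2 e he hk hx hx0 hs hs0⟩
    · exact ⟨1, Or.inl rfl, fun x hx hs => absurd ⟨x, hx, hs⟩ hx0⟩
  obtain ⟨τ₁, ht1, hτ1⟩ := key 1 (Or.inl rfl) (by simpa using h1)
  obtain ⟨τ₂, ht2, hτ2⟩ := key (-1) (Or.inr rfl) (by simpa using h2)
  refine ⟨τ₁, τ₂, ht1, ht2, fun x hx => ⟨fun hs => hτ1 x hx (by simpa using hs), fun hs => hτ2 x hx (by simpa using hs)⟩⟩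

private theorem DB_neg {z p : ℕ} :
    jacobiSym (2 * (-1 : ℤ) * z) p = jacobiSym (-1) p * jacobiSym (2 * (1 : ℤ) * z) p := by
  rw [← jacobiSym.mul_left]
  norm_num

private theorem DB_odd {p m : ℕ} (hp4 : p % 4 = m) (hm : m = 1 ∨ m = 3) : Odd p := by
  rw [Nat.odd_iff]
  rcases hm with h | h <;> omega

theorem val_one {q a N : ℕ} {S K V : Finset ℕ} {z b₀ p : ℕ} (h : Ctx q a N S) (hz : z ∈ S) (hK : K ⊆ S)
    (hV : V ⊆ S) (hb : ∀ x ∈ V, ∀ k ∈ K, x ≠ k ∧ bb q z x k = b₀) (hp : p ∈ q.primeFactors)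
    (hp4 : p % 4 = 1) (h1 : ∃ k ∈ K, sg q z p k = 1) (h2 : ∃ k ∈ K, sg q z p k = -1) :
    ∃ κ ω : ℤ, (κ = 1 ∨ κ = -1) ∧ (ω = 1 ∨ ω = -1) ∧ ∀ x ∈ V, ∀ y ∈ V, x ≠ y →
      (sg q z p x = sg q z p y → jacobiSym (bb q z x y) p = κ) ∧
      (sg q z p x ≠ sg q z p y → jacobiSym (aa q z x y) p = ω) := by
  have hp2 : p ≠ 2 := by rintro rfl; omega
  obtain ⟨τ₁, τ₂, ht1, ht2, hτ⟩ := t_determined h hz hK hV hb hp hp2 h1 h2
  have hneg : jacobiSym (-1) p = 1 := by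
    rw [jacobiSym.at_neg_one (DB_odd hp4 (Or.inl rfl))]
    exact ZMod.χ₄_nat_one_mod_four hp4
  have hκe : ∀ e : ℤ, (e = 1 ∨ e = -1) → jacobiSym (2 * e * z) p = jacobiSym (2 * (1 : ℤ) * z) p := by
    intro e he
    rcases he with rfl | rfl
    · rfl
    · rw [DB_neg, hneg, one_mul]
  have hκ := z_pm h hz hp hp2 (e := 1) (Or.inl rfl)
  have hP := DB_prod_pm hp (q.primeFactors.erase p) (Finset.Subset.refl _)
  set κ := jacobiSym (2 * (1 : ℤ) * z) p with hκdef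
  set ρ := jacobiSym ((∏ p' ∈ q.primeFactors.erase p, mr q p' : ℕ) : ℤ) p with hρdef
  -- the sign as an integer
  have hsgn : ∀ x ∈ V, ∃ e : ℤ, (e = 1 ∨ e = -1) ∧ (e : ℝ) = sg q z p x := by
    intro x hx
    rcases sg_eq_or q z p x with hs | hs
    · exact ⟨1, Or.inl rfl, by rw [hs]; norm_num⟩
    · exact ⟨-1, Or.inr rfl, by rw [hs]; norm_num⟩
  have hdiff : ∀ x ∈ V, ∀ y ∈ V, y < x → sg q z p x ≠ sg q z p y →
      jacobiSym (aa q z x y) p = κ * ρ * (τ₁ * τ₂) := by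
    intro x hx y hy hlt hs
    obtain ⟨e, he, hes⟩ := hsgn x hx
    rw [leg_diff h (hV hx) (hV hy) hz hlt hp hp2 hs hes, hκe e he]
    rcases sg_eq_or q z p x with hsx | hsx <;> rcases sg_eq_or q z p y with hsy | hsy
    · exact absurd (hsx.trans hsy.symm) hs
    · rw [(hτ x hx).1 hsx, (hτ y hy).2 hsy]
    · rw [(hτ x hx).2 hsx, (hτ y hy).1 hsy, mul_comm τ₂ τ₁]
    · exact absurd (hsx.trans hsy.symm) hs
  refine ⟨κ, κ * ρ * (τ₁ * τ₂), hκ, ?_, fun x hx y hy hxy => ⟨fun hs => ?_, fun hs => ?_⟩⟩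
  · rcases hκ with h3 | h3 <;> rcases hP with h4 | h4 <;> rcases ht1 with h5 | h5 <;> rcases ht2 with h6 | h6 <;>
      rw [h3, h4, h5, h6] <;> norm_num
  · obtain ⟨e, he, hes⟩ := hsgn x hx
    rw [leg_same h (hV hx) (hV hy) hz hxy hp hp2 hs hes, hκe e he]
    rcases sg_eq_or q z p x with hsx | hsx
    · rw [(hτ x hx).1 hsx, (hτ y hy).1 (hs ▸ hsx)]
      rcases ht1 with h5 | h5 <;> rw [h5] <;> ring
    · rw [(hτ x hx).2 hsx, (hτ y hy).2 (hs ▸ hsx)]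
      rcases ht2 with h5 | h5 <;> rw [h5] <;> ring
  · rcases lt_or_gt_of_ne hxy with hlt | hgt
    · rw [aa_comm]
      exact hdiff y hy x hx hlt (Ne.symm hs)
    · exact hdiff x hx y hy hgt hs

theorem val_three {q a N : ℕ} {S K V : Finset ℕ} {z b₀ p : ℕ} (h : Ctx q a N S) (hz : z ∈ S) (hK : K ⊆ S)
    (hV : V ⊆ S) (hb : ∀ x ∈ V, ∀ k ∈ K, x ≠ k ∧ bb q z x k = b₀) (hp : p ∈ q.primeFactors)
    (hp4 : p % 4 = 3) (h1 : ∃ k ∈ K, sg q z p k = 1) (h2 : ∃ k ∈ K, sg q z p k = -1) :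
    ∃ κ : ℤ, (κ = 1 ∨ κ = -1) ∧ ∀ x ∈ V, ∀ y ∈ V, x ≠ y → sg q z p x = sg q z p y →
      ∀ e : ℤ, (e : ℝ) = sg q z p x → jacobiSym (bb q z x y) p = κ * e := by
  have hp2 : p ≠ 2 := by rintro rfl; omega
  obtain ⟨τ₁, τ₂, ht1, ht2, hτ⟩ := t_determined h hz hK hV hb hp hp2 h1 h2
  have hneg : jacobiSym (-1) p = -1 := by
    rw [jacobiSym.at_neg_one (DB_odd hp4 (Or.inr rfl))]
    exact ZMod.χ₄_nat_three_mod_four hp4
  refine ⟨jacobiSym (2 * (1 : ℤ) * z) p, z_pm h hz hp hp2 (Or.inl rfl), fun x hx y hy hxy hs e he => ?_⟩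
  rw [leg_same h (hV hx) (hV hy) hz hxy hp hp2 hs he]
  rcases sg_eq_or q z p x with hsx | hsx
  · have he1 : e = 1 := by
      rw [hsx] at he
      exact_mod_cast he
    rw [(hτ x hx).1 hsx, (hτ y hy).1 (hs ▸ hsx), he1]
    rcases ht1 with h5 | h5 <;> rw [h5] <;> ring
  · have he1 : e = -1 := by
      rw [hsx] at he
      exact_mod_cast he
    rw [(hτ x hx).2 hsx, (hτ y hy).2 (hs ▸ hsx), he1, DB_neg, hneg]
    rcases ht2 with h5 | h5 <;> rw [h5] <;> ring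

end Pool.Agent.Lib.MP_2c6f70_nt.RU
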