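import Pool.Agent.Lib.MP_2c6f70_nt.RU.LA

/-!
# JOB DC: Bessel inequalities

`W = log q`.  `wp q p ≥ 0` for `p ∣ q` (`mr ≥ 1`), `∑_p wp q p ≤ W` (`∏ mr ≤ q`, `prod_mr`).  `Corr q z S c`: correlations of two or four different elements are at most `c W`.  Signs are `± 1` (`sg_eq_or`).

`bad_weight`.  `∑_p wp (∑_{k ∈ K} sg k)^2 = ∑_{k, k'} ∑_p wp sg k sg k' ≤ R W + R^2 c W` (`k = k'`: `≤ W`; `k ≠ k'`: `J = {k, k'}`).  If all signs of `K` at `p` are equal the square is `R^2`.

`disagree`.  `F = ∑_{p ∈ D} wp`.  `s F #M = ∑_{p ∈ D} wp ∑_{t ∈ M} sg t.1 sg t.2`, so by Cauchy-Schwarz `(F #M)^2 ≤ F ∑_{p ∣ q} wp (∑_{t ∈ M} sg t.1 sg t.2)^2`, and the last sum is `∑_{t, t'} ∑_p wp sg t.1 sg t.2 sg t'.1 sg t'.2 ≤ #M W + #M^2 c W`: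
for `t ≠ t'` (both with `t.1 < t.2`) the product of the four signs is the product over the symmetric difference of `{t.1, t.2}` and `{t'.1, t'.2}`, which has two or four elements.

`weight3`.  For `t ∈ M` and `p ∈ G`: `(sg t.1 + sg t.2)/2 = e p (1 + sg t.1 sg t.2)/2` (both sides are `0` if the signs differ).  Multiply by `wp e p`, sum over `p ∈ G` and average over `t ∈ M`, `m = #M`:
`∑_{p∈G} wp (1 + (1/m) ∑_t sg t.1 sg t.2)/2 = ∑_{p ∈ G} wp e p (1/m) ∑_t (sg t.1 + sg t.2)/2`.  Cauchy-Schwarz: right side `≤ sqrt W sqrt (∑_{p ∣ q} wp ((1/2m) ∑_t (sg t.1 + sg t.2))^2) ≤ sqrt W sqrt (W/(2m) + c W)`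
(`2 m` different vertices); left side `≥ F/2 - (1/2) sqrt W sqrt (W/m + c W)`.  So `F ≤ 2 W sqrt (1/(2m) + c) + W sqrt(1/m + c) ≤ 3 W sqrt (1/m + c)`.

`weight_two`.  Apply `disagree` with `D = {p}` to `m` of the pairs `{x₀, y}`, `y ∈ V \ {x₀}` (`x₀ = min V`, so `x₀ < y`) for which `sg x₀ sg y` has a common value `s`: one of the two values occurs at least `(#V - 1)/2 ≥ m` times.
-/

set_option autoImplicit false

namespace Pool.Agent.Lib.MP_2c6f70_nt.RU

open Pool.Agent.Lib.MP_2c6f70_nt Pool.Agent.Lib.MP_2c6f70_nt.KW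

/-- Correlations of two and four sign vectors are at most `c log q`. -/
def Corr (q z : ℕ) (S : Finset ℕ) (c : ℝ) : Prop :=
  ∀ J ⊆ S, J.card = 2 ∨ J.card = 4 →
    |∑ p ∈ q.primeFactors, wp q p * ∏ x ∈ J, sg q z p x| ≤ c * Real.log q

theorem wp_nonneg {q p : ℕ} (hp : p ∈ q.primeFactors) : 0 ≤ wp q p := by
  unfold wp
  exact Real.log_nonneg (by exact_mod_cast mr_pos hp)

theorem sum_wp {q : ℕ} (hq : q ≠ 0) :
    ∑ p ∈ q.primeFactors, wp q p ≤ Real.log q ∧ Real.log q - Real.log 8 ≤ ∑ p ∈ q.primeFactors, wp q p := by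
  have hsum : ∑ p ∈ q.primeFactors, wp q p =
      Real.log ((∏ p ∈ q.primeFactors, mr q p : ℕ) : ℝ) := by
    unfold wp
    rw [Nat.cast_prod, Real.log_prod]
    intro p hp
    have := mr_pos hp
    positivity
  obtain ⟨h1, h2⟩ := prod_mr hq
  have hc1 : 1 ≤ cq q := Nat.pos_of_dvd_of_pos h2 (by norm_num)
  have hc8 : cq q ≤ 8 := Nat.le_of_dvd (by norm_num) h2
  have hpos : 1 ≤ ∏ p ∈ q.primeFactors, mr q p := Finset.one_le_prod'
    (fun p hp => mr_pos hp)
  have hposR : (0 : ℝ) < ((∏ p ∈ q.primeFactors, mr q p : ℕ) : ℝ) := by exact_mod_cast hpos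
  have hle : ∏ p ∈ q.primeFactors, mr q p ≤ q := by
    calc ∏ p ∈ q.primeFactors, mr q p = 1 * ∏ p ∈ q.primeFactors, mr q p := (one_mul _).symm
      _ ≤ cq q * ∏ p ∈ q.primeFactors, mr q p := Nat.mul_le_mul_right _ hc1
      _ = q := h1
  have hge : q ≤ 8 * ∏ p ∈ q.primeFactors, mr q p := by
    calc q = cq q * ∏ p ∈ q.primeFactors, mr q p := h1.symm
      _ ≤ 8 * ∏ p ∈ q.primeFactors, mr q p := Nat.mul_le_mul_right _ hc8
  rw [hsum]
  constructor
  · exact Real.log_le_log hposR (by exact_mod_cast hle)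
  · have h3 : Real.log q ≤ Real.log 8 +
        Real.log ((∏ p ∈ q.primeFactors, mr q p : ℕ) : ℝ) := by
      rw [← Real.log_mul (by norm_num) hposR.ne']
      refine Real.log_le_log (by exact_mod_cast Nat.pos_of_ne_zero hq) ?_
      exact_mod_cast hge
    linarith

/-- Bessel inequality, general form. -/
private theorem DC_bessel {ι : Type*} (T : Finset ι) (P : Finset ℕ) (w : ℕ → ℝ) (f : ι → ℕ → ℝ)
    (W C : ℝ) (h1 : ∀ t ∈ T, ∑ p ∈ P, w p * (f t p * f t p) ≤ W + C)
    (h2 : ∀ t ∈ T, ∀ t' ∈ T, t ≠ t' → ∑ p ∈ P, w p * (f t p * f t' p) ≤ C) :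
    ∑ p ∈ P, w p * (∑ t ∈ T, f t p) ^ 2 ≤ T.card * W + (T.card : ℝ) ^ 2 * C := by
  classical
  have e1 : ∑ p ∈ P, w p * (∑ t ∈ T, f t p) ^ 2 =
      ∑ t ∈ T, ∑ t' ∈ T, ∑ p ∈ P, w p * (f t p * f t' p) := by
    have e2 : ∀ p ∈ P, w p * (∑ t ∈ T, f t p) ^ 2 =
        ∑ t ∈ T, ∑ t' ∈ T, w p * (f t p * f t' p) := by
      intro p _
      rw [pow_two, Finset.sum_mul_sum, Finset.mul_sum]
      exact Finset.sum_congr rfl fun t _ => Finset.mul_sum _ _ _
    rw [Finset.sum_congr rfl e2, Finset.sum_comm]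
    refine Finset.sum_congr rfl fun t _ => ?_
    rw [Finset.sum_comm]
  have e3 : ∀ t ∈ T, ∑ t' ∈ T, ∑ p ∈ P, w p * (f t p * f t' p) ≤ W + T.card * C := by
    intro t ht
    have e4 : ∀ t' ∈ T, ∑ p ∈ P, w p * (f t p * f t' p) ≤ (if t = t' then W else 0) + C := by
      intro t' ht'
      by_cases h : t = t'
      · rw [if_pos h, ← h]
        exact h1 t ht
      · rw [if_neg h, zero_add]
        exact h2 t ht t' ht' h
    refine (Finset.sum_le_sum e4).trans ?_
    rw [Finset.sum_add_distrib, Finset.sum_ite_eq, if_pos ht, Finset.sum_const, nsmul_eq_mul]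
  rw [e1]
  refine (Finset.sum_le_sum e3).trans ?_
  rw [Finset.sum_const, nsmul_eq_mul]
  exact le_of_eq (by ring)

private theorem DC_W {q : ℕ} (hq : 2 ≤ q) : 0 ≤ Real.log q :=
  Real.log_nonneg (by exact_mod_cast (by omega : 1 ≤ q))

private theorem DC_two {q z : ℕ} {S : Finset ℕ} {c : ℝ} (hC : Corr q z S c) {x y : ℕ}
    (hx : x ∈ S) (hy : y ∈ S) (hxy : x ≠ y) :
    |∑ p ∈ q.primeFactors, wp q p * (sg q z p x * sg q z p y)| ≤ c * Real.log q := by
  classical
  have h := hC {x, y} (by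
    intro u hu
    rw [Finset.mem_insert, Finset.mem_singleton] at hu
    rcases hu with rfl | rfl
    · exact hx
    · exact hy) (Or.inl (Finset.card_pair hxy))
  have e : ∀ p ∈ q.primeFactors, wp q p * ∏ u ∈ ({x, y} : Finset ℕ), sg q z p u =
      wp q p * (sg q z p x * sg q z p y) := fun p _ => by rw [Finset.prod_pair hxy]
  rw [Finset.sum_congr rfl e] at h
  exact h

private theorem DC_quad {q z : ℕ} {S : Finset ℕ} {c : ℝ} (hC : Corr q z S c) {x y u v : ℕ}
    (hx : x ∈ S) (hy : y ∈ S) (hu : u ∈ S) (hv : v ∈ S) (h1 : x ≠ y) (h2 : x ≠ u) (h3 : x ≠ v)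
    (h4 : y ≠ u) (h5 : y ≠ v) (h6 : u ≠ v) :
    |∑ p ∈ q.primeFactors, wp q p * ((sg q z p x * sg q z p y) * (sg q z p u * sg q z p v))| ≤
      c * Real.log q := by
  classical
  have n1 : x ∉ ({y, u, v} : Finset ℕ) := by
    rw [Finset.mem_insert, Finset.mem_insert, Finset.mem_singleton]
    rintro (h | h | h)
    · exact h1 h
    · exact h2 h
    · exact h3 h
  have n2 : y ∉ ({u, v} : Finset ℕ) := by
    rw [Finset.mem_insert, Finset.mem_singleton]
    rintro (h | h)
    · exact h4 h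
    · exact h5 h
  have h := hC {x, y, u, v} (by
    intro t ht
    rw [Finset.mem_insert, Finset.mem_insert, Finset.mem_insert, Finset.mem_singleton] at ht
    rcases ht with rfl | rfl | rfl | rfl
    · exact hx
    · exact hy
    · exact hu
    · exact hv) (Or.inr (by
      rw [Finset.card_insert_of_notMem n1, Finset.card_insert_of_notMem n2,
        Finset.card_pair h6]))
  have e : ∀ p ∈ q.primeFactors, wp q p * ∏ t ∈ ({x, y, u, v} : Finset ℕ), sg q z p t =
      wp q p * ((sg q z p x * sg q z p y) * (sg q z p u * sg q z p v)) := fun p _ => by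
    rw [Finset.prod_insert n1, Finset.prod_insert n2, Finset.prod_pair h6, mul_assoc]
  rw [Finset.sum_congr rfl e] at h
  exact h

private theorem DC_sq (q z p x : ℕ) : sg q z p x * sg q z p x = 1 := by
  rcases sg_eq_or q z p x with h | h <;> rw [h] <;> norm_num

open Classical in
theorem bad_weight {q z : ℕ} {S K : Finset ℕ} {c : ℝ} (hq : 2 ≤ q) (hc : 0 ≤ c) (hC : Corr q z S c) (hK : K ⊆ S)
    (hK1 : 1 ≤ K.card) :
    ∑ p ∈ q.primeFactors.filter (fun p => ¬ ((∃ k ∈ K, sg q z p k = 1) ∧ ∃ k ∈ K, sg q z p k = -1)), wp q p ≤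
      (1 / K.card + c) * Real.log q := by
  have hW := DC_W hq
  have hcW : 0 ≤ c * Real.log q := mul_nonneg hc hW
  have hR : (0 : ℝ) < K.card := by exact_mod_cast hK1
  have hb := DC_bessel K q.primeFactors (wp q) (fun k p => sg q z p k) (Real.log q)
    (c * Real.log q) (by
      intro t _
      have e : ∀ p ∈ q.primeFactors, wp q p * (sg q z p t * sg q z p t) = wp q p := fun p _ => by
        rw [DC_sq, mul_one]
      rw [Finset.sum_congr rfl e]
      linarith [(sum_wp (q := q) (by omega)).1]) (by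
      intro t ht t' ht' hne
      exact (abs_le.1 (DC_two hC (hK ht) (hK ht') hne)).2)
  have hl : ∑ p ∈ q.primeFactors.filter
      (fun p => ¬ ((∃ k ∈ K, sg q z p k = 1) ∧ ∃ k ∈ K, sg q z p k = -1)),
      wp q p * (K.card : ℝ) ^ 2 ≤
      ∑ p ∈ q.primeFactors, wp q p * (∑ t ∈ K, sg q z p t) ^ 2 := by
    have e : ∀ p ∈ q.primeFactors.filter
        (fun p => ¬ ((∃ k ∈ K, sg q z p k = 1) ∧ ∃ k ∈ K, sg q z p k = -1)),
        wp q p * (K.card : ℝ) ^ 2 = wp q p * (∑ t ∈ K, sg q z p t) ^ 2 := by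
      intro p hp
      have hp2 := (Finset.mem_filter.1 hp).2
      by_cases h1 : ∃ k ∈ K, sg q z p k = 1
      · have h2 : ∀ k ∈ K, sg q z p k = 1 := fun k hk => by
          rcases sg_eq_or q z p k with h | h
          · exact h
          · exact absurd ⟨h1, ⟨k, hk, h⟩⟩ hp2
        rw [Finset.sum_congr rfl h2, Finset.sum_const, nsmul_eq_mul, mul_one]
      · have h2 : ∀ k ∈ K, sg q z p k = -1 := fun k hk => by
          rcases sg_eq_or q z p k with h | h
          · exact absurd ⟨k, hk, h⟩ h1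
          · exact h
        rw [Finset.sum_congr rfl h2, Finset.sum_const, nsmul_eq_mul]
        ring
    rw [Finset.sum_congr rfl e]
    exact Finset.sum_le_sum_of_subset_of_nonneg (Finset.filter_subset _ _)
      (fun p hp _ => mul_nonneg (wp_nonneg hp) (sq_nonneg _))
  rw [← Finset.sum_mul] at hl
  have h3 := hl.trans hb
  have h4 : (K.card : ℝ) * Real.log q + (K.card : ℝ) ^ 2 * (c * Real.log q) =
      ((1 / K.card + c) * Real.log q) * (K.card : ℝ) ^ 2 := by
    field_simp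
  rw [h4] at h3
  exact le_of_mul_le_mul_right h3 (by positivity)

private theorem DC_pair {q z : ℕ} {S : Finset ℕ} {c : ℝ} (hC : Corr q z S c) {a b u v : ℕ}
    (ha : a ∈ S) (hb : b ∈ S) (hu : u ∈ S) (hv : v ∈ S) (hab : a < b) (huv : u < v)
    (hne : ¬ (a = u ∧ b = v)) :
    |∑ p ∈ q.primeFactors, wp q p * ((sg q z p a * sg q z p b) * (sg q z p u * sg q z p v))| ≤
      c * Real.log q := by
  by_cases h1 : a = u
  · have h2 : b ≠ v := fun h => hne ⟨h1, h⟩
    have e : ∀ p ∈ q.primeFactors, wp q p * ((sg q z p a * sg q z p b) *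
        (sg q z p u * sg q z p v)) = wp q p * (sg q z p b * sg q z p v) := fun p _ => by
      rw [← h1]
      have := DC_sq q z p a
      calc wp q p * ((sg q z p a * sg q z p b) * (sg q z p a * sg q z p v))
          = wp q p * ((sg q z p a * sg q z p a) * (sg q z p b * sg q z p v)) := by ring
        _ = wp q p * (sg q z p b * sg q z p v) := by rw [this, one_mul]
    rw [Finset.sum_congr rfl e]
    exact DC_two hC hb hv h2
  by_cases h2 : b = v
  · have e : ∀ p ∈ q.primeFactors, wp q p * ((sg q z p a * sg q z p b) *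
        (sg q z p u * sg q z p v)) = wp q p * (sg q z p a * sg q z p u) := fun p _ => by
      rw [← h2]
      have := DC_sq q z p b
      calc wp q p * ((sg q z p a * sg q z p b) * (sg q z p u * sg q z p b))
          = wp q p * ((sg q z p b * sg q z p b) * (sg q z p a * sg q z p u)) := by ring
        _ = wp q p * (sg q z p a * sg q z p u) := by rw [this, one_mul]
    rw [Finset.sum_congr rfl e]
    exact DC_two hC ha hu h1
  by_cases h3 : a = v
  · have h4 : b ≠ u := by omega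
    have e : ∀ p ∈ q.primeFactors, wp q p * ((sg q z p a * sg q z p b) *
        (sg q z p u * sg q z p v)) = wp q p * (sg q z p b * sg q z p u) := fun p _ => by
      rw [← h3]
      have := DC_sq q z p a
      calc wp q p * ((sg q z p a * sg q z p b) * (sg q z p u * sg q z p a))
          = wp q p * ((sg q z p a * sg q z p a) * (sg q z p b * sg q z p u)) := by ring
        _ = wp q p * (sg q z p b * sg q z p u) := by rw [this, one_mul]
    rw [Finset.sum_congr rfl e]
    exact DC_two hC hb hu h4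
  by_cases h4 : b = u
  · have e : ∀ p ∈ q.primeFactors, wp q p * ((sg q z p a * sg q z p b) *
        (sg q z p u * sg q z p v)) = wp q p * (sg q z p a * sg q z p v) := fun p _ => by
      rw [← h4]
      have := DC_sq q z p b
      calc wp q p * ((sg q z p a * sg q z p b) * (sg q z p b * sg q z p v))
          = wp q p * ((sg q z p b * sg q z p b) * (sg q z p a * sg q z p v)) := by ring
        _ = wp q p * (sg q z p a * sg q z p v) := by rw [this, one_mul]
    rw [Finset.sum_congr rfl e]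
    exact DC_two hC ha hv h3
  exact DC_quad hC ha hb hu hv hab.ne h1 h3 h4 h2 huv.ne

theorem disagree {q z : ℕ} {S D : Finset ℕ} {M : Finset (ℕ × ℕ)} {c s : ℝ} (hq : 2 ≤ q) (hc : 0 ≤ c)
    (hC : Corr q z S c) (hM : ∀ t ∈ M, t.1 ∈ S ∧ t.2 ∈ S ∧ t.1 < t.2) (hM1 : 1 ≤ M.card) (hs : s = 1 ∨ s = -1)
    (hD : D ⊆ q.primeFactors) (h : ∀ t ∈ M, ∀ p ∈ D, sg q z p t.1 * sg q z p t.2 = s) :
    ∑ p ∈ D, wp q p ≤ (1 / M.card + c) * Real.log q := by
  classical
  have hW := DC_W hq
  have hcW : 0 ≤ c * Real.log q := mul_nonneg hc hW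
  have hR : (0 : ℝ) < M.card := by exact_mod_cast hM1
  have hs2 : s ^ 2 = 1 := by rcases hs with rfl | rfl <;> norm_num
  have hb := DC_bessel M q.primeFactors (wp q) (fun t p => sg q z p t.1 * sg q z p t.2)
    (Real.log q) (c * Real.log q) (by
      intro t _
      have e : ∀ p ∈ q.primeFactors, wp q p * ((sg q z p t.1 * sg q z p t.2) *
          (sg q z p t.1 * sg q z p t.2)) = wp q p := fun p _ => by
        have e1 := DC_sq q z p t.1
        have e2 := DC_sq q z p t.2
        calc wp q p * ((sg q z p t.1 * sg q z p t.2) * (sg q z p t.1 * sg q z p t.2))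
            = wp q p * ((sg q z p t.1 * sg q z p t.1) * (sg q z p t.2 * sg q z p t.2)) := by ring
          _ = wp q p := by rw [e1, e2, one_mul, mul_one]
      rw [Finset.sum_congr rfl e]
      linarith [(sum_wp (q := q) (by omega)).1]) (by
      intro t ht t' ht' hne
      obtain ⟨a1, a2, a3⟩ := hM t ht
      obtain ⟨b1, b2, b3⟩ := hM t' ht'
      exact (abs_le.1 (DC_pair hC a1 a2 b1 b2 a3 b3
        (fun hh => hne (Prod.ext hh.1 hh.2)))).2)
  have hl : ∑ p ∈ D, wp q p * (M.card : ℝ) ^ 2 ≤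
      ∑ p ∈ q.primeFactors, wp q p * (∑ t ∈ M, sg q z p t.1 * sg q z p t.2) ^ 2 := by
    have e : ∀ p ∈ D, wp q p * (M.card : ℝ) ^ 2 =
        wp q p * (∑ t ∈ M, sg q z p t.1 * sg q z p t.2) ^ 2 := by
      intro p hp
      rw [Finset.sum_congr rfl (fun t ht => h t ht p hp), Finset.sum_const, nsmul_eq_mul, mul_pow,
        hs2, mul_one]
    rw [Finset.sum_congr rfl e]
    exact Finset.sum_le_sum_of_subset_of_nonneg hD
      (fun p hp _ => mul_nonneg (wp_nonneg hp) (sq_nonneg _))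
  rw [← Finset.sum_mul] at hl
  have h3 := hl.trans hb
  have h4 : (M.card : ℝ) * Real.log q + (M.card : ℝ) ^ 2 * (c * Real.log q) =
      ((1 / M.card + c) * Real.log q) * (M.card : ℝ) ^ 2 := by
    field_simp
  rw [h4] at h3
  exact le_of_mul_le_mul_right h3 (by positivity)

private theorem DC_cs {P G : Finset ℕ} {w g : ℕ → ℝ} {W B : ℝ} (hG : G ⊆ P)
    (hw : ∀ p ∈ P, 0 ≤ w p) (hW : ∑ p ∈ P, w p ≤ W) (hB : ∑ p ∈ P, w p * g p ^ 2 ≤ B) :
    |∑ p ∈ G, w p * g p| ≤ Real.sqrt (W * B) := by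
  refine Real.abs_le_sqrt ?_
  have h1 : (∑ p ∈ G, w p * g p) ^ 2 ≤ (∑ p ∈ G, w p) * ∑ p ∈ G, w p * g p ^ 2 :=
    Finset.sum_sq_le_sum_mul_sum_of_sq_le_mul G (fun p hp => hw p (hG hp))
      (fun p hp => mul_nonneg (hw p (hG hp)) (sq_nonneg _)) (fun p _ => le_of_eq (by ring))
  have h2 : ∑ p ∈ G, w p ≤ W :=
    (Finset.sum_le_sum_of_subset_of_nonneg hG (fun p hp _ => hw p hp)).trans hW
  have h3 : ∑ p ∈ G, w p * g p ^ 2 ≤ B :=
    (Finset.sum_le_sum_of_subset_of_nonneg hG
      (fun p hp _ => mul_nonneg (hw p hp) (sq_nonneg _))).trans hB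
  have h4 : 0 ≤ ∑ p ∈ G, w p * g p ^ 2 :=
    Finset.sum_nonneg fun p hp => mul_nonneg (hw p (hG hp)) (sq_nonneg _)
  have h5 : 0 ≤ W := (Finset.sum_nonneg fun p hp => hw p (hG hp)).trans h2
  exact h1.trans (mul_le_mul h2 h3 h4 h5)

theorem weight3 {q z : ℕ} {S G : Finset ℕ} {M : Finset (ℕ × ℕ)} {c : ℝ} {e : ℕ → ℝ} (hq : 2 ≤ q) (hc : 0 ≤ c)
    (hC : Corr q z S c) (hM : ∀ t ∈ M, t.1 ∈ S ∧ t.2 ∈ S ∧ t.1 ≠ t.2) (hM1 : 1 ≤ M.card)
    (hdis : ∀ s ∈ M, ∀ t ∈ M, s ≠ t → s.1 ≠ t.1 ∧ s.1 ≠ t.2 ∧ s.2 ≠ t.1 ∧ s.2 ≠ t.2)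
    (hG : G ⊆ q.primeFactors) (he : ∀ p ∈ G, e p = 1 ∨ e p = -1)
    (h : ∀ t ∈ M, ∀ p ∈ G, sg q z p t.1 = sg q z p t.2 → sg q z p t.1 = e p) :
    ∑ p ∈ G, wp q p ≤ 3 * Real.sqrt (1 / M.card + c) * Real.log q := by
  classical
  have hW := DC_W hq
  have hcW : 0 ≤ c * Real.log q := mul_nonneg hc hW
  have hR : (0 : ℝ) < M.card := by exact_mod_cast hM1
  obtain ⟨m, hm⟩ : ∃ m : ℝ, m = M.card := ⟨_, rfl⟩
  obtain ⟨W, hWd⟩ : ∃ W : ℝ, W = Real.log q := ⟨_, rfl⟩
  have hsw := (sum_wp (q := q) (by omega)).1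
  -- products
  have hb1 := DC_bessel M q.primeFactors (wp q) (fun t p => sg q z p t.1 * sg q z p t.2)
    (Real.log q) (c * Real.log q) (by
      intro t _
      have e : ∀ p ∈ q.primeFactors, wp q p * ((sg q z p t.1 * sg q z p t.2) *
          (sg q z p t.1 * sg q z p t.2)) = wp q p := fun p _ => by
        have e1 := DC_sq q z p t.1
        have e2 := DC_sq q z p t.2
        calc wp q p * ((sg q z p t.1 * sg q z p t.2) * (sg q z p t.1 * sg q z p t.2))
            = wp q p * ((sg q z p t.1 * sg q z p t.1) * (sg q z p t.2 * sg q z p t.2)) := by ring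
          _ = wp q p := by rw [e1, e2, one_mul, mul_one]
      rw [Finset.sum_congr rfl e]
      linarith) (by
      intro t ht t' ht' hne
      obtain ⟨a1, a2, a3⟩ := hM t ht
      obtain ⟨b1, b2, b3⟩ := hM t' ht'
      obtain ⟨d1, d2, d3, d4⟩ := hdis t ht t' ht' hne
      exact (abs_le.1 (DC_quad hC a1 a2 b1 b2 a3 d1 d2 d3 d4 b3)).2)
  -- sums
  have hb2 := DC_bessel M q.primeFactors (wp q) (fun t p => sg q z p t.1 + sg q z p t.2)
    (2 * Real.log q) (4 * (c * Real.log q)) (by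
      intro t ht
      obtain ⟨a1, a2, a3⟩ := hM t ht
      have e : ∀ p ∈ q.primeFactors, wp q p * ((sg q z p t.1 + sg q z p t.2) *
          (sg q z p t.1 + sg q z p t.2)) =
          2 * wp q p + 2 * (wp q p * (sg q z p t.1 * sg q z p t.2)) := fun p _ => by
        have e1 := DC_sq q z p t.1
        have e2 := DC_sq q z p t.2
        calc wp q p * ((sg q z p t.1 + sg q z p t.2) * (sg q z p t.1 + sg q z p t.2))
            = wp q p * (sg q z p t.1 * sg q z p t.1 + sg q z p t.2 * sg q z p t.2) +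
              2 * (wp q p * (sg q z p t.1 * sg q z p t.2)) := by ring
          _ = _ := by rw [e1, e2]; ring
      rw [Finset.sum_congr rfl e, Finset.sum_add_distrib, ← Finset.mul_sum, ← Finset.mul_sum]
      have e3 := (abs_le.1 (DC_two hC a1 a2 a3)).2
      linarith) (by
      intro t ht t' ht' hne
      obtain ⟨a1, a2, a3⟩ := hM t ht
      obtain ⟨b1, b2, b3⟩ := hM t' ht'
      obtain ⟨d1, d2, d3, d4⟩ := hdis t ht t' ht' hne
      have e : ∀ p ∈ q.primeFactors, wp q p * ((sg q z p t.1 + sg q z p t.2) *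
          (sg q z p t'.1 + sg q z p t'.2)) =
          (wp q p * (sg q z p t.1 * sg q z p t'.1) + wp q p * (sg q z p t.1 * sg q z p t'.2)) +
          (wp q p * (sg q z p t.2 * sg q z p t'.1) +
            wp q p * (sg q z p t.2 * sg q z p t'.2)) := fun p _ => by ring
      rw [Finset.sum_congr rfl e, Finset.sum_add_distrib, Finset.sum_add_distrib,
        Finset.sum_add_distrib]
      have e1 := (abs_le.1 (DC_two hC a1 b1 d1)).2
      have e2 := (abs_le.1 (DC_two hC a1 b2 d2)).2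
      have e3 := (abs_le.1 (DC_two hC a2 b1 d3)).2
      have e4 := (abs_le.1 (DC_two hC a2 b2 d4)).2
      linarith)
  rw [← hm, ← hWd] at hb1 hb2
  rw [← hWd] at hsw hW hcW
  rw [← hm] at hR
  have c1 := DC_cs (G := G) hG (fun p hp => wp_nonneg hp) hsw hb1
  have c2 : |∑ p ∈ G, wp q p * (e p * ∑ t ∈ M, (sg q z p t.1 + sg q z p t.2))| ≤
      Real.sqrt (W * (m * (2 * W) + m ^ 2 * (4 * (c * W)))) := by
    have c3 := DC_cs (P := G) (G := G) (w := wp q)
      (g := fun p => e p * ∑ t ∈ M, (sg q z p t.1 + sg q z p t.2)) (W := W)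
      (B := m * (2 * W) + m ^ 2 * (4 * (c * W))) (Finset.Subset.refl _)
      (fun p hp => wp_nonneg (hG hp))
      ((Finset.sum_le_sum_of_subset_of_nonneg hG (fun p hp _ => wp_nonneg hp)).trans hsw) (by
        refine le_trans ?_ hb2
        have e5 : ∀ p ∈ G, wp q p * (e p * ∑ t ∈ M, (sg q z p t.1 + sg q z p t.2)) ^ 2 =
            wp q p * (∑ t ∈ M, (sg q z p t.1 + sg q z p t.2)) ^ 2 := fun p hp => by
          have e6 : e p ^ 2 = 1 := by
            rcases he p hp with h7 | h7 <;> rw [h7] <;> norm_num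
          rw [mul_pow, e6, one_mul]
        rw [Finset.sum_congr rfl e5]
        exact Finset.sum_le_sum_of_subset_of_nonneg hG
          (fun p hp _ => mul_nonneg (wp_nonneg hp) (sq_nonneg _)))
    exact c3
  -- the identity
  have hid : m * ∑ p ∈ G, wp q p + ∑ p ∈ G, wp q p * ∑ t ∈ M, sg q z p t.1 * sg q z p t.2 =
      ∑ p ∈ G, wp q p * (e p * ∑ t ∈ M, (sg q z p t.1 + sg q z p t.2)) := by
    rw [Finset.mul_sum, ← Finset.sum_add_distrib]
    refine Finset.sum_congr rfl fun p hp => ?_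
    have e7 : ∑ t ∈ M, (1 + sg q z p t.1 * sg q z p t.2) =
        e p * ∑ t ∈ M, (sg q z p t.1 + sg q z p t.2) := by
      rw [Finset.mul_sum]
      refine Finset.sum_congr rfl fun t ht => ?_
      have h8 := h t ht p hp
      rcases he p hp with h9 | h9 <;> rw [h9] at h8 ⊢ <;>
        rcases sg_eq_or q z p t.1 with h10 | h10 <;>
        rcases sg_eq_or q z p t.2 with h11 | h11 <;> rw [h10, h11] at h8 ⊢
      · norm_num
      · norm_num
      · norm_num
      · exact absurd (h8 rfl) (by norm_num)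
      · exact absurd (h8 rfl) (by norm_num)
      · norm_num
      · norm_num
      · norm_num
    rw [← e7, Finset.sum_add_distrib, Finset.sum_const, nsmul_eq_mul, mul_one, ← hm]
    ring
  have hs1 : Real.sqrt (W * (m * W + m ^ 2 * (c * W))) = m * W * Real.sqrt (1 / m + c) := by
    have e8 : W * (m * W + m ^ 2 * (c * W)) = (m * W) ^ 2 * (1 / m + c) := by
      field_simp
    rw [e8, Real.sqrt_mul (sq_nonneg _), Real.sqrt_sq (mul_nonneg hR.le hW)]
  have hs2 : Real.sqrt (W * (m * (2 * W) + m ^ 2 * (4 * (c * W)))) ≤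
      2 * (m * W * Real.sqrt (1 / m + c)) := by
    have e9 : W * (m * (2 * W) + m ^ 2 * (4 * (c * W))) ≤ (2 * (m * W)) ^ 2 * (1 / m + c) := by
      have e10 : (2 * (m * W)) ^ 2 * (1 / m + c) = 4 * (m * W ^ 2) + 4 * m ^ 2 * (c * W ^ 2) := by
        field_simp
        ring
      rw [e10]
      have e11 : 0 ≤ m * W ^ 2 := mul_nonneg hR.le (sq_nonneg _)
      have e12 : W * (m * (2 * W) + m ^ 2 * (4 * (c * W))) =
        2 * (m * W ^ 2) + 4 * m ^ 2 * (c * W ^ 2) := by ring
      rw [e12]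
      linarith
    refine (Real.sqrt_le_sqrt e9).trans ?_
    rw [Real.sqrt_mul (sq_nonneg _), Real.sqrt_sq (by
      have := mul_nonneg hR.le hW
      linarith)]
    exact le_of_eq (by ring)
  rw [hs1] at c1
  have f1 := (abs_le.1 c1).1
  have f2 := (abs_le.1 c2).2
  have f3 : m * ∑ p ∈ G, wp q p ≤ m * (3 * Real.sqrt (1 / m + c) * W) := by
    have e13 : m * (3 * Real.sqrt (1 / m + c) * W) = 3 * (m * W * Real.sqrt (1 / m + c)) := by ring
    rw [e13]
    linarith
  rw [← hm, ← hWd]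
  exact le_of_mul_le_mul_left f3 hR

theorem weight_two {q z m p : ℕ} {S V : Finset ℕ} {c : ℝ} (hq : 2 ≤ q) (hc : 0 ≤ c)
    (hC : Corr q z S c) (hV : V ⊆ S) (hm : 1 ≤ m) (hVm : 2 * m + 1 ≤ V.card) (hp : p ∈ q.primeFactors) :
    wp q p ≤ (1 / m + c) * Real.log q := by
  classical
  have hW := DC_W hq
  have hne : V.Nonempty := Finset.card_pos.1 (by omega)
  obtain ⟨x, hxd⟩ : ∃ x, x = V.min' hne := ⟨_, rfl⟩
  have hx : x ∈ V := hxd ▸ V.min'_mem hne
  have hlt : ∀ y ∈ V.erase x, x < y := by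
    intro y hy
    obtain ⟨h1, h2⟩ := Finset.mem_erase.1 hy
    have h3 : x ≤ y := hxd ▸ V.min'_le y h2
    omega
  have hcard : (V.erase x).card = V.card - 1 := Finset.card_erase_of_mem hx
  have hsplit := Finset.card_filter_add_card_filter_not (s := V.erase x)
    (fun y => sg q z p x * sg q z p y = 1)
  have hkey : ∃ s : ℝ, (s = 1 ∨ s = -1) ∧
      m ≤ ((V.erase x).filter (fun y => sg q z p x * sg q z p y = s)).card := by
    by_cases h1 : m ≤ ((V.erase x).filter (fun y => sg q z p x * sg q z p y = 1)).card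
    · exact ⟨1, Or.inl rfl, h1⟩
    · refine ⟨-1, Or.inr rfl, ?_⟩
      have h2 : ((V.erase x).filter (fun y => ¬ sg q z p x * sg q z p y = 1)).card ≤
          ((V.erase x).filter (fun y => sg q z p x * sg q z p y = -1)).card := by
        refine Finset.card_le_card fun y hy => ?_
        obtain ⟨h3, h4⟩ := Finset.mem_filter.1 hy
        refine Finset.mem_filter.2 ⟨h3, ?_⟩
        rcases sg_eq_or q z p x with h5 | h5 <;> rcases sg_eq_or q z p y with h6 | h6
        · exact absurd (by rw [h5, h6, one_mul]) h4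
        · rw [h5, h6, one_mul]
        · rw [h5, h6, mul_one]
        · exact absurd (by rw [h5, h6]; norm_num) h4
      omega
  obtain ⟨s, hs, hcs⟩ := hkey
  have hinj : Set.InjOn (fun y : ℕ => (x, y))
      (((V.erase x).filter (fun y => sg q z p x * sg q z p y = s) : Finset ℕ) : Set ℕ) :=
    fun a _ b _ hab => (Prod.mk.injEq _ _ _ _ ▸ hab : x = x ∧ a = b).2
  have hcM : (((V.erase x).filter (fun y => sg q z p x * sg q z p y = s)).image
      (fun y : ℕ => (x, y))).card =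
      ((V.erase x).filter (fun y => sg q z p x * sg q z p y = s)).card :=
    Finset.card_image_of_injOn hinj
  have h := disagree (D := {p}) (s := s)
    (M := ((V.erase x).filter (fun y => sg q z p x * sg q z p y = s)).image
      (fun y : ℕ => (x, y))) hq hc hC (by
      intro t ht
      obtain ⟨y, hy, rfl⟩ := Finset.mem_image.1 ht
      have h1 := (Finset.mem_filter.1 hy).1
      exact ⟨hV hx, hV (Finset.mem_of_mem_erase h1), hlt y h1⟩) (by rw [hcM]; omega) hs
      (Finset.singleton_subset_iff.2 hp) (by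
      intro t ht p' hp'
      obtain ⟨y, hy, rfl⟩ := Finset.mem_image.1 ht
      rw [Finset.mem_singleton.1 hp']
      exact (Finset.mem_filter.1 hy).2)
  rw [Finset.sum_singleton, hcM] at h
  refine h.trans (mul_le_mul_of_nonneg_right ?_ hW)
  have h1 : (0 : ℝ) < m := by exact_mod_cast hm
  have h2 : (m : ℝ) ≤ ((V.erase x).filter (fun y => sg q z p x * sg q z p y = s)).card := by
    exact_mod_cast hcs
  have h3 := one_div_le_one_div_of_le h1 h2
  linarith

end Pool.Agent.Lib.MP_2c6f70_nt.RU
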