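import Pool.Agent.Lib.MP_2c6f70_nt.RU.DB
import Pool.Agent.Lib.MP_2c6f70_nt.RU.DC

/-!
# JOB DD: the near clique, for a given common neighbourhood

`W = log q`.  `Gd` = the odd `p ∣ q` at which `K` has both signs; `G = {p ∈ Gd : p % 4 = 1}`.  For `p ∈ G`: `κ p`, `ω' p` from `val_one`; `ω p = J(cq q | p) κ p ω' p` (`p` odd, `cq q ∣ 8`, so `J(cq q|p) = ± 1`).

Exceptional pairs.  For a value `b` let `M_b = {t ∈ V × V : t.1 < t.2, bb t = b}` and `D_b = {p ∈ G : J(b|p) ≠ κ p}`.  For `t ∈ M_b`, `p ∈ D_b` the signs differ (`val_one`), so `sg sg = -1`: `disagree` gives `∑_{D_b} wp ≤ (1/m + c) W` if `#M_b ≥ m`.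
Same for `a`: `M'_a = {aa t = a}`, `D'_a = {p ∈ G : J(a|p) ≠ ω' p}`, signs equal, `s = 1`.  If the pair `t` (ordered so that `t.1 < t.2`; `bb`, `aa`, `dn` are symmetric) has `#M_(bb t) ≥ m` and `#M'_(aa t) ≥ m`, then off `D ∪ D'`:
`J(cq q * dn|p) = J(aa * bb|p) = κ p ω' p`, so `J(dn|p) = ω p`: the weight of `{p ∈ G : J(dn|p) ≠ ω p}` is `≤ 2 (1/m + c) W ≤ κ₀ W`.  The other pairs `t.1 < t.2`: at most `m` for each value `b ∈ [1, 8N]` and at most `m` for each value
`a ∈ [1, 8N]`: `≤ 16 N m`; ordered pairs: `≤ 32 N m`.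

Weight of `G`.  `∑_{p ∣ q} wp ≥ W - log 8`; subtract `p = 2` (`weight_two`, `≤ (1/m + c) W`), the `p` where `K` has not both signs (`bad_weight`, `≤ (1/#K + c) W`) and `G₃ = {p ∈ Gd : p % 4 = 3}`:
for `p ∈ G₃`, `t ∈ M` with equal signs `e`: `J(b₁|p) = κ e` (`val_three`), so `e = κ J(b₁|p)` (nonzero): put `e p = κ J(b₁|p)` if this is `± 1` and `e p = 1` otherwise (then no `t ∈ M` has equal signs at `p`): `weight3`: `≤ 3 sqrt (1/m + c) W` (`#M = m`).
-/

set_option autoImplicit false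

namespace Pool.Agent.Lib.MP_2c6f70_nt.RU

open Pool.Agent.Lib.MP_2c6f70_nt Pool.Agent.Lib.MP_2c6f70_nt.KW

/-- All the symbols in question are `± 1`. -/
private theorem DD_cq_pm {q p : ℕ} (hq : q ≠ 0) (hp : p.Prime) (hp2 : p ≠ 2) :
    jacobiSym (cq q : ℤ) p = 1 ∨ jacobiSym (cq q : ℤ) p = -1 := by
  have h8 : cq q ∣ 8 := (prod_mr hq).2
  have hcop : Nat.Coprime (cq q) p := by
    have h1 : Nat.Coprime 8 p := by
      have : (8 : ℕ) = 2 ^ 3 := by norm_num
      rw [this]
      exact Nat.Coprime.pow_left 3 ((Nat.coprime_primes Nat.prime_two hp).2 (Ne.symm hp2))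
    exact Nat.Coprime.coprime_dvd_left h8 h1
  have : (cq q : ℤ).gcd (p : ℤ) = 1 := by
    rw [Int.gcd_natCast_natCast]
    exact hcop
  exact jacobiSym.eq_one_or_neg_one this

/-- Pairs of `V` with values in `[1, 8 N]`, each value taken with `t.1 < t.2` at most `m` times. -/
private theorem DD_count {V : Finset ℕ} {m B : ℕ} (f : ℕ → ℕ → ℕ) (hf : ∀ x y, f x y = f y x)
    (hB : ∀ x ∈ V, ∀ y ∈ V, x ≠ y → 1 ≤ f x y ∧ f x y ≤ B) :
    ((pairs V).filter (fun t => ((V ×ˢ V).filter (fun s => s.1 < s.2 ∧ f s.1 s.2 = f t.1 t.2)).card < m)).card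
      ≤ 2 * m * B := by
  classical
  have key : ∀ b ∈ Finset.Icc 1 B, (((pairs V).filter (fun t =>
      ((V ×ˢ V).filter (fun s => s.1 < s.2 ∧ f s.1 s.2 = f t.1 t.2)).card < m)).filter
        (fun t => f t.1 t.2 = b)).card ≤ 2 * m := by
    intro b _
    set A := ((pairs V).filter (fun t =>
      ((V ×ˢ V).filter (fun s => s.1 < s.2 ∧ f s.1 s.2 = f t.1 t.2)).card < m)).filter
        (fun t => f t.1 t.2 = b) with hA
    rcases A.eq_empty_or_nonempty with h0 | ⟨t₀, ht₀⟩
    · rw [h0]; simp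
    · have ht₀' := ht₀
      rw [hA, Finset.mem_filter, Finset.mem_filter] at ht₀'
      obtain ⟨⟨_, hlt⟩, hfb⟩ := ht₀'
      rw [hfb] at hlt
      set Q := (V ×ˢ V).filter (fun s : ℕ × ℕ => s.1 < s.2 ∧ f s.1 s.2 = b) with hQ
      have hsub : A ⊆ Q ∪ Q.image (fun s : ℕ × ℕ => (s.2, s.1)) := by
        intro t ht
        rw [hA, Finset.mem_filter, Finset.mem_filter, pairs, Finset.mem_filter, Finset.mem_product] at ht
        obtain ⟨⟨⟨⟨h1, h2⟩, hne⟩, _⟩, hb⟩ := ht
        rw [Finset.mem_union]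
        rcases lt_or_gt_of_ne hne with hlt' | hgt
        · left
          rw [hQ, Finset.mem_filter, Finset.mem_product]
          exact ⟨⟨h1, h2⟩, hlt', hb⟩
        · right
          rw [Finset.mem_image]
          refine ⟨(t.2, t.1), ?_, rfl⟩
          rw [hQ, Finset.mem_filter, Finset.mem_product]
          exact ⟨⟨h2, h1⟩, hgt, by rw [hf]; exact hb⟩
      calc A.card ≤ (Q ∪ Q.image (fun s : ℕ × ℕ => (s.2, s.1))).card := Finset.card_le_card hsub
        _ ≤ Q.card + (Q.image (fun s : ℕ × ℕ => (s.2, s.1))).card := Finset.card_union_le _ _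
        _ ≤ Q.card + Q.card := Nat.add_le_add_left Finset.card_image_le _
        _ ≤ 2 * m := by omega
  have hmaps : ∀ t ∈ ((pairs V).filter (fun t =>
      ((V ×ˢ V).filter (fun s => s.1 < s.2 ∧ f s.1 s.2 = f t.1 t.2)).card < m)),
      f t.1 t.2 ∈ Finset.Icc 1 B := by
    intro t ht
    rw [Finset.mem_filter, pairs, Finset.mem_filter, Finset.mem_product] at ht
    obtain ⟨⟨⟨h1, h2⟩, hne⟩, _⟩ := ht
    rw [Finset.mem_Icc]
    exact hB _ h1 _ h2 hne
  have := Finset.card_le_mul_card_image_of_maps_to hmaps (2 * m) key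
  rwa [Nat.card_Icc, Nat.add_sub_cancel] at this

open Classical in
theorem clique_of_nbhd {q a N : ℕ} {S K V : Finset ℕ} {M : Finset (ℕ × ℕ)} {z b₀ b₁ m : ℕ} {c κ₀ : ℝ} (h : Ctx q a N S)
    (hz : z ∈ S) (hc : 0 ≤ c) (hC : Corr q z S c) (hK : K ⊆ S) (hV : V ⊆ S) (hm : 1 ≤ m) (hKm : K.card = m)
    (hb : ∀ x ∈ V, ∀ k ∈ K, x ≠ k ∧ bb q z x k = b₀)
    (hM : M ⊆ pairs V) (hMm : M.card = m)
    (hdis : ∀ s ∈ M, ∀ t ∈ M, s ≠ t → s.1 ≠ t.1 ∧ s.1 ≠ t.2 ∧ s.2 ≠ t.1 ∧ s.2 ≠ t.2)
    (hb1 : ∀ t ∈ M, bb q z t.1 t.2 = b₁)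
    (hVm : 2 * m + 1 ≤ V.card)
    (hκ : 3 * Real.sqrt (1 / m + c) + 2 * (1 / m + c) ≤ κ₀ / 2) (hW : Real.log 8 ≤ κ₀ / 2 * Real.log q) :
    ∃ (G : Finset ℕ) (ω : ℕ → ℤ), G ⊆ q.primeFactors ∧ (∀ p ∈ G, p % 4 = 1 ∧ (ω p = 1 ∨ ω p = -1)) ∧
      (1 - κ₀) * Real.log q ≤ ∑ p ∈ G, wp q p ∧
      (((pairs V).filter (fun t => κ₀ * Real.log q <
        ∑ p ∈ G.filter (fun p => jacobiSym (dn q a t.1 t.2) p ≠ ω p), wp q p)).card : ℝ) ≤ 32 * m * N := by
  classical
  have hq0 : q ≠ 0 := by have := h.hq; omega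
  have hW0 : 0 ≤ Real.log q := Real.log_nonneg (by exact_mod_cast (by have := h.hq; omega : 1 ≤ q))
  have hm0 : (0 : ℝ) < m := by exact_mod_cast hm
  have hmc : 0 ≤ 1 / (m : ℝ) + c := by positivity
  have hs0 : 0 ≤ Real.sqrt (1 / (m : ℝ) + c) := Real.sqrt_nonneg _
  have hκ0 : 0 ≤ κ₀ := by nlinarith
  have hκ2 : 2 * (1 / (m : ℝ) + c) ≤ κ₀ := by nlinarith
  set BS : ℕ → Prop := fun p => (∃ k ∈ K, sg q z p k = 1) ∧ ∃ k ∈ K, sg q z p k = -1 with hBS
  set G := q.primeFactors.filter (fun p => p % 4 = 1 ∧ BS p) with hG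
  have hGsub : G ⊆ q.primeFactors := Finset.filter_subset _ _
  have hodd : ∀ p ∈ q.primeFactors, p ≠ 2 → p % 4 = 1 ∨ p % 4 = 3 := by
    intro p hp hp2
    have hpr := (Nat.prime_of_mem_primeFactors hp)
    have := hpr.eq_two_or_odd
    omega
  -- the values
  have hval : ∀ p, ∃ κ ω : ℤ, p ∈ G → (κ = 1 ∨ κ = -1) ∧ (ω = 1 ∨ ω = -1) ∧ ∀ x ∈ V, ∀ y ∈ V, x ≠ y →
      (sg q z p x = sg q z p y → jacobiSym (bb q z x y) p = κ) ∧
      (sg q z p x ≠ sg q z p y → jacobiSym (aa q z x y) p = ω) := by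
    intro p
    by_cases hp : p ∈ G
    · have hp' := hp
      rw [hG, Finset.mem_filter] at hp'
      obtain ⟨κ, ω, h1, h2, h3⟩ := val_one h hz hK hV hb hp'.1 hp'.2.1 hp'.2.2.1 hp'.2.2.2
      exact ⟨κ, ω, fun _ => ⟨h1, h2, h3⟩⟩
    · exact ⟨1, 1, fun h => absurd h hp⟩
  choose κ ω' hκω using hval
  have hcqpm : ∀ p ∈ G, jacobiSym (cq q : ℤ) p = 1 ∨ jacobiSym (cq q : ℤ) p = -1 := by
    intro p hp
    rw [hG, Finset.mem_filter] at hp
    apply DD_cq_pm hq0 (Nat.prime_of_mem_primeFactors hp.1)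
    rintro rfl
    have := hp.2.1
    omega
  -- the exceptional sets
  set Db : ℕ → Finset ℕ := fun b => G.filter (fun p => jacobiSym (b : ℤ) p ≠ κ p) with hDb
  set Da : ℕ → Finset ℕ := fun a => G.filter (fun p => jacobiSym (a : ℤ) p ≠ ω' p) with hDa
  have hDbw : ∀ b : ℕ, m ≤ ((V ×ˢ V).filter (fun s => s.1 < s.2 ∧ bb q z s.1 s.2 = b)).card →
      ∑ p ∈ Db b, wp q p ≤ (1 / (m : ℝ) + c) * Real.log q := by
    intro b hmb
    set Mb := (V ×ˢ V).filter (fun s => s.1 < s.2 ∧ bb q z s.1 s.2 = b) with hMb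
    have h1 : 1 ≤ Mb.card := hm.trans hmb
    have h2 : ∑ p ∈ Db b, wp q p ≤ (1 / (Mb.card : ℝ) + c) * Real.log q := by
      apply disagree (s := -1) h.hq hc hC _ h1 (Or.inr rfl) ((Finset.filter_subset _ _).trans hGsub)
      · intro t ht p hp
        rw [hMb, Finset.mem_filter, Finset.mem_product] at ht
        obtain ⟨⟨h3, h4⟩, h5, h6⟩ := ht
        rw [Finset.mem_filter] at hp
        obtain ⟨hpG, hne⟩ := hp
        have h7 := ((hκω p hpG).2.2 t.1 h3 t.2 h4 h5.ne).1
        have h8 : sg q z p t.1 ≠ sg q z p t.2 := by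
          intro he
          apply hne
          rw [← h6]
          exact h7 he
        rcases sg_eq_or q z p t.1 with h9 | h9 <;> rcases sg_eq_or q z p t.2 with h10 | h10 <;>
          rw [h9, h10] at h8 ⊢ <;> first | exact absurd rfl h8 | norm_num
      · intro t ht
        rw [hMb, Finset.mem_filter, Finset.mem_product] at ht
        exact ⟨hV ht.1.1, hV ht.1.2, ht.2.1⟩
    refine h2.trans ?_
    gcongr
  have hDaw : ∀ b : ℕ, m ≤ ((V ×ˢ V).filter (fun s => s.1 < s.2 ∧ aa q z s.1 s.2 = b)).card →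
      ∑ p ∈ Da b, wp q p ≤ (1 / (m : ℝ) + c) * Real.log q := by
    intro b hmb
    set Mb := (V ×ˢ V).filter (fun s => s.1 < s.2 ∧ aa q z s.1 s.2 = b) with hMb
    have h1 : 1 ≤ Mb.card := hm.trans hmb
    have h2 : ∑ p ∈ Da b, wp q p ≤ (1 / (Mb.card : ℝ) + c) * Real.log q := by
      apply disagree (s := 1) h.hq hc hC _ h1 (Or.inl rfl) ((Finset.filter_subset _ _).trans hGsub)
      · intro t ht p hp
        rw [hMb, Finset.mem_filter, Finset.mem_product] at ht
        obtain ⟨⟨h3, h4⟩, h5, h6⟩ := ht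
        rw [Finset.mem_filter] at hp
        obtain ⟨hpG, hne⟩ := hp
        have h7 := ((hκω p hpG).2.2 t.1 h3 t.2 h4 h5.ne).2
        have h8 : sg q z p t.1 = sg q z p t.2 := by
          by_contra he
          apply hne
          rw [← h6]
          exact h7 he
        rw [h8]
        exact sg_sq q z p t.2
      · intro t ht
        rw [hMb, Finset.mem_filter, Finset.mem_product] at ht
        exact ⟨hV ht.1.1, hV ht.1.2, ht.2.1⟩
    refine h2.trans ?_
    gcongr
  have hwG : ∀ D ⊆ G, ∀ p ∈ D, 0 ≤ wp q p := fun D hD p hp => wp_nonneg (hGsub (hD hp))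
  refine ⟨G, fun p => jacobiSym (cq q : ℤ) p * κ p * ω' p, hGsub, ?_, ?_, ?_⟩
  · intro p hp
    refine ⟨(Finset.mem_filter.1 hp).2.1, ?_⟩
    obtain ⟨h1, h2, _⟩ := hκω p hp
    dsimp only
    rcases hcqpm p hp with h3 | h3 <;> rcases h1 with h1 | h1 <;> rcases h2 with h2 | h2 <;>
      rw [h3, h1, h2] <;> norm_num
  · -- the weight of `G`
    set P2 := q.primeFactors.filter (fun p => p = 2) with hP2
    set Bad := q.primeFactors.filter (fun p => ¬ ((∃ k ∈ K, sg q z p k = 1) ∧ ∃ k ∈ K, sg q z p k = -1)) with hBad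
    set G3 := q.primeFactors.filter (fun p => p % 4 = 3 ∧ BS p) with hG3
    have hsub : q.primeFactors ⊆ ((G ∪ P2) ∪ Bad) ∪ G3 := by
      intro p hp
      rw [Finset.mem_union, Finset.mem_union, Finset.mem_union]
      by_cases h1 : BS p
      · by_cases h2 : p = 2
        · left; left; right
          rw [hP2, Finset.mem_filter]
          exact ⟨hp, h2⟩
        · rcases hodd p hp h2 with h3 | h3
          · left; left; left
            rw [hG, Finset.mem_filter]
            exact ⟨hp, h3, h1⟩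
          · right
            rw [hG3, Finset.mem_filter]
            exact ⟨hp, h3, h1⟩
      · left; right
        rw [hBad, Finset.mem_filter]
        exact ⟨hp, h1⟩
    have hw : ∀ D ⊆ q.primeFactors, ∀ p ∈ D, 0 ≤ wp q p := fun D hD p hp => wp_nonneg (hD hp)
    have hP2s : P2 ⊆ q.primeFactors := Finset.filter_subset _ _
    have hBads : Bad ⊆ q.primeFactors := Finset.filter_subset _ _
    have hG3s : G3 ⊆ q.primeFactors := Finset.filter_subset _ _
    have hun : ∀ A B : Finset ℕ, A ⊆ q.primeFactors → B ⊆ q.primeFactors →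
        ∑ p ∈ A ∪ B, wp q p ≤ ∑ p ∈ A, wp q p + ∑ p ∈ B, wp q p := by
      intro A B hA hB
      rw [← Finset.sum_union_inter]
      have : 0 ≤ ∑ p ∈ A ∩ B, wp q p :=
        Finset.sum_nonneg (hw _ (Finset.inter_subset_left.trans hA))
      linarith
    have hall : ∑ p ∈ q.primeFactors, wp q p ≤
        ∑ p ∈ G, wp q p + ∑ p ∈ P2, wp q p + ∑ p ∈ Bad, wp q p + ∑ p ∈ G3, wp q p := by
      have h1 : ∑ p ∈ q.primeFactors, wp q p ≤ ∑ p ∈ ((G ∪ P2) ∪ Bad) ∪ G3, wp q p := by
        apply Finset.sum_le_sum_of_subset_of_nonneg hsub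
        intro p hp _
        exact hw _ (Finset.union_subset (Finset.union_subset (Finset.union_subset hGsub hP2s) hBads) hG3s) p hp
      have h2 := hun ((G ∪ P2) ∪ Bad) G3 (Finset.union_subset (Finset.union_subset hGsub hP2s) hBads) hG3s
      have h3 := hun (G ∪ P2) Bad (Finset.union_subset hGsub hP2s) hBads
      have h4 := hun G P2 hGsub hP2s
      linarith
    have hP2w : ∑ p ∈ P2, wp q p ≤ (1 / (m : ℝ) + c) * Real.log q := by
      by_cases h2 : 2 ∈ q.primeFactors
      · have : P2 = {2} := by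
          rw [hP2]
          ext p
          rw [Finset.mem_filter, Finset.mem_singleton]
          constructor
          · exact fun h => h.2
          · rintro rfl
            exact ⟨h2, rfl⟩
        rw [this, Finset.sum_singleton]
        exact weight_two h.hq hc hC hV hm hVm h2
      · have : P2 = ∅ := by
          rw [hP2]
          apply Finset.filter_eq_empty_iff.2
          intro p hp h3
          exact h2 (h3 ▸ hp)
        rw [this, Finset.sum_empty]
        positivity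
    have hBadw : ∑ p ∈ Bad, wp q p ≤ (1 / (m : ℝ) + c) * Real.log q := by
      have := bad_weight h.hq hc hC hK (by rw [hKm]; exact hm)
      rw [hKm] at this
      exact this
    have hG3w : ∑ p ∈ G3, wp q p ≤ 3 * Real.sqrt (1 / (m : ℝ) + c) * Real.log q := by
      have hval3 : ∀ p, ∃ κ : ℤ, p ∈ G3 → (κ = 1 ∨ κ = -1) ∧ ∀ x ∈ V, ∀ y ∈ V, x ≠ y →
          sg q z p x = sg q z p y →
          ∀ e : ℤ, (e : ℝ) = sg q z p x → jacobiSym (bb q z x y) p = κ * e := by
        intro p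
        by_cases hp : p ∈ G3
        · have hp' := hp
          rw [hG3, Finset.mem_filter] at hp'
          obtain ⟨κ, h1, h2⟩ := val_three h hz hK hV hb hp'.1 hp'.2.1 hp'.2.2.1 hp'.2.2.2
          exact ⟨κ, fun _ => ⟨h1, h2⟩⟩
        · exact ⟨1, fun h => absurd h hp⟩
      choose κ3 hκ3 using hval3
      have h3 := weight3 (G := G3) (M := M) (S := S) (z := z)
        (e := fun p => if (κ3 p * jacobiSym (b₁ : ℤ) p = 1 ∨ κ3 p * jacobiSym (b₁ : ℤ) p = -1) then
          ((κ3 p * jacobiSym (b₁ : ℤ) p : ℤ) : ℝ) else 1) h.hq hc hC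
        (by
          intro t ht
          have := hM ht
          rw [pairs, Finset.mem_filter, Finset.mem_product] at this
          exact ⟨hV this.1.1, hV this.1.2, this.2⟩) (by rw [hMm]; exact hm) hdis hG3s
        (by
          intro p hp
          split_ifs with h1
          · rcases h1 with h1 | h1 <;> rw [h1] <;> norm_num
          · left; rfl)
        (by
          intro t ht p hp hst
          have ht' := hM ht
          rw [pairs, Finset.mem_filter, Finset.mem_product] at ht'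
          obtain ⟨⟨h1, h2⟩, hne⟩ := ht'
          obtain ⟨hk, hk2⟩ := hκ3 p hp
          have h3 := hk2 t.1 h1 t.2 h2 hne hst
          rw [hb1 t ht] at h3
          have hkk : κ3 p * κ3 p = 1 := by
            rcases hk with hk | hk <;> rw [hk] <;> norm_num
          rcases sg_eq_or q z p t.1 with h4 | h4
          · have h5 := h3 1 (by rw [h4]; norm_num)
            have h6 : κ3 p * jacobiSym (b₁ : ℤ) p = 1 := by
              rw [h5, mul_one]; exact hkk
            rw [if_pos (Or.inl h6), h6, h4]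
            norm_num
          · have h5 := h3 (-1) (by rw [h4]; norm_num)
            have h6 : κ3 p * jacobiSym (b₁ : ℤ) p = -1 := by
              rw [h5]
              linear_combination (-1 : ℤ) * hkk
            rw [if_pos (Or.inr h6), h6, h4]
            norm_num)
      rw [hMm] at h3
      exact h3
    have htot := (sum_wp hq0).2
    have hfin : (3 * Real.sqrt (1 / (m : ℝ) + c) + 2 * (1 / (m : ℝ) + c)) * Real.log q ≤
        κ₀ / 2 * Real.log q := mul_le_mul_of_nonneg_right hκ hW0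
    nlinarith
  · -- the exceptional pairs
    set E1 := (pairs V).filter (fun t => ((V ×ˢ V).filter (fun s => s.1 < s.2 ∧
      bb q z s.1 s.2 = bb q z t.1 t.2)).card < m) with hE1
    set E2 := (pairs V).filter (fun t => ((V ×ˢ V).filter (fun s => s.1 < s.2 ∧
      aa q z s.1 s.2 = aa q z t.1 t.2)).card < m) with hE2
    have hE1c : E1.card ≤ 2 * m * (8 * N) := by
      apply DD_count (fun x y => bb q z x y) (fun x y => bb_comm q z x y)
      intro x hx y hy hxy
      have := aa_bb_bounds h (hV hx) (hV hy) hz hxy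
      exact ⟨this.2.1, this.2.2.2⟩
    have hE2c : E2.card ≤ 2 * m * (8 * N) := by
      apply DD_count (fun x y => aa q z x y) (fun x y => aa_comm q z x y)
      intro x hx y hy hxy
      have := aa_bb_bounds h (hV hx) (hV hy) hz hxy
      exact ⟨this.1, this.2.2.1⟩
    have hsub : ((pairs V).filter (fun t => κ₀ * Real.log q <
        ∑ p ∈ G.filter (fun p => jacobiSym (dn q a t.1 t.2) p ≠ jacobiSym (cq q : ℤ) p * κ p * ω' p),
          wp q p)) ⊆ E1 ∪ E2 := by
      intro t ht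
      rw [Finset.mem_filter] at ht
      obtain ⟨htp, hlt⟩ := ht
      rw [Finset.mem_union]
      by_contra hcon
      rw [not_or] at hcon
      obtain ⟨hc1, hc2⟩ := hcon
      have h1 : m ≤ ((V ×ˢ V).filter (fun s => s.1 < s.2 ∧
          bb q z s.1 s.2 = bb q z t.1 t.2)).card := by
        by_contra h
        exact hc1 (by rw [hE1, Finset.mem_filter]; exact ⟨htp, not_le.1 h⟩)
      have h2 : m ≤ ((V ×ˢ V).filter (fun s => s.1 < s.2 ∧
          aa q z s.1 s.2 = aa q z t.1 t.2)).card := by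
        by_contra h
        exact hc2 (by rw [hE2, Finset.mem_filter]; exact ⟨htp, not_le.1 h⟩)
      have hw1 := hDbw _ h1
      have hw2 := hDaw _ h2
      have htp' := htp
      rw [pairs, Finset.mem_filter, Finset.mem_product] at htp'
      obtain ⟨⟨hx, hy⟩, hne⟩ := htp'
      have hsub2 : G.filter (fun p => jacobiSym (dn q a t.1 t.2) p ≠
          jacobiSym (cq q : ℤ) p * κ p * ω' p) ⊆ Db (bb q z t.1 t.2) ∪ Da (aa q z t.1 t.2) := by
        intro p hp
        rw [Finset.mem_filter] at hp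
        obtain ⟨hpG, hpne⟩ := hp
        rw [Finset.mem_union]
        by_contra hcon
        rw [not_or] at hcon
        obtain ⟨hd1, hd2⟩ := hcon
        have h3 : jacobiSym (bb q z t.1 t.2 : ℤ) p = κ p := by
          by_contra h
          exact hd1 (by rw [hDb, Finset.mem_filter]; exact ⟨hpG, h⟩)
        have h4 : jacobiSym (aa q z t.1 t.2 : ℤ) p = ω' p := by
          by_contra h
          exact hd2 (by rw [hDa, Finset.mem_filter]; exact ⟨hpG, h⟩)
        apply hpne
        have h5 : (aa q z t.1 t.2 : ℤ) * (bb q z t.1 t.2 : ℤ) = (cq q : ℤ) * (dn q a t.1 t.2 : ℤ) := by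
          exact_mod_cast aa_bb h (hV hx) (hV hy) hz
        have h6 : jacobiSym ((aa q z t.1 t.2 : ℤ) * (bb q z t.1 t.2 : ℤ)) p =
            jacobiSym ((cq q : ℤ) * (dn q a t.1 t.2 : ℤ)) p := by rw [h5]
        rw [jacobiSym.mul_left, jacobiSym.mul_left, h3, h4] at h6
        have h7 : jacobiSym (cq q : ℤ) p * jacobiSym (cq q : ℤ) p = 1 := by
          rcases hcqpm p hpG with h | h <;> rw [h] <;> norm_num
        calc jacobiSym (dn q a t.1 t.2 : ℤ) p =
            (jacobiSym (cq q : ℤ) p * jacobiSym (cq q : ℤ) p) * jacobiSym (dn q a t.1 t.2 : ℤ) p := by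
              rw [h7, one_mul]
          _ = jacobiSym (cq q : ℤ) p * (jacobiSym (cq q : ℤ) p * jacobiSym (dn q a t.1 t.2 : ℤ) p) := by
              ring
          _ = jacobiSym (cq q : ℤ) p * (ω' p * κ p) := by rw [← h6]
          _ = jacobiSym (cq q : ℤ) p * κ p * ω' p := by ring
      have hDs : Db (bb q z t.1 t.2) ∪ Da (aa q z t.1 t.2) ⊆ G :=
        Finset.union_subset (Finset.filter_subset _ _) (Finset.filter_subset _ _)
      have h8 : ∑ p ∈ G.filter (fun p => jacobiSym (dn q a t.1 t.2) p ≠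
          jacobiSym (cq q : ℤ) p * κ p * ω' p), wp q p ≤
          ∑ p ∈ Db (bb q z t.1 t.2) ∪ Da (aa q z t.1 t.2), wp q p :=
        Finset.sum_le_sum_of_subset_of_nonneg hsub2 (fun p hp _ => hwG _ hDs p hp)
      have h9 : ∑ p ∈ Db (bb q z t.1 t.2) ∪ Da (aa q z t.1 t.2), wp q p ≤
          ∑ p ∈ Db (bb q z t.1 t.2), wp q p + ∑ p ∈ Da (aa q z t.1 t.2), wp q p := by
        rw [← Finset.sum_union_inter]
        have : 0 ≤ ∑ p ∈ Db (bb q z t.1 t.2) ∩ Da (aa q z t.1 t.2), wp q p :=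
          Finset.sum_nonneg (hwG _ (Finset.inter_subset_left.trans (Finset.filter_subset _ _)))
        linarith
      have h10 : 2 * (1 / (m : ℝ) + c) * Real.log q ≤ κ₀ * Real.log q :=
        mul_le_mul_of_nonneg_right hκ2 hW0
      linarith
    have hcard : ((pairs V).filter (fun t => κ₀ * Real.log q <
        ∑ p ∈ G.filter (fun p => jacobiSym (dn q a t.1 t.2) p ≠ jacobiSym (cq q : ℤ) p * κ p * ω' p),
          wp q p)).card ≤ 32 * m * N := by
      calc _ ≤ (E1 ∪ E2).card := Finset.card_le_card hsub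
        _ ≤ E1.card + E2.card := Finset.card_union_le _ _
        _ ≤ 2 * m * (8 * N) + 2 * m * (8 * N) := Nat.add_le_add hE1c hE2c
        _ = 32 * m * N := by ring
    exact_mod_cast hcard

end Pool.Agent.Lib.MP_2c6f70_nt.RU
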