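import Pool.Agent.Lib.MP_2c6f70_nt.RU.CFin

/-!
# INTERFACE of block C: correlations of the sign vectors
-/

set_option autoImplicit false

namespace Pool.Agent.Lib.MP_2c6f70_nt.RU

open Pool.Agent.Lib.MP_2c6f70_nt Pool.Agent.Lib.MP_2c6f70_nt.KW

/-- (C2): correlations of two and four sign vectors are small. -/
theorem corr24 (c : ℝ) (hc : 0 < c) : ∃ N₀ : ℕ, ∀ N ≥ N₀, ∀ (q a : ℕ) (S : Finset ℕ) (z : ℕ),
    Ctx q a N S → (N : ℝ) ^ (1 / 4 : ℝ) ≤ Real.log q → (N : ℝ) ^ (1 / 4 : ℝ) ≤ (S.card : ℝ) → z ∈ S →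
    ∀ J ⊆ S, J.card = 2 ∨ J.card = 4 →
      |∑ p ∈ q.primeFactors, wp q p * ∏ x ∈ J, sg q z p x| ≤ c * Real.log q :=
  corr24' c hc

/-- (C3): the sharp second moment of the weights. -/
theorem sharp_moment (A ε η : ℝ) (hε : 0 < ε) (hη : 0 < η) :
    ∃ N₀ : ℕ, ∀ N ≥ N₀, ∀ (q a : ℕ) (S : Finset ℕ),
    Ctx q a N S → (N : ℝ) ^ (1 / 4 : ℝ) ≤ Real.log q → Real.log q ≤ (N : ℝ) ^ A →
    (N : ℝ) ^ (1 / 2 + ε) ≤ (S.card : ℝ) →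
      ∑ p ∈ q.primeFactors, wp q p ^ 2 ≤
        (2 + η) / (1 / 2 + ε) * Real.log q * Real.log (Real.log q) :=
  sharp_moment' A ε η hε hη

end Pool.Agent.Lib.MP_2c6f70_nt.RU
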