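import Pool.Agent.Lib.MP_2c6f70_nt.RU.LB

/-!
# JOB LC: the matrix of Jacobi symbols is of rank one on sign classes

`F`: a set of odd primes dividing `q`, `n = ∏_{p ∈ F} p`.  `jacobiSym c (∏ p) = ∏ jacobiSym c p` (`jacobiSym.prod_right` or induction with `jacobiSym.mul_right`).

`sign_class`: the sign vectors `p ↦ (sg q z p x = 1)` restricted to `F` take at most `2 ^ #F` values on `V`; pigeonhole
(`Finset.exists_le_card_fiber_of_mul_le_card_of_maps_to` or a sum over `F.powerset` of fibers: the map `x ↦ F.filter (sg q z p x = 1)` into `F.powerset`).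

`class_rank_one`: take `C` from `sign_class`; `κ = ∏_{p ∈ F} J(2 e_p z | p)`, where `e_p` is the common sign at `p` (if `C` is empty nothing is to be shown: `κ = 1`), `t x = ∏_{p ∈ F} tt q z p x`; `leg_same` for every `p ∈ F`.
-/

set_option autoImplicit false

namespace Pool.Agent.Lib.MP_2c6f70_nt.RU

open Pool.Agent.Lib.MP_2c6f70_nt Pool.Agent.Lib.MP_2c6f70_nt.KW

private theorem LC_sg_pm (q z p x : ℕ) : sg q z p x = 1 ∨ sg q z p x = -1 := by
  unfold sg
  split_ifs
  · exact Or.inl rfl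
  · exact Or.inr rfl

theorem sign_class (q z : ℕ) (V F : Finset ℕ) :
    ∃ C ⊆ V, V.card ≤ 2 ^ F.card * C.card ∧ ∀ x ∈ C, ∀ y ∈ C, ∀ p ∈ F, sg q z p x = sg q z p y := by
  classical
  obtain ⟨G, hG, hmax⟩ := Finset.exists_max_image F.powerset
    (fun G => (V.filter (fun x => F.filter (fun p => sg q z p x = 1) = G)).card)
    ⟨∅, Finset.empty_mem_powerset F⟩
  refine ⟨V.filter (fun x => F.filter (fun p => sg q z p x = 1) = G), Finset.filter_subset _ _, ?_, ?_⟩
  · have h1 : V.card = ∑ G' ∈ F.powerset,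
        (V.filter (fun x => F.filter (fun p => sg q z p x = 1) = G')).card :=
      Finset.card_eq_sum_card_fiberwise
        (fun x _ => Finset.mem_coe.mpr (Finset.mem_powerset.mpr (Finset.filter_subset _ _)))
    rw [h1]
    calc ∑ G' ∈ F.powerset, (V.filter (fun x => F.filter (fun p => sg q z p x = 1) = G')).card
        ≤ ∑ _G' ∈ F.powerset, (V.filter (fun x => F.filter (fun p => sg q z p x = 1) = G)).card :=
          Finset.sum_le_sum fun G' hG' => hmax G' hG'
      _ = 2 ^ F.card * (V.filter (fun x => F.filter (fun p => sg q z p x = 1) = G)).card := by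
          rw [Finset.sum_const, Finset.card_powerset, smul_eq_mul]
  · intro x hx y hy p hp
    have hx' := (Finset.mem_filter.mp hx).2
    have hy' := (Finset.mem_filter.mp hy).2
    have h : sg q z p x = 1 ↔ sg q z p y = 1 := by
      have e := Finset.ext_iff.mp (hx'.trans hy'.symm) p
      simp only [Finset.mem_filter, hp, true_and] at e
      exact e
    rcases LC_sg_pm q z p x with h1 | h1
    · rw [h1, h.mp h1]
    · rcases LC_sg_pm q z p y with h2 | h2
      · rw [h.mpr h2, h2]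
      · rw [h1, h2]

private theorem LC_prod_pm (F : Finset ℕ) (f : ℕ → ℤ) (h : ∀ p ∈ F, f p = 1 ∨ f p = -1) :
    ∏ p ∈ F, f p = 1 ∨ ∏ p ∈ F, f p = -1 := by
  classical
  induction F using Finset.induction_on with
  | empty => left; simp
  | insert p F hp ih =>
    rw [Finset.prod_insert hp]
    have h1 := h p (Finset.mem_insert_self p F)
    have h2 := ih (fun p' hp' => h p' (Finset.mem_insert_of_mem hp'))
    rcases h1 with h1 | h1 <;> rcases h2 with h2 | h2 <;> simp [h1, h2]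

private theorem LC_jac_prod (F : Finset ℕ) (h : ∀ p ∈ F, p ≠ 0) (c : ℤ) :
    jacobiSym c (∏ p ∈ F, p) = ∏ p ∈ F, jacobiSym c p := by
  classical
  induction F using Finset.induction_on with
  | empty => simp
  | insert p F hp ih =>
    rw [Finset.prod_insert hp, Finset.prod_insert hp]
    have h1 : p ≠ 0 := h p (Finset.mem_insert_self p F)
    have h2 : ∏ p' ∈ F, p' ≠ 0 :=
      Finset.prod_ne_zero_iff.mpr fun p' hp' => h p' (Finset.mem_insert_of_mem hp')
    have : NeZero p := ⟨h1⟩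
    have : NeZero (∏ p' ∈ F, p') := ⟨h2⟩
    rw [jacobiSym.mul_right, ih (fun p' hp' => h p' (Finset.mem_insert_of_mem hp'))]

theorem class_rank_one {q a N : ℕ} {S : Finset ℕ} (h : Ctx q a N S) {z : ℕ} (hz : z ∈ S) {V : Finset ℕ}
    (hV : V ⊆ S) {F : Finset ℕ} (hF : F ⊆ q.primeFactors) (hF2 : ∀ p ∈ F, p ≠ 2) :
    ∃ C ⊆ V, V.card ≤ 2 ^ F.card * C.card ∧ ∃ (t : ℕ → ℤ) (κ : ℤ), (κ = 1 ∨ κ = -1) ∧
      (∀ x ∈ C, t x = 1 ∨ t x = -1) ∧
      ∀ x ∈ C, ∀ y ∈ C, x ≠ y → jacobiSym (bb q z x y) (∏ p ∈ F, p) = κ * (t x * t y) := by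
  classical
  obtain ⟨C, hCV, hcard, hC⟩ := sign_class q z V F
  refine ⟨C, hCV, hcard, ?_⟩
  rcases C.eq_empty_or_nonempty with hem | ⟨w, hw⟩
  · refine ⟨fun _ => 1, 1, Or.inl rfl, fun _ _ => Or.inl rfl, ?_⟩
    intro x hx
    rw [hem] at hx
    exact absurd hx (Finset.notMem_empty x)
  · obtain ⟨e, he⟩ : ∃ e : ℕ → ℤ, ∀ p, (e p = 1 ∨ e p = -1) ∧ (e p : ℝ) = sg q z p w := by
      refine ⟨fun p => if sg q z p w = 1 then 1 else -1, fun p => ?_⟩
      rcases LC_sg_pm q z p w with h1 | h1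
      · simp [h1]
      · have h2 : ¬ ((-1 : ℝ) = 1) := by norm_num
        simp [h1, h2]
    refine ⟨fun x => ∏ p ∈ F, tt q z p x, ∏ p ∈ F, jacobiSym (2 * e p * z) p, ?_, ?_, ?_⟩
    · exact LC_prod_pm F _ fun p hp => z_pm h hz (hF hp) (hF2 p hp) (he p).1
    · intro x _
      exact LC_prod_pm F _ fun p hp => tt_pm (hF hp) z x
    · intro x hx y hy hxy
      rw [LC_jac_prod F (fun p hp => (Nat.prime_of_mem_primeFactors (hF hp)).ne_zero)]
      rw [← Finset.prod_mul_distrib, ← Finset.prod_mul_distrib]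
      refine Finset.prod_congr rfl fun p hp => ?_
      refine leg_same h (hV (hCV hx)) (hV (hCV hy)) hz hxy (hF hp) (hF2 p hp) (hC x hx y hy p hp) ?_
      rw [(he p).2]
      exact hC w hw x hx p hp

end Pool.Agent.Lib.MP_2c6f70_nt.RU
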