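import Pool.Agent.Lib.MP_2c6f70_nt.RU.LSA

/-!
# JOB LSB: most primes up to `sqrt N` divide `q`

`nn_spec`: `x^2 = a + q n`, `n < N` gives `nn q a x = n`.  `nn_inj`: `nn x = nn y` gives `x^2 = y^2`.

`image_card`: `p` odd prime, `p ∤ q`.  The map `r ↦ (q r + a) mod p` is injective on residues modulo `p` and maps the image of the indices to squares modulo `p`; there are `(p+1)/2` squares in `ZMod p`
(`ZMod`: the squares are the image of `x ↦ x^2`; `2 (#squares) ≤ p + 1`: the map `x ↦ x^2` from `{0, ..., (p-1)/2}` is onto the squares, because `x^2 = (p-x)^2`).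

`not_dvd_count`: `ls_set` with `V = S.image (nn q a)` (cardinality `#S`) and `P` = the filter.

`many_primes`.  Let `y = sqrt N`, `π` = number of primes `p` with `p^2 ≤ N`, i.e. `p ≤ Nat.sqrt N`.  `Chebyshev.psi_ge`, `Chebyshev.psi_le_primeCounting_mul_log`: `π(n) log n ≥ n log 2 - log (n+1)`
with `n = Nat.sqrt N ≥ y - 1`, `log n ≤ (log N)/2`, so `π ≥ 1.2 y / log N` for large `N`.  The primes `3 ≤ p ≤ n` not dividing `q` are at most `C N / #S ≤ C N^(1/2-ε) ≤ 0.1 y / log N`.  So the number of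
`p ∈ q.primeFactors` with `3 ≤ p`, `p^2 ≤ N` is at least `π - 1 - 0.1 y/log N ≥ y / (4 log N)`.  `log q ≥ log ∏ p ≥ (number) log 3 ≥ N^(1/4)` for large `N` (`∏_{p ∈ F} p ∣ q` for
`F ⊆ q.primeFactors`: `Nat.prod_primeFactors_dvd`, `Finset.prod_dvd_prod_of_subset`).
-/

set_option autoImplicit false

namespace Pool.Agent.Lib.MP_2c6f70_nt.RU

open Pool.Agent.Lib.MP_2c6f70_nt Pool.Agent.Lib.MP_2c6f70_nt.KW

theorem nn_spec {q a N : ℕ} {S : Finset ℕ} (h : Ctx q a N S) {x : ℕ} (hx : x ∈ S) :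
    nn q a x < N ∧ x ^ 2 = a + q * nn q a x := by
  obtain ⟨n, hn, hxn⟩ := h.rts x hx
  have hq : 0 < q := lt_of_lt_of_le (by norm_num) h.hq
  have e : nn q a x = n := by
    unfold nn
    rw [hxn, Nat.add_sub_cancel_left, Nat.mul_div_cancel_left n hq]
  rw [e]
  exact ⟨hn, hxn⟩

theorem nn_inj {q a N : ℕ} {S : Finset ℕ} (h : Ctx q a N S) : Set.InjOn (nn q a) (S : Set ℕ) := by
  intro x hx y hy hxy
  have hx2 := (nn_spec h (Finset.mem_coe.mp hx)).2
  have hy2 := (nn_spec h (Finset.mem_coe.mp hy)).2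
  have hxy' : nn q a x = nn q a y := hxy
  rw [hxy', ← hy2] at hx2
  exact Nat.pow_left_injective (n := 2) (by norm_num) hx2

theorem image_card {q a N : ℕ} {S : Finset ℕ} (h : Ctx q a N S) {p : ℕ} (hp : p.Prime) (hp3 : 3 ≤ p)
    (hpq : ¬ p ∣ q) : 2 * ((S.image (nn q a)).image (fun n => n % p)).card ≤ p + 1 := by
  classical
  have : Fact p.Prime := ⟨hp⟩
  have hodd : p % 2 = 1 := by
    rcases hp.eq_two_or_odd with h2 | h1
    · omega
    · exact h1
  set Q : Finset (ZMod p) := (Finset.range ((p + 1) / 2)).image (fun x : ℕ => ((x : ZMod p)) ^ 2) with hQ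
  have hQc : Q.card ≤ (p + 1) / 2 := by
    have := Finset.card_image_le (s := Finset.range ((p + 1) / 2)) (f := fun x : ℕ => ((x : ZMod p)) ^ 2)
    rw [Finset.card_range] at this
    exact this
  have hq0 : (q : ZMod p) ≠ 0 := by
    intro h0
    exact hpq ((ZMod.natCast_eq_zero_iff q p).mp h0)
  have hle : ((S.image (nn q a)).image (fun n => n % p)).card ≤ Q.card := by
    apply Finset.card_le_card_of_injOn (fun r : ℕ => ((a : ZMod p) + (q : ZMod p) * (r : ZMod p)))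
    · intro r hr
      have hr' := Finset.mem_coe.mp hr
      rw [Finset.mem_image] at hr'
      obtain ⟨n, hn, hnr⟩ := hr'
      rw [Finset.mem_image] at hn
      obtain ⟨x, hx, hxn⟩ := hn
      have hspec := (nn_spec h hx).2
      have hnr' : (r : ZMod p) = (nn q a x : ZMod p) := by
        rw [← hnr, ← hxn]
        exact ZMod.natCast_mod _ _
      have hval : ((a : ZMod p) + (q : ZMod p) * (r : ZMod p)) = ((x : ZMod p)) ^ 2 := by
        rw [hnr']
        have := congrArg (fun t : ℕ => (t : ZMod p)) hspec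
        simp only [Nat.cast_pow, Nat.cast_add, Nat.cast_mul] at this
        exact this.symm
      rw [Finset.mem_coe]
      show ((a : ZMod p) + (q : ZMod p) * (r : ZMod p)) ∈ Q
      rw [hval, hQ, Finset.mem_image]
      have hy : x % p < p := Nat.mod_lt _ hp.pos
      by_cases hlt : x % p < (p + 1) / 2
      · refine ⟨x % p, Finset.mem_range.mpr hlt, ?_⟩
        show (((x % p : ℕ) : ZMod p)) ^ 2 = (x : ZMod p) ^ 2
        rw [ZMod.natCast_mod]
      · refine ⟨p - x % p, Finset.mem_range.mpr (by omega), ?_⟩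
        show (((p - x % p : ℕ) : ZMod p)) ^ 2 = (x : ZMod p) ^ 2
        rw [Nat.cast_sub hy.le, ZMod.natCast_self, ZMod.natCast_mod]
        ring
    · intro r hr s hs hrs
      have hr' := Finset.mem_coe.mp hr
      have hs' := Finset.mem_coe.mp hs
      rw [Finset.mem_image] at hr' hs'
      obtain ⟨n, _, hnr⟩ := hr'
      obtain ⟨m, _, hms⟩ := hs'
      have hrp : r < p := by rw [← hnr]; exact Nat.mod_lt _ hp.pos
      have hsp : s < p := by rw [← hms]; exact Nat.mod_lt _ hp.pos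
      have h1 : (q : ZMod p) * (r : ZMod p) = (q : ZMod p) * (s : ZMod p) := add_left_cancel hrs
      have h2 : (r : ZMod p) = (s : ZMod p) := mul_left_cancel₀ hq0 h1
      have h3 := (ZMod.natCast_eq_natCast_iff' r s p).mp h2
      rw [Nat.mod_eq_of_lt hrp, Nat.mod_eq_of_lt hsp] at h3
      exact h3
  omega

theorem not_dvd_count : ∃ C : ℝ, 0 < C ∧ ∀ (q a N : ℕ) (S : Finset ℕ), Ctx q a N S →
    (((Finset.range (N + 1)).filter (fun p => p.Prime ∧ 3 ≤ p ∧ p ^ 2 ≤ N ∧ ¬ p ∣ q)).card : ℝ) *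
      S.card ≤ C * N := by
  obtain ⟨C, hC, hls⟩ := ls_set
  refine ⟨C, hC, ?_⟩
  intro q a N S h
  have hcard : (S.image (nn q a)).card = S.card := Finset.card_image_of_injOn (nn_inj h)
  have key := hls N (S.image (nn q a))
    ((Finset.range (N + 1)).filter (fun p => p.Prime ∧ 3 ≤ p ∧ p ^ 2 ≤ N ∧ ¬ p ∣ q)) h.hN
    (by
      intro n hn
      rw [Finset.mem_image] at hn
      obtain ⟨x, hx, hxn⟩ := hn
      rw [← hxn]
      exact (nn_spec h hx).1)
    (by
      intro p hp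
      rw [Finset.mem_filter] at hp
      exact ⟨hp.2.1, hp.2.2.1, hp.2.2.2.1, image_card h hp.2.1 hp.2.2.1 hp.2.2.2.2⟩)
  rw [hcard] at key
  exact key

private theorem LSB_asym (C ε : ℝ) (hε : 0 < ε) : ∃ N₀ : ℕ, ∀ N : ℕ, N₀ ≤ N →
    1 < Real.log N ∧ 4 ≤ (N : ℝ) ∧
    Real.log N ≤ 0.01 * Real.sqrt N ∧ 4 * Real.log N ≤ (N : ℝ) ^ (1 / 4 : ℝ) ∧
    C * Real.log N ≤ 0.1 * (N : ℝ) ^ ε ∧ 100 ≤ Real.sqrt N := by
  have h1 : ∀ᶠ x : ℝ in Filter.atTop, 1 < Real.log x :=
    Real.tendsto_log_atTop.eventually_gt_atTop 1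
  have h2 : ∀ᶠ x : ℝ in Filter.atTop, 10000 ≤ x := Filter.eventually_ge_atTop 10000
  have h3 : ∀ᶠ x : ℝ in Filter.atTop, Real.log x ≤ 0.01 * Real.sqrt x := by
    have := (isLittleO_log_rpow_atTop (r := (1 / 2 : ℝ)) (by norm_num)).def
      (c := 0.01) (by norm_num)
    filter_upwards [this, h1, h2] with x hx hx1 hx2
    rw [Real.norm_of_nonneg (by linarith), Real.norm_of_nonneg (Real.rpow_nonneg (by linarith) _),
      ← Real.sqrt_eq_rpow] at hx
    exact hx
  have h4 : ∀ᶠ x : ℝ in Filter.atTop, 4 * Real.log x ≤ x ^ (1 / 4 : ℝ) := by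
    have := (isLittleO_log_rpow_atTop (r := (1 / 4 : ℝ)) (by norm_num)).def
      (c := 0.25) (by norm_num)
    filter_upwards [this, h1, h2] with x hx hx1 hx2
    rw [Real.norm_of_nonneg (by linarith), Real.norm_of_nonneg (Real.rpow_nonneg (by linarith) _)] at hx
    linarith
  have h5 : ∀ᶠ x : ℝ in Filter.atTop, C * Real.log x ≤ 0.1 * x ^ ε := by
    have := (isLittleO_log_rpow_atTop (r := ε) hε).def
      (c := 0.1 / (|C| + 1)) (by positivity)
    filter_upwards [this, h1, h2] with x hx hx1 hx2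
    rw [Real.norm_of_nonneg (by linarith), Real.norm_of_nonneg (Real.rpow_nonneg (by linarith) _)] at hx
    have hC1 : C ≤ |C| + 1 := by linarith [le_abs_self C]
    have hC0 : 0 < |C| + 1 := by positivity
    calc C * Real.log x ≤ (|C| + 1) * Real.log x :=
          mul_le_mul_of_nonneg_right hC1 (by linarith)
      _ ≤ (|C| + 1) * (0.1 / (|C| + 1) * x ^ ε) := mul_le_mul_of_nonneg_left hx hC0.le
      _ = 0.1 * x ^ ε := by field_simp
  have hall := h1.and (h2.and (h3.and (h4.and h5)))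
  have hall' := tendsto_natCast_atTop_atTop.eventually hall
  obtain ⟨N₀, hN₀⟩ := Filter.eventually_atTop.mp hall'
  refine ⟨N₀, ?_⟩
  intro N hN
  obtain ⟨a1, a2, a3, a4, a5⟩ := hN₀ N hN
  refine ⟨a1, by linarith, a3, a4, a5, ?_⟩
  apply Real.le_sqrt_of_sq_le
  linarith

private theorem LSB_pi (q N : ℕ) (hq : q ≠ 0) :
    Nat.primeCounting (Nat.sqrt N) ≤
      (q.primeFactors.filter (fun p => 3 ≤ p ∧ p ^ 2 ≤ N)).card +
      ((Finset.range (N + 1)).filter (fun p => p.Prime ∧ 3 ≤ p ∧ p ^ 2 ≤ N ∧ ¬ p ∣ q)).card + 1 := by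
  classical
  rw [← Nat.primesLE_card_eq_primeCounting]
  have hsub : Nat.primesLE (Nat.sqrt N) ⊆
      (q.primeFactors.filter (fun p => 3 ≤ p ∧ p ^ 2 ≤ N)) ∪
      ((Finset.range (N + 1)).filter (fun p => p.Prime ∧ 3 ≤ p ∧ p ^ 2 ≤ N ∧ ¬ p ∣ q)) ∪ {2} := by
    intro p hp
    obtain ⟨hple, hpp⟩ := Nat.mem_primesLE.mp hp
    have hp2 : p ^ 2 ≤ N := Nat.le_sqrt'.mp hple
    have hpN : p ≤ N := le_trans (Nat.le_self_pow (by norm_num) p) hp2
    rw [Finset.mem_union, Finset.mem_union, Finset.mem_singleton]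
    by_cases h2 : p = 2
    · right; exact h2
    · left
      have h3 : 3 ≤ p := by
        have := hpp.two_le
        omega
      by_cases hd : p ∣ q
      · left
        rw [Finset.mem_filter, Nat.mem_primeFactors]
        exact ⟨⟨hpp, hd, hq⟩, h3, hp2⟩
      · right
        rw [Finset.mem_filter, Finset.mem_range]
        exact ⟨by omega, hpp, h3, hp2, hd⟩
  calc (Nat.primesLE (Nat.sqrt N)).card ≤ _ := Finset.card_le_card hsub
    _ ≤ _ := Finset.card_union_le _ _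
    _ ≤ _ := by
        rw [Finset.card_singleton]
        exact Nat.add_le_add_right (Finset.card_union_le _ _) 1

theorem many_primes (ε : ℝ) (hε : 0 < ε) : ∃ N₀ : ℕ, ∀ N ≥ N₀, ∀ (q a : ℕ) (S : Finset ℕ),
    Ctx q a N S → (N : ℝ) ^ (1 / 2 + ε) ≤ (S.card : ℝ) →
      Real.sqrt N / (4 * Real.log N) ≤ ((q.primeFactors.filter (fun p => 3 ≤ p ∧ p ^ 2 ≤ N)).card : ℝ) ∧
      (N : ℝ) ^ (1 / 4 : ℝ) ≤ Real.log q := by
  obtain ⟨C, hC, hnd⟩ := not_dvd_count
  obtain ⟨N₀, hN₀⟩ := LSB_asym C ε hε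
  refine ⟨N₀, ?_⟩
  intro N hN q a S h hS
  obtain ⟨hl1, hN4, hlog, h4, h5, h100⟩ := hN₀ N hN
  have hNpos : (0 : ℝ) < N := by linarith
  have hqpos : 0 < q := lt_of_lt_of_le (by norm_num) h.hq
  have hsq : Real.sqrt N * Real.sqrt N = N := Real.mul_self_sqrt hNpos.le
  set F := q.primeFactors.filter (fun p => 3 ≤ p ∧ p ^ 2 ≤ N) with hF
  set G := (Finset.range (N + 1)).filter (fun p => p.Prime ∧ 3 ≤ p ∧ p ^ 2 ≤ N ∧ ¬ p ∣ q) with hG
  have hpi : ((Nat.primeCounting (Nat.sqrt N) : ℕ) : ℝ) ≤ (F.card : ℝ) + (G.card : ℝ) + 1 := by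
    have := LSB_pi q N hqpos.ne'
    exact_mod_cast this
  have hG1 : (G.card : ℝ) * S.card ≤ C * N := hnd q a N S h
  have hpow : (N : ℝ) ^ (1 / 2 + ε) = Real.sqrt N * (N : ℝ) ^ ε := by
    rw [Real.rpow_add hNpos, Real.sqrt_eq_rpow]
  have hNε : 0 < (N : ℝ) ^ ε := Real.rpow_pos_of_pos hNpos ε
  have hsqpos : 0 < Real.sqrt N := by linarith
  have hG2 : (G.card : ℝ) * (Real.sqrt N * (N : ℝ) ^ ε) ≤ C * (Real.sqrt N * Real.sqrt N) := by
    rw [← hpow, hsq]
    exact le_trans (mul_le_mul_of_nonneg_left hS (Nat.cast_nonneg _)) hG1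
  have hG3 : (G.card : ℝ) * (N : ℝ) ^ ε ≤ C * Real.sqrt N := by
    have : Real.sqrt N * ((G.card : ℝ) * (N : ℝ) ^ ε) ≤ Real.sqrt N * (C * Real.sqrt N) := by
      calc Real.sqrt N * ((G.card : ℝ) * (N : ℝ) ^ ε) = (G.card : ℝ) * (Real.sqrt N * (N : ℝ) ^ ε) := by ring
        _ ≤ C * (Real.sqrt N * Real.sqrt N) := hG2
        _ = Real.sqrt N * (C * Real.sqrt N) := by ring
    exact le_of_mul_le_mul_left this hsqpos
  have hG4 : (G.card : ℝ) * Real.log N ≤ 0.1 * Real.sqrt N := by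
    have a1 : ((G.card : ℝ) * Real.log N) * (N : ℝ) ^ ε ≤ (0.1 * Real.sqrt N) * (N : ℝ) ^ ε := by
      calc ((G.card : ℝ) * Real.log N) * (N : ℝ) ^ ε = ((G.card : ℝ) * (N : ℝ) ^ ε) * Real.log N := by ring
        _ ≤ (C * Real.sqrt N) * Real.log N := mul_le_mul_of_nonneg_right hG3 (by linarith)
        _ = Real.sqrt N * (C * Real.log N) := by ring
        _ ≤ Real.sqrt N * (0.1 * (N : ℝ) ^ ε) := mul_le_mul_of_nonneg_left h5 hsqpos.le
        _ = (0.1 * Real.sqrt N) * (N : ℝ) ^ ε := by ring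
    exact le_of_mul_le_mul_right a1 hNε
  have hcheb := Chebyshev.pi_ge' (x := Real.sqrt N) (by linarith)
  have hfloor : ⌊Real.sqrt (N : ℝ)⌋₊ = Nat.sqrt N := Real.nat_floor_real_sqrt_eq_nat_sqrt
  rw [hfloor, Real.log_sqrt hNpos.le] at hcheb
  have hlogpos : 0 < Real.log N := by linarith
  have hlog2 : 0.6931 < Real.log 2 := by
    have := Real.log_two_gt_d9
    linarith
  have hlogs : Real.log (Real.sqrt N + 2) ≤ Real.log N := by
    apply Real.log_le_log (by linarith)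
    have : 100 * Real.sqrt N ≤ Real.sqrt N * Real.sqrt N := mul_le_mul_of_nonneg_right h100 hsqpos.le
    linarith
  rw [div_le_iff₀ (by linarith)] at hcheb
  have hfirst : Real.sqrt N / (4 * Real.log N) ≤ (F.card : ℝ) := by
    rw [div_le_iff₀ (by linarith)]
    have b1 : ((Nat.primeCounting (Nat.sqrt N) : ℕ) : ℝ) * (Real.log N / 2) ≤
        ((F.card : ℝ) + (G.card : ℝ) + 1) * (Real.log N / 2) :=
      mul_le_mul_of_nonneg_right hpi (by linarith)
    have b2 : (Real.sqrt N - 1) * Real.log 2 ≥ (Real.sqrt N - 1) * 0.6931 :=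
      mul_le_mul_of_nonneg_left hlog2.le (by linarith)
    nlinarith [b1, b2, hcheb, hG4, hlogs, hlog, h100]
  refine ⟨hfirst, ?_⟩
  have hFcard : (F.card : ℝ) ≤ Real.log q := by
    have hdvd : (∏ p ∈ F, p) ∣ q := by
      refine dvd_trans ?_ (Nat.prod_primeFactors_dvd q)
      exact Finset.prod_dvd_prod_of_subset _ _ _ (Finset.filter_subset _ _)
    have hle : (∏ p ∈ F, p) ≤ q := Nat.le_of_dvd hqpos hdvd
    have h3le : 3 ^ F.card ≤ ∏ p ∈ F, p := by
      have := Finset.pow_card_le_prod (s := F) (f := fun p : ℕ => p) (n := 3)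
        (fun p hp => (Finset.mem_filter.mp hp).2.1)
      exact this
    have h3q : ((3 : ℝ)) ^ F.card ≤ (q : ℝ) := by
      exact_mod_cast le_trans h3le hle
    have := Real.log_le_log (by positivity) h3q
    rw [Real.log_pow] at this
    have h3 : 1 ≤ Real.log 3 := by
      have he : Real.exp 1 ≤ 3 := by
        have := Real.exp_one_lt_d9
        linarith
      have := Real.log_le_log (Real.exp_pos 1) he
      rw [Real.log_exp] at this
      exact this
    calc (F.card : ℝ) = (F.card : ℝ) * 1 := by ring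
      _ ≤ (F.card : ℝ) * Real.log 3 := mul_le_mul_of_nonneg_left h3 (Nat.cast_nonneg _)
      _ ≤ Real.log q := this
  refine le_trans ?_ hFcard
  refine le_trans ?_ hfirst
  rw [le_div_iff₀ (by linarith)]
  have hq4 : (N : ℝ) ^ (1 / 4 : ℝ) * (N : ℝ) ^ (1 / 4 : ℝ) = Real.sqrt N := by
    rw [← Real.rpow_add hNpos, Real.sqrt_eq_rpow]
    norm_num
  calc (N : ℝ) ^ (1 / 4 : ℝ) * (4 * Real.log N) ≤ (N : ℝ) ^ (1 / 4 : ℝ) * (N : ℝ) ^ (1 / 4 : ℝ) :=
        mul_le_mul_of_nonneg_left h4 (Real.rpow_nonneg hNpos.le _)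
    _ = Real.sqrt N := hq4

end Pool.Agent.Lib.MP_2c6f70_nt.RU
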