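import Pool.Agent.Lib.MP_2c6f70_nt.RU.MB
import Pool.Agent.Lib.MP_2c6f70_nt.RU.LC
import Pool.Agent.Lib.MP_2c6f70_nt.RU.LSB

/-!
# JOB MC: many closed walks

`many_primes`: `Q = q.primeFactors.filter (3 ≤ p ∧ p^2 ≤ N)` has at least `√N / (4 log N)` elements.  `M` = the products `∏_{p ∈ F} p`, `F ∈ Q.powersetCard 10` (the map `F ↦ ∏ p` is injective on sets of primes:
`F` = the prime factors of the product; `Nat.primeFactors_prod`), all odd and `≤ (√N)^10 = N^5` (`p^2 ≤ N` for the ten primes: `(∏ p)^2 ≤ N^10`, `∏ p ≤ N^5`).  `#M = (#Q choose 10) ≥ (#Q / 10)^10` (`Nat.pow_le_choose` or `Nat.choose_le`/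
`(n / k)^k ≤ choose n k`).  `class_rank_one` gives `#C ≥ #V / 2^10`, so `c = #V / 2^10 - 1 ≥ #V / 2^11` for large `N` (`#V ≥ N^(1/4)`).  `moment4` with `T = 8 N`, `X = N^5`, `β = bb q z`:
`#M (#V / 2^11)^4 ≤ N^5 #walks + (#V)^4 * 4 * 8^4 N^4`.  Divide by `N^5`: `#M / N^5 ≥ (1 / (40 log N))^10`, so `#walks ≥ (#V)^4 [2^(-44) (40 log N)^(-10) - 2^14 / N] ≥ (#V)^4 N^(-η)` for large `N`.
-/

set_option autoImplicit false

namespace Pool.Agent.Lib.MP_2c6f70_nt.RU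

open Pool.Agent.Lib.MP_2c6f70_nt Pool.Agent.Lib.MP_2c6f70_nt.KW

private theorem MC_ev (δ κ : ℝ) (hδ : 0 < δ) (hκ : 0 < κ) :
    ∀ᶠ x : ℝ in Filter.atTop, Real.log x ^ 10 ≤ κ * x ^ δ := by
  have h1 := isLittleO_log_rpow_atTop (r := δ / 10) (by positivity)
  have h2 := h1.def (c := κ ^ (1 / 10 : ℝ)) (by positivity)
  filter_upwards [h2, Filter.eventually_ge_atTop 1] with x hx hx1
  have hx0 : (0 : ℝ) ≤ x := by linarith
  rw [Real.norm_of_nonneg (Real.log_nonneg hx1), Real.norm_of_nonneg (by positivity)] at hx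
  calc Real.log x ^ 10 ≤ (κ ^ (1 / 10 : ℝ) * x ^ (δ / 10)) ^ 10 :=
        pow_le_pow_left₀ (Real.log_nonneg hx1) hx 10
    _ = κ * x ^ δ := by
        rw [mul_pow, ← Real.rpow_natCast, ← Real.rpow_mul hκ.le, ← Real.rpow_natCast (x ^ (δ / 10)),
          ← Real.rpow_mul hx0]
        norm_num

private theorem MC_card {N : ℕ} {Q : Finset ℕ} {L : ℝ} (hL : 0 < L)
    (hQ : Real.sqrt N / (4 * L) ≤ (Q.card : ℝ)) (h18 : 18 ≤ Real.sqrt N / (4 * L)) :
    (N : ℝ) ^ 5 / (8 ^ 10 * (Nat.factorial 10 : ℝ) * L ^ 10) ≤ ((Q.card.choose 10 : ℕ) : ℝ) := by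
  refine le_trans ?_ (Nat.pow_le_choose (α := ℝ) 10 Q.card)
  have hQ18 : (18 : ℝ) ≤ Q.card := by linarith
  have hQ18' : 18 ≤ Q.card := by exact_mod_cast hQ18
  have h1 : ((Q.card + 1 - 10 : ℕ) : ℝ) = (Q.card : ℝ) - 9 := by
    rw [Nat.cast_sub (by omega)]
    push_cast
    ring
  have h2 : Real.sqrt N / (8 * L) ≤ ((Q.card + 1 - 10 : ℕ) : ℝ) := by
    rw [h1]
    have h3 : Real.sqrt N / (4 * L) = 2 * (Real.sqrt N / (8 * L)) := by
      field_simp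
      ring
    linarith
  have h4 : (N : ℝ) ^ 5 / (8 ^ 10 * (Nat.factorial 10 : ℝ) * L ^ 10) =
      (Real.sqrt N / (8 * L)) ^ 10 / (Nat.factorial 10 : ℝ) := by
    have h5 : Real.sqrt N ^ 10 = (N : ℝ) ^ 5 := by
      have : Real.sqrt N ^ 10 = (Real.sqrt N ^ 2) ^ 5 := by ring
      rw [this, Real.sq_sqrt (Nat.cast_nonneg N)]
    rw [div_pow, h5, mul_pow]
    have h6 : (Nat.factorial 10 : ℝ) ≠ 0 := by positivity
    field_simp
  rw [h4]
  exact div_le_div_of_nonneg_right (pow_le_pow_left₀ (by positivity) h2 10) (by positivity)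

theorem many_walks (ε η : ℝ) (hε : 0 < ε) (hη : 0 < η) : ∃ N₀ : ℕ, ∀ N ≥ N₀, ∀ (q a : ℕ) (S V : Finset ℕ) (z : ℕ),
    Ctx q a N S → (N : ℝ) ^ (1 / 2 + ε) ≤ (S.card : ℝ) → z ∈ S → V ⊆ S → (N : ℝ) ^ (1 / 4 : ℝ) ≤ (V.card : ℝ) →
      (N : ℝ) ^ (-η) * (V.card : ℝ) ^ 4 ≤ ((walks V (bb q z)).card : ℝ) := by
  obtain ⟨N₁, hN₁⟩ := many_primes ε hε
  set δ : ℝ := min η (1 / 2) with hδ
  have hδ0 : 0 < δ := lt_min hη (by norm_num)
  have hδη : δ ≤ η := min_le_left _ _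
  have hδ2 : δ ≤ 1 / 2 := min_le_right _ _
  set κ : ℝ := 1 / (2 ^ 45 * (8 ^ 10 * (Nat.factorial 10 : ℝ))) with hκ
  have hκ0 : 0 < κ := by
    rw [hκ]
    positivity
  have hev := (MC_ev δ κ hδ0 hκ0).and ((MC_ev (1 / 2) (1 / 72 ^ 10) (by norm_num) (by norm_num)))
  obtain ⟨X₀, hX₀⟩ := Filter.eventually_atTop.1 hev
  refine ⟨max N₁ (max (2 ^ 44) ⌈X₀⌉₊), fun N hN q a S V z hC hS hz hVS hV => ?_⟩
  have hN1 : N₁ ≤ N := (le_max_left _ _).trans hN
  have hN2 : 2 ^ 44 ≤ N := (le_max_left _ _).trans ((le_max_right _ _).trans hN)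
  have hN3 : X₀ ≤ (N : ℝ) := (Nat.le_ceil X₀).trans (by
    exact_mod_cast (le_max_right _ _).trans ((le_max_right _ _).trans hN))
  obtain ⟨hlog1, hlog2⟩ := hX₀ N hN3
  have hNr : (2 : ℝ) ^ 44 ≤ N := by exact_mod_cast hN2
  have hN0 : (0 : ℝ) < N := lt_of_lt_of_le (by positivity) hNr
  set L := Real.log N with hL
  have hLpos : 0 < L := Real.log_pos (lt_of_lt_of_le (by norm_num) hNr)
  obtain ⟨hQ, -⟩ := hN₁ N hN1 q a S hC hS
  set Q := q.primeFactors.filter (fun p => 3 ≤ p ∧ p ^ 2 ≤ N) with hQdef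
  -- `18 ≤ sqrt N / (4 L)`
  have h18 : 18 ≤ Real.sqrt N / (4 * L) := by
    rw [le_div_iff₀ (by positivity)]
    have h1 : L ^ 10 ≤ ((N : ℝ) ^ (1 / 20 : ℝ) / 72) ^ 10 := by
      refine hlog2.trans (le_of_eq ?_)
      rw [div_pow, ← Real.rpow_natCast ((N : ℝ) ^ (1 / 20 : ℝ)), ← Real.rpow_mul hN0.le]
      norm_num
      ring
    have h2 : L ≤ (N : ℝ) ^ (1 / 20 : ℝ) / 72 := le_of_pow_le_pow_left₀ (by norm_num) (by positivity) h1
    have h3 : (N : ℝ) ^ (1 / 20 : ℝ) ≤ Real.sqrt N := by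
      rw [Real.sqrt_eq_rpow]
      exact Real.rpow_le_rpow_of_exponent_le (by linarith [show (1 : ℝ) ≤ 2 ^ 44 by norm_num]) (by norm_num)
    linarith
  -- the products
  set M : Finset ℕ := (Q.powersetCard 10).image (fun F => ∏ p ∈ F, p) with hM
  have hprime : ∀ p ∈ Q, p.Prime := fun p hp => Nat.prime_of_mem_primeFactors (Finset.mem_filter.1 hp).1
  have hMcard : M.card = Q.card.choose 10 := by
    rw [hM, Finset.card_image_of_injOn, Finset.card_powersetCard]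
    intro F hF G hG hFG
    rw [Finset.mem_coe, Finset.mem_powersetCard] at hF hG
    have h1 := Nat.primeFactors_prod (s := F) fun p hp => hprime p (hF.1 hp)
    have h2 := Nat.primeFactors_prod (s := G) fun p hp => hprime p (hG.1 hp)
    simp only at hFG
    rw [← h1, hFG, h2]
  have hMs : ∀ n ∈ M, Odd n ∧ n ≤ N ^ 5 := by
    intro n hn
    rw [hM, Finset.mem_image] at hn
    obtain ⟨F, hF, rfl⟩ := hn
    rw [Finset.mem_powersetCard] at hF
    constructor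
    · refine Finset.prod_induction _ Odd (fun a b => Odd.mul) odd_one fun p hp => ?_
      have h1 := hF.1 hp
      rcases (hprime p h1).eq_two_or_odd' with h2 | h2
      · rw [hQdef, Finset.mem_filter] at h1
        omega
      · exact h2
    · have h1 : ∏ p ∈ F, p ^ 2 ≤ N ^ F.card := Finset.prod_le_pow_card _ _ _ fun p hp => by
        have h2 := hF.1 hp
        rw [hQdef, Finset.mem_filter] at h2
        exact h2.2.2
      rw [Finset.prod_pow, hF.2] at h1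
      have h2 : (∏ p ∈ F, p) ^ 2 ≤ (N ^ 5) ^ 2 := by
        refine h1.trans (le_of_eq ?_)
        ring
      exact (Nat.pow_le_pow_iff_left (by norm_num)).1 h2
  -- sizes
  set v : ℝ := (V.card : ℝ) with hv
  have hv11 : (2 : ℝ) ^ 11 ≤ v := by
    refine le_trans ?_ hV
    calc (2 : ℝ) ^ 11 = ((2 : ℝ) ^ 44) ^ (1 / 4 : ℝ) := by
          rw [← Real.rpow_natCast, ← Real.rpow_natCast, ← Real.rpow_mul (by norm_num)]
          norm_num
      _ ≤ (N : ℝ) ^ (1 / 4 : ℝ) := Real.rpow_le_rpow (by positivity) hNr (by norm_num)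
  have hmom := moment4 (V := V) (β := bb q z) (T := 8 * N) (X := N ^ 5) (bb_comm q z)
    (fun x hx y hy hxy => by
      obtain ⟨-, h1, -, h2⟩ := aa_bb_bounds hC (hVS hx) (hVS hy) hz hxy
      exact ⟨h1, h2⟩) M hMs (v / 2 ^ 10 - 1) (by
        have : (2 : ℝ) ^ 11 / 2 ^ 10 ≤ v / 2 ^ 10 := div_le_div_of_nonneg_right hv11 (by positivity)
        norm_num at this ⊢
        linarith) (by
      intro n hn
      rw [hM, Finset.mem_image] at hn
      obtain ⟨F, hF, rfl⟩ := hn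
      rw [Finset.mem_powersetCard] at hF
      obtain ⟨C, hCV, hcard, t, k, h1, h2, h3⟩ := class_rank_one hC hz hVS (F := F)
        (hF.1.trans (Finset.filter_subset _ _)) (fun p hp h2 => by
          have h1 := hF.1 hp
          rw [hQdef, Finset.mem_filter] at h1
          omega)
      refine ⟨C, hCV, ?_, t, k, h1, h2, h3⟩
      rw [hF.2] at hcard
      have h4 : v ≤ 2 ^ 10 * (C.card : ℝ) := by
        rw [hv]
        exact_mod_cast hcard
      rw [sub_add_cancel, div_le_iff₀ (by positivity)]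
      linarith)
  set W : ℝ := ((walks V (bb q z)).card : ℝ) with hW
  have hMr := MC_card hLpos hQ h18
  rw [← hMcard] at hMr
  -- lower bound of the left side
  have hc : v / 2 ^ 11 ≤ v / 2 ^ 10 - 1 := by
    have h1 : v / 2 ^ 10 = v / 2 ^ 11 + v / 2 ^ 11 := by ring
    have h2 : 1 ≤ v / 2 ^ 11 := by
      rw [le_div_iff₀ (by positivity), one_mul]
      exact hv11
    linarith
  have hv0 : 0 ≤ v := Nat.cast_nonneg _
  have h1 : (N : ℝ) ^ 5 / (8 ^ 10 * (Nat.factorial 10 : ℝ) * L ^ 10) * (v / 2 ^ 11) ^ 4 ≤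
      (N : ℝ) ^ 5 * W + v ^ 4 * (4 * (8 * N) ^ 4) := by
    refine le_trans ?_ (hmom.trans (le_of_eq ?_))
    · exact mul_le_mul hMr (pow_le_pow_left₀ (by positivity) hc 4) (by positivity) (Nat.cast_nonneg _)
    · push_cast
      ring
  -- divide by `N ^ 5`
  have h2 : 2 * κ / L ^ 10 * v ^ 4 ≤ W + v ^ 4 * (2 ^ 14 / N) := by
    have h3 : (N : ℝ) ^ 5 / (8 ^ 10 * (Nat.factorial 10 : ℝ) * L ^ 10) * (v / 2 ^ 11) ^ 4 =
        (N : ℝ) ^ 5 * (2 * κ / L ^ 10 * v ^ 4) := by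
      rw [hκ]
      have h6 : (Nat.factorial 10 : ℝ) ≠ 0 := by positivity
      field_simp
    have h4 : (N : ℝ) ^ 5 * W + v ^ 4 * (4 * (8 * N) ^ 4) = (N : ℝ) ^ 5 * (W + v ^ 4 * (2 ^ 14 / N)) := by
      field_simp
      ring
    rw [h3, h4] at h1
    exact le_of_mul_le_mul_left h1 (by positivity)
  have h3 : 2 * (N : ℝ) ^ (-δ) ≤ 2 * κ / L ^ 10 := by
    rw [le_div_iff₀ (by positivity)]
    calc 2 * (N : ℝ) ^ (-δ) * L ^ 10 ≤ 2 * (N : ℝ) ^ (-δ) * (κ * (N : ℝ) ^ δ) :=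
          mul_le_mul_of_nonneg_left hlog1 (by positivity)
      _ = 2 * κ * ((N : ℝ) ^ (-δ) * (N : ℝ) ^ δ) := by ring
      _ = 2 * κ := by rw [← Real.rpow_add hN0, neg_add_cancel, Real.rpow_zero, mul_one]
  have h4 : 2 ^ 14 / (N : ℝ) ≤ (N : ℝ) ^ (-δ) := by
    have h5 : (N : ℝ) ^ (-(1 / 2) : ℝ) ≤ (N : ℝ) ^ (-δ) :=
      Real.rpow_le_rpow_of_exponent_le (by linarith [show (1 : ℝ) ≤ 2 ^ 44 by norm_num]) (by linarith)
    refine le_trans ?_ h5
    rw [div_le_iff₀ hN0]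
    have h6 : (N : ℝ) ^ (-(1 / 2) : ℝ) * N = (N : ℝ) ^ (1 / 2 : ℝ) := by
      nth_rewrite 2 [← Real.rpow_one (N : ℝ)]
      rw [← Real.rpow_add hN0]
      norm_num
    rw [h6]
    calc (2 : ℝ) ^ 14 ≤ ((2 : ℝ) ^ 44) ^ (1 / 2 : ℝ) := by
          rw [← Real.rpow_natCast, ← Real.rpow_natCast, ← Real.rpow_mul (by norm_num)]
          exact Real.rpow_le_rpow_of_exponent_le (by norm_num) (by norm_num)
      _ ≤ (N : ℝ) ^ (1 / 2 : ℝ) := Real.rpow_le_rpow (by positivity) hNr (by norm_num)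
  have h5 : (N : ℝ) ^ (-η) ≤ (N : ℝ) ^ (-δ) :=
    Real.rpow_le_rpow_of_exponent_le (by linarith [show (1 : ℝ) ≤ 2 ^ 44 by norm_num]) (by linarith)
  have h6 : 2 * (N : ℝ) ^ (-δ) * v ^ 4 ≤ 2 * κ / L ^ 10 * v ^ 4 := mul_le_mul_of_nonneg_right h3 (by positivity)
  have h7 : v ^ 4 * (2 ^ 14 / N) ≤ v ^ 4 * (N : ℝ) ^ (-δ) := mul_le_mul_of_nonneg_left h4 (by positivity)
  have h8 : (N : ℝ) ^ (-η) * v ^ 4 ≤ (N : ℝ) ^ (-δ) * v ^ 4 := mul_le_mul_of_nonneg_right h5 (by positivity)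
  linarith

end Pool.Agent.Lib.MP_2c6f70_nt.RU
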