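import Pool.Agent.Lib.MP_2c6f70_nt.RU.LA
import Pool.Agent.Lib.MP_2c6f70_nt.RU.LSB

/-!
# JOB PB: few pairs whose index difference has a large divisor of a special kind

`ext_count`.  `m' = m / gcd (m, cq q) ≥ m / 8` (`cq q ∣ 8`); `m ∣ cq q * dn` gives `m' ∣ dn = |n_j - n_k|` (`Nat.Coprime.dvd_of_dvd_mul_left` after dividing by the gcd), so `n_k ≡ n_j (mod m')`
(`Nat.dist`, `Nat.modEq_iff_dvd`).  `Ext` with `m'` and `r = n_j`: `≤ #S m'^(-σ) + 2 ≤ #S (m/8)^(-σ) + 2 ≤ 8 #S m^(-σ) + 2` (`8^σ ≤ 8`).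

`bad_div`.  For fixed `j ∈ V` the set of `k` is contained in the union over the divisors `m ≥ Y` of `c j` of the sets of `ext_count` (with `m^(-σ) ≤ Y^(-σ)`, `Y ≥ 1`); at most `D` divisors.

`bad_sq`.  For fixed `j` and `k ≠ j`: `f^2 ∣ cq * dn`, `1 ≤ cq * dn ≤ 8 N` (`dn ≥ 1` because `nn` is injective), so `f ≤ sqrt (8 N)`: union over the integers `f` with `Y ≤ f ≤ sqrt (8N)`:
`∑_f (8 #S f^(-1-2ε) + 2) ≤ 8 #S (Y^(-1-2ε) + ∫_Y^∞ t^(-1-2ε) dt) + 2 sqrt (8N) ≤ 8 #S Y^(-2ε) (1 + 1/(2ε)) + 2 sqrt (8N) ≤ (8/ε) #S Y^(-2ε) + 2 sqrt(8N)` for `ε ≤ 1/4` (`1 + 1/(2ε) ≤ 1/ε`).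
For the sum: `f^(-1-2ε) ≤ (1/(2ε)) ((f-1)^(-2ε) - f^(-2ε))` (mean value theorem) telescopes; or compare with known sums; any proof is fine (constant `16/ε` leaves room; `Y ≥ 2`).
-/

set_option autoImplicit false

namespace Pool.Agent.Lib.MP_2c6f70_nt.RU

open Pool.Agent.Lib.MP_2c6f70_nt Pool.Agent.Lib.MP_2c6f70_nt.KW

private theorem PB_dvd {m c d : ℕ} (h : m ∣ c * d) (hm : 0 < m) : m / Nat.gcd m c ∣ d := by
  have hg : 0 < Nat.gcd m c := Nat.gcd_pos_of_pos_left c hm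
  have h1 : m / Nat.gcd m c ∣ c / Nat.gcd m c * d := by
    have h2 : Nat.gcd m c * (m / Nat.gcd m c) ∣ Nat.gcd m c * (c / Nat.gcd m c * d) := by
      rw [← mul_assoc, Nat.mul_div_cancel' (Nat.gcd_dvd_left m c),
        Nat.mul_div_cancel' (Nat.gcd_dvd_right m c)]
      exact h
    exact Nat.dvd_of_mul_dvd_mul_left hg h2
  exact (Nat.coprime_div_gcd_div_gcd hg).dvd_of_dvd_mul_left h1

private theorem PB_mod {m a b : ℕ} (h : m ∣ Nat.dist a b) : b % m = a % m := by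
  rcases le_total a b with hab | hab
  · rw [Nat.dist_eq_sub_of_le hab] at h
    exact ((Nat.modEq_iff_dvd' hab).2 h).symm
  · rw [Nat.dist_eq_sub_of_le_right hab] at h
    exact (Nat.modEq_iff_dvd' hab).2 h

theorem ext_count {q a N : ℕ} {S : Finset ℕ} {σ : ℝ} (h : Ctx q a N S) (hE : Ext q a S σ) (hσ : 0 ≤ σ)
    (hσ1 : σ ≤ 1) {j : ℕ} (hj : j ∈ S) {m : ℕ} (hm : 1 ≤ m) :
    ((S.filter (fun k => m ∣ cq q * dn q a j k)).card : ℝ) ≤ 8 * S.card * (m : ℝ) ^ (-σ) + 2 := by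
  have hq : q ≠ 0 := by have := h.hq; omega
  have h8 := (prod_mr hq).2
  set g := Nat.gcd m (cq q) with hg
  have hg0 : 0 < g := Nat.gcd_pos_of_pos_left _ hm
  have hg8 : g ≤ 8 := Nat.le_of_dvd (by norm_num) ((Nat.gcd_dvd_right m (cq q)).trans h8)
  set m' := m / g with hm'
  have hmm : g * m' = m := Nat.mul_div_cancel' (Nat.gcd_dvd_left m (cq q))
  have hm'0 : 1 ≤ m' := by
    rcases Nat.eq_zero_or_pos m' with h0 | h0
    · rw [h0, mul_zero] at hmm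
      omega
    · exact h0
  have h1 := hE m' (nn q a j) hm'0
  have h2 : (S.filter (fun k => m ∣ cq q * dn q a j k)).card ≤
      (S.filter (fun x => nn q a x % m' = nn q a j % m')).card := by
    refine Finset.card_le_card ?_
    intro k hk
    rw [Finset.mem_filter] at hk ⊢
    exact ⟨hk.1, PB_mod (PB_dvd hk.2 hm)⟩
  have h3 : ((S.filter (fun k => m ∣ cq q * dn q a j k)).card : ℝ) ≤
      S.card * (m' : ℝ) ^ (-σ) + 2 := le_trans (by exact_mod_cast h2) h1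
  have hmR : (0 : ℝ) < m := by exact_mod_cast hm
  have hm'R : (0 : ℝ) < m' := by exact_mod_cast hm'0
  have h4 : (m' : ℝ) ^ (-σ) ≤ 8 * (m : ℝ) ^ (-σ) := by
    have h5 : (m : ℝ) / 8 ≤ m' := by
      have h6 : (m : ℝ) = g * m' := by exact_mod_cast hmm.symm
      have h7 : (g : ℝ) ≤ 8 := by exact_mod_cast hg8
      rw [h6, div_le_iff₀ (by norm_num : (0 : ℝ) < 8)]
      nlinarith
    calc (m' : ℝ) ^ (-σ) ≤ ((m : ℝ) / 8) ^ (-σ) :=
          Real.rpow_le_rpow_of_nonpos (by positivity) h5 (by linarith)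
      _ = (m : ℝ) ^ (-σ) * (8 : ℝ) ^ σ := by
          rw [Real.div_rpow hmR.le (by norm_num), Real.rpow_neg (by norm_num : (0 : ℝ) ≤ 8) σ,
            div_inv_eq_mul]
      _ ≤ (m : ℝ) ^ (-σ) * 8 := by
          refine mul_le_mul_of_nonneg_left ?_ (Real.rpow_nonneg hmR.le _)
          calc (8 : ℝ) ^ σ ≤ (8 : ℝ) ^ (1 : ℝ) :=
                Real.rpow_le_rpow_of_exponent_le (by norm_num) hσ1
            _ = 8 := Real.rpow_one 8
      _ = 8 * (m : ℝ) ^ (-σ) := by ring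
  have h6 : (S.card : ℝ) * (m' : ℝ) ^ (-σ) ≤ 8 * S.card * (m : ℝ) ^ (-σ) := by
    calc (S.card : ℝ) * (m' : ℝ) ^ (-σ) ≤ S.card * (8 * (m : ℝ) ^ (-σ)) :=
          mul_le_mul_of_nonneg_left h4 (Nat.cast_nonneg _)
      _ = 8 * S.card * (m : ℝ) ^ (-σ) := by ring
  linarith

private theorem PB_fiber {V : Finset ℕ} (P : ℕ × ℕ → Prop) [DecidablePred P] {B : ℝ}
    (h : ∀ j ∈ V, ∀ G : Finset ℕ, (∀ k ∈ G, k ∈ V ∧ P (j, k)) → (G.card : ℝ) ≤ B) :
    (((V ×ˢ V).filter P).card : ℝ) ≤ V.card * B := by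
  rw [Finset.card_filter, Finset.sum_product]
  push_cast
  calc ∑ j ∈ V, ∑ k ∈ V, (if P (j, k) then (1 : ℝ) else 0)
      = ∑ j ∈ V, ((V.filter (fun k => P (j, k))).card : ℝ) := by
        refine Finset.sum_congr rfl fun j _ => ?_
        rw [Finset.card_filter]
        push_cast
        rfl
    _ ≤ ∑ _j ∈ V, B := Finset.sum_le_sum fun j hj => h j hj _ fun k hk => by
        rw [Finset.mem_filter] at hk
        exact hk
    _ = V.card * B := by rw [Finset.sum_const, nsmul_eq_mul]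

open Classical in
theorem bad_div {q a N : ℕ} {S V : Finset ℕ} {σ D Y : ℝ} (h : Ctx q a N S) (hE : Ext q a S σ) (hσ : 0 ≤ σ)
    (hσ1 : σ ≤ 1) (hV : V ⊆ S) (hY : 1 ≤ Y) (c : ℕ → ℕ) (hc : ∀ j ∈ V, 1 ≤ c j → ((c j).divisors.card : ℝ) ≤ D)
    (hD : 0 ≤ D) :
    (((V ×ˢ V).filter (fun t => 1 ≤ c t.1 ∧ ∃ m, m ∣ c t.1 ∧ Y ≤ (m : ℝ) ∧ m ∣ cq q * dn q a t.1 t.2)).card : ℝ) ≤
      V.card * (D * (8 * S.card * Y ^ (-σ) + 2)) := by
  refine PB_fiber _ fun j hj G hG => ?_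
  have hB : (0 : ℝ) ≤ 8 * S.card * Y ^ (-σ) + 2 := by
    have : (0 : ℝ) ≤ Y ^ (-σ) := Real.rpow_nonneg (by linarith) _
    positivity
  rcases Nat.eq_zero_or_pos (c j) with h0 | h0
  · have h1 : G = ∅ := by
      refine Finset.eq_empty_iff_forall_notMem.2 ?_
      intro k hk
      have := (hG k hk).2.1
      simp only at this
      omega
    rw [h1, Finset.card_empty, Nat.cast_zero]
    positivity
  · set F := (c j).divisors.filter (fun m : ℕ => Y ≤ (m : ℝ)) with hF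
    have h1 : G ⊆ F.biUnion (fun m => S.filter (fun k => m ∣ cq q * dn q a j k)) := by
      intro k hk
      obtain ⟨hkV, _, m, hm1, hm2, hm3⟩ := hG k hk
      rw [Finset.mem_biUnion]
      exact ⟨m, Finset.mem_filter.2 ⟨Nat.mem_divisors.2 ⟨hm1, by omega⟩, hm2⟩,
        Finset.mem_filter.2 ⟨hV hkV, hm3⟩⟩
    have h3 : (((F.biUnion (fun m => S.filter (fun k => m ∣ cq q * dn q a j k))).card : ℕ) : ℝ) ≤
        ∑ m ∈ F, ((S.filter (fun k => m ∣ cq q * dn q a j k)).card : ℝ) := by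
      exact_mod_cast Finset.card_biUnion_le
    have h4 : ∑ m ∈ F, ((S.filter (fun k => m ∣ cq q * dn q a j k)).card : ℝ) ≤
        ∑ _m ∈ F, (8 * S.card * Y ^ (-σ) + 2 : ℝ) := by
      refine Finset.sum_le_sum fun m hm => ?_
      rw [hF, Finset.mem_filter, Nat.mem_divisors] at hm
      have hm1 : 1 ≤ m := Nat.pos_of_dvd_of_pos hm.1.1 h0
      refine (ext_count h hE hσ hσ1 (hV hj) hm1).trans ?_
      have h5 : (m : ℝ) ^ (-σ) ≤ Y ^ (-σ) :=
        Real.rpow_le_rpow_of_nonpos (by linarith) hm.2 (by linarith)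
      have h6 : 8 * (S.card : ℝ) * (m : ℝ) ^ (-σ) ≤ 8 * S.card * Y ^ (-σ) :=
        mul_le_mul_of_nonneg_left h5 (by positivity)
      linarith
    have h5 : (F.card : ℝ) ≤ D := by
      have h6 : F.card ≤ (c j).divisors.card := Finset.card_filter_le _ _
      exact le_trans (by exact_mod_cast h6) (hc j hj h0)
    calc (G.card : ℝ) ≤ (((F.biUnion (fun m => S.filter (fun k => m ∣ cq q * dn q a j k))).card : ℕ) : ℝ) := by
          exact_mod_cast Finset.card_le_card h1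
      _ ≤ ∑ _m ∈ F, (8 * S.card * Y ^ (-σ) + 2 : ℝ) := h3.trans h4
      _ = F.card * (8 * S.card * Y ^ (-σ) + 2) := by rw [Finset.sum_const, nsmul_eq_mul]
      _ ≤ D * (8 * S.card * Y ^ (-σ) + 2) := mul_le_mul_of_nonneg_right h5 hB

private theorem PB_step {f ε : ℝ} (hf : 2 ≤ f) (hε : 0 < ε) :
    2 * ε * f ^ (-(1 + 2 * ε)) ≤ (f - 1) ^ (-(2 * ε)) - f ^ (-(2 * ε)) := by
  have hf0 : 0 < f := by linarith
  have hx : 0 < 1 - f⁻¹ := by
    have : f⁻¹ < 1 := inv_lt_one_of_one_lt₀ (by linarith)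
    linarith
  have h1 : 1 + 2 * ε * f⁻¹ ≤ (1 - f⁻¹) ^ (-(2 * ε)) := by
    rw [Real.rpow_def_of_pos hx]
    have h2 : Real.log (1 - f⁻¹) ≤ -f⁻¹ := by
      have := Real.log_le_sub_one_of_pos hx
      linarith
    have h3 : 2 * ε * f⁻¹ ≤ Real.log (1 - f⁻¹) * -(2 * ε) := by nlinarith
    calc 1 + 2 * ε * f⁻¹ ≤ Real.exp (2 * ε * f⁻¹) := by
          have := Real.add_one_le_exp (2 * ε * f⁻¹)
          linarith
      _ ≤ Real.exp (Real.log (1 - f⁻¹) * -(2 * ε)) := Real.exp_le_exp.2 h3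
  have h2 : f - 1 = f * (1 - f⁻¹) := by field_simp
  rw [h2, Real.mul_rpow hf0.le hx.le]
  have h3 : 0 < f ^ (-(2 * ε)) := Real.rpow_pos_of_pos hf0 _
  have h4 : f ^ (-(1 + 2 * ε)) = f ^ (-(2 * ε)) * f⁻¹ := by
    rw [← Real.rpow_neg_one f, ← Real.rpow_add hf0]
    congr 1
    ring
  rw [h4]
  have h5 := mul_le_mul_of_nonneg_left h1 h3.le
  linarith

private theorem PB_sum (F M : ℕ) (hF : 2 ≤ F) (hFM : F ≤ M) {ε : ℝ} (hε : 0 < ε) :
    ∑ f ∈ Finset.Ico F M, (f : ℝ) ^ (-(1 + 2 * ε)) ≤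
      1 / (2 * ε) * (((F : ℝ) - 1) ^ (-(2 * ε)) - ((M : ℝ) - 1) ^ (-(2 * ε))) := by
  induction M, hFM using Nat.le_induction with
  | base => simp
  | succ M hM ih =>
    rw [Finset.sum_Ico_succ_top hM]
    have h1 := PB_step (f := (M : ℝ)) (by exact_mod_cast hF.trans hM) hε
    have h2 : (M : ℝ) ^ (-(1 + 2 * ε)) ≤
        1 / (2 * ε) * (((M : ℝ) - 1) ^ (-(2 * ε)) - (M : ℝ) ^ (-(2 * ε))) := by
      rw [one_div, ← div_eq_inv_mul, le_div_iff₀ (by positivity)]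
      linarith
    push_cast
    rw [add_sub_cancel_right]
    have h3 : 1 / (2 * ε) * (((F : ℝ) - 1) ^ (-(2 * ε)) - (M : ℝ) ^ (-(2 * ε))) =
      1 / (2 * ε) * (((F : ℝ) - 1) ^ (-(2 * ε)) - ((M : ℝ) - 1) ^ (-(2 * ε))) +
      1 / (2 * ε) * (((M : ℝ) - 1) ^ (-(2 * ε)) - (M : ℝ) ^ (-(2 * ε))) := by ring
    linarith

private theorem PB_tail {Y ε : ℝ} (hY : 2 ≤ Y) (hε : 0 < ε) (hε1 : ε ≤ 1 / 4) (M : ℕ) :
    ∑ f ∈ (Finset.range M).filter (fun f : ℕ => Y ≤ (f : ℝ)), ((f : ℕ) : ℝ) ^ (-(1 + 2 * ε)) ≤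
      1 / ε * Y ^ (-(2 * ε)) := by
  set F := ⌈Y⌉₊ with hF
  have hFY : Y ≤ F := Nat.le_ceil Y
  have hF2 : 2 ≤ F := by
    have : (2 : ℝ) ≤ F := hY.trans hFY
    exact_mod_cast this
  have hpos : 0 ≤ 1 / ε * Y ^ (-(2 * ε)) := by
    have := Real.rpow_nonneg (show (0 : ℝ) ≤ Y by linarith) (-(2 * ε))
    positivity
  have hsub : (Finset.range M).filter (fun f : ℕ => Y ≤ (f : ℝ)) ⊆ Finset.Ico F M := by
    intro f hf
    rw [Finset.mem_filter, Finset.mem_range] at hf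
    exact Finset.mem_Ico.2 ⟨Nat.ceil_le.2 hf.2, hf.1⟩
  refine (Finset.sum_le_sum_of_subset_of_nonneg hsub
    (fun f _ _ => Real.rpow_nonneg (Nat.cast_nonneg f) _)).trans ?_
  rcases le_or_gt F M with hFM | hFM
  · refine (PB_sum F M hF2 hFM hε).trans ?_
    have h1 : 0 ≤ ((M : ℝ) - 1) ^ (-(2 * ε)) := by
      refine Real.rpow_nonneg ?_ _
      have : (2 : ℝ) ≤ M := by exact_mod_cast hF2.trans hFM
      linarith
    have h2 : ((F : ℝ) - 1) ^ (-(2 * ε)) ≤ 2 * Y ^ (-(2 * ε)) := by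
      have hY0 : 0 < Y := by linarith
      calc ((F : ℝ) - 1) ^ (-(2 * ε)) ≤ (Y / 2) ^ (-(2 * ε)) :=
            Real.rpow_le_rpow_of_nonpos (by linarith) (by linarith) (by linarith)
        _ = Y ^ (-(2 * ε)) * 2 ^ (2 * ε) := by
            rw [Real.div_rpow hY0.le (by norm_num), Real.rpow_neg (by norm_num : (0 : ℝ) ≤ 2),
              div_inv_eq_mul]
        _ ≤ Y ^ (-(2 * ε)) * 2 := by
            refine mul_le_mul_of_nonneg_left ?_ (Real.rpow_nonneg hY0.le _)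
            calc (2 : ℝ) ^ (2 * ε) ≤ 2 ^ (1 : ℝ) :=
                  Real.rpow_le_rpow_of_exponent_le (by norm_num) (by linarith)
              _ = 2 := Real.rpow_one 2
        _ = 2 * Y ^ (-(2 * ε)) := by ring
    calc 1 / (2 * ε) * (((F : ℝ) - 1) ^ (-(2 * ε)) - ((M : ℝ) - 1) ^ (-(2 * ε)))
        ≤ 1 / (2 * ε) * (2 * Y ^ (-(2 * ε))) :=
          mul_le_mul_of_nonneg_left (by linarith) (by positivity)
      _ = 1 / ε * Y ^ (-(2 * ε)) := by
          field_simp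
  · rw [Finset.Ico_eq_empty_of_le hFM.le, Finset.sum_empty]
    exact hpos

open Classical in
theorem bad_sq {q a N : ℕ} {S V : Finset ℕ} {ε Y : ℝ} (h : Ctx q a N S) (hE : Ext q a S (1 / 2 + ε))
    (hε : 0 < ε) (hε1 : ε ≤ 1 / 4) (hV : V ⊆ S) (hY : 2 ≤ Y) :
    (((V ×ˢ V).filter (fun t => t.1 ≠ t.2 ∧ ∃ f : ℕ, Y ≤ (f : ℝ) ∧ f ^ 2 ∣ cq q * dn q a t.1 t.2)).card : ℝ) ≤
      V.card * (16 / ε * S.card * Y ^ (-(2 * ε)) + 2 * Real.sqrt (8 * N)) := by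
  refine PB_fiber _ fun j hj G hG => ?_
  have hq : q ≠ 0 := by have := h.hq; omega
  have hpm := prod_mr hq
  have hcq0 : 0 < cq q := Nat.pos_of_dvd_of_pos hpm.2 (by norm_num)
  have hcq8 : cq q ≤ 8 := Nat.le_of_dvd (by norm_num) hpm.2
  set R := Nat.sqrt (8 * N) with hR
  set F := (Finset.range (R + 1)).filter (fun f : ℕ => Y ≤ (f : ℝ)) with hF
  have h1 : G ⊆ F.biUnion (fun f => S.filter (fun k => f ^ 2 ∣ cq q * dn q a j k)) := by
    intro k hk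
    obtain ⟨hkV, hne, f, hf1, hf2⟩ := hG k hk
    simp only at hne hf2
    rw [Finset.mem_biUnion]
    obtain ⟨hd1, hd2⟩ := dn_bounds h (hV hj) (hV hkV) hne
    have h2 : f ^ 2 ≤ 8 * N := by
      refine (Nat.le_of_dvd (Nat.mul_pos hcq0 hd1) hf2).trans ?_
      exact Nat.mul_le_mul hcq8 hd2.le
    have h3 : f ≤ R := by
      rw [hR, Nat.le_sqrt, ← sq]
      exact h2
    exact ⟨f, Finset.mem_filter.2 ⟨Finset.mem_range.2 (by omega), hf1⟩,
      Finset.mem_filter.2 ⟨hV hkV, hf2⟩⟩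
  have h3 : (((F.biUnion (fun f => S.filter (fun k => f ^ 2 ∣ cq q * dn q a j k))).card : ℕ) : ℝ) ≤
      ∑ f ∈ F, ((S.filter (fun k => f ^ 2 ∣ cq q * dn q a j k)).card : ℝ) := by
    exact_mod_cast Finset.card_biUnion_le
  have h4 : ∑ f ∈ F, ((S.filter (fun k => f ^ 2 ∣ cq q * dn q a j k)).card : ℝ) ≤
      ∑ f ∈ F, (8 * S.card * (f : ℝ) ^ (-(1 + 2 * ε)) + 2 : ℝ) := by
    refine Finset.sum_le_sum fun f hf => ?_
    rw [hF, Finset.mem_filter] at hf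
    have hf1 : 1 ≤ f := by
      have : (1 : ℝ) ≤ f := by linarith [hf.2]
      exact_mod_cast this
    refine (ext_count h hE (by linarith) (by linarith) (hV hj)
      (Nat.one_le_pow 2 f hf1)).trans (le_of_eq ?_)
    have h5 : (((f ^ 2 : ℕ) : ℝ)) ^ (-(1 / 2 + ε)) = (f : ℝ) ^ (-(1 + 2 * ε)) := by
      push_cast
      rw [← Real.rpow_natCast, ← Real.rpow_mul (Nat.cast_nonneg f)]
      congr 1
      push_cast
      ring
    rw [h5]
  have h5 : (F.card : ℝ) ≤ Real.sqrt (8 * N) := by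
    have h6 : F ⊆ Finset.Icc 1 R := by
      intro f hf
      rw [hF, Finset.mem_filter, Finset.mem_range] at hf
      have hf1 : 1 ≤ f := by
        have : (1 : ℝ) ≤ f := by linarith [hf.2]
        exact_mod_cast this
      exact Finset.mem_Icc.2 ⟨hf1, by omega⟩
    have h7 := Finset.card_le_card h6
    rw [Nat.card_Icc, Nat.add_sub_cancel] at h7
    have h8 : (R : ℝ) ≤ Real.sqrt (8 * N) := by
      refine Real.le_sqrt_of_sq_le ?_
      have h9 : R * R ≤ 8 * N := Nat.sqrt_le (8 * N)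
      have h10 : ((R * R : ℕ) : ℝ) ≤ ((8 * N : ℕ) : ℝ) := by exact_mod_cast h9
      push_cast at h10
      rw [sq]
      exact h10
    exact le_trans (by exact_mod_cast h7) h8
  have h6 : ∑ f ∈ F, (8 * S.card * (f : ℝ) ^ (-(1 + 2 * ε)) + 2 : ℝ) =
      8 * S.card * ∑ f ∈ F, (f : ℝ) ^ (-(1 + 2 * ε)) + 2 * F.card := by
    rw [Finset.sum_add_distrib, ← Finset.mul_sum, Finset.sum_const, nsmul_eq_mul]
    ring
  have h7 := PB_tail hY hε hε1 (R + 1)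
  rw [← hF] at h7
  have hYp : (0 : ℝ) ≤ Y ^ (-(2 * ε)) := Real.rpow_nonneg (by linarith) _
  calc (G.card : ℝ) ≤ (((F.biUnion (fun f => S.filter (fun k => f ^ 2 ∣ cq q * dn q a j k))).card : ℕ) : ℝ) := by
        exact_mod_cast Finset.card_le_card h1
    _ ≤ ∑ f ∈ F, (8 * S.card * (f : ℝ) ^ (-(1 + 2 * ε)) + 2 : ℝ) := h3.trans h4
    _ = 8 * S.card * ∑ f ∈ F, (f : ℝ) ^ (-(1 + 2 * ε)) + 2 * F.card := h6
    _ ≤ 8 * S.card * (1 / ε * Y ^ (-(2 * ε))) + 2 * Real.sqrt (8 * N) :=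
        add_le_add (mul_le_mul_of_nonneg_left h7 (by positivity))
          (mul_le_mul_of_nonneg_left h5 (by norm_num))
    _ = 8 / ε * S.card * Y ^ (-(2 * ε)) + 2 * Real.sqrt (8 * N) := by ring
    _ ≤ 16 / ε * S.card * Y ^ (-(2 * ε)) + 2 * Real.sqrt (8 * N) := by
        have h8 : (0 : ℝ) ≤ 8 / ε * S.card * Y ^ (-(2 * ε)) := by positivity
        have h9 : 16 / ε * S.card * Y ^ (-(2 * ε)) = 2 * (8 / ε * S.card * Y ^ (-(2 * ε))) := by
          ring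
        rw [h9]
        linarith

end Pool.Agent.Lib.MP_2c6f70_nt.RU
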