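import Pool.Agent.Lib.MP_2c6f70_nt.RU.PA
import Pool.Agent.Lib.MP_2c6f70_nt.RU.PB
import Pool.Agent.Lib.MP_2c6f70_nt.RU.MC
import Pool.Agent.Lib.MP_2a816b_nt.Divisor

/-!
# JOB PC: a common value of `b` for many pairs

Put `η' = min η 1`, `η₁ = ε η' / 100`, `y = 2 ρ + ρ / (2 ε) + η' / 8`, `Y = N^y`.  `#V ≥ N^(-ρ) #S ≥ N^(1/2 + ε/2)`.
`many_walks` (with `η₁`), `exists_il`: `i, l ∈ V`, and a set `P0` of pairs `(j, k)` with `#P0 ≥ N^(-η₁) #V^2`, `i ≠ j ≠ k ≠ l ≠ i`, `bb i j * bb j k * bb k l * bb l i` a square.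
For `(j, k) ∈ P0` apply `sq_split` to `b = bb j k`, `c = bb i j`, `d = bb k l * bb l i` (all `≥ 1`): `bb j k = m1 m2 f^2`.  Everything divides `bb j k ∣ aa * bb = cq * dn j k` (`aa_bb`).
* `Y ≤ m1`: such pairs are in the set of `bad_div` with `c j = bb i j` (`≤ 8 N`; `divisor_bound` with a small exponent: `D = N^η₁` for large `N`; if `j = i` then `bb i i` might be `0` or anything: use `c j = if j = i then 0 else bb i j`).
* `Y ≤ m2`: same with the roles of `j` and `k` exchanged (swap of pairs is a bijection, `dn_comm`), `c k = bb k l * bb l i ≤ 64 N^2` (`0` if `k = l`).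
* `Y ≤ f`: `bad_sq`.
Each of the three sets has at most `N^(-η₁) #V^2 / 8` elements for large `N`:
`N^η₁ (8 #S Y^(-1/2-ε) + 2) ≤ 8 N^(η₁+ρ) #V Y^(-1/2) + 2 N^η₁` with `y/2 ≥ ρ + η'/16 ≥ ρ + 3 η₁`; `(16/ε) N^ρ #V Y^(-2ε)` with `2 ε y ≥ ρ + ε η'/4 ≥ ρ + 3 η₁`; `2 sqrt(8N) ≤ N^(-η₁) #V / 16` because `#V ≥ N^(1/2+ε/2)`, `η₁ < ε/4`.
The remaining at least `N^(-η₁) #V^2 / 2` pairs have `bb j k < Y^4`; pigeonhole over the values `1, ..., ⌊Y^4⌋`: some `b₀` with at least `N^(-η₁) #V^2 / (2 Y^4)` pairs, and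
`4 y + η₁ + small ≤ 8 ρ + 2 ρ/ε + η'/2 + η'/100 + .. ≤ 4 ρ / ε + η ≤ 8 ρ/ε + η` (`8 ρ ≤ 2 ρ/ε` because `ε ≤ 1/4`).
-/

set_option autoImplicit false

namespace Pool.Agent.Lib.MP_2c6f70_nt.RU

open Pool.Agent.Lib.MP_2c6f70_nt Pool.Agent.Lib.MP_2c6f70_nt.KW

private theorem PC_large (e B : ℝ) (he : 0 < e) : ∃ N₀ : ℕ, ∀ N ≥ N₀, B ≤ (N : ℝ) ^ e := by
  have h1 : Filter.Tendsto (fun N : ℕ => (N : ℝ) ^ e) Filter.atTop Filter.atTop :=
    (tendsto_rpow_atTop he).comp tendsto_natCast_atTop_atTop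
  exact Filter.eventually_atTop.mp (h1.eventually_ge_atTop B)

private theorem PC_pigeon {V : Finset ℕ} (f : ℕ → ℕ → ℕ) {Z : ℝ} (hZ : 1 ≤ Z) :
    ∃ b₀ : ℕ, (((pairs V).filter (fun t => (f t.1 t.2 : ℝ) < Z)).card : ℝ) ≤
      2 * Z * (((pairs V).filter (fun t => f t.1 t.2 = b₀)).card : ℝ) := by
  classical
  set R := (pairs V).filter (fun t => (f t.1 t.2 : ℝ) < Z) with hR
  set T := Finset.range (⌊Z⌋₊ + 1) with hT
  have hmap : ∀ t ∈ R, f t.1 t.2 ∈ T := by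
    intro t ht
    have h1 := (Finset.mem_filter.mp ht).2
    rw [hT, Finset.mem_range]
    have h2 : f t.1 t.2 ≤ ⌊Z⌋₊ := Nat.le_floor h1.le
    omega
  have hTne : T.Nonempty := ⟨0, by rw [hT, Finset.mem_range]; omega⟩
  obtain ⟨b₀, -, hb₀⟩ := Finset.exists_max_image T (fun b => ((pairs V).filter (fun t => f t.1 t.2 = b)).card) hTne
  refine ⟨b₀, ?_⟩
  have h1 : R.card = ∑ b ∈ T, (R.filter (fun t => f t.1 t.2 = b)).card :=
    Finset.card_eq_sum_card_fiberwise (f := fun t : ℕ × ℕ => f t.1 t.2) hmap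
  have h2 : ∑ b ∈ T, (R.filter (fun t => f t.1 t.2 = b)).card ≤
      ∑ _b ∈ T, ((pairs V).filter (fun t => f t.1 t.2 = b₀)).card := by
    apply Finset.sum_le_sum
    intro b hb
    refine le_trans (Finset.card_le_card ?_) (hb₀ b hb)
    intro t ht
    have h3 := Finset.mem_filter.mp ht
    exact Finset.mem_filter.mpr ⟨(Finset.mem_filter.mp h3.1).1, h3.2⟩
  rw [Finset.sum_const, smul_eq_mul, hT, Finset.card_range] at h2
  have h4 : (R.card : ℝ) ≤ ((⌊Z⌋₊ : ℝ) + 1) * (((pairs V).filter (fun t => f t.1 t.2 = b₀)).card : ℝ) := by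
    rw [h1]
    exact_mod_cast h2
  have h5 : ((⌊Z⌋₊ : ℝ) + 1) ≤ 2 * Z := by
    have := Nat.floor_le (show (0 : ℝ) ≤ Z by linarith)
    linarith
  exact h4.trans (mul_le_mul_of_nonneg_right h5 (Nat.cast_nonneg _))

open Classical in
private theorem PC_count {q a N : ℕ} {S V : Finset ℕ} {ε D Y : ℝ} {z i l : ℕ} (h : Ctx q a N S)
    (hE : Ext q a S (1 / 2 + ε)) (hε : 0 < ε) (hε1 : ε ≤ 1 / 4) (hz : z ∈ S) (hV : V ⊆ S) (hY : 2 ≤ Y) (hD : 0 ≤ D)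
    (hi : i ∈ V) (hl : l ∈ V) (hdiv : ∀ c : ℕ, 1 ≤ c → c ≤ 64 * N ^ 2 → (c.divisors.card : ℝ) ≤ D) :
    (((V ×ˢ V).filter (fun t => i ≠ t.1 ∧ t.1 ≠ t.2 ∧ t.2 ≠ l ∧ l ≠ i ∧
        IsSquare (bb q z i t.1 * bb q z t.1 t.2 * bb q z t.2 l * bb q z l i))).card : ℝ) ≤
      V.card * (D * (8 * S.card * Y ^ (-(1 / 2 + ε)) + 2)) + V.card * (D * (8 * S.card * Y ^ (-(1 / 2 + ε)) + 2)) +
        V.card * (16 / ε * S.card * Y ^ (-(2 * ε)) + 2 * Real.sqrt (8 * N)) +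
        (((pairs V).filter (fun t => (bb q z t.1 t.2 : ℝ) < Y ^ 4)).card : ℝ) := by
  have hN := h.hN
  have hNN : 8 * N ≤ 64 * N ^ 2 := by
    have : N * 1 ≤ N * N := Nat.mul_le_mul_left N hN
    nlinarith
  set c : ℕ → ℕ := fun j => if j = i then 0 else bb q z i j with hc
  set d : ℕ → ℕ := fun k => if k = l ∨ l = i then 0 else bb q z k l * bb q z l i with hd
  have hcD : ∀ j ∈ V, 1 ≤ c j → ((c j).divisors.card : ℝ) ≤ D := by
    intro j hj h1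
    refine hdiv _ h1 ?_
    by_cases hji : j = i
    · have : c j = 0 := if_pos hji
      omega
    · have h2 : c j = bb q z i j := if_neg hji
      rw [h2]
      exact (aa_bb_bounds h (hV hi) (hV hj) hz (Ne.symm hji)).2.2.2.trans hNN
  have hdD : ∀ k ∈ V, 1 ≤ d k → ((d k).divisors.card : ℝ) ≤ D := by
    intro k hk h1
    refine hdiv _ h1 ?_
    by_cases hkl : k = l ∨ l = i
    · have : d k = 0 := if_pos hkl
      omega
    · have h2 : d k = bb q z k l * bb q z l i := if_neg hkl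
      rw [not_or] at hkl
      rw [h2]
      have h3 := (aa_bb_bounds h (hV hk) (hV hl) hz hkl.1).2.2.2
      have h4 := (aa_bb_bounds h (hV hl) (hV hi) hz hkl.2).2.2.2
      calc bb q z k l * bb q z l i ≤ (8 * N) * (8 * N) := Nat.mul_le_mul h3 h4
        _ = 64 * N ^ 2 := by ring
  have hσ1 : 1 / 2 + ε ≤ 1 := by linarith
  have b1 := bad_div h hE (by linarith) hσ1 hV (by linarith : (1 : ℝ) ≤ Y) c hcD hD
  have b2 := bad_div h hE (by linarith) hσ1 hV (by linarith : (1 : ℝ) ≤ Y) d hdD hD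
  have b3 := bad_sq h hE hε hε1 hV hY
  set A1 := (V ×ˢ V).filter (fun t => 1 ≤ c t.1 ∧ ∃ m, m ∣ c t.1 ∧ Y ≤ (m : ℝ) ∧ m ∣ cq q * dn q a t.1 t.2) with hA1
  set A2 := (V ×ˢ V).filter (fun t => 1 ≤ d t.1 ∧ ∃ m, m ∣ d t.1 ∧ Y ≤ (m : ℝ) ∧ m ∣ cq q * dn q a t.1 t.2) with hA2
  set A3 := (V ×ˢ V).filter (fun t => t.1 ≠ t.2 ∧ ∃ f : ℕ, Y ≤ (f : ℝ) ∧ f ^ 2 ∣ cq q * dn q a t.1 t.2) with hA3
  set R := (pairs V).filter (fun t => (bb q z t.1 t.2 : ℝ) < Y ^ 4) with hR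
  set P0 := (V ×ˢ V).filter (fun t => i ≠ t.1 ∧ t.1 ≠ t.2 ∧ t.2 ≠ l ∧ l ≠ i ∧
        IsSquare (bb q z i t.1 * bb q z t.1 t.2 * bb q z t.2 l * bb q z l i)) with hP0
  have hsub : P0 ⊆ ((A1 ∪ A2.image Prod.swap) ∪ A3) ∪ R := by
    intro t ht
    obtain ⟨ht1, hij, hjk, hkl, hli, hsq⟩ := Finset.mem_filter.mp ht
    obtain ⟨hj, hk⟩ := Finset.mem_product.mp ht1
    have hjS := hV hj
    have hkS := hV hk
    have g1 := (aa_bb_bounds h hjS hkS hz hjk).2.1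
    have g2 := (aa_bb_bounds h (hV hi) hjS hz hij).2.1
    have g3 := (aa_bb_bounds h hkS (hV hl) hz hkl).2.1
    have g4 := (aa_bb_bounds h (hV hl) (hV hi) hz hli).2.1
    have hsq' : IsSquare (bb q z t.1 t.2 * bb q z i t.1 * (bb q z t.2 l * bb q z l i)) := by
      have e : bb q z t.1 t.2 * bb q z i t.1 * (bb q z t.2 l * bb q z l i) =
          bb q z i t.1 * bb q z t.1 t.2 * bb q z t.2 l * bb q z l i := by ring
      rw [e]
      exact hsq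
    obtain ⟨m₁, m₂, f, hb, hm1, hm2, h1, h2, h3⟩ := sq_split g1 g2 (Nat.mul_le_mul g3 g4) hsq'
    have hbd : bb q z t.1 t.2 ∣ cq q * dn q a t.1 t.2 := ⟨aa q z t.1 t.2, by rw [mul_comm (bb q z t.1 t.2), aa_bb h hjS hkS hz]⟩
    have d1 : m₁ ∣ cq q * dn q a t.1 t.2 := by
      refine Dvd.dvd.trans ?_ hbd
      rw [hb, mul_assoc]
      exact Dvd.intro _ rfl
    have d2 : m₂ ∣ cq q * dn q a t.1 t.2 := by
      refine Dvd.dvd.trans ?_ hbd
      rw [hb, mul_comm m₁ m₂, mul_assoc]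
      exact Dvd.intro _ rfl
    have d3 : f ^ 2 ∣ cq q * dn q a t.1 t.2 := by
      refine Dvd.dvd.trans ?_ hbd
      rw [hb]
      exact Dvd.intro_left _ rfl
    have hcj : c t.1 = bb q z i t.1 := if_neg (Ne.symm hij)
    have hdk : d t.2 = bb q z t.2 l * bb q z l i := if_neg (by rw [not_or]; exact ⟨hkl, hli⟩)
    by_cases c1 : Y ≤ (m₁ : ℝ)
    · refine Finset.mem_union_left _ (Finset.mem_union_left _ (Finset.mem_union_left _ ?_))
      refine Finset.mem_filter.mpr ⟨ht1, ?_, m₁, ?_, c1, d1⟩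
      · rw [hcj]; exact g2
      · rw [hcj]; exact hm1
    · by_cases c2 : Y ≤ (m₂ : ℝ)
      · refine Finset.mem_union_left _ (Finset.mem_union_left _ (Finset.mem_union_right _ ?_))
        refine Finset.mem_image.mpr ⟨(t.2, t.1), ?_, rfl⟩
        refine Finset.mem_filter.mpr ⟨Finset.mem_product.mpr ⟨hk, hj⟩, ?_, m₂, ?_, c2, ?_⟩
        · show 1 ≤ d t.2
          rw [hdk]; exact Nat.mul_le_mul g3 g4
        · show m₂ ∣ d t.2
          rw [hdk]; exact hm2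
        · show m₂ ∣ cq q * dn q a t.2 t.1
          rw [dn_comm]; exact d2
      · by_cases c3 : Y ≤ (f : ℝ)
        · refine Finset.mem_union_left _ (Finset.mem_union_right _ ?_)
          exact Finset.mem_filter.mpr ⟨ht1, hjk, f, c3, d3⟩
        · refine Finset.mem_union_right _ ?_
          refine Finset.mem_filter.mpr ⟨Finset.mem_filter.mpr ⟨ht1, hjk⟩, ?_⟩
          rw [not_le] at c1 c2 c3
          rw [hb]
          push_cast
          have p1 : (1 : ℝ) ≤ (m₁ : ℝ) := by exact_mod_cast h1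
          have p2 : (1 : ℝ) ≤ (m₂ : ℝ) := by exact_mod_cast h2
          have p3 : (1 : ℝ) ≤ (f : ℝ) := by exact_mod_cast h3
          have q1 : (m₁ : ℝ) * m₂ < Y * Y := mul_lt_mul'' c1 c2 (by linarith) (by linarith)
          have q2 : (f : ℝ) ^ 2 < Y ^ 2 := pow_lt_pow_left₀ c3 (by linarith) (by norm_num)
          calc (m₁ : ℝ) * m₂ * f ^ 2 < (Y * Y) * Y ^ 2 := mul_lt_mul'' q1 q2 (by positivity) (by positivity)
            _ = Y ^ 4 := by ring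
  have hcard : P0.card ≤ A1.card + A2.card + A3.card + R.card := by
    refine (Finset.card_le_card hsub).trans ?_
    refine (Finset.card_union_le _ _).trans ?_
    refine Nat.add_le_add_right ?_ _
    refine (Finset.card_union_le _ _).trans ?_
    refine Nat.add_le_add_right ?_ _
    refine (Finset.card_union_le _ _).trans ?_
    exact Nat.add_le_add_left Finset.card_image_le _
  have hcard' : (P0.card : ℝ) ≤ A1.card + A2.card + A3.card + R.card := by exact_mod_cast hcard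
  linarith

private theorem PC_arith {ε ρ η η' n s v g r X1 X3 e y : ℝ} (hε : 0 < ε) (hε1 : ε ≤ 1 / 4) (hρ : 0 ≤ ρ) (hρ1 : ρ ≤ ε / 2)
    (hη' : 0 < η') (hη1 : η' ≤ 1) (hηη : η' ≤ η) (he : e = ε * η' / 100) (hy : y = 2 * ρ + ρ / (2 * ε) + η' / 8)
    (hn : 1 ≤ n) (hL1 : 128 ≤ n ^ e) (hL2 : 256 / ε ≤ n ^ e) (hs : n ^ (1 / 2 + ε) ≤ s) (hv : n ^ (-ρ) * s ≤ v)
    (hX1 : X1 = v * (n ^ e * (8 * s * (n ^ y) ^ (-(1 / 2 + ε)) + 2)))
    (hX3 : X3 = v * (16 / ε * s * (n ^ y) ^ (-(2 * ε)) + 2 * Real.sqrt (8 * n)))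
    (hmain : n ^ (-e) * v ^ 2 ≤ X1 + X1 + X3 + r) (hr : r ≤ 2 * (n ^ y) ^ 4 * g) (hg : 0 ≤ g) :
    n ^ (-(8 * ρ / ε + η)) * v ^ 2 ≤ g := by
  have hn0 : 0 < n := by linarith
  have he0 : 0 < e := by rw [he]; positivity
  have hee : e ≤ η' / 400 := by
    rw [he]
    have : ε * η' ≤ 1 / 4 * η' := mul_le_mul_of_nonneg_right hε1 hη'.le
    linarith
  have hee2 : e ≤ ε / 100 := by
    rw [he]
    have : ε * η' ≤ ε * 1 := mul_le_mul_of_nonneg_left hη1 hε.le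
    linarith
  have hρε : 0 ≤ ρ / (2 * ε) := by positivity
  have hy0 : 0 ≤ y := by rw [hy]; positivity
  -- the size of `v`
  have hs0 : 0 < s := lt_of_lt_of_le (Real.rpow_pos_of_pos hn0 _) hs
  have hvlow : n ^ (1 / 2 + ε / 2) ≤ v := by
    have h1 : n ^ (1 / 2 + ε / 2) ≤ n ^ (-ρ + (1 / 2 + ε)) := Real.rpow_le_rpow_of_exponent_le hn (by linarith)
    rw [Real.rpow_add hn0 (-ρ) (1 / 2 + ε)] at h1
    have h2 : n ^ (-ρ) * n ^ (1 / 2 + ε) ≤ n ^ (-ρ) * s :=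
      mul_le_mul_of_nonneg_left hs (Real.rpow_nonneg hn0.le _)
    linarith
  have hv0 : 0 < v := lt_of_lt_of_le (Real.rpow_pos_of_pos hn0 _) hvlow
  have hsv : s ≤ n ^ ρ * v := by
    have h1 : n ^ ρ * (n ^ (-ρ) * s) ≤ n ^ ρ * v := mul_le_mul_of_nonneg_left hv (Real.rpow_nonneg hn0.le _)
    have h2 : n ^ ρ * (n ^ (-ρ) * s) = s := by
      rw [← mul_assoc, ← Real.rpow_add hn0, add_neg_cancel, Real.rpow_zero, one_mul]
    linarith
  set w := n ^ (-e) * v with hw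
  have hw0 : 0 < w := mul_pos (Real.rpow_pos_of_pos hn0 _) hv0
  have hne : 0 < n ^ e := Real.rpow_pos_of_pos hn0 _
  have hnn : n ^ e * n ^ (-e) = 1 := by rw [← Real.rpow_add hn0, add_neg_cancel, Real.rpow_zero]
  -- v * n ^ (-2e) = w * n ^ (-e)
  have hvw : v * n ^ (-(2 * e)) = w * n ^ (-e) := by
    have : n ^ (-(2 * e)) = n ^ (-e) * n ^ (-e) := by rw [← Real.rpow_add hn0]; ring_nf
    rw [this, hw]; ring
  have hsmall : ∀ B : ℝ, B ≤ n ^ e → B * (w * n ^ (-e)) ≤ w := by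
    intro B hB
    have h1 : B * (w * n ^ (-e)) ≤ n ^ e * (w * n ^ (-e)) :=
      mul_le_mul_of_nonneg_right hB (mul_nonneg hw0.le (Real.rpow_nonneg hn0.le _))
    have h2 : n ^ e * (w * n ^ (-e)) = w := by
      calc n ^ e * (w * n ^ (-e)) = w * (n ^ e * n ^ (-e)) := by ring
        _ = w := by rw [hnn, mul_one]
    linarith
  -- first estimate
  have t1 : n ^ e * (8 * s * (n ^ y) ^ (-(1 / 2 + ε))) ≤ w / 16 := by
    have a1 : (n ^ y) ^ (-(1 / 2 + ε)) ≤ n ^ (-(y / 2)) := by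
      rw [← Real.rpow_mul hn0.le]
      apply Real.rpow_le_rpow_of_exponent_le hn
      have : 0 ≤ y * ε := mul_nonneg hy0 hε.le
      linarith
    have a2 : n ^ e * (8 * s * (n ^ y) ^ (-(1 / 2 + ε))) ≤ n ^ e * (8 * (n ^ ρ * v) * n ^ (-(y / 2))) := by
      apply mul_le_mul_of_nonneg_left _ hne.le
      apply mul_le_mul _ a1 (Real.rpow_nonneg (Real.rpow_nonneg hn0.le _) _) (by positivity)
      linarith
    have a3 : n ^ e * (8 * (n ^ ρ * v) * n ^ (-(y / 2))) = 8 * (v * n ^ (e + ρ + -(y / 2))) := by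
      rw [Real.rpow_add hn0, Real.rpow_add hn0]; ring
    have a4 : n ^ (e + ρ + -(y / 2)) ≤ n ^ (-(2 * e)) := by
      apply Real.rpow_le_rpow_of_exponent_le hn
      rw [hy]
      linarith
    have a5 : v * n ^ (e + ρ + -(y / 2)) ≤ v * n ^ (-(2 * e)) := mul_le_mul_of_nonneg_left a4 hv0.le
    rw [hvw] at a5
    have a6 := hsmall 128 hL1
    linarith
  have t2 : n ^ e * 2 ≤ w / 16 := by
    have a1 : n ^ (e + e + e) ≤ n ^ (1 / 2 + ε / 2) := Real.rpow_le_rpow_of_exponent_le hn (by linarith)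
    rw [Real.rpow_add hn0 (e + e) e, Real.rpow_add hn0 e e] at a1
    have a2 : n ^ e * n ^ e * 32 ≤ n ^ e * n ^ e * n ^ e := mul_le_mul_of_nonneg_left (by linarith) (by positivity)
    have a3 : n ^ e * n ^ e * 32 ≤ v := by linarith
    have a4 : n ^ (-e) * (n ^ e * n ^ e * 32) ≤ n ^ (-e) * v :=
      mul_le_mul_of_nonneg_left a3 (Real.rpow_nonneg hn0.le _)
    have a5 : n ^ (-e) * (n ^ e * n ^ e * 32) = (n ^ e * n ^ (-e)) * (n ^ e * 32) := by ring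
    rw [a5, hnn, one_mul] at a4
    linarith
  -- second estimate
  have t3 : 16 / ε * s * (n ^ y) ^ (-(2 * ε)) ≤ w / 16 := by
    have a1 : (n ^ y) ^ (-(2 * ε)) = n ^ (y * -(2 * ε)) := by rw [← Real.rpow_mul hn0.le]
    have a2 : 16 / ε * s * (n ^ y) ^ (-(2 * ε)) ≤ 16 / ε * (n ^ ρ * v) * n ^ (y * -(2 * ε)) := by
      rw [a1]
      apply mul_le_mul_of_nonneg_right _ (Real.rpow_nonneg hn0.le _)
      exact mul_le_mul_of_nonneg_left hsv (by positivity)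
    have a3 : 16 / ε * (n ^ ρ * v) * n ^ (y * -(2 * ε)) = 16 / ε * (v * n ^ (ρ + y * -(2 * ε))) := by
      rw [Real.rpow_add hn0]; ring
    have a4 : n ^ (ρ + y * -(2 * ε)) ≤ n ^ (-(2 * e)) := by
      apply Real.rpow_le_rpow_of_exponent_le hn
      have b1 : y * (2 * ε) = 4 * (ρ * ε) + ρ + ε * η' / 4 := by
        rw [hy]; field_simp; ring
      have b2 : 0 ≤ ρ * ε := mul_nonneg hρ hε.le
      have b3 : ε * η' = 100 * e := by rw [he]; ring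
      have b4 : y * -(2 * ε) = - (y * (2 * ε)) := by ring
      rw [b4, b1, b3]
      linarith
    have a5 : v * n ^ (ρ + y * -(2 * ε)) ≤ v * n ^ (-(2 * e)) := mul_le_mul_of_nonneg_left a4 hv0.le
    rw [hvw] at a5
    have a6 := hsmall (256 / ε) hL2
    have a7 : 16 / ε * (v * n ^ (ρ + y * -(2 * ε))) ≤ 16 / ε * (w * n ^ (-e)) :=
      mul_le_mul_of_nonneg_left a5 (by positivity)
    have a8 : 16 / ε * (w * n ^ (-e)) = (256 / ε * (w * n ^ (-e))) / 16 := by ring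
    linarith
  have t4 : 2 * Real.sqrt (8 * n) ≤ w / 16 := by
    have a1 : Real.sqrt (8 * n) ≤ 3 * n ^ (1 / 2 : ℝ) := by
      rw [← Real.sqrt_eq_rpow]
      have b1 : Real.sqrt (8 * n) ≤ Real.sqrt (9 * n) := Real.sqrt_le_sqrt (by linarith)
      have b2 : Real.sqrt (9 * n) = 3 * Real.sqrt n := by
        rw [Real.sqrt_mul (by norm_num : (0 : ℝ) ≤ 9)]
        congr 1
        rw [show (9 : ℝ) = 3 ^ 2 by norm_num, Real.sqrt_sq (by norm_num)]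
      linarith
    have a2 : n ^ ((1 / 2 : ℝ) + (e + e)) ≤ n ^ (1 / 2 + ε / 2) := Real.rpow_le_rpow_of_exponent_le hn (by linarith)
    rw [Real.rpow_add hn0 (1 / 2) (e + e), Real.rpow_add hn0 e e] at a2
    have hh : 0 < n ^ (1 / 2 : ℝ) := Real.rpow_pos_of_pos hn0 _
    have a3 : n ^ (-e) * (n ^ (1 / 2 : ℝ) * (n ^ e * n ^ e)) ≤ n ^ (-e) * v :=
      mul_le_mul_of_nonneg_left (a2.trans hvlow) (Real.rpow_nonneg hn0.le _)
    have a4 : n ^ (-e) * (n ^ (1 / 2 : ℝ) * (n ^ e * n ^ e)) = (n ^ e * n ^ (-e)) * (n ^ (1 / 2 : ℝ) * n ^ e) := by ring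
    rw [a4, hnn, one_mul] at a3
    have a5 : n ^ (1 / 2 : ℝ) * 128 ≤ n ^ (1 / 2 : ℝ) * n ^ e := mul_le_mul_of_nonneg_left hL1 hh.le
    linarith
  have u1 : X1 ≤ w * v / 8 := by
    have : n ^ e * (8 * s * (n ^ y) ^ (-(1 / 2 + ε)) + 2) ≤ w / 8 := by
      rw [mul_add]; linarith
    rw [hX1]
    have := mul_le_mul_of_nonneg_left this hv0.le
    linarith
  have u3 : X3 ≤ w * v / 8 := by
    have : 16 / ε * s * (n ^ y) ^ (-(2 * ε)) + 2 * Real.sqrt (8 * n) ≤ w / 8 := by linarith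
    rw [hX3]
    have := mul_le_mul_of_nonneg_left this hv0.le
    linarith
  have hwv : n ^ (-e) * v ^ 2 = w * v := by rw [hw]; ring
  have hwv0 : 0 < w * v := mul_pos hw0 hv0
  have u4 : w * v ≤ 4 * (n ^ y) ^ 4 * g := by
    rw [hwv] at hmain
    linarith
  -- the last step
  have k1 : 4 * (n ^ y) ^ 4 * n ^ (-(8 * ρ / ε + η) + e) ≤ 1 := by
    have a1 : (n ^ y) ^ 4 = n ^ (y * 4) := by
      rw [Real.rpow_mul hn0.le]; norm_cast
    have a2 : 4 * (n ^ y) ^ 4 * n ^ (-(8 * ρ / ε + η) + e) ≤ n ^ e * (n ^ y) ^ 4 * n ^ (-(8 * ρ / ε + η) + e) := by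
      apply mul_le_mul_of_nonneg_right _ (Real.rpow_nonneg hn0.le _)
      apply mul_le_mul_of_nonneg_right (by linarith) (by positivity)
    have a3 : n ^ e * (n ^ y) ^ 4 * n ^ (-(8 * ρ / ε + η) + e) = n ^ (e + y * 4 + (-(8 * ρ / ε + η) + e)) := by
      rw [a1, Real.rpow_add hn0 (e + y * 4) (-(8 * ρ / ε + η) + e), Real.rpow_add hn0 e (y * 4)]
    have a4 : n ^ (e + y * 4 + (-(8 * ρ / ε + η) + e)) ≤ n ^ (0 : ℝ) := by
      apply Real.rpow_le_rpow_of_exponent_le hn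
      have b1 : 4 * ρ ≤ ρ / ε := by
        rw [le_div_iff₀ hε]
        have : ρ * ε ≤ ρ * (1 / 4) := mul_le_mul_of_nonneg_left hε1 hρ
        linarith
      have b2 : ρ / (2 * ε) = (ρ / ε) / 2 := by field_simp
      have b3 : 8 * ρ / ε = 8 * (ρ / ε) := by ring
      rw [hy, b2, b3]
      linarith
    rw [Real.rpow_zero] at a4
    linarith
  have k2 : n ^ (-(8 * ρ / ε + η)) * v ^ 2 = n ^ (-(8 * ρ / ε + η) + e) * (w * v) := by
    rw [Real.rpow_add hn0, ← hwv]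
    calc n ^ (-(8 * ρ / ε + η)) * v ^ 2 = n ^ (-(8 * ρ / ε + η)) * v ^ 2 * 1 := by ring
      _ = n ^ (-(8 * ρ / ε + η)) * v ^ 2 * (n ^ e * n ^ (-e)) := by rw [hnn]
      _ = _ := by ring
  rw [k2]
  have k3 : n ^ (-(8 * ρ / ε + η) + e) * (w * v) ≤ n ^ (-(8 * ρ / ε + η) + e) * (4 * (n ^ y) ^ 4 * g) :=
    mul_le_mul_of_nonneg_left u4 (Real.rpow_nonneg hn0.le _)
  have k4 : n ^ (-(8 * ρ / ε + η) + e) * (4 * (n ^ y) ^ 4 * g) =
      (4 * (n ^ y) ^ 4 * n ^ (-(8 * ρ / ε + η) + e)) * g := by ring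
  have k5 : (4 * (n ^ y) ^ 4 * n ^ (-(8 * ρ / ε + η) + e)) * g ≤ 1 * g := mul_le_mul_of_nonneg_right k1 hg
  linarith

theorem common_b (ε ρ η : ℝ) (hε : 0 < ε) (hε1 : ε ≤ 1 / 4) (hρ : 0 ≤ ρ) (hρ1 : ρ ≤ ε / 2) (hη : 0 < η) :
    ∃ N₀ : ℕ, ∀ N ≥ N₀, ∀ (q a : ℕ) (S V : Finset ℕ) (z : ℕ),
    Ctx q a N S → Ext q a S (1 / 2 + ε) → (N : ℝ) ^ (1 / 2 + ε) ≤ (S.card : ℝ) → z ∈ S → V ⊆ S →
    (N : ℝ) ^ (-ρ) * S.card ≤ V.card →
      ∃ b₀ : ℕ, (N : ℝ) ^ (-(8 * ρ / ε + η)) * (V.card : ℝ) ^ 2 ≤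
        (((pairs V).filter (fun t => bb q z t.1 t.2 = b₀)).card : ℝ) := by
  classical
  set η' := min η 1 with hη'd
  have hη' : 0 < η' := lt_min hη one_pos
  have hη1 : η' ≤ 1 := min_le_right _ _
  have hηη : η' ≤ η := min_le_left _ _
  set e := ε * η' / 100 with he
  have he0 : 0 < e := by rw [he]; positivity
  set y := 2 * ρ + ρ / (2 * ε) + η' / 8 with hy
  obtain ⟨C, hC1, hC⟩ := Pool.Agent.Lib.MP_2a816b_nt.divisor_bound (e / 6) (by positivity)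
  obtain ⟨N₁, hN₁⟩ := many_walks ε e hε he0
  obtain ⟨N₂, hN₂⟩ := PC_large e (max 128 (256 / ε)) he0
  obtain ⟨N₃, hN₃⟩ := PC_large (e / 2) C (by positivity)
  refine ⟨max (max N₁ N₂) (max N₃ 64), fun N hN q a S V z h hE hS hz hV hVS => ?_⟩
  have hNN1 : N₁ ≤ N := le_trans (le_trans (le_max_left _ _) (le_max_left _ _)) hN
  have hNN2 : N₂ ≤ N := le_trans (le_trans (le_max_right _ _) (le_max_left _ _)) hN
  have hNN3 : N₃ ≤ N := le_trans (le_trans (le_max_left _ _) (le_max_right _ _)) hN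
  have hNN4 : 64 ≤ N := le_trans (le_trans (le_max_right _ _) (le_max_right _ _)) hN
  have hn64 : (64 : ℝ) ≤ (N : ℝ) := by exact_mod_cast hNN4
  have hn : (1 : ℝ) ≤ (N : ℝ) := by linarith
  have hn0 : (0 : ℝ) < (N : ℝ) := by linarith
  have hL := hN₂ N hNN2
  have hL1 : 128 ≤ (N : ℝ) ^ e := le_trans (le_max_left _ _) hL
  have hL2 : 256 / ε ≤ (N : ℝ) ^ e := le_trans (le_max_right _ _) hL
  have hCN := hN₃ N hNN3
  -- the size of `V`
  have hvlow : (N : ℝ) ^ (1 / 2 + ε / 2) ≤ (V.card : ℝ) := by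
    have h1 : (N : ℝ) ^ (1 / 2 + ε / 2) ≤ (N : ℝ) ^ (-ρ + (1 / 2 + ε)) :=
      Real.rpow_le_rpow_of_exponent_le hn (by linarith)
    rw [Real.rpow_add hn0 (-ρ) (1 / 2 + ε)] at h1
    have h2 : (N : ℝ) ^ (-ρ) * (N : ℝ) ^ (1 / 2 + ε) ≤ (N : ℝ) ^ (-ρ) * S.card :=
      mul_le_mul_of_nonneg_left hS (Real.rpow_nonneg hn0.le _)
    linarith
  have hv4 : (N : ℝ) ^ (1 / 4 : ℝ) ≤ (V.card : ℝ) :=
    le_trans (Real.rpow_le_rpow_of_exponent_le hn (by linarith)) hvlow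
  have hv0 : (0 : ℝ) < (V.card : ℝ) := lt_of_lt_of_le (Real.rpow_pos_of_pos hn0 _) hvlow
  have hVne : V.Nonempty := Finset.card_pos.mp (by exact_mod_cast hv0)
  have hw := hN₁ N hNN1 q a S V z h hS hz hV hv4
  obtain ⟨i, hi, l, hl, hil⟩ := exists_il hVne hw
  have hY2 : 2 ≤ (N : ℝ) ^ y := by
    have h1 : (N : ℝ) ^ e ≤ (N : ℝ) ^ y := by
      apply Real.rpow_le_rpow_of_exponent_le hn
      have b1 : ε * η' ≤ 1 / 4 * η' := mul_le_mul_of_nonneg_right hε1 hη'.le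
      have b2 : 0 ≤ ρ / (2 * ε) := by positivity
      rw [he, hy]
      linarith
    linarith
  have hdiv : ∀ c : ℕ, 1 ≤ c → c ≤ 64 * N ^ 2 → (c.divisors.card : ℝ) ≤ (N : ℝ) ^ e := by
    intro c hc1 hc2
    have h1 := hC c hc1
    have h2 : (c : ℝ) ≤ (N : ℝ) ^ 3 := by
      have h3 : (c : ℝ) ≤ 64 * (N : ℝ) ^ 2 := by exact_mod_cast hc2
      have h4 : 64 * (N : ℝ) ^ 2 ≤ N * (N : ℝ) ^ 2 := mul_le_mul_of_nonneg_right hn64 (by positivity)
      have h5 : (N : ℝ) * (N : ℝ) ^ 2 = (N : ℝ) ^ 3 := by ring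
      linarith
    have h3 : (c : ℝ) ^ (e / 6) ≤ ((N : ℝ) ^ 3) ^ (e / 6) :=
      Real.rpow_le_rpow (Nat.cast_nonneg _) h2 (by positivity)
    have h4 : ((N : ℝ) ^ 3) ^ (e / 6) = (N : ℝ) ^ (e / 2) := by
      rw [← Real.rpow_natCast, ← Real.rpow_mul hn0.le]
      congr 1
      push_cast
      ring
    have h5 : (N : ℝ) ^ e = (N : ℝ) ^ (e / 2) * (N : ℝ) ^ (e / 2) := by
      rw [← Real.rpow_add hn0]; congr 1; ring
    rw [h4] at h3
    have h6 : C * (c : ℝ) ^ (e / 6) ≤ (N : ℝ) ^ (e / 2) * (N : ℝ) ^ (e / 2) :=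
      mul_le_mul hCN h3 (Real.rpow_nonneg (Nat.cast_nonneg _) _) (Real.rpow_nonneg hn0.le _)
    rw [h5]
    exact h1.trans h6
  have hcount := PC_count h hE hε hε1 hz hV hY2 (Real.rpow_nonneg hn0.le e) hi hl hdiv
  obtain ⟨b₀, hb₀⟩ := PC_pigeon (V := V) (bb q z) (Z := ((N : ℝ) ^ y) ^ 4) (one_le_pow₀ (by linarith))
  refine ⟨b₀, ?_⟩
  exact PC_arith hε hε1 hρ hρ1 hη' hη1 hηη he hy hn hL1 hL2 hS hVS rfl rfl (hil.trans hcount) hb₀ (Nat.cast_nonneg _)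

end Pool.Agent.Lib.MP_2c6f70_nt.RU
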