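import Mathlib
import Pool.Agent.Lib.MP_2c6f70_nt.KW.Defs

/-!
# Squares in progressions, exponent `1/2`: definitions

`Ctx q a N S`: `S` is a set of roots of the progression `a + q n`, `n < N`, with `gcd (q, a) = 1`.
`wp q p = log (mr q p)`: the weights.  `sg q z p x` (from the first part): the sign of `x` at `p`, base point `z`.
`AA q z x y`, `BB q z x y`: the product of the moduli at which `x` and `y` have equal, different signs.
`aa q z x y = |x - y| / AA`, `bb q z x y = (x + y) / BB`, `cq q = q / ∏ mr q p` (a divisor of `8`).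
`Ext q a N S σ`: `S` is small in every residue class.
`tt q z p x`: the Legendre symbol modulo `p` of the part prime to `p` of the product of the moduli where `x` has sign `-1`.
`dn q a x y = |n_x - n_y|`, the distance of the indices.
-/

set_option autoImplicit false

namespace Pool.Agent.Lib.MP_2c6f70_nt.RU

open Pool.Agent.Lib.MP_2c6f70_nt Pool.Agent.Lib.MP_2c6f70_nt.KW

/-- The context. -/
structure Ctx (q a N : ℕ) (S : Finset ℕ) : Prop where
  hq : 2 ≤ q
  ha : 1 ≤ a
  hN : 1 ≤ N
  cop : Nat.Coprime q a
  rts : Rts q a N S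

/-- The weight of `p`. -/
noncomputable def wp (q p : ℕ) : ℝ := Real.log (mr q p)

/-- The product of the moduli where the signs are equal. -/
noncomputable def AA (q z x y : ℕ) : ℕ :=
  open Classical in ∏ p ∈ q.primeFactors.filter (fun p => sg q z p x = sg q z p y), mr q p

/-- The product of the moduli where the signs are different. -/
noncomputable def BB (q z x y : ℕ) : ℕ :=
  open Classical in ∏ p ∈ q.primeFactors.filter (fun p => sg q z p x ≠ sg q z p y), mr q p

noncomputable def aa (q z x y : ℕ) : ℕ := Nat.dist x y / AA q z x y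

noncomputable def bb (q z x y : ℕ) : ℕ := (x + y) / BB q z x y

def cq (q : ℕ) : ℕ := q / ∏ p ∈ q.primeFactors, mr q p

/-- Distance of the indices. -/
def dn (q a x y : ℕ) : ℕ := Nat.dist (nn q a x) (nn q a y)

/-- `S` is small in every residue class. -/
def Ext (q a : ℕ) (S : Finset ℕ) (σ : ℝ) : Prop :=
  ∀ m r : ℕ, 1 ≤ m →
    ((S.filter (fun x => nn q a x % m = r % m)).card : ℝ) ≤ S.card * (m : ℝ) ^ (-σ) + 2

/-- Legendre symbol of the moduli prime to `p` where `x` has sign `-1`. -/
noncomputable def tt (q z p x : ℕ) : ℤ :=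
  open Classical in
  jacobiSym ((∏ p' ∈ q.primeFactors.filter (fun p' => p' ≠ p ∧ sg q z p' x = -1), mr q p' : ℕ) : ℤ) p

/-- Pairs of different elements. -/
def pairs (V : Finset ℕ) : Finset (ℕ × ℕ) := (V ×ˢ V).filter (fun t => t.1 ≠ t.2)

/-- Number of primes of `P` at which the symbol of `d` is not the prescribed one. -/
noncomputable def exc (P : Finset ℕ) (ω : ℕ → ℤ) (d : ℕ) : ℕ :=
  (P.filter (fun p => jacobiSym (d : ℤ) p ≠ ω p)).card

end Pool.Agent.Lib.MP_2c6f70_nt.RU
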