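import Pool.Agent.Lib.MP_2c6f70_nt.RU.Defs

/-!
# JOB EA: a residue class of maximal weighted size; passing to a class

`exists_max_class`.  The pairs `(m, r)`, `1 ≤ m ≤ N`, `r < m` form a nonempty finite set; take the maximum of `#{n ∈ T : n ≡ r (m)} m^σ`
(`Finset.exists_max_image` on `(Finset.Icc 1 N).sigma (fun m => Finset.range m)` or on a product with a filter); for a general pair
`(m', r')` use `(m', r' % m')`.

`class_roots`.  For `n ∈ T`, `n = m n' + r` with `n' = n / m ≤ (N - 1) / m < N / m + 1`, and `q n + a = (a + q r) + (q m) n'` is a square.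
`S` = image of `T` under `n ↦ Nat.sqrt (q n + a)` (injective on `T`: the square of the root is `q n + a`, `q ≥ 1`).  For the root `x` of `n`:
`nn (q m) (a + q r) x = (x^2 - (a + q r)) / (q m) = n'`, so `m * nn .. x + r = n ∈ T`.  Last part: `x ↦ m * nn x + r` maps
the roots with `nn x ≡ r' (m')` injectively to `{n ∈ T : n ≡ r + m (r' % m') (m m')}`
(`nn x = m' k + r' % m'`, so `m nn x + r = m m' k + (r + m (r' % m'))`); injective on `S` because `nn x` determines `x^2`.
-/

set_option autoImplicit false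

namespace Pool.Agent.Lib.MP_2c6f70_nt.RU

open Pool.Agent.Lib.MP_2c6f70_nt Pool.Agent.Lib.MP_2c6f70_nt.KW

theorem exists_max_class (T : Finset ℕ) (N : ℕ) (hN : 1 ≤ N) (σ : ℝ) :
    ∃ m r : ℕ, 1 ≤ m ∧ m ≤ N ∧ r < m ∧ ∀ m' r' : ℕ, 1 ≤ m' → m' ≤ N →
      ((T.filter (fun n => n % m' = r' % m')).card : ℝ) * (m' : ℝ) ^ σ ≤
        ((T.filter (fun n => n % m = r)).card : ℝ) * (m : ℝ) ^ σ := by
  classical
  set F : Finset (ℕ × ℕ) := (Finset.Icc 1 N ×ˢ Finset.range N).filter (fun t => t.2 < t.1) with hF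
  have hne : F.Nonempty := by
    refine ⟨(1, 0), ?_⟩
    rw [hF, Finset.mem_filter, Finset.mem_product, Finset.mem_Icc, Finset.mem_range]
    exact ⟨⟨⟨le_refl 1, hN⟩, hN⟩, Nat.zero_lt_one⟩
  obtain ⟨t, ht, hmax⟩ := Finset.exists_max_image F
    (fun t => ((T.filter (fun n => n % t.1 = t.2)).card : ℝ) * (t.1 : ℝ) ^ σ) hne
  rw [hF, Finset.mem_filter, Finset.mem_product, Finset.mem_Icc, Finset.mem_range] at ht
  refine ⟨t.1, t.2, ht.1.1.1, ht.1.1.2, ht.2, ?_⟩
  intro m' r' h1 h2
  have h3 : r' % m' < m' := Nat.mod_lt _ h1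
  have h4 : (m', r' % m') ∈ F := by
    rw [hF, Finset.mem_filter, Finset.mem_product, Finset.mem_Icc, Finset.mem_range]
    exact ⟨⟨⟨h1, h2⟩, lt_of_lt_of_le h3 h2⟩, h3⟩
  have h5 := hmax (m', r' % m') h4
  beta_reduce at h5
  exact h5

theorem class_roots {q a N m r : ℕ} (hq : 1 ≤ q) (hm : 1 ≤ m) (T : Finset ℕ)
    (hT : ∀ n ∈ T, n < N ∧ n % m = r ∧ IsSquare (q * n + a)) :
    ∃ S : Finset ℕ, Rts (q * m) (a + q * r) (N / m + 1) S ∧ S.card = T.card ∧
      (∀ x ∈ S, m * nn (q * m) (a + q * r) x + r ∈ T) ∧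
      ∀ m' r' : ℕ, 1 ≤ m' →
        (S.filter (fun x => nn (q * m) (a + q * r) x % m' = r' % m')).card ≤
          (T.filter (fun n => n % (m * m') = (r + m * (r' % m')) % (m * m'))).card := by
  classical
  have hr : ∀ n ∈ T, Nat.sqrt (q * n + a) ^ 2 = q * n + a := by
    intro n hn
    obtain ⟨y, hy⟩ := (hT n hn).2.2
    rw [hy, Nat.sqrt_eq, sq]
  have hqm : 0 < q * m := Nat.mul_pos hq hm
  have hdec : ∀ n ∈ T, q * n + a = (a + q * r) + q * m * (n / m) := by
    intro n hn
    have h1 := Nat.div_add_mod n m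
    rw [(hT n hn).2.1] at h1
    calc q * n + a = q * (m * (n / m) + r) + a := by rw [h1]
      _ = _ := by ring
  have hnn : ∀ n ∈ T, nn (q * m) (a + q * r) (Nat.sqrt (q * n + a)) = n / m := by
    intro n hn
    unfold nn
    rw [hr n hn, hdec n hn, Nat.add_sub_cancel_left, Nat.mul_div_cancel_left _ hqm]
  have hback : ∀ n ∈ T, m * (n / m) + r = n := by
    intro n hn
    have h1 := Nat.div_add_mod n m
    rw [(hT n hn).2.1] at h1
    exact h1
  refine ⟨T.image (fun n => Nat.sqrt (q * n + a)), ?_, ?_, ?_, ?_⟩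
  · intro x hx
    obtain ⟨n, hn, rfl⟩ := Finset.mem_image.1 hx
    refine ⟨n / m, ?_, ?_⟩
    · exact Nat.lt_succ_of_le (Nat.div_le_div_right (hT n hn).1.le)
    · rw [hr n hn, hdec n hn]
  · refine Finset.card_image_of_injOn ?_
    intro n hn n' hn' h
    have h1 : q * n + a = q * n' + a := by
      rw [← hr n hn, ← hr n' hn']
      exact congrArg (fun z => z ^ 2) h
    exact Nat.eq_of_mul_eq_mul_left hq (Nat.add_right_cancel h1)
  · intro x hx
    obtain ⟨n, hn, rfl⟩ := Finset.mem_image.1 hx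
    change m * nn (q * m) (a + q * r) (Nat.sqrt (q * n + a)) + r ∈ T
    rw [hnn n hn, hback n hn]
    exact hn
  · intro m' r' hm'
    refine Finset.card_le_card_of_injOn (fun x => m * nn (q * m) (a + q * r) x + r) ?_ ?_
    · intro x hx
      rw [Finset.mem_coe, Finset.mem_filter] at hx
      obtain ⟨hx1, hx2⟩ := hx
      obtain ⟨n, hn, rfl⟩ := Finset.mem_image.1 hx1
      change nn (q * m) (a + q * r) (Nat.sqrt (q * n + a)) % m' = r' % m' at hx2
      rw [hnn n hn] at hx2
      rw [Finset.mem_coe, Finset.mem_filter]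
      change m * nn (q * m) (a + q * r) (Nat.sqrt (q * n + a)) + r ∈ T ∧
        (m * nn (q * m) (a + q * r) (Nat.sqrt (q * n + a)) + r) % (m * m') =
          (r + m * (r' % m')) % (m * m')
      rw [hnn n hn, hback n hn]
      refine ⟨hn, ?_⟩
      have hrm : r < m := by
        rw [← (hT n hn).2.1]
        exact Nat.mod_lt _ hm
      have hr'm : r' % m' + 1 ≤ m' := Nat.mod_lt _ hm'
      have hlt : r + m * (r' % m') < m * m' := by
        calc r + m * (r' % m') < m + m * (r' % m') := Nat.add_lt_add_right hrm _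
          _ = m * (r' % m' + 1) := by ring
          _ ≤ m * m' := Nat.mul_le_mul_left _ hr'm
      rw [Nat.mod_mul, (hT n hn).2.1, hx2, Nat.mod_eq_of_lt hlt]
    · intro x hx y hy h
      rw [Finset.mem_coe, Finset.mem_filter] at hx hy
      obtain ⟨n, hn, rfl⟩ := Finset.mem_image.1 hx.1
      obtain ⟨n', hn', rfl⟩ := Finset.mem_image.1 hy.1
      change m * nn (q * m) (a + q * r) (Nat.sqrt (q * n + a)) + r =
        m * nn (q * m) (a + q * r) (Nat.sqrt (q * n' + a)) + r at h
      rw [hnn n hn, hback n hn, hnn n' hn', hback n' hn'] at h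
      rw [h]

end Pool.Agent.Lib.MP_2c6f70_nt.RU
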