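import Pool.Agent.Lib.MP_2c6f70_nt.RU.Defs

/-!
# JOB EB: removal of common factors

`Rts q a N S` says that every `x ∈ S` satisfies `x^2 = a + q n` with some `n < N`; then `nn q a x = (x^2 - a) / q = n`.

Let `D = gcd (q, a)`, `D = b^2 d` with `d` squarefree (`Nat.sq_mul_squarefree`: `∃ a b, b ^ 2 * a = n ∧ Squarefree a`).  `b ≥ 1`.  For `x ∈ S`: `b^2 ∣ D ∣ x^2`, so `b ∣ x`
(`Nat.pow_dvd_pow_iff`).  Put `q' = q / b^2`, `a' = a / b^2`, `S' = S.image (· / b)`.  `(x / b)^2 = a' + q' n`: `Rts q' a' N S'`; `x ↦ x / b` is injective on `S`; `nn q' a' (x / b) = nn q a x`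
(same `n`), so the filters correspond and `Ext` and the cardinality are preserved; `gcd (q', a') = d`.

Suppose `d ≠ 1` and let `p` be a prime divisor of `d` (`p^2 ∤ d`).  For `x' ∈ S'`: `p ∣ x'^2`, so `p ∣ x'`, `p^2 ∣ x'^2 = a' + q' n`.  If `p^2 ∣ q'` then (`S'` nonempty) `p^2 ∣ a'`, so `p^2 ∣ gcd = d`, impossible.
So `q' = p q1`, `p ∤ q1`, `a' = p a1` and `p ∣ a1 + q1 n` for all indices `n` of `S'`: all indices lie in one class modulo `p`
(two of them: `p ∣ q1 (n - n2)`).  `Ext` with `m = p`, `r` = one of the indices: `#S ≤ #S p^(-σ) + 2 ≤ #S 2^(-1/2) + 2`, so `#S (1 - 0.7072) ≤ 2`, `#S ≤ 6`: contradiction with `8 ≤ #S`.  So `d = 1`.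
-/

set_option autoImplicit false

namespace Pool.Agent.Lib.MP_2c6f70_nt.RU

open Pool.Agent.Lib.MP_2c6f70_nt Pool.Agent.Lib.MP_2c6f70_nt.KW

private theorem EB_rpow {p : ℕ} {σ : ℝ} (hp : 2 ≤ p) (hσ : 1 / 2 ≤ σ) :
    (p : ℝ) ^ (-σ) ≤ 71 / 100 := by
  have hp2 : (2 : ℝ) ≤ p := by exact_mod_cast hp
  have h1 : (p : ℝ) ^ (-σ) ≤ (p : ℝ) ^ (-(1 / 2) : ℝ) :=
    Real.rpow_le_rpow_of_exponent_le (by linarith) (by linarith)
  have h2 : (p : ℝ) ^ (-(1 / 2) : ℝ) ≤ (2 : ℝ) ^ (-(1 / 2) : ℝ) :=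
    Real.rpow_le_rpow_of_nonpos (by norm_num) hp2 (by norm_num)
  have h3 : (2 : ℝ) ^ (-(1 / 2) : ℝ) = (Real.sqrt 2)⁻¹ := by
    rw [Real.rpow_neg (by norm_num), ← Real.sqrt_eq_rpow]
  have h4 : (100 / 71 : ℝ) ≤ Real.sqrt 2 := Real.le_sqrt_of_sq_le (by norm_num)
  have h5 : (Real.sqrt 2)⁻¹ ≤ (100 / 71 : ℝ)⁻¹ := inv_anti₀ (by norm_num) h4
  have h6 : (100 / 71 : ℝ)⁻¹ = 71 / 100 := by norm_num
  rw [h3] at h2
  rw [h6] at h5
  exact (h1.trans h2).trans h5

private theorem EB_cong {p q a x y m n : ℕ} (hp : p.Prime) (hpq : p ∣ q) (hpa : p ∣ a)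
    (hnq : ¬ (p * p ∣ q ∧ p * p ∣ a)) (hx : x ^ 2 = a + q * m) (hy : y ^ 2 = a + q * n) :
    m % p = n % p := by
  have hdv : ∀ {z k : ℕ}, z ^ 2 = a + q * k → p * p ∣ a + q * k := by
    intro z k hz
    have h1 : p ∣ z ^ 2 := by
      rw [hz]
      exact dvd_add hpa (Dvd.dvd.mul_right hpq k)
    have h2 : p ∣ z := hp.dvd_of_dvd_pow h1
    rw [← hz, sq]
    exact mul_dvd_mul h2 h2
  have hdx := hdv hx
  have hdy := hdv hy
  have hq2 : ¬ p * p ∣ q := by
    intro h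
    refine hnq ⟨h, ?_⟩
    exact (Nat.dvd_add_left (Dvd.dvd.mul_right h m)).1 hdx
  obtain ⟨q1, hq1⟩ := hpq
  have hpq1 : ¬ p ∣ q1 := by
    intro h
    refine hq2 ?_
    rw [hq1]
    exact mul_dvd_mul_left p h
  have hz : ((p * p : ℕ) : ℤ) ∣ (q : ℤ) * ((m : ℤ) - n) := by
    have h1 : ((p * p : ℕ) : ℤ) ∣ ((a + q * m : ℕ) : ℤ) := Int.natCast_dvd_natCast.2 hdx
    have h2 : ((p * p : ℕ) : ℤ) ∣ ((a + q * n : ℕ) : ℤ) := Int.natCast_dvd_natCast.2 hdy
    have h3 := dvd_sub h1 h2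
    have h4 : ((a + q * m : ℕ) : ℤ) - ((a + q * n : ℕ) : ℤ) = (q : ℤ) * ((m : ℤ) - n) := by
      push_cast
      ring
    rwa [h4] at h3
  have hp0 : (p : ℤ) ≠ 0 := by exact_mod_cast hp.ne_zero
  have hz2 : (p : ℤ) ∣ (q1 : ℤ) * ((m : ℤ) - n) := by
    have h5 : (p : ℤ) * p ∣ (p : ℤ) * ((q1 : ℤ) * ((m : ℤ) - n)) := by
      have h6 : (p : ℤ) * ((q1 : ℤ) * ((m : ℤ) - n)) = (q : ℤ) * ((m : ℤ) - n) := by
        rw [hq1]
        push_cast
        ring
      rw [h6]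
      exact_mod_cast hz
    exact (mul_dvd_mul_iff_left hp0).1 h5
  have hpz : Prime (p : ℤ) := Nat.prime_iff_prime_int.1 hp
  rcases hpz.dvd_or_dvd hz2 with h | h
  · exact absurd (Int.natCast_dvd_natCast.1 h) hpq1
  · have h7 : (m : ℤ) ≡ n [ZMOD p] := (Int.modEq_iff_dvd.2 h).symm
    exact (Int.natCast_modEq_iff.1 h7)

theorem coprime_of_ext {q a N : ℕ} {S : Finset ℕ} {σ : ℝ} (hσ : 1 / 2 ≤ σ) (hq : 1 ≤ q) (ha : 1 ≤ a)
    (hS : Rts q a N S) (hcard : 8 ≤ S.card) (hE : Ext q a S σ) :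
    ∃ (q' a' : ℕ) (S' : Finset ℕ), 1 ≤ q' ∧ q' ≤ q ∧ 1 ≤ a' ∧ Nat.Coprime q' a' ∧ Rts q' a' N S' ∧
      S'.card = S.card ∧ Ext q' a' S' σ := by
  classical
  obtain ⟨d, b, hD, hsf⟩ := Nat.sq_mul_squarefree (Nat.gcd q a)
  have hDpos : 0 < Nat.gcd q a := Nat.gcd_pos_of_pos_left a hq
  have hb : 0 < b := by
    rcases Nat.eq_zero_or_pos b with h | h
    · rw [h] at hD
      rw [← hD] at hDpos
      simp at hDpos
    · exact h
  have hb2 : 0 < b ^ 2 := pow_pos hb 2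
  have hbq : b ^ 2 ∣ q := (Dvd.intro d hD).trans (Nat.gcd_dvd_left q a)
  have hba : b ^ 2 ∣ a := (Dvd.intro d hD).trans (Nat.gcd_dvd_right q a)
  obtain ⟨q', hq'⟩ := hbq
  obtain ⟨a', ha'⟩ := hba
  have hq'1 : 1 ≤ q' := by
    rcases Nat.eq_zero_or_pos q' with h | h
    · rw [h, mul_zero] at hq'
      omega
    · exact h
  have ha'1 : 1 ≤ a' := by
    rcases Nat.eq_zero_or_pos a' with h | h
    · rw [h, mul_zero] at ha'
      omega
    · exact h
  have hgcd : Nat.gcd q' a' = d := by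
    have h1 : b ^ 2 * d = b ^ 2 * Nat.gcd q' a' := by
      rw [hD]
      conv_lhs => rw [hq', ha']
      rw [Nat.gcd_mul_left]
    exact (Nat.eq_of_mul_eq_mul_left hb2 h1).symm
  have key : ∀ x ∈ S, ∃ n < N, x = b * (x / b) ∧ (x / b) ^ 2 = a' + q' * n ∧ nn q a x = n ∧
      nn q' a' (x / b) = n := by
    intro x hx
    obtain ⟨n, hn, hxn⟩ := hS x hx
    have h1 : x ^ 2 = b ^ 2 * (a' + q' * n) := by
      rw [hxn]
      conv_lhs => rw [hq', ha']
      ring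
    have h2 : b ∣ x := (Nat.pow_dvd_pow_iff two_ne_zero).1 (Dvd.intro _ h1.symm)
    have h3 : b * (x / b) = x := Nat.mul_div_cancel' h2
    have h4 : (x / b) ^ 2 = a' + q' * n := by
      have h5 : b ^ 2 * (x / b) ^ 2 = b ^ 2 * (a' + q' * n) := by
        rw [← mul_pow, h3, h1]
      exact Nat.eq_of_mul_eq_mul_left hb2 h5
    refine ⟨n, hn, h3.symm, h4, ?_, ?_⟩
    · unfold nn
      rw [hxn, Nat.add_sub_cancel_left, Nat.mul_div_cancel_left _ hq]
    · unfold nn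
      rw [h4, Nat.add_sub_cancel_left, Nat.mul_div_cancel_left _ hq'1]
  have hR : Rts q' a' N (S.image (fun x => x / b)) := by
    intro y hy
    obtain ⟨x, hx, rfl⟩ := Finset.mem_image.1 hy
    obtain ⟨n, hn, -, h4, -, -⟩ := key x hx
    exact ⟨n, hn, h4⟩
  have hC : (S.image (fun x => x / b)).card = S.card := by
    refine Finset.card_image_of_injOn ?_
    intro x hx y hy h
    obtain ⟨-, -, h1, -⟩ := key x hx
    obtain ⟨-, -, h2, -⟩ := key y hy
    have h3 : x / b = y / b := h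
    rw [h1, h2, h3]
  have hX : Ext q' a' (S.image (fun x => x / b)) σ := by
    intro m r hm
    rw [hC]
    refine le_trans ?_ (hE m r hm)
    have h1 : ((S.image (fun x => x / b)).filter (fun x => nn q' a' x % m = r % m)).card ≤
        (S.filter (fun x => nn q a x % m = r % m)).card := by
      refine le_trans (le_of_eq (congrArg Finset.card ?_))
        (Finset.card_image_le (f := fun x => x / b))
      ext y
      rw [Finset.mem_filter, Finset.mem_image, Finset.mem_image]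
      constructor
      · rintro ⟨⟨x, hx, rfl⟩, h2⟩
        obtain ⟨n, -, -, -, h3, h4⟩ := key x hx
        refine ⟨x, Finset.mem_filter.2 ⟨hx, ?_⟩, rfl⟩
        rw [h3, ← h4]
        exact h2
      · rintro ⟨x, hx, rfl⟩
        obtain ⟨hx1, hx2⟩ := Finset.mem_filter.1 hx
        obtain ⟨n, -, -, -, h3, h4⟩ := key x hx1
        refine ⟨⟨x, hx1, rfl⟩, ?_⟩
        rw [h4, ← h3]
        exact hx2
    exact_mod_cast h1
  refine ⟨q', a', S.image (fun x => x / b), hq'1, ?_, ha'1, ?_, hR, hC, hX⟩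
  · rw [hq']
    exact Nat.le_mul_of_pos_left q' hb2
  · by_contra hcop
    have hd1 : d ≠ 1 := by
      intro h
      rw [h] at hgcd
      exact hcop hgcd
    obtain ⟨p, hp, hpd⟩ := Nat.exists_prime_and_dvd hd1
    have hpq : p ∣ q' := by
      rw [← hgcd] at hpd
      exact hpd.trans (Nat.gcd_dvd_left q' a')
    have hpa : p ∣ a' := by
      rw [← hgcd] at hpd
      exact hpd.trans (Nat.gcd_dvd_right q' a')
    have hnpp : ¬ (p * p ∣ q' ∧ p * p ∣ a') := by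
      rintro ⟨h1, h2⟩
      have h3 : p * p ∣ d := by
        rw [← hgcd]
        exact Nat.dvd_gcd h1 h2
      exact hp.one_lt.ne' (Nat.isUnit_iff.1 (hsf p h3))
    have hne : (S.image (fun x => x / b)).Nonempty := by
      rw [← Finset.card_pos, hC]
      omega
    obtain ⟨x0, hx0⟩ := hne
    have hall : (S.image (fun x => x / b)).filter
        (fun x => nn q' a' x % p = nn q' a' x0 % p) = S.image (fun x => x / b) := by
      rw [Finset.filter_eq_self]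
      intro y hy
      obtain ⟨m, -, hm⟩ := hR y hy
      obtain ⟨n, -, hn⟩ := hR x0 hx0
      have h1 : nn q' a' y = m := by
        unfold nn
        rw [hm, Nat.add_sub_cancel_left, Nat.mul_div_cancel_left _ hq'1]
      have h2 : nn q' a' x0 = n := by
        unfold nn
        rw [hn, Nat.add_sub_cancel_left, Nat.mul_div_cancel_left _ hq'1]
      rw [h1, h2]
      exact EB_cong hp hpq hpa hnpp hm hn
    have h1 := hX p (nn q' a' x0) hp.one_le
    rw [hall, hC] at h1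
    have h2 := EB_rpow hp.two_le hσ
    have h3 : (8 : ℝ) ≤ S.card := by exact_mod_cast hcard
    nlinarith

end Pool.Agent.Lib.MP_2c6f70_nt.RU
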