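import Pool.Agent.Lib.MP_2c6f70_nt.RU.EA
import Pool.Agent.Lib.MP_2c6f70_nt.RU.EB

/-!
# JOB EC: reduction to an extremal coprime progression

`σ = 1/2 + ε`.  `(m, r)` from `exists_max_class T N σ`, `T' = T.filter (· % m = r)`, `S` from `class_roots` (with `T'`), `N' = N / m + 1`.
* `#T' m^σ ≥ #T ≥ N^(1/2 + 2ε)` (take `m' = 1`, `r' = 0`), so `#S = #T' ≥ N^(1/2+2ε) m^(-σ) = (N/m)^(1/2+ε) N^ε` (real division).
* `N' ≤ 2 (N/m)` (as `m ≤ N`), so `N'^(1/2+ε) ≤ 2 (N/m)^(1/2+ε) ≤ N^ε (N/m)^(1/2+ε) ≤ #S` for large `N` (`2^(1/2+ε) ≤ 2`).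
* `#S ≤ N'` (the indices are different and `< N'`: `Rts`, `nn` injective; or `#S = #T' ≤ ...` and `x ↦ nn x` injective), so `(N/m)^(1/2+ε) N^ε ≤ 2 (N/m)`, hence `N^ε ≤ 2 (N/m)^(1/2-ε) ≤ 2 N/m ≤ 2 N'`: `N'` is large when `N` is large,
  and `N ≤ (2 N')^(1/ε)`.
* `Ext (q m) (a + q r) S σ`: for `m' ≥ 1`, `r'`: if `m m' ≤ N`: by `class_roots` and maximality `#{x ∈ S : nn x ≡ r' (m')} (m m')^σ ≤ #{n ∈ T' : n ≡ .. (m m')} (m m')^σ ≤ #{n ∈ T: ..} (m m')^σ ≤ #T' m^σ`, divide by `(m m')^σ`.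
  If `m m' > N` then `N / m < m'`, `N' ≤ m'`, so at most one index `< N'` is in the class: `≤ 1 ≤ 2`.
* `coprime_of_ext` (`#S ≥ 8` for large `N`): `q'`, `a'`, `S'`.  `q' ≥ 2`: if `q' = 1` then `S'` consists of integers `x` with `a' ≤ x^2 < a' + N'`; the indices are different and `x ≤ y` in `S'` gives `(y - x)^2 ≤ y^2 - x^2 < N'`, so all elements lie in an
  interval of length `sqrt N'`: `#S' ≤ sqrt N' + 1 < N'^(1/2+ε)` for large `N'`: contradiction.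
* `log q' ≤ log (q m) ≤ N^A + log N ≤ 2 N^(max A 1) ≤ 2 (2 N')^(max A 1 / ε) ≤ N'^A'` with `A' = 2 (max A 1) / ε + 1`, say, for large `N'`.
-/

set_option autoImplicit false

namespace Pool.Agent.Lib.MP_2c6f70_nt.RU

open Pool.Agent.Lib.MP_2c6f70_nt Pool.Agent.Lib.MP_2c6f70_nt.KW

private theorem EC_nn {q a N : ℕ} {S : Finset ℕ} (hq : 1 ≤ q) (hS : Rts q a N S) :
    ∀ x ∈ S, nn q a x < N ∧ x ^ 2 = a + q * nn q a x := by
  intro x hx
  obtain ⟨n, hn, h⟩ := hS x hx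
  have h1 : nn q a x = n := by
    unfold nn
    rw [h, Nat.add_sub_cancel_left, Nat.mul_div_cancel_left _ hq]
  rw [h1]
  exact ⟨hn, h⟩

private theorem EC_inj {q a N : ℕ} {S : Finset ℕ} (hq : 1 ≤ q) (hS : Rts q a N S) :
    ∀ x ∈ S, ∀ y ∈ S, nn q a x = nn q a y → x = y := by
  intro x hx y hy h
  have h1 := (EC_nn hq hS x hx).2
  have h2 := (EC_nn hq hS y hy).2
  have h3 : x ^ 2 = y ^ 2 := by rw [h1, h2, h]
  exact Nat.pow_left_injective (by norm_num : (2 : ℕ) ≠ 0) h3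

private theorem EC_card {q a N : ℕ} {S : Finset ℕ} (hq : 1 ≤ q) (hS : Rts q a N S) :
    S.card ≤ N := by
  have h1 : S.card ≤ (Finset.range N).card := by
    apply Finset.card_le_card_of_injOn (nn q a)
    · intro x hx
      simp only [Finset.coe_range, Set.mem_Iio]
      exact (EC_nn hq hS x hx).1
    · intro x hx y hy h
      exact EC_inj hq hS x hx y hy h
  simpa using h1

private theorem EC_one {a N : ℕ} {S : Finset ℕ} (hS : Rts 1 a N S) : S.card ≤ Nat.sqrt N + 1 := by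
  rcases S.eq_empty_or_nonempty with h0 | h0
  · simp [h0]
  · have hmem := S.min'_mem h0
    set x₀ := S.min' h0 with hx₀
    have hsub : S ⊆ Finset.Icc x₀ (x₀ + Nat.sqrt N) := by
      intro y hy
      have hle : x₀ ≤ y := S.min'_le y hy
      obtain ⟨n, hn, h1⟩ := hS y hy
      obtain ⟨n', hn', h2⟩ := hS x₀ hmem
      obtain ⟨t, ht⟩ := Nat.exists_eq_add_of_le hle
      rw [Finset.mem_Icc]
      refine ⟨hle, ?_⟩
      rw [ht]
      apply Nat.add_le_add_left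
      rw [Nat.le_sqrt]
      have h3 : t * t + x₀ ^ 2 ≤ y ^ 2 := by
        rw [ht]
        nlinarith [Nat.zero_le (x₀ * t)]
      omega
    have h1 := Finset.card_le_card hsub
    rw [Nat.card_Icc] at h1
    omega

theorem reduction (A ε : ℝ) (hε : 0 < ε) (hε1 : ε ≤ 1 / 4) :
    ∃ A' : ℝ, ∀ N₁ : ℕ, ∃ N₀ : ℕ, ∀ N ≥ N₀, ∀ q a : ℕ, 1 ≤ q → 1 ≤ a → Real.log q ≤ (N : ℝ) ^ A →
      ∀ T : Finset ℕ, (∀ n ∈ T, n < N ∧ IsSquare (q * n + a)) →
      (N : ℝ) ^ (1 / 2 + 2 * ε) ≤ (T.card : ℝ) →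
      ∃ N' ≥ N₁, ∃ (q' a' : ℕ) (S' : Finset ℕ), Ctx q' a' N' S' ∧ Ext q' a' S' (1 / 2 + ε) ∧
        (N' : ℝ) ^ (1 / 2 + ε) ≤ (S'.card : ℝ) ∧ Real.log q' ≤ (N' : ℝ) ^ A' := by
  refine ⟨2 * (max A 1 / ε) + 1, ?_⟩
  intro N₁
  set M : ℕ := max (max N₁ 64) (Nat.ceil ((3 : ℝ) ^ (1 / ε))) with hMdef
  have hM1 : N₁ ≤ M := le_trans (le_max_left _ _) (le_max_left _ _)
  have hM64 : 64 ≤ M := le_trans (le_max_right _ _) (le_max_left _ _)
  have hM3 : Nat.ceil ((3 : ℝ) ^ (1 / ε)) ≤ M := le_max_right _ _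
  refine ⟨Nat.ceil ((2 * (M : ℝ)) ^ (1 / ε)), ?_⟩
  intro N hN q a hq ha hlog T hT hcard
  have hεne : ε ≠ 0 := ne_of_gt hε
  have hM0 : (64 : ℝ) ≤ (M : ℝ) := by exact_mod_cast hM64
  have hNr : (2 * (M : ℝ)) ^ (1 / ε) ≤ (N : ℝ) := le_trans (Nat.le_ceil _) (by exact_mod_cast hN)
  have hN1r : (1 : ℝ) ≤ (N : ℝ) := by
    refine le_trans ?_ hNr
    apply Real.one_le_rpow
    · linarith
    · positivity
  have hN1 : 1 ≤ N := by exact_mod_cast hN1r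
  have hNε : 2 * (M : ℝ) ≤ (N : ℝ) ^ ε := by
    have h1 : (2 * (M : ℝ)) = ((2 * (M : ℝ)) ^ (1 / ε)) ^ ε := by
      rw [← Real.rpow_mul (by positivity), one_div, inv_mul_cancel₀ hεne, Real.rpow_one]
    rw [h1]
    exact Real.rpow_le_rpow (by positivity) hNr hε.le
  obtain ⟨m, r, hm1, hmN, hrm, hmax⟩ := exists_max_class T N hN1 (1 / 2 + ε)
  set T' : Finset ℕ := T.filter (fun n => n % m = r) with hT'
  have hT'prop : ∀ n ∈ T', n < N ∧ n % m = r ∧ IsSquare (q * n + a) := by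
    intro n hn
    rw [hT', Finset.mem_filter] at hn
    exact ⟨(hT n hn.1).1, hn.2, (hT n hn.1).2⟩
  obtain ⟨S, hSR, hScard, hSmem, hSclass⟩ := class_roots hq hm1 T' hT'prop
  have hqm : 1 ≤ q * m := Nat.one_le_iff_ne_zero.mpr (by positivity)
  have haq : 1 ≤ a + q * r := le_trans ha (Nat.le_add_right _ _)
  have hmr : (1 : ℝ) ≤ (m : ℝ) := by exact_mod_cast hm1
  have hm0 : (0 : ℝ) < (m : ℝ) := by linarith
  have hσ0 : (0 : ℝ) < 1 / 2 + ε := by linarith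
  have hmσ : (0 : ℝ) < (m : ℝ) ^ (1 / 2 + ε) := Real.rpow_pos_of_pos hm0 _
  -- the size of the class
  have hTT : (T.card : ℝ) ≤ (S.card : ℝ) * (m : ℝ) ^ (1 / 2 + ε) := by
    have h1 := hmax 1 0 le_rfl hN1
    have h2 : T.filter (fun n => n % 1 = 0 % 1) = T := by
      apply Finset.filter_true_of_mem
      intro n _
      rw [Nat.mod_one, Nat.zero_mod]
    rw [h2, Nat.cast_one, Real.one_rpow, mul_one] at h1
    rw [hScard]
    exact h1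
  -- real quotient
  set ρ : ℝ := (N : ℝ) / m with hρ
  have hρ1 : 1 ≤ ρ := by
    rw [hρ, le_div_iff₀ hm0, one_mul]
    exact_mod_cast hmN
  have hρ0 : 0 < ρ := by linarith
  have hN0 : (0 : ℝ) < (N : ℝ) := by linarith
  have hSlow : ρ ^ (1 / 2 + ε) * (N : ℝ) ^ ε ≤ (S.card : ℝ) := by
    have h1 : (N : ℝ) ^ (1 / 2 + 2 * ε) ≤ (S.card : ℝ) * (m : ℝ) ^ (1 / 2 + ε) := le_trans hcard hTT
    have h2 : (N : ℝ) ^ (1 / 2 + 2 * ε) = (N : ℝ) ^ (1 / 2 + ε) * (N : ℝ) ^ ε := by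
      rw [← Real.rpow_add hN0]
      ring_nf
    rw [h2] at h1
    rw [hρ, Real.div_rpow hN0.le hm0.le, div_mul_eq_mul_div, div_le_iff₀ hmσ]
    exact h1
  set N' : ℕ := N / m + 1 with hN'
  have hN'ρ : ρ ≤ (N' : ℝ) := by
    rw [hρ, div_le_iff₀ hm0, hN']
    have h1 : N < m * (N / m + 1) := Nat.lt_mul_div_succ N (by omega)
    have h2 : (N : ℝ) < (m : ℝ) * ((N / m + 1 : ℕ) : ℝ) := by exact_mod_cast h1
    linarith
  have hN'2 : (N' : ℝ) ≤ 2 * ρ := by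
    have h1 : ((N / m : ℕ) : ℝ) ≤ ρ := Nat.cast_div_le
    have h2 : (N' : ℝ) = ((N / m : ℕ) : ℝ) + 1 := by rw [hN']; push_cast; ring
    rw [h2]
    linarith
  have hN'0 : (0 : ℝ) < (N' : ℝ) := lt_of_lt_of_le hρ0 hN'ρ
  have hNε2 : (2 : ℝ) ≤ (N : ℝ) ^ ε := by linarith
  have hNε0 : (0 : ℝ) < (N : ℝ) ^ ε := by linarith
  have hρσ : (0 : ℝ) < ρ ^ (1 / 2 + ε) := Real.rpow_pos_of_pos hρ0 _
  have hN'σ : (N' : ℝ) ^ (1 / 2 + ε) ≤ (S.card : ℝ) := by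
    have h1 : (N' : ℝ) ^ (1 / 2 + ε) ≤ (2 * ρ) ^ (1 / 2 + ε) :=
      Real.rpow_le_rpow hN'0.le hN'2 hσ0.le
    have h2 : (2 * ρ) ^ (1 / 2 + ε) = (2 : ℝ) ^ (1 / 2 + ε) * ρ ^ (1 / 2 + ε) :=
      Real.mul_rpow (by norm_num) hρ0.le
    have h3 : (2 : ℝ) ^ (1 / 2 + ε) ≤ 2 := by
      have h4 : (2 : ℝ) ^ (1 / 2 + ε) ≤ (2 : ℝ) ^ (1 : ℝ) :=
        Real.rpow_le_rpow_of_exponent_le (by norm_num) (by linarith)
      rwa [Real.rpow_one] at h4
    calc (N' : ℝ) ^ (1 / 2 + ε) ≤ (2 : ℝ) ^ (1 / 2 + ε) * ρ ^ (1 / 2 + ε) := by rw [← h2]; exact h1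
      _ ≤ (N : ℝ) ^ ε * ρ ^ (1 / 2 + ε) :=
          mul_le_mul_of_nonneg_right (le_trans h3 hNε2) hρσ.le
      _ = ρ ^ (1 / 2 + ε) * (N : ℝ) ^ ε := mul_comm _ _
      _ ≤ (S.card : ℝ) := hSlow
  have hSN' : (S.card : ℝ) ≤ (N' : ℝ) := by exact_mod_cast EC_card hqm hSR
  have hNεN' : (N : ℝ) ^ ε ≤ 2 * (N' : ℝ) := by
    have h1 : ρ ^ (1 / 2 + ε) * (N : ℝ) ^ ε ≤ 2 * ρ := le_trans hSlow (le_trans hSN' hN'2)
    have h2 : ρ = ρ ^ (1 / 2 + ε) * ρ ^ (1 / 2 - ε) := by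
      rw [← Real.rpow_add hρ0]
      have h3 : (1 / 2 + ε + (1 / 2 - ε) : ℝ) = 1 := by ring
      rw [h3, Real.rpow_one]
    have h3 : ρ ^ (1 / 2 + ε) * (N : ℝ) ^ ε ≤ ρ ^ (1 / 2 + ε) * (2 * ρ ^ (1 / 2 - ε)) := by
      calc ρ ^ (1 / 2 + ε) * (N : ℝ) ^ ε ≤ 2 * ρ := h1
        _ = 2 * (ρ ^ (1 / 2 + ε) * ρ ^ (1 / 2 - ε)) := by rw [← h2]
        _ = ρ ^ (1 / 2 + ε) * (2 * ρ ^ (1 / 2 - ε)) := by ring
    have h4 : (N : ℝ) ^ ε ≤ 2 * ρ ^ (1 / 2 - ε) := le_of_mul_le_mul_left h3 hρσ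
    have h5 : ρ ^ (1 / 2 - ε) ≤ ρ := by
      have h6 : ρ ^ (1 / 2 - ε) ≤ ρ ^ (1 : ℝ) := Real.rpow_le_rpow_of_exponent_le hρ1 (by linarith)
      rwa [Real.rpow_one] at h6
    linarith
  have hMN' : (M : ℝ) ≤ (N' : ℝ) := by linarith
  have hMN'n : M ≤ N' := by exact_mod_cast hMN'
  -- `Ext`
  have hExt : Ext (q * m) (a + q * r) S (1 / 2 + ε) := by
    intro m' r' hm'
    have hm'r : (1 : ℝ) ≤ (m' : ℝ) := by exact_mod_cast hm'
    have hm'0 : (0 : ℝ) < (m' : ℝ) := by linarith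
    rcases Nat.lt_or_ge N (m * m') with hlt | hge
    · have h1 : N / m < m' := by
        rw [Nat.div_lt_iff_lt_mul (by omega)]
        rw [mul_comm]
        exact hlt
      have h2 : (S.filter (fun x => nn (q * m) (a + q * r) x % m' = r' % m')).card ≤ 1 := by
        rw [Finset.card_le_one]
        intro x hx y hy
        rw [Finset.mem_filter] at hx hy
        have hx1 := (EC_nn hqm hSR x hx.1).1
        have hy1 := (EC_nn hqm hSR y hy.1).1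
        apply EC_inj hqm hSR x hx.1 y hy.1
        have hx2 : nn (q * m) (a + q * r) x % m' = nn (q * m) (a + q * r) x :=
          Nat.mod_eq_of_lt (by omega)
        have hy2 : nn (q * m) (a + q * r) y % m' = nn (q * m) (a + q * r) y :=
          Nat.mod_eq_of_lt (by omega)
        rw [← hx2, ← hy2, hx.2, hy.2]
      have h3 : ((S.filter (fun x => nn (q * m) (a + q * r) x % m' = r' % m')).card : ℝ) ≤ 1 := by
        exact_mod_cast h2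
      have h4 : (0 : ℝ) ≤ S.card * (m' : ℝ) ^ (-(1 / 2 + ε)) := by positivity
      linarith
    · have h1 := hSclass m' r' hm'
      have h2 : (T'.filter (fun n => n % (m * m') = (r + m * (r' % m')) % (m * m'))).card ≤
          (T.filter (fun n => n % (m * m') = (r + m * (r' % m')) % (m * m'))).card := by
        apply Finset.card_le_card
        apply Finset.filter_subset_filter
        rw [hT']
        exact Finset.filter_subset _ _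
      have h3 := hmax (m * m') (r + m * (r' % m')) (Nat.one_le_iff_ne_zero.mpr (by positivity)) hge
      have h4 : ((S.filter (fun x => nn (q * m) (a + q * r) x % m' = r' % m')).card : ℝ) ≤
          ((T.filter (fun n => n % (m * m') = (r + m * (r' % m')) % (m * m'))).card : ℝ) := by
        exact_mod_cast le_trans h1 h2
      have h5 : (((m * m' : ℕ) : ℝ)) ^ (1 / 2 + ε) = (m : ℝ) ^ (1 / 2 + ε) * (m' : ℝ) ^ (1 / 2 + ε) := by
        rw [Nat.cast_mul, Real.mul_rpow hm0.le hm'0.le]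
      have hm'σ : (0 : ℝ) < (m' : ℝ) ^ (1 / 2 + ε) := Real.rpow_pos_of_pos hm'0 _
      have h6 : ((S.filter (fun x => nn (q * m) (a + q * r) x % m' = r' % m')).card : ℝ) *
          ((m : ℝ) ^ (1 / 2 + ε) * (m' : ℝ) ^ (1 / 2 + ε)) ≤ (S.card : ℝ) * (m : ℝ) ^ (1 / 2 + ε) := by
        rw [hScard, ← h5]
        exact le_trans (mul_le_mul_of_nonneg_right h4 (by positivity)) h3
      have h7 : ((S.filter (fun x => nn (q * m) (a + q * r) x % m' = r' % m')).card : ℝ) *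
          (m' : ℝ) ^ (1 / 2 + ε) ≤ (S.card : ℝ) := by
        have h8 : (m : ℝ) ^ (1 / 2 + ε) *
            (((S.filter (fun x => nn (q * m) (a + q * r) x % m' = r' % m')).card : ℝ) *
              (m' : ℝ) ^ (1 / 2 + ε)) ≤ (m : ℝ) ^ (1 / 2 + ε) * (S.card : ℝ) := by
          nlinarith [h6]
        exact le_of_mul_le_mul_left h8 hmσ
      have h9 : (m' : ℝ) ^ (-(1 / 2 + ε)) = ((m' : ℝ) ^ (1 / 2 + ε))⁻¹ := Real.rpow_neg hm'0.le _
      have h10 : ((S.filter (fun x => nn (q * m) (a + q * r) x % m' = r' % m')).card : ℝ) ≤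
          (S.card : ℝ) * (m' : ℝ) ^ (-(1 / 2 + ε)) := by
        rw [h9, ← div_eq_mul_inv, le_div_iff₀ hm'σ]
        exact h7
      linarith
  have hN'1 : (1 : ℝ) ≤ (N' : ℝ) := by linarith
  have hsq : (N' : ℝ) ^ (1 / 2 : ℝ) = Real.sqrt (N' : ℝ) := (Real.sqrt_eq_rpow _).symm
  have hsqle : Real.sqrt (N' : ℝ) ≤ (N' : ℝ) ^ (1 / 2 + ε) := by
    rw [← hsq]
    exact Real.rpow_le_rpow_of_exponent_le hN'1 (by linarith)
  have hS8 : 8 ≤ S.card := by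
    have h1 : (8 : ℝ) ≤ Real.sqrt (N' : ℝ) := by
      rw [show (8 : ℝ) = Real.sqrt (64 : ℝ) by
        rw [show (64 : ℝ) = 8 ^ 2 by norm_num, Real.sqrt_sq (by norm_num)]]
      exact Real.sqrt_le_sqrt (by linarith)
    have h2 : (8 : ℝ) ≤ (S.card : ℝ) := le_trans h1 (le_trans hsqle hN'σ)
    exact_mod_cast h2
  obtain ⟨q', a', S', hq'1, hq'le, ha'1, hcop, hRts', hS'card, hExt'⟩ :=
    coprime_of_ext (by linarith : (1 / 2 : ℝ) ≤ 1 / 2 + ε) hqm haq hSR hS8 hExt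
  have hS'σ : (N' : ℝ) ^ (1 / 2 + ε) ≤ (S'.card : ℝ) := by
    rw [hS'card]
    exact hN'σ
  -- `q' ≥ 2`
  have hq'2 : 2 ≤ q' := by
    by_contra hcon
    have hq1 : q' = 1 := by omega
    rw [hq1] at hRts'
    have h1 := EC_one hRts'
    have h2 : (S'.card : ℝ) ≤ Real.sqrt (N' : ℝ) + 1 := by
      have h3 : (S'.card : ℝ) ≤ (Nat.sqrt N' : ℝ) + 1 := by exact_mod_cast h1
      have h4 : (Nat.sqrt N' : ℝ) ≤ Real.sqrt (N' : ℝ) := Real.nat_sqrt_le_real_sqrt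
      linarith
    have h5 : (N' : ℝ) ^ (1 / 2 + ε) = Real.sqrt (N' : ℝ) * (N' : ℝ) ^ ε := by
      rw [Real.rpow_add hN'0, hsq]
    have h6 : (3 : ℝ) ≤ (N' : ℝ) ^ ε := by
      have h7 : (3 : ℝ) ^ (1 / ε) ≤ (N' : ℝ) := by
        refine le_trans (Nat.le_ceil _) ?_
        exact_mod_cast le_trans hM3 hMN'n
      have h8 : (3 : ℝ) = ((3 : ℝ) ^ (1 / ε)) ^ ε := by
        rw [← Real.rpow_mul (by norm_num), one_div, inv_mul_cancel₀ hεne, Real.rpow_one]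
      rw [h8]
      exact Real.rpow_le_rpow (by positivity) h7 hε.le
    have h9 : (1 : ℝ) ≤ Real.sqrt (N' : ℝ) := by
      rw [show (1 : ℝ) = Real.sqrt 1 by rw [Real.sqrt_one]]
      exact Real.sqrt_le_sqrt hN'1
    have h10 : Real.sqrt (N' : ℝ) * 3 ≤ Real.sqrt (N' : ℝ) * (N' : ℝ) ^ ε :=
      mul_le_mul_of_nonneg_left h6 (by linarith)
    rw [h5] at hS'σ
    linarith
  refine ⟨N', le_trans hM1 hMN'n, q', a', S', ⟨hq'2, ha'1, by omega, hcop, hRts'⟩, hExt', hS'σ, ?_⟩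
  -- the logarithm
  have hB1 : (1 : ℝ) ≤ max A 1 := le_max_right _ _
  have hBA : A ≤ max A 1 := le_max_left _ _
  have hB0 : (0 : ℝ) < max A 1 := by linarith
  have hlq : Real.log (q' : ℝ) ≤ 2 * (N : ℝ) ^ (max A 1) := by
    have h1 : (q' : ℝ) ≤ (q : ℝ) * (m : ℝ) := by exact_mod_cast hq'le
    have hq'0 : (0 : ℝ) < (q' : ℝ) := by exact_mod_cast (by omega : 0 < q')
    have hq0 : (q : ℝ) ≠ 0 := by
      have : q ≠ 0 := by omega
      exact_mod_cast this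
    have h2 : Real.log (q' : ℝ) ≤ Real.log q + Real.log m := by
      rw [← Real.log_mul hq0 hm0.ne']
      exact Real.log_le_log hq'0 h1
    have h3 : Real.log (m : ℝ) ≤ (N : ℝ) ^ (max A 1) := by
      have h4 : Real.log (m : ℝ) ≤ (m : ℝ) - 1 := Real.log_le_sub_one_of_pos hm0
      have h5 : (m : ℝ) ≤ (N : ℝ) := by exact_mod_cast hmN
      have h6 : (N : ℝ) ≤ (N : ℝ) ^ (max A 1) := by
        have h7 : (N : ℝ) ^ (1 : ℝ) ≤ (N : ℝ) ^ (max A 1) :=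
          Real.rpow_le_rpow_of_exponent_le hN1r hB1
        rwa [Real.rpow_one] at h7
      linarith
    have h8 : (N : ℝ) ^ A ≤ (N : ℝ) ^ (max A 1) := Real.rpow_le_rpow_of_exponent_le hN1r hBA
    linarith
  have hNle : (N : ℝ) ^ (max A 1) ≤ ((N' : ℝ) ^ (2 : ℝ)) ^ (max A 1 / ε) := by
    have h1 : (N : ℝ) ^ (max A 1) = ((N : ℝ) ^ ε) ^ (max A 1 / ε) := by
      rw [← Real.rpow_mul hN0.le, mul_div_cancel₀ _ hεne]
    rw [h1]
    apply Real.rpow_le_rpow hNε0.le _ (by positivity)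
    refine le_trans hNεN' ?_
    rw [show (2 : ℝ) = ((2 : ℕ) : ℝ) by norm_num, Real.rpow_natCast]
    push_cast
    nlinarith
  have hfin : (N' : ℝ) ^ (2 * (max A 1 / ε) + 1) = ((N' : ℝ) ^ (2 : ℝ)) ^ (max A 1 / ε) * (N' : ℝ) := by
    rw [Real.rpow_add hN'0, Real.rpow_one, Real.rpow_mul hN'0.le]
  rw [hfin]
  have hpos : (0 : ℝ) ≤ ((N' : ℝ) ^ (2 : ℝ)) ^ (max A 1 / ε) := by positivity
  calc Real.log (q' : ℝ) ≤ 2 * (N : ℝ) ^ (max A 1) := hlq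
    _ ≤ 2 * ((N' : ℝ) ^ (2 : ℝ)) ^ (max A 1 / ε) := by linarith
    _ = ((N' : ℝ) ^ (2 : ℝ)) ^ (max A 1 / ε) * 2 := mul_comm _ _
    _ ≤ ((N' : ℝ) ^ (2 : ℝ)) ^ (max A 1 / ε) * (N' : ℝ) :=
        mul_le_mul_of_nonneg_left (by linarith) hpos

end Pool.Agent.Lib.MP_2c6f70_nt.RU
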