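import Pool.Agent.Lib.MP_2c6f70_nt.RU.IC
import Pool.Agent.Lib.MP_2c6f70_nt.RU.DC

/-!
# JOB FA: many small primes

`W = log q`, `L = log N`, `s = 1/2 + ε`, `η = ε/4`, `Γ = (2 + η)/s`, `θ = ε/8`, `x = 1/4 + ε/4`, `A₁ = max A 1`, `B = 2 A₁ (1 + θ) Γ`.  `sharp_moment`: `∑_p wp^2 ≤ Γ W log W`.
`P = {p ∈ G : L/8 ≤ wp q p ≤ (1+θ) Γ log W}`, `Z = exp ((1+θ) Γ log W) = W^((1+θ)Γ)`; for `p ∈ G` (odd: `p % 4 = 1`) `wp q p = v log p ≥ log p`, so `p ≤ Z` for `p ∈ P` (`mr_pow`).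
* `∑_{p ∣ q, wp > (1+θ)Γ log W} wp ≤ ∑ wp^2 / ((1+θ) Γ log W) ≤ W/(1+θ)`.
* `∑_{p ∈ G, wp < L/8} wp ≤ N^(1/8) L/8` (such `p` satisfy `log p ≤ wp < L/8`), which is `≤ (θ/8) W` for large `N` (`W ≥ N^(1/4)`).
* with `κ₁ = θ/8` (`θ ≤ 1/32`, `1/(1+θ) ≤ 1 - θ/2`): `∑_{p ∈ P} wp ≥ W (1 - θ/8 - 1/(1+θ) - θ/8) ≥ (θ/4) W`.
* so `#P ≥ (θ/4) W / ((1+θ) Γ log W) ≥ (θ/(5Γ)) W/log W`; `≥ N^(1/5)` for large `N`.
* `Z^x = W^((1+θ) Γ x)` and `(1+θ) Γ x = (1+θ)(1+η/2)(1+ε)/(1+2ε) ≤ 1 - 0.4 ε` (`ε ≤ 1/4`), so `Z^x ≤ W^(1-0.4ε) ≤ #P` for large `N`.  `Z ≤ N^B`: `log W ≤ A₁ L`.  `1 < Z`.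
* for `X ⊆ P` with `∑_X wp ≤ δ W`: `#X L/8 ≤ δ W`, `#X ≤ 8 δ W/L ≤ 8 δ A₁ W/log W ≤ (40 Γ A₁/θ) δ #P`: `c₁ = θ/(40 Γ A₁)`.
(`δ ≥ 0` automatically if `X` is nonempty; if `δ < 0` then `∑_X wp ≤ δ W < 0` is impossible.)
-/

set_option autoImplicit false

namespace Pool.Agent.Lib.MP_2c6f70_nt.RU

open Pool.Agent.Lib.MP_2c6f70_nt Pool.Agent.Lib.MP_2c6f70_nt.KW

private theorem FA_num {ε : ℝ} (hε : 0 < ε) (hε1 : ε ≤ 1 / 4) :
    (1 + ε / 8) * ((2 + ε / 4) / (1 / 2 + ε)) * (1 / 4 + ε / 4) ≤ 1 - 2 / 5 * ε := by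
  have h1 : (0 : ℝ) < 1 / 2 + ε := by linarith
  rw [mul_div_assoc', div_mul_eq_mul_div, div_le_iff₀ h1]
  nlinarith [mul_pos hε hε, mul_pos (mul_pos hε hε) hε, mul_nonneg (mul_pos hε hε).le (sub_nonneg.mpr hε1),
    mul_nonneg hε.le (sub_nonneg.mpr hε1)]

/-- The mass of the middle part. -/
private theorem FA_mass {G : Finset ℕ} {w : ℕ → ℝ} {W T ℓ θ : ℝ} (hW : 0 < W) (hT : 0 < T) (hθ : 0 < θ)
    (hθ1 : θ ≤ 1 / 32) (hG : (1 - θ / 8) * W ≤ ∑ p ∈ G, w p)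
    (hsq : ∑ p ∈ G, w p ^ 2 ≤ T * W / (1 + θ))
    (hl : ∑ p ∈ G.filter (fun p => w p < ℓ), w p ≤ θ / 8 * W) :
    θ / 2 * W ≤ ((G.filter (fun p => ℓ ≤ w p ∧ w p ≤ T)).card : ℝ) * T := by
  have hdec : ∑ p ∈ G, w p ≤ ∑ p ∈ G.filter (fun p => w p < ℓ), w p +
      ∑ p ∈ G.filter (fun p => ℓ ≤ w p ∧ w p ≤ T), w p + ∑ p ∈ G.filter (fun p => ¬ w p ≤ T ∧ ¬ w p < ℓ), w p := by
    have e1 := Finset.sum_filter_add_sum_filter_not G (fun p => w p < ℓ) w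
    have e2 := Finset.sum_filter_add_sum_filter_not (G.filter (fun p => ¬ w p < ℓ)) (fun p => w p ≤ T) w
    rw [Finset.filter_filter, Finset.filter_filter] at e2
    have e3 : G.filter (fun p => ¬ w p < ℓ ∧ w p ≤ T) = G.filter (fun p => ℓ ≤ w p ∧ w p ≤ T) := by
      refine Finset.filter_congr (fun p _ => ?_)
      rw [not_lt]
    have e4 : G.filter (fun p => ¬ w p < ℓ ∧ ¬ w p ≤ T) = G.filter (fun p => ¬ w p ≤ T ∧ ¬ w p < ℓ) := by
      refine Finset.filter_congr (fun p _ => ?_)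
      rw [and_comm]
    rw [e3, e4] at e2
    linarith
  have hheavy : ∑ p ∈ G.filter (fun p => ¬ w p ≤ T ∧ ¬ w p < ℓ), w p ≤ W / (1 + θ) := by
    have h1 : T * ∑ p ∈ G.filter (fun p => ¬ w p ≤ T ∧ ¬ w p < ℓ), w p ≤ T * W / (1 + θ) := by
      rw [Finset.mul_sum]
      refine le_trans (Finset.sum_le_sum (fun p hp => ?_)) (le_trans
        (Finset.sum_le_sum_of_subset_of_nonneg (Finset.filter_subset _ _) (fun p _ _ => sq_nonneg (w p))) hsq)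
      have h2 := (Finset.mem_filter.mp hp).2.1
      rw [not_le] at h2
      rw [pow_two]
      exact mul_le_mul_of_nonneg_right h2.le (hT.le.trans h2.le)
    have h3 : T * W / (1 + θ) = T * (W / (1 + θ)) := by ring
    rw [h3] at h1
    exact le_of_mul_le_mul_left h1 hT
  have hmid : ∑ p ∈ G.filter (fun p => ℓ ≤ w p ∧ w p ≤ T), w p ≤
      ((G.filter (fun p => ℓ ≤ w p ∧ w p ≤ T)).card : ℝ) * T := by
    rw [← nsmul_eq_mul]
    exact Finset.sum_le_card_nsmul _ _ _ (fun p hp => (Finset.mem_filter.mp hp).2.2)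
  have h5 : W / (1 + θ) ≤ W * (1 - 3 / 4 * θ) := by
    rw [div_le_iff₀ (by linarith)]
    have : W ≤ W * ((1 - 3 / 4 * θ) * (1 + θ)) := by
      refine le_mul_of_one_le_right hW.le ?_
      nlinarith
    linarith
  nlinarith

private theorem FA_ev (θ C ε : ℝ) (hθ : 0 < θ) (hC : 0 < C) (hε : 0 < ε) :
    ∃ N₀ : ℕ, ∀ N ≥ N₀, Real.log N ≤ θ * (N : ℝ) ^ (1 / 8 : ℝ) ∧ 1 ≤ C * (N : ℝ) ^ (ε / 20) := by
  have h1 : ∀ᶠ x : ℝ in Filter.atTop, Real.log x ≤ θ * x ^ (1 / 8 : ℝ) := by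
    have h := (isLittleO_log_rpow_atTop (r := 1 / 8) (by norm_num)).bound hθ
    filter_upwards [h, Filter.eventually_ge_atTop (1 : ℝ)] with x hx hx1
    rw [Real.norm_eq_abs, Real.norm_eq_abs, abs_of_nonneg (Real.log_nonneg hx1),
      abs_of_nonneg (Real.rpow_nonneg (by linarith) _)] at hx
    exact hx
  have h2 : ∀ᶠ x : ℝ in Filter.atTop, 1 ≤ C * x ^ (ε / 20) := by
    have h := (tendsto_rpow_atTop (y := ε / 20) (by positivity)).eventually_ge_atTop (1 / C)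
    filter_upwards [h] with x hx
    rw [div_le_iff₀ hC] at hx
    linarith
  have h3 := (tendsto_natCast_atTop_atTop (R := ℝ)).eventually (h1.and h2)
  obtain ⟨N₀, hN₀⟩ := Filter.eventually_atTop.mp h3
  exact ⟨N₀, fun N hN => hN₀ N hN⟩

private theorem FA_wp {q p : ℕ} (hp : p ∈ q.primeFactors) (hp4 : p % 4 = 1) : Real.log p ≤ wp q p := by
  have hpp := Nat.prime_of_mem_primeFactors hp
  have h2 : p ≠ 2 := by rintro rfl; omega
  have hv : 1 ≤ q.factorization p :=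
    hpp.factorization_pos_of_dvd (Nat.mem_primeFactors.mp hp).2.2 (Nat.mem_primeFactors.mp hp).2.1
  unfold wp mr
  rw [if_neg h2]
  refine Real.log_le_log (by exact_mod_cast hpp.pos) ?_
  have : p ^ 1 ≤ p ^ q.factorization p := Nat.pow_le_pow_right hpp.pos hv
  rw [pow_one] at this
  exact_mod_cast this

/-- The light part. -/
private theorem FA_light {q N : ℕ} {G : Finset ℕ} {θ : ℝ} (hN : 1 ≤ N) (hG : G ⊆ q.primeFactors)
    (hG4 : ∀ p ∈ G, p % 4 = 1) (hW : (N : ℝ) ^ (1 / 4 : ℝ) ≤ Real.log q)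
    (hL : Real.log N ≤ θ * (N : ℝ) ^ (1 / 8 : ℝ)) (hθ : 0 < θ) :
    ∑ p ∈ G.filter (fun p => wp q p < Real.log N / 8), wp q p ≤ θ / 8 * Real.log q := by
  have hN0 : (0 : ℝ) < N := by exact_mod_cast hN
  have hL0 : 0 ≤ Real.log N := Real.log_nonneg (by exact_mod_cast hN)
  have hx0 : 0 ≤ (N : ℝ) ^ (1 / 8 : ℝ) := Real.rpow_nonneg hN0.le _
  have hcard : ((G.filter (fun p => wp q p < Real.log N / 8)).card : ℝ) ≤ (N : ℝ) ^ (1 / 8 : ℝ) := by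
    have hsub : G.filter (fun p => wp q p < Real.log N / 8) ⊆ Finset.Ioc 0 ⌊(N : ℝ) ^ (1 / 8 : ℝ)⌋₊ := by
      intro p hp
      obtain ⟨hpG, hpw⟩ := Finset.mem_filter.mp hp
      have hpp := Nat.prime_of_mem_primeFactors (hG hpG)
      have h1 := FA_wp (hG hpG) (hG4 p hpG)
      have h2 : Real.log p ≤ Real.log ((N : ℝ) ^ (1 / 8 : ℝ)) := by
        rw [Real.log_rpow hN0]
        linarith
      have h3 : (p : ℝ) ≤ (N : ℝ) ^ (1 / 8 : ℝ) :=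
        (Real.log_le_log_iff (by exact_mod_cast hpp.pos) (Real.rpow_pos_of_pos hN0 _)).mp h2
      rw [Finset.mem_Ioc]
      exact ⟨hpp.pos, Nat.le_floor h3⟩
    calc ((G.filter (fun p => wp q p < Real.log N / 8)).card : ℝ)
        ≤ ((Finset.Ioc 0 ⌊(N : ℝ) ^ (1 / 8 : ℝ)⌋₊).card : ℝ) := by exact_mod_cast Finset.card_le_card hsub
      _ = (⌊(N : ℝ) ^ (1 / 8 : ℝ)⌋₊ : ℝ) := by rw [Nat.card_Ioc, Nat.sub_zero]
      _ ≤ _ := Nat.floor_le hx0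
  have h1 : ∑ p ∈ G.filter (fun p => wp q p < Real.log N / 8), wp q p ≤
      ((G.filter (fun p => wp q p < Real.log N / 8)).card : ℝ) * (Real.log N / 8) := by
    rw [← nsmul_eq_mul]
    exact Finset.sum_le_card_nsmul _ _ _ (fun p hp => (Finset.mem_filter.mp hp).2.le)
  have h2 : (N : ℝ) ^ (1 / 4 : ℝ) = (N : ℝ) ^ (1 / 8 : ℝ) * (N : ℝ) ^ (1 / 8 : ℝ) := by
    rw [← Real.rpow_add hN0]
    norm_num
  calc _ ≤ _ := h1
    _ ≤ (N : ℝ) ^ (1 / 8 : ℝ) * (Real.log N / 8) := mul_le_mul_of_nonneg_right hcard (by positivity)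
    _ ≤ (N : ℝ) ^ (1 / 8 : ℝ) * (θ * (N : ℝ) ^ (1 / 8 : ℝ) / 8) :=
        mul_le_mul_of_nonneg_left (by linarith) hx0
    _ = θ / 8 * (N : ℝ) ^ (1 / 4 : ℝ) := by rw [h2]; ring
    _ ≤ _ := mul_le_mul_of_nonneg_left hW (by positivity)

theorem prime_set (A ε : ℝ) (hε : 0 < ε) (hε1 : ε ≤ 1 / 4) :
    ∃ B c₁ κ₁ : ℝ, 0 < B ∧ 0 < c₁ ∧ 0 < κ₁ ∧ ∃ N₀ : ℕ, ∀ N ≥ N₀, ∀ (q a : ℕ) (S G : Finset ℕ),
    Ctx q a N S → (N : ℝ) ^ (1 / 4 : ℝ) ≤ Real.log q → Real.log q ≤ (N : ℝ) ^ A →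
    (N : ℝ) ^ (1 / 2 + ε) ≤ (S.card : ℝ) → G ⊆ q.primeFactors → (∀ p ∈ G, p % 4 = 1) →
    (1 - κ₁) * Real.log q ≤ ∑ p ∈ G, wp q p →
      ∃ P ⊆ G, (∃ Z : ℝ, 1 < Z ∧ Z ≤ (N : ℝ) ^ B ∧ (∀ p ∈ P, (p : ℝ) ≤ Z) ∧ Z ^ (1 / 4 + ε / 4) ≤ (P.card : ℝ)) ∧
        (N : ℝ) ^ (1 / 5 : ℝ) ≤ (P.card : ℝ) ∧
        ∀ X ⊆ P, ∀ δ : ℝ, ∑ p ∈ X, wp q p ≤ δ * Real.log q → (X.card : ℝ) ≤ δ / c₁ * P.card := by
  set θ : ℝ := ε / 8 with hθdef
  set Γ : ℝ := (2 + ε / 4) / (1 / 2 + ε) with hΓdef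
  set A₁ : ℝ := max A 1 with hA₁def
  have hA₁ : 1 ≤ A₁ := le_max_right _ _
  have hθ : 0 < θ := by positivity
  have hθ1 : θ ≤ 1 / 32 := by rw [hθdef]; linarith
  have hΓ : 0 < Γ := by positivity
  set C : ℝ := (θ / 2) / ((1 + θ) * Γ) with hCdef
  have hC : 0 < C := by positivity
  obtain ⟨N₁, hN₁⟩ := sharp_moment A ε (ε / 4) hε (by positivity)
  obtain ⟨N₂, hN₂⟩ := FA_ev θ (C * (ε / 5)) ε hθ (by positivity) hε
  refine ⟨(1 + θ) * Γ * A₁, C / (8 * A₁), θ / 8, by positivity, by positivity, by positivity,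
    max (max N₁ N₂) 2, ?_⟩
  intro N hN q a S G hctx hW1 hW2 hS hG hG4 hmass
  have hNN₁ : N₁ ≤ N := (le_max_left _ _).trans ((le_max_left _ _).trans hN)
  have hNN₂ : N₂ ≤ N := (le_max_right _ _).trans ((le_max_left _ _).trans hN)
  have hN2 : 2 ≤ N := (le_max_right _ _).trans hN
  obtain ⟨hL, hbig⟩ := hN₂ N hNN₂
  have hsm := hN₁ N hNN₁ q a S hctx hW1 hW2 hS
  rw [← hΓdef] at hsm
  have hN1r : (1 : ℝ) < N := by exact_mod_cast (by omega : 1 < N)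
  have hN0r : (0 : ℝ) < N := by linarith
  set L := Real.log N with hLdef
  set W := Real.log q with hWdef
  have hL0 : 0 < L := Real.log_pos hN1r
  have hWone : 1 < W := lt_of_lt_of_le (Real.one_lt_rpow hN1r (by norm_num)) hW1
  have hW0 : 0 < W := by linarith
  have hlW : 0 < Real.log W := Real.log_pos hWone
  have hlWA : Real.log W ≤ A₁ * L := by
    have h1 : Real.log W ≤ A * L := by
      have := Real.log_le_log hW0 hW2
      rwa [Real.log_rpow hN0r] at this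
    exact h1.trans (mul_le_mul_of_nonneg_right (le_max_left _ _) hL0.le)
  set T : ℝ := (1 + θ) * Γ * Real.log W with hTdef
  have hT : 0 < T := by positivity
  -- the middle part
  have hmid := FA_mass (G := G) (w := wp q) (W := W) (T := T) (ℓ := L / 8) (θ := θ) hW0 hT hθ hθ1 hmass
    (by
      refine (Finset.sum_le_sum_of_subset_of_nonneg hG (fun p _ _ => sq_nonneg _)).trans (hsm.trans (le_of_eq ?_))
      rw [hTdef]
      field_simp)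
    (FA_light (by omega) hG hG4 hW1 hL hθ)
  set P := G.filter (fun p => L / 8 ≤ wp q p ∧ wp q p ≤ T) with hPdef
  -- first lower bound
  have hP1 : C * W ≤ (P.card : ℝ) * Real.log W := by
    have e : C * W = (θ / 2 * W) / ((1 + θ) * Γ) := by rw [hCdef]; ring
    rw [e, div_le_iff₀ (by positivity)]
    calc θ / 2 * W ≤ (P.card : ℝ) * T := hmid
      _ = _ := by rw [hTdef]; ring
  -- second lower bound
  have hP2 : W ^ (1 - 2 / 5 * ε) ≤ (P.card : ℝ) := by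
    have h1 : Real.log W ≤ W ^ (ε / 5) / (ε / 5) := Real.log_le_rpow_div hW0.le (by positivity)
    have h2 : C * (ε / 5) * W ≤ (P.card : ℝ) * W ^ (ε / 5) := by
      have h3 : C * W ≤ (P.card : ℝ) * (W ^ (ε / 5) / (ε / 5)) :=
        hP1.trans (mul_le_mul_of_nonneg_left h1 (Nat.cast_nonneg _))
      have h4 : (P.card : ℝ) * (W ^ (ε / 5) / (ε / 5)) = ((P.card : ℝ) * W ^ (ε / 5)) / (ε / 5) := by ring
      rw [h4, le_div_iff₀ (by positivity)] at h3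
      linarith
    have h5 : 1 ≤ C * (ε / 5) * W ^ (ε / 5) := by
      refine hbig.trans (mul_le_mul_of_nonneg_left ?_ (by positivity))
      have h6 : (N : ℝ) ^ (ε / 20) = ((N : ℝ) ^ (1 / 4 : ℝ)) ^ (ε / 5) := by
        rw [← Real.rpow_mul hN0r.le]
        congr 1
        ring
      rw [h6]
      exact Real.rpow_le_rpow (Real.rpow_nonneg hN0r.le _) hW1 (by positivity)
    have h7 : 0 < W ^ (ε / 5) := Real.rpow_pos_of_pos hW0 _
    refine le_of_mul_le_mul_right ?_ h7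
    have h8 : W ^ (1 - 2 / 5 * ε) * W ^ (ε / 5) * W ^ (ε / 5) = W := by
      rw [← Real.rpow_add hW0, ← Real.rpow_add hW0]
      have : 1 - 2 / 5 * ε + ε / 5 + ε / 5 = 1 := by ring
      rw [this, Real.rpow_one]
    calc W ^ (1 - 2 / 5 * ε) * W ^ (ε / 5)
        ≤ W ^ (1 - 2 / 5 * ε) * W ^ (ε / 5) * (C * (ε / 5) * W ^ (ε / 5)) :=
          le_mul_of_one_le_right (by positivity) h5
      _ = C * (ε / 5) * (W ^ (1 - 2 / 5 * ε) * W ^ (ε / 5) * W ^ (ε / 5)) := by ring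
      _ = C * (ε / 5) * W := by rw [h8]
      _ ≤ _ := h2
  refine ⟨P, Finset.filter_subset _ _, ⟨Real.exp T, Real.one_lt_exp_iff.mpr hT, ?_, ?_, ?_⟩, ?_, ?_⟩
  · -- `Z ≤ N ^ B`
    rw [Real.rpow_def_of_pos hN0r]
    refine Real.exp_le_exp.mpr ?_
    rw [hTdef, ← hLdef]
    calc (1 + θ) * Γ * Real.log W ≤ (1 + θ) * Γ * (A₁ * L) := mul_le_mul_of_nonneg_left hlWA (by positivity)
      _ = _ := by ring
  · intro p hp
    obtain ⟨hpG, -, hpT⟩ := Finset.mem_filter.mp hp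
    have hpp := Nat.prime_of_mem_primeFactors (hG hpG)
    have h1 := (FA_wp (hG hpG) (hG4 p hpG)).trans hpT
    exact (Real.log_le_iff_le_exp (by exact_mod_cast hpp.pos)).mp h1
  · refine le_trans (le_of_eq ?_) (le_trans (Real.rpow_le_rpow_of_exponent_le hWone.le (FA_num hε hε1)) hP2)
    rw [← Real.exp_mul, Real.rpow_def_of_pos hW0, hTdef, hΓdef, hθdef]
    congr 1
    ring
  · refine le_trans ?_ hP2
    calc (N : ℝ) ^ (1 / 5 : ℝ) = ((N : ℝ) ^ (1 / 4 : ℝ)) ^ (4 / 5 : ℝ) := by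
          rw [← Real.rpow_mul hN0r.le]
          norm_num
      _ ≤ W ^ (4 / 5 : ℝ) := Real.rpow_le_rpow (Real.rpow_nonneg hN0r.le _) hW1 (by norm_num)
      _ ≤ _ := Real.rpow_le_rpow_of_exponent_le hWone.le (by linarith)
  · intro X hX δ hδ
    have h1 : (X.card : ℝ) * (L / 8) ≤ ∑ p ∈ X, wp q p := by
      rw [← nsmul_eq_mul]
      exact Finset.card_nsmul_le_sum _ _ _ (fun p hp => (Finset.mem_filter.mp (hX hp)).2.1)
    have h2 : (X.card : ℝ) * (L / 8) ≤ δ * W := h1.trans hδ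
    have hδ0 : 0 ≤ δ := by
      by_contra hneg
      rw [not_le] at hneg
      have h3 : 0 ≤ (X.card : ℝ) * (L / 8) := by positivity
      have h4 : δ * W < 0 := mul_neg_of_neg_of_pos hneg hW0
      linarith
    have h3 : C * W ≤ (P.card : ℝ) * (A₁ * L) :=
      hP1.trans (mul_le_mul_of_nonneg_left hlWA (Nat.cast_nonneg _))
    have h4 : (X.card : ℝ) * L * C ≤ 8 * δ * ((P.card : ℝ) * A₁) * L := by
      calc (X.card : ℝ) * L * C = 8 * C * ((X.card : ℝ) * (L / 8)) := by ring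
        _ ≤ 8 * C * (δ * W) := mul_le_mul_of_nonneg_left h2 (by positivity)
        _ = 8 * δ * (C * W) := by ring
        _ ≤ 8 * δ * ((P.card : ℝ) * (A₁ * L)) := mul_le_mul_of_nonneg_left h3 (by positivity)
        _ = _ := by ring
    have h5 : (X.card : ℝ) * C ≤ 8 * δ * ((P.card : ℝ) * A₁) := by
      refine le_of_mul_le_mul_right ?_ hL0
      calc (X.card : ℝ) * C * L = (X.card : ℝ) * L * C := by ring
        _ ≤ _ := h4
    have h6 : δ / (C / (8 * A₁)) * (P.card : ℝ) = 8 * δ * ((P.card : ℝ) * A₁) / C := by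
      field_simp
    rw [h6, le_div_iff₀ hC]
    exact h5

end Pool.Agent.Lib.MP_2c6f70_nt.RU
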