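import Pool.Agent.Lib.MP_2c6f70_nt.RU.Defs

/-!
# JOB FB: stars in residue classes

`cpairs V u R`: ordered pairs of different elements of `V`, congruent modulo `u`, whose distance satisfies `R`.

`cpairs_ge`: `∑_r V_r^2 ≥ #V^2 / u` (Cauchy-Schwarz over the `u` classes), minus the diagonal.

`good_average`.  For `u ∈ 𝒰`: `#(cpairs V u True) ≥ #V^2/U - #V ≥ #V^2/(2U)`.  The pairs violating `R` are at most `Cb`; every pair is counted for at most two `u ∈ 𝒰` (`u ∣ dist < N`, `u > U₁`, `U₁^3 ≥ N`: three different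
primes `> U₁` dividing a positive integer `< N` are impossible), so `∑_u #(bad pairs congruent mod u) ≤ 2 Cb`.  If `#(cpairs V u R) < #V^2/(4U)` then more than `#V^2/(4U)` bad pairs are congruent modulo `u`: at most `8 Cb U/#V^2 ≤ #𝒰/2` such `u`.

`stars V u R`: `(n, n₁, n₂, n₃)` with `n₁, n₂, n₃` different neighbours of `n` (in `cpairs`).  `d(d-1)(d-2) ≥ max (d-2, 0)^3`; with `D = #cpairs / #V`, power mean: `#stars ≥ #V (D-2)^3 ≥ #V (D/2)^3` if `D ≥ 4`.
-/

set_option autoImplicit false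

namespace Pool.Agent.Lib.MP_2c6f70_nt.RU

open Classical in
/-- Congruent pairs whose distance satisfies `R`. -/
noncomputable def cpairs (V : Finset ℕ) (u : ℕ) (R : ℕ → Prop) : Finset (ℕ × ℕ) :=
  (pairs V).filter (fun t => t.1 % u = t.2 % u ∧ R (Nat.dist t.1 t.2))

open Classical in
/-- Stars with three different ends. -/
noncomputable def stars (V : Finset ℕ) (u : ℕ) (R : ℕ → Prop) : Finset (ℕ × ℕ × ℕ × ℕ) :=
  (V ×ˢ V ×ˢ V ×ˢ V).filter (fun w => (w.1, w.2.1) ∈ cpairs V u R ∧ (w.1, w.2.2.1) ∈ cpairs V u R ∧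
    (w.1, w.2.2.2) ∈ cpairs V u R ∧ w.2.1 ≠ w.2.2.1 ∧ w.2.1 ≠ w.2.2.2 ∧ w.2.2.1 ≠ w.2.2.2)

private theorem FB_cp (V : Finset ℕ) (u : ℕ) : ((V ×ˢ V).filter (fun t => t.1 % u = t.2 % u)).card =
    (cpairs V u (fun _ => True)).card + V.card := by
  classical
  have h1 := Finset.card_filter_add_card_filter_not (s := (V ×ˢ V).filter (fun t => t.1 % u = t.2 % u))
    (fun t : ℕ × ℕ => t.1 ≠ t.2)
  rw [← h1]
  congr 1
  · congr 1
    ext t
    simp only [cpairs, pairs, Finset.mem_filter, and_true]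
    tauto
  · rw [← Finset.diag_card V]
    congr 1
    ext t
    simp only [Finset.mem_filter, Finset.mem_product, Finset.mem_diag, not_not]
    constructor
    · rintro ⟨⟨⟨h1, h2⟩, h3⟩, h4⟩
      exact ⟨h1, h4⟩
    · rintro ⟨h1, h2⟩
      refine ⟨⟨⟨h1, h2 ▸ h1⟩, by rw [h2]⟩, h2⟩

theorem cpairs_ge (V : Finset ℕ) (u : ℕ) (hu : 1 ≤ u) :
    (V.card : ℝ) ^ 2 / u - V.card ≤ ((cpairs V u (fun _ => True)).card : ℝ) := by
  classical
  have h1 : ((V ×ˢ V).filter (fun t => t.1 % u = t.2 % u)).card =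
      ∑ r ∈ Finset.range u, (V.filter (fun x => x % u = r)).card ^ 2 := by
    rw [Finset.card_eq_sum_card_fiberwise (f := fun t : ℕ × ℕ => t.1 % u) (t := Finset.range u)
      (fun t _ => by
        rw [Finset.coe_range, Set.mem_Iio]
        exact Nat.mod_lt _ hu)]
    refine Finset.sum_congr rfl fun r _ => ?_
    rw [sq, ← Finset.card_product]
    congr 1
    ext t
    simp only [Finset.mem_filter, Finset.mem_product]
    constructor
    · rintro ⟨⟨⟨h1, h2⟩, h3⟩, h4⟩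
      exact ⟨⟨h1, h4⟩, h2, h3 ▸ h4⟩
    · rintro ⟨⟨h1, h2⟩, h3, h4⟩
      exact ⟨⟨⟨h1, h3⟩, h2.trans h4.symm⟩, h2⟩
  have h2 : (V.card : ℝ) = ∑ r ∈ Finset.range u, ((V.filter (fun x => x % u = r)).card : ℝ) := by
    rw [Finset.card_eq_sum_card_fiberwise (f := fun x : ℕ => x % u) (s := V) (t := Finset.range u)
      (fun t _ => by
        rw [Finset.coe_range, Set.mem_Iio]
        exact Nat.mod_lt _ hu)]
    push_cast
    rfl
  have h3 := sq_sum_le_card_mul_sum_sq (s := Finset.range u)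
    (f := fun r => ((V.filter (fun x => x % u = r)).card : ℝ))
  rw [← h2, Finset.card_range] at h3
  have h4 : ∑ r ∈ Finset.range u, ((V.filter (fun x => x % u = r)).card : ℝ) ^ 2 =
      ((cpairs V u (fun _ => True)).card : ℝ) + V.card := by
    have h5 := FB_cp V u
    rw [h1] at h5
    exact_mod_cast h5
  rw [h4] at h3
  have hu' : (0 : ℝ) < u := by exact_mod_cast hu
  have h6 : (V.card : ℝ) ^ 2 / u ≤ ((cpairs V u (fun _ => True)).card : ℝ) + V.card := by
    rw [div_le_iff₀ hu']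
    linarith
  linarith

private theorem FB_dvd {x y u : ℕ} (h : x % u = y % u) : u ∣ Nat.dist x y := by
  rcases le_total x y with h1 | h1
  · rw [Nat.dist_eq_sub_of_le h1]
    exact (Nat.modEq_iff_dvd' h1).1 h
  · rw [Nat.dist_eq_sub_of_le_right h1]
    exact (Nat.modEq_iff_dvd' h1).1 h.symm

open Classical in
private theorem FB_two {N : ℕ} {𝒰 : Finset ℕ} {U₁ U : ℝ} (hU₁ : 1 ≤ U₁)
    (h𝒰 : ∀ u ∈ 𝒰, u.Prime ∧ U₁ < (u : ℝ) ∧ (u : ℝ) ≤ U) (hU₁N : (N : ℝ) ≤ U₁ ^ 3) {x y : ℕ} (hx : x < N)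
    (hy : y < N) (hxy : x ≠ y) : (𝒰.filter (fun u => x % u = y % u)).card ≤ 2 := by
  by_contra hcon
  push Not at hcon
  obtain ⟨a, ha, b, hb, c, hc, hab, hac, hbc⟩ := Finset.two_lt_card.1 hcon
  rw [Finset.mem_filter] at ha hb hc
  obtain ⟨pa, la, -⟩ := h𝒰 a ha.1
  obtain ⟨pb, lb, -⟩ := h𝒰 b hb.1
  obtain ⟨pc, lc, -⟩ := h𝒰 c hc.1
  have cab : Nat.Coprime a b := (Nat.coprime_primes pa pb).2 hab
  have cac : Nat.Coprime a c := (Nat.coprime_primes pa pc).2 hac
  have cbc : Nat.Coprime b c := (Nat.coprime_primes pb pc).2 hbc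
  have h1 : a * b * c ∣ Nat.dist x y :=
    Nat.Coprime.mul_dvd_of_dvd_of_dvd (Nat.Coprime.mul_left cac cbc)
      (Nat.Coprime.mul_dvd_of_dvd_of_dvd cab (FB_dvd ha.2) (FB_dvd hb.2)) (FB_dvd hc.2)
  have h2 : 0 < Nat.dist x y := Nat.dist_pos_of_ne hxy
  have h3 : Nat.dist x y < N := by
    rcases le_total x y with h | h
    · rw [Nat.dist_eq_sub_of_le h]
      omega
    · rw [Nat.dist_eq_sub_of_le_right h]
      omega
  have h4 : a * b * c < N := lt_of_le_of_lt (Nat.le_of_dvd h2 h1) h3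
  have h5 : ((a * b * c : ℕ) : ℝ) < N := by exact_mod_cast h4
  push_cast at h5
  have h6 : U₁ ^ 3 ≤ (a : ℝ) * b * c := by
    have : U₁ ^ 3 = U₁ * U₁ * U₁ := by ring
    rw [this]
    exact mul_le_mul (mul_le_mul la.le lb.le (by linarith) (by positivity)) lc.le (by linarith) (by positivity)
  linarith

open Classical in
theorem good_average {N : ℕ} {V 𝒰 : Finset ℕ} {R : ℕ → Prop} {U₁ U Cb : ℝ} (hV : ∀ n ∈ V, n < N) (hU₁ : 1 ≤ U₁)
    (h𝒰 : ∀ u ∈ 𝒰, u.Prime ∧ U₁ < (u : ℝ) ∧ (u : ℝ) ≤ U) (hU₁N : (N : ℝ) ≤ U₁ ^ 3) (hVU : 2 * U ≤ V.card)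
    (hbad : (((pairs V).filter (fun t => ¬ R (Nat.dist t.1 t.2))).card : ℝ) ≤ Cb)
    (hCb : 16 * Cb * U ≤ 𝒰.card * (V.card : ℝ) ^ 2) :
    (𝒰.card : ℝ) / 2 ≤
      ((𝒰.filter (fun u => (V.card : ℝ) ^ 2 / (4 * U) ≤ ((cpairs V u R).card : ℝ))).card : ℝ) := by
  rcases 𝒰.eq_empty_or_nonempty with h0 | ⟨u₀, hu₀⟩
  · subst h0
    simp
  have hU : 0 < U := by
    obtain ⟨-, h1, h2⟩ := h𝒰 u₀ hu₀
    linarith
  have hVc : (0 : ℝ) < V.card := by linarith
  set Bd := (pairs V).filter (fun t => ¬ R (Nat.dist t.1 t.2)) with hBd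
  -- double counting
  have h1 : ∑ u ∈ 𝒰, (Bd.filter (fun t => t.1 % u = t.2 % u)).card =
      ∑ t ∈ Bd, (𝒰.filter (fun u => t.1 % u = t.2 % u)).card := by
    simp only [Finset.card_filter]
    exact Finset.sum_comm
  have h2 : ∑ t ∈ Bd, (𝒰.filter (fun u => t.1 % u = t.2 % u)).card ≤ ∑ t ∈ Bd, 2 := by
    refine Finset.sum_le_sum fun t ht => ?_
    rw [hBd, Finset.mem_filter, pairs, Finset.mem_filter, Finset.mem_product] at ht
    exact FB_two hU₁ h𝒰 hU₁N (hV _ ht.1.1.1) (hV _ ht.1.1.2) ht.1.2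
  have h3 : (∑ u ∈ 𝒰, ((Bd.filter (fun t => t.1 % u = t.2 % u)).card : ℝ)) ≤ 2 * Cb := by
    have h4 : (∑ u ∈ 𝒰, (Bd.filter (fun t => t.1 % u = t.2 % u)).card) ≤ Bd.card * 2 := by
      rw [h1]
      refine h2.trans ?_
      rw [Finset.sum_const, smul_eq_mul]
    have h5 : (∑ u ∈ 𝒰, ((Bd.filter (fun t => t.1 % u = t.2 % u)).card : ℝ)) ≤ (Bd.card : ℝ) * 2 := by
      exact_mod_cast h4
    linarith
  set Bu := 𝒰.filter (fun u => ¬ ((V.card : ℝ) ^ 2 / (4 * U) ≤ ((cpairs V u R).card : ℝ))) with hBu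
  have h6 : ∀ u ∈ Bu, (V.card : ℝ) ^ 2 / (4 * U) ≤ ((Bd.filter (fun t => t.1 % u = t.2 % u)).card : ℝ) := by
    intro u hu
    rw [hBu, Finset.mem_filter, not_le] at hu
    obtain ⟨pu, lu, lU⟩ := h𝒰 u hu.1
    have h7 := cpairs_ge V u pu.one_lt.le
    have hu0 : (0 : ℝ) < u := by linarith
    have h8 : (V.card : ℝ) ^ 2 / U ≤ (V.card : ℝ) ^ 2 / u := div_le_div_of_nonneg_left (by positivity) hu0 lU
    have h9 : (V.card : ℝ) ≤ (V.card : ℝ) ^ 2 / (2 * U) := by
      rw [le_div_iff₀ (by positivity)]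
      nlinarith
    have h10 : (V.card : ℝ) ^ 2 / U = (V.card : ℝ) ^ 2 / (2 * U) + (V.card : ℝ) ^ 2 / (4 * U) +
        (V.card : ℝ) ^ 2 / (4 * U) := by
      field_simp
      norm_num
    have h11 : (cpairs V u (fun _ => True)).card ≤
        (cpairs V u R).card + (Bd.filter (fun t => t.1 % u = t.2 % u)).card := by
      rw [← Finset.card_filter_add_card_filter_not (s := cpairs V u (fun _ => True))
        (fun t : ℕ × ℕ => R (Nat.dist t.1 t.2))]
      refine add_le_add (Finset.card_le_card ?_) (Finset.card_le_card ?_)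
      · intro t ht
        simp only [cpairs, Finset.mem_filter, and_true] at ht ⊢
        tauto
      · intro t ht
        simp only [cpairs, hBd, Finset.mem_filter, and_true] at ht ⊢
        tauto
    have h12 : ((cpairs V u (fun _ => True)).card : ℝ) ≤
        (cpairs V u R).card + (Bd.filter (fun t => t.1 % u = t.2 % u)).card := by exact_mod_cast h11
    linarith [hu.2]
  have h7 : (Bu.card : ℝ) * ((V.card : ℝ) ^ 2 / (4 * U)) ≤ 2 * Cb := by
    refine le_trans ?_ h3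
    have h8 : ∑ u ∈ Bu, ((V.card : ℝ) ^ 2 / (4 * U)) ≤
        ∑ u ∈ Bu, ((Bd.filter (fun t => t.1 % u = t.2 % u)).card : ℝ) := Finset.sum_le_sum h6
    rw [Finset.sum_const, nsmul_eq_mul] at h8
    refine h8.trans ?_
    exact Finset.sum_le_sum_of_subset_of_nonneg (Finset.filter_subset _ _) fun _ _ _ => Nat.cast_nonneg _
  have h8 : (Bu.card : ℝ) ≤ (𝒰.card : ℝ) / 2 := by
    have h9 : (Bu.card : ℝ) * (V.card : ℝ) ^ 2 ≤ 8 * Cb * U := by
      have h10 : (Bu.card : ℝ) * ((V.card : ℝ) ^ 2 / (4 * U)) = (Bu.card : ℝ) * (V.card : ℝ) ^ 2 / (4 * U) := by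
        ring
      rw [h10, div_le_iff₀ (by positivity)] at h7
      linarith
    have h11 : (Bu.card : ℝ) * (V.card : ℝ) ^ 2 ≤ (𝒰.card : ℝ) / 2 * (V.card : ℝ) ^ 2 := by linarith
    exact le_of_mul_le_mul_right h11 (by positivity)
  have h9 := Finset.card_filter_add_card_filter_not (s := 𝒰)
    (fun u => (V.card : ℝ) ^ 2 / (4 * U) ≤ ((cpairs V u R).card : ℝ))
  have h10 : ((𝒰.filter (fun u => (V.card : ℝ) ^ 2 / (4 * U) ≤ ((cpairs V u R).card : ℝ))).card : ℝ) +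
      (Bu.card : ℝ) = 𝒰.card := by rw [← h9, Nat.cast_add]
  linarith

open Classical in
private theorem FB_triple (X : Finset ℕ) : max ((X.card : ℝ) - 2) 0 ^ 3 ≤
    (((X ×ˢ X ×ˢ X).filter (fun w => w.1 ≠ w.2.1 ∧ w.1 ≠ w.2.2 ∧ w.2.1 ≠ w.2.2)).card : ℝ) := by
  rcases le_or_gt (X.card : ℝ) 2 with h | h
  · rw [max_eq_right (by linarith)]
    norm_num
  rw [max_eq_left (by linarith)]
  have h2 : 2 < X.card := by exact_mod_cast h
  have h1 : ((X ×ˢ X ×ˢ X).filter (fun w => w.1 ≠ w.2.1 ∧ w.1 ≠ w.2.2 ∧ w.2.1 ≠ w.2.2)).card =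
      ∑ a ∈ X, ∑ b ∈ X, (X.filter (fun c => a ≠ b ∧ a ≠ c ∧ b ≠ c)).card := by
    rw [Finset.card_filter, Finset.sum_product]
    refine Finset.sum_congr rfl fun a _ => ?_
    rw [Finset.sum_product]
    refine Finset.sum_congr rfl fun b _ => ?_
    rw [Finset.card_filter]
  have h3 : ∀ a ∈ X, (X.card - 2) * (X.card - 2) ≤ ∑ b ∈ X, (X.filter (fun c => a ≠ b ∧ a ≠ c ∧ b ≠ c)).card := by
    intro a ha
    have h4 : ∀ b ∈ X.erase a, X.card - 2 ≤ (X.filter (fun c => a ≠ b ∧ a ≠ c ∧ b ≠ c)).card := by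
      intro b hb
      rw [Finset.mem_erase] at hb
      have h5 : ((X.erase a).erase b) ⊆ X.filter (fun c => a ≠ b ∧ a ≠ c ∧ b ≠ c) := by
        intro c hc
        rw [Finset.mem_erase, Finset.mem_erase] at hc
        rw [Finset.mem_filter]
        exact ⟨hc.2.2, hb.1.symm, hc.2.1.symm, hc.1.symm⟩
      have h6 := Finset.card_le_card h5
      rw [Finset.card_erase_of_mem (Finset.mem_erase.2 hb), Finset.card_erase_of_mem ha] at h6
      omega
    have h7 : ∑ b ∈ X.erase a, (X.card - 2) ≤ ∑ b ∈ X, (X.filter (fun c => a ≠ b ∧ a ≠ c ∧ b ≠ c)).card :=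
      (Finset.sum_le_sum h4).trans (Finset.sum_le_sum_of_subset (Finset.erase_subset _ _))
    rw [Finset.sum_const, smul_eq_mul, Finset.card_erase_of_mem ha] at h7
    refine le_trans ?_ h7
    exact Nat.mul_le_mul_right _ (by omega)
  have h4 : (X.card - 2) ^ 3 ≤
      ((X ×ˢ X ×ˢ X).filter (fun w => w.1 ≠ w.2.1 ∧ w.1 ≠ w.2.2 ∧ w.2.1 ≠ w.2.2)).card := by
    rw [h1]
    refine le_trans ?_ (Finset.sum_le_sum h3)
    rw [Finset.sum_const, smul_eq_mul]
    calc (X.card - 2) ^ 3 = (X.card - 2) * ((X.card - 2) * (X.card - 2)) := by ring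
      _ ≤ X.card * ((X.card - 2) * (X.card - 2)) := Nat.mul_le_mul_right _ (by omega)
  have h5 : ((X.card : ℝ) - 2) = ((X.card - 2 : ℕ) : ℝ) := by
    push_cast [Nat.cast_sub h2.le]
    rfl
  rw [h5]
  exact_mod_cast h4

theorem stars_ge {V : Finset ℕ} {u : ℕ} {R : ℕ → Prop} {U : ℝ} (hU : 0 < U)
    (h : (V.card : ℝ) ^ 2 / (4 * U) ≤ ((cpairs V u R).card : ℝ)) (hVU : 16 * U ≤ V.card) :
    (V.card : ℝ) ^ 4 / (512 * U ^ 3) ≤ ((stars V u R).card : ℝ) := by
  classical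
  have hVc : (0 : ℝ) < V.card := by linarith
  set X : ℕ → Finset ℕ := fun n => V.filter (fun m => (n, m) ∈ cpairs V u R) with hX
  have h1 : (cpairs V u R).card = ∑ n ∈ V, (X n).card := by
    rw [Finset.card_eq_sum_card_fiberwise (f := fun t : ℕ × ℕ => t.1) (t := V) (fun t ht => by
      rw [Finset.mem_coe] at ht
      simp only [cpairs, pairs, Finset.mem_filter, Finset.mem_product] at ht
      exact ht.1.1.1)]
    refine Finset.sum_congr rfl fun n _ => ?_
    refine Finset.card_bij' (fun t _ => t.2) (fun m _ => (n, m)) ?_ ?_ ?_ ?_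
    · intro t ht
      rw [Finset.mem_filter] at ht
      obtain ⟨x, y⟩ := t
      obtain ⟨h1, h2⟩ := ht
      simp only at h2
      subst h2
      rw [hX, Finset.mem_filter]
      refine ⟨?_, h1⟩
      simp only [cpairs, pairs, Finset.mem_filter, Finset.mem_product] at h1
      exact h1.1.1.2
    · intro m hm
      rw [hX, Finset.mem_filter] at hm
      rw [Finset.mem_filter]
      exact ⟨hm.2, rfl⟩
    · intro t ht
      rw [Finset.mem_filter] at ht
      obtain ⟨x, y⟩ := t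
      obtain ⟨h1, h2⟩ := ht
      simp only at h2
      subst h2
      rfl
    · intro m hm
      rfl
  have h2 : ∑ n ∈ V, max (((X n).card : ℝ) - 2) 0 ^ 3 ≤ ((stars V u R).card : ℝ) := by
    have h3 : (stars V u R).card = ∑ n ∈ V, ((stars V u R).filter (fun w => w.1 = n)).card :=
      Finset.card_eq_sum_card_fiberwise (f := fun w : ℕ × ℕ × ℕ × ℕ => w.1) (t := V) (fun w hw => by
        rw [Finset.mem_coe] at hw
        simp only [stars, Finset.mem_filter, Finset.mem_product] at hw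
        exact hw.1.1)
    rw [h3]
    push_cast
    refine Finset.sum_le_sum fun n hn => (FB_triple (X n)).trans ?_
    have h4 : (((X n) ×ˢ (X n) ×ˢ (X n)).filter (fun w => w.1 ≠ w.2.1 ∧ w.1 ≠ w.2.2 ∧ w.2.1 ≠ w.2.2)).card ≤
        ((stars V u R).filter (fun w => w.1 = n)).card := by
      refine Finset.card_le_card_of_injOn (fun w => (n, w)) ?_ ?_
      · intro w hw
        rw [Finset.mem_coe, Finset.mem_filter, Finset.mem_product, Finset.mem_product] at hw
        obtain ⟨⟨h5, h6, h7⟩, h8, h9, h10⟩ := hw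
        rw [hX, Finset.mem_filter] at h5 h6 h7
        rw [Finset.mem_coe, Finset.mem_filter]
        refine ⟨?_, rfl⟩
        simp only [stars, Finset.mem_filter, Finset.mem_product]
        exact ⟨⟨hn, h5.1, h6.1, h7.1⟩, h5.2, h6.2, h7.2, h8, h9, h10⟩
      · intro w _ w' _ hww
        exact (Prod.ext_iff.1 hww).2
    exact_mod_cast h4
  refine le_trans ?_ h2
  have h3 := pow_sum_div_card_le_sum_pow (s := V) (f := fun n => max (((X n).card : ℝ) - 2) 0)
    (fun n _ => le_max_right _ _) 2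
  simp only [Nat.reduceAdd] at h3
  refine le_trans ?_ h3
  have h4 : (V.card : ℝ) ^ 2 / (8 * U) ≤ ∑ n ∈ V, max (((X n).card : ℝ) - 2) 0 := by
    have h5 : ∑ n ∈ V, (((X n).card : ℝ) - 2) ≤ ∑ n ∈ V, max (((X n).card : ℝ) - 2) 0 :=
      Finset.sum_le_sum fun n _ => le_max_left _ _
    refine le_trans ?_ h5
    rw [Finset.sum_sub_distrib, Finset.sum_const, nsmul_eq_mul]
    have h6 : ((cpairs V u R).card : ℝ) = ∑ n ∈ V, ((X n).card : ℝ) := by exact_mod_cast h1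
    rw [← h6]
    have h7 : (V.card : ℝ) ^ 2 / (4 * U) = (V.card : ℝ) ^ 2 / (8 * U) + (V.card : ℝ) ^ 2 / (8 * U) := by
      field_simp
      norm_num
    have h8 : (V.card : ℝ) * 2 ≤ (V.card : ℝ) ^ 2 / (8 * U) := by
      rw [le_div_iff₀ (by positivity)]
      nlinarith
    linarith
  rw [le_div_iff₀ (by positivity)]
  calc (V.card : ℝ) ^ 4 / (512 * U ^ 3) * (V.card : ℝ) ^ 2 = ((V.card : ℝ) ^ 2 / (8 * U)) ^ 3 := by
        field_simp
        ring
    _ ≤ _ := pow_le_pow_left₀ (by positivity) h4 3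

end Pool.Agent.Lib.MP_2c6f70_nt.RU
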