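import Pool.Agent.Lib.MP_2c6f70_nt.RU.FB

/-!
# JOB FC: shapes of stars

`shapes V u R`: the triples `(h₁, h₂, h₃)` of integers such that `(n, n₁, n₂, n₃)` is a star and `n_i = n + u h_i` (as integers).

`shapes_ge`: the map star `↦` shape (`h_i = (n_i - n)/u`, exact division since `n_i ≡ n (u)`) is onto `shapes`, and the star is determined by its shape and `n`; the number of `n` for a given shape is at most `K₀`.

`shapes_props`: for a shape the `h_i` are different, nonzero, `u |h_i| = dist n n_i < N` satisfies `R`, and `|h_i| ≤ H` if `N ≤ u H`.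
-/

set_option autoImplicit false

namespace Pool.Agent.Lib.MP_2c6f70_nt.RU

open Classical in
/-- The shapes of the stars with modulus `u`. -/
noncomputable def shapes (V : Finset ℕ) (u : ℕ) (R : ℕ → Prop) : Finset (Fin 3 → ℤ) :=
  (stars V u R).image (fun w => ![((w.2.1 : ℤ) - w.1) / u, ((w.2.2.1 : ℤ) - w.1) / u, ((w.2.2.2 : ℤ) - w.1) / u])

private lemma fc_cp {V : Finset ℕ} {u : ℕ} {R : ℕ → Prop} {n m : ℕ} (h : (n, m) ∈ cpairs V u R) :
    n ∈ V ∧ m ∈ V ∧ n ≠ m ∧ n % u = m % u ∧ R (Nat.dist n m) := by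
  classical
  unfold cpairs pairs at h
  rw [Finset.mem_filter, Finset.mem_filter, Finset.mem_product] at h
  exact ⟨h.1.1.1, h.1.1.2, h.1.2, h.2.1, h.2.2⟩

private lemma fc_div {u n m : ℕ} (h : n % u = m % u) : (u : ℤ) * (((m : ℤ) - n) / u) = (m : ℤ) - n := by
  apply Int.mul_ediv_cancel'
  have h2 : n ≡ m [MOD u] := h
  exact (Nat.modEq_iff_dvd.mp h2)

private lemma fc_star {V : Finset ℕ} {u : ℕ} {R : ℕ → Prop} {w : ℕ × ℕ × ℕ × ℕ} (h : w ∈ stars V u R) :
    (w.1, w.2.1) ∈ cpairs V u R ∧ (w.1, w.2.2.1) ∈ cpairs V u R ∧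
    (w.1, w.2.2.2) ∈ cpairs V u R ∧ w.2.1 ≠ w.2.2.1 ∧ w.2.1 ≠ w.2.2.2 ∧ w.2.2.1 ≠ w.2.2.2 := by
  classical
  unfold stars at h
  rw [Finset.mem_filter] at h
  exact h.2

open Classical in
private lemma fc_mem (V : Finset ℕ) (n : ℕ) (hn : n ∈ V) :
    (n : ℤ) ∈ (do let a ← V; pure (a : ℤ) : Finset ℤ) := by
  simp only [Finset.bind_def, Finset.mem_sup, Finset.pure_def, Finset.mem_singleton]
  exact ⟨n, hn, rfl⟩

open Classical in
theorem shapes_ge {V : Finset ℕ} {u : ℕ} {R : ℕ → Prop} {K₀ : ℝ} (hu : 1 ≤ u) (hK₀ : 0 ≤ K₀)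
    (h : ∀ h ∈ shapes V u R, ((V.filter (fun n => ∀ i, ∃ m ∈ V, (m : ℤ) = n + u * h i)).card : ℝ) ≤ K₀) :
    ((stars V u R).card : ℝ) ≤ K₀ * ((shapes V u R).card : ℝ) := by
  set f : ℕ × ℕ × ℕ × ℕ → (Fin 3 → ℤ) := fun w =>
    ![((w.2.1 : ℤ) - w.1) / u, ((w.2.2.1 : ℤ) - w.1) / u, ((w.2.2.2 : ℤ) - w.1) / u] with hf
  have hsh : shapes V u R = (stars V u R).image f := rfl
  have h1 : (stars V u R).card = ∑ b ∈ (stars V u R).image f, ((stars V u R).filter (fun w => f w = b)).card :=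
    Finset.card_eq_sum_card_image f (stars V u R)
  rw [h1, hsh, Nat.cast_sum]
  have h2 : ∀ b ∈ (stars V u R).image f, (((stars V u R).filter (fun w => f w = b)).card : ℝ) ≤ K₀ := by
    intro b hb
    have hb' : b ∈ shapes V u R := hb
    refine le_trans ?_ (h b hb')
    have h3 : ((stars V u R).filter (fun w => f w = b)).card ≤
        (V.filter (fun n => ∀ i, ∃ m ∈ V, (m : ℤ) = n + u * b i)).card := by
      apply Finset.card_le_card_of_injOn (fun w => (w.1 : ℤ))
      · intro w hw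
        have hw' := Finset.mem_filter.mp (Finset.mem_coe.mp hw)
        obtain ⟨c1, c2, c3, _⟩ := fc_star hw'.1
        have d1 := fc_cp c1
        have d2 := fc_cp c2
        have d3 := fc_cp c3
        rw [Finset.mem_coe, Finset.mem_filter]
        refine ⟨fc_mem V w.1 d1.1, ?_⟩
        rw [← hw'.2]
        intro i
        fin_cases i
        · refine ⟨w.2.1, d1.2.1, ?_⟩
          have e := fc_div d1.2.2.2.1
          simp only [hf]
          change (w.2.1 : ℤ) = (w.1 : ℤ) + u * (((w.2.1 : ℤ) - w.1) / u)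
          rw [e]; ring
        · refine ⟨w.2.2.1, d2.2.1, ?_⟩
          have e := fc_div d2.2.2.2.1
          simp only [hf]
          change (w.2.2.1 : ℤ) = (w.1 : ℤ) + u * (((w.2.2.1 : ℤ) - w.1) / u)
          rw [e]; ring
        · refine ⟨w.2.2.2, d3.2.1, ?_⟩
          have e := fc_div d3.2.2.2.1
          simp only [hf]
          change (w.2.2.2 : ℤ) = (w.1 : ℤ) + u * (((w.2.2.2 : ℤ) - w.1) / u)
          rw [e]; ring
      · intro w hw w' hw' hww
        have hw1 := Finset.mem_filter.mp (Finset.mem_coe.mp hw)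
        have hw2 := Finset.mem_filter.mp (Finset.mem_coe.mp hw')
        obtain ⟨c1, c2, c3, _⟩ := fc_star hw1.1
        obtain ⟨c1', c2', c3', _⟩ := fc_star hw2.1
        have e1 := fc_div (fc_cp c1).2.2.2.1
        have e2 := fc_div (fc_cp c2).2.2.2.1
        have e3 := fc_div (fc_cp c3).2.2.2.1
        have e1' := fc_div (fc_cp c1').2.2.2.1
        have e2' := fc_div (fc_cp c2').2.2.2.1
        have e3' := fc_div (fc_cp c3').2.2.2.1
        have hfe : f w = f w' := hw1.2.trans hw2.2.symm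
        have g1 : ((w.2.1 : ℤ) - w.1) / u = ((w'.2.1 : ℤ) - w'.1) / u := congrFun hfe 0
        have g2 : ((w.2.2.1 : ℤ) - w.1) / u = ((w'.2.2.1 : ℤ) - w'.1) / u := congrFun hfe 1
        have g3 : ((w.2.2.2 : ℤ) - w.1) / u = ((w'.2.2.2 : ℤ) - w'.1) / u := congrFun hfe 2
        have hww' : w.1 = w'.1 := by
          have hww2 : (w.1 : ℤ) = w'.1 := hww
          exact_mod_cast hww2
        rw [g1] at e1
        rw [g2] at e2
        rw [g3] at e3
        have k1 : (w.2.1 : ℤ) = w'.2.1 := by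
          have : (w.1 : ℤ) = w'.1 := by exact_mod_cast hww'
          linarith
        have k2 : (w.2.2.1 : ℤ) = w'.2.2.1 := by
          have : (w.1 : ℤ) = w'.1 := by exact_mod_cast hww'
          linarith
        have k3 : (w.2.2.2 : ℤ) = w'.2.2.2 := by
          have : (w.1 : ℤ) = w'.1 := by exact_mod_cast hww'
          linarith
        exact Prod.ext hww' (Prod.ext (by exact_mod_cast k1) (Prod.ext (by exact_mod_cast k2) (by exact_mod_cast k3)))
    exact_mod_cast h3
  calc ∑ b ∈ (stars V u R).image f, (((stars V u R).filter (fun w => f w = b)).card : ℝ)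
      ≤ ∑ _b ∈ (stars V u R).image f, K₀ := Finset.sum_le_sum h2
    _ = K₀ * (((stars V u R).image f).card : ℝ) := by rw [Finset.sum_const, nsmul_eq_mul, mul_comm]

private lemma fc_one {N : ℕ} {V : Finset ℕ} {u : ℕ} {R : ℕ → Prop} (hu : 1 ≤ u) (hV : ∀ n ∈ V, n < N) {n m : ℕ}
    (h : (n, m) ∈ cpairs V u R) :
    ((m : ℤ) - n) / u ≠ 0 ∧ (u : ℤ) * |((m : ℤ) - n) / u| < N ∧ R (u * (((m : ℤ) - n) / u).natAbs) ∧
      (m : ℤ) = n + u * (((m : ℤ) - n) / u) := by
  obtain ⟨hn, hm, hnm, hmod, hR⟩ := fc_cp h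
  have e := fc_div hmod
  set t : ℤ := ((m : ℤ) - n) / u with ht
  have hu0 : (0 : ℤ) < u := by exact_mod_cast hu
  have hn' := hV n hn
  have hm' := hV m hm
  have habs : (u : ℤ) * |t| = |(m : ℤ) - n| := by rw [← e, abs_mul, abs_of_pos hu0]
  refine ⟨?_, ?_, ?_, ?_⟩
  · intro h0
    rw [h0, mul_zero] at e
    apply hnm
    have : (m : ℤ) = n := by linarith
    exact_mod_cast this.symm
  · rw [habs, abs_lt]
    constructor
    · have : (n : ℤ) < N := by exact_mod_cast hn'
      have h2 : (0 : ℤ) ≤ m := Int.natCast_nonneg m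
      linarith
    · have : (m : ℤ) < N := by exact_mod_cast hm'
      have h2 : (0 : ℤ) ≤ n := Int.natCast_nonneg n
      linarith
  · have hd : u * t.natAbs = Nat.dist n m := by
      have h1 : ((u * t.natAbs : ℕ) : ℤ) = (Nat.dist n m : ℤ) := by
        rw [Nat.cast_mul, Int.natCast_natAbs, habs]
        rcases le_total n m with hle | hle
        · rw [Nat.dist_eq_sub_of_le hle, Nat.cast_sub hle, abs_of_nonneg]
          have : (n : ℤ) ≤ m := by exact_mod_cast hle
          linarith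
        · rw [Nat.dist_eq_sub_of_le_right hle, Nat.cast_sub hle, abs_of_nonpos]
          · ring
          · have : (m : ℤ) ≤ n := by exact_mod_cast hle
            linarith
      exact_mod_cast h1
    rw [hd]
    exact hR
  · rw [e]; ring

theorem shapes_props {N : ℕ} {V : Finset ℕ} {u : ℕ} {R : ℕ → Prop} (hu : 1 ≤ u) (hV : ∀ n ∈ V, n < N)
    {h : Fin 3 → ℤ} (hh : h ∈ shapes V u R) :
    Function.Injective h ∧ (∀ i, h i ≠ 0) ∧ (∀ i, (u : ℤ) * |h i| < N) ∧ (∀ i, R (u * (h i).natAbs)) ∧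
      ∃ n ∈ V, ∀ i, ∃ m ∈ V, (m : ℤ) = n + u * h i := by
  classical
  unfold shapes at hh
  obtain ⟨w, hw, rfl⟩ := Finset.mem_image.mp hh
  obtain ⟨c1, c2, c3, n12, n13, n23⟩ := fc_star hw
  obtain ⟨a1, b1, r1, e1⟩ := fc_one hu hV c1
  obtain ⟨a2, b2, r2, e2⟩ := fc_one hu hV c2
  obtain ⟨a3, b3, r3, e3⟩ := fc_one hu hV c3
  have m1 := (fc_cp c1).2.1
  have m2 := (fc_cp c2).2.1
  have m3 := (fc_cp c3).2.1
  have p12 : ((w.2.1 : ℤ) - w.1) / u ≠ ((w.2.2.1 : ℤ) - w.1) / u := by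
    intro he
    rw [he, ← e2] at e1
    exact n12 (by exact_mod_cast e1)
  have p13 : ((w.2.1 : ℤ) - w.1) / u ≠ ((w.2.2.2 : ℤ) - w.1) / u := by
    intro he
    rw [he, ← e3] at e1
    exact n13 (by exact_mod_cast e1)
  have p23 : ((w.2.2.1 : ℤ) - w.1) / u ≠ ((w.2.2.2 : ℤ) - w.1) / u := by
    intro he
    rw [he, ← e3] at e2
    exact n23 (by exact_mod_cast e2)
  refine ⟨?_, ?_, ?_, ?_, ?_⟩
  · intro i j hij
    fin_cases i <;> fin_cases j
    · rfl
    · exact absurd hij p12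
    · exact absurd hij p13
    · exact absurd hij.symm p12
    · rfl
    · exact absurd hij p23
    · exact absurd hij.symm p13
    · exact absurd hij.symm p23
    · rfl
  · intro i
    fin_cases i
    · exact a1
    · exact a2
    · exact a3
  · intro i
    fin_cases i
    · exact b1
    · exact b2
    · exact b3
  · intro i
    fin_cases i
    · exact r1
    · exact r2
    · exact r3
  · refine ⟨w.1, (fc_cp c1).1, ?_⟩
    intro i
    fin_cases i
    · exact ⟨w.2.1, m1, e1⟩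
    · exact ⟨w.2.2.1, m2, e2⟩
    · exact ⟨w.2.2.2, m3, e3⟩

end Pool.Agent.Lib.MP_2c6f70_nt.RU
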