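import Pool.Agent.Lib.MP_2c6f70_nt.RU.FC

/-!
# JOB FD: the relation between the primes `u` and the integers `h`

`P` a set of primes, `ω p = ± 1` on `P`, `exc P ω d` = number of `p ∈ P` with `J(d|p) ≠ ω p`.  `Hs κ u` = the `h ≠ 0`, `|h| ≤ H` with `exc P ω (u |h|) ≤ κ #P`.  `Eq κ u u'`: `#{p ∈ P : J(u|p) ≠ J(u'|p) or J(u|p) = 0} ≤ κ #P`.

`eq_of_common`: outside the two exceptional sets `J(u|p) J(h|p) = ω p = J(u'|p) J(h|p) ≠ 0` (`jacobiSym.mul_left`).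
`mem_of_eq`: outside the two exceptional sets `J(u'|p) = J(u|p)`, `J(u'|p) J(h|p) = J(u|p) J(h|p) = ω p`.

`double_count`.  `𝒰` a finite set, `κ₀ ≤ κ`, `F u = #{u' ∈ 𝒰 : Eq (2κ) u u'}`.
(1) for a fixed `h` let `D` = the `u ∈ 𝒰` with `h ∈ Hs κ u`; any two of them satisfy `Eq (2 κ)`, so `F u ≥ #D` for `u ∈ D`, `∑_{u ∈ D} 1/F u ≤ 1`.  Sum over the at most `2 H + 1` values of `h`: `∑_{u ∈ 𝒰} #(Hs κ u)/F u ≤ 2H + 1` (`F u ≥ 1`: needed only if `Hs κ u` is nonempty, then `u ∈ D`).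
(2) for `u ∈ 𝒰`: the shapes of all `u' ∈ 𝒰` with `Eq (2κ) u u'` have their `h_i` in `Hs κ₀ u' ⊆ Hs (κ₀ + 2κ) u ⊆ Hs (3κ) u`; every triple is a shape of at most `K₀` of the `u'`: `σ F u ≤ K₀ #(Hs (3κ) u)^3`.
(3) so for `u ∈ 𝒰` with `#(Hs (3κ) u) ≤ λ #(Hs κ u)`, `g = #(Hs κ u)` (`g ≥ 1` because `F u ≥ 1`, `σ > 0`, and (2)): `g/F u ≥ σ g/(K₀ λ^3 g^3) = σ/(K₀ λ^3 g^2)`.
-/

set_option autoImplicit false

namespace Pool.Agent.Lib.MP_2c6f70_nt.RU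

/-- The partners of `u`. -/
noncomputable def Hs (P : Finset ℕ) (ω : ℕ → ℤ) (H : ℕ) (κ : ℝ) (u : ℕ) : Finset ℤ :=
  open Classical in
  (Finset.Icc (-(H : ℤ)) H).filter (fun h => h ≠ 0 ∧ (exc P ω (u * h.natAbs) : ℝ) ≤ κ * P.card)

/-- `u` and `u'` have the same symbols. -/
noncomputable def Eqv (P : Finset ℕ) (κ : ℝ) (u u' : ℕ) : Prop :=
  open Classical in
  ((P.filter (fun p => jacobiSym (u : ℤ) p ≠ jacobiSym (u' : ℤ) p ∨ jacobiSym (u : ℤ) p = 0)).card : ℝ) ≤ κ * P.card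

private theorem FD_mem_Hs {P : Finset ℕ} {ω : ℕ → ℤ} {H : ℕ} {κ : ℝ} {u : ℕ} {h : ℤ} :
    h ∈ Hs P ω H κ u ↔ (h ∈ Finset.Icc (-(H : ℤ)) H) ∧ h ≠ 0 ∧ (exc P ω (u * h.natAbs) : ℝ) ≤ κ * P.card := by
  unfold Hs
  rw [Finset.mem_filter]

private theorem FD_mul (u : ℕ) (h : ℤ) (p : ℕ) :
    jacobiSym ((u * h.natAbs : ℕ) : ℤ) p = jacobiSym (u : ℤ) p * jacobiSym (h.natAbs : ℤ) p := by
  rw [Nat.cast_mul, jacobiSym.mul_left]

theorem eqv_of_common {P : Finset ℕ} {ω : ℕ → ℤ} {H : ℕ} {κ : ℝ} {u u' : ℕ} {h : ℤ}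
    (hω : ∀ p ∈ P, ω p = 1 ∨ ω p = -1) (h1 : h ∈ Hs P ω H κ u) (h2 : h ∈ Hs P ω H κ u') :
    Eqv P (2 * κ) u u' := by
  classical
  have e1 := (FD_mem_Hs.mp h1).2.2
  have e2 := (FD_mem_Hs.mp h2).2.2
  unfold exc at e1 e2
  unfold Eqv
  have hsub : P.filter (fun p => jacobiSym (u : ℤ) p ≠ jacobiSym (u' : ℤ) p ∨ jacobiSym (u : ℤ) p = 0) ⊆
      P.filter (fun p => jacobiSym ((u * h.natAbs : ℕ) : ℤ) p ≠ ω p) ∪
      P.filter (fun p => jacobiSym ((u' * h.natAbs : ℕ) : ℤ) p ≠ ω p) := by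
    intro p hp
    rw [Finset.mem_filter] at hp
    rw [Finset.mem_union, Finset.mem_filter, Finset.mem_filter]
    by_contra hc
    push Not at hc
    have c1 := hc.1 hp.1
    have c2 := hc.2 hp.1
    rw [FD_mul] at c1 c2
    have hne : ω p ≠ 0 := by
      rcases hω p hp.1 with h | h <;> rw [h] <;> decide
    have hh : jacobiSym (h.natAbs : ℤ) p ≠ 0 := by
      intro h0
      rw [h0, mul_zero] at c1
      exact hne c1.symm
    have hu : jacobiSym (u : ℤ) p ≠ 0 := by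
      intro h0
      rw [h0, zero_mul] at c1
      exact hne c1.symm
    rcases hp.2 with h3 | h3
    · exact h3 (mul_right_cancel₀ hh (c1.trans c2.symm))
    · exact hu h3
  have hcard := (Finset.card_le_card hsub).trans (Finset.card_union_le _ _)
  have hcardR : ((P.filter (fun p => jacobiSym (u : ℤ) p ≠ jacobiSym (u' : ℤ) p ∨
      jacobiSym (u : ℤ) p = 0)).card : ℝ) ≤
      ((P.filter (fun p => jacobiSym ((u * h.natAbs : ℕ) : ℤ) p ≠ ω p)).card : ℝ) +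
      ((P.filter (fun p => jacobiSym ((u' * h.natAbs : ℕ) : ℤ) p ≠ ω p)).card : ℝ) := by
    exact_mod_cast hcard
  refine le_trans ?_ (hcardR.trans ?_)
  · exact le_of_eq (by congr 2)
  · linarith

theorem mem_of_eqv {P : Finset ℕ} {ω : ℕ → ℤ} {H : ℕ} {κ κ' : ℝ} {u u' : ℕ} {h : ℤ}
    (hω : ∀ p ∈ P, ω p = 1 ∨ ω p = -1) (h1 : h ∈ Hs P ω H κ u') (h2 : Eqv P κ' u u') :
    h ∈ Hs P ω H (κ + κ') u := by
  classical
  have e1 := FD_mem_Hs.mp h1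
  refine FD_mem_Hs.mpr ⟨e1.1, e1.2.1, ?_⟩
  have e2 := e1.2.2
  unfold exc at e2 ⊢
  unfold Eqv at h2
  have hsub : P.filter (fun p => jacobiSym ((u * h.natAbs : ℕ) : ℤ) p ≠ ω p) ⊆
      P.filter (fun p => jacobiSym ((u' * h.natAbs : ℕ) : ℤ) p ≠ ω p) ∪
      P.filter (fun p => jacobiSym (u : ℤ) p ≠ jacobiSym (u' : ℤ) p ∨ jacobiSym (u : ℤ) p = 0) := by
    intro p hp
    rw [Finset.mem_filter] at hp
    rw [Finset.mem_union, Finset.mem_filter, Finset.mem_filter]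
    by_contra hc
    push Not at hc
    have c1 := hc.1 hp.1
    have c2 := (hc.2 hp.1).1
    apply hp.2
    rw [← c1, FD_mul, FD_mul, c2]
  have hcard := (Finset.card_le_card hsub).trans (Finset.card_union_le _ _)
  have hcardR : ((P.filter (fun p => jacobiSym ((u * h.natAbs : ℕ) : ℤ) p ≠ ω p)).card : ℝ) ≤
      ((P.filter (fun p => jacobiSym ((u' * h.natAbs : ℕ) : ℤ) p ≠ ω p)).card : ℝ) +
      ((P.filter (fun p => jacobiSym (u : ℤ) p ≠ jacobiSym (u' : ℤ) p ∨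
      jacobiSym (u : ℤ) p = 0)).card : ℝ) := by
    exact_mod_cast hcard
  have h3 : ((P.filter (fun p => jacobiSym (u : ℤ) p ≠ jacobiSym (u' : ℤ) p ∨
      jacobiSym (u : ℤ) p = 0)).card : ℝ) ≤ κ' * P.card := by
    refine le_trans (le_of_eq ?_) h2
    congr 2
  linarith

open Classical in
theorem double_count {P 𝒰 : Finset ℕ} {ω : ℕ → ℤ} {H : ℕ} {κ₀ κ σ K₀ lam : ℝ}
    (hω : ∀ p ∈ P, ω p = 1 ∨ ω p = -1) (hκ₀ : 0 ≤ κ₀) (hκ : κ₀ ≤ κ) (hσ : 0 < σ) (hK₀ : 0 < K₀) (hlam : 1 ≤ lam)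
    (Sh : ℕ → Finset (Fin 3 → ℤ)) (hSh : ∀ u ∈ 𝒰, σ ≤ ((Sh u).card : ℝ))
    (hSh1 : ∀ u ∈ 𝒰, ∀ h ∈ Sh u, ∀ i, h i ∈ Hs P ω H κ₀ u)
    (hSh2 : ∀ h : Fin 3 → ℤ, ((𝒰.filter (fun u => h ∈ Sh u)).card : ℝ) ≤ K₀) :
    ∑ u ∈ 𝒰.filter (fun u => ((Hs P ω H (3 * κ) u).card : ℝ) ≤ lam * (Hs P ω H κ u).card),
      σ / (K₀ * lam ^ 3 * ((Hs P ω H κ u).card : ℝ) ^ 2) ≤ 2 * H + 1 := by
  set F : ℕ → ℕ := fun u => (𝒰.filter (fun u' => Eqv P (2 * κ) u u')).card with hF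
  have hFD : ∀ h : ℤ, ∀ u ∈ 𝒰.filter (fun u => h ∈ Hs P ω H κ u),
      (𝒰.filter (fun u => h ∈ Hs P ω H κ u)).card ≤ F u := by
    intro h u hu
    rw [hF]
    refine Finset.card_le_card ?_
    intro u' hu'
    rw [Finset.mem_filter] at hu hu' ⊢
    exact ⟨hu'.1, eqv_of_common hω hu.2 hu'.2⟩
  have hF1 : ∀ u ∈ 𝒰, 0 < (Hs P ω H κ u).card → 0 < F u := by
    intro u hu hg
    obtain ⟨h, hh⟩ := Finset.card_pos.mp hg
    have hmem : u ∈ 𝒰.filter (fun u => h ∈ Hs P ω H κ u) := Finset.mem_filter.mpr ⟨hu, hh⟩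
    exact lt_of_lt_of_le (Finset.card_pos.mpr ⟨u, hmem⟩) (hFD h u hmem)
  -- (1)
  have hone : ∑ u ∈ 𝒰, ((Hs P ω H κ u).card : ℝ) / (F u : ℝ) ≤ 2 * H + 1 := by
    have e1 : ∀ u ∈ 𝒰, ((Hs P ω H κ u).card : ℝ) / (F u : ℝ) =
        ∑ h ∈ Finset.Icc (-(H : ℤ)) H, if h ∈ Hs P ω H κ u then (1 : ℝ) / (F u : ℝ) else 0 := by
      intro u _
      rw [← Finset.sum_filter, Finset.sum_const, nsmul_eq_mul]
      have : (Finset.Icc (-(H : ℤ)) H).filter (fun h => h ∈ Hs P ω H κ u) = Hs P ω H κ u := by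
        ext h
        rw [Finset.mem_filter]
        constructor
        · exact fun hh => hh.2
        · exact fun hh => ⟨(FD_mem_Hs.mp hh).1, hh⟩
      rw [this]
      ring
    rw [Finset.sum_congr rfl e1, Finset.sum_comm]
    have e2 : ∀ h ∈ Finset.Icc (-(H : ℤ)) H,
        (∑ u ∈ 𝒰, if h ∈ Hs P ω H κ u then (1 : ℝ) / (F u : ℝ) else 0) ≤ 1 := by
      intro h _
      rw [← Finset.sum_filter]
      rcases Nat.eq_zero_or_pos (𝒰.filter (fun u => h ∈ Hs P ω H κ u)).card with h0 | h0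
      · rw [Finset.card_eq_zero.mp h0, Finset.sum_empty]
        exact zero_le_one
      · have hcR : (0 : ℝ) < ((𝒰.filter (fun u => h ∈ Hs P ω H κ u)).card : ℝ) := by exact_mod_cast h0
        calc ∑ u ∈ 𝒰.filter (fun u => h ∈ Hs P ω H κ u), (1 : ℝ) / (F u : ℝ)
            ≤ ∑ u ∈ 𝒰.filter (fun u => h ∈ Hs P ω H κ u),
              (1 : ℝ) / ((𝒰.filter (fun u => h ∈ Hs P ω H κ u)).card : ℝ) := by
              refine Finset.sum_le_sum (fun u hu => ?_)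
              exact one_div_le_one_div_of_le hcR (by exact_mod_cast hFD h u hu)
          _ = 1 := by
              rw [Finset.sum_const, nsmul_eq_mul, mul_one_div, div_self hcR.ne']
    refine (Finset.sum_le_sum e2).trans (le_of_eq ?_)
    rw [Finset.sum_const, nsmul_eq_mul, mul_one, Int.card_Icc]
    have : ((H : ℤ) + 1 - -(H : ℤ)).toNat = 2 * H + 1 := by omega
    rw [this]
    push_cast
    ring
  -- (2)
  have htwo : ∀ u ∈ 𝒰, σ * (F u : ℝ) ≤ K₀ * ((Hs P ω H (3 * κ) u).card : ℝ) ^ 3 := by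
    intro u _
    set C := 𝒰.filter (fun u' => Eqv P (2 * κ) u u') with hC
    set B := Fintype.piFinset (fun _ : Fin 3 => Hs P ω H (3 * κ) u) with hB
    have hSB : ∀ u' ∈ C, Sh u' ⊆ B := by
      intro u' hu' h hh
      rw [hC, Finset.mem_filter] at hu'
      rw [hB, Fintype.mem_piFinset]
      intro i
      have h3 := mem_of_eqv hω (hSh1 u' hu'.1 h hh i) hu'.2
      have h4 := FD_mem_Hs.mp h3
      refine FD_mem_Hs.mpr ⟨h4.1, h4.2.1, h4.2.2.trans ?_⟩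
      exact mul_le_mul_of_nonneg_right (by linarith) (Nat.cast_nonneg _)
    have h5 : σ * (F u : ℝ) ≤ ∑ u' ∈ C, ((Sh u').card : ℝ) := by
      calc σ * (F u : ℝ) = ∑ _u' ∈ C, σ := by
            rw [Finset.sum_const, nsmul_eq_mul, mul_comm]
        _ ≤ ∑ u' ∈ C, ((Sh u').card : ℝ) := by
            refine Finset.sum_le_sum (fun u' hu' => ?_)
            rw [hC, Finset.mem_filter] at hu'
            exact hSh u' hu'.1
    refine h5.trans ?_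
    have h6 : ∀ u' ∈ C, ((Sh u').card : ℝ) = ∑ h ∈ B, if h ∈ Sh u' then (1 : ℝ) else 0 := by
      intro u' hu'
      rw [← Finset.sum_filter, Finset.sum_const, nsmul_eq_mul, mul_one]
      have : B.filter (fun h => h ∈ Sh u') = Sh u' := by
        ext h
        rw [Finset.mem_filter]
        exact ⟨fun hh => hh.2, fun hh => ⟨hSB u' hu' hh, hh⟩⟩
      rw [this]
    rw [Finset.sum_congr rfl h6, Finset.sum_comm]
    have h7 : ∀ h ∈ B, (∑ u' ∈ C, if h ∈ Sh u' then (1 : ℝ) else 0) ≤ K₀ := by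
      intro h _
      rw [← Finset.sum_filter, Finset.sum_const, nsmul_eq_mul, mul_one]
      refine le_trans ?_ (hSh2 h)
      have hsub : C.filter (fun u' => h ∈ Sh u') ⊆ 𝒰.filter (fun u => h ∈ Sh u) := by
        intro u' hu'
        rw [Finset.mem_filter] at hu' ⊢
        exact ⟨(Finset.mem_filter.mp hu'.1).1, hu'.2⟩
      exact_mod_cast Finset.card_le_card hsub
    refine (Finset.sum_le_sum h7).trans (le_of_eq ?_)
    rw [Finset.sum_const, nsmul_eq_mul, hB, Fintype.card_piFinset, Finset.prod_const, Finset.card_univ,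
      Fintype.card_fin]
    push_cast
    ring
  -- (3)
  refine le_trans ?_ hone
  refine le_trans (Finset.sum_le_sum (g := fun u => ((Hs P ω H κ u).card : ℝ) / (F u : ℝ)) ?_) ?_
  · intro u hu
    rw [Finset.mem_filter] at hu
    rcases Nat.eq_zero_or_pos (Hs P ω H κ u).card with h0 | h0
    · rw [h0]
      simp
    · have hFp : (0 : ℝ) < (F u : ℝ) := by exact_mod_cast hF1 u hu.1 h0
      have hgp : (0 : ℝ) < ((Hs P ω H κ u).card : ℝ) := by exact_mod_cast h0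
      have hlam0 : (0 : ℝ) < lam := lt_of_lt_of_le one_pos hlam
      have hden : 0 < K₀ * lam ^ 3 * ((Hs P ω H κ u).card : ℝ) ^ 2 := by positivity
      rw [div_le_div_iff₀ hden hFp]
      refine (htwo u hu.1).trans ?_
      have h8 : ((Hs P ω H (3 * κ) u).card : ℝ) ^ 3 ≤ (lam * (Hs P ω H κ u).card) ^ 3 :=
        pow_le_pow_left₀ (Nat.cast_nonneg _) hu.2 3
      calc K₀ * ((Hs P ω H (3 * κ) u).card : ℝ) ^ 3 ≤ K₀ * (lam * (Hs P ω H κ u).card) ^ 3 :=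
            mul_le_mul_of_nonneg_left h8 hK₀.le
        _ = ((Hs P ω H κ u).card : ℝ) * (K₀ * lam ^ 3 * ((Hs P ω H κ u).card : ℝ) ^ 2) := by ring
  · refine Finset.sum_le_sum_of_subset_of_nonneg (Finset.filter_subset _ _) ?_
    intro u _ _
    positivity

end Pool.Agent.Lib.MP_2c6f70_nt.RU
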