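import Pool.Agent.Lib.MP_2c6f70_nt.RU.FD

/-!
# JOB FE: many edges

`G t u = #(Hs P ω H (3^t κ₀) u)`.

`many_edges`.  For `u ∈ 𝒰`: `G 0 u ≥ 1` (a shape exists because `σ > 0`; its `h 0` is in `Hs κ₀ u`), `G T u ≤ 2 H ≤ lam^T`.  So there is `t < T` with `G (t+1) u ≤ lam G t u` (otherwise `G T u > lam^T`).  Pigeonhole: some `t < T` works for a set `𝒰' ⊆ 𝒰`, `#𝒰' ≥ #𝒰/T`.
`double_count` with `κ = 3^t κ₀` (`𝒰'` is contained in the filter; the terms are `≥ 0`): `∑_{u ∈ 𝒰'} σ/(K₀ lam^3 G^2) ≤ R₀ := 2H+1`.  Let `g = sqrt (#𝒰' σ/(2 K₀ lam^3 R₀))`.  Every `u ∈ 𝒰'` with `1 ≤ G < g` has a term `> 2 R₀/#𝒰'`, so there are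
fewer than `#𝒰'/2` of them (`G ≥ 1` for all `u ∈ 𝒰'`, monotone in `t`).  So `∑_{u ∈ 𝒰} G t u ≥ (#𝒰'/2) g ≥ (#𝒰/(2T)) sqrt (#𝒰 σ/(2 T K₀ lam^3 R₀))`.

`edges_le`.  `(u, h) ↦ d = u |h|`, `1 ≤ d ≤ N'`, `exc P ω d ≤ κ #P`; for given `d` there are at most two `u ∈ 𝒰` dividing `d` (three different primes `> U₁` would give `d > U₁^3 ≥ N'`) and then at most two `h`.
-/

set_option autoImplicit false

namespace Pool.Agent.Lib.MP_2c6f70_nt.RU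

private theorem FE_mono {P : Finset ℕ} {ω : ℕ → ℤ} {H : ℕ} {κ κ' : ℝ} (h : κ ≤ κ') (u : ℕ) :
    Hs P ω H κ u ⊆ Hs P ω H κ' u := by
  classical
  intro x hx
  unfold Hs at hx ⊢
  rw [Finset.mem_filter] at hx ⊢
  exact ⟨hx.1, hx.2.1, hx.2.2.trans (mul_le_mul_of_nonneg_right h (Nat.cast_nonneg _))⟩

private theorem FE_card_le {P : Finset ℕ} {ω : ℕ → ℤ} {H : ℕ} {κ : ℝ} (u : ℕ) :
    (Hs P ω H κ u).card ≤ 2 * H := by
  classical
  have h1 : Hs P ω H κ u ⊆ (Finset.Icc (-(H : ℤ)) H).erase 0 := by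
    intro x hx
    unfold Hs at hx
    rw [Finset.mem_filter] at hx
    exact Finset.mem_erase.mpr ⟨hx.2.1, hx.1⟩
  have h2 := Finset.card_le_card h1
  have h3 : (0 : ℤ) ∈ Finset.Icc (-(H : ℤ)) H := by
    rw [Finset.mem_Icc]
    constructor <;> omega
  rw [Finset.card_erase_of_mem h3, Int.card_Icc] at h2
  omega

private theorem FE_growth {g : ℕ → ℝ} {lam : ℝ} {T : ℕ} (hlam : 1 ≤ lam) (hT : 1 ≤ T) (h0 : 1 ≤ g 0)
    (hgT : g T ≤ lam ^ T) : ∃ t < T, g (t + 1) ≤ lam * g t := by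
  by_contra hcon
  push Not at hcon
  have h1 : ∀ t ≤ T, lam ^ t ≤ g t := by
    intro t
    induction t with
    | zero => intro _; simpa using h0
    | succ t ih =>
      intro ht
      have h2 := ih (by omega)
      have h3 := hcon t (by omega)
      calc lam ^ (t + 1) = lam * lam ^ t := by ring
        _ ≤ lam * g t := mul_le_mul_of_nonneg_left h2 (by linarith)
        _ ≤ g (t + 1) := h3.le
  obtain ⟨s, rfl⟩ : ∃ s, T = s + 1 := ⟨T - 1, by omega⟩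
  have h2 := h1 s (by omega)
  have h3 := hcon s (by omega)
  have h4 : lam * lam ^ s ≤ lam * g s := mul_le_mul_of_nonneg_left h2 (by linarith)
  have h5 : lam ^ (s + 1) = lam * lam ^ s := by ring
  linarith

private theorem FE_mean {ι : Type} (s : Finset ι) (G : ι → ℝ) (hG : ∀ i ∈ s, 1 ≤ G i) {c R : ℝ} (hc : 0 < c)
    (hR : 0 < R) (h : ∑ i ∈ s, c / G i ^ 2 ≤ R) :
    (s.card : ℝ) / 2 * Real.sqrt (s.card * c / (2 * R)) ≤ ∑ i ∈ s, G i := by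
  rcases s.eq_empty_or_nonempty with hs | hs
  · subst hs
    simp
  have hm : (0 : ℝ) < s.card := by exact_mod_cast hs.card_pos
  set g := Real.sqrt (s.card * c / (2 * R)) with hg
  have hg2 : g ^ 2 = s.card * c / (2 * R) := Real.sq_sqrt (by positivity)
  have hg0 : 0 < g := Real.sqrt_pos.mpr (by positivity)
  have key : ∀ i ∈ s, g - g ^ 3 / c * (c / G i ^ 2) ≤ G i := by
    intro i hi
    have h1 := hG i hi
    have hGi : 0 < G i := by linarith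
    have e : g ^ 3 / c * (c / G i ^ 2) = g * (g / G i) ^ 2 := by
      field_simp
    rw [e]
    rcases le_total g (G i) with hle | hle
    · have : 0 ≤ g * (g / G i) ^ 2 := by positivity
      linarith
    · have h2 : 1 ≤ g / G i := (one_le_div hGi).mpr hle
      have h3 : 1 ≤ (g / G i) ^ 2 := one_le_pow₀ h2
      have h4 : g * 1 ≤ g * (g / G i) ^ 2 := mul_le_mul_of_nonneg_left h3 hg0.le
      linarith
  have h1 := Finset.sum_le_sum key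
  rw [Finset.sum_sub_distrib, Finset.sum_const, nsmul_eq_mul, ← Finset.mul_sum] at h1
  have h2 : g ^ 3 / c * ∑ i ∈ s, c / G i ^ 2 ≤ g ^ 3 / c * R :=
    mul_le_mul_of_nonneg_left h (by positivity)
  have h3 : g ^ 3 / c * R = s.card / 2 * g := by
    have : g ^ 3 = g ^ 2 * g := by ring
    rw [this, hg2]
    field_simp
  linarith

open Classical in
theorem many_edges {P 𝒰 : Finset ℕ} {ω : ℕ → ℤ} {H T : ℕ} {κ₀ σ K₀ lam : ℝ}
    (hω : ∀ p ∈ P, ω p = 1 ∨ ω p = -1) (hκ₀ : 0 < κ₀) (hσ : 0 < σ) (hK₀ : 0 < K₀) (hlam : 1 ≤ lam) (hT : 1 ≤ T)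
    (hlamT : 2 * (H : ℝ) ≤ lam ^ T)
    (Sh : ℕ → Finset (Fin 3 → ℤ)) (hSh : ∀ u ∈ 𝒰, σ ≤ ((Sh u).card : ℝ))
    (hSh1 : ∀ u ∈ 𝒰, ∀ h ∈ Sh u, ∀ i, h i ∈ Hs P ω H κ₀ u)
    (hSh2 : ∀ h : Fin 3 → ℤ, ((𝒰.filter (fun u => h ∈ Sh u)).card : ℝ) ≤ K₀) :
    ∃ t < T, (𝒰.card : ℝ) / (2 * T) * Real.sqrt (𝒰.card * σ / (2 * T * K₀ * lam ^ 3 * (2 * H + 1))) ≤
      ∑ u ∈ 𝒰, ((Hs P ω H (3 ^ t * κ₀) u).card : ℝ) := by
  have hTR : (0 : ℝ) < T := by exact_mod_cast hT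
  -- the good exponents
  set 𝒱 : ℕ → Finset ℕ := fun t => 𝒰.filter (fun u => ((Hs P ω H (3 * (3 ^ t * κ₀)) u).card : ℝ) ≤
    lam * (Hs P ω H (3 ^ t * κ₀) u).card) with h𝒱
  have hG0 : ∀ u ∈ 𝒰, (1 : ℝ) ≤ ((Hs P ω H κ₀ u).card : ℝ) := by
    intro u hu
    have h1 : 0 < (Sh u).card := by
      have : (0 : ℝ) < (Sh u).card := lt_of_lt_of_le hσ (hSh u hu)
      exact_mod_cast this
    obtain ⟨h, hh⟩ := Finset.card_pos.mp h1
    have h2 : 0 < (Hs P ω H κ₀ u).card := Finset.card_pos.mpr ⟨_, hSh1 u hu h hh 0⟩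
    exact_mod_cast h2
  have hmono : ∀ t : ℕ, κ₀ ≤ 3 ^ t * κ₀ := by
    intro t
    have : (1 : ℝ) ≤ 3 ^ t := one_le_pow₀ (by norm_num)
    nlinarith
  have hG : ∀ u ∈ 𝒰, ∀ t : ℕ, (1 : ℝ) ≤ ((Hs P ω H (3 ^ t * κ₀) u).card : ℝ) := by
    intro u hu t
    refine (hG0 u hu).trans ?_
    exact_mod_cast Finset.card_le_card (FE_mono (hmono t) u)
  have hcov : 𝒰 ⊆ (Finset.range T).biUnion 𝒱 := by
    intro u hu
    have h1 := FE_growth (g := fun t => ((Hs P ω H (3 ^ t * κ₀) u).card : ℝ)) hlam hT (hG u hu 0)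
      (by
        refine le_trans ?_ hlamT
        exact_mod_cast FE_card_le (P := P) (ω := ω) (H := H) (κ := 3 ^ T * κ₀) u)
    obtain ⟨t, ht, h2⟩ := h1
    refine Finset.mem_biUnion.mpr ⟨t, Finset.mem_range.mpr ht, ?_⟩
    refine Finset.mem_filter.mpr ⟨hu, ?_⟩
    have e : (3 : ℝ) * (3 ^ t * κ₀) = 3 ^ (t + 1) * κ₀ := by ring
    rw [e]
    exact h2
  have hcard : 𝒰.card ≤ ∑ t ∈ Finset.range T, (𝒱 t).card :=
    (Finset.card_le_card hcov).trans Finset.card_biUnion_le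
  obtain ⟨t, ht, hmax⟩ := Finset.exists_max_image (Finset.range T) (fun t => (𝒱 t).card)
    ⟨0, Finset.mem_range.mpr (by omega)⟩
  have hcard2 : (𝒰.card : ℝ) ≤ T * (𝒱 t).card := by
    have h1 : ∑ t' ∈ Finset.range T, (𝒱 t').card ≤ ∑ _t' ∈ Finset.range T, (𝒱 t).card :=
      Finset.sum_le_sum fun t' ht' => hmax t' ht'
    rw [Finset.sum_const, Finset.card_range, smul_eq_mul] at h1
    exact_mod_cast hcard.trans h1
  refine ⟨t, Finset.mem_range.mp ht, ?_⟩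
  have hdc := double_count (P := P) (𝒰 := 𝒰) (ω := ω) (H := H) (κ₀ := κ₀) (κ := 3 ^ t * κ₀) (σ := σ)
    (K₀ := K₀) (lam := lam) hω hκ₀.le (hmono t) hσ hK₀ hlam Sh hSh hSh1 hSh2
  have hlam0 : 0 < lam := by linarith
  have hc : 0 < σ / (K₀ * lam ^ 3) := by positivity
  have hR : (0 : ℝ) < 2 * H + 1 := by positivity
  have hdc2 : ∑ u ∈ 𝒱 t, σ / (K₀ * lam ^ 3) / ((Hs P ω H (3 ^ t * κ₀) u).card : ℝ) ^ 2 ≤ 2 * H + 1 := by
    refine le_trans (le_of_eq ?_) hdc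
    refine Finset.sum_congr rfl fun u _ => ?_
    rw [div_div]
  have hmean := FE_mean (𝒱 t) (fun u => ((Hs P ω H (3 ^ t * κ₀) u).card : ℝ))
    (fun u hu => hG u (Finset.mem_filter.mp hu).1 t) hc hR hdc2
  have hsub : ∑ u ∈ 𝒱 t, ((Hs P ω H (3 ^ t * κ₀) u).card : ℝ) ≤
      ∑ u ∈ 𝒰, ((Hs P ω H (3 ^ t * κ₀) u).card : ℝ) :=
    Finset.sum_le_sum_of_subset_of_nonneg (Finset.filter_subset _ _) fun _ _ _ => Nat.cast_nonneg _
  refine le_trans (le_trans ?_ hmean) hsub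
  have hm : (𝒰.card : ℝ) / T ≤ (𝒱 t).card := by
    rw [div_le_iff₀ hTR]
    linarith
  refine mul_le_mul ?_ ?_ (Real.sqrt_nonneg _) (by positivity)
  · have e : (𝒰.card : ℝ) / (2 * T) = (𝒰.card : ℝ) / T / 2 := by
      field_simp
    rw [e]
    exact div_le_div_of_nonneg_right hm (by norm_num)
  · refine Real.sqrt_le_sqrt ?_
    have e : (𝒰.card : ℝ) * σ / (2 * T * K₀ * lam ^ 3 * (2 * H + 1)) =
        (𝒰.card : ℝ) / T * (σ / (K₀ * lam ^ 3)) / (2 * (2 * H + 1)) := by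
      field_simp
    rw [e]
    exact div_le_div_of_nonneg_right (mul_le_mul_of_nonneg_right hm hc.le) (by positivity)

private theorem FE_two {𝒰 : Finset ℕ} {N' d : ℕ} {U₁ : ℝ} (hU₁ : 1 ≤ U₁)
    (h𝒰 : ∀ u ∈ 𝒰, u.Prime ∧ U₁ < (u : ℝ)) (hN' : (N' : ℝ) ≤ U₁ ^ 3) (hd : 1 ≤ d) (hdN : d ≤ N') :
    (𝒰.filter (fun u => u ∣ d)).card ≤ 2 := by
  by_contra hcon
  push Not at hcon
  obtain ⟨a, b, c, ha, hb, hc, hab, hac, hbc⟩ := Finset.two_lt_card_iff.mp hcon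
  rw [Finset.mem_filter] at ha hb hc
  obtain ⟨ha1, ha2⟩ := ha
  obtain ⟨hb1, hb2⟩ := hb
  obtain ⟨hc1, hc2⟩ := hc
  have pa := (h𝒰 a ha1).1
  have pb := (h𝒰 b hb1).1
  have pc := (h𝒰 c hc1).1
  have h1 : a * b ∣ d := Nat.Coprime.mul_dvd_of_dvd_of_dvd ((Nat.coprime_primes pa pb).mpr hab) ha2 hb2
  have h2 : a * b * c ∣ d := by
    refine Nat.Coprime.mul_dvd_of_dvd_of_dvd ?_ h1 hc2
    exact Nat.Coprime.mul_left ((Nat.coprime_primes pa pc).mpr hac) ((Nat.coprime_primes pb pc).mpr hbc)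
  have h3 : a * b * c ≤ N' := (Nat.le_of_dvd hd h2).trans hdN
  have h4 : ((a * b * c : ℕ) : ℝ) ≤ U₁ ^ 3 := le_trans (by exact_mod_cast h3) hN'
  have ra := (h𝒰 a ha1).2
  have rb := (h𝒰 b hb1).2
  have rc := (h𝒰 c hc1).2
  have h0 : 0 < U₁ := by linarith
  have h5 : U₁ * U₁ < (a : ℝ) * b := mul_lt_mul'' ra rb h0.le h0.le
  have h6 : U₁ * U₁ * U₁ < (a : ℝ) * b * c := mul_lt_mul'' h5 rc (by positivity) h0.le
  push_cast at h4
  nlinarith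

open Classical in
theorem edges_le {P 𝒰 : Finset ℕ} {ω : ℕ → ℤ} {H N' : ℕ} {κ U₁ : ℝ}
    (hU₁ : 1 ≤ U₁) (h𝒰 : ∀ u ∈ 𝒰, u.Prime ∧ U₁ < (u : ℝ) ∧ u * H ≤ N') (hN' : (N' : ℝ) ≤ U₁ ^ 3) :
    ∑ u ∈ 𝒰, ((Hs P ω H κ u).card : ℝ) ≤
      4 * (((Finset.Icc 1 N').filter (fun d => (exc P ω d : ℝ) ≤ κ * P.card)).card : ℝ) := by
  set D := (Finset.Icc 1 N').filter (fun d => (exc P ω d : ℝ) ≤ κ * P.card) with hD
  set E : Finset (Sigma fun _ : ℕ => ℤ) := 𝒰.sigma (fun u => Hs P ω H κ u) with hE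
  have hmaps : ∀ w ∈ E, w.1 * w.2.natAbs ∈ D := by
    intro w hw
    obtain ⟨hw1, hw2⟩ := Finset.mem_sigma.mp hw
    unfold Hs at hw2
    rw [Finset.mem_filter, Finset.mem_Icc] at hw2
    obtain ⟨⟨h1, h2⟩, h3, h4⟩ := hw2
    obtain ⟨hp, -, hle⟩ := h𝒰 w.1 hw1
    refine Finset.mem_filter.mpr ⟨Finset.mem_Icc.mpr ⟨?_, ?_⟩, h4⟩
    · exact Nat.mul_pos hp.pos (Int.natAbs_pos.mpr h3)
    · exact (Nat.mul_le_mul_left _ (by omega : w.2.natAbs ≤ H)).trans hle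
  have hfib : ∀ d ∈ D, (E.filter (fun w => w.1 * w.2.natAbs = d)).card ≤ 4 := by
    intro d hd
    have hd' := Finset.mem_Icc.mp (Finset.mem_filter.mp hd).1
    have hsub : E.filter (fun w => w.1 * w.2.natAbs = d) ⊆
        (𝒰.filter (fun u => u ∣ d)).sigma (fun u => ({((d / u : ℕ) : ℤ), -((d / u : ℕ) : ℤ)} : Finset ℤ)) := by
      intro w hw
      obtain ⟨hw1, hw2⟩ := Finset.mem_filter.mp hw
      obtain ⟨hw3, -⟩ := Finset.mem_sigma.mp hw1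
      have hp := (h𝒰 w.1 hw3).1
      have hq : d / w.1 = w.2.natAbs := by
        rw [← hw2]
        exact Nat.mul_div_cancel_left _ hp.pos
      refine Finset.mem_sigma.mpr ⟨Finset.mem_filter.mpr ⟨hw3, ⟨_, hw2.symm⟩⟩, ?_⟩
      rw [Finset.mem_insert, Finset.mem_singleton, hq]
      omega
    have h2 := FE_two (d := d) hU₁ (fun u hu => ⟨(h𝒰 u hu).1, (h𝒰 u hu).2.1⟩) hN' hd'.1 hd'.2
    calc (E.filter (fun w => w.1 * w.2.natAbs = d)).card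
        ≤ ((𝒰.filter (fun u => u ∣ d)).sigma
            (fun u => ({((d / u : ℕ) : ℤ), -((d / u : ℕ) : ℤ)} : Finset ℤ))).card := Finset.card_le_card hsub
      _ = ∑ u ∈ 𝒰.filter (fun u => u ∣ d), ({((d / u : ℕ) : ℤ), -((d / u : ℕ) : ℤ)} : Finset ℤ).card :=
          Finset.card_sigma _ _
      _ ≤ ∑ _u ∈ 𝒰.filter (fun u => u ∣ d), 2 := Finset.sum_le_sum fun u _ => Finset.card_le_two
      _ ≤ 4 := by
          rw [Finset.sum_const, smul_eq_mul]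
          omega
  have h1 : E.card ≤ 4 * D.card := by
    rw [Finset.card_eq_sum_card_fiberwise (f := fun w : (Sigma fun _ : ℕ => ℤ) => w.1 * w.2.natAbs) (t := D)
      (fun w hw => hmaps w hw)]
    calc ∑ d ∈ D, (E.filter (fun w => w.1 * w.2.natAbs = d)).card ≤ ∑ _d ∈ D, 4 := Finset.sum_le_sum hfib
      _ = 4 * D.card := by rw [Finset.sum_const, smul_eq_mul, mul_comm]
  have h2 : E.card = ∑ u ∈ 𝒰, (Hs P ω H κ u).card := Finset.card_sigma _ _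
  rw [h2] at h1
  exact_mod_cast h1

end Pool.Agent.Lib.MP_2c6f70_nt.RU
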