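import Mathlib
import Pool.Agent.Lib.MP_2c6f70_nt.RU.Defs

/-!
# JOB FF: primes in a range, and the final comparison of exponents

`primes_range`.  `Chebyshev.psi_ge`, `Chebyshev.psi_le_primeCounting_mul_log`: with `n = ⌊N^υ⌋`: number of primes `≤ n` is `≥ (n log 2 - log(n+1))/log n ≥ 1.1 N^υ/(2 log N)`..., minus the at most `N^(υ-δ)` integers `≤ N^(υ-δ)`.

`final_compare`.  Everything is a power of `N`: with `u ≥ N^(υ-δ)`, `υ = 1/2 + 98 δ`, `ε = 100 δ`: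
left side `≥ (N^(υ-δ)/(2T)) sqrt (N^(υ-δ) N^(υ+3δ) / (512 * 2 T N^δ N^(3δ) (2 H + 1)))` with `H ≤ 2 N^(1-υ+δ)`, so `≥ c_T N^e` with `e = υ - δ + (1/2)(2υ + 2δ - 4δ - (1 - υ + δ)) = (5υ - 1)/2 - (5/2) δ = 3/4 + 245 δ - 2.5 δ`;
right side `≤ 4 (3 N^(1+δ))^(3/4 - 24 δ) ≤ 12 N^(3/4 - 24 δ + δ)`.  `3/4 + 242 δ > 3/4 - 23 δ`: contradiction for large `N`.
-/

set_option autoImplicit false

namespace Pool.Agent.Lib.MP_2c6f70_nt.RU

private theorem FF_log (r c : ℝ) (hr : 0 < r) (hc : 0 < c) :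
    ∀ᶠ N : ℕ in Filter.atTop, Real.log (N : ℝ) ≤ c * (N : ℝ) ^ r := by
  have h1 := (isLittleO_log_rpow_atTop hr).bound hc
  have h2 := (tendsto_natCast_atTop_atTop (R := ℝ)).eventually h1
  filter_upwards [h2] with N hN
  have h3 : 0 ≤ (N : ℝ) ^ r := Real.rpow_nonneg (Nat.cast_nonneg N) r
  rw [Real.norm_of_nonneg h3] at hN
  exact (le_abs_self _).trans hN

private theorem FF_big (r c : ℝ) (hr : 0 < r) :
    ∀ᶠ N : ℕ in Filter.atTop, c < (N : ℝ) ^ r := by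
  have h1 := (tendsto_rpow_atTop hr).comp (tendsto_natCast_atTop_atTop (R := ℝ))
  exact h1.eventually_gt_atTop c

theorem primes_range (υ δ : ℝ) (hδ : 0 < δ) (hυ : δ < υ) (hυ1 : υ ≤ 1) : ∃ N₀ : ℕ, ∀ N ≥ N₀,
    (N : ℝ) ^ (υ - δ) ≤ (((Finset.range (N + 1)).filter
      (fun u : ℕ => u.Prime ∧ (N : ℝ) ^ (υ - δ) < (u : ℝ) ∧ (u : ℝ) ≤ (N : ℝ) ^ υ)).card : ℝ) / 2 ∧
    (N : ℝ) ^ υ / (8 * Real.log N) ≤ (((Finset.range (N + 1)).filter
      (fun u : ℕ => u.Prime ∧ (N : ℝ) ^ (υ - δ) < (u : ℝ) ∧ (u : ℝ) ≤ (N : ℝ) ^ υ)).card : ℝ) := by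
  classical
  have hυ0 : 0 < υ := hδ.trans hυ
  have e1 := FF_log δ (1 / 8) hδ (by norm_num)
  have e2 := FF_log υ (1 / 100) hυ0 (by norm_num)
  have e3 := FF_big υ 100 hυ0
  obtain ⟨N₀, hN₀⟩ := Filter.eventually_atTop.1
    ((e1.and (e2.and e3)).and (Filter.eventually_ge_atTop 3))
  refine ⟨N₀, fun N hN => ?_⟩
  obtain ⟨⟨h1, h2, h3⟩, h4⟩ := hN₀ N hN
  have hN3 : (3 : ℝ) ≤ N := by exact_mod_cast h4
  have hN0 : (0 : ℝ) < N := by linarith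
  have hlog : 0 < Real.log N := Real.log_pos (by linarith)
  obtain ⟨n, hn⟩ : ∃ n : ℕ, n = ⌊(N : ℝ) ^ υ⌋₊ := ⟨_, rfl⟩
  have hx0 : 0 ≤ (N : ℝ) ^ υ := Real.rpow_nonneg hN0.le υ
  have hn1 : (n : ℝ) ≤ (N : ℝ) ^ υ := by
    rw [hn]
    exact Nat.floor_le hx0
  have hn2 : (N : ℝ) ^ υ < n + 1 := by
    rw [hn]
    exact Nat.lt_floor_add_one _
  have hxN : (N : ℝ) ^ υ ≤ N := by
    calc (N : ℝ) ^ υ ≤ (N : ℝ) ^ (1 : ℝ) := Real.rpow_le_rpow_of_exponent_le (by linarith) hυ1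
      _ = N := Real.rpow_one _
  have hnN : n ≤ N := by exact_mod_cast hn1.trans hxN
  obtain ⟨P, hP⟩ : ∃ P : Finset ℕ, P = (Finset.range (N + 1)).filter
      (fun u : ℕ => u.Prime ∧ (N : ℝ) ^ (υ - δ) < (u : ℝ) ∧ (u : ℝ) ≤ (N : ℝ) ^ υ) := ⟨_, rfl⟩
  rw [← hP]
  -- the primes up to `n`
  obtain ⟨k, hk⟩ : ∃ k : ℕ, k = ⌊(N : ℝ) ^ (υ - δ)⌋₊ := ⟨_, rfl⟩
  have hk0 : 0 ≤ (N : ℝ) ^ (υ - δ) := Real.rpow_nonneg hN0.le _
  have hk1 : (k : ℝ) ≤ (N : ℝ) ^ (υ - δ) := by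
    rw [hk]
    exact Nat.floor_le hk0
  have hsub : (Finset.range (n + 1)).filter Nat.Prime ⊆ P ∪ Finset.Icc 1 k := by
    intro u hu
    rw [Finset.mem_filter, Finset.mem_range] at hu
    obtain ⟨hu1, hu2⟩ := hu
    rw [Finset.mem_union, hP, Finset.mem_filter, Finset.mem_range, Finset.mem_Icc]
    by_cases h : (N : ℝ) ^ (υ - δ) < (u : ℝ)
    · left
      refine ⟨by omega, hu2, h, ?_⟩
      have h5 : (u : ℝ) ≤ n := by exact_mod_cast Nat.lt_succ_iff.1 hu1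
      linarith
    · right
      refine ⟨hu2.one_lt.le, ?_⟩
      rw [hk]
      exact Nat.le_floor (not_lt.1 h)
  have hcard : (Nat.primeCounting n : ℝ) ≤ (P.card : ℝ) + k := by
    have h5 := (Finset.card_le_card hsub).trans (Finset.card_union_le _ _)
    rw [Nat.card_Icc, Nat.add_sub_cancel] at h5
    have h6 : Nat.primeCounting n = ((Finset.range (n + 1)).filter Nat.Prime).card := by
      unfold Nat.primeCounting Nat.primeCounting'
      rw [Nat.count_eq_card_filter_range]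
    rw [h6]
    exact_mod_cast h5
  have hpi := Chebyshev.psi_ge n
  have hpi2 := Chebyshev.psi_le_primeCounting_mul_log n
  have hn99 : (99 : ℝ) < n := by linarith
  have hlogn : Real.log n ≤ Real.log N :=
    Real.log_le_log (by linarith) (by exact_mod_cast hnN)
  have hlogn1 : Real.log ((n : ℝ) + 1) ≤ Real.log N + 1 := by
    have h5 : ((n : ℝ) + 1) ≤ 2 * N := by
      have : (n : ℝ) ≤ N := by exact_mod_cast hnN
      linarith
    have h6 := Real.log_le_log (by linarith) h5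
    rw [Real.log_mul (by norm_num) hN0.ne'] at h6
    have h7 := Real.log_two_lt_d9
    linarith
  have hlog2 := Real.log_two_gt_d9
  have hmain : (N : ℝ) ^ υ / 2 ≤ (Nat.primeCounting n : ℝ) * Real.log N := by
    have h5 : (Nat.primeCounting n : ℝ) * Real.log n ≤ (Nat.primeCounting n : ℝ) * Real.log N :=
      mul_le_mul_of_nonneg_left hlogn (Nat.cast_nonneg _)
    have h6 : ((N : ℝ) ^ υ - 1) * (69 / 100) ≤ (n : ℝ) * Real.log 2 :=
      mul_le_mul (by linarith) (by linarith) (by norm_num) (by linarith)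
    linarith
  -- the small ones
  have hsmall : (N : ℝ) ^ (υ - δ) * (8 * Real.log N) ≤ (N : ℝ) ^ υ := by
    have h5 : (N : ℝ) ^ υ = (N : ℝ) ^ (υ - δ) * (N : ℝ) ^ δ := by
      rw [← Real.rpow_add hN0]
      congr 1
      ring
    rw [h5]
    exact mul_le_mul_of_nonneg_left (by linarith) hk0
  have hPl : 3 / 8 * (N : ℝ) ^ υ ≤ (P.card : ℝ) * Real.log N := by
    have h5 : (Nat.primeCounting n : ℝ) * Real.log N ≤ ((P.card : ℝ) + k) * Real.log N :=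
      mul_le_mul_of_nonneg_right hcard hlog.le
    have h6 : (k : ℝ) * Real.log N ≤ (N : ℝ) ^ (υ - δ) * Real.log N :=
      mul_le_mul_of_nonneg_right hk1 hlog.le
    linarith
  constructor
  · have h5 : (N : ℝ) ^ (υ - δ) * Real.log N ≤ (P.card : ℝ) / 2 * Real.log N := by linarith
    exact le_of_mul_le_mul_right h5 hlog
  · rw [div_le_iff₀ (by linarith)]
    linarith

theorem final_compare (δ : ℝ) (hδ : 0 < δ) (hδ1 : δ ≤ 1 / 400) (T : ℕ) (hT : 1 ≤ T) : ∃ N₀ : ℕ, ∀ N ≥ N₀,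
    ∀ (H N' : ℕ) (u σ E : ℝ), (N : ℝ) ^ (1 / 2 + 97 * δ) ≤ u → (N : ℝ) ^ (1 / 2 + 101 * δ) / 512 ≤ σ →
      (H : ℝ) ≤ 2 * (N : ℝ) ^ (1 / 2 - 97 * δ) → (N' : ℝ) ≤ 3 * (N : ℝ) ^ (1 + δ) →
      u / (2 * T) * Real.sqrt (u * σ / (2 * T * (N : ℝ) ^ δ * ((N : ℝ) ^ δ) ^ 3 * (2 * H + 1))) ≤ 4 * E →
      E ≤ (N' : ℝ) ^ (3 / 4 - 24 * δ) → False := by
  have e1 := FF_big δ (122880 * (T : ℝ) ^ 2) hδ
  obtain ⟨N₀, hN₀⟩ := Filter.eventually_atTop.1 (e1.and (Filter.eventually_ge_atTop 1))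
  refine ⟨N₀, fun N hN => ?_⟩
  obtain ⟨h1, h2⟩ := hN₀ N hN
  intro H N' u σ E hu hσ hH hN' hL hE
  have hN1 : (1 : ℝ) ≤ N := by exact_mod_cast h2
  have hT1 : (1 : ℝ) ≤ T := by exact_mod_cast hT
  obtain ⟨x, hx⟩ : ∃ x : ℝ, x = N := ⟨_, rfl⟩
  rw [← hx] at h1 hu hσ hH hN' hL hN1
  have hx0 : 0 < x := by linarith
  have hpow : ∀ a b : ℝ, x ^ (a + b) = x ^ a * x ^ b := fun a b => Real.rpow_add hx0 a b
  have hpos : ∀ a : ℝ, 0 < x ^ a := fun a => Real.rpow_pos_of_pos hx0 a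
  have hge1 : ∀ a : ℝ, 0 ≤ a → 1 ≤ x ^ a := fun a ha => Real.one_le_rpow hN1 ha
  -- the denominator
  have hden0 : 0 < 2 * (T : ℝ) * x ^ δ * (x ^ δ) ^ 3 * (2 * H + 1) := by
    have := hpos δ
    positivity
  have hx4 : x ^ δ * (x ^ δ) ^ 3 = x ^ (4 * δ) := by
    rw [← Real.rpow_natCast (x ^ δ) 3, ← Real.rpow_mul hx0.le, ← Real.rpow_add hx0]
    congr 1
    push_cast
    ring
  have hden : 2 * (T : ℝ) * x ^ δ * (x ^ δ) ^ 3 * (2 * H + 1) ≤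
      10 * T * x ^ (1 / 2 - 93 * δ) := by
    have h3 : 2 * (H : ℝ) + 1 ≤ 5 * x ^ (1 / 2 - 97 * δ) := by
      have := hge1 (1 / 2 - 97 * δ) (by linarith)
      linarith
    have h4 : 2 * (T : ℝ) * x ^ δ * (x ^ δ) ^ 3 * (2 * H + 1) =
        2 * T * x ^ (4 * δ) * (2 * H + 1) := by
      rw [← hx4]
      ring
    rw [h4]
    have h5 : x ^ (1 / 2 - 93 * δ) = x ^ (4 * δ) * x ^ (1 / 2 - 97 * δ) := by
      rw [← hpow]
      congr 1
      ring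
    rw [h5]
    have h6 : 2 * (T : ℝ) * x ^ (4 * δ) * (2 * H + 1) ≤
        2 * T * x ^ (4 * δ) * (5 * x ^ (1 / 2 - 97 * δ)) :=
      mul_le_mul_of_nonneg_left h3 (by have := hpos (4 * δ); positivity)
    refine h6.trans (le_of_eq ?_)
    ring
  have hu0 : 0 < u := (hpos _).trans_le hu
  have hσ0 : 0 < σ := (div_pos (hpos _) (by norm_num)).trans_le hσ
  have hnum : x ^ (1 + 198 * δ) / 512 ≤ u * σ := by
    have h3 : x ^ (1 / 2 + 97 * δ) * (x ^ (1 / 2 + 101 * δ) / 512) ≤ u * σ :=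
      mul_le_mul hu hσ (div_pos (hpos _) (by norm_num)).le hu0.le
    refine le_trans (le_of_eq ?_) h3
    rw [← mul_div_assoc, ← hpow]
    congr 2
    ring
  -- the square root
  have hs : x ^ (1 / 4 + 145 * δ) / (5120 * T) ≤
      Real.sqrt (u * σ / (2 * T * x ^ δ * (x ^ δ) ^ 3 * (2 * H + 1))) := by
    refine Real.le_sqrt_of_sq_le ?_
    rw [le_div_iff₀ hden0]
    have h3 : (x ^ (1 / 4 + 145 * δ) / (5120 * T)) ^ 2 = x ^ (1 / 2 + 290 * δ) / (5120 * T) ^ 2 := by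
      rw [div_pow, ← Real.rpow_natCast (x ^ (1 / 4 + 145 * δ)) 2, ← Real.rpow_mul hx0.le]
      congr 2
      push_cast
      ring
    rw [h3]
    have h4 : x ^ (1 / 2 + 290 * δ) / (5120 * T) ^ 2 *
        (2 * T * x ^ δ * (x ^ δ) ^ 3 * (2 * H + 1)) ≤
        x ^ (1 / 2 + 290 * δ) / (5120 * T) ^ 2 * (10 * T * x ^ (1 / 2 - 93 * δ)) :=
      mul_le_mul_of_nonneg_left hden (div_nonneg (hpos _).le (by positivity))
    refine h4.trans (le_trans ?_ hnum)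
    have h5 : x ^ (1 / 2 + 290 * δ) / (5120 * T) ^ 2 * (10 * T * x ^ (1 / 2 - 93 * δ)) =
        x ^ (1 + 197 * δ) * (10 * T / (5120 * T) ^ 2) := by
      have h6 : x ^ (1 + 197 * δ) = x ^ (1 / 2 + 290 * δ) * x ^ (1 / 2 - 93 * δ) := by
        rw [← hpow]
        congr 1
        ring
      rw [h6]
      ring
    have h8 : 10 * (T : ℝ) / (5120 * T) ^ 2 ≤ (512 : ℝ)⁻¹ := by
      rw [div_le_iff₀ (by positivity)]
      nlinarith
    have h9 : x ^ (1 + 197 * δ) ≤ x ^ (1 + 198 * δ) :=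
      Real.rpow_le_rpow_of_exponent_le hN1 (by linarith)
    rw [h5]
    refine (mul_le_mul h9 h8 (by positivity) (hpos _).le).trans (le_of_eq ?_)
    rw [div_eq_mul_inv]
  have hlow : x ^ (3 / 4 + 242 * δ) / (10240 * (T : ℝ) ^ 2) ≤ 4 * E := by
    refine le_trans ?_ hL
    have h3 : x ^ (1 / 2 + 97 * δ) / (2 * T) ≤ u / (2 * T) := by
      rw [div_le_div_iff_of_pos_right (by positivity)]
      exact hu
    refine le_trans (le_of_eq ?_) (mul_le_mul h3 hs (div_nonneg (hpos _).le (by positivity))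
      (div_nonneg hu0.le (by positivity)))
    have h4 : x ^ (3 / 4 + 242 * δ) = x ^ (1 / 2 + 97 * δ) * x ^ (1 / 4 + 145 * δ) := by
      rw [← hpow]
      congr 1
      ring
    rw [h4]
    field_simp
    ring
  have hup : E ≤ 3 * x ^ (3 / 4 : ℝ) := by
    refine hE.trans ?_
    have he0 : 0 ≤ 3 / 4 - 24 * δ := by linarith
    refine (Real.rpow_le_rpow (Nat.cast_nonneg _) hN' he0).trans ?_
    rw [Real.mul_rpow (by norm_num) (hpos _).le, ← Real.rpow_mul hx0.le]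
    refine mul_le_mul ?_ (Real.rpow_le_rpow_of_exponent_le hN1 (by nlinarith))
      (hpos _).le (by norm_num)
    calc (3 : ℝ) ^ (3 / 4 - 24 * δ) ≤ (3 : ℝ) ^ (1 : ℝ) :=
          Real.rpow_le_rpow_of_exponent_le (by norm_num) (by linarith)
      _ = 3 := Real.rpow_one _
  have h3 : x ^ (3 / 4 + 242 * δ) ≤ 122880 * (T : ℝ) ^ 2 * x ^ (3 / 4 : ℝ) := by
    have h4 : x ^ (3 / 4 + 242 * δ) / (10240 * (T : ℝ) ^ 2) ≤ 12 * x ^ (3 / 4 : ℝ) := by linarith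
    rw [div_le_iff₀ (by positivity)] at h4
    refine h4.trans (le_of_eq ?_)
    ring
  rw [hpow, mul_comm] at h3
  have h4 := le_of_mul_le_mul_right h3 (hpos _)
  have h5 : x ^ δ ≤ x ^ (242 * δ) := Real.rpow_le_rpow_of_exponent_le hN1 (by linarith)
  linarith

end Pool.Agent.Lib.MP_2c6f70_nt.RU
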