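import Pool.Agent.Lib.MP_2c6f70_nt.RU.FB
import Pool.Agent.Lib.MP_2c6f70_nt.RU.FF

/-!
# JOB FGA: many primes `u` with many stars

`υ = 1/2 + 98 δ`, `U = N^υ`, `U₁ = N^(υ-δ)`, `𝒰₀` = the primes of `primes_range υ δ`.  For large `N`:
`#V ≥ N^(1/2 + 99 δ) = N^(υ+δ) ≥ 16 U`; `U₁^3 = N^(3/2 + 291 δ) ≥ N`; `16 (C N) U ≤ #𝒰₀ #V^2` because `#𝒰₀ ≥ N^υ / (8 log N)` and `#V^2 ≥ N^(1 + 198 δ)`.
`good_average` (`Cb = C N`): `𝒰 = 𝒰₀.filter (#V^2/(4U) ≤ #cpairs)`, `#𝒰 ≥ #𝒰₀/2 ≥ N^(υ-δ)`.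
`stars_ge`: `#stars ≥ #V^4/(512 U^3) ≥ N^(4 (1/2 + 99 δ) - 3 (1/2 + 98 δ))/512 = N^(1/2 + 102 δ)/512`.
-/

set_option autoImplicit false

namespace Pool.Agent.Lib.MP_2c6f70_nt.RU

open Classical in
theorem star_family (δ C : ℝ) (hδ : 0 < δ) (hδ1 : δ ≤ 1 / 400) : ∃ N₀ : ℕ, ∀ N ≥ N₀,
    ∀ (V : Finset ℕ) (R : ℕ → Prop), (∀ n ∈ V, n < N) → (N : ℝ) ^ (1 / 2 + 99 * δ) ≤ (V.card : ℝ) →
    (((pairs V).filter (fun t => ¬ R (Nat.dist t.1 t.2))).card : ℝ) ≤ C * N →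
      ∃ 𝒰 : Finset ℕ,
        (∀ u ∈ 𝒰, u.Prime ∧ (N : ℝ) ^ (1 / 2 + 97 * δ) < (u : ℝ) ∧ (u : ℝ) ≤ (N : ℝ) ^ (1 / 2 + 98 * δ)) ∧
        (N : ℝ) ^ (1 / 2 + 97 * δ) ≤ (𝒰.card : ℝ) ∧
        ∀ u ∈ 𝒰, (N : ℝ) ^ (1 / 2 + 102 * δ) / 512 ≤ ((stars V u R).card : ℝ) := by
  obtain ⟨N₁, hN₁⟩ := primes_range (1 / 2 + 98 * δ) δ hδ (by linarith) (by linarith)
  obtain ⟨N₂, hN₂⟩ := Filter.eventually_atTop.1
    (((tendsto_rpow_atTop hδ).comp tendsto_natCast_atTop_atTop).eventually_ge_atTop 16)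
  have hc : 0 < 1 / (128 * (|C| + 1)) := by positivity
  obtain ⟨N₃, hN₃⟩ := Filter.eventually_atTop.1
    (tendsto_natCast_atTop_atTop.eventually
      ((isLittleO_log_rpow_atTop (by positivity : 0 < 198 * δ)).def hc))
  refine ⟨max (max N₁ N₂) (max N₃ 2), fun N hN V R hV hVc hbad => ?_⟩
  have hNa : N₁ ≤ N := ((le_max_left _ _).trans (le_max_left _ _)).trans hN
  have hNb : N₂ ≤ N := ((le_max_right _ _).trans (le_max_left _ _)).trans hN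
  have hNc : N₃ ≤ N := ((le_max_left _ _).trans (le_max_right _ _)).trans hN
  have hNd : 2 ≤ N := ((le_max_right _ _).trans (le_max_right _ _)).trans hN
  have hN1 : (1 : ℝ) ≤ N := by
    have : (2 : ℝ) ≤ N := by exact_mod_cast hNd
    linarith
  have hN0 : (0 : ℝ) < N := by linarith
  obtain ⟨hp1, hp2⟩ := hN₁ N hNa
  have h16 : (16 : ℝ) ≤ (N : ℝ) ^ δ := hN₂ N hNb
  have hlog : 128 * |C| * Real.log N ≤ (N : ℝ) ^ (198 * δ) := by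
    have h1 := hN₃ N hNc
    rw [Real.norm_of_nonneg (Real.log_nonneg hN1), Real.norm_of_nonneg (by positivity)] at h1
    have h2 : 128 * |C| * Real.log N ≤ 128 * |C| * (1 / (128 * (|C| + 1)) * (N : ℝ) ^ (198 * δ)) :=
      mul_le_mul_of_nonneg_left h1 (by positivity)
    refine h2.trans ?_
    have h3 : 128 * |C| * (1 / (128 * (|C| + 1)) * (N : ℝ) ^ (198 * δ)) =
        (|C| / (|C| + 1)) * (N : ℝ) ^ (198 * δ) := by
      field_simp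
    rw [h3]
    have h4 : |C| / (|C| + 1) ≤ 1 := by
      rw [div_le_one (by positivity)]
      linarith
    have h5 := mul_le_mul_of_nonneg_right h4 (by positivity : 0 ≤ (N : ℝ) ^ (198 * δ))
    linarith
  have he : (1 / 2 + 98 * δ - δ : ℝ) = 1 / 2 + 97 * δ := by ring
  rw [he] at hp1 hp2
  have hV16 : 16 * (N : ℝ) ^ (1 / 2 + 98 * δ) ≤ (V.card : ℝ) := by
    refine le_trans ?_ hVc
    have h1 : (N : ℝ) ^ (1 / 2 + 99 * δ) = (N : ℝ) ^ δ * (N : ℝ) ^ (1 / 2 + 98 * δ) := by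
      rw [← Real.rpow_add hN0]
      congr 1
      ring
    rw [h1]
    exact mul_le_mul_of_nonneg_right h16 (by positivity)
  have hU0 : 0 < (N : ℝ) ^ (1 / 2 + 98 * δ) := by positivity
  have hVsq : (N : ℝ) ^ (1 + 198 * δ) ≤ (V.card : ℝ) ^ 2 := by
    have h1 := pow_le_pow_left₀ (by positivity) hVc 2
    refine le_trans (le_of_eq ?_) h1
    rw [← Real.rpow_natCast, ← Real.rpow_mul hN0.le]
    congr 1
    push_cast
    ring
  set 𝒰₀ := (Finset.range (N + 1)).filter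
      (fun u : ℕ => u.Prime ∧ (N : ℝ) ^ (1 / 2 + 97 * δ) < (u : ℝ) ∧ (u : ℝ) ≤ (N : ℝ) ^ (1 / 2 + 98 * δ)) with h𝒰₀
  have hmem : ∀ u ∈ 𝒰₀, u.Prime ∧ (N : ℝ) ^ (1 / 2 + 97 * δ) < (u : ℝ) ∧ (u : ℝ) ≤ (N : ℝ) ^ (1 / 2 + 98 * δ) :=
    fun u hu => (Finset.mem_filter.1 hu).2
  have hga := good_average (N := N) (V := V) (𝒰 := 𝒰₀) (R := R) (U₁ := (N : ℝ) ^ (1 / 2 + 97 * δ))
    (U := (N : ℝ) ^ (1 / 2 + 98 * δ)) (Cb := C * N) hV (Real.one_le_rpow hN1 (by positivity)) hmem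
    (by
      rw [← Real.rpow_natCast, ← Real.rpow_mul hN0.le]
      have h1 : (N : ℝ) ^ (1 : ℝ) ≤ (N : ℝ) ^ ((1 / 2 + 97 * δ) * ((3 : ℕ) : ℝ)) := by
        apply Real.rpow_le_rpow_of_exponent_le hN1
        push_cast
        linarith
      rwa [Real.rpow_one] at h1)
    (by linarith) hbad
    (by
      have hl : 0 < Real.log N := Real.log_pos (by
        have : (2 : ℝ) ≤ N := by exact_mod_cast hNd
        linarith)
      have h1 : (N : ℝ) ^ (1 / 2 + 98 * δ) / (8 * Real.log N) * (N : ℝ) ^ (1 + 198 * δ) ≤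
          𝒰₀.card * (V.card : ℝ) ^ 2 := mul_le_mul hp2 hVsq (by positivity) (by positivity)
      refine le_trans ?_ h1
      have h2 : (N : ℝ) ^ (1 + 198 * δ) = N * (N : ℝ) ^ (198 * δ) := by
        rw [Real.rpow_add hN0, Real.rpow_one]
      rw [h2]
      have h3 : 16 * (C * (N : ℝ)) * (N : ℝ) ^ (1 / 2 + 98 * δ) ≤
          16 * (|C| * (N : ℝ)) * (N : ℝ) ^ (1 / 2 + 98 * δ) := by
        have h4 : C ≤ |C| := le_abs_self C
        gcongr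
      refine h3.trans ?_
      have h5 : 16 * (|C| * (N : ℝ)) * (N : ℝ) ^ (1 / 2 + 98 * δ) =
          (N : ℝ) ^ (1 / 2 + 98 * δ) / (8 * Real.log N) * (N * (128 * |C| * Real.log N)) := by
        field_simp
        ring
      rw [h5]
      gcongr)
  refine ⟨𝒰₀.filter (fun u => (V.card : ℝ) ^ 2 / (4 * (N : ℝ) ^ (1 / 2 + 98 * δ)) ≤ ((cpairs V u R).card : ℝ)),
    fun u hu => hmem u (Finset.mem_filter.1 hu).1, hp1.trans hga, fun u hu => ?_⟩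
  have h1 := stars_ge (V := V) (u := u) (R := R) hU0 (Finset.mem_filter.1 hu).2 hV16
  refine le_trans ?_ h1
  have h2 := pow_le_pow_left₀ (by positivity) hVc 4
  have h3 : (N : ℝ) ^ (1 / 2 + 102 * δ) / 512 =
      ((N : ℝ) ^ (1 / 2 + 99 * δ)) ^ 4 / (512 * ((N : ℝ) ^ (1 / 2 + 98 * δ)) ^ 3) := by
    rw [eq_div_iff (by positivity), div_mul_eq_mul_div, div_eq_iff (by norm_num)]
    have e1 : ((N : ℝ) ^ (1 / 2 + 99 * δ)) ^ 4 = (N : ℝ) ^ ((1 / 2 + 99 * δ) * 4) := by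
      rw [Real.rpow_mul hN0.le]
      norm_cast
    have e2 : ((N : ℝ) ^ (1 / 2 + 98 * δ)) ^ 3 = (N : ℝ) ^ ((1 / 2 + 98 * δ) * 3) := by
      rw [Real.rpow_mul hN0.le]
      norm_cast
    rw [e1, e2]
    have e3 : (N : ℝ) ^ (1 / 2 + 102 * δ) * (N : ℝ) ^ ((1 / 2 + 98 * δ) * 3) = (N : ℝ) ^ ((1 / 2 + 99 * δ) * 4) := by
      rw [← Real.rpow_add hN0]
      congr 1
      ring
    linarith [e3]
  rw [h3]
  exact div_le_div_of_nonneg_right h2 (by positivity)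

end Pool.Agent.Lib.MP_2c6f70_nt.RU
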