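import Pool.Agent.Lib.MP_2c6f70_nt.RU.Z_Par
import Pool.Agent.Lib.MP_17a322_nt.RO.A2

/-!
# Block BZ: a canonical height with an explicit error
-/

set_option autoImplicit false

namespace Pool.Agent.Lib.MP_2c6f70_nt.RU

open Height MvPolynomial WeierstrassCurve
open Pool.Agent.Lib.MP_17a322_nt.RO

/-- The parallelogram law with explicit constant. Proof: as `RO.parallelogram` (RO/A2), with `Z_addSub` in
place of `abs_logHeight_addSubMap_sub_two_mul_logHeight_le`; the constant of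
`Height.abs_logHeight_sym2_sub_le ℚ` does not depend on the curve and is `≤ C2 log M / log 2`. -/
theorem Z_parallelogram : ∃ c : ℝ, 0 < c ∧ ∀ (A B C : ℤ) (M : ℝ), 2 ≤ M → |(A : ℝ)| ≤ M →
    |(B : ℝ)| ≤ M → |(C : ℝ)| ≤ M → (ZW A B C).IsElliptic → ∀ P Q : (ZW A B C).toAffine.Point,
      |logHeight (P + Q).xRep + logHeight (P - Q).xRep - 2 * logHeight P.xRep -
        2 * logHeight Q.xRep| ≤ c * Real.log M := by
  obtain ⟨c1, hc1, hadd⟩ := Z_addSub
  obtain ⟨C2, hC2⟩ := abs_logHeight_sym2_sub_le ℚ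
  have hl2 : 0 < Real.log 2 := Real.log_pos (by norm_num)
  refine ⟨c1 + 3 * |C2| / Real.log 2, by positivity, ?_⟩
  intro A B C M hM hA hB hC hE P Q
  have hinst : (ZW A B C).IsElliptic := hE
  have hΔ : (ZW A B C).Δ ≠ 0 := hE.isUnit.ne_zero
  have hlM : Real.log 2 ≤ Real.log M := Real.log_le_log (by norm_num) hM
  have hC2' : 3 * C2 ≤ 3 * |C2| / Real.log 2 * Real.log M := by
    have h0 : 3 * C2 ≤ 3 * |C2| := by linarith [le_abs_self C2]
    have h1 : 3 * |C2| / Real.log 2 * Real.log 2 ≤ 3 * |C2| / Real.log 2 * Real.log M :=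
      mul_le_mul_of_nonneg_left hlM (by positivity)
    rw [div_mul_cancel₀ _ hl2.ne'] at h1
    linarith
  have h2 : ∀ P Q : (ZW A B C).toAffine.Point,
      |logHeight (P.sym2x Q) - (logHeight P.xRep + logHeight Q.xRep)| ≤ C2 := by
    intro P Q
    have e : ∀ v : Fin 2 → ℚ, ![v 0, v 1] = v := by
      intro v
      funext i
      fin_cases i <;> rfl
    have h := hC2 (a := P.xRep 0) (b := P.xRep 1) (c := Q.xRep 0) (d := Q.xRep 1)
      (by rw [e]; exact P.xRep_ne_zero) (by rw [e]; exact Q.xRep_ne_zero)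
    rw [e, e] at h
    exact h
  obtain ⟨c, hc0, hc⟩ := addSub_sym2x (ZW A B C) P Q
  have h3 : (fun i => eval (P.sym2x Q) (addSubMap (ZW A B C) i)) = c • ((P + Q).sym2x (P - Q)) := by
    funext i
    rw [hc i]
    rfl
  have h4 := hadd A B C M hM hA hB hC hΔ (P.sym2x Q)
  rw [h3, logHeight_smul_eq_logHeight _ hc0] at h4
  have h5 := h2 P Q
  have h6 := h2 (P + Q) (P - Q)
  have h7 : (c1 + 3 * |C2| / Real.log 2) * Real.log M =
      c1 * Real.log M + 3 * |C2| / Real.log 2 * Real.log M := by ring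
  rw [h7]
  rw [abs_le] at h4 h5 h6 ⊢
  constructor <;> linarith [h4.1, h4.2, h5.1, h5.2, h6.1, h6.2]

/-- Tate's limit with explicit constant. Proof: copy `RO.exists_quadratic` (RO/A2) and keep the constant
`(C + |h 0|) / 3` which occurs there. -/
theorem Z_quadratic {G : Type*} [AddCommGroup G] (h : G → ℝ) (hb : ∃ b : ℝ, ∀ P, b ≤ h P)
    (C : ℝ) (hC : ∀ P Q : G, |h (P + Q) + h (P - Q) - 2 * h P - 2 * h Q| ≤ C) :
    ∃ q : G → ℝ, (∀ P, |q P - h P| ≤ (C + |h 0|) / 3) ∧ (∀ P, 0 ≤ q P) ∧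
      ∀ P Q, q (P + Q) + q (P - Q) = 2 * q P + 2 * q Q := by
  obtain ⟨b, hb⟩ := hb
  have h2 : ∀ P : G, |h (2 • P) - 4 * h P| ≤ C + |h 0| := by
    intro P
    have h3 := hC P P
    rw [sub_self, ← two_nsmul] at h3
    have h4 := abs_le.1 h3
    have h5 := neg_abs_le (h 0)
    have h6 := le_abs_self (h 0)
    rw [abs_le]
    constructor <;> linarith [h4.1, h4.2]
  set C' := C + |h 0| with hC'
  have hd : ∀ (P : G) (n : ℕ), dist (h (2 ^ n • P) / 4 ^ n) (h (2 ^ (n + 1) • P) / 4 ^ (n + 1)) ≤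
      C' / 4 * (1 / 4 : ℝ) ^ n := by
    intro P n
    have h3 := h2 (2 ^ n • P)
    rw [smul_smul, ← pow_succ'] at h3
    have h4 : (0 : ℝ) < 4 ^ n := by positivity
    have h5 : h (2 ^ n • P) / 4 ^ n - h (2 ^ (n + 1) • P) / 4 ^ (n + 1) =
        -(h (2 ^ (n + 1) • P) - 4 * h (2 ^ n • P)) / 4 ^ (n + 1) := by
      rw [pow_succ (4 : ℝ) n]
      field_simp
      ring
    rw [Real.dist_eq, h5, abs_div, abs_neg, abs_of_pos (show (0 : ℝ) < 4 ^ (n + 1) by positivity)]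
    have h6 : C' / 4 * (1 / 4 : ℝ) ^ n = C' / 4 ^ (n + 1) := by
      rw [pow_succ, one_div, inv_pow]
      field_simp
    rw [h6]
    exact div_le_div_of_nonneg_right h3 (by positivity)
  have hlim : ∀ P : G, ∃ a : ℝ, Filter.Tendsto (fun n : ℕ => h (2 ^ n • P) / 4 ^ n)
      Filter.atTop (nhds a) := fun P =>
    cauchySeq_tendsto_of_complete (cauchySeq_of_le_geometric (1 / 4) (C' / 4) (by norm_num) (hd P))
  choose q hq using hlim
  refine ⟨q, fun P => ?_, fun P => ?_, fun P Q => ?_⟩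
  · have h3 := dist_le_of_le_geometric_of_tendsto₀ (1 / 4) (C' / 4) (by norm_num) (hd P) (hq P)
    simp only [pow_zero, one_smul, div_one] at h3
    rw [dist_comm, Real.dist_eq] at h3
    refine le_trans h3 (le_of_eq ?_)
    ring
  · have h3 : Filter.Tendsto (fun n : ℕ => b * (1 / 4 : ℝ) ^ n) Filter.atTop (nhds (b * 0)) :=
      (tendsto_pow_atTop_nhds_zero_of_lt_one (by norm_num) (by norm_num)).const_mul b
    rw [mul_zero] at h3
    refine le_of_tendsto_of_tendsto' h3 (hq P) fun n => ?_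
    have h4 : b * (1 / 4 : ℝ) ^ n = b / 4 ^ n := by
      rw [one_div, inv_pow]
      rfl
    rw [h4]
    exact div_le_div_of_nonneg_right (hb _) (by positivity)
  · have h3 : Filter.Tendsto (fun n : ℕ => h (2 ^ n • (P + Q)) / 4 ^ n +
        h (2 ^ n • (P - Q)) / 4 ^ n - 2 * (h (2 ^ n • P) / 4 ^ n) - 2 * (h (2 ^ n • Q) / 4 ^ n))
        Filter.atTop (nhds (q (P + Q) + q (P - Q) - 2 * q P - 2 * q Q)) :=
      (((hq (P + Q)).add (hq (P - Q))).sub ((hq P).const_mul 2)).sub ((hq Q).const_mul 2)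
    have h4 : Filter.Tendsto (fun n : ℕ => C * (1 / 4 : ℝ) ^ n) Filter.atTop (nhds (C * 0)) :=
      (tendsto_pow_atTop_nhds_zero_of_lt_one (by norm_num) (by norm_num)).const_mul C
    rw [mul_zero] at h4
    have h5 : Filter.Tendsto (fun n : ℕ => h (2 ^ n • (P + Q)) / 4 ^ n +
        h (2 ^ n • (P - Q)) / 4 ^ n - 2 * (h (2 ^ n • P) / 4 ^ n) - 2 * (h (2 ^ n • Q) / 4 ^ n))
        Filter.atTop (nhds 0) := by
      refine squeeze_zero_norm (fun n => ?_) h4
      have h6 := hC (2 ^ n • P) (2 ^ n • Q)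
      rw [← smul_add, ← smul_sub] at h6
      have h7 : h (2 ^ n • (P + Q)) / 4 ^ n +
          h (2 ^ n • (P - Q)) / 4 ^ n - 2 * (h (2 ^ n • P) / 4 ^ n) - 2 * (h (2 ^ n • Q) / 4 ^ n)
          = (h (2 ^ n • (P + Q)) + h (2 ^ n • (P - Q)) - 2 * h (2 ^ n • P) - 2 * h (2 ^ n • Q)) /
            4 ^ n := by
        ring
      have h8 : C * (1 / 4 : ℝ) ^ n = C / 4 ^ n := by
        rw [one_div, inv_pow]
        rfl
      rw [h7, h8, Real.norm_eq_abs, abs_div, abs_of_pos (show (0 : ℝ) < 4 ^ n by positivity)]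
      exact div_le_div_of_nonneg_right h6 (by positivity)
    have h6 := tendsto_nhds_unique h3 h5
    linarith

/-- The canonical height. `logHeight (0 : Point).xRep = 0` (compare `VJ.E6_zero`). -/
theorem Z_canonical : ∃ c : ℝ, 0 < c ∧ ∀ (A B C : ℤ) (M : ℝ), 2 ≤ M → |(A : ℝ)| ≤ M →
    |(B : ℝ)| ≤ M → |(C : ℝ)| ≤ M → (ZW A B C).IsElliptic →
    ∃ q : (ZW A B C).toAffine.Point → ℝ, (∀ P, |q P - logHeight P.xRep| ≤ c * Real.log M) ∧
      (∀ P, 0 ≤ q P) ∧ ∀ P Q, q (P + Q) + q (P - Q) = 2 * q P + 2 * q Q := by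
  obtain ⟨c, hc, hpar⟩ := Z_parallelogram
  refine ⟨c / 3, by positivity, ?_⟩
  intro A B C M hM hA hB hC hE
  have hz : logHeight (0 : (ZW A B C).toAffine.Point).xRep = 0 := by
    rw [WeierstrassCurve.Affine.Point.xRep_zero, logHeight_swap, ← logHeight₁_eq_logHeight,
      logHeight₁_zero]
  obtain ⟨q, hq1, hq2, hq3⟩ := Z_quadratic (fun P : (ZW A B C).toAffine.Point => logHeight P.xRep)
    ⟨0, fun P => logHeight_nonneg _⟩ (c * Real.log M) (hpar A B C M hM hA hB hC hE)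
  refine ⟨q, ?_, hq2, hq3⟩
  intro P
  have h1 := hq1 P
  simp only [hz, abs_zero, add_zero] at h1
  refine le_trans h1 (le_of_eq ?_)
  ring

end Pool.Agent.Lib.MP_2c6f70_nt.RU
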