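import Pool.Agent.Lib.MP_2c6f70_nt.RU.Z_Val
import Pool.Agent.Lib.MP_17a322_nt.VJ.MW3

/-!
# Block BZ: descent, few classes modulo `2 E`
-/

set_option autoImplicit false

namespace Pool.Agent.Lib.MP_2c6f70_nt.RU

open Pool.Agent.Lib.MP_17a322_nt.VJ


private theorem Z_Desc_neg_eq {V : WeierstrassCurve ℚ} {e : Fin 3 → ℚ} (h : FT V e) (i : Fin 3)
    (P : V.toAffine.Point) (hP : P.xRep = ![e i, 1]) : -P = P := by
  obtain ⟨h2, h4, h6⟩ := h
  cases P with
  | zero => exact neg_zero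
  | some x y hxy =>
    rw [WeierstrassCurve.Affine.Point.xRep_some] at hP
    have hx : x = e i := by simpa using congrFun hP 0
    have hN := (WeierstrassCurve.Affine.equation_iff _ _).1 hxy.1
    simp only [WeierstrassCurve.b₂, WeierstrassCurve.b₄, WeierstrassCurve.b₆] at h2 h4 h6
    have h0 : (2 * y + V.a₁ * x + V.a₃) ^ 2 = 4 * ((x - e 0) * (x - e 1) * (x - e 2)) := by
      linear_combination 4 * hN + x ^ 2 * h2 + x * h4 + h6
    have h1 : (x - e 0) * (x - e 1) * (x - e 2) = 0 := by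
      rw [hx]
      fin_cases i
      · show (e 0 - e 0) * (e 0 - e 1) * (e 0 - e 2) = 0
        ring
      · show (e 1 - e 0) * (e 1 - e 1) * (e 1 - e 2) = 0
        ring
      · show (e 2 - e 0) * (e 2 - e 1) * (e 2 - e 2) = 0
        ring
    rw [h1, mul_zero] at h0
    have h3 : 2 * y + V.a₁ * x + V.a₃ = 0 := pow_eq_zero_iff (two_ne_zero) |>.1 h0
    rw [WeierstrassCurve.Affine.Point.neg_some]
    simp only [WeierstrassCurve.Affine.Point.some.injEq, true_and]
    show -y - V.a₁ * x - V.a₃ = y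
    linarith

private theorem Z_Desc_unique {V : WeierstrassCurve ℚ} {e : Fin 3 → ℚ} (h : FT V e) (i : Fin 3)
    (P Q : V.toAffine.Point) (hP : P.xRep = ![e i, 1]) (hQ : Q.xRep = ![e i, 1]) : P = Q := by
  have h1 : wd P.xRep Q.xRep = 0 := by
    rw [hP, hQ]
    unfold wd
    ring
  rcases eq_or_eq_neg h1 with h2 | h2
  · exact h2
  · rw [h2, Z_Desc_neg_eq h i Q hQ]

/-- At most `44 * 8 ^ ω (D)` classes modulo `2 E`, `D` the product of the differences of the roots.

Proof. As `weak_mw` (VJ/MW3), with a count. `D = (e 0 - e 1) (e 0 - e 2) (e 1 - e 2)`, nonzero.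
`T` = the set of `0` and the points with `xRep = ![e i, 1]` for some `i`: at most `4` points, because two
points `P`, `P'` with `xRep = ![e i, 1]` are `P' = ± P` (`Point.xRep_eq_xRep_iff` or `eq_or_eq_neg`, E4) and
`P = -P` (the point `(e i, y)` has `(2 y + a₁ x + a₃) ^ 2 = 4 ∏ (e i - e j) = 0`, compare the proof of
`FT.exists_sq`; or: `dup_xRep`, `ph`). For `P ∉ T` let `cl P = fun i => zcl D (P.xRep 0 - e i)`: it is in a
finite set with `(2 * 2 ^ ω) ^ 3 = 8 * 8 ^ ω` elements (`Z_class_mem`, `Fintype.piFinset`), and points with the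
same `cl` have `P.xRep 0 - e i = (Q.xRep 0 - e i) * c ^ 2` (`Z_class`, `Z_even`, `FT.exists_sq`; a prime
`p ∤ D` divides no `e i - e j`). Choose a point `P_k` for every class which occurs. As in `weak_mw`:
every `P ∉ T` is `P_k + t`, `t ∈ T`, or `P_k + 2 Q`. So `U = T ∪ {P_k} ∪ {P_k + t}` has at most
`4 + 5 * 8 * 8 ^ ω ≤ 44 * 8 ^ ω` elements. -/
theorem Z_descent (e : Fin 3 → ℤ) (he : Function.Injective e) (V : WeierstrassCurve ℚ)
    [V.IsElliptic] (hV : FT V (fun i => (e i : ℚ))) :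
    ∃ U : Finset V.toAffine.Point,
      U.card ≤ 44 * 8 ^ ((e 0 - e 1) * (e 0 - e 2) * (e 1 - e 2)).natAbs.primeFactors.card ∧
      ∀ P : V.toAffine.Point, ∃ u ∈ U, ∃ Q : V.toAffine.Point, P = u + 2 • Q := by

  classical
  set D := ((e 0 - e 1) * (e 0 - e 2) * (e 1 - e 2)).natAbs with hD
  have hij : ∀ i j, i ≠ j → e i - e j ≠ 0 := fun i j hij => sub_ne_zero.2 fun h => hij (he h)
  have h01 : e 0 - e 1 ≠ 0 := hij 0 1 (by decide)
  have h02 : e 0 - e 2 ≠ 0 := hij 0 2 (by decide)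
  have h12 : e 1 - e 2 ≠ 0 := hij 1 2 (by decide)
  have hD0 : D ≠ 0 := by
    rw [hD]
    exact Int.natAbs_ne_zero.2 (mul_ne_zero (mul_ne_zero h01 h02) h12)
  have hdvd : ∀ p : ℕ, ¬ p ∣ D → ∀ i j, i ≠ j → ¬ (p : ℤ) ∣ e i - e j := by
    intro p hp i j hne hd
    apply hp
    rw [hD]
    apply Int.natCast_dvd.1
    have a01 : (e 0 - e 1) ∣ (e 0 - e 1) * (e 0 - e 2) * (e 1 - e 2) :=
      Dvd.intro ((e 0 - e 2) * (e 1 - e 2)) (by ring)
    have a02 : (e 0 - e 2) ∣ (e 0 - e 1) * (e 0 - e 2) * (e 1 - e 2) :=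
      Dvd.intro ((e 0 - e 1) * (e 1 - e 2)) (by ring)
    have a12 : (e 1 - e 2) ∣ (e 0 - e 1) * (e 0 - e 2) * (e 1 - e 2) :=
      Dvd.intro ((e 0 - e 1) * (e 0 - e 2)) (by ring)
    have a10 : (e 1 - e 0) ∣ (e 0 - e 1) * (e 0 - e 2) * (e 1 - e 2) :=
      Dvd.intro (-((e 0 - e 2) * (e 1 - e 2))) (by ring)
    have a20 : (e 2 - e 0) ∣ (e 0 - e 1) * (e 0 - e 2) * (e 1 - e 2) :=
      Dvd.intro (-((e 0 - e 1) * (e 1 - e 2))) (by ring)
    have a21 : (e 2 - e 1) ∣ (e 0 - e 1) * (e 0 - e 2) * (e 1 - e 2) :=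
      Dvd.intro (-((e 0 - e 1) * (e 0 - e 2))) (by ring)
    refine dvd_trans hd ?_
    fin_cases i <;> fin_cases j
    · exact absurd rfl hne
    · exact a01
    · exact a02
    · exact a10
    · exact absurd rfl hne
    · exact a12
    · exact a20
    · exact a21
    · exact absurd rfl hne
  let f : Fin 3 → ℚ := fun i => (e i : ℚ)
  have hf : FT V f := hV
  let Ti : Fin 3 → Finset V.toAffine.Point := fun i =>
    if h : ∃ P : V.toAffine.Point, P.xRep = ![f i, 1] then {h.choose} else ∅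
  have hTi : ∀ i (P : V.toAffine.Point), P.xRep = ![f i, 1] → P ∈ Ti i := by
    intro i P hP
    have hex : ∃ P : V.toAffine.Point, P.xRep = ![f i, 1] := ⟨P, hP⟩
    have h1 : Ti i = {hex.choose} := dif_pos hex
    rw [h1, Finset.mem_singleton]
    exact Z_Desc_unique hf i P _ hP hex.choose_spec
  have hTic : ∀ i, (Ti i).card ≤ 1 := by
    intro i
    by_cases hex : ∃ P : V.toAffine.Point, P.xRep = ![f i, 1]
    · have h1 : Ti i = {hex.choose} := dif_pos hex
      rw [h1, Finset.card_singleton]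
    · have h1 : Ti i = ∅ := dif_neg hex
      rw [h1, Finset.card_empty]
      exact zero_le_one
  let T : Finset V.toAffine.Point := insert 0 (Finset.univ.biUnion Ti)
  have hTc : T.card ≤ 4 := by
    have h1 : T.card ≤ (Finset.univ.biUnion Ti).card + 1 := Finset.card_insert_le _ _
    have h2 : (Finset.univ.biUnion Ti).card ≤ ∑ i : Fin 3, (Ti i).card := Finset.card_biUnion_le
    have h3 : ∑ i : Fin 3, (Ti i).card ≤ ∑ _i : Fin 3, 1 := Finset.sum_le_sum fun i _ => hTic i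
    have h4 : ∑ _i : Fin 3, 1 = 3 := by simp
    omega
  have hT0 : ∀ P, P ∉ T → P ≠ 0 := by
    rintro P hP rfl
    exact hP (Finset.mem_insert_self _ _)
  have hTx : ∀ P, P ∉ T → ∀ i, P.xRep 0 - f i ≠ 0 := by
    intro P hP i h0
    apply hP
    refine Finset.mem_insert_of_mem (Finset.mem_biUnion.2 ⟨i, Finset.mem_univ _, hTi i P ?_⟩)
    rw [xRep_eq (hT0 P hP), sub_eq_zero.1 h0]
  let cl : V.toAffine.Point → Fin 3 → Bool × Finset ℕ := fun P i => zcl D (P.xRep 0 - f i)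
  let K : Finset (Fin 3 → Bool × Finset ℕ) :=
    Fintype.piFinset fun _ => (Finset.univ : Finset Bool) ×ˢ D.primeFactors.powerset
  have hK : ∀ P, cl P ∈ K := by
    intro P
    exact Fintype.mem_piFinset.2 fun i => Z_class_mem D _
  have hKc : K.card = 8 * 8 ^ D.primeFactors.card := by
    have h1 : K.card = ∏ _i : Fin 3,
        ((Finset.univ : Finset Bool) ×ˢ D.primeFactors.powerset).card := Fintype.card_piFinset _
    rw [h1, Finset.prod_const, Finset.card_product, Finset.card_powerset, Finset.card_univ,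
      Fintype.card_bool, Finset.card_univ, Fintype.card_fin, mul_pow, ← pow_mul,
      mul_comm _ 3, pow_mul]
    norm_num
  have hcl : ∀ P, P ∉ T → ∀ Q, Q ∉ T → cl P = cl Q → ∀ i, ∃ c : ℚ, c ≠ 0 ∧
      P.xRep 0 - f i = (Q.xRep 0 - f i) * c ^ 2 := by
    have hev : ∀ P, P ∉ T → ∀ i, ∀ p : ℕ, p.Prime → ¬ p ∣ D →
        Even (padicValRat p (P.xRep 0 - f i)) := by
      intro P hP i p hp hpD
      obtain ⟨η, hη⟩ := hf.exists_sq P (hT0 P hP)
      have hη0 : η ≠ 0 := by
        rintro rfl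
        have h1 : ∏ i, (P.xRep 0 - f i) ≠ 0 := Finset.prod_ne_zero_iff.2 fun i _ => hTx P hP i
        exact h1 (by rw [← hη]; ring)
      exact Z_even p hp e (hdvd p hpD) _ η hη hη0 i
    intro P hP Q hQ hPQ i
    exact Z_class D hD0 _ _ (hTx P hP i) (hTx Q hQ i) (hev P hP i) (hev Q hQ i) (congrFun hPQ i)
  let Pk : (Fin 3 → Bool × Finset ℕ) → V.toAffine.Point := fun k =>
    if hk : ∃ P, P ∉ T ∧ cl P = k then hk.choose else 0
  let R : Finset V.toAffine.Point := K.image Pk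
  have hRc : R.card ≤ 8 * 8 ^ D.primeFactors.card := by
    rw [← hKc]
    exact Finset.card_image_le
  refine ⟨T ∪ R ∪ (R ×ˢ T).image (fun p => p.1 + p.2), ?_, ?_⟩
  · have h1 : (T ∪ R ∪ (R ×ˢ T).image (fun p => p.1 + p.2)).card ≤
        (T ∪ R).card + ((R ×ˢ T).image (fun p => p.1 + p.2)).card := Finset.card_union_le _ _
    have h2 : (T ∪ R).card ≤ T.card + R.card := Finset.card_union_le _ _
    have h3 : ((R ×ˢ T).image (fun p => p.1 + p.2)).card ≤ (R ×ˢ T).card := Finset.card_image_le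
    rw [Finset.card_product] at h3
    have h4 : R.card * T.card ≤ (8 * 8 ^ D.primeFactors.card) * 4 := Nat.mul_le_mul hRc hTc
    have h5 : 1 ≤ 8 ^ D.primeFactors.card := Nat.one_le_pow _ _ (by norm_num)
    omega
  · have h20 : ∀ P : V.toAffine.Point, P + (2 : ℕ) • (0 : V.toAffine.Point) = P := by
      intro P
      have h1 : (2 : ℕ) • (0 : V.toAffine.Point) = 0 := nsmul_zero 2
      rw [h1, add_zero]
    intro P
    by_cases hP : P ∈ T
    · refine ⟨P, Finset.mem_union_left _ (Finset.mem_union_left _ hP), 0, ?_⟩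
      exact (h20 P).symm
    have hk : ∃ P', P' ∉ T ∧ cl P' = cl P := ⟨P, hP, rfl⟩
    obtain ⟨hQ1, hQ2⟩ := hk.choose_spec
    have hPk : Pk (cl P) = hk.choose := dif_pos hk
    have hQR : Pk (cl P) ∈ R := Finset.mem_image_of_mem _ (hK P)
    rw [← hPk] at hQ1 hQ2
    set Q := Pk (cl P) with hQ
    by_cases hDT : P - Q ∈ T
    · refine ⟨P, Finset.mem_union_right _ (Finset.mem_image.2
        ⟨(Q, P - Q), Finset.mem_product.2 ⟨hQR, hDT⟩, ?_⟩), 0, ?_⟩
      · show Q + (P - Q) = P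
        abel
      · exact (h20 P).symm
    · have hsq : ∀ i, IsSquare ((P - Q).xRep 0 - f i) := by
        intro i
        obtain ⟨c, hc, e1⟩ := hcl P hP Q hQ1 hQ2.symm i
        have h1 := hf.add_isSquare P (-Q) (hT0 P hP) (neg_ne_zero.2 (hT0 Q hQ1))
          (by rw [← sub_eq_add_neg]; exact hT0 _ hDT) i
        rw [← sub_eq_add_neg, xRep_neg] at h1
        obtain ⟨s, hs⟩ := h1
        have hq := hTx Q hQ1 i
        refine ⟨s / ((Q.xRep 0 - f i) * c), ?_⟩
        rw [e1] at hs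
        rw [div_mul_div_comm, ← hs]
        field_simp
      obtain ⟨A, hA⟩ := hf.exists_half (P - Q) (hT0 _ hDT) hsq
      refine ⟨Q, Finset.mem_union_left _ (Finset.mem_union_right _ hQR), A, ?_⟩
      rw [hA]
      abel

end Pool.Agent.Lib.MP_2c6f70_nt.RU
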