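import Mathlib

/-!
# Block BZ: rational roots are not larger than the coefficients
-/

set_option autoImplicit false

namespace Pool.Agent.Lib.MP_2c6f70_nt.RU

/-- A nonzero rational root of a nonzero integer polynomial has numerator and denominator at most the
maximum of the coefficients.

Proof. `g = ∑ i, C (c i) * X ^ i` (`Polynomial ℤ`), `g.coeff i = c i`, `g ≠ 0`, `aeval τ g = 0`. The
denominator divides the leading coefficient (`den_dvd_of_is_root`), which is one of the `c i`, nonzero. The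
reversed polynomial `g.reverse` has the root `τ⁻¹` (`Polynomial.eval₂_reverse_eq_zero_iff`) and the leading
coefficient `g.trailingCoeff`, again one of the `c i`, nonzero; `|τ.num| = τ⁻¹.den`. (Or directly: let
`k` be the least index with `c k ≠ 0`; then `τ.num ∣ c k * τ.den ^ (n - k)`, `Int.gcd τ.num τ.den = 1`.) -/
theorem Z_root {n : ℕ} (c : Fin (n + 1) → ℤ) (hc : c ≠ 0) (τ : ℚ) (hτ : τ ≠ 0)
    (h : ∑ i, (c i : ℚ) * τ ^ (i : ℕ) = 0) (M : ℝ) (hM : ∀ i, |(c i : ℝ)| ≤ M) :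
    (τ.num.natAbs : ℝ) ≤ M ∧ (τ.den : ℝ) ≤ M := by
  classical
  have hq : (τ.den : ℤ) ≠ 0 := by exact_mod_cast τ.den_nz
  have hqQ : (τ.den : ℚ) ≠ 0 := by exact_mod_cast τ.den_nz
  have hp : τ.num ≠ 0 := Rat.num_ne_zero.2 hτ
  have hcop : IsCoprime τ.num (τ.den : ℤ) := by
    rw [Int.isCoprime_iff_gcd_eq_one]
    exact τ.reduced
  have hpq : τ * τ.den = τ.num := Rat.mul_den_eq_num τ
  have hsum : ∑ i : Fin (n + 1), c i * τ.num ^ (i : ℕ) * (τ.den : ℤ) ^ (n - (i : ℕ)) = 0 := by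
    have h1 : ((∑ i : Fin (n + 1), c i * τ.num ^ (i : ℕ) * (τ.den : ℤ) ^ (n - (i : ℕ)) : ℤ) : ℚ) = 0 := by
      push_cast
      have h2 : ∀ i : Fin (n + 1), (c i : ℚ) * (τ.num : ℚ) ^ (i : ℕ) * (τ.den : ℚ) ^ (n - (i : ℕ)) =
          ((c i : ℚ) * τ ^ (i : ℕ)) * (τ.den : ℚ) ^ n := by
        intro i
        have hi : (i : ℕ) + (n - (i : ℕ)) = n := by have := i.2; omega
        have h3 : (τ.den : ℚ) ^ n = (τ.den : ℚ) ^ (i : ℕ) * (τ.den : ℚ) ^ (n - (i : ℕ)) := by
          rw [← pow_add, hi]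
        rw [h3, ← hpq, mul_pow]
        ring
      rw [Finset.sum_congr rfl (fun i _ => h2 i), ← Finset.sum_mul, h, zero_mul]
    exact_mod_cast h1
  have hne : (Finset.univ.filter (fun i => c i ≠ 0)).Nonempty := by
    obtain ⟨i, hi⟩ := Function.ne_iff.1 hc
    exact ⟨i, Finset.mem_filter.2 ⟨Finset.mem_univ _, hi⟩⟩
  have hbd : ∀ (d : ℤ) (i : Fin (n + 1)), d ∣ c i → c i ≠ 0 → (d.natAbs : ℝ) ≤ M := by
    intro d i hd hi
    have h1 : d.natAbs ≤ (c i).natAbs := Nat.le_of_dvd (Int.natAbs_pos.2 hi) (Int.natAbs_dvd_natAbs.2 hd)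
    have h2 : ((c i).natAbs : ℝ) = |(c i : ℝ)| := by
      rw [Nat.cast_natAbs, Int.cast_abs]
    have h3 : (d.natAbs : ℝ) ≤ ((c i).natAbs : ℝ) := by exact_mod_cast h1
    rw [h2] at h3
    exact h3.trans (hM i)
  constructor
  · obtain ⟨k, hk, hmin⟩ := (Finset.univ.filter (fun i => c i ≠ 0)).exists_min_image id hne
    have hck : c k ≠ 0 := (Finset.mem_filter.1 hk).2
    refine hbd τ.num k ?_ hck
    have h1 : τ.num ^ ((k : ℕ) + 1) ∣ c k * τ.num ^ (k : ℕ) * (τ.den : ℤ) ^ (n - (k : ℕ)) := by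
      rw [← Finset.add_sum_erase _ _ (Finset.mem_univ k)] at hsum
      rw [eq_neg_of_add_eq_zero_left hsum, dvd_neg]
      refine Finset.dvd_sum fun i hi => ?_
      rcases lt_or_gt_of_ne (Finset.ne_of_mem_erase hi) with hik | hik
      · have hci : c i = 0 := by
          by_contra hci
          have h2 : k ≤ i := hmin i (Finset.mem_filter.2 ⟨Finset.mem_univ _, hci⟩)
          exact absurd h2 (not_le.2 hik)
        rw [hci, zero_mul, zero_mul]
        exact dvd_zero _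
      · have h2 : (k : ℕ) + 1 ≤ (i : ℕ) := hik
        exact Dvd.dvd.mul_right (Dvd.dvd.mul_left (pow_dvd_pow _ h2) _) _
    have h2 : τ.num ^ (k : ℕ) * τ.num ∣ τ.num ^ (k : ℕ) * (c k * (τ.den : ℤ) ^ (n - (k : ℕ))) := by
      have e : τ.num ^ (k : ℕ) * (c k * (τ.den : ℤ) ^ (n - (k : ℕ))) =
          c k * τ.num ^ (k : ℕ) * (τ.den : ℤ) ^ (n - (k : ℕ)) := by ring
      rw [e, ← pow_succ]
      exact h1
    have h3 := Int.dvd_of_mul_dvd_mul_left (pow_ne_zero _ hp) h2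
    exact (hcop.pow_right).dvd_of_dvd_mul_right h3
  · obtain ⟨k, hk, hmax⟩ := (Finset.univ.filter (fun i => c i ≠ 0)).exists_max_image id hne
    have hck : c k ≠ 0 := (Finset.mem_filter.1 hk).2
    have hfin := hbd (τ.den : ℤ) k ?_ hck
    · rw [Int.natAbs_natCast] at hfin
      exact hfin
    have h1 : (τ.den : ℤ) ^ (n - (k : ℕ) + 1) ∣ c k * τ.num ^ (k : ℕ) * (τ.den : ℤ) ^ (n - (k : ℕ)) := by
      rw [← Finset.add_sum_erase _ _ (Finset.mem_univ k)] at hsum
      rw [eq_neg_of_add_eq_zero_left hsum, dvd_neg]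
      refine Finset.dvd_sum fun i hi => ?_
      rcases lt_or_gt_of_ne (Finset.ne_of_mem_erase hi) with hik | hik
      · have h2 : (i : ℕ) < (k : ℕ) := hik
        have h3 : n - (k : ℕ) + 1 ≤ n - (i : ℕ) := by
          have := k.2
          omega
        exact Dvd.dvd.mul_left (pow_dvd_pow _ h3) _
      · have hci : c i = 0 := by
          by_contra hci
          have h2 : i ≤ k := hmax i (Finset.mem_filter.2 ⟨Finset.mem_univ _, hci⟩)
          exact absurd h2 (not_le.2 hik)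
        rw [hci, zero_mul, zero_mul]
        exact dvd_zero _
    have h2 : (τ.den : ℤ) ^ (n - (k : ℕ)) * (τ.den : ℤ) ∣ (τ.den : ℤ) ^ (n - (k : ℕ)) * (c k * τ.num ^ (k : ℕ)) := by
      have e : (τ.den : ℤ) ^ (n - (k : ℕ)) * (c k * τ.num ^ (k : ℕ)) =
          c k * τ.num ^ (k : ℕ) * (τ.den : ℤ) ^ (n - (k : ℕ)) := by ring
      rw [e, ← pow_succ]
      exact h1
    have h3 := Int.dvd_of_mul_dvd_mul_left (pow_ne_zero _ hq) h2
    exact (hcop.symm.pow_right).dvd_of_dvd_mul_right h3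

end Pool.Agent.Lib.MP_2c6f70_nt.RU
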