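import Pool.Agent.Lib.MP_2c6f70_nt.RU.Z_Defs
import Pool.Agent.Lib.MP_2c6f70_nt.RU.Z_Root

/-!
# Block BZ: the sum and the difference of two of the points have large height
-/

set_option autoImplicit false

namespace Pool.Agent.Lib.MP_2c6f70_nt.RU

open Height

private theorem Z_Gap_add {x y a b : ℝ} (hx : |x| ≤ a) (hy : |y| ≤ b) : |x + y| ≤ a + b :=
  (abs_add_le x y).trans (add_le_add hx hy)

private theorem Z_Gap_sub {x y a b : ℝ} (hx : |x| ≤ a) (hy : |y| ≤ b) : |x - y| ≤ a + b :=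
  (abs_sub x y).trans (add_le_add hx hy)

private theorem Z_Gap_mul {x y a b : ℝ} (hx : |x| ≤ a) (hy : |y| ≤ b) : |x * y| ≤ a * b := by
  rw [abs_mul]
  exact mul_le_mul hx hy (abs_nonneg _) ((abs_nonneg _).trans hx)

private theorem Z_Gap_quad {P Q S a b R H : ℝ} (hP : |P| ≤ 4 * R ^ 6) (hQ : |Q| ≤ 7 * R ^ 6)
    (hS : |S| ≤ 30 * R ^ 6) (ha : |a| ≤ H) (hb : |b| ≤ H) :
    |P * (a * a) - 2 * (a * b) * Q + b * b * S| ≤ 64 * R ^ 6 * H ^ 2 := by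
  have h2 : |(2 : ℝ)| ≤ 2 := by norm_num
  have h := Z_Gap_add (Z_Gap_sub (Z_Gap_mul hP (Z_Gap_mul ha ha))
    (Z_Gap_mul (Z_Gap_mul h2 (Z_Gap_mul ha hb)) hQ)) (Z_Gap_mul (Z_Gap_mul hb hb) hS)
  refine h.trans (le_of_sub_nonneg ?_)
  have e : 64 * R ^ 6 * H ^ 2 - (4 * R ^ 6 * (H * H) + 2 * (H * H) * (7 * R ^ 6) + H * H * (30 * R ^ 6)) =
      16 * (R ^ 3 * H) ^ 2 := by ring
  rw [e]
  positivity

/-- the coefficients -/
private theorem Z_Gap_coef {δ A B u u' m a b R H : ℝ} (hR : 1 ≤ R) (hδ : |δ| ≤ R) (hA : |A| ≤ R) (hB : |B| ≤ R)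
    (hu : |u| ≤ R) (hu' : |u'| ≤ R) (hm : |m| ≤ R) (ha : |a| ≤ H) (hb : |b| ≤ H) :
    |δ * δ * (m * m) * (a * a) - 2 * (a * b) * (δ * δ * δ * (u' * m)) + b * b * (δ * δ * δ * δ * (u' * u'))| ≤
        64 * R ^ 6 * H ^ 2 ∧
    |2 * (δ * δ * ((u - u') * m)) * (a * a) - 2 * (a * b) * (δ * δ * δ * (u' * (u + u')) + B * δ * (m * m)
        + 2 * (A * (δ * δ) * (u' * m))) + b * b * (-2 * (δ * δ * (u' * (B * m))) - 4 * (δ * δ * δ * (m * m)))| ≤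
        64 * R ^ 6 * H ^ 2 ∧
    |δ * δ * ((u - u') * (u - u')) * (a * a) - 2 * (a * b) * (B * δ * ((u + u') * m + u * m)
        + 2 * (A * (δ * δ) * (u' * u)) + 2 * (δ * δ * (m * m))) + b * b * (-2 * (δ * δ * (u' * (B * u)))
        + B * B * (m * m) - 4 * (δ * δ * (δ * ((u + u') * m + u * m) + A * (m * m))))| ≤ 64 * R ^ 6 * H ^ 2 ∧
    |0 * (a * a) - 2 * (a * b) * (B * δ * ((u + u') * u) + 4 * (δ * δ * (u * m))) + b * b *
        (2 * (B * B * (u * m)) - 4 * (δ * δ * (δ * ((u + u') * u) + 2 * (A * (u * m)))))| ≤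
        64 * R ^ 6 * H ^ 2 ∧
    |0 * (a * a) - 2 * (a * b) * (2 * (δ * δ * (u * u))) + b * b * (B * B * (u * u)
        - 4 * (δ * δ * (A * (u * u))))| ≤ 64 * R ^ 6 * H ^ 2 := by
  have h2 : |(2 : ℝ)| ≤ 2 := by norm_num
  have h2' : |(-2 : ℝ)| ≤ 2 := by norm_num
  have h4 : |(4 : ℝ)| ≤ 4 := by norm_num
  have h0 : |(0 : ℝ)| ≤ 4 * R ^ 6 := by rw [abs_zero]; positivity
  have r4 : R ^ 4 ≤ R ^ 6 := pow_le_pow_right₀ hR (by norm_num)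
  have r5 : R ^ 5 ≤ R ^ 6 := pow_le_pow_right₀ hR (by norm_num)
  have r6 : 0 ≤ R ^ 6 := by positivity
  have M := @Z_Gap_mul
  have D := @Z_Gap_add
  have E := @Z_Gap_sub
  have hδ2 := M hδ hδ
  have hδ3 := M hδ2 hδ
  refine ⟨Z_Gap_quad ?_ ?_ ?_ ha hb, Z_Gap_quad ?_ ?_ ?_ ha hb, Z_Gap_quad ?_ ?_ ?_ ha hb,
    Z_Gap_quad h0 ?_ ?_ ha hb, Z_Gap_quad h0 ?_ ?_ ha hb⟩
  · refine (M hδ2 (M hm hm)).trans ?_
    nlinarith
  · refine (M hδ3 (M hu' hm)).trans ?_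
    nlinarith
  · refine (M (M hδ3 hδ) (M hu' hu')).trans ?_
    nlinarith
  · refine (M h2 (M hδ2 (M (E hu hu') hm))).trans ?_
    nlinarith
  · refine (D (D (M hδ3 (M hu' (D hu hu'))) (M (M hB hδ) (M hm hm))) (M h2 (M (M hA hδ2) (M hu' hm)))).trans ?_
    nlinarith
  · refine (E (M h2' (M hδ2 (M hu' (M hB hm)))) (M h4 (M hδ3 (M hm hm)))).trans ?_
    nlinarith
  · refine (M hδ2 (M (E hu hu') (E hu hu'))).trans ?_
    nlinarith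
  · refine (D (D (M (M hB hδ) (D (M (D hu hu') hm) (M hu hm))) (M h2 (M (M hA hδ2) (M hu' hu))))
      (M h2 (M hδ2 (M hm hm)))).trans ?_
    nlinarith
  · refine (E (D (M h2' (M hδ2 (M hu' (M hB hu)))) (M (M hB hB) (M hm hm)))
      (M h4 (M hδ2 (D (M hδ (D (M (D hu hu') hm) (M hu hm))) (M hA (M hm hm)))))).trans ?_
    nlinarith
  · refine (D (M (M hB hδ) (M (D hu hu') hu)) (M h4 (M hδ2 (M hu hm)))).trans ?_
    nlinarith
  · refine (E (M h2 (M (M hB hB) (M hu hm))) (M h4 (M hδ2 (D (M hδ (M (D hu hu') hu))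
      (M h2 (M hA (M hu hm))))))).trans ?_
    nlinarith
  · refine (M h2 (M hδ2 (M hu hu))).trans ?_
    nlinarith
  · refine (E (M (M hB hB) (M hu hu)) (M h4 (M hδ2 (M hA (M hu hu))))).trans ?_
    nlinarith

private theorem Z_Gap_log {N : ℕ} (hN : 2 ≤ N) : 0 < Real.log N ∧ Real.log 2 ≤ Real.log N ∧
    Real.log 3 ≤ 2 * Real.log N := by
  have h2 : (2 : ℝ) ≤ N := by exact_mod_cast hN
  have h1 : Real.log 2 ≤ Real.log N := Real.log_le_log (by norm_num) h2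
  have h3 : 0 < Real.log 2 := Real.log_pos (by norm_num)
  have h4 : Real.log 3 ≤ Real.log (2 ^ 2) := Real.log_le_log (by norm_num) (by norm_num)
  rw [Real.log_pow] at h4
  push_cast at h4
  exact ⟨by linarith, h1, by linarith⟩

/-- the height of a root -/
private theorem Z_Gap_height {N : ℕ} (hN : 2 ≤ N) {τ X : ℚ}
    (h1 : (τ.num.natAbs : ℝ) ≤ 64 * (3 * (N : ℝ) ^ 4) ^ 6 * ((max X.num.natAbs X.den : ℕ) : ℝ) ^ 2)
    (h2 : (τ.den : ℝ) ≤ 64 * (3 * (N : ℝ) ^ 4) ^ 6 * ((max X.num.natAbs X.den : ℕ) : ℝ) ^ 2) :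
    logHeight₁ τ ≤ 2 * logHeight₁ X + 42 * Real.log N := by
  rw [Rat.logHeight₁_eq_log_max, Rat.logHeight₁_eq_log_max]
  have hX : (0 : ℝ) < ((max X.num.natAbs X.den : ℕ) : ℝ) := by
    have : 0 < max X.num.natAbs X.den := lt_of_lt_of_le X.den_pos (le_max_right _ _)
    exact_mod_cast this
  have hT : (0 : ℝ) < ((max τ.num.natAbs τ.den : ℕ) : ℝ) := by
    have : 0 < max τ.num.natAbs τ.den := lt_of_lt_of_le τ.den_pos (le_max_right _ _)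
    exact_mod_cast this
  have hN0 : (0 : ℝ) < N := by
    have : 0 < N := by omega
    exact_mod_cast this
  have h3 : ((max τ.num.natAbs τ.den : ℕ) : ℝ) ≤
      64 * (3 * (N : ℝ) ^ 4) ^ 6 * ((max X.num.natAbs X.den : ℕ) : ℝ) ^ 2 := by
    rw [Nat.cast_max]
    exact max_le h1 h2
  have h4 := Real.log_le_log hT h3
  rw [Real.log_mul (by positivity) (by positivity), Real.log_mul (by norm_num) (by positivity),
    Real.log_pow, Real.log_pow, Real.log_mul (by norm_num) (by positivity), Real.log_pow] at h4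
  have h5 : Real.log 64 = 6 * Real.log 2 := by
    have : (64 : ℝ) = 2 ^ 6 := by norm_num
    rw [this, Real.log_pow]
    norm_num
  rw [h5] at h4
  push_cast at h4 ⊢
  obtain ⟨g1, g2, g3⟩ := Z_Gap_log hN
  linarith

/-- The main point.

Proof. `τ = δ / x`, `τ' = δ / x'`, so `x = δ / τ` and (multiply `ZG A B (δ ^ 2) X x x' = 0` by `(τ τ') ^ 2`)
  `G(τ, τ') := δ²(τ' - τ)² X² - 2 X (δ³(τ + τ') + B δ (τ + τ') τ τ' + 2 A δ² τ τ' + 2 δ² τ² τ'²)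
     + (δ² - B τ τ')² - 4 δ² (δ (τ + τ') τ τ' + A τ² τ'²) = 0`   and `u' τ' = p := u τ + m`.
Multiply by `u'²` and by `b²`, `X = a / b` in lowest terms:
  `δ² a² (p - u' τ)² - 2 a b (δ³ u' (u' τ + p) + B δ (u' τ + p) τ p + 2 A δ² u' τ p + 2 δ² τ² p²)
     + b² ((δ² u' - B τ p)² - 4 δ² (δ (u' τ + p) τ p + A τ² p²)) = 0`.
This is `∑ i, c i * τ ^ i` for explicit integers `c i`, `i = 0, ..., 4` (expand; e.g.
`c 4 = -4 a b δ² u² + b² (B² u² - 4 δ² A u²)`, `c 0 = δ² (a m - b δ u')²`), all `|c i| ≤ 10 ^ 4 * N ^ 20 * H ^ 2`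
(roughly; any absolute constants are fine), `H = max |a| b`.
`c ≠ 0`: if all `c i = 0` then the polynomial vanishes at `T = 0`, which gives `a m = b δ u'`, and at
`T = -m / u` (where `p = 0`), which gives `a m = - b δ u`: so `b δ (u + u') = 0`, impossible.
`Z_root`: numerator and denominator of `τ` are at most `10 ^ 4 * N ^ 20 * H ^ 2`, so
`logHeight₁ τ ≤ 2 logHeight₁ X + c' log N` (`Rat.logHeight₁_eq_log_max`), and `x = δ / τ` has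
`logHeight₁ x ≤ logHeight₁ τ + log |δ|` (numerator divides `δ * den τ`, denominator divides `num τ`; or
`Height.logHeight₁_mul_le`, `logHeight₁_inv`), `log |δ| ≤ 3 log N`. -/
theorem Z_gap : ∃ c : ℝ, 0 < c ∧ ∀ (N : ℕ) (δ A B : ℤ) (u u' : ℕ) (m : ℤ) (x x' X : ℚ), 2 ≤ N →
    δ ≠ 0 → |δ| ≤ N ^ 3 → |A| ≤ 3 * N ^ 2 → |B| ≤ 3 * N ^ 4 → 1 ≤ u → u ≤ N → 1 ≤ u' → u' ≤ N →
    |m| ≤ N → x ≠ 0 → x' ≠ 0 → (u' : ℚ) * (δ / x') - u * (δ / x) = m →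
    ZG A B ((δ : ℚ) ^ 2) X x x' = 0 →
      logHeight₁ x ≤ 2 * logHeight₁ X + c * Real.log N := by
  refine ⟨45, by norm_num, ?_⟩
  intro N δ A B u u' m x x' X hN hδ0 hδ hA hB hu hu1 hu' hu'1 hm hx hx' hlin hG
  have hN1 : (1 : ℝ) ≤ N := by
    have : 1 ≤ N := by omega
    exact_mod_cast this
  have hδQ : (δ : ℚ) ≠ 0 := Int.cast_ne_zero.mpr hδ0
  -- the coordinates
  obtain ⟨τ, hτ⟩ : ∃ τ : ℚ, τ = δ / x := ⟨_, rfl⟩
  obtain ⟨τ', hτ'⟩ : ∃ τ' : ℚ, τ' = δ / x' := ⟨_, rfl⟩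
  have hτ0 : τ ≠ 0 := by rw [hτ]; exact div_ne_zero hδQ hx
  have hτ'0 : τ' ≠ 0 := by rw [hτ']; exact div_ne_zero hδQ hx'
  have ex : x = δ / τ := by rw [hτ]; field_simp
  have ex' : x' = δ / τ' := by rw [hτ']; field_simp
  rw [← hτ, ← hτ'] at hlin
  obtain ⟨a, ha⟩ : ∃ a : ℤ, a = X.num := ⟨_, rfl⟩
  obtain ⟨b, hb⟩ : ∃ b : ℤ, b = X.den := ⟨_, rfl⟩
  have hb0 : b ≠ 0 := by rw [hb]; exact_mod_cast X.den_ne_zero
  have hbQ : (b : ℚ) ≠ 0 := Int.cast_ne_zero.mpr hb0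
  have hX : X = a / b := by
    rw [ha, hb]
    push_cast
    exact (Rat.num_div_den X).symm
  -- the polynomial
  obtain ⟨c0, hc0⟩ : ∃ c : ℤ, c =
      δ * δ * (m * m) * (a * a) - 2 * (a * b) * (δ * δ * δ * (u' * m)) + b * b * (δ * δ * δ * δ * (u' * u')) := ⟨_, rfl⟩
  obtain ⟨c1, hc1⟩ : ∃ c : ℤ, c =
      2 * (δ * δ * ((u - u') * m)) * (a * a) - 2 * (a * b) * (δ * δ * δ * (u' * (u + u')) + B * δ * (m * m)
        + 2 * (A * (δ * δ) * (u' * m))) + b * b * (-2 * (δ * δ * (u' * (B * m))) - 4 * (δ * δ * δ * (m * m))) := ⟨_, rfl⟩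
  obtain ⟨c2, hc2⟩ : ∃ c : ℤ, c =
      δ * δ * ((u - u') * (u - u')) * (a * a) - 2 * (a * b) * (B * δ * ((u + u') * m + u * m)
        + 2 * (A * (δ * δ) * (u' * u)) + 2 * (δ * δ * (m * m))) + b * b * (-2 * (δ * δ * (u' * (B * u)))
        + B * B * (m * m) - 4 * (δ * δ * (δ * ((u + u') * m + u * m) + A * (m * m)))) := ⟨_, rfl⟩
  obtain ⟨c3, hc3⟩ : ∃ c : ℤ, c =
      0 * (a * a) - 2 * (a * b) * (B * δ * ((u + u') * u) + 4 * (δ * δ * (u * m))) + b * b *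
        (2 * (B * B * (u * m)) - 4 * (δ * δ * (δ * ((u + u') * u) + 2 * (A * (u * m))))) := ⟨_, rfl⟩
  obtain ⟨c4, hc4⟩ : ∃ c : ℤ, c =
      0 * (a * a) - 2 * (a * b) * (2 * (δ * δ * (u * u))) + b * b * (B * B * (u * u)
        - 4 * (δ * δ * (A * (u * u)))) := ⟨_, rfl⟩
  have hpoly : ∀ T : ℚ, (c0 : ℚ) + c1 * T + c2 * T ^ 2 + c3 * T ^ 3 + c4 * T ^ 4 =
      (δ : ℚ) ^ 2 * a ^ 2 * ((u * T + m) - u' * T) ^ 2 - 2 * a * b * ((δ : ℚ) ^ 3 * u' * (u' * T + (u * T + m))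
        + B * δ * (u' * T + (u * T + m)) * T * (u * T + m) + 2 * A * δ ^ 2 * u' * T * (u * T + m)
        + 2 * δ ^ 2 * T ^ 2 * (u * T + m) ^ 2)
        + (b : ℚ) ^ 2 * (((δ : ℚ) ^ 2 * u' - B * T * (u * T + m)) ^ 2
        - 4 * δ ^ 2 * (δ * (u' * T + (u * T + m)) * T * (u * T + m) + A * T ^ 2 * (u * T + m) ^ 2)) := by
    intro T
    rw [hc0, hc1, hc2, hc3, hc4]
    push_cast
    ring
  have hroot : (c0 : ℚ) + c1 * τ + c2 * τ ^ 2 + c3 * τ ^ 3 + c4 * τ ^ 4 = 0 := by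
    have hp : (u : ℚ) * τ + m = u' * τ' := by linarith
    rw [hpoly τ, hp]
    have e : (δ : ℚ) ^ 2 * a ^ 2 * (u' * τ' - u' * τ) ^ 2 - 2 * a * b * ((δ : ℚ) ^ 3 * u' * (u' * τ + u' * τ')
        + B * δ * (u' * τ + u' * τ') * τ * (u' * τ') + 2 * A * δ ^ 2 * u' * τ * (u' * τ')
        + 2 * δ ^ 2 * τ ^ 2 * (u' * τ') ^ 2)
        + (b : ℚ) ^ 2 * (((δ : ℚ) ^ 2 * u' - B * τ * (u' * τ')) ^ 2
        - 4 * δ ^ 2 * (δ * (u' * τ + u' * τ') * τ * (u' * τ') + A * τ ^ 2 * (u' * τ') ^ 2)) =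
        (u' : ℚ) ^ 2 * b ^ 2 * (τ * τ') ^ 2 * ZG A B ((δ : ℚ) ^ 2) X x x' := by
      rw [hX, ex, ex']
      unfold ZG
      field_simp
      ring
    rw [e, hG, mul_zero]
  have huQ : (0 : ℚ) < u := by
    have : 0 < u := by omega
    exact_mod_cast this
  have hu'Q : (0 : ℚ) < u' := by
    have : 0 < u' := by omega
    exact_mod_cast this
  have hne : (![c0, c1, c2, c3, c4] : Fin (4 + 1) → ℤ) ≠ 0 := by
    intro h
    have e0 : c0 = 0 := congrFun h 0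
    have e1 : c1 = 0 := congrFun h 1
    have e2 : c2 = 0 := congrFun h 2
    have e3 : c3 = 0 := congrFun h 3
    have e4 : c4 = 0 := congrFun h 4
    rw [e0, e1, e2, e3, e4] at hpoly
    have t0 := hpoly 0
    have t1 := hpoly (-(m : ℚ) / u)
    have ez : (u : ℚ) * (-(m : ℚ) / u) + m = 0 := by field_simp; ring
    rw [ez] at t1
    have f0 : ((δ : ℚ) * (a * m - b * δ * u')) ^ 2 = 0 := by
      have : ((δ : ℚ) * (a * m - b * δ * u')) ^ 2 = (δ : ℚ) ^ 2 * a ^ 2 * ((u * 0 + m) - u' * 0) ^ 2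
        - 2 * a * b * ((δ : ℚ) ^ 3 * u' * (u' * 0 + (u * 0 + m))
        + B * δ * (u' * 0 + (u * 0 + m)) * 0 * (u * 0 + m) + 2 * A * δ ^ 2 * u' * 0 * (u * 0 + m)
        + 2 * δ ^ 2 * 0 ^ 2 * (u * 0 + m) ^ 2)
        + (b : ℚ) ^ 2 * (((δ : ℚ) ^ 2 * u' - B * 0 * (u * 0 + m)) ^ 2
        - 4 * δ ^ 2 * (δ * (u' * 0 + (u * 0 + m)) * 0 * (u * 0 + m) + A * 0 ^ 2 * (u * 0 + m) ^ 2)) := by ring
      rw [this, ← t0]
      push_cast
      ring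
    have f1 : ((δ : ℚ) * u' * (a * (-(m : ℚ) / u) - b * δ)) ^ 2 = 0 := by
      have : ((δ : ℚ) * u' * (a * (-(m : ℚ) / u) - b * δ)) ^ 2 =
        (δ : ℚ) ^ 2 * a ^ 2 * (0 - u' * (-(m : ℚ) / u)) ^ 2 - 2 * a * b * ((δ : ℚ) ^ 3 * u' * (u' * (-(m : ℚ) / u) + 0)
        + B * δ * (u' * (-(m : ℚ) / u) + 0) * (-(m : ℚ) / u) * 0 + 2 * A * δ ^ 2 * u' * (-(m : ℚ) / u) * 0
        + 2 * δ ^ 2 * (-(m : ℚ) / u) ^ 2 * 0 ^ 2)
        + (b : ℚ) ^ 2 * (((δ : ℚ) ^ 2 * u' - B * (-(m : ℚ) / u) * 0) ^ 2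
        - 4 * δ ^ 2 * (δ * (u' * (-(m : ℚ) / u) + 0) * (-(m : ℚ) / u) * 0 + A * (-(m : ℚ) / u) ^ 2 * 0 ^ 2)) := by
        ring
      rw [this, ← t1]
      push_cast
      ring
    have g0 : (a : ℚ) * m - b * δ * u' = 0 := by
      rcases mul_eq_zero.mp ((pow_eq_zero_iff two_ne_zero).mp f0) with h | h
      · exact absurd h hδQ
      · exact h
    have g1 : (a : ℚ) * (-(m : ℚ) / u) - b * δ = 0 := by
      rcases mul_eq_zero.mp ((pow_eq_zero_iff two_ne_zero).mp f1) with h | h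
      · exact absurd h (mul_ne_zero hδQ hu'Q.ne')
      · exact h
    have g2 : -((a : ℚ) * m) - b * δ * u = 0 := by
      have : -((a : ℚ) * m) - b * δ * u = u * ((a : ℚ) * (-(m : ℚ) / u) - b * δ) := by
        field_simp
      rw [this, g1, mul_zero]
    have g3 : (b : ℚ) * δ * (u + u') = 0 := by linarith
    have g4 : (b : ℚ) * δ * (u + u') ≠ 0 := mul_ne_zero (mul_ne_zero hbQ hδQ) (by positivity)
    exact g4 g3
  -- the sizes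
  have hN4 : (1 : ℝ) ≤ (N : ℝ) ^ 4 := one_le_pow₀ hN1
  have hR : (1 : ℝ) ≤ 3 * (N : ℝ) ^ 4 := by linarith
  have hNR : (N : ℝ) ≤ 3 * (N : ℝ) ^ 4 := by
    have : (N : ℝ) ^ 1 ≤ (N : ℝ) ^ 4 := pow_le_pow_right₀ hN1 (by norm_num)
    rw [pow_one] at this
    linarith
  have hN3R : (N : ℝ) ^ 3 ≤ 3 * (N : ℝ) ^ 4 := by
    have : (N : ℝ) ^ 3 ≤ (N : ℝ) ^ 4 := pow_le_pow_right₀ hN1 (by norm_num)
    linarith
  have hN2R : 3 * (N : ℝ) ^ 2 ≤ 3 * (N : ℝ) ^ 4 := by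
    have : (N : ℝ) ^ 2 ≤ (N : ℝ) ^ 4 := pow_le_pow_right₀ hN1 (by norm_num)
    linarith
  have bδ' : |(δ : ℝ)| ≤ (N : ℝ) ^ 3 := by
    have : ((|δ| : ℤ) : ℝ) ≤ ((N ^ 3 : ℤ) : ℝ) := Int.cast_le.mpr hδ
    push_cast at this
    exact this
  have bδ := bδ'.trans hN3R
  have bA : |(A : ℝ)| ≤ 3 * (N : ℝ) ^ 4 := by
    have : ((|A| : ℤ) : ℝ) ≤ ((3 * N ^ 2 : ℤ) : ℝ) := Int.cast_le.mpr hA
    push_cast at this
    exact this.trans hN2R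
  have bB : |(B : ℝ)| ≤ 3 * (N : ℝ) ^ 4 := by
    have : ((|B| : ℤ) : ℝ) ≤ ((3 * N ^ 4 : ℤ) : ℝ) := Int.cast_le.mpr hB
    push_cast at this
    exact this
  have bu : |(u : ℝ)| ≤ 3 * (N : ℝ) ^ 4 := by
    rw [Nat.abs_cast]
    have : (u : ℝ) ≤ N := by exact_mod_cast hu1
    exact this.trans hNR
  have bu' : |(u' : ℝ)| ≤ 3 * (N : ℝ) ^ 4 := by
    rw [Nat.abs_cast]
    have : (u' : ℝ) ≤ N := by exact_mod_cast hu'1
    exact this.trans hNR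
  have bm : |(m : ℝ)| ≤ 3 * (N : ℝ) ^ 4 := by
    have : ((|m| : ℤ) : ℝ) ≤ ((N : ℤ) : ℝ) := Int.cast_le.mpr hm
    push_cast at this
    exact this.trans hNR
  have ba : |(a : ℝ)| ≤ ((max X.num.natAbs X.den : ℕ) : ℝ) := by
    have e : |(a : ℝ)| = ((a.natAbs : ℕ) : ℝ) := by rw [Nat.cast_natAbs, Int.cast_abs]
    rw [e, ha]
    exact Nat.cast_le.mpr (le_max_left X.num.natAbs X.den)
  have bb : |(b : ℝ)| ≤ ((max X.num.natAbs X.den : ℕ) : ℝ) := by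
    rw [hb, Int.cast_natCast, Nat.abs_cast]
    exact Nat.cast_le.mpr (le_max_right X.num.natAbs X.den)
  obtain ⟨k0, k1, k2, k3, k4⟩ := Z_Gap_coef hR bδ bA bB bu bu' bm ba bb
  have hM : ∀ i : Fin (4 + 1), |(((![c0, c1, c2, c3, c4] : Fin (4 + 1) → ℤ) i : ℤ) : ℝ)| ≤
      64 * (3 * (N : ℝ) ^ 4) ^ 6 * ((max X.num.natAbs X.den : ℕ) : ℝ) ^ 2 := by
    intro i
    fin_cases i
    · show |(c0 : ℝ)| ≤ _
      rw [hc0]
      push_cast at k0 ⊢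
      exact k0
    · show |(c1 : ℝ)| ≤ _
      rw [hc1]
      push_cast at k1 ⊢
      exact k1
    · show |(c2 : ℝ)| ≤ _
      rw [hc2]
      push_cast at k2 ⊢
      exact k2
    · show |(c3 : ℝ)| ≤ _
      rw [hc3]
      push_cast at k3 ⊢
      exact k3
    · show |(c4 : ℝ)| ≤ _
      rw [hc4]
      push_cast at k4 ⊢
      exact k4
  have hsum : ∑ i : Fin (4 + 1), (((![c0, c1, c2, c3, c4] : Fin (4 + 1) → ℤ) i : ℤ) : ℚ) * τ ^ (i : ℕ) = 0 := by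
    rw [← hroot]
    simp only [Nat.reduceAdd, Fin.sum_univ_five]
    simp
  obtain ⟨n1, n2⟩ := Z_root ![c0, c1, c2, c3, c4] hne τ hτ0 hsum _ hM
  have hht := Z_Gap_height hN n1 n2
  have hlast : logHeight₁ x ≤ logHeight₁ (δ : ℚ) + logHeight₁ τ := by
    rw [ex, div_eq_mul_inv]
    have := logHeight₁_mul_le (δ : ℚ) τ⁻¹
    rw [logHeight₁_inv] at this
    exact this
  have hδh : logHeight₁ (δ : ℚ) ≤ 3 * Real.log N := by
    rw [Rat.logHeight₁_eq_log_max]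
    have e3 : 3 * Real.log N = Real.log ((N : ℝ) ^ 3) := by
      rw [Real.log_pow]
      norm_num
    rw [e3]
    have hd1 : 1 ≤ δ.natAbs := Int.natAbs_pos.mpr hδ0
    have e4 : max (δ : ℚ).num.natAbs (δ : ℚ).den = δ.natAbs := by
      rw [Rat.num_intCast, Rat.den_intCast]
      exact max_eq_left hd1
    rw [e4]
    refine Real.log_le_log (by exact_mod_cast hd1) ?_
    have : ((δ.natAbs : ℕ) : ℝ) = |(δ : ℝ)| := by rw [Nat.cast_natAbs, Int.cast_abs]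
    rw [this]
    exact bδ'
  linarith

end Pool.Agent.Lib.MP_2c6f70_nt.RU
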