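import Pool.Agent.Lib.MP_17a322_nt.VJ.K1

/-!
# Block BZ: separated points in a finitely generated group with a quadratic form
-/

set_option autoImplicit false

namespace Pool.Agent.Lib.MP_2c6f70_nt.RU

open Pool.Agent.Lib.MP_17a322_nt.VJ

private theorem Z_Pack_hom {Γ : Type*} [AddCommGroup Γ] (q : Γ → ℝ)
    (hpar : ∀ x y, q (x + y) + q (x - y) = 2 * q x + 2 * q y) {m : ℕ} (φ : Γ → EuclideanSpace ℝ (Fin m))
    (hφ : ∀ (P P' : Γ) (n : ℤ), q (P - n • P') = ‖φ P - (n : ℝ) • φ P'‖ ^ 2) (P Q : Γ) :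
    φ (P + Q) = φ P + φ Q := by
  have h0 : ∀ P : Γ, ‖φ P‖ ^ 2 = q P := by
    intro P
    have h := hφ P P 0
    simp only [zero_smul, sub_zero, Int.cast_zero] at h
    exact h.symm
  have hadd : ∀ P Q : Γ, ‖φ P + φ Q‖ ^ 2 = q (P + Q) := by
    intro P Q
    have h := hφ P Q (-1)
    simp only [neg_smul, one_smul, sub_neg_eq_add, Int.cast_neg, Int.cast_one] at h
    exact h.symm
  have hin : ∀ P Q : Γ, inner ℝ (φ P) (φ Q) = K1_bil q hpar P Q := by
    intro P Q
    have h := norm_add_sq_real (φ P) (φ Q)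
    rw [hadd, h0, h0] at h
    rw [K1_bil_apply]
    linarith
  have hz : ‖φ (P + Q) - (φ P + φ Q)‖ ^ 2 = 0 := by
    rw [norm_sub_sq_real, inner_add_right, hadd, h0, hin, hin, map_add, AddMonoidHom.add_apply,
      AddMonoidHom.add_apply, K1_bil_self, K1_bil_self, K1_bil_symm q hpar Q P, K1_bil_apply]
    ring
  have h1 : ‖φ (P + Q) - (φ P + φ Q)‖ = 0 := by
    exact pow_eq_zero_iff (two_ne_zero) |>.1 hz
  exact sub_eq_zero.1 (norm_eq_zero.1 h1)

/-- a finitely generated subgroup of a real vector space: rank and classes modulo two -/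
private theorem Z_Pack_rank {Γ : Type*} [AddCommGroup Γ] [AddGroup.FG Γ] {E : Type*} [NormedAddCommGroup E]
    [NormedSpace ℝ E] (φ : Γ →+ E) (U : Finset Γ) (hU : ∀ P : Γ, ∃ u ∈ U, ∃ Q : Γ, P = u + 2 • Q) :
    ∃ (r : ℕ) (F : Submodule ℝ E), 2 ^ r ≤ U.card ∧ FiniteDimensional ℝ F ∧ Module.finrank ℝ F ≤ r ∧
      ∀ P, φ P ∈ F := by
  classical
  have hfin : Module.Finite ℤ Γ := Module.Finite.iff_addGroup_fg.mpr inferInstance
  set f : Γ →ₗ[ℤ] E := φ.toIntLinearMap with hf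
  set G : Submodule ℤ E := LinearMap.range f with hG
  have hGfin : Module.Finite ℤ G := Module.Finite.range f
  have htf : Module.IsTorsionFree ℤ E := by
    apply Module.IsTorsionFree.of_smul_eq_zero
    intro n x hnx
    rw [← Int.cast_smul_eq_zsmul ℝ, smul_eq_zero, Int.cast_eq_zero] at hnx
    exact hnx
  have htfG : Module.IsTorsionFree ℤ G := inferInstance
  have hfree : Module.Free ℤ G := inferInstance
  set b := Module.finBasis ℤ G with hb
  set r := Module.finrank ℤ G with hr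
  have hmem : ∀ P, φ P ∈ G := fun P => ⟨P, rfl⟩
  set g : Γ → (Fin r → ZMod 2) := fun P i => ((b.repr ⟨φ P, hmem P⟩ i : ℤ) : ZMod 2) with hg
  have hgadd : ∀ P Q, g (P + Q) = g P + g Q := by
    intro P Q
    funext i
    have h1 : (⟨φ (P + Q), hmem (P + Q)⟩ : G) = ⟨φ P, hmem P⟩ + ⟨φ Q, hmem Q⟩ := by
      apply Subtype.ext
      exact map_add φ P Q
    show ((b.repr ⟨φ (P + Q), hmem (P + Q)⟩ i : ℤ) : ZMod 2) = g P i + g Q i
    rw [h1, map_add, Finsupp.add_apply, Int.cast_add]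
  have hsurj : ∀ v : Fin r → ZMod 2, ∃ P, g P = v := by
    intro v
    have hv : ∀ i, ∃ n : ℤ, (n : ZMod 2) = v i := fun i => ZMod.intCast_surjective (v i)
    choose n hn using hv
    obtain ⟨P, hP⟩ := (b.equivFun.symm n : G).2
    refine ⟨P, ?_⟩
    funext i
    have h1 : (⟨φ P, hmem P⟩ : G) = b.equivFun.symm n := Subtype.ext hP
    simp only [hg, h1]
    have h2 : b.repr (b.equivFun.symm n) i = n i := by
      rw [← Module.Basis.equivFun_apply, LinearEquiv.apply_symm_apply]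
    rw [h2, hn]
  refine ⟨r, Submodule.span ℝ (Set.range fun i => (b i : E)), ?_, ?_, ?_, ?_⟩
  · have h1 : (Finset.univ : Finset (Fin r → ZMod 2)) ⊆ U.image g := by
      intro v _
      obtain ⟨P, hP⟩ := hsurj v
      obtain ⟨u, hu, Q, hPQ⟩ := hU P
      rw [Finset.mem_image]
      refine ⟨u, hu, ?_⟩
      rw [← hP, hPQ, two_nsmul, hgadd, hgadd]
      have h2 : g Q + g Q = 0 := by
        funext i
        exact CharTwo.add_self_eq_zero (g Q i)
      rw [h2, add_zero]
    have h2 := Finset.card_le_card h1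
    have h3 : (Finset.univ : Finset (Fin r → ZMod 2)).card = 2 ^ r := by
      rw [Finset.card_univ, Fintype.card_fun, ZMod.card, Fintype.card_fin]
    rw [h3] at h2
    exact h2.trans Finset.card_image_le
  · exact FiniteDimensional.span_of_finite ℝ (Set.finite_range _)
  · have h1 := finrank_range_le_card (R := ℝ) (fun i : Fin r => (b i : E))
    rw [Fintype.card_fin] at h1
    exact h1
  · intro P
    have h1 := b.sum_repr ⟨φ P, hmem P⟩
    have h2 : φ P = ∑ i, (b.repr ⟨φ P, hmem P⟩ i) • (b i : E) := by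
      have h3 := congrArg (fun z : G => (z : E)) h1
      simp only [Submodule.coe_sum, Submodule.coe_smul] at h3
      exact h3.symm
    rw [h2]
    apply Submodule.sum_mem
    intro i _
    rw [← Int.cast_smul_eq_zsmul ℝ]
    exact Submodule.smul_mem _ _ (Submodule.subset_span ⟨i, rfl⟩)

/-- Points of `q`-norm at most `2 √D` with mutual distances at least `√D`: at most `U.card ^ 3` of them, if
every class modulo `2 Γ` has a representative in `U`.

Proof. `exists_euclid q hq0 hpar` gives `m` and `φ : Γ → EuclideanSpace ℝ (Fin m)` with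
`q (P - n • P') = ‖φ P - n • φ P'‖ ^ 2`.
(1) `φ` is additive: with `n = 1`, `n = -1`, `n = 0` the inner products are
`⟪φ P, φ Q⟫ = (q (P + Q) - q P - q Q) / 2 = K1_bil q hpar P Q` (`n = -1`: `q (P + Q) = ‖φ P + φ Q‖ ^ 2`), so
`‖φ (P + Q) - φ P - φ Q‖ ^ 2`, expanded, is `K1_bil` of `(P + Q) - P - Q = 0` with itself, i.e. `0`
(`K1_bil` is bi-additive).  So `φ` is an additive homomorphism `φ' : Γ →+ E`.
(2) `G = φ'.range` (as a `ℤ`-submodule of `E`) is finitely generated and torsion free, so free: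
`Module.free_of_finite_type_torsion_free'` or `Module.Free` instance; let `b : Module.Basis (Fin r) ℤ G`.
The map `Γ → (Fin r → ZMod 2)`, `P ↦ fun i => (b.repr (φ' P) i : ZMod 2)` is additive and surjective and kills
`2 • Q`; by `hU` its restriction to `U` is still surjective, so `2 ^ r ≤ U.card`.
(3) The real span `F` of `G` has `Module.finrank ℝ F ≤ r` (it is spanned by the `r` vectors `b i`:
`finrank_span_le_card` / `finrank_range_le_card`).
(4) The points `(√D)⁻¹ • φ P`, `P ∈ s`, of `F` have norm `≤ 2` and mutual distances `≥ 1` (so they are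
different: `φ` is injective on `s`), so by `Besicovitch.card_le_of_separated` (Mathlib, apply it to the
submodule `F` with its induced norm; it needs `[FiniteDimensional ℝ F]`) there are at most
`5 ^ finrank F ≤ 5 ^ r ≤ 8 ^ r = (2 ^ r) ^ 3 ≤ U.card ^ 3` of them. -/
theorem Z_pack {Γ : Type*} [AddCommGroup Γ] [AddGroup.FG Γ] (q : Γ → ℝ) (hq0 : ∀ x, 0 ≤ q x)
    (hpar : ∀ x y, q (x + y) + q (x - y) = 2 * q x + 2 * q y)
    (U : Finset Γ) (hU : ∀ P : Γ, ∃ u ∈ U, ∃ Q : Γ, P = u + 2 • Q)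
    (s : Finset Γ) (D : ℝ) (hD : 0 < D) (h1 : ∀ P ∈ s, q P ≤ 4 * D)
    (h2 : ∀ P ∈ s, ∀ Q ∈ s, P ≠ Q → D ≤ q (P - Q)) : s.card ≤ U.card ^ 3 := by
  classical
  obtain ⟨m, φ, hφ⟩ := exists_euclid q hq0 hpar
  set φ' : Γ →+ EuclideanSpace ℝ (Fin m) := AddMonoidHom.mk' φ (Z_Pack_hom q hpar φ hφ) with hφ'
  have hval : ∀ P, φ' P = φ P := fun P => rfl
  obtain ⟨r, F, hr, hFfin, hFr, hF⟩ := Z_Pack_rank φ' U hU
  have h0 : ∀ P : Γ, ‖φ P‖ ^ 2 = q P := by
    intro P
    have h := hφ P P 0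
    simp only [zero_smul, sub_zero, Int.cast_zero] at h
    exact h.symm
  have hsub : ∀ P Q : Γ, ‖φ P - φ Q‖ ^ 2 = q (P - Q) := by
    intro P Q
    have h := hφ P Q 1
    simp only [one_smul, Int.cast_one] at h
    exact h.symm
  have hD' : 0 < Real.sqrt D := Real.sqrt_pos.2 hD
  have hDsq : Real.sqrt D ^ 2 = D := Real.sq_sqrt hD.le
  set c : Γ → F := fun P => (Real.sqrt D)⁻¹ • (⟨φ' P, hF P⟩ : F) with hc
  have hcn : ∀ P, ‖c P‖ ^ 2 = q P / D := by
    intro P
    have h3 : ‖c P‖ = (Real.sqrt D)⁻¹ * ‖φ P‖ := by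
      simp only [hc]
      rw [norm_smul, Real.norm_eq_abs, abs_of_pos (inv_pos.2 hD')]
      rfl
    rw [h3, mul_pow, h0, inv_pow, hDsq]
    field_simp
  have hcd : ∀ P Q, ‖c P - c Q‖ ^ 2 = q (P - Q) / D := by
    intro P Q
    have h3 : ‖c P - c Q‖ = (Real.sqrt D)⁻¹ * ‖φ P - φ Q‖ := by
      simp only [hc]
      rw [← smul_sub, norm_smul, Real.norm_eq_abs, abs_of_pos (inv_pos.2 hD')]
      rfl
    rw [h3, mul_pow, hsub, inv_pow, hDsq]
    field_simp
  have hsep : ∀ P ∈ s, ∀ Q ∈ s, P ≠ Q → 1 ≤ ‖c P - c Q‖ := by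
    intro P hP Q hQ hPQ
    have h3 : 1 ≤ ‖c P - c Q‖ ^ 2 := by
      rw [hcd, le_div_iff₀ hD, one_mul]
      exact h2 P hP Q hQ hPQ
    by_contra h4
    push Not at h4
    have h5 : ‖c P - c Q‖ ^ 2 < 1 := by
      have h6 := norm_nonneg (c P - c Q)
      nlinarith
    linarith
  have hinj : Set.InjOn c (s : Set Γ) := by
    intro P hP Q hQ hPQ
    by_contra h3
    have h4 := hsep P hP Q hQ h3
    rw [hPQ, sub_self, norm_zero] at h4
    linarith
  have hcard : (s.image c).card = s.card := Finset.card_image_of_injOn hinj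
  have hbes : (s.image c).card ≤ 5 ^ Module.finrank ℝ F := by
    apply Besicovitch.card_le_of_separated
    · intro z hz
      obtain ⟨P, hP, rfl⟩ := Finset.mem_image.1 hz
      have h3 : ‖c P‖ ^ 2 ≤ 2 ^ 2 := by
        rw [hcn, div_le_iff₀ hD]
        have := h1 P hP
        linarith
      exact (sq_le_sq₀ (norm_nonneg _) (by norm_num)).1 h3
    · intro z hz w hw hzw
      obtain ⟨P, hP, rfl⟩ := Finset.mem_image.1 hz
      obtain ⟨Q, hQ, rfl⟩ := Finset.mem_image.1 hw
      apply hsep P hP Q hQ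
      intro h3
      exact hzw (by rw [h3])
  rw [hcard] at hbes
  calc s.card ≤ 5 ^ Module.finrank ℝ F := hbes
    _ ≤ 5 ^ r := Nat.pow_le_pow_right (by norm_num) hFr
    _ ≤ 8 ^ r := Nat.pow_le_pow_left (by norm_num) r
    _ = (2 ^ r) ^ 3 := by rw [← pow_mul, mul_comm r 3, pow_mul]; norm_num
    _ ≤ U.card ^ 3 := Nat.pow_le_pow_left hr 3

end Pool.Agent.Lib.MP_2c6f70_nt.RU
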