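import Mathlib

/-!
# Block BZ: heights of integer vectors
-/

set_option autoImplicit false

namespace Pool.Agent.Lib.MP_2c6f70_nt.RU

open Height

/-- A nonzero integer vector is a positive multiple of a primitive one. -/
private theorem Z_Ht_extract {n : ℕ} (v : Fin (n + 1) → ℤ) (hv : v ≠ 0) :
    ∃ w : Fin (n + 1) → ℤ, Finset.univ.gcd v ≠ 0 ∧ Finset.univ.gcd w = 1 ∧
      ∀ i, v i = Finset.univ.gcd v * w i := by
  obtain ⟨w, h1, h2⟩ := Finset.extract_gcd v (Finset.univ_nonempty (α := Fin (n + 1)))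
  refine ⟨w, ?_, h2, fun i => h1 i (Finset.mem_univ i)⟩
  intro h0
  apply hv
  funext i
  rw [h1 i (Finset.mem_univ i), h0, zero_mul]
  rfl

/-- Every nonzero rational vector is a multiple of a primitive integer vector.
Proof. Clear denominators (multiply by `∏ i, (x i).den`), divide the integer vector by its gcd
(`Finset.exists_dvd_and_dvd_of_dvd..` / `Finset.extract_gcd`: for nonempty `s` there is `g` with
`f b = s.gcd f * g b` and `s.gcd g = 1`). -/
theorem Z_prim {n : ℕ} (x : Fin (n + 1) → ℚ) (hx : x ≠ 0) :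
    ∃ (c : ℚ) (v : Fin (n + 1) → ℤ), c ≠ 0 ∧ Finset.univ.gcd v = 1 ∧ ∀ i, x i = c * (v i : ℚ) := by
  classical
  obtain ⟨D, hD⟩ : ∃ D : ℕ, D = ∏ i, (x i).den := ⟨_, rfl⟩
  have hD0 : (D : ℚ) ≠ 0 := by
    rw [hD]
    exact_mod_cast Finset.prod_ne_zero_iff.2 fun i _ => (x i).den_nz
  have hu : ∀ i, ∃ u : ℤ, (u : ℚ) = D * x i := by
    intro i
    obtain ⟨k, hk⟩ : (x i).den ∣ D := by
      rw [hD]
      exact Finset.dvd_prod_of_mem _ (Finset.mem_univ i)
    refine ⟨(x i).num * k, ?_⟩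
    have h1 : x i * ((x i).den : ℚ) = (x i).num := Rat.mul_den_eq_num (x i)
    rw [hk]
    push_cast
    rw [← h1]
    ring
  choose u hu using hu
  have hu0 : u ≠ 0 := by
    intro h
    apply hx
    funext i
    have h1 := hu i
    rw [h] at h1
    have h2 : (D : ℚ) * x i = 0 := by
      rw [← h1]
      exact Int.cast_zero
    exact (mul_eq_zero.1 h2).resolve_left hD0
  obtain ⟨w, h1, h2, h3⟩ := Z_Ht_extract u hu0
  refine ⟨(Finset.univ.gcd u : ℤ) / D, w, ?_, h2, ?_⟩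
  · exact div_ne_zero (by exact_mod_cast h1) hD0
  · intro i
    have h4 := hu i
    rw [h3 i] at h4
    push_cast at h4
    rw [div_mul_eq_mul_div, h4]
    field_simp

/-- The height of a primitive integer vector is attained. -/
theorem Z_ht_prim {n : ℕ} (v : Fin (n + 1) → ℤ) (hv : Finset.univ.gcd v = 1) :
    ∃ k, v k ≠ 0 ∧ (∀ i, |(v i : ℝ)| ≤ |(v k : ℝ)|) ∧
      logHeight (fun i => (v i : ℚ)) = Real.log |(v k : ℝ)| := by
  classical
  obtain ⟨k, hk⟩ := Finite.exists_max (fun i => |v i|)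
  have hsup : (⨆ i, |v i|) = |v k| := by
    apply le_antisymm
    · exact ciSup_le hk
    · exact le_ciSup (f := fun i => |v i|) ⟨|v k|, by
        rintro _ ⟨i, rfl⟩
        exact hk i⟩ k
  have h1 := Rat.logHeight_eq_max_abs_of_gcd_eq_one hv
  refine ⟨k, ?_, ?_, ?_⟩
  · intro h0
    have h2 : ∀ i, v i = 0 := by
      intro i
      have h3 := hk i
      rw [h0, abs_zero] at h3
      exact abs_eq_zero.1 (le_antisymm h3 (abs_nonneg _))
    have h3 : Finset.univ.gcd v = 0 := Finset.gcd_eq_zero_iff.2 fun i _ => h2 i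
    rw [hv] at h3
    exact one_ne_zero h3
  · intro i
    have h2 := hk i
    exact_mod_cast h2
  · have h2 : logHeight (fun i => (v i : ℚ)) = Real.log ((⨆ i, |v i| : ℤ) : ℝ) := h1
    rw [h2, hsup]
    push_cast
    rfl

/-- The height of an integer vector is at most its maximum.
Proof. `v = g • w` with `g = Finset.univ.gcd v ≥ 1` and `w` primitive; `logHeight_smul_eq_logHeight`,
`Rat.logHeight_eq_max_abs_of_gcd_eq_one` for `w` and `|w i| ≤ |v i|`. -/
theorem Z_ht_le {n : ℕ} (v : Fin (n + 1) → ℤ) (hv : v ≠ 0) (M : ℝ) (hM : ∀ i, |(v i : ℝ)| ≤ M) :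
    logHeight (fun i => (v i : ℚ)) ≤ Real.log M := by
  obtain ⟨w, h1, h2, h3⟩ := Z_Ht_extract v hv
  obtain ⟨g, hg⟩ : ∃ g : ℤ, g = Finset.univ.gcd v := ⟨_, rfl⟩
  rw [← hg] at h1 h3
  have e1 : (fun i => (v i : ℚ)) = (g : ℚ) • (fun i => (w i : ℚ)) := by
    funext i
    rw [h3 i]
    push_cast
    rfl
  obtain ⟨k, hk0, -, hk2⟩ := Z_ht_prim w h2
  rw [e1, logHeight_smul_eq_logHeight _ (by exact_mod_cast h1), hk2]
  refine Real.log_le_log ?_ ?_
  · rw [abs_pos]
    exact_mod_cast hk0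
  · refine le_trans ?_ (hM k)
    rw [h3 k]
    push_cast
    rw [abs_mul]
    have h4 : (1 : ℝ) ≤ |(g : ℝ)| := by
      have h5 : (1 : ℤ) ≤ |g| := Int.one_le_abs h1
      exact_mod_cast h5
    exact le_mul_of_one_le_left (abs_nonneg _) h4

/-- The height of an integer vector whose gcd divides `g` is at least `log |v k| - log |g|`.
Proof. The same; `gcd v ∣ g`, so `|gcd v| ≤ |g|`, `|v k| = |gcd v| * |w k|`. (For `v k = 0` the left side is
`- log |g| ≤ 0`.) -/
theorem Z_ht_ge {n : ℕ} (v : Fin (n + 1) → ℤ) (hv : v ≠ 0) (g : ℤ) (hg : g ≠ 0)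
    (hd : ∀ d : ℤ, (∀ i, d ∣ v i) → d ∣ g) (k : Fin (n + 1)) :
    Real.log |(v k : ℝ)| - Real.log |(g : ℝ)| ≤ logHeight (fun i => (v i : ℚ)) := by
  obtain ⟨w, h1, h2, h3⟩ := Z_Ht_extract v hv
  obtain ⟨h, hh⟩ : ∃ h : ℤ, h = Finset.univ.gcd v := ⟨_, rfl⟩
  rw [← hh] at h1 h3
  have e1 : (fun i => (v i : ℚ)) = (h : ℚ) • (fun i => (w i : ℚ)) := by
    funext i
    rw [h3 i]
    push_cast
    rfl
  obtain ⟨l, hl0, hl1, hl2⟩ := Z_ht_prim w h2
  rw [e1, logHeight_smul_eq_logHeight _ (by exact_mod_cast h1), hl2]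
  have hdg : h ∣ g := hd h fun i => by rw [h3 i]; exact dvd_mul_right _ _
  have hhg : |(h : ℝ)| ≤ |(g : ℝ)| := by
    have h4 : |h| ≤ |g| := Int.le_of_dvd (abs_pos.2 hg) ((abs_dvd_abs h g).2 hdg)
    exact_mod_cast h4
  have hh0 : 0 < |(h : ℝ)| := abs_pos.2 (by exact_mod_cast h1)
  have hl1' : (1 : ℝ) ≤ |(w l : ℝ)| := by
    have h5 : (1 : ℤ) ≤ |w l| := Int.one_le_abs hl0
    exact_mod_cast h5
  have hg1 : (1 : ℝ) ≤ |(g : ℝ)| := by
    have h5 : (1 : ℤ) ≤ |g| := Int.one_le_abs hg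
    exact_mod_cast h5
  by_cases hk : v k = 0
  · rw [hk, Int.cast_zero, abs_zero, Real.log_zero]
    have h6 := Real.log_nonneg hl1'
    have h7 := Real.log_nonneg hg1
    linarith
  · have hwk : w k ≠ 0 := by
      intro h0
      apply hk
      rw [h3 k, h0, mul_zero]
    have hwk0 : 0 < |(w k : ℝ)| := abs_pos.2 (by exact_mod_cast hwk)
    have e2 : |(v k : ℝ)| = |(h : ℝ)| * |(w k : ℝ)| := by
      rw [h3 k]
      push_cast
      rw [abs_mul]
    rw [e2, Real.log_mul hh0.ne' hwk0.ne']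
    have h6 := Real.log_le_log hh0 hhg
    have h7 := Real.log_le_log hwk0 (hl1 k)
    linarith

end Pool.Agent.Lib.MP_2c6f70_nt.RU
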