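import Pool.Agent.Lib.MP_2c6f70_nt.RU.Z_Rel
import Pool.Agent.Lib.MP_2c6f70_nt.RU.Z_Ht

/-!
# Block BZ: the points
-/

set_option autoImplicit false

namespace Pool.Agent.Lib.MP_2c6f70_nt.RU

open Height

/-- The abscissa of the point of `(u, n)`. -/
def zx (h : Fin 3 → ℤ) (q a u n : ℕ) : ℚ := (zd h : ℚ) * q * u / (q * n + a)

/-- The point.
Proof. `x ^ 2 = q n + a > 0`, `y i ^ 2 = q (n + u h i) + a`. With `ξ = zx h q a u n`:
`ξ + h 1 h 2 = h 1 h 2 (h 0 q u + x ^ 2) / x ^ 2 = h 1 h 2 (y 0) ^ 2 / x ^ 2` and so on, so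
`ξ ^ 3 + A ξ ^ 2 + B ξ + C = (ξ + h 1 h 2) (ξ + h 0 h 2) (ξ + h 0 h 1) = (zd h * y 0 y 1 y 2 / x ^ 3) ^ 2`.
The point is nonsingular since the curve is elliptic (`equation_iff_nonsingular`, see `FT.exists_half` in
VJ/MW1). -/
theorem Z_point (h : Fin 3 → ℤ) (hinj : Function.Injective h) (h0 : ∀ i, h i ≠ 0) (q a u n : ℕ)
    (ha : 1 ≤ a) (hs : IsSquare (q * n + a))
    (hi : ∀ i, IsSquare ((q : ℤ) * (n + u * h i) + a)) :
    ∃ P : (ZE h).toAffine.Point, P ≠ 0 ∧ P.xRep 0 = zx h q a u n := by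
  have hell := ZE_isElliptic h hinj h0
  obtain ⟨r, hr⟩ := hs
  choose s hs' using hi
  have hX : (0 : ℚ) < (q : ℚ) * n + a := by
    have : (0 : ℚ) < a := by exact_mod_cast ha
    positivity
  have hrX : (q : ℚ) * n + a = (r : ℚ) * r := by exact_mod_cast hr
  have hr0 : (r : ℚ) ≠ 0 := by
    intro h
    rw [h, mul_zero] at hrX
    exact hX.ne' hrX
  have hsi : ∀ i, (q : ℚ) * (n + u * h i) + a = (s i : ℚ) * s i := by
    intro i
    exact_mod_cast hs' i
  have k0 := hsi 0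
  have k1 := hsi 1
  have k2 := hsi 2
  set ξ : ℚ := zx h q a u n with hξ
  set η : ℚ := zd h * s 0 * s 1 * s 2 / (r : ℚ) ^ 3 with hη
  have hξ' : ξ = (zd h : ℚ) * q * u / ((r : ℚ) * r) := by
    rw [hξ, zx, hrX]
  -- the three factors
  have f0 : ξ + h 1 * h 2 = h 1 * h 2 * ((s 0 : ℚ) * s 0) / ((r : ℚ) * r) := by
    rw [hξ', ← k0, zd]
    field_simp
    push_cast
    linear_combination (-(h 1 : ℚ) * h 2) * hrX
  have f1 : ξ + h 0 * h 2 = h 0 * h 2 * ((s 1 : ℚ) * s 1) / ((r : ℚ) * r) := by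
    rw [hξ', ← k1, zd]
    field_simp
    push_cast
    linear_combination (-(h 0 : ℚ) * h 2) * hrX
  have f2 : ξ + h 0 * h 1 = h 0 * h 1 * ((s 2 : ℚ) * s 2) / ((r : ℚ) * r) := by
    rw [hξ', ← k2, zd]
    field_simp
    push_cast
    linear_combination (-(h 0 : ℚ) * h 1) * hrX
  have hprod : η ^ 2 = (ξ + h 1 * h 2) * (ξ + h 0 * h 2) * (ξ + h 0 * h 1) := by
    rw [f0, f1, f2, hη, zd]
    field_simp
    push_cast
    ring
  have hEq : (ZE h).toAffine.Equation ξ η := by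
    rw [WeierstrassCurve.Affine.equation_iff]
    have e : (ξ + h 1 * h 2) * (ξ + h 0 * h 2) * (ξ + h 0 * h 1) =
        ξ ^ 3 + (zA h : ℚ) * ξ ^ 2 + (zB h : ℚ) * ξ + (zC h : ℚ) := by
      simp only [zA, zB, zC, zd]
      push_cast
      ring
    simp only [ZE, ZW]
    rw [zero_mul, zero_mul, add_zero, add_zero, hprod, e]
  have hns : (ZE h).toAffine.Nonsingular ξ η := ((ZE h).toAffine.equation_iff_nonsingular).1 hEq
  refine ⟨WeierstrassCurve.Affine.Point.some _ _ hns, ?_, rfl⟩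
  exact WeierstrassCurve.Affine.Point.some_ne_zero hns

/-- Different `(u, n)` have different abscissas.
Proof. `ξ = ξ'` gives `u (q n' + a) = u' (q n + a)`, so `q (u n' - u' n) = a (u' - u)`, `q ∣ u' - u`
(`q` and `a` coprime), `|u' - u| < N ≤ q`, so `u = u'` and then `n = n'`. -/
theorem Z_inj (h : Fin 3 → ℤ) (h0 : ∀ i, h i ≠ 0) (q a N u n u' n' : ℕ) (ha : 1 ≤ a)
    (hc : Nat.Coprime q a) (hN : N ≤ q) (hu : 1 ≤ u) (huN : u ≤ N) (hu' : 1 ≤ u') (huN' : u' ≤ N)
    (he : zx h q a u n = zx h q a u' n') : u = u' ∧ n = n' := by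
  have hq : 1 ≤ q := by omega
  have hq' : (0 : ℚ) < q := by exact_mod_cast hq
  have ha' : (0 : ℚ) < a := by exact_mod_cast ha
  have hd : (zd h : ℚ) ≠ 0 := by
    rw [Int.cast_ne_zero]
    exact mul_ne_zero (mul_ne_zero (h0 0) (h0 1)) (h0 2)
  have hx : (0 : ℚ) < (q : ℚ) * n + a := by positivity
  have hx' : (0 : ℚ) < (q : ℚ) * n' + a := by positivity
  unfold zx at he
  rw [div_eq_div_iff hx.ne' hx'.ne'] at he
  have h1 : ((zd h : ℚ) * q) * ((u : ℚ) * (q * n' + a)) = ((zd h : ℚ) * q) * (u' * (q * n + a)) := by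
    linear_combination he
  have h2 : (u : ℚ) * (q * n' + a) = u' * (q * n + a) :=
    mul_left_cancel₀ (mul_ne_zero hd hq'.ne') h1
  have h3 : (u : ℤ) * (q * n' + a) = u' * (q * n + a) := by exact_mod_cast h2
  have h4 : (q : ℤ) * (u * n' - u' * n) = a * ((u' : ℤ) - u) := by linear_combination h3
  have h5 : (q : ℤ) ∣ a * ((u' : ℤ) - u) := ⟨_, h4.symm⟩
  have hcop : IsCoprime (q : ℤ) (a : ℤ) := Nat.isCoprime_iff_coprime.mpr hc
  have h6 : (q : ℤ) ∣ (u' : ℤ) - u := hcop.dvd_of_dvd_mul_left h5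
  have huu : (u' : ℤ) - u = 0 := by
    apply Int.eq_zero_of_abs_lt_dvd h6
    rw [abs_lt]
    constructor <;> omega
  have h7 : u = u' := by omega
  refine ⟨h7, ?_⟩
  have hu0 : (u : ℤ) ≠ 0 := by omega
  have huu' : (u' : ℤ) = u := by omega
  rw [huu'] at h3
  have h8 : (q : ℤ) * n' + a = q * n + a := mul_left_cancel₀ hu0 h3
  have hq0 : (q : ℤ) ≠ 0 := by omega
  have h9 : (q : ℤ) * n' = q * n := by linarith
  have h10 : (n' : ℤ) = n := mul_left_cancel₀ hq0 h9
  omega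

/-- The heights of the abscissas.
Proof. `ξ = k / l`, `k = zd h * q * u`, `l = q n + a`, both nonzero integers. `M = max q a`, so
`M ≤ max |k| l ≤ 2 N ^ 4 M`. A common divisor of `k` and `l` is prime to `q` (`gcd (q, q n + a) = 1`), so it
divides `zd h * u`, which is at most `N ^ 4`. `logHeight₁ ξ = logHeight ![k, l]`, `Z_ht_le`, `Z_ht_ge` (or
`Rat.logHeight₁_eq_log_max`). -/
theorem Z_height : ∃ c : ℝ, 0 < c ∧ ∀ (N : ℕ) (h : Fin 3 → ℤ) (q a u n : ℕ), 2 ≤ N →
    (∀ i, h i ≠ 0) → (∀ i, |h i| ≤ N) → 1 ≤ q → 1 ≤ a → Nat.Coprime q a → 1 ≤ u → u ≤ N → n < N →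
      |logHeight₁ (zx h q a u n) - Real.log (max q a : ℕ)| ≤ c * Real.log N := by
  refine ⟨5, by norm_num, ?_⟩
  intro N h q a u n hN h0 hh hq ha hc hu huN hn
  set k : ℤ := zd h * q * u with hk
  set l : ℤ := q * n + a with hl
  set g : ℤ := zd h * u with hg
  set M : ℕ := max q a with hM
  have hM1 : 1 ≤ M := hq.trans (le_max_left _ _)
  have hMr : (1 : ℝ) ≤ M := by exact_mod_cast hM1
  have hNr : (2 : ℝ) ≤ N := by exact_mod_cast hN
  have hN1 : (1 : ℝ) ≤ N := by linarith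
  have hzd0 : zd h ≠ 0 := mul_ne_zero (mul_ne_zero (h0 0) (h0 1)) (h0 2)
  have hq0 : (q : ℤ) ≠ 0 := by omega
  have hu0 : (u : ℤ) ≠ 0 := by omega
  have hk0 : k ≠ 0 := mul_ne_zero (mul_ne_zero hzd0 hq0) hu0
  have hg0 : g ≠ 0 := mul_ne_zero hzd0 hu0
  have hqr : (1 : ℝ) ≤ q := by exact_mod_cast hq
  have har : (1 : ℝ) ≤ a := by exact_mod_cast ha
  have hur : (1 : ℝ) ≤ u := by exact_mod_cast hu
  have huN' : (u : ℝ) ≤ N := by exact_mod_cast huN
  have hnN : (n : ℝ) ≤ N := by exact_mod_cast hn.le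
  have hqM : (q : ℝ) ≤ M := by exact_mod_cast le_max_left q a
  have haM : (a : ℝ) ≤ M := by exact_mod_cast le_max_right q a
  have hn0 : (0 : ℝ) ≤ n := Nat.cast_nonneg n
  -- sizes
  have hhr : ∀ i, |(h i : ℝ)| ≤ N := fun i => by
    have := hh i
    have e : |(h i : ℝ)| = ((|h i| : ℤ) : ℝ) := by push_cast; rfl
    rw [e]
    exact_mod_cast this
  have hzd1 : (1 : ℝ) ≤ |(zd h : ℝ)| := by
    have := Int.one_le_abs hzd0
    have e : |(zd h : ℝ)| = ((|zd h| : ℤ) : ℝ) := by push_cast; rfl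
    rw [e]
    exact_mod_cast this
  have hzdN : |(zd h : ℝ)| ≤ (N : ℝ) ^ 3 := by
    unfold zd
    push_cast
    rw [abs_mul, abs_mul]
    calc |(h 0 : ℝ)| * |(h 1 : ℝ)| * |(h 2 : ℝ)| ≤ (N : ℝ) * N * N :=
          mul_le_mul (mul_le_mul (hhr 0) (hhr 1) (abs_nonneg _) (by linarith)) (hhr 2)
            (abs_nonneg _) (by positivity)
      _ = _ := by ring
  have hgN : |(g : ℝ)| ≤ (N : ℝ) ^ 4 := by
    rw [hg]
    push_cast
    rw [abs_mul, abs_of_pos (by linarith : (0 : ℝ) < u)]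
    calc |(zd h : ℝ)| * u ≤ (N : ℝ) ^ 3 * N :=
          mul_le_mul hzdN huN' (by linarith) (by positivity)
      _ = _ := by ring
  have hkup : |(k : ℝ)| ≤ 2 * (N : ℝ) ^ 4 * M := by
    have e : |(k : ℝ)| = |(g : ℝ)| * q := by
      rw [hk, hg]
      push_cast
      rw [abs_mul, abs_mul, abs_mul, abs_of_pos (by linarith : (0 : ℝ) < u),
        abs_of_pos (by linarith : (0 : ℝ) < q)]
      ring
    rw [e]
    have h1 : |(g : ℝ)| * q ≤ (N : ℝ) ^ 4 * M :=
      mul_le_mul hgN hqM (by linarith) (by positivity)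
    have h2 : 0 ≤ (N : ℝ) ^ 4 * M := by positivity
    linarith
  have hlpos : (1 : ℝ) ≤ (l : ℝ) := by
    rw [hl]; push_cast
    have : 0 ≤ (q : ℝ) * n := by positivity
    linarith
  have hlup : |(l : ℝ)| ≤ 2 * (N : ℝ) ^ 4 * M := by
    rw [abs_of_pos (by linarith)]
    rw [hl]; push_cast
    have h1 : (q : ℝ) * n ≤ M * N := mul_le_mul hqM hnN hn0 (by linarith)
    have h2 : (N : ℝ) ≤ (N : ℝ) ^ 4 := by
      calc (N : ℝ) = (N : ℝ) ^ 1 := (pow_one _).symm
        _ ≤ (N : ℝ) ^ 4 := pow_le_pow_right₀ hN1 (by norm_num)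
    have h3 : (M : ℝ) * N ≤ M * (N : ℝ) ^ 4 := mul_le_mul_of_nonneg_left h2 (by linarith)
    have h4 : (M : ℝ) * 1 ≤ M * (N : ℝ) ^ 4 := mul_le_mul_of_nonneg_left (by linarith) (by linarith)
    linarith
  -- the vector
  set v : Fin 2 → ℤ := ![k, l] with hv
  have hv0 : v 0 = k := rfl
  have hv1 : v 1 = l := rfl
  have hvne : v ≠ 0 := by
    intro h1
    have := congrFun h1 0
    rw [hv0] at this
    exact hk0 this
  have hxi : logHeight₁ (zx h q a u n) = logHeight (fun i => (v i : ℚ)) := by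
    have e : zx h q a u n = (k : ℚ) / (l : ℚ) := by
      unfold zx
      rw [hk, hl]
      push_cast
      rfl
    rw [e, logHeight₁_div_eq_logHeight]
    congr 1
    funext i
    fin_cases i <;> rfl
  have hup := Z_ht_le (n := 1) v hvne (2 * (N : ℝ) ^ 4 * M) (fun i => by
    fin_cases i
    · exact hkup
    · exact hlup)
  have hdv : ∀ d : ℤ, (∀ i, d ∣ v i) → d ∣ g := by
    intro d hd
    have d0 : d ∣ k := hd 0
    have d1 : d ∣ l := hd 1
    have hql : IsCoprime (q : ℤ) l := by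
      have h1 : IsCoprime (q : ℤ) (a : ℤ) := Nat.isCoprime_iff_coprime.mpr hc
      rw [hl]
      have e : (q : ℤ) * n + a = a + q * n := by ring
      rw [e]
      exact h1.add_mul_left_right n
    have hqd : IsCoprime d (q : ℤ) := (hql.of_isCoprime_of_dvd_right d1).symm
    have e : k = g * q := by rw [hk, hg]; ring
    rw [e] at d0
    exact hqd.dvd_of_dvd_mul_right d0
  have hlogN : Real.log 2 ≤ Real.log N := Real.log_le_log (by norm_num) hNr
  have hlogN0 : 0 ≤ Real.log N := Real.log_nonneg hN1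
  have hlogg : Real.log |(g : ℝ)| ≤ 4 * Real.log N := by
    have hgp : 0 < |(g : ℝ)| := abs_pos.mpr (by exact_mod_cast hg0)
    have := Real.log_le_log hgp hgN
    rw [Real.log_pow] at this
    push_cast at this
    exact this
  have hlow : ∃ i, Real.log M ≤ Real.log |(v i : ℝ)| := by
    have hMpos : (0 : ℝ) < M := by linarith
    rcases le_total q a with h1 | h1
    · refine ⟨1, ?_⟩
      rw [hv1, abs_of_pos (by linarith)]
      apply Real.log_le_log hMpos
      have e : (M : ℝ) = a := by rw [hM, max_eq_right h1]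
      rw [e, hl]
      push_cast
      have : 0 ≤ (q : ℝ) * n := by positivity
      linarith
    · refine ⟨0, ?_⟩
      rw [hv0]
      apply Real.log_le_log hMpos
      have e : (M : ℝ) = q := by rw [hM, max_eq_left h1]
      rw [e, hk]
      push_cast
      rw [abs_mul, abs_mul, abs_of_pos (by linarith : (0 : ℝ) < u),
        abs_of_pos (by linarith : (0 : ℝ) < q)]
      have h2 : 1 * (q : ℝ) ≤ |(zd h : ℝ)| * q := mul_le_mul_of_nonneg_right hzd1 (by linarith)
      have h3 : |(zd h : ℝ)| * q * 1 ≤ |(zd h : ℝ)| * q * u :=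
        mul_le_mul_of_nonneg_left hur (by positivity)
      linarith
  obtain ⟨i, hi⟩ := hlow
  have hge := Z_ht_ge (n := 1) v hvne g hg0 hdv i
  have hlogM : Real.log (2 * (N : ℝ) ^ 4 * M) = Real.log 2 + 4 * Real.log N + Real.log M := by
    rw [Real.log_mul (by positivity) (by positivity), Real.log_mul (by norm_num) (by positivity),
      Real.log_pow]
    push_cast
    ring
  rw [hlogM] at hup
  rw [hxi, abs_le]
  constructor <;> linarith

end Pool.Agent.Lib.MP_2c6f70_nt.RU
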