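import Pool.Agent.Lib.MP_2c6f70_nt.RU.Z_Om
import Pool.Agent.Lib.MP_2c6f70_nt.RU.Z_Pack
import Pool.Agent.Lib.MP_2c6f70_nt.RU.Z_Can
import Pool.Agent.Lib.MP_2c6f70_nt.RU.Z_Desc
import Pool.Agent.Lib.MP_2c6f70_nt.RU.Z_Gap
import Pool.Agent.Lib.MP_2c6f70_nt.RU.Z_Pt
import Pool.Agent.Lib.MP_17a322_nt.VJ.MW4

/-!
# Block BZ: few occurrences of a star shape
-/

set_option autoImplicit false

namespace Pool.Agent.Lib.MP_2c6f70_nt.RU

open Height Filter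
open Pool.Agent.Lib.MP_17a322_nt.VJ

theorem Z_Main_zd (h : Fin 3 → ℤ) (N : ℕ) (hh : ∀ i, |h i| ≤ N) : |zd h| ≤ (N : ℤ) ^ 3 := by
  rw [zd, abs_mul, abs_mul]
  calc |h 0| * |h 1| * |h 2| ≤ (N : ℤ) * N * N :=
        mul_le_mul (mul_le_mul (hh 0) (hh 1) (abs_nonneg _) (by positivity)) (hh 2) (abs_nonneg _)
          (by positivity)
    _ = (N : ℤ) ^ 3 := by ring

theorem Z_Main_mul (h : Fin 3 → ℤ) (N : ℕ) (hh : ∀ i, |h i| ≤ N) (i j : Fin 3) :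
    |h i * h j| ≤ (N : ℤ) ^ 2 := by
  rw [abs_mul, sq]
  exact mul_le_mul (hh i) (hh j) (abs_nonneg _) (by positivity)

theorem Z_Main_zA (h : Fin 3 → ℤ) (N : ℕ) (hh : ∀ i, |h i| ≤ N) : |zA h| ≤ 3 * (N : ℤ) ^ 2 := by
  have h1 := Z_Main_mul h N hh 0 1
  have h2 := Z_Main_mul h N hh 0 2
  have h3 := Z_Main_mul h N hh 1 2
  rw [zA]
  rw [abs_le] at *
  constructor <;> linarith [h1.1, h1.2, h2.1, h2.2, h3.1, h3.2]

theorem Z_Main_zB (h : Fin 3 → ℤ) (N : ℕ) (hh : ∀ i, |h i| ≤ N) : |zB h| ≤ 3 * (N : ℤ) ^ 4 := by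
  have h1 := Z_Main_zd h N hh
  have h2 : |h 0 + h 1 + h 2| ≤ 3 * (N : ℤ) := by
    have h3 := hh 0
    have h4 := hh 1
    have h5 := hh 2
    rw [abs_le] at *
    constructor <;> linarith [h3.1, h3.2, h4.1, h4.2, h5.1, h5.2]
  rw [zB, abs_mul]
  calc |zd h| * |h 0 + h 1 + h 2| ≤ (N : ℤ) ^ 3 * (3 * (N : ℤ)) :=
        mul_le_mul h1 h2 (abs_nonneg _) (by positivity)
    _ = 3 * (N : ℤ) ^ 4 := by ring

theorem Z_Main_zC (h : Fin 3 → ℤ) (N : ℕ) (hh : ∀ i, |h i| ≤ N) : |zC h| ≤ (N : ℤ) ^ 6 := by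
  have h1 := Z_Main_zd h N hh
  rw [zC, abs_pow]
  calc |zd h| ^ 2 ≤ ((N : ℤ) ^ 3) ^ 2 := pow_le_pow_left₀ (abs_nonneg _) h1 2
    _ = (N : ℤ) ^ 6 := by ring

theorem Z_Main_zd_ne (h : Fin 3 → ℤ) (h0 : ∀ i, h i ≠ 0) : zd h ≠ 0 :=
  mul_ne_zero (mul_ne_zero (h0 0) (h0 1)) (h0 2)

/-- the differences of the roots -/
theorem Z_Main_D (h : Fin 3 → ℤ) (N : ℕ) (hN : 2 ≤ N) (hh : ∀ i, |h i| ≤ N) :
    (((ze h 0 - ze h 1) * (ze h 0 - ze h 2) * (ze h 1 - ze h 2)).natAbs : ℝ) ≤ (N : ℝ) ^ (9 : ℕ) := by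
  have h1 := Z_Main_mul h N hh 0 1
  have h2 := Z_Main_mul h N hh 0 2
  have h3 := Z_Main_mul h N hh 1 2
  have e01 : |ze h 0 - ze h 1| ≤ 2 * (N : ℤ) ^ 2 := by
    simp only [ze, Matrix.cons_val_zero, Matrix.cons_val_one]
    rw [abs_le] at *
    constructor <;> linarith [h1.1, h1.2, h2.1, h2.2, h3.1, h3.2]
  have e02 : |ze h 0 - ze h 2| ≤ 2 * (N : ℤ) ^ 2 := by
    simp only [ze, Matrix.cons_val_zero, Matrix.cons_val]
    rw [abs_le] at *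
    constructor <;> linarith [h1.1, h1.2, h2.1, h2.2, h3.1, h3.2]
  have e12 : |ze h 1 - ze h 2| ≤ 2 * (N : ℤ) ^ 2 := by
    simp only [ze, Matrix.cons_val_one, Matrix.cons_val]
    rw [abs_le] at *
    constructor <;> linarith [h1.1, h1.2, h2.1, h2.2, h3.1, h3.2]
  have e : |(ze h 0 - ze h 1) * (ze h 0 - ze h 2) * (ze h 1 - ze h 2)| ≤ (N : ℤ) ^ 9 := by
    rw [abs_mul, abs_mul]
    have hN' : (2 : ℤ) ≤ N := by exact_mod_cast hN
    calc |ze h 0 - ze h 1| * |ze h 0 - ze h 2| * |ze h 1 - ze h 2|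
        ≤ (2 * (N : ℤ) ^ 2) * (2 * (N : ℤ) ^ 2) * (2 * (N : ℤ) ^ 2) :=
          mul_le_mul (mul_le_mul e01 e02 (abs_nonneg _) (by positivity)) e12 (abs_nonneg _)
            (by positivity)
      _ = 2 ^ 3 * (N : ℤ) ^ 6 := by ring
      _ ≤ (N : ℤ) ^ 3 * (N : ℤ) ^ 6 :=
          mul_le_mul_of_nonneg_right (pow_le_pow_left₀ (by norm_num) hN' 3) (by positivity)
      _ = (N : ℤ) ^ 9 := by ring
  rw [Nat.cast_natAbs]
  exact_mod_cast e

/-- Section 8 of the paper (Bombieri - Zannier). -/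
theorem shape_count (η : ℝ) (hη : 0 < η) :
    ∃ N₀ : ℕ, ∀ N ≥ N₀, ∀ q a : ℕ, 1 ≤ a → Nat.Coprime q a → (N : ℝ) ^ (1 / 4 : ℝ) ≤ Real.log q →
      ∀ h : Fin 3 → ℤ, Function.Injective h → (∀ i, h i ≠ 0) → (∀ i, |h i| ≤ N) →
      ∀ T : Finset (ℕ × ℕ),
        (∀ t ∈ T, 1 ≤ t.1 ∧ t.1 ≤ N ∧ t.2 < N ∧ IsSquare (q * t.2 + a) ∧
          ∀ i, 0 < (q : ℤ) * (t.2 + t.1 * h i) + a ∧ IsSquare ((q : ℤ) * (t.2 + t.1 * h i) + a)) →
        (T.card : ℝ) ≤ (N : ℝ) ^ η := by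
  classical
  obtain ⟨cC, hcC, HC⟩ := Z_canonical
  obtain ⟨cG, hcG, HG⟩ := Z_gap
  obtain ⟨cH, hcH, HH⟩ := Z_height
  obtain ⟨Cω, hCω, Hω⟩ := Z_omega 512 (η / 18) (by positivity)
  set K₀ : ℝ := 6 * (cH + cG + 8 * cC) with hK₀
  have hK₀pos : 0 < K₀ := by positivity
  have ev1 : ∀ᶠ x : ℝ in atTop, K₀ * Real.log x ≤ x ^ (1 / 4 : ℝ) := by
    have h1 := (isLittleO_log_rpow_atTop (r := (1 / 4 : ℝ)) (by norm_num)).bound
      (inv_pos.2 hK₀pos)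
    filter_upwards [h1, eventually_ge_atTop (1 : ℝ)] with x hx hx1
    rw [Real.norm_eq_abs, Real.norm_eq_abs, abs_of_nonneg (Real.log_nonneg hx1),
      abs_of_nonneg (Real.rpow_nonneg (by linarith) _)] at hx
    calc K₀ * Real.log x ≤ K₀ * (K₀⁻¹ * x ^ (1 / 4 : ℝ)) :=
          mul_le_mul_of_nonneg_left hx hK₀pos.le
      _ = x ^ (1 / 4 : ℝ) := by rw [← mul_assoc, mul_inv_cancel₀ hK₀pos.ne', one_mul]
  have ev2 : ∀ᶠ x : ℝ in atTop, Real.log x ≤ x ^ (1 / 4 : ℝ) := by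
    have h1 := (isLittleO_log_rpow_atTop (r := (1 / 4 : ℝ)) (by norm_num)).bound one_pos
    filter_upwards [h1, eventually_ge_atTop (1 : ℝ)] with x hx hx1
    rw [Real.norm_eq_abs, Real.norm_eq_abs, abs_of_nonneg (Real.log_nonneg hx1),
      abs_of_nonneg (Real.rpow_nonneg (by linarith) _), one_mul] at hx
    exact hx
  have ev3 : ∀ᶠ x : ℝ in atTop, 44 ^ 3 * Cω ≤ x ^ (η / 2) :=
    (tendsto_rpow_atTop (by positivity)).eventually_ge_atTop _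
  have ev := ((ev1.and ev2).and ev3).and (eventually_ge_atTop (2 : ℝ))
  have evN := tendsto_natCast_atTop_atTop (R := ℝ) |>.eventually ev
  obtain ⟨N₀, hN₀⟩ := eventually_atTop.1 evN
  refine ⟨N₀, ?_⟩
  intro N hN q a ha hqa hq h hinj h0 hh T hT
  obtain ⟨⟨⟨e1, e2⟩, e3⟩, e4⟩ := hN₀ N hN
  have hN2 : 2 ≤ N := by exact_mod_cast e4
  have hNpos : (0 : ℝ) < N := by linarith
  have hL : 0 < Real.log N := Real.log_pos (by linarith)
  have hq0 : 0 < q := by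
    rcases Nat.eq_zero_or_pos q with hq0 | hq0
    · exfalso
      rw [hq0, Nat.cast_zero, Real.log_zero] at hq
      have : 0 < (N : ℝ) ^ (1 / 4 : ℝ) := Real.rpow_pos_of_pos hNpos _
      linarith
    · exact hq0
  have hNq : N ≤ q := by
    have h1 : Real.log N ≤ Real.log q := e2.trans hq
    have h2 := (Real.log_le_log_iff hNpos (by exact_mod_cast hq0)).1 h1
    exact_mod_cast h2
  have hell := ZE_isElliptic h hinj h0
  set W : ℝ := Real.log (max q a : ℕ) with hW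
  have hWq : Real.log q ≤ W :=
    Real.log_le_log (by exact_mod_cast hq0) (by exact_mod_cast le_max_left q a)
  have hWL : K₀ * Real.log N ≤ W := (e1.trans hq).trans hWq
  have hWpos : 0 < W := lt_of_lt_of_le (mul_pos hK₀pos hL) hWL
  -- the canonical height
  set M : ℝ := 3 * (N : ℝ) ^ 6 with hM
  have hN1 : (1 : ℝ) ≤ N := by linarith
  have hM2 : 2 ≤ M := by
    have : (1 : ℝ) ≤ (N : ℝ) ^ 6 := one_le_pow₀ hN1
    linarith
  have hMA : |((zA h : ℤ) : ℝ)| ≤ M := by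
    have h1 : |((zA h : ℤ) : ℝ)| ≤ 3 * (N : ℝ) ^ 2 := by exact_mod_cast Z_Main_zA h N hh
    have h2 : (N : ℝ) ^ 2 ≤ (N : ℝ) ^ 6 := pow_le_pow_right₀ hN1 (by norm_num)
    linarith
  have hMB : |((zB h : ℤ) : ℝ)| ≤ M := by
    have h1 : |((zB h : ℤ) : ℝ)| ≤ 3 * (N : ℝ) ^ 4 := by exact_mod_cast Z_Main_zB h N hh
    have h2 : (N : ℝ) ^ 4 ≤ (N : ℝ) ^ 6 := pow_le_pow_right₀ hN1 (by norm_num)
    linarith
  have hMC : |((zC h : ℤ) : ℝ)| ≤ M := by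
    have h1 : |((zC h : ℤ) : ℝ)| ≤ (N : ℝ) ^ 6 := by exact_mod_cast Z_Main_zC h N hh
    have h2 : (0 : ℝ) ≤ (N : ℝ) ^ 6 := by positivity
    linarith
  have hMlog : Real.log M ≤ 8 * Real.log N := by
    have h1 : M ≤ (N : ℝ) ^ 8 := by
      have h3 : (4 : ℝ) ≤ (N : ℝ) ^ 2 := by nlinarith
      have h4 : (0 : ℝ) ≤ (N : ℝ) ^ 6 := by positivity
      calc M ≤ (N : ℝ) ^ 2 * (N : ℝ) ^ 6 := mul_le_mul_of_nonneg_right (by linarith) h4
        _ = (N : ℝ) ^ 8 := by ring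
    calc Real.log M ≤ Real.log ((N : ℝ) ^ 8) := Real.log_le_log (by linarith) h1
      _ = 8 * Real.log N := by rw [Real.log_pow]; norm_num
  have hell' : (ZW (zA h) (zB h) (zC h)).IsElliptic := hell
  obtain ⟨Q, hQ1, hQ2, hQ3⟩ : ∃ q : (ZE h).toAffine.Point → ℝ,
      (∀ P, |q P - logHeight P.xRep| ≤ cC * Real.log M) ∧
      (∀ P, 0 ≤ q P) ∧ ∀ P Q, q (P + Q) + q (P - Q) = 2 * q P + 2 * q Q :=
    HC (zA h) (zB h) (zC h) M hM2 hMA hMB hMC hell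
  have hQ1' : ∀ P : (ZE h).toAffine.Point, |Q P - logHeight P.xRep| ≤ 8 * cC * Real.log N := by
    intro P
    refine (hQ1 P).trans ?_
    calc cC * Real.log M ≤ cC * (8 * Real.log N) := mul_le_mul_of_nonneg_left hMlog hcC.le
      _ = 8 * cC * Real.log N := by ring
  -- the points
  have hpt : ∀ t ∈ T, ∃ P : (ZE h).toAffine.Point, P ≠ 0 ∧ P.xRep 0 = zx h q a t.1 t.2 := by
    intro t ht
    obtain ⟨_, _, _, h4, h5⟩ := hT t ht
    exact Z_point h hinj h0 q a t.1 t.2 ha h4 (fun i => (h5 i).2)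
  let f : ℕ × ℕ → (ZE h).toAffine.Point := fun t => if ht : t ∈ T then (hpt t ht).choose else 0
  have hf : ∀ t ∈ T, f t ≠ 0 ∧ (f t).xRep 0 = zx h q a t.1 t.2 := by
    intro t ht
    have h1 : f t = (hpt t ht).choose := dif_pos ht
    rw [h1]
    exact (hpt t ht).choose_spec
  have hfx : ∀ t ∈ T, ∀ t' ∈ T, (f t).xRep 0 = (f t').xRep 0 → t = t' := by
    intro t ht t' ht' he
    rw [(hf t ht).2, (hf t' ht').2] at he
    obtain ⟨h1, h2, _, _, _⟩ := hT t ht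
    obtain ⟨h1', h2', _, _, _⟩ := hT t' ht'
    obtain ⟨e5, e6⟩ := Z_inj h h0 q a N t.1 t.2 t'.1 t'.2 ha hqa hNq h1 h2 h1' h2' he
    exact Prod.ext e5 e6
  have hcard : (T.image f).card = T.card := by
    refine Finset.card_image_of_injOn ?_
    intro t ht t' ht' he
    exact hfx t ht t' ht' (by rw [he])
  have hht : ∀ t ∈ T, |logHeight (f t).xRep - W| ≤ cH * Real.log N := by
    intro t ht
    obtain ⟨h1, h2, h3, _, _⟩ := hT t ht
    rw [logHeight_xRep (hf t ht).1, (hf t ht).2]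
    exact HH N h q a t.1 t.2 hN2 h0 hh hq0 ha hqa h1 h2 h3
  have hFG : AddGroup.FG (ZE h).toAffine.Point := mordell_weil (ZE h)
  obtain ⟨U, hU1, hU2⟩ := Z_descent (ze h) (ze_injective h hinj h0) (ZE h) (ZE_FT h)
  have hpack := Z_pack Q hQ2 hQ3 U hU2 (T.image f) (W / 3) (by linarith) (by
    intro P hP
    obtain ⟨t, ht, rfl⟩ := Finset.mem_image.1 hP
    have h1 := (abs_le.1 (hQ1' (f t))).2
    have h2 := (abs_le.1 (hht t ht)).2
    have h3 : (cH + 8 * cC) * Real.log N ≤ W / 3 := by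
      have h4 : 0 ≤ (3 * cH + 6 * cG + 24 * cC) * Real.log N := by positivity
      rw [hK₀] at hWL
      nlinarith [h4, hWL]
    linarith) (by
    intro P hP P' hP' hne
    obtain ⟨t, ht, rfl⟩ := Finset.mem_image.1 hP
    obtain ⟨t', ht', rfl⟩ := Finset.mem_image.1 hP'
    have hxne : (f t).xRep 0 ≠ (f t').xRep 0 := by
      intro he
      exact hne (by rw [hfx t ht t' ht' he])
    obtain ⟨hd0, hrel⟩ : f t - f t' ≠ 0 ∧
        ZG (zA h) (zB h) (zC h) ((f t - f t').xRep 0) ((f t).xRep 0) ((f t').xRep 0) = 0 :=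
      Z_rel (zA h) (zB h) (zC h) (f t) (f t') (hf t ht).1 (hf t' ht').1 hxne
    obtain ⟨h1, h2, h3, _, _⟩ := hT t ht
    obtain ⟨h1', h2', h3', _, _⟩ := hT t' ht'
    have hδ : (zd h : ℚ) ≠ 0 := Int.cast_ne_zero.2 (Z_Main_zd_ne h h0)
    have hqQ : (q : ℚ) ≠ 0 := Nat.cast_ne_zero.2 hq0.ne'
    have haQ : (0 : ℚ) < a := by exact_mod_cast ha
    have hx : ∀ s ∈ T, (f s).xRep 0 ≠ 0 ∧
        (s.1 : ℚ) * ((zd h : ℚ) / (f s).xRep 0) = s.2 + (a : ℚ) / q := by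
      intro s hs
      obtain ⟨g1, _, _, _, _⟩ := hT s hs
      have g2 : (s.1 : ℚ) ≠ 0 := Nat.cast_ne_zero.2 (by omega)
      have g3 : (q : ℚ) * s.2 + a ≠ 0 := by positivity
      rw [(hf s hs).2, zx]
      constructor
      · exact div_ne_zero (mul_ne_zero (mul_ne_zero hδ hqQ) g2) g3
      · field_simp
    have hm : (t'.1 : ℚ) * ((zd h : ℚ) / (f t').xRep 0) - t.1 * ((zd h : ℚ) / (f t).xRep 0) =
        (((t'.2 : ℤ) - t.2 : ℤ) : ℚ) := by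
      rw [(hx t' ht').2, (hx t ht).2]
      push_cast
      ring
    have hmb : |((t'.2 : ℤ) - t.2 : ℤ)| ≤ (N : ℤ) := by
      rw [abs_le]
      constructor <;> omega
    have hgap := HG N (zd h) (zA h) (zB h) t.1 t'.1 ((t'.2 : ℤ) - t.2) ((f t).xRep 0)
      ((f t').xRep 0) ((f t - f t').xRep 0) hN2 (Z_Main_zd_ne h h0) (Z_Main_zd h N hh)
      (Z_Main_zA h N hh) (Z_Main_zB h N hh) h1 h2 h1' h2' hmb (hx t ht).1 (hx t' ht').1 hm (by
        rw [zC] at hrel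
        push_cast at hrel
        exact hrel)
    rw [← logHeight_xRep (hf t ht).1, ← logHeight_xRep hd0] at hgap
    have h5 := (abs_le.1 (hQ1' (f t - f t'))).1
    have h6 := (abs_le.1 (hht t ht)).1
    have h7 : (cH + cG + 16 * cC) * Real.log N ≤ W / 3 := by
      have h8 : 0 ≤ (3 * cH + 3 * cG) * Real.log N := by positivity
      rw [hK₀] at hWL
      nlinarith [h8, hWL]
    linarith)
  rw [hcard] at hpack
  have hω := Hω ((ze h 0 - ze h 1) * (ze h 0 - ze h 2) * (ze h 1 - ze h 2)).natAbs (by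
    have hi := ze_injective h hinj h0
    rw [Int.natAbs_ne_zero]
    refine mul_ne_zero (mul_ne_zero (sub_ne_zero.2 (hi.ne (by decide)))
      (sub_ne_zero.2 (hi.ne (by decide)))) (sub_ne_zero.2 (hi.ne (by decide))))
  have hDle := Z_Main_D h N hN2 hh
  set ω := ((ze h 0 - ze h 1) * (ze h 0 - ze h 2) * (ze h 1 - ze h 2)).natAbs.primeFactors.card
    with hωdef
  set Dn : ℕ := ((ze h 0 - ze h 1) * (ze h 0 - ze h 2) * (ze h 1 - ze h 2)).natAbs with hDn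
  have h1 : (T.card : ℝ) ≤ (44 * 8 ^ ω : ℝ) ^ 3 := by
    have h2 : T.card ≤ (44 * 8 ^ ω) ^ 3 := hpack.trans (Nat.pow_le_pow_left hU1 3)
    exact_mod_cast h2
  have h2 : (Dn : ℝ) ^ (η / 18) ≤ (N : ℝ) ^ (η / 2) := by
    calc (Dn : ℝ) ^ (η / 18) ≤ ((N : ℝ) ^ (9 : ℕ)) ^ (η / 18) :=
          Real.rpow_le_rpow (Nat.cast_nonneg _) hDle (by positivity)
      _ = (N : ℝ) ^ (η / 2) := by
          rw [← Real.rpow_natCast, ← Real.rpow_mul hNpos.le]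
          congr 1
          push_cast
          ring
  calc (T.card : ℝ) ≤ (44 * 8 ^ ω : ℝ) ^ 3 := h1
    _ = 44 ^ 3 * (512 : ℝ) ^ ω := by
        rw [mul_pow, ← pow_mul, mul_comm ω 3, pow_mul]
        norm_num
    _ ≤ 44 ^ 3 * (Cω * (Dn : ℝ) ^ (η / 18)) := by
        refine mul_le_mul_of_nonneg_left ?_ (by norm_num)
        exact_mod_cast hω
    _ ≤ 44 ^ 3 * (Cω * (N : ℝ) ^ (η / 2)) := by
        refine mul_le_mul_of_nonneg_left (mul_le_mul_of_nonneg_left h2 hCω.le) (by norm_num)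
    _ = (44 ^ 3 * Cω) * (N : ℝ) ^ (η / 2) := by ring
    _ ≤ (N : ℝ) ^ (η / 2) * (N : ℝ) ^ (η / 2) :=
        mul_le_mul_of_nonneg_right e3 (Real.rpow_nonneg hNpos.le _)
    _ = (N : ℝ) ^ η := by
        rw [← Real.rpow_add hNpos]
        congr 1
        ring

end Pool.Agent.Lib.MP_2c6f70_nt.RU
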