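import Pool.Agent.Lib.MP_2c6f70_nt.RU.Defs
import Pool.Agent.Lib.MP_2c6f70_nt.RU.Z_Main

/-!
# INTERFACE of block BZ: `shape_count` is proved in `Z_Main.lean`
-/
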