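import Pool.Agent.Lib.MP_2c6f70_nt.RU.LSB
import Pool.Agent.Lib.MP_2c6f70_nt.RU.FC
import Pool.Agent.Lib.MP_2c6f70_nt.RU.IBZ

/-!
# JOB FGB: the bad pairs of indices; occurrences of a shape

`bad_pairs`.  `nn q a` is injective on `V ⊆ S` (`nn_inj`).  If `(nn x, nn y)` is a pair of different indices with `exc P ω (dist) > κ₀ #P`, `dist = dn q a x y`, then `X = P.filter (jacobiSym (dn) p ≠ ω p)` has more than `κ₀ #P` elements
(`exc` is the cardinality of `X`), so by `hX` (contrapositive) `∑_X wp > κ log q`, and `X ⊆ G.filter (..)`, `wp ≥ 0` (`wp_nonneg` of `DC.lean` or: `wp q p = log (mr q p) ≥ 0` since `mr q p ≥ 1` or `= 0`: `Real.log_natCast_nonneg`):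
`(x, y)` is exceptional.  So the bad pairs are contained in the image of the exceptional pairs under `(x, y) ↦ (nn x, nn y)`.

`shape_occ`.  Fix `h`, a shape of some `u₀ ∈ 𝒰`; `shapes_props` (with `u₀`): `h` injective, `h i ≠ 0`, `|h i| ≤ u₀ |h i| < N`.  `T = {(u, n) ∈ 𝒰 × 𝒱 : ∀ i, ∃ m ∈ 𝒱, m = n + u h i}`, `𝒱 = V.image (nn q a)`.  `shape_count δ` applies to `T`: `n = nn x < N`, `x^2 = a + q n`
(`nn_spec`) so `IsSquare (q n + a)`; `m = nn y`: `q (n + u h i) + a = q m + a = y^2` as integers, positive since `a ≥ 1`.  (`1 ≤ a`, `Nat.Coprime q a` from `Ctx`.)  So `#T ≤ N^δ`.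
First claim: `n ↦ (u, n)` injects the filter into `T`.  Second claim: for every `u` with `h ∈ shapes 𝒱 u R` the last part of `shapes_props` gives `n` with `(u, n) ∈ T`: `u ↦ (u, n_u)` is injective
(or: the set of these `u` is contained in the image of `T` under `Prod.fst`).
-/

set_option autoImplicit false

namespace Pool.Agent.Lib.MP_2c6f70_nt.RU

open Pool.Agent.Lib.MP_2c6f70_nt Pool.Agent.Lib.MP_2c6f70_nt.KW

private theorem FGB_wp_nonneg (q p : ℕ) : 0 ≤ wp q p := by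
  unfold wp
  exact Real.log_natCast_nonneg _

open Classical in
theorem bad_pairs {q a N : ℕ} {S V G P : Finset ℕ} {ω : ℕ → ℤ} {D κ κ₀ : ℝ} (h : Ctx q a N S) (hV : V ⊆ S)
    (hG : G ⊆ q.primeFactors) (hP : P ⊆ G)
    (hX : ∀ X ⊆ P, ∑ p ∈ X, wp q p ≤ κ * Real.log q → (X.card : ℝ) ≤ κ₀ * P.card)
    (hbad : (((pairs V).filter (fun t => κ * Real.log q <
      ∑ p ∈ G.filter (fun p => jacobiSym (dn q a t.1 t.2) p ≠ ω p), wp q p)).card : ℝ) ≤ D) :
    (((pairs (V.image (nn q a))).filter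
      (fun t => ¬ ((exc P ω (Nat.dist t.1 t.2) : ℝ) ≤ κ₀ * P.card))).card : ℝ) ≤ D := by
  refine le_trans ?_ hbad
  have hsub : (pairs (V.image (nn q a))).filter
      (fun t => ¬ ((exc P ω (Nat.dist t.1 t.2) : ℝ) ≤ κ₀ * P.card)) ⊆
      ((pairs V).filter (fun t => κ * Real.log q <
        ∑ p ∈ G.filter (fun p => jacobiSym (dn q a t.1 t.2) p ≠ ω p), wp q p)).image
        (fun t => (nn q a t.1, nn q a t.2)) := by
    rintro ⟨m, n⟩ ht
    rw [Finset.mem_filter] at ht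
    obtain ⟨ht1, ht2⟩ := ht
    unfold pairs at ht1
    rw [Finset.mem_filter, Finset.mem_product] at ht1
    obtain ⟨⟨hm, hn⟩, hne⟩ := ht1
    obtain ⟨x, hx, hxm⟩ := Finset.mem_image.mp hm
    obtain ⟨y, hy, hyn⟩ := Finset.mem_image.mp hn
    dsimp only at hxm hyn hne ht2
    refine Finset.mem_image.mpr ⟨(x, y), ?_, ?_⟩
    · rw [Finset.mem_filter]
      refine ⟨?_, ?_⟩
      · unfold pairs
        rw [Finset.mem_filter, Finset.mem_product]
        refine ⟨⟨hx, hy⟩, ?_⟩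
        intro hxy
        dsimp only at hxy
        apply hne
        rw [← hxm, ← hyn, hxy]
      · dsimp only
        by_contra hcon
        rw [not_lt] at hcon
        apply ht2
        unfold exc
        refine hX _ (Finset.filter_subset _ _) ?_
        refine le_trans ?_ hcon
        refine Finset.sum_le_sum_of_subset_of_nonneg ?_ (fun p _ _ => FGB_wp_nonneg q p)
        intro p hp
        rw [Finset.mem_filter] at hp ⊢
        refine ⟨hP hp.1, ?_⟩
        have hd : dn q a x y = Nat.dist m n := by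
          unfold dn
          rw [hxm, hyn]
        rw [hd]
        exact hp.2
    · dsimp only
      rw [hxm, hyn]
  calc (((pairs (V.image (nn q a))).filter
      (fun t => ¬ ((exc P ω (Nat.dist t.1 t.2) : ℝ) ≤ κ₀ * P.card))).card : ℝ)
      ≤ ((((pairs V).filter (fun t => κ * Real.log q <
        ∑ p ∈ G.filter (fun p => jacobiSym (dn q a t.1 t.2) p ≠ ω p), wp q p)).image
        (fun t => (nn q a t.1, nn q a t.2))).card : ℝ) := by
        exact_mod_cast Finset.card_le_card hsub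
    _ ≤ _ := by exact_mod_cast Finset.card_image_le

open Classical in
theorem shape_occ (δ : ℝ) (hδ : 0 < δ) : ∃ N₀ : ℕ, ∀ N ≥ N₀, ∀ (q a : ℕ) (S V : Finset ℕ),
    Ctx q a N S → (N : ℝ) ^ (1 / 4 : ℝ) ≤ Real.log q → V ⊆ S →
    ∀ (𝒰 : Finset ℕ) (R : ℕ → Prop), (∀ u ∈ 𝒰, 1 ≤ u ∧ u ≤ N) →
    ∀ h : Fin 3 → ℤ, (∃ u ∈ 𝒰, h ∈ shapes (V.image (nn q a)) u R) →
      (∀ u ∈ 𝒰, (((V.image (nn q a)).filter
        (fun n => ∀ i, ∃ m ∈ V.image (nn q a), (m : ℤ) = n + u * h i)).card : ℝ) ≤ (N : ℝ) ^ δ) ∧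
      ((𝒰.filter (fun u => h ∈ shapes (V.image (nn q a)) u R)).card : ℝ) ≤ (N : ℝ) ^ δ := by
  obtain ⟨N₀, hN₀⟩ := shape_count δ hδ
  refine ⟨N₀, fun N hN q a S V hC hlog hV 𝒰 R h𝒰 h hex => ?_⟩
  set W := V.image (nn q a) with hW
  have hWN : ∀ n ∈ W, n < N := by
    intro n hn
    obtain ⟨x, hx, rfl⟩ := Finset.mem_image.mp hn
    exact (nn_spec hC (hV hx)).1
  obtain ⟨u₀, hu₀, hh₀⟩ := hex
  obtain ⟨hinj, hne, hlt, -, -⟩ := shapes_props (h𝒰 u₀ hu₀).1 hWN hh₀
  have hle : ∀ i, |h i| ≤ (N : ℤ) := by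
    intro i
    have h1 := hlt i
    have h2 : (1 : ℤ) ≤ (u₀ : ℤ) := by exact_mod_cast (h𝒰 u₀ hu₀).1
    have h3 : 0 ≤ |h i| := abs_nonneg _
    nlinarith
  set T : Finset (ℕ × ℕ) := (𝒰 ×ˢ W).filter (fun t => ∀ i, ∃ m ∈ W, (m : ℤ) = t.2 + t.1 * h i) with hT
  have hTc : (T.card : ℝ) ≤ (N : ℝ) ^ δ := by
    refine hN₀ N hN q a hC.ha hC.cop hlog h hinj hne hle T ?_
    intro t ht
    rw [hT, Finset.mem_filter, Finset.mem_product] at ht
    obtain ⟨⟨ht1, ht2⟩, ht3⟩ := ht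
    have hsq : ∀ m ∈ W, IsSquare (q * m + a) := by
      intro m hm
      obtain ⟨x, hx, rfl⟩ := Finset.mem_image.mp hm
      refine ⟨x, ?_⟩
      have := (nn_spec hC (hV hx)).2
      nlinarith [this]
    refine ⟨(h𝒰 _ ht1).1, (h𝒰 _ ht1).2, hWN _ ht2, hsq _ ht2, fun i => ?_⟩
    obtain ⟨m, hm, hme⟩ := ht3 i
    rw [← hme]
    obtain ⟨y, hy⟩ := hsq m hm
    have hy' : (q : ℤ) * (m : ℤ) + a = y * y := by exact_mod_cast hy
    refine ⟨?_, ⟨(y : ℤ), hy'⟩⟩
    have h1 : (1 : ℤ) ≤ (a : ℤ) := by exact_mod_cast hC.ha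
    have h2 : (0 : ℤ) ≤ (q : ℤ) * (m : ℤ) := by positivity
    linarith
  refine ⟨fun u hu => ?_, ?_⟩
  · refine le_trans (Nat.cast_le.mpr (Finset.card_le_card_of_injOn (t := T)
      (fun z : ℤ => (u, z.toNat)) ?_ ?_)) hTc
    · intro z hz
      have hz' := Finset.mem_filter.mp (Finset.mem_coe.mp hz)
      obtain ⟨hz1, hz2⟩ := hz'
      simp only [Finset.bind_def, Finset.pure_def, Finset.mem_sup, Finset.mem_singleton] at hz1
      obtain ⟨n, hn, rfl⟩ := hz1
      rw [Finset.mem_coe, hT, Finset.mem_filter, Finset.mem_product]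
      dsimp only
      rw [Int.toNat_natCast]
      exact ⟨⟨hu, hn⟩, hz2⟩
    · intro z hz w hw hzw
      have hz' := Finset.mem_filter.mp (Finset.mem_coe.mp hz)
      have hw' := Finset.mem_filter.mp (Finset.mem_coe.mp hw)
      obtain ⟨hz1, -⟩ := hz'
      obtain ⟨hw1, -⟩ := hw'
      simp only [Finset.bind_def, Finset.pure_def, Finset.mem_sup, Finset.mem_singleton] at hz1 hw1
      obtain ⟨n, hn, rfl⟩ := hz1
      obtain ⟨m, hm, rfl⟩ := hw1
      have h5 := (Prod.mk.inj hzw).2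
      rw [Int.toNat_natCast, Int.toNat_natCast] at h5
      rw [h5]
  · refine le_trans ?_ hTc
    have : (𝒰.filter (fun u => h ∈ shapes W u R)).card ≤ T.card := by
      calc (𝒰.filter (fun u => h ∈ shapes W u R)).card ≤ (T.image Prod.fst).card := by
            refine Finset.card_le_card ?_
            intro u hu
            rw [Finset.mem_filter] at hu
            obtain ⟨-, -, -, -, n, hn, hn2⟩ := shapes_props (h𝒰 u hu.1).1 hWN hu.2
            refine Finset.mem_image.mpr ⟨(u, n), ?_, rfl⟩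
            rw [hT, Finset.mem_filter, Finset.mem_product]
            exact ⟨⟨hu.1, hn⟩, hn2⟩
        _ ≤ T.card := Finset.card_image_le
    exact_mod_cast this

end Pool.Agent.Lib.MP_2c6f70_nt.RU
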