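import Pool.Agent.Lib.MP_2c6f70_nt.RU.T_Main

/-!
# Block T: few integers have prescribed Legendre symbols

`quasi_count` is proved in `T_Main`.
-/
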