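import Pool.Agent.Lib.MP_2c6f70_nt.RU.FA
import Pool.Agent.Lib.MP_2c6f70_nt.RU.FE
import Pool.Agent.Lib.MP_2c6f70_nt.RU.FGA
import Pool.Agent.Lib.MP_2c6f70_nt.RU.FGB
import Pool.Agent.Lib.MP_2c6f70_nt.RU.DE
import Pool.Agent.Lib.MP_2c6f70_nt.RU.IT

/-!
# JOB FG: there is no extremal configuration

`relation_bound`: everything after the choice of the prime set.  `𝒱` = the indices, `R d ↔ exc P ω d ≤ κ₀ #P`.
`star_family`: `𝒰`.  `shape_occ`, `shapes_ge` (`K₀ = N^δ`): `N^(1/2+101δ)/512 ≤ #(shapes 𝒱 u R)` for `u ∈ 𝒰`.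
`H = ⌈N / N^(1/2+97δ)⌉ ≤ 2 N^(1/2 - 97 δ)`; `shapes_props`: `u |h_i| < N` gives `|h_i| < N/u ≤ H`, `R (u |h_i|)`: `h_i ∈ Hs P ω H κ₀ u`.
`hSh2` of `many_edges` for arbitrary `h`: if `h` is a shape of no `u ∈ 𝒰` the filter is empty, otherwise `shape_occ`.
`lam = N^δ`, `T ≥ 2/δ`, `lam^T ≥ N^2 ≥ 2 H`.  `many_edges`: `t < T`.  `N' = ⌈2 N^(1+δ)⌉ ≤ 3 N^(1+δ)`, `u H ≤ N^(1/2+98δ) 2 N^(1/2-97δ) ≤ N'`, `N' ≤ 3 N^(1+δ) ≤ (N^(1/2+97δ))^3`.  `edges_le` with `κ = 3^t κ₀`.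
The result: with `σ = N^(1/2+101δ)/512`, `K₀ = lam = N^δ`:
`#𝒰/(2T) sqrt (#𝒰 σ/(2 T K₀ lam^3 (2H+1))) ≤ 4 #{d ∈ [1, N'] : exc P ω d ≤ 3^t κ₀ #P}`; `final_compare` (`u = #𝒰`) gives `N'^(3/4 - 24 δ) < #{..}` (by contradiction).

`no_extremal`.  `δ = ε/100 ≤ 1/400`.  `prime_set A ε`: `B, c₁, κ₁`.  `quasi_count (x := 1/4 + ε/4) (B := B) (c := 1/6) (η := δ)`: `κT`.  `T = ⌈2/δ⌉`, `κ₀ = κT / 3^T`, `κ = min κ₁ (κ₀ c₁)`.  `near_clique ε κ δ`: `C`.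
For large `N`: `log q ≥ N^(1/4)` (`many_primes`).  `z` = any element of `S`.  `V, G, ω` from `near_clique`; `(1 - κ₁) log q ≤ (1 - κ) log q ≤ ∑_G wp`; `P ⊆ G`, `Z` from `prime_set`; `hX`: `∑_X wp ≤ κ log q` gives `#X ≤ (κ/c₁) #P ≤ κ₀ #P`.
`bad_pairs`, `relation_bound`: `N'^(3/4 - 24 δ) < #{d ≤ N' : exc P ω d ≤ 3^t κ₀ #P}`, `3^t κ₀ ≤ κT`; `quasi_count` at `N'`: `Z ≤ N^B ≤ N'^B`, `Z^(1/4+ε/4) ≤ #P`, `N'^(1/6) ≤ N^(1/5) ≤ #P`: the number is `≤ N'^(1 - x + δ) = N'^(3/4 - 25 δ + δ)`.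
-/

set_option autoImplicit false

namespace Pool.Agent.Lib.MP_2c6f70_nt.RU

open Pool.Agent.Lib.MP_2c6f70_nt Pool.Agent.Lib.MP_2c6f70_nt.KW

theorem relation_bound (δ C : ℝ) (hδ : 0 < δ) (hδ1 : δ ≤ 1 / 400) (T : ℕ) (hT : 2 / δ ≤ T) :
    ∃ N₀ : ℕ, ∀ N ≥ N₀, ∀ (q a : ℕ) (S V P : Finset ℕ) (ω : ℕ → ℤ) (κ₀ : ℝ),
    Ctx q a N S → (N : ℝ) ^ (1 / 4 : ℝ) ≤ Real.log q → V ⊆ S → (N : ℝ) ^ (1 / 2 + 99 * δ) ≤ (V.card : ℝ) →
    0 < κ₀ → (∀ p ∈ P, ω p = 1 ∨ ω p = -1) →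
    (((pairs (V.image (nn q a))).filter
      (fun t => ¬ ((exc P ω (Nat.dist t.1 t.2) : ℝ) ≤ κ₀ * P.card))).card : ℝ) ≤ C * N →
      ∃ t < T, ∃ N' : ℕ, N ≤ N' ∧ (N' : ℝ) ≤ 3 * (N : ℝ) ^ (1 + δ) ∧
        (N' : ℝ) ^ (3 / 4 - 24 * δ) <
          (((Finset.Icc 1 N').filter (fun d => (exc P ω d : ℝ) ≤ 3 ^ t * κ₀ * P.card)).card : ℝ) := by
  classical
  have hTpos : (0 : ℝ) < T := lt_of_lt_of_le (by positivity) hT
  have hT1 : 1 ≤ T := by exact_mod_cast hTpos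
  obtain ⟨N1, h1⟩ := star_family δ C hδ hδ1
  obtain ⟨N2, h2⟩ := shape_occ δ hδ
  obtain ⟨N3, h3⟩ := final_compare δ hδ hδ1 T hT1
  refine ⟨max (max N1 N2) (max N3 9), ?_⟩
  intro N hN q a S V P ω κ₀ hctx hlogq hVS hVcard hκ₀ hω hbad
  simp only [ge_iff_le, max_le_iff] at hN
  obtain ⟨⟨hN1, hN2⟩, hN3, hN9⟩ := hN
  have hN9' : (9 : ℝ) ≤ N := by exact_mod_cast hN9
  have hN0 : (0 : ℝ) < N := by linarith
  have hNone : (1 : ℝ) ≤ N := by linarith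
  set R : ℕ → Prop := fun d => (exc P ω d : ℝ) ≤ κ₀ * P.card with hR
  set W : Finset ℕ := V.image (nn q a) with hW
  have hWlt : ∀ n ∈ W, n < N := by
    intro n hn
    rw [hW, Finset.mem_image] at hn
    obtain ⟨x, hx, rfl⟩ := hn
    exact (nn_spec hctx (hVS hx)).1
  have hWcard : W.card = V.card := by
    rw [hW, Finset.card_image_of_injOn]
    exact (nn_inj hctx).mono (by exact_mod_cast hVS)
  obtain ⟨𝒰, h𝒰, h𝒰card, hstars⟩ := h1 N hN1 W R hWlt (by rw [hWcard]; exact hVcard) hbad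
  -- exponents
  set K₀ : ℝ := (N : ℝ) ^ δ with hK₀
  have hK₀pos : 0 < K₀ := Real.rpow_pos_of_pos hN0 _
  have hK₀1 : 1 ≤ K₀ := Real.one_le_rpow hNone hδ.le
  have h𝒰N : ∀ u ∈ 𝒰, 1 ≤ u ∧ u ≤ N := by
    intro u hu
    obtain ⟨hup, -, hu2⟩ := h𝒰 u hu
    refine ⟨hup.one_lt.le, ?_⟩
    have : (u : ℝ) ≤ N := by
      refine le_trans hu2 ?_
      calc (N : ℝ) ^ (1 / 2 + 98 * δ) ≤ (N : ℝ) ^ (1 : ℝ) :=
            Real.rpow_le_rpow_of_exponent_le hNone (by linarith)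
        _ = N := Real.rpow_one _
    exact_mod_cast this
  have hocc := h2 N hN2 q a S V hctx hlogq hVS 𝒰 R h𝒰N
  set H : ℕ := ⌈(N : ℝ) ^ (1 / 2 - 97 * δ)⌉₊ with hH
  set N' : ℕ := ⌈2 * (N : ℝ) ^ (1 + δ)⌉₊ with hN'
  have hHlow : (N : ℝ) ^ (1 / 2 - 97 * δ) ≤ H := Nat.le_ceil _
  have hpow1 : 1 ≤ (N : ℝ) ^ (1 / 2 - 97 * δ) := Real.one_le_rpow hNone (by linarith)
  have hHup : (H : ℝ) ≤ 2 * (N : ℝ) ^ (1 / 2 - 97 * δ) := by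
    have := Nat.ceil_lt_add_one (a := (N : ℝ) ^ (1 / 2 - 97 * δ)) (by positivity)
    linarith
  have hN'low : 2 * (N : ℝ) ^ (1 + δ) ≤ N' := Nat.le_ceil _
  have hpow2 : (N : ℝ) ≤ (N : ℝ) ^ (1 + δ) := by
    calc (N : ℝ) = (N : ℝ) ^ (1 : ℝ) := (Real.rpow_one _).symm
      _ ≤ _ := Real.rpow_le_rpow_of_exponent_le hNone (by linarith)
  have hN'up : (N' : ℝ) ≤ 3 * (N : ℝ) ^ (1 + δ) := by
    have := Nat.ceil_lt_add_one (a := 2 * (N : ℝ) ^ (1 + δ)) (by positivity)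
    linarith
  have hNN' : N ≤ N' := by
    have : (N : ℝ) ≤ N' := by linarith
    exact_mod_cast this
  have hlamT : 2 * (H : ℝ) ≤ K₀ ^ T := by
    have e1 : K₀ ^ T = (N : ℝ) ^ (δ * T) := by
      rw [hK₀, Real.rpow_mul hN0.le, Real.rpow_natCast]
    have e2 : (2 : ℝ) ≤ δ * T := by
      rw [div_le_iff₀ hδ] at hT
      linarith
    have e3 : (N : ℝ) ^ (2 : ℝ) ≤ (N : ℝ) ^ (δ * T) := Real.rpow_le_rpow_of_exponent_le hNone e2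
    have e4 : (N : ℝ) ^ (1 / 2 - 97 * δ) ≤ N := by
      calc (N : ℝ) ^ (1 / 2 - 97 * δ) ≤ (N : ℝ) ^ (1 : ℝ) :=
            Real.rpow_le_rpow_of_exponent_le hNone (by linarith)
        _ = N := Real.rpow_one _
    have e5 : (N : ℝ) ^ (2 : ℝ) = (N : ℝ) * N := by
      rw [show (2 : ℝ) = ((2 : ℕ) : ℝ) by norm_num, Real.rpow_natCast]; ring
    rw [e1]
    rw [e5] at e3
    nlinarith
  have hSh : ∀ u ∈ 𝒰, (N : ℝ) ^ (1 / 2 + 101 * δ) / 512 ≤ ((shapes W u R).card : ℝ) := by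
    intro u hu
    have ha := hstars u hu
    have hb := shapes_ge (V := W) (u := u) (R := R) (K₀ := K₀) (h𝒰N u hu).1 hK₀pos.le
      (fun h hh => (hocc h ⟨u, hu, hh⟩).1 u hu)
    have e1 : (N : ℝ) ^ (1 / 2 + 102 * δ) = K₀ * (N : ℝ) ^ (1 / 2 + 101 * δ) := by
      rw [hK₀, ← Real.rpow_add hN0]
      congr 1
      ring
    rw [e1] at ha
    have : K₀ * ((N : ℝ) ^ (1 / 2 + 101 * δ) / 512) ≤ K₀ * ((shapes W u R).card : ℝ) := by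
      refine le_trans (le_of_eq ?_) (le_trans ha hb)
      ring
    exact le_of_mul_le_mul_left this hK₀pos
  have hSh1 : ∀ u ∈ 𝒰, ∀ h ∈ shapes W u R, ∀ i, h i ∈ Hs P ω H κ₀ u := by
    intro u hu h hh i
    obtain ⟨-, hne, hlt, hRi, -⟩ := shapes_props (h𝒰N u hu).1 hWlt hh
    obtain ⟨-, hu1, -⟩ := h𝒰 u hu
    have hu0 : (0 : ℝ) < u := lt_trans (Real.rpow_pos_of_pos hN0 _) hu1
    have ha : ((u : ℝ)) * |(h i : ℝ)| < N := by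
      have := hlt i
      exact_mod_cast this
    have hb : |(h i : ℝ)| ≤ (N : ℝ) ^ (1 / 2 - 97 * δ) := by
      have e1 : (N : ℝ) = (N : ℝ) ^ (1 / 2 + 97 * δ) * (N : ℝ) ^ (1 / 2 - 97 * δ) := by
        rw [← Real.rpow_add hN0]
        rw [show 1 / 2 + 97 * δ + (1 / 2 - 97 * δ) = 1 by ring, Real.rpow_one]
      by_contra hcon
      push Not at hcon
      have : (N : ℝ) ^ (1 / 2 + 97 * δ) * (N : ℝ) ^ (1 / 2 - 97 * δ) < (u : ℝ) * |(h i : ℝ)| := by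
        apply mul_lt_mul'' hu1 hcon
        · exact Real.rpow_nonneg hN0.le _
        · exact Real.rpow_nonneg hN0.le _
      linarith
    have hc : |h i| ≤ (H : ℤ) := by
      have : |(h i : ℝ)| ≤ (H : ℝ) := le_trans hb hHlow
      exact_mod_cast this
    unfold Hs
    rw [Finset.mem_filter, Finset.mem_Icc]
    exact ⟨abs_le.1 hc, hne i, hRi i⟩
  have hSh2 : ∀ h : Fin 3 → ℤ, ((𝒰.filter (fun u => h ∈ shapes W u R)).card : ℝ) ≤ K₀ := by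
    intro h
    by_cases hex : ∃ u ∈ 𝒰, h ∈ shapes W u R
    · exact (hocc h hex).2
    · push Not at hex
      rw [Finset.filter_false_of_mem hex]
      simp only [Finset.card_empty, Nat.cast_zero]
      exact hK₀pos.le
  have hσpos : 0 < (N : ℝ) ^ (1 / 2 + 101 * δ) / 512 := by positivity
  obtain ⟨t, htT, hmany⟩ := many_edges (P := P) (𝒰 := 𝒰) (ω := ω) (H := H) (T := T) hω hκ₀ hσpos hK₀pos hK₀1
    hT1 hlamT (fun u => shapes W u R) hSh hSh1 hSh2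
  have hU₁1 : 1 ≤ (N : ℝ) ^ (1 / 2 + 97 * δ) := Real.one_le_rpow hNone (by linarith)
  have hcube : (N' : ℝ) ≤ ((N : ℝ) ^ (1 / 2 + 97 * δ)) ^ 3 := by
    refine le_trans hN'up ?_
    have e1 : ((N : ℝ) ^ (1 / 2 + 97 * δ)) ^ 3 = (N : ℝ) ^ (1 / 2 + 290 * δ) * (N : ℝ) ^ (1 + δ) := by
      rw [← Real.rpow_natCast, ← Real.rpow_mul hN0.le, ← Real.rpow_add hN0]
      congr 1
      push_cast
      ring
    have e2 : (3 : ℝ) ≤ (N : ℝ) ^ (1 / 2 + 290 * δ) := by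
      calc (3 : ℝ) = (9 : ℝ) ^ (1 / 2 : ℝ) := by
            rw [← Real.sqrt_eq_rpow, show (9 : ℝ) = 3 ^ 2 by norm_num, Real.sqrt_sq (by norm_num)]
        _ ≤ (N : ℝ) ^ (1 / 2 : ℝ) := Real.rpow_le_rpow (by norm_num) hN9' (by norm_num)
        _ ≤ _ := Real.rpow_le_rpow_of_exponent_le hNone (by linarith)
    rw [e1]
    exact mul_le_mul_of_nonneg_right e2 (Real.rpow_nonneg hN0.le _)
  have hedges := edges_le (P := P) (𝒰 := 𝒰) (ω := ω) (H := H) (N' := N') (κ := 3 ^ t * κ₀) hU₁1 (by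
    intro u hu
    obtain ⟨hup, hu1, hu2⟩ := h𝒰 u hu
    refine ⟨hup, hu1, ?_⟩
    have : (u : ℝ) * H ≤ N' := by
      calc (u : ℝ) * H ≤ (N : ℝ) ^ (1 / 2 + 98 * δ) * (2 * (N : ℝ) ^ (1 / 2 - 97 * δ)) := by gcongr
        _ = 2 * (N : ℝ) ^ (1 + δ) := by
          rw [mul_left_comm, ← Real.rpow_add hN0]
          congr 2
          ring
        _ ≤ N' := hN'low
    exact_mod_cast this) hcube
  refine ⟨t, htT, N', hNN', hN'up, ?_⟩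
  by_contra hcon
  push Not at hcon
  exact h3 N hN3 H N' _ _ _ h𝒰card le_rfl hHup hN'up (le_trans hmany hedges) hcon

private theorem FG_small (δ : ℝ) (hδ : 0 < δ) (hδ1 : δ ≤ 1 / 400) : ∃ N₀ : ℕ, ∀ N ≥ N₀, ∀ N' : ℕ,
    (N' : ℝ) ≤ 3 * (N : ℝ) ^ (1 + δ) → (N' : ℝ) ^ (1 / 6 : ℝ) ≤ (N : ℝ) ^ (1 / 5 : ℝ) := by
  refine ⟨3 ^ 100, ?_⟩
  intro N hN N' hN'
  have hN1 : (3 : ℝ) ^ (100 : ℕ) ≤ N := by exact_mod_cast hN
  have hN0 : (0 : ℝ) < N := lt_of_lt_of_le (by positivity) hN1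
  have hNone : (1 : ℝ) ≤ N := le_trans (one_le_pow₀ (by norm_num)) hN1
  have h3 : (3 : ℝ) ≤ (N : ℝ) ^ (1 / 100 : ℝ) := by
    have := Real.rpow_le_rpow (by positivity) hN1 (by norm_num : (0 : ℝ) ≤ 1 / 100)
    refine le_trans (le_of_eq ?_) this
    rw [← Real.rpow_natCast, ← Real.rpow_mul (by norm_num)]
    norm_num
  have h4 : (N' : ℝ) ≤ (N : ℝ) ^ (1 / 100 + (1 + δ)) := by
    rw [Real.rpow_add hN0]
    refine le_trans hN' ?_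
    exact mul_le_mul_of_nonneg_right h3 (Real.rpow_nonneg hN0.le _)
  calc (N' : ℝ) ^ (1 / 6 : ℝ) ≤ ((N : ℝ) ^ (1 / 100 + (1 + δ))) ^ (1 / 6 : ℝ) :=
        Real.rpow_le_rpow (Nat.cast_nonneg _) h4 (by norm_num)
    _ = (N : ℝ) ^ ((1 / 100 + (1 + δ)) * (1 / 6)) := by rw [← Real.rpow_mul hN0.le]
    _ ≤ (N : ℝ) ^ (1 / 5 : ℝ) := Real.rpow_le_rpow_of_exponent_le hNone (by linarith)

theorem no_extremal (A ε : ℝ) (hε : 0 < ε) (hε1 : ε ≤ 1 / 4) : ∃ N₀ : ℕ, ∀ N ≥ N₀, ∀ (q a : ℕ) (S : Finset ℕ),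
    Ctx q a N S → Ext q a S (1 / 2 + ε) → (N : ℝ) ^ (1 / 2 + ε) ≤ (S.card : ℝ) → Real.log q ≤ (N : ℝ) ^ A →
      False := by
  classical
  set δ : ℝ := ε / 100 with hδdef
  have hδ : 0 < δ := by rw [hδdef]; linarith
  have hδ1 : δ ≤ 1 / 400 := by rw [hδdef]; linarith
  have hεδ : ε = 100 * δ := by rw [hδdef]; ring
  obtain ⟨B, c₁, κ₁, hB, hc₁, hκ₁, N1, h1⟩ := prime_set A ε hε hε1
  obtain ⟨κT, hκT, N2, h2⟩ := quasi_count (1 / 4 + ε / 4) B (1 / 6) δ (by linarith) (by linarith) hB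
    (by norm_num) hδ
  set T : ℕ := ⌈2 / δ⌉₊ with hT
  have hTT : 2 / δ ≤ (T : ℝ) := Nat.le_ceil _
  set κ₀ : ℝ := κT / 3 ^ T with hκ₀def
  have hκ₀ : 0 < κ₀ := by rw [hκ₀def]; positivity
  set κ : ℝ := min κ₁ (κ₀ * c₁) with hκdef
  have hκ : 0 < κ := lt_min hκ₁ (mul_pos hκ₀ hc₁)
  obtain ⟨C, N3, h3⟩ := near_clique ε κ δ hε hε1 hκ hδ
  obtain ⟨N4, h4⟩ := relation_bound δ C hδ hδ1 T hTT
  obtain ⟨N5, h5⟩ := many_primes ε hε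
  obtain ⟨N6, h6⟩ := FG_small δ hδ hδ1
  refine ⟨max (max (max N1 N2) (max N3 N4)) (max (max N5 N6) 1), ?_⟩
  intro N hN q a S hctx hext hcard hlogq
  simp only [ge_iff_le, max_le_iff] at hN
  obtain ⟨⟨⟨hN1, hN2⟩, hN3, hN4⟩, ⟨hN5, hN6⟩, hN7⟩ := hN
  have hNpos : (1 : ℝ) ≤ N := by exact_mod_cast hN7
  have hN0 : (0 : ℝ) < N := by linarith
  obtain ⟨-, hlow⟩ := h5 N hN5 q a S hctx hcard
  have hlogq0 : 0 < Real.log q := lt_of_lt_of_le (Real.rpow_pos_of_pos hN0 _) hlow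
  have hSne : S.Nonempty := by
    rw [← Finset.card_pos]
    have : (0 : ℝ) < S.card := lt_of_lt_of_le (Real.rpow_pos_of_pos hN0 _) hcard
    exact_mod_cast this
  obtain ⟨z, hz⟩ := hSne
  obtain ⟨V, G, ω, hVS, hG, hVcard, hω, hwt, hbad⟩ := h3 N hN3 q a S z hctx hext hcard hz
  obtain ⟨P, hPG, ⟨Z, hZ1, hZB, hPZ, hZP⟩, hP5, hX⟩ := h1 N hN1 q a S G hctx hlow hlogq hcard hG
    (fun p hp => (hω p hp).1) (by
      refine le_trans ?_ hwt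
      have : κ ≤ κ₁ := min_le_left _ _
      have := mul_le_mul_of_nonneg_right this hlogq0.le
      linarith)
  have hX' : ∀ X ⊆ P, ∑ p ∈ X, wp q p ≤ κ * Real.log q → (X.card : ℝ) ≤ κ₀ * P.card := by
    intro X hXP hs
    refine le_trans (hX X hXP κ hs) ?_
    refine mul_le_mul_of_nonneg_right ?_ (Nat.cast_nonneg _)
    rw [div_le_iff₀ hc₁]
    exact min_le_right _ _
  have hbp := bad_pairs (ω := ω) (D := C * N) hctx hVS hG hPG hX' hbad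
  have hVcard' : (N : ℝ) ^ (1 / 2 + 99 * δ) ≤ (V.card : ℝ) := by
    have e : 1 / 2 + ε - δ = 1 / 2 + 99 * δ := by rw [hεδ]; ring
    rw [← e]
    exact hVcard
  obtain ⟨t, htT, N', hNN', hN', hlt⟩ := h4 N hN4 q a S V P ω κ₀ hctx hlow hVS hVcard' hκ₀
    (fun p hp => (hω p (hPG hp)).2) hbp
  have hNN'r : (N : ℝ) ≤ N' := by exact_mod_cast hNN'
  have hquasi := h2 N' (le_trans hN2 hNN') P Z ω
    (fun p hp => ⟨Nat.prime_of_mem_primeFactors (hG (hPG hp)), (hω p (hPG hp)).1, hPZ p hp⟩) hZ1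
    (le_trans hZB (Real.rpow_le_rpow hN0.le hNN'r hB.le)) hZP (le_trans (h6 N hN6 N' hN') hP5)
    (fun p hp => (hω p (hPG hp)).2)
  have hsub : ((Finset.Icc 1 N').filter (fun d => (exc P ω d : ℝ) ≤ 3 ^ t * κ₀ * P.card)) ⊆
      ((Finset.Icc 1 N').filter (fun d => (exc P ω d : ℝ) ≤ κT * P.card)) := by
    intro d hd
    rw [Finset.mem_filter] at hd ⊢
    refine ⟨hd.1, le_trans hd.2 ?_⟩
    refine mul_le_mul_of_nonneg_right ?_ (Nat.cast_nonneg _)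
    rw [hκ₀def, ← mul_div_assoc, div_le_iff₀ (by positivity), mul_comm]
    exact mul_le_mul_of_nonneg_left (pow_le_pow_right₀ (by norm_num) htT.le) hκT.le
  have hcardle : (((Finset.Icc 1 N').filter (fun d => (exc P ω d : ℝ) ≤ 3 ^ t * κ₀ * P.card)).card : ℝ) ≤
      (((Finset.Icc 1 N').filter (fun d => (exc P ω d : ℝ) ≤ κT * P.card)).card : ℝ) := by
    exact_mod_cast Finset.card_le_card hsub
  have e2 : 1 - (1 / 4 + ε / 4) + δ = 3 / 4 - 24 * δ := by rw [hεδ]; ring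
  rw [e2] at hquasi
  linarith

end Pool.Agent.Lib.MP_2c6f70_nt.RU
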