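import Pool.Agent.Lib.MP_2c6f70_nt.RU.FG
import Pool.Agent.Lib.MP_2c6f70_nt.RU.EC
import Pool.Prelude.Def_F_e853f830

/-!
# JOB FH: the theorem

`ε' = min ε (1/2) / 2 ≤ 1/4`.  If `Q N q a > N^(1/2+ε)` then (`N ≥ 1`) `Q N q a ≥ N^(1/2 + 2 ε')`.  `T = (Finset.range N).filter (fun n => IsSquare (q * n + a))`, `#T = Q N q a` (see `KW/Facts.lean`, `exists_rts`).
`reduction A ε'`: `A'`; `no_extremal A' ε'`: `N₁`; `reduction` with this `N₁` gives `N₀`; contradiction.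
-/

set_option autoImplicit false

namespace Pool.Agent.Lib.MP_2c6f70_nt.RU

open Necdea073

theorem rudin_half (A ε : ℝ) (hε : 0 < ε) : ∃ N₀ : ℕ, ∀ N ≥ N₀, ∀ q a : ℕ, 1 ≤ q → 1 ≤ a →
    Real.log q ≤ (N : ℝ) ^ A → (Q N q a : ℝ) ≤ (N : ℝ) ^ (1 / 2 + ε) := by
  classical
  set ε' : ℝ := min ε (1 / 2) / 2 with hε'
  have hm0 : 0 < min ε (1 / 2) := lt_min hε (by norm_num)
  have hpos : 0 < ε' := by rw [hε']; linarith
  have hle : ε' ≤ 1 / 4 := by
    rw [hε']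
    have := min_le_right ε (1 / 2)
    linarith
  have h2 : 2 * ε' ≤ ε := by
    rw [hε']
    have := min_le_left ε (1 / 2)
    linarith
  obtain ⟨A', hA'⟩ := reduction A ε' hpos hle
  obtain ⟨N₁, hN₁⟩ := no_extremal A' ε' hpos hle
  obtain ⟨N₀, hN₀⟩ := hA' N₁
  refine ⟨max N₀ 1, ?_⟩
  intro N hN q a hq1 ha1 hq
  by_contra hcon
  push Not at hcon
  have hN1 : 1 ≤ N := le_trans (le_max_right _ _) hN
  have hN1' : (1 : ℝ) ≤ N := by exact_mod_cast hN1
  set T : Finset ℕ := (Finset.range N).filter (fun n => IsSquare (q * n + a)) with hT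
  have hcard : (T.card : ℝ) = (Q N q a : ℝ) := by
    unfold Q
    rw [← Set.ncard_coe_finset]
    congr 2
    ext n
    simp [T]
  have hTm : ∀ n ∈ T, n < N ∧ IsSquare (q * n + a) := by
    intro n hn
    rw [hT, Finset.mem_filter, Finset.mem_range] at hn
    exact hn
  have hlow : (N : ℝ) ^ (1 / 2 + 2 * ε') ≤ (T.card : ℝ) := by
    rw [hcard]
    refine le_trans ?_ hcon.le
    exact Real.rpow_le_rpow_of_exponent_le hN1' (by linarith)
  obtain ⟨N', hN', q', a', S', hctx, hext, hcardS, hlogq⟩ :=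
    hN₀ N (le_trans (le_max_left _ _) hN) q a hq1 ha1 hq T hTm hlow
  exact hN₁ N' hN' q' a' S' hctx hext hcardS hlogq

end Pool.Agent.Lib.MP_2c6f70_nt.RU
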