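import Pool.Agent.Lib.MP_2c6f70_nt.RU.Defs

/-!
# JOB LA: the factors `A`, `B`, `a`, `b` of a pair

Facts available: `md_dvd_or`, `dvd_sub_of_sg_eq`, `dvd_add_of_sg_ne`, `sg_eq_or` of `Sg.lean` are stated for `Good q N S`; `Good` follows from `Ctx` (KW/Idx or CorA contain a lemma `Rts → Good`, e.g. `good_of_rts`; otherwise:
`x ∈ S` is coprime to `q` since `x^2 = a + q n` and `gcd (a, q) = 1`; for `x ≤ y`: `y^2 = x^2 + q (n_y - n_x)`).  `mr q p ∣ md q p` (for `p = 2`: `2^(v-2) ∣ 2^(v-1)` if `v ≥ 4`, `1` otherwise; for `p` odd they are equal).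
The moduli `mr q p` are pairwise coprime prime powers (possibly `1` at `p = 2`); their product divides `q` and the quotient `cq q` is `1, 2, 4` or `8`
(the quotient of the `2`-parts: `2^v` if `v ≤ 3`, `2^2` if `v ≥ 4`); see `KW/Hom.lean`, `KW/CorA.lean` for similar lemmas about `mr`.

`AA_dvd`: for `x y z ∈ S` and `p` with equal signs `mr q p ∣ md q p ∣ (x - y)`; coprime moduli multiply.  Same for `BB ∣ x + y`.
`AA * BB * cq = q` (`Finset.prod_filter_mul_prod_filter_not`).  `(x - y)(x + y) = q (n_x - n_y)` gives for `x ≠ y`: `aa * bb = cq * dn`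
(cancel `AA * BB > 0`).  `dist x y > 0`, `x + y > 0` give `aa, bb ≥ 1`, so both are `≤ cq * dn ≤ 8 N`; `dn ≥ 1`, `dn < N`.
-/

set_option autoImplicit false

namespace Pool.Agent.Lib.MP_2c6f70_nt.RU

open Pool.Agent.Lib.MP_2c6f70_nt Pool.Agent.Lib.MP_2c6f70_nt.KW

private theorem LA_nn_spec {q a N : ℕ} {S : Finset ℕ} (hq : 1 ≤ q) (hS : Rts q a N S) {x : ℕ} (hx : x ∈ S) :
    x ^ 2 = a + q * nn q a x ∧ nn q a x < N := by
  obtain ⟨n, hn, h⟩ := hS x hx
  have h1 : nn q a x = n := by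
    unfold nn
    rw [h, Nat.add_sub_cancel_left]
    exact Nat.mul_div_cancel_left n hq
  rw [h1]
  exact ⟨h, hn⟩

private theorem LA_nn_inj {q a N : ℕ} {S : Finset ℕ} (hq : 1 ≤ q) (hS : Rts q a N S) {x y : ℕ} (hx : x ∈ S)
    (hy : y ∈ S) (h : nn q a x = nn q a y) : x = y := by
  have h1 := (LA_nn_spec hq hS hx).1
  have h2 := (LA_nn_spec hq hS hy).1
  rw [h, ← h2] at h1
  exact Nat.pow_left_injective (by norm_num : (2 : ℕ) ≠ 0) h1

theorem good_of_ctx {q a N : ℕ} {S : Finset ℕ} (h : Ctx q a N S) : Good q N S := by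
  have hq : 1 ≤ q := le_trans (by norm_num) h.hq
  constructor
  · intro x hx
    have h1 := (LA_nn_spec hq h.rts hx).1
    have h2 : Nat.Coprime (a + q * nn q a x) q :=
      (Nat.coprime_add_mul_left_left a q (nn q a x)).2 h.cop.symm
    rw [← h1] at h2
    exact Nat.Coprime.coprime_dvd_left (dvd_pow_self x (by norm_num)) h2
  · intro x hx y hy hxy
    obtain ⟨h1, h1'⟩ := LA_nn_spec hq h.rts hx
    obtain ⟨h2, h2'⟩ := LA_nn_spec hq h.rts hy
    have h3 : x ^ 2 ≤ y ^ 2 := Nat.pow_le_pow_left hxy 2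
    rw [h1, h2] at h3
    have h4 : nn q a x ≤ nn q a y := by
      have h5 : q * nn q a x ≤ q * nn q a y := by omega
      exact Nat.le_of_mul_le_mul_left h5 hq
    refine ⟨nn q a y - nn q a x, ?_, by omega⟩
    rw [h1, h2, Nat.mul_sub]
    have h5 : q * nn q a x ≤ q * nn q a y := Nat.mul_le_mul_left q h4
    omega

theorem mr_pos {q p : ℕ} (hp : p ∈ q.primeFactors) : 1 ≤ mr q p := by
  have h := (Nat.prime_of_mem_primeFactors hp).pos
  unfold mr
  split_ifs
  · exact le_rfl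
  · exact Nat.one_le_two_pow
  · exact Nat.one_le_pow _ _ h

theorem mr_coprime {q p p' : ℕ} (hp : p ∈ q.primeFactors) (hp' : p' ∈ q.primeFactors) (hne : p ≠ p') :
    Nat.Coprime (mr q p) (mr q p') := by
  have hk : ∀ p : ℕ, ∃ k : ℕ, mr q p = p ^ k := by
    intro p
    unfold mr
    split_ifs with h1 h2
    · exact ⟨0, (pow_zero _).symm⟩
    · exact ⟨q.factorization 2 - 2, by rw [h1]⟩
    · exact ⟨_, rfl⟩
  obtain ⟨k, e⟩ := hk p
  obtain ⟨k', e'⟩ := hk p'
  rw [e, e']
  exact Nat.Coprime.pow _ _ ((Nat.coprime_primes (Nat.prime_of_mem_primeFactors hp)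
    (Nat.prime_of_mem_primeFactors hp')).mpr hne)

/-- `mr q p` is a power of `p`. -/
theorem mr_pow {q p : ℕ} (hp : p ∈ q.primeFactors) : ∃ k : ℕ, mr q p = p ^ k ∧ (p ≠ 2 → 1 ≤ k) := by
  unfold mr
  by_cases h1 : p = 2
  · rw [if_pos h1]
    by_cases h2 : q.factorization 2 ≤ 3
    · rw [if_pos h2]
      exact ⟨0, (pow_zero _).symm, fun h => absurd h1 h⟩
    · rw [if_neg h2]
      exact ⟨q.factorization 2 - 2, by rw [h1], fun h => absurd h1 h⟩
  · rw [if_neg h1]
    exact ⟨_, rfl, fun _ => Md_fact_pos hp⟩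

theorem prod_mr {q : ℕ} (hq : q ≠ 0) : cq q * ∏ p ∈ q.primeFactors, mr q p = q ∧ cq q ∣ 8 := by
  have hprod := Md_prod hq
  have hodd : ∀ p, p ≠ 2 → mr q p = p ^ q.factorization p := by
    intro p h2
    unfold mr
    rw [if_neg h2]
  have hpos : 0 < ∏ p ∈ q.primeFactors, mr q p := Finset.prod_pos fun p hp => mr_pos hp
  obtain ⟨c, hc8, hc⟩ : ∃ c, c ∣ 8 ∧ q = c * ∏ p ∈ q.primeFactors, mr q p := by
    by_cases h2 : 2 ∈ q.primeFactors
    · have e1 := Finset.mul_prod_erase q.primeFactors (fun p => mr q p) h2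
      have e2 := Finset.mul_prod_erase q.primeFactors (fun p => p ^ q.factorization p) h2
      have e3 : ∏ p ∈ q.primeFactors.erase 2, mr q p =
          ∏ p ∈ q.primeFactors.erase 2, p ^ q.factorization p :=
        Finset.prod_congr rfl fun p hp => hodd p (Finset.ne_of_mem_erase hp)
      rw [hprod] at e2
      obtain ⟨c, hc8, hc⟩ : ∃ c, c ∣ 8 ∧ 2 ^ q.factorization 2 = c * mr q 2 := by
        unfold mr
        rw [if_pos rfl]
        split_ifs with h
        · refine ⟨2 ^ q.factorization 2, ?_, (mul_one _).symm⟩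
          have : (8 : ℕ) = 2 ^ 3 := by norm_num
          rw [this]
          exact pow_dvd_pow 2 h
        · refine ⟨4, by norm_num, ?_⟩
          obtain ⟨k, hk⟩ : ∃ k, q.factorization 2 = k + 2 := ⟨q.factorization 2 - 2, by omega⟩
          rw [hk, Nat.add_sub_cancel, pow_add]
          ring
      refine ⟨c, hc8, ?_⟩
      rw [← e1, ← mul_assoc, ← hc, e3]
      exact e2.symm
    · refine ⟨1, one_dvd _, ?_⟩
      have e3 : ∏ p ∈ q.primeFactors, mr q p = ∏ p ∈ q.primeFactors, p ^ q.factorization p :=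
        Finset.prod_congr rfl fun p hp => hodd p (fun h => h2 (h ▸ hp))
      rw [e3, hprod, one_mul]
  have hcq : cq q = c := by
    unfold cq
    exact Nat.div_eq_of_eq_mul_left hpos hc
  rw [hcq]
  exact ⟨hc.symm, hc8⟩

theorem AA_BB {q : ℕ} (hq : q ≠ 0) (z x y : ℕ) : cq q * (AA q z x y * BB q z x y) = q := by
  classical
  have h1 : AA q z x y * BB q z x y = ∏ p ∈ q.primeFactors, mr q p := by
    unfold AA BB
    exact Finset.prod_filter_mul_prod_filter_not _ _ _
  rw [h1]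
  exact (prod_mr hq).1

theorem AA_comm (q z x y : ℕ) : AA q z x y = AA q z y x := by
  unfold AA
  congr 1
  ext p
  simp only [Finset.mem_filter]
  exact and_congr_right fun _ => eq_comm

theorem BB_comm (q z x y : ℕ) : BB q z x y = BB q z y x := by
  unfold BB
  congr 1
  ext p
  simp only [Finset.mem_filter]
  exact and_congr_right fun _ => ne_comm

theorem bb_comm (q z x y : ℕ) : bb q z x y = bb q z y x := by
  unfold bb
  rw [BB_comm, add_comm]

theorem aa_comm (q z x y : ℕ) : aa q z x y = aa q z y x := by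
  unfold aa
  rw [AA_comm, Nat.dist_comm]

theorem dn_comm (q a x y : ℕ) : dn q a x y = dn q a y x := by
  unfold dn
  exact Nat.dist_comm _ _

private theorem LA_mr_dvd_md (q p : ℕ) : mr q p ∣ md q p := by
  unfold mr md
  by_cases h1 : p = 2
  · rw [if_pos h1, if_pos h1]
    split_ifs with h2 h3 h3
    · exact one_dvd _
    · exact one_dvd _
    · omega
    · exact pow_dvd_pow 2 (by omega)
  · rw [if_neg h1, if_neg h1]

private theorem LA_prod_dvd {q : ℕ} (P : Finset ℕ) (hP : P ⊆ q.primeFactors) (u : ℤ)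
    (h : ∀ p ∈ P, (md q p : ℤ) ∣ u) : (∏ p ∈ P, mr q p) ∣ u.natAbs := by
  refine Finset.prod_dvd_of_isRelPrime ?_ ?_
  · intro p hp p' hp' hne
    have := mr_coprime (hP hp) (hP hp') hne
    exact Nat.coprime_iff_isRelPrime.mp this
  · intro p hp
    exact (LA_mr_dvd_md q p).trans (Int.natCast_dvd.mp (h p hp))

private theorem LA_natAbs_dist (x y : ℕ) : ((x : ℤ) - y).natAbs = Nat.dist x y := by
  rcases le_total x y with h | h
  · rw [Nat.dist_eq_sub_of_le h]
    omega
  · rw [Nat.dist_eq_sub_of_le_right h]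
    omega

theorem AA_mul {q a N : ℕ} {S : Finset ℕ} (h : Ctx q a N S) {x y z : ℕ} (hx : x ∈ S) (hy : y ∈ S)
    (hz : z ∈ S) : AA q z x y * aa q z x y = Nat.dist x y := by
  have hG := good_of_ctx h
  have h1 : AA q z x y ∣ Nat.dist x y := by
    rw [← LA_natAbs_dist]
    unfold AA
    refine LA_prod_dvd _ (Finset.filter_subset _ _) _ fun p hp => ?_
    obtain ⟨hp1, hp2⟩ := Finset.mem_filter.1 hp
    exact dvd_sub_of_sg_eq hG hx hy hz hp1 hp2
  unfold aa
  exact Nat.mul_div_cancel' h1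

theorem BB_mul {q a N : ℕ} {S : Finset ℕ} (h : Ctx q a N S) {x y z : ℕ} (hx : x ∈ S) (hy : y ∈ S)
    (hz : z ∈ S) : BB q z x y * bb q z x y = x + y := by
  have hG := good_of_ctx h
  have h1 : BB q z x y ∣ x + y := by
    have e : ((x : ℤ) + y).natAbs = x + y := by omega
    rw [← e]
    unfold BB
    refine LA_prod_dvd _ (Finset.filter_subset _ _) _ fun p hp => ?_
    obtain ⟨hp1, hp2⟩ := Finset.mem_filter.1 hp
    exact dvd_add_of_sg_ne hG hx hy hz hp1 hp2
  unfold bb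
  exact Nat.mul_div_cancel' h1

theorem aa_bb {q a N : ℕ} {S : Finset ℕ} (h : Ctx q a N S) {x y z : ℕ} (hx : x ∈ S) (hy : y ∈ S)
    (hz : z ∈ S) : aa q z x y * bb q z x y = cq q * dn q a x y := by
  have hq1 : 1 ≤ q := le_trans (by norm_num) h.hq
  have hq0 : q ≠ 0 := by omega
  have h1 := AA_mul h hx hy hz
  have h2 := BB_mul h hx hy hz
  have h3 := AA_BB hq0 z x y
  have hsq : Nat.dist x y * (x + y) = Nat.dist (x ^ 2) (y ^ 2) := by
    rcases le_total x y with hxy | hxy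
    · rw [Nat.dist_eq_sub_of_le hxy, Nat.dist_eq_sub_of_le (Nat.pow_le_pow_left hxy 2), Nat.sq_sub_sq,
        mul_comm, add_comm]
    · rw [Nat.dist_eq_sub_of_le_right hxy, Nat.dist_eq_sub_of_le_right (Nat.pow_le_pow_left hxy 2), Nat.sq_sub_sq,
        mul_comm]
  rw [(LA_nn_spec hq1 h.rts hx).1, (LA_nn_spec hq1 h.rts hy).1, Nat.dist_add_add_left, Nat.dist_mul_left] at hsq
  have hpos : 0 < AA q z x y * BB q z x y := by
    rcases Nat.eq_zero_or_pos (AA q z x y * BB q z x y) with h0 | h0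
    · rw [h0, mul_zero] at h3
      omega
    · exact h0
  apply Nat.eq_of_mul_eq_mul_left hpos
  calc AA q z x y * BB q z x y * (aa q z x y * bb q z x y)
      = (AA q z x y * aa q z x y) * (BB q z x y * bb q z x y) := by ring
    _ = Nat.dist x y * (x + y) := by rw [h1, h2]
    _ = q * Nat.dist (nn q a x) (nn q a y) := hsq
    _ = (cq q * (AA q z x y * BB q z x y)) * Nat.dist (nn q a x) (nn q a y) := by rw [h3]
    _ = AA q z x y * BB q z x y * (cq q * dn q a x y) := by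
        unfold dn
        ring

theorem dn_bounds {q a N : ℕ} {S : Finset ℕ} (h : Ctx q a N S) {x y : ℕ} (hx : x ∈ S) (hy : y ∈ S)
    (hxy : x ≠ y) : 1 ≤ dn q a x y ∧ dn q a x y < N := by
  have hq1 : 1 ≤ q := le_trans (by norm_num) h.hq
  have h1 := (LA_nn_spec hq1 h.rts hx).2
  have h2 := (LA_nn_spec hq1 h.rts hy).2
  have h3 : nn q a x ≠ nn q a y := fun e => hxy (LA_nn_inj hq1 h.rts hx hy e)
  unfold dn
  rcases le_total (nn q a x) (nn q a y) with h4 | h4
  · rw [Nat.dist_eq_sub_of_le h4]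
    omega
  · rw [Nat.dist_eq_sub_of_le_right h4]
    omega

theorem aa_bb_bounds {q a N : ℕ} {S : Finset ℕ} (h : Ctx q a N S) {x y z : ℕ} (hx : x ∈ S) (hy : y ∈ S)
    (hz : z ∈ S) (hxy : x ≠ y) :
    1 ≤ aa q z x y ∧ 1 ≤ bb q z x y ∧ aa q z x y ≤ 8 * N ∧ bb q z x y ≤ 8 * N := by
  have hq0 : q ≠ 0 := by
    have := h.hq
    omega
  have h1 := AA_mul h hx hy hz
  have h2 := BB_mul h hx hy hz
  have h3 := aa_bb h hx hy hz
  obtain ⟨h4, h5⟩ := dn_bounds h hx hy hxy
  have hd : 0 < Nat.dist x y := Nat.dist_pos_of_ne hxy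
  have ha : 1 ≤ aa q z x y := by
    rcases Nat.eq_zero_or_pos (aa q z x y) with h0 | h0
    · rw [h0, mul_zero] at h1
      omega
    · exact h0
  have hb : 1 ≤ bb q z x y := by
    rcases Nat.eq_zero_or_pos (bb q z x y) with h0 | h0
    · rw [h0, mul_zero] at h2
      omega
    · exact h0
  have hc : cq q ≤ 8 := Nat.le_of_dvd (by norm_num) (prod_mr hq0).2
  have h6 : aa q z x y * bb q z x y ≤ 8 * N := by
    rw [h3]
    exact Nat.mul_le_mul hc h5.le
  exact ⟨ha, hb, (Nat.le_mul_of_pos_right _ hb).trans h6, (Nat.le_mul_of_pos_left _ ha).trans h6⟩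

end Pool.Agent.Lib.MP_2c6f70_nt.RU
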