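import Pool.Agent.Lib.MP_2c6f70_nt.RU.LA

/-!
# JOB LB: the Legendre symbol of `b` and `a` modulo a prime divisor of `q`

`p ∈ q.primeFactors`, `p ≠ 2`; `sg q z p x = ± 1` with `md q p = p^v ∣ x - z` (sign `1`) or `∣ x + z` (sign `-1`: `dvd_add_of_sg_ne` with `sg q z p z = 1`), so `x = e z (mod p)`, `e = ± 1` an integer with `(e : ℝ) = sg q z p x`.
`z`, `x`, `mr q p'` (`p' ≠ p`), `2` are prime to `p` (`p` odd; `z` coprime to `q`).  `jacobiSym c p` for a prime `p` is multiplicative in `c`, depends on `c mod p`, and is `± 1` if `p ∤ c`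
(`jacobiSym.mul_left`, `jacobiSym.mod_left`, `jacobiSym.eq_one_or_neg_one`).

`tt_pm`: the product of the `mr q p'`, `p' ≠ p`, is prime to `p`.

`jac_BB`: for a set `D ⊆ q.primeFactors` let `m(D) = ∏_{p' ∈ D, p' ≠ p} mr q p'`.  With `X = {sg x = -1}`, `Y = {sg y = -1}`: `{sg x ≠ sg y} = (X \ Y) ∪ (Y \ X)`, and
`m(X) m(Y) = m({sg x ≠ sg y}) m(X ∩ Y)^2`, so `J(m({sg x ≠ sg y})) = J(m(X)) J(m(Y)) = tt x * tt y`.

`leg_same`: signs equal (`= e`): `p` is not in `{sg x ≠ sg y}`, so `BB` is the `m`-product: `J(BB) = tt x tt y`; `BB * bb = x + y = 2 e z (mod p)`: `J(bb) J(BB) = J(2 e z)`.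
`leg_diff`: signs different, `y < x`: `AA * aa = x - y = 2 e z (mod p)` with `e = sg x`; `p ∉ {sg x = sg y}`; `AA * m({sg x ≠ sg y}) = ∏_{p' ≠ p} mr q p'` so `J(AA) = J(∏_{p' ≠ p} mr q p') tt x tt y`.
-/

set_option autoImplicit false

namespace Pool.Agent.Lib.MP_2c6f70_nt.RU

open Pool.Agent.Lib.MP_2c6f70_nt Pool.Agent.Lib.MP_2c6f70_nt.KW

private theorem LB_prod (p : ℕ) (s : Finset ℕ) (f : ℕ → ℕ) :
    jacobiSym ((∏ i ∈ s, f i : ℕ) : ℤ) p = ∏ i ∈ s, jacobiSym (f i : ℤ) p := by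
  classical
  induction s using Finset.induction_on with
  | empty =>
    rw [Finset.prod_empty, Finset.prod_empty, Nat.cast_one, jacobiSym.one_left]
  | insert a s ha ih =>
    rw [Finset.prod_insert ha, Finset.prod_insert ha, Nat.cast_mul, jacobiSym.mul_left, ih]

private theorem LB_mr_pm {q p p' : ℕ} (hp : p ∈ q.primeFactors) (hp' : p' ∈ q.primeFactors)
    (hne : p' ≠ p) :
    jacobiSym (mr q p' : ℤ) p = 1 ∨ jacobiSym (mr q p' : ℤ) p = -1 := by
  apply jacobiSym.eq_one_or_neg_one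
  obtain ⟨k, hk, -⟩ := mr_pow hp'
  rw [hk, Int.gcd_natCast_natCast]
  exact Nat.Coprime.pow_left k ((Nat.coprime_primes (Nat.prime_of_mem_primeFactors hp')
    (Nat.prime_of_mem_primeFactors hp)).mpr hne)

private theorem LB_sq {u : ℤ} (h : u = 1 ∨ u = -1) : u * u = 1 := by
  rcases h with h | h <;> rw [h] <;> norm_num

private theorem LB_tt (q z p x : ℕ) :
    tt q z p x = ∏ p' ∈ q.primeFactors.erase p,
      (open Classical in if sg q z p' x = -1 then jacobiSym (mr q p' : ℤ) p else 1) := by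
  classical
  unfold tt
  rw [LB_prod, ← Finset.prod_filter]
  refine Finset.prod_congr ?_ fun _ _ => rfl
  ext p'
  simp only [Finset.mem_filter, Finset.mem_erase]
  tauto

theorem tt_pm {q p : ℕ} (hp : p ∈ q.primeFactors) (z x : ℕ) : tt q z p x = 1 ∨ tt q z p x = -1 := by
  classical
  rw [LB_tt]
  refine Finset.prod_induction _ (fun u : ℤ => u = 1 ∨ u = -1) ?_ (Or.inl rfl) ?_
  · rintro a b (ha | ha) (hb | hb) <;> rw [ha, hb] <;> norm_num
  · intro p' hp'
    split_ifs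
    · exact LB_mr_pm hp (Finset.mem_of_mem_erase hp') (Finset.ne_of_mem_erase hp')
    · exact Or.inl rfl

theorem z_pm {q a N : ℕ} {S : Finset ℕ} (h : Ctx q a N S) {z : ℕ} (hz : z ∈ S) {p : ℕ}
    (hp : p ∈ q.primeFactors) (hp2 : p ≠ 2) {e : ℤ} (he : e = 1 ∨ e = -1) :
    jacobiSym (2 * e * z) p = 1 ∨ jacobiSym (2 * e * z) p = -1 := by
  have hpp := Nat.prime_of_mem_primeFactors hp
  have hpi : Prime (p : ℤ) := Nat.prime_iff_prime_int.mp hpp
  have hzp := Sg_not_dvd (good_of_ctx h) hz hp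
  apply jacobiSym.eq_one_or_neg_one
  have hnd : ¬ (p : ℤ) ∣ 2 * e * z := by
    intro hd
    rcases hpi.dvd_or_dvd hd with h1 | h1
    · rcases hpi.dvd_or_dvd h1 with h2 | h2
      · have h5 : p ∣ 2 := by exact_mod_cast h2
        exact hp2 ((Nat.prime_dvd_prime_iff_eq hpp Nat.prime_two).mp h5)
      · have h6 : (p : ℤ) ∣ 1 := by
          rcases he with he | he
          · rwa [he] at h2
          · rw [he] at h2
            exact (dvd_neg).mp h2
        have h7 : p ∣ 1 := by exact_mod_cast h6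
        exact hpp.one_lt.ne' (Nat.dvd_one.mp h7)
    · exact hzp h1
  have hc : IsCoprime (p : ℤ) (2 * e * z) := hpi.coprime_iff_not_dvd.mpr hnd
  rw [Int.gcd_comm]
  exact Int.isCoprime_iff_gcd_eq_one.mp hc

private theorem LB_mod {q a N : ℕ} {S : Finset ℕ} (h : Ctx q a N S) {x z : ℕ} (hx : x ∈ S)
    (hz : z ∈ S) {p : ℕ} (hp : p ∈ q.primeFactors) {e : ℤ} (he : (e : ℝ) = sg q z p x) :
    (p : ℤ) ∣ (x : ℤ) - e * z := by
  have hmd : (p : ℤ) ∣ (md q p : ℤ) := by
    obtain ⟨k, hk, -, hm⟩ := md_eq_pow hp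
    rw [hm]
    exact_mod_cast dvd_pow_self p (by omega : k ≠ 0)
  have hzz : sg q z p z = 1 := by
    unfold sg
    rw [if_pos]
    rw [sub_self]
    exact dvd_zero _
  rcases sg_eq_or q z p x with h1 | h1
  · have h2 : e = 1 := by
      rw [h1] at he
      exact_mod_cast he
    have h3 := dvd_sub_of_sg_eq (good_of_ctx h) hx hz hz hp (h1.trans hzz.symm)
    rw [h2, one_mul]
    exact hmd.trans h3
  · have h2 : e = -1 := by
      rw [h1] at he
      exact_mod_cast he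
    have hne : sg q z p x ≠ sg q z p z := by
      rw [h1, hzz]
      norm_num
    have h3 := dvd_add_of_sg_ne (good_of_ctx h) hx hz hz hp hne
    rw [h2]
    have e1 : (x : ℤ) - -1 * z = x + z := by ring
    rw [e1]
    exact hmd.trans h3

private theorem LB_jmod {p : ℕ} {u v : ℤ} (h : (p : ℤ) ∣ u - v) :
    jacobiSym u p = jacobiSym v p :=
  jacobiSym.mod_left' ((Int.emod_emod_of_dvd u (dvd_refl (p : ℤ))).symm.trans
    (by rw [Int.emod_emod_of_dvd u (dvd_refl (p : ℤ))]; exact Int.emod_emod_of_dvd u (dvd_refl _) ▸ (Int.emod_emod_of_dvd u (dvd_refl _)).symm ▸ (Int.ModEq.symm ((Int.modEq_iff_dvd).mpr h) : Int.ModEq p u v)))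

private theorem LB_BB {q z p x y : ℕ} (hp : p ∈ q.primeFactors)
    (hs : sg q z p x = sg q z p y) :
    jacobiSym (BB q z x y : ℤ) p = tt q z p x * tt q z p y := by
  classical
  have e : jacobiSym (BB q z x y : ℤ) p = ∏ p' ∈ q.primeFactors.erase p,
      (if sg q z p' x ≠ sg q z p' y then jacobiSym (mr q p' : ℤ) p else 1) := by
    unfold BB
    rw [LB_prod, ← Finset.prod_filter]
    refine Finset.prod_congr ?_ fun _ _ => rfl
    ext p'
    simp only [Finset.mem_filter, Finset.mem_erase]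
    constructor
    · rintro ⟨h1, h2⟩
      refine ⟨⟨?_, h1⟩, h2⟩
      rintro rfl
      exact h2 hs
    · rintro ⟨⟨-, h1⟩, h2⟩
      exact ⟨h1, h2⟩
  rw [e, LB_tt, LB_tt, ← Finset.prod_mul_distrib]
  refine Finset.prod_congr rfl fun p' hp' => ?_
  have hj := LB_sq (LB_mr_pm hp (Finset.mem_of_mem_erase hp') (Finset.ne_of_mem_erase hp'))
  rcases sg_eq_or q z p' x with h1 | h1 <;> rcases sg_eq_or q z p' y with h2 | h2 <;>
    rw [h1, h2] <;> norm_num
  exact hj.symm

private theorem LB_AA {q z p x y : ℕ} (hp : p ∈ q.primeFactors)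
    (hs : sg q z p x ≠ sg q z p y) :
    jacobiSym (AA q z x y : ℤ) p =
      jacobiSym ((∏ p' ∈ q.primeFactors.erase p, mr q p' : ℕ) : ℤ) p *
        (tt q z p x * tt q z p y) := by
  classical
  have e : jacobiSym (AA q z x y : ℤ) p = ∏ p' ∈ q.primeFactors.erase p,
      (if sg q z p' x = sg q z p' y then jacobiSym (mr q p' : ℤ) p else 1) := by
    unfold AA
    rw [LB_prod, ← Finset.prod_filter]
    refine Finset.prod_congr ?_ fun _ _ => rfl
    ext p'
    simp only [Finset.mem_filter, Finset.mem_erase]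
    constructor
    · rintro ⟨h1, h2⟩
      refine ⟨⟨?_, h1⟩, h2⟩
      rintro rfl
      exact hs h2
    · rintro ⟨⟨-, h1⟩, h2⟩
      exact ⟨h1, h2⟩
  rw [e, LB_tt, LB_tt, ← Finset.prod_mul_distrib, LB_prod, ← Finset.prod_mul_distrib]
  refine Finset.prod_congr rfl fun p' hp' => ?_
  have hj := LB_sq (LB_mr_pm hp (Finset.mem_of_mem_erase hp') (Finset.ne_of_mem_erase hp'))
  rcases sg_eq_or q z p' x with h1 | h1 <;> rcases sg_eq_or q z p' y with h2 | h2 <;>
    rw [h1, h2] <;> norm_num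
  · exact hj.symm
  · exact hj.symm
  · rw [hj, mul_one]

theorem leg_same {q a N : ℕ} {S : Finset ℕ} (h : Ctx q a N S) {x y z : ℕ} (hx : x ∈ S) (hy : y ∈ S)
    (hz : z ∈ S) (hxy : x ≠ y) {p : ℕ} (hp : p ∈ q.primeFactors) (hp2 : p ≠ 2)
    (hs : sg q z p x = sg q z p y) {e : ℤ} (he : (e : ℝ) = sg q z p x) :
    jacobiSym (bb q z x y) p = jacobiSym (2 * e * z) p * (tt q z p x * tt q z p y) := by
  have h1 := BB_mul h hx hy hz
  have h2 : (BB q z x y : ℤ) * (bb q z x y : ℤ) = (x : ℤ) + y := by exact_mod_cast h1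
  have h3 : jacobiSym (BB q z x y : ℤ) p * jacobiSym (bb q z x y : ℤ) p =
      jacobiSym (2 * e * z) p := by
    rw [← jacobiSym.mul_left, h2]
    apply LB_jmod
    have h4 := LB_mod h hx hz hp he
    have h5 := LB_mod h hy hz hp (he.trans hs)
    have h6 := dvd_add h4 h5
    have e1 : (x : ℤ) - e * z + ((y : ℤ) - e * z) = (x : ℤ) + y - 2 * e * z := by ring
    rwa [e1] at h6
  rw [LB_BB hp hs] at h3
  have hx1 := LB_sq (tt_pm hp z x)
  have hy1 := LB_sq (tt_pm hp z y)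
  rw [← h3]
  linear_combination (-(jacobiSym (bb q z x y : ℤ) p) * (tt q z p y * tt q z p y)) * hx1 -
    jacobiSym (bb q z x y : ℤ) p * hy1

theorem leg_diff {q a N : ℕ} {S : Finset ℕ} (h : Ctx q a N S) {x y z : ℕ} (hx : x ∈ S) (hy : y ∈ S)
    (hz : z ∈ S) (hxy : y < x) {p : ℕ} (hp : p ∈ q.primeFactors) (hp2 : p ≠ 2)
    (hs : sg q z p x ≠ sg q z p y) {e : ℤ} (he : (e : ℝ) = sg q z p x) :
    jacobiSym (aa q z x y) p = jacobiSym (2 * e * z) p *
      jacobiSym ((∏ p' ∈ q.primeFactors.erase p, mr q p' : ℕ) : ℤ) p * (tt q z p x * tt q z p y) := by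
  have h1 := AA_mul h hx hy hz
  have hd : ((Nat.dist x y : ℕ) : ℤ) = (x : ℤ) - y := by
    rw [Nat.dist_eq_sub_of_le_right hxy.le]
    push_cast [hxy.le]
    ring
  have h2 : (AA q z x y : ℤ) * (aa q z x y : ℤ) = (x : ℤ) - y := by
    rw [← hd, ← h1]
    push_cast
    ring
  have h3 : jacobiSym (AA q z x y : ℤ) p * jacobiSym (aa q z x y : ℤ) p =
      jacobiSym (2 * e * z) p := by
    rw [← jacobiSym.mul_left, h2]
    apply LB_jmod
    have h4 := LB_mod h hx hz hp he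
    have he' : ((-e : ℤ) : ℝ) = sg q z p y := by
      push_cast
      rw [he]
      rcases sg_eq_or q z p x with a1 | a1 <;> rcases sg_eq_or q z p y with a2 | a2
      · exact absurd (a1.trans a2.symm) hs
      · rw [a1, a2]
      · rw [a1, a2, neg_neg]
      · exact absurd (a1.trans a2.symm) hs
    have h5 := LB_mod h hy hz hp he'
    have h6 := dvd_sub h4 h5
    have e1 : (x : ℤ) - e * z - ((y : ℤ) - -e * z) = (x : ℤ) - y - 2 * e * z := by ring
    rwa [e1] at h6
  rw [LB_AA hp hs] at h3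
  have hx1 := LB_sq (tt_pm hp z x)
  have hy1 := LB_sq (tt_pm hp z y)
  have hm : jacobiSym ((∏ p' ∈ q.primeFactors.erase p, mr q p' : ℕ) : ℤ) p *
      jacobiSym ((∏ p' ∈ q.primeFactors.erase p, mr q p' : ℕ) : ℤ) p = 1 := by
    apply LB_sq
    rw [LB_prod]
    refine Finset.prod_induction _ (fun u : ℤ => u = 1 ∨ u = -1) ?_ (Or.inl rfl) ?_
    · rintro a b (ha | ha) (hb | hb) <;> rw [ha, hb] <;> norm_num
    · intro p' hp'
      exact LB_mr_pm hp (Finset.mem_of_mem_erase hp') (Finset.ne_of_mem_erase hp')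
  rw [← h3]
  generalize jacobiSym ((∏ p' ∈ q.primeFactors.erase p, mr q p' : ℕ) : ℤ) p = m at hm ⊢
  generalize jacobiSym (aa q z x y : ℤ) p = w
  generalize tt q z p x = tx at hx1 ⊢
  generalize tt q z p y = ty at hy1 ⊢
  linear_combination (-w) * hm - w * (m * m) * hx1 - w * (m * m) * (tx * tx) * hy1

end Pool.Agent.Lib.MP_2c6f70_nt.RU
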