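import Pool.Agent.Lib.MP_2a816b_nt.LargeSieve
import Pool.Agent.Lib.MP_2a816b_nt.PrimeSieve
import Pool.Agent.Lib.MP_2c6f70_nt.RU.Defs

/-!
# JOB LSA: the large sieve for a set with many forbidden classes

Points `c / p`, `p ∈ P`, `1 ≤ c < p` (index set: `P.sigma (fun p => Finset.Ico 1 p)`).  They are `δ`-separated modulo one with `δ = 1 / N`: for `(p, c) ≠ (p', c')` and an integer `m` the number
`c/p - c'/p' - m` is a nonzero rational number with denominator dividing `p p' ≤ N` (`p^2 ≤ N`, `p'^2 ≤ N`; if `p = p'` the denominator is `p`; nonzero: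
if `p ≠ p'` then `p ∣ c p'` would follow).  `large_sieve` with `x` = indicator of `V`: `∑ ‖∑_{n ∈ V} e(n c / p)‖^2 ≤ 18 N #V`.

For a fixed prime `p`: `∑_{0 ≤ c < p} ‖∑_{n ∈ V} e(n c/p)‖^2 = p ∑_r V_r^2` (`V_r = #{n ∈ V : n ≡ r (p)}`; orthogonality, `∑_c e(c (n - n')/p) = p` or `0`), the term `c = 0` is `(#V)^2`, and by Cauchy-Schwarz
`(#V)^2 ≤ #image * ∑_r V_r^2`, so the sum over `1 ≤ c < p` is `≥ (#V)^2 (p / #image - 1) ≥ (#V)^2 (2 p/(p+1) - 1) = (#V)^2 (p-1)/(p+1) ≥ (#V)^2 / 2`.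
Sum over `p ∈ P`: `#P (#V)^2 / 2 ≤ 18 N #V`, `C = 36` (if `V` is empty the claim is trivial).
-/

set_option autoImplicit false

namespace Pool.Agent.Lib.MP_2c6f70_nt.RU

open Pool.Agent.Lib.MP_2a816b_nt

/-- one prime: the exponential sums at the fractions with denominator `p` are large -/
private theorem LSA_prime (p N : ℕ) (hp : p.Prime) (hp3 : 3 ≤ p) (V : Finset ℕ)
    (hV : ∀ n ∈ V, n < N) (hc : 2 * (V.image (fun n => n % p)).card ≤ p + 1) :
    (V.card : ℝ) ^ 2 ≤ 2 * ∑ b ∈ Finset.Ico 1 p,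
      ‖∑ n ∈ Finset.range N, (if n ∈ V then (1 : ℂ) else 0) * e (n * (b / p))‖ ^ 2 := by
  classical
  have : Fact p.Prime := ⟨hp⟩
  set x : ℕ → ℂ := fun n => if n ∈ V then (1 : ℂ) else 0 with hx
  rw [← sum_erase_eq p N x]
  have hpr : (3 : ℝ) ≤ p := by exact_mod_cast hp3
  -- class sums
  set W : ZMod p → Finset ℕ := fun c => V.filter (fun n : ℕ => (n : ZMod p) = c) with hW
  have hcl : ∀ c : ZMod p, cl p N x c = ((W c).card : ℂ) := by
    intro c
    unfold cl
    rw [hW, Finset.card_filter]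
    push_cast
    rw [Finset.sum_filter]
    have h1 : ∑ n ∈ Finset.range N, (if (n : ZMod p) = c then x n else 0) =
        ∑ n ∈ Finset.range N, (if n ∈ V then (if (n : ZMod p) = c then (1 : ℂ) else 0) else 0) := by
      apply Finset.sum_congr rfl
      intro n _
      rw [hx]
      by_cases h2 : (n : ZMod p) = c <;> by_cases h3 : n ∈ V <;> simp [h2, h3]
    rw [h1, ← Finset.sum_filter]
    apply Finset.sum_congr _ (fun _ _ => rfl)
    ext n
    rw [Finset.mem_filter, Finset.mem_range]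
    exact ⟨fun h => h.2, fun h => ⟨hV n h, h⟩⟩
  have hsum : ∀ b : ZMod p, ∑ n ∈ Finset.range N, x n * ps p (b * n) =
      ∑ c : ZMod p, ((W c).card : ℂ) * ps p (b * c) := by
    intro b
    rw [sum_cl p N x (fun u => ps p (b * u))]
    apply Finset.sum_congr rfl
    intro c _
    rw [hcl]
  have hall : ∑ b : ZMod p, ‖∑ n ∈ Finset.range N, x n * ps p (b * n)‖ ^ 2 =
      p * ∑ c : ZMod p, ((W c).card : ℝ) ^ 2 := by
    simp_rw [hsum]
    rw [parseval p (fun c => ((W c).card : ℂ))]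
    simp
  have hcard : ∑ c : ZMod p, (W c).card = V.card := by
    have := Finset.card_eq_sum_card_fiberwise (f := fun n : ℕ => (n : ZMod p)) (s := V)
      (t := Finset.univ) (fun _ _ => Finset.mem_coe.mpr (Finset.mem_univ _))
    exact this.symm
  have hzero : ‖∑ n ∈ Finset.range N, x n * ps p ((0 : ZMod p) * n)‖ ^ 2 = (V.card : ℝ) ^ 2 := by
    rw [hsum 0]
    simp only [zero_mul, ps_zero, mul_one]
    rw [← Nat.cast_sum, hcard, Complex.norm_natCast]
  have hsplit : ‖∑ n ∈ Finset.range N, x n * ps p ((0 : ZMod p) * n)‖ ^ 2 +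
      ∑ b ∈ Finset.univ.erase (0 : ZMod p), ‖∑ n ∈ Finset.range N, x n * ps p (b * n)‖ ^ 2 =
      ∑ b : ZMod p, ‖∑ n ∈ Finset.range N, x n * ps p (b * n)‖ ^ 2 :=
    Finset.add_sum_erase Finset.univ
      (fun b : ZMod p => ‖∑ n ∈ Finset.range N, x n * ps p (b * n)‖ ^ 2) (Finset.mem_univ 0)
  rw [hzero, hall] at hsplit
  -- Cauchy-Schwarz on the classes met by `V`
  set I : Finset (ZMod p) := V.image (fun n : ℕ => (n : ZMod p)) with hI
  have hIc : I.card ≤ (V.image (fun n => n % p)).card := by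
    have : I = (V.image (fun n => n % p)).image (fun n : ℕ => (n : ZMod p)) := by
      rw [hI, Finset.image_image]
      apply Finset.image_congr
      intro n _
      simp only [Function.comp]
      rw [ZMod.natCast_mod]
    rw [this]
    exact Finset.card_image_le
  have hI2 : (I.card : ℝ) * 2 ≤ p + 1 := by
    have : 2 * I.card ≤ p + 1 := (Nat.mul_le_mul_left 2 hIc).trans hc
    have h2 : (2 : ℝ) * I.card ≤ p + 1 := by exact_mod_cast this
    linarith
  have hcs : (V.card : ℝ) ^ 2 ≤ I.card * ∑ c : ZMod p, ((W c).card : ℝ) ^ 2 := by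
    have h1 : (V.card : ℝ) = ∑ c ∈ I, ((W c).card : ℝ) := by
      have := Finset.card_eq_sum_card_fiberwise (f := fun n : ℕ => (n : ZMod p)) (s := V)
        (t := I) (fun n hn => Finset.mem_coe.mpr (Finset.mem_image_of_mem _ hn))
      rw [this]
      push_cast
      rfl
    rw [h1]
    refine (sq_sum_le_card_mul_sum_sq).trans ?_
    apply mul_le_mul_of_nonneg_left _ (Nat.cast_nonneg _)
    exact Finset.sum_le_sum_of_subset_of_nonneg (Finset.subset_univ _)
      (fun _ _ _ => by positivity)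
  set S : ℝ := ∑ c : ZMod p, ((W c).card : ℝ) ^ 2 with hS
  have hS0 : 0 ≤ S := Finset.sum_nonneg (fun _ _ => by positivity)
  have h3 : (V.card : ℝ) ^ 2 * 2 ≤ (p + 1) * S := by
    have := mul_le_mul_of_nonneg_right hI2 hS0
    linarith
  have h5 : ((p : ℝ) + 1) * S ≤ (4 / 3) * (p * S) := by
    have : (p : ℝ) + 1 ≤ 4 / 3 * p := by linarith
    have := mul_le_mul_of_nonneg_right this hS0
    linarith
  linarith

theorem ls_set : ∃ C : ℝ, 0 < C ∧ ∀ (N : ℕ) (V P : Finset ℕ), 1 ≤ N → (∀ n ∈ V, n < N) →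
    (∀ p ∈ P, p.Prime ∧ 3 ≤ p ∧ p ^ 2 ≤ N ∧ 2 * (V.image (fun n => n % p)).card ≤ p + 1) →
    (P.card : ℝ) * V.card ≤ C * N := by
  classical
  refine ⟨36, by norm_num, ?_⟩
  intro N V P hN hV hP
  rcases V.eq_empty_or_nonempty with h0 | h0
  · subst h0
    simp only [Finset.card_empty, Nat.cast_zero, mul_zero]
    positivity
  have hVp : (0 : ℝ) < V.card := by exact_mod_cast Finset.card_pos.mpr h0
  set x : ℕ → ℂ := fun n => if n ∈ V then (1 : ℂ) else 0 with hx
  have hsieve := prime_sieve P (Nat.sqrt N)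
    (fun l hl => ⟨(hP l hl).1, by
      rw [Nat.le_sqrt', ]; exact (hP l hl).2.2.1⟩) N x
  have hQ : ((Nat.sqrt N : ℕ) : ℝ) ^ 2 ≤ N := by
    have : Nat.sqrt N ^ 2 ≤ N := Nat.sqrt_le' N
    exact_mod_cast this
  have hxs : ∑ n ∈ Finset.range N, ‖x n‖ ^ 2 = V.card := by
    have h1 : ∀ n ∈ Finset.range N, ‖x n‖ ^ 2 = if n ∈ V then (1 : ℝ) else 0 := by
      intro n _
      rw [hx]
      by_cases h : n ∈ V <;> simp [h]
    rw [Finset.sum_congr rfl h1, ← Finset.sum_filter, Finset.sum_const, nsmul_eq_mul, mul_one]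
    congr 1
    apply congrArg
    ext n
    rw [Finset.mem_filter, Finset.mem_range]
    exact ⟨fun h => h.2, fun h => ⟨hV n h, h⟩⟩
  rw [hxs] at hsieve
  have hlow : ∑ _l ∈ P, (V.card : ℝ) ^ 2 ≤ 2 * ∑ l ∈ P, ∑ b ∈ Finset.Ico 1 l,
      ‖∑ n ∈ Finset.range N, x n * e (n * (b / l))‖ ^ 2 := by
    rw [Finset.mul_sum]
    apply Finset.sum_le_sum
    intro l hl
    obtain ⟨h1, h2, _, h4⟩ := hP l hl
    exact LSA_prime l N h1 h2 V hV h4
  rw [Finset.sum_const, nsmul_eq_mul] at hlow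
  have h9 : 9 * ((N : ℝ) + ((Nat.sqrt N : ℕ) : ℝ) ^ 2) * V.card ≤ 18 * N * V.card := by
    apply mul_le_mul_of_nonneg_right _ hVp.le
    linarith
  have h10 : (P.card : ℝ) * V.card * V.card ≤ 36 * N * V.card := by
    calc (P.card : ℝ) * V.card * V.card = P.card * (V.card : ℝ) ^ 2 := by ring
      _ ≤ 2 * ∑ l ∈ P, ∑ b ∈ Finset.Ico 1 l,
          ‖∑ n ∈ Finset.range N, x n * e (n * (b / l))‖ ^ 2 := hlow
      _ ≤ 2 * (18 * N * V.card) := by linarith
      _ = _ := by ring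
  exact le_of_mul_le_mul_right h10 hVp

end Pool.Agent.Lib.MP_2c6f70_nt.RU
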