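import Mathlib

/-!
# JOB MA: sums of Jacobi symbols over odd numbers

For `b ≥ 1` the function `n ↦ J(b | n)` on odd `n` is periodic modulo `4 b` (`jacobiSym.mod_right` : `J(a | b) = J(a | b % (4 * a.natAbs))` for odd `b`).
If `b` is not a square there is an odd `m` coprime to `b` with `J(b | m) = -1`:
write `b = c^2 d`, `d > 1` squarefree.
* `d = 2 d'` even: choose `m = 5 (mod 8)` and `m = 1 (mod d'')` for all odd prime divisors of `b` (the odd part of `b`) by the Chinese remainder theorem; `J(2|m) = -1`, `J(d'|m) = J(m|d') = 1` (`m = 1 mod 4`).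
* `d` odd: let `ℓ` be a prime divisor of `d`, `u` a nonresidue modulo `ℓ`; choose `m = 1 (mod 8)`, `m = u (mod ℓ)`, `m = 1` modulo the other odd prime divisors of `b`: `J(d|m) = J(m|d) = J(u|ℓ) = -1`.
So (`m` odd, prime to `b`) the map `n ↦ m n` permutes the odd classes modulo `4 b` and multiplies `J(b|n)` by `-1`: the sum over the odd `n < 4 b` is `0`.
(Multiplicativity `jacobiSym.mul_right`.)  Then a sum over the odd `n ≤ X`, cut into full periods and a rest of at most `4 b` terms, each of absolute value `≤ 1`, is `≤ 4 b`.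
-/

set_option autoImplicit false

namespace Pool.Agent.Lib.MP_2c6f70_nt.RU

private theorem MA_one (n : ℕ) (m : ℤ) (h : m % n = 1 % n) : jacobiSym m n = 1 := by
  rw [jacobiSym.mod_left, h, ← jacobiSym.mod_left, jacobiSym.one_left]

theorem exists_jacobi_neg (b : ℕ) (hb : 1 ≤ b) (hsq : ¬ IsSquare b) :
    ∃ m : ℕ, Odd m ∧ Nat.Coprime m b ∧ jacobiSym (b : ℤ) m = -1 := by
  obtain ⟨d, c, hdc, hd⟩ := Nat.sq_mul_squarefree b
  have hb0 : b ≠ 0 := by omega
  have hd1 : d ≠ 1 := by
    rintro rfl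
    apply hsq
    rw [← hdc, mul_one, sq]
    exact ⟨c, rfl⟩
  have hd0 : d ≠ 0 := by
    rintro rfl
    simp at hdc
    omega
  have hdb : d ∣ b := ⟨c ^ 2, by rw [← hdc]; ring⟩
  have hcb : c ∣ b := ⟨c * d, by rw [← hdc]; ring⟩
  -- reduction to d
  have key : ∀ m : ℕ, Nat.Coprime m b → jacobiSym (b : ℤ) m = jacobiSym (d : ℤ) m := by
    intro m hm
    have h1 : Int.gcd (c : ℤ) m = 1 := by
      have h2 : Nat.Coprime c m := (Nat.Coprime.coprime_dvd_right hcb hm).symm
      exact_mod_cast h2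
    have h3 : ((b : ℕ) : ℤ) = (c : ℤ) ^ 2 * d := by
      rw [← hdc]
      push_cast
      rfl
    rw [h3, jacobiSym.mul_left, jacobiSym.sq_one' h1, one_mul]
  -- odd part
  obtain ⟨j, B, hB2, hbB⟩ := Nat.exists_eq_pow_mul_and_not_dvd hb0 2 (by norm_num)
  have hBo : Odd B := by
    rw [← Nat.not_even_iff_odd, even_iff_two_dvd]
    exact hB2
  have hB8 : Nat.Coprime 8 B := by
    have : Nat.Coprime (2 ^ 3) B := Nat.Coprime.pow_left 3 ((Nat.prime_two.coprime_iff_not_dvd).2 hB2)
    exact this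
  rcases Nat.even_or_odd d with he | ho
  · -- d even
    obtain ⟨d', hd'⟩ := even_iff_two_dvd.1 he
    have hd'2 : ¬ 2 ∣ d' := by
      rintro ⟨e, he⟩
      have h1 : 2 * 2 ∣ d := ⟨e, by rw [hd', he]; ring⟩
      have h2 := hd 2 h1
      rw [Nat.isUnit_iff] at h2
      omega
    have hd'o : Odd d' := by
      rw [← Nat.not_even_iff_odd, even_iff_two_dvd]
      exact hd'2
    have hd'B : d' ∣ B := by
      have h1 : d' ∣ 2 ^ j * B := by
        rw [← hbB]
        exact (Dvd.intro_left 2 hd'.symm).trans hdb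
      exact (Nat.Coprime.dvd_of_dvd_mul_left
        ((Nat.Coprime.pow_left j ((Nat.prime_two.coprime_iff_not_dvd).2 hd'2)).symm) h1)
    obtain ⟨m, hm8, hmB⟩ := Nat.chineseRemainder hB8 5 1
    have hm4 : m % 4 = 1 := by
      have : m % 8 = 5 := hm8
      omega
    have hmo : Odd m := by
      rw [Nat.odd_iff]
      omega
    have hmb : Nat.Coprime m b := by
      rw [hbB]
      refine Nat.Coprime.mul_right ?_ ?_
      · exact Nat.Coprime.pow_right j ((Nat.coprime_two_right).2 hmo)
      · have h1 : Nat.gcd m B = Nat.gcd 1 B := Nat.ModEq.gcd_eq hmB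
        rw [Nat.coprime_iff_gcd_eq_one, h1]
        simp
    refine ⟨m, hmo, hmb, ?_⟩
    rw [key m hmb, hd']
    push_cast
    rw [jacobiSym.mul_left, jacobiSym.at_two hmo]
    have h2 : jacobiSym (d' : ℤ) m = 1 := by
      rw [jacobiSym.quadratic_reciprocity_one_mod_four' hd'o hm4]
      apply MA_one
      have h3 : m ≡ 1 [MOD d'] := hmB.of_dvd hd'B
      have h4 : m % d' = 1 % d' := h3
      exact_mod_cast h4
    rw [h2, mul_one]
    have h5 : ((m : ℕ) : ZMod 8) = 5 := by
      have h6 : ((m : ℕ) : ZMod 8) = ((5 : ℕ) : ZMod 8) := (ZMod.natCast_eq_natCast_iff m 5 8).2 hm8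
      rw [h6]
      rfl
    rw [h5]
    decide
  · -- d odd
    obtain ⟨l, hl, hld⟩ := Nat.exists_prime_and_dvd hd1
    have hlo : Odd l := ho.of_dvd_nat hld
    have hl2 : l ≠ 2 := by
      rintro rfl
      exact absurd hlo (by decide)
    obtain ⟨e, he⟩ := hld
    have hle : ¬ l ∣ e := by
      rintro ⟨f, hf⟩
      have h1 : l * l ∣ d := ⟨f, by rw [he, hf]; ring⟩
      have h2 := hd l h1
      rw [Nat.isUnit_iff] at h2
      exact hl.one_lt.ne' h2
    have heo : Odd e := ho.of_dvd_nat (Dvd.intro_left l he.symm)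
    have hB0 : B ≠ 0 := by
      rintro rfl
      exact hB2 (dvd_zero 2)
    obtain ⟨k, B', hlB', hBB'⟩ := Nat.exists_eq_pow_mul_and_not_dvd hB0 l hl.one_lt.ne'
    have hB'o : Odd B' := hBo.of_dvd_nat (Dvd.intro_left _ hBB'.symm)
    have heB' : e ∣ B' := by
      have h1 : e ∣ 2 ^ j * (l ^ k * B') := by
        rw [← hBB', ← hbB]
        exact (Dvd.intro_left l he.symm).trans hdb
      have h2 : Nat.Coprime e (2 ^ j) := Nat.Coprime.pow_right j ((Nat.coprime_two_right).2 heo)
      have h3 : Nat.Coprime e (l ^ k) := Nat.Coprime.pow_right k ((hl.coprime_iff_not_dvd).2 hle).symm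
      exact h3.dvd_of_dvd_mul_left (h2.dvd_of_dvd_mul_left h1)
    have := Fact.mk hl
    obtain ⟨u₀, hu₀⟩ := FiniteField.exists_nonsquare (F := ZMod l) (by rw [ZMod.ringChar_zmod_n]; exact hl2)
    set u : ℕ := u₀.val with hu
    have huu : ((u : ℕ) : ZMod l) = u₀ := ZMod.natCast_zmod_val u₀
    have hul : ¬ l ∣ u := by
      intro h
      rw [← ZMod.natCast_eq_zero_iff, huu] at h
      apply hu₀
      rw [h]
      exact ⟨0, by simp⟩
    have hc1 : Nat.Coprime (8 * l) B' := by
      refine Nat.Coprime.mul_left ?_ ((hl.coprime_iff_not_dvd).2 hlB')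
      have : Nat.Coprime (2 ^ 3) B' := Nat.Coprime.pow_left 3 ((Nat.coprime_two_left).2 hB'o)
      exact this
    have hc2 : Nat.Coprime 8 l := by
      have : Nat.Coprime (2 ^ 3) l := Nat.Coprime.pow_left 3 ((Nat.coprime_two_left).2 hlo)
      exact this
    obtain ⟨m₁, hm₁8, hm₁l⟩ := Nat.chineseRemainder hc2 1 u
    obtain ⟨m, hm1, hmB⟩ := Nat.chineseRemainder hc1 m₁ 1
    have hm8 : m ≡ 1 [MOD 8] := (hm1.of_dvd (Dvd.intro l rfl)).trans hm₁8
    have hml : m ≡ u [MOD l] := (hm1.of_dvd (Dvd.intro_left 8 rfl)).trans hm₁l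
    have hm4 : m % 4 = 1 := by
      have : m % 8 = 1 := hm8
      omega
    have hmo : Odd m := by
      rw [Nat.odd_iff]
      omega
    have hml' : ¬ l ∣ m := by
      intro h
      exact hul ((hml.dvd_iff dvd_rfl).1 h)
    have hmb : Nat.Coprime m b := by
      rw [hbB, hBB']
      refine Nat.Coprime.mul_right ?_ (Nat.Coprime.mul_right ?_ ?_)
      · exact Nat.Coprime.pow_right j ((Nat.coprime_two_right).2 hmo)
      · exact Nat.Coprime.pow_right k ((hl.coprime_iff_not_dvd).2 hml').symm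
      · have h1 : Nat.gcd m B' = Nat.gcd 1 B' := Nat.ModEq.gcd_eq hmB
        rw [Nat.coprime_iff_gcd_eq_one, h1]
        simp
    refine ⟨m, hmo, hmb, ?_⟩
    rw [key m hmb, jacobiSym.quadratic_reciprocity_one_mod_four' ho hm4, he]
    have hl0 : NeZero l := ⟨hl.ne_zero⟩
    have he0 : NeZero e := ⟨by rintro rfl; exact absurd heo (by decide)⟩
    rw [jacobiSym.mul_right]
    have h2 : jacobiSym (m : ℤ) e = 1 := by
      apply MA_one
      have h3 : m ≡ 1 [MOD e] := hmB.of_dvd heB'
      have h4 : m % e = 1 % e := h3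
      exact_mod_cast h4
    rw [h2, mul_one, ← jacobiSym.legendreSym.to_jacobiSym, legendreSym.eq_neg_one_iff]
    have h5 : (((m : ℕ) : ℤ) : ZMod l) = u₀ := by
      rw [← huu]
      push_cast
      exact (ZMod.natCast_eq_natCast_iff m u l).2 hml
    rw [h5]
    exact hu₀

theorem jacobi_period (b : ℕ) (hb : 1 ≤ b) (hsq : ¬ IsSquare b) :
    ∑ n ∈ (Finset.range (4 * b)).filter Odd, jacobiSym (b : ℤ) n = 0 := by
  obtain ⟨m, hmo, hmb, hm⟩ := exists_jacobi_neg b hb hsq
  set s := (Finset.range (4 * b)).filter Odd with hs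
  have hm4 : Nat.Coprime m (4 * b) := by
    refine Nat.Coprime.mul_right ?_ hmb
    have : Nat.Coprime m (2 ^ 2) := Nat.Coprime.pow_right 2 ((Nat.coprime_two_right).2 hmo)
    exact this
  have hmap : ∀ n ∈ s, (m * n) % (4 * b) ∈ s := by
    intro n hn
    rw [hs, Finset.mem_filter, Finset.mem_range] at hn ⊢
    refine ⟨Nat.mod_lt _ (by omega), ?_⟩
    have h1 : Odd (m * n) := hmo.mul hn.2
    rw [Nat.odd_iff] at h1 ⊢
    rw [Nat.mod_mod_of_dvd _ (Dvd.intro (2 * b) (by ring)), h1]
  have hinj : Set.InjOn (fun n => (m * n) % (4 * b)) (s : Set ℕ) := by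
    intro x hx y hy hxy
    rw [Finset.mem_coe, hs, Finset.mem_filter, Finset.mem_range] at hx hy
    have h1 : m * x ≡ m * y [MOD 4 * b] := hxy
    have h2 : x ≡ y [MOD 4 * b] := Nat.ModEq.cancel_left_of_coprime (by
      rw [Nat.gcd_comm]
      exact hm4) h1
    exact Nat.ModEq.eq_of_lt_of_lt h2 hx.1 hy.1
  have himg : s.image (fun n => (m * n) % (4 * b)) = s :=
    Finset.eq_of_subset_of_card_le (Finset.image_subset_iff.2 hmap)
      (by rw [Finset.card_image_of_injOn hinj])
  have h1 : ∑ n ∈ s, jacobiSym (b : ℤ) n = ∑ n ∈ s, jacobiSym (b : ℤ) ((m * n) % (4 * b)) := by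
    conv_lhs => rw [← himg]
    rw [Finset.sum_image hinj]
  have h2 : ∀ n ∈ s, jacobiSym (b : ℤ) ((m * n) % (4 * b)) = -jacobiSym (b : ℤ) n := by
    intro n hn
    rw [hs, Finset.mem_filter, Finset.mem_range] at hn
    have h3 : Odd (m * n) := hmo.mul hn.2
    have h4 := jacobiSym.mod_right (b : ℤ) h3
    rw [Int.natAbs_natCast] at h4
    have hm0 : NeZero m := ⟨by rintro rfl; exact absurd hmo (by decide)⟩
    have hn0 : NeZero n := ⟨by rintro rfl; exact absurd hn.2 (by decide)⟩
    rw [← h4, jacobiSym.mul_right, hm, neg_one_mul]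
  rw [Finset.sum_congr rfl h2, Finset.sum_neg_distrib] at h1
  omega

theorem jacobi_sum_le (b X : ℕ) (hb : 1 ≤ b) (hsq : ¬ IsSquare b) :
    |∑ n ∈ (Finset.range (X + 1)).filter Odd, jacobiSym (b : ℤ) n| ≤ 4 * b := by
  have hper := jacobi_period b hb hsq
  have hf : ∀ k : ℕ, ∑ n ∈ (Finset.range k).filter Odd, jacobiSym (b : ℤ) n =
      ∑ n ∈ Finset.range k, if Odd n then jacobiSym (b : ℤ) n else 0 := fun k => Finset.sum_filter _ _
  have hpp : ∀ n : ℕ, (if Odd (4 * b + n) then jacobiSym (b : ℤ) (4 * b + n : ℕ) else 0) =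
      if Odd n then jacobiSym (b : ℤ) n else 0 := by
    intro n
    have h1 : Odd (4 * b + n) ↔ Odd n := by
      rw [Nat.odd_iff, Nat.odd_iff]
      omega
    by_cases h : Odd n
    · rw [if_pos h, if_pos (h1.2 h), jacobiSym.mod_right (b : ℤ) (h1.2 h), jacobiSym.mod_right (b : ℤ) h,
        Int.natAbs_natCast, Nat.add_mod_left]
    · rw [if_neg h, if_neg (fun h' => h (h1.1 h'))]
  have main : ∀ k : ℕ, |∑ n ∈ (Finset.range k).filter Odd, jacobiSym (b : ℤ) n| ≤ 4 * b := by
    intro k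
    induction k using Nat.strong_induction_on with
    | _ k ih =>
      rcases lt_or_ge k (4 * b) with h | h
      · calc |∑ n ∈ (Finset.range k).filter Odd, jacobiSym (b : ℤ) n|
            ≤ ∑ n ∈ (Finset.range k).filter Odd, |jacobiSym (b : ℤ) n| := Finset.abs_sum_le_sum_abs _ _
          _ ≤ ∑ n ∈ (Finset.range k).filter Odd, (1 : ℤ) := by
              refine Finset.sum_le_sum fun n _ => ?_
              rcases jacobiSym.trichotomy (b : ℤ) n with h | h | h <;> rw [h] <;> norm_num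
          _ = (((Finset.range k).filter Odd).card : ℤ) := by simp
          _ ≤ (k : ℤ) := by
              have h2 := Finset.card_filter_le (Finset.range k) Odd
              rw [Finset.card_range] at h2
              exact_mod_cast h2
          _ ≤ 4 * b := by exact_mod_cast h.le
      · obtain ⟨r, rfl⟩ := Nat.exists_eq_add_of_le h
        have h1 : ∑ n ∈ (Finset.range (4 * b + r)).filter Odd, jacobiSym (b : ℤ) n =
            ∑ n ∈ (Finset.range r).filter Odd, jacobiSym (b : ℤ) n := by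
          rw [hf, Finset.sum_range_add, ← hf, hper, zero_add, hf]
          exact Finset.sum_congr rfl fun n _ => hpp n
        rw [h1]
        exact ih r (by omega)
  exact main (X + 1)

end Pool.Agent.Lib.MP_2c6f70_nt.RU
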