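import Pool.Agent.Lib.MP_2c6f70_nt.RU.MA

/-!
# JOB MB: the fourth moment

`walks V β`: the closed walks `(i, j, k, l)` of length four in `V` without loops with `β i j β j k β k l β l i` a square.

`trace4_ge`: for a symmetric real matrix `X` indexed by `V` and `C ⊆ V`, `t = ± 1` on `C` with `X x y = κ t x t y` for `x ≠ y` in `C`, `X x x = 0`: `∑_{i j k l} X i j X j k X k l X l i ≥ (#C - 1)^4` if `1 ≤ #C`.
Proof: `v = t` on `C`, `0` elsewhere, `|v|^2 = #C`.  `v . X v = κ #C (#C - 1)`.  Cauchy-Schwarz: `(v . X v)^2 ≤ |v|^2 |X v|^2`, `|X v|^2 = v . X^2 v`, `(v . X^2 v)^2 ≤ |v|^2 |X^2 v|^2`, and `|X^2 v|^2 ≤ |v|^2 ∑_{i k} (X^2)_{i k}^2`, and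
`∑_{i k} (X^2)_{ik}^2 = ∑_{ijkl} X i j X j k X i l X l k = tr X^4` (symmetry).  So `(#C (#C-1))^4 ≤ #C^2 |Xv|^4 ≤ #C^2 * #C * |X^2 v|^2 ≤ #C^4 tr X^4`.
With integers: all entries are `jacobiSym` values in `{-1, 0, 1}`; work in `ℤ` or `ℝ`.

`moment4`.  For odd `n` let `X(n) x y = J(β x y | n)` for `x ≠ y` and `0` for `x = y`.  `tr X(n)^4 = ∑_{(i,j,k,l), i≠j≠k≠l≠i} J(β i j β j k β k l β l i | n) ≥ 0` (it is the sum of squares `∑ (X^2)_{ik}^2`).
Sum over all odd `n ≤ X`: the walks with square product contribute at most `X + 1` each (`|J| ≤ 1`; number of odd `n ≤ X` is `≤ X`), the others at most `4 T^4` (`jacobi_sum_le`, product `≤ T^4`).  The `n ∈ 𝒩` give at least `c^4` each.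
(`0` is not odd; the number of odd `n` in `range (X + 1)` is `≤ X`.)
-/

set_option autoImplicit false

namespace Pool.Agent.Lib.MP_2c6f70_nt.RU

/-- Closed walks of length four with square product. -/
noncomputable def walks (V : Finset ℕ) (β : ℕ → ℕ → ℕ) : Finset (ℕ × ℕ × ℕ × ℕ) :=
  open Classical in
  (V ×ˢ V ×ˢ V ×ˢ V).filter (fun w => w.1 ≠ w.2.1 ∧ w.2.1 ≠ w.2.2.1 ∧ w.2.2.1 ≠ w.2.2.2 ∧ w.2.2.2 ≠ w.1 ∧
    IsSquare (β w.1 w.2.1 * β w.2.1 w.2.2.1 * β w.2.2.1 w.2.2.2 * β w.2.2.2 w.1))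

private theorem MB_trace (V C : Finset ℕ) (X : ℕ → ℕ → ℝ) (hX : ∀ i j, X i j = X j i)
    (hC : C ⊆ V) (t : ℕ → ℝ) (κ : ℝ) (hκ : κ ^ 2 = 1) (ht : ∀ x ∈ C, t x ^ 2 = 1)
    (h0 : ∀ x, X x x = 0) (h : ∀ x ∈ C, ∀ y ∈ C, x ≠ y → X x y = κ * (t x * t y))
    (hc : 1 ≤ C.card) :
    ((C.card : ℝ) - 1) ^ 4 ≤ ∑ i ∈ V, ∑ k ∈ V, (∑ j ∈ V, X i j * X j k) ^ 2 := by
  classical
  obtain ⟨m, hm⟩ : ∃ m : ℝ, m = (C.card : ℝ) := ⟨_, rfl⟩
  have hm1 : 1 ≤ m := by rw [hm]; exact_mod_cast hc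
  rw [← hm]
  obtain ⟨v, hv⟩ : ∃ v : ℕ → ℝ, v = fun i => if i ∈ C then t i else 0 := ⟨_, rfl⟩
  obtain ⟨y, hy⟩ : ∃ y : ℕ → ℝ, y = fun j => ∑ i ∈ V, v i * X i j := ⟨_, rfl⟩
  obtain ⟨Z, hZ⟩ : ∃ Z : ℕ → ℕ → ℝ, Z = fun i k => ∑ j ∈ V, X i j * X j k := ⟨_, rfl⟩
  have hVC : V ∩ C = C := Finset.inter_eq_right.2 hC
  have hv2 : ∑ i ∈ V, v i ^ 2 = m := by
    have e1 : ∀ i ∈ V, v i ^ 2 = if i ∈ C then (1 : ℝ) else 0 := by
      intro i _
      rw [hv]
      by_cases hi : i ∈ C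
      · simp only [hi, if_true]
        exact ht i hi
      · simp only [hi, if_false]
        norm_num
    rw [Finset.sum_congr rfl e1, Finset.sum_ite_mem, hVC, Finset.sum_const, nsmul_eq_mul, mul_one, hm]
  have hyC : ∀ j ∈ C, y j = κ * (m - 1) * t j := by
    intro j hj
    have e1 : y j = ∑ i ∈ C, t i * X i j := by
      rw [hy, hv]
      simp only [ite_mul, zero_mul]
      rw [Finset.sum_ite_mem, hVC]
    have e2 : ∀ i ∈ C, t i * X i j = κ * t j - if i = j then κ * t j else 0 := by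
      intro i hi
      by_cases hij : i = j
      · subst hij
        rw [if_pos rfl, h0 i]
        ring
      · rw [if_neg hij, h i hi j hj hij]
        have := ht i hi
        linear_combination κ * t j * this
    rw [e1, Finset.sum_congr rfl e2, Finset.sum_sub_distrib, Finset.sum_const, nsmul_eq_mul,
      Finset.sum_ite_eq', if_pos hj, ← hm]
    ring
  have hS1 : ∑ j ∈ V, v j * y j = κ * (m * (m - 1)) := by
    have e1 : ∀ j ∈ V, v j * y j = if j ∈ C then κ * (m - 1) else 0 := by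
      intro j _
      by_cases hj : j ∈ C
      · rw [if_pos hj, hyC j hj, hv]
        simp only [hj, if_true]
        have := ht j hj
        linear_combination κ * (m - 1) * this
      · rw [if_neg hj, hv]
        simp only [hj, if_false]
        ring
    rw [Finset.sum_congr rfl e1, Finset.sum_ite_mem, hVC, Finset.sum_const, nsmul_eq_mul, ← hm]
    ring
  have hCS1 := Finset.sum_mul_sq_le_sq_mul_sq V v y
  rw [hS1, hv2] at hCS1
  have hy2 : m * (m - 1) ^ 2 ≤ ∑ j ∈ V, y j ^ 2 := by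
    refine le_of_mul_le_mul_left ?_ (by linarith : (0 : ℝ) < m)
    calc m * (m * (m - 1) ^ 2) = (κ * (m * (m - 1))) ^ 2 := by
          linear_combination (-(m * (m - 1)) ^ 2) * hκ
      _ ≤ _ := hCS1
  have hyZ : ∑ j ∈ V, y j ^ 2 = ∑ p ∈ V ×ˢ V, (v p.1 * v p.2) * Z p.1 p.2 := by
    rw [Finset.sum_product]
    have e1 : ∀ j ∈ V, y j ^ 2 = ∑ i ∈ V, ∑ k ∈ V, (v i * v k) * (X i j * X j k) := by
      intro j _
      rw [hy, pow_two, Finset.sum_mul_sum]
      refine Finset.sum_congr rfl fun i _ => Finset.sum_congr rfl fun k _ => ?_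
      rw [hX k j]
      ring
    rw [Finset.sum_congr rfl e1, Finset.sum_comm]
    refine Finset.sum_congr rfl fun i _ => ?_
    rw [Finset.sum_comm]
    refine Finset.sum_congr rfl fun k _ => ?_
    rw [hZ, Finset.mul_sum]
  have hCS2 := Finset.sum_mul_sq_le_sq_mul_sq (V ×ˢ V) (fun p => v p.1 * v p.2) (fun p => Z p.1 p.2)
  have hvv : ∑ p ∈ V ×ˢ V, (v p.1 * v p.2) ^ 2 = m ^ 2 := by
    rw [Finset.sum_product]
    have e1 : ∀ i ∈ V, ∑ k ∈ V, (v i * v k) ^ 2 = v i ^ 2 * m := by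
      intro i _
      rw [← hv2, Finset.mul_sum]
      exact Finset.sum_congr rfl fun k _ => by ring
    rw [Finset.sum_congr rfl e1, ← Finset.sum_mul, hv2]
    ring
  have hZZ : ∑ p ∈ V ×ˢ V, Z p.1 p.2 ^ 2 = ∑ i ∈ V, ∑ k ∈ V, (∑ j ∈ V, X i j * X j k) ^ 2 := by
    rw [Finset.sum_product, hZ]
  rw [← hyZ, hvv, hZZ] at hCS2
  refine le_of_mul_le_mul_left ?_ (by positivity : (0 : ℝ) < m ^ 2)
  calc m ^ 2 * (m - 1) ^ 4 = (m * (m - 1) ^ 2) ^ 2 := by ring
    _ ≤ (∑ j ∈ V, y j ^ 2) ^ 2 := pow_le_pow_left₀ (by nlinarith [sq_nonneg (m - 1)]) hy2 2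
    _ ≤ _ := hCS2

private theorem MB_exp (V : Finset ℕ) (X : ℕ → ℕ → ℝ) (hX : ∀ i j, X i j = X j i) :
    ∑ i ∈ V, ∑ k ∈ V, (∑ j ∈ V, X i j * X j k) ^ 2 =
      ∑ w ∈ V ×ˢ V ×ˢ V ×ˢ V, X w.1 w.2.1 * X w.2.1 w.2.2.1 * X w.2.2.1 w.2.2.2 * X w.2.2.2 w.1 := by
  rw [Finset.sum_product]
  refine Finset.sum_congr rfl fun i _ => ?_
  rw [Finset.sum_product]
  have e1 : ∀ j ∈ V, ∑ x ∈ V ×ˢ V, X i j * X j x.1 * X x.1 x.2 * X x.2 i =
      ∑ k ∈ V, ∑ l ∈ V, X i j * X j k * X k l * X l i := fun j _ => Finset.sum_product _ _ _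
  rw [Finset.sum_congr rfl e1, Finset.sum_comm]
  refine Finset.sum_congr rfl fun k _ => ?_
  rw [pow_two, Finset.sum_mul_sum]
  refine Finset.sum_congr rfl fun j _ => Finset.sum_congr rfl fun l _ => ?_
  rw [hX l k, hX i l]
  ring

private theorem MB_abs (b : ℤ) (n : ℕ) : |(jacobiSym b n : ℝ)| ≤ 1 := by
  rcases jacobiSym.trichotomy b n with h | h | h <;> rw [h] <;> norm_num

theorem moment4 {V : Finset ℕ} {β : ℕ → ℕ → ℕ} {T X : ℕ} (hsym : ∀ x y, β x y = β y x)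
    (hβ : ∀ x ∈ V, ∀ y ∈ V, x ≠ y → 1 ≤ β x y ∧ β x y ≤ T) (M : Finset ℕ)
    (hM : ∀ n ∈ M, Odd n ∧ n ≤ X) (c : ℝ) (hc : 0 ≤ c)
    (hcl : ∀ n ∈ M, ∃ C ⊆ V, c + 1 ≤ (C.card : ℝ) ∧ ∃ (t : ℕ → ℤ) (κ : ℤ), (κ = 1 ∨ κ = -1) ∧
      (∀ x ∈ C, t x = 1 ∨ t x = -1) ∧
      ∀ x ∈ C, ∀ y ∈ C, x ≠ y → jacobiSym (β x y) n = κ * (t x * t y)) :
    (M.card : ℝ) * c ^ 4 ≤ X * ((walks V β).card : ℝ) + (V.card : ℝ) ^ 4 * (4 * (T : ℝ) ^ 4) := by
  classical
  obtain ⟨O, hO⟩ : ∃ O : Finset ℕ, O = (Finset.range (X + 1)).filter Odd := ⟨_, rfl⟩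
  obtain ⟨F, hF⟩ : ∃ F : ℕ → ℕ → ℕ → ℝ, F = fun n x y => if x = y then 0 else (jacobiSym (β x y) n : ℝ) :=
    ⟨_, rfl⟩
  have hFs : ∀ n x y, F n x y = F n y x := by
    intro n x y
    rw [hF]
    by_cases hxy : x = y
    · simp only [hxy]
    · have hyx : ¬ y = x := fun h => hxy h.symm
      simp only [hxy, hyx, if_false]
      rw [hsym x y]
  have hF0 : ∀ n x, F n x x = 0 := by
    intro n x
    rw [hF]
    simp only [if_true]
  -- the lower bound
  have hlow : (M.card : ℝ) * c ^ 4 ≤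
      ∑ n ∈ O, ∑ i ∈ V, ∑ k ∈ V, (∑ j ∈ V, F n i j * F n j k) ^ 2 := by
    have hMO : M ⊆ O := by
      intro n hn
      rw [hO, Finset.mem_filter, Finset.mem_range]
      exact ⟨by have := (hM n hn).2; omega, (hM n hn).1⟩
    refine le_trans ?_ (Finset.sum_le_sum_of_subset_of_nonneg hMO fun n _ _ =>
      Finset.sum_nonneg fun i _ => Finset.sum_nonneg fun k _ => sq_nonneg _)
    rw [← nsmul_eq_mul]
    refine Finset.card_nsmul_le_sum _ _ _ fun n hn => ?_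
    obtain ⟨C, hCV, hCc, t, κ, hκ, ht, hJ⟩ := hcl n hn
    have hC1 : 1 ≤ C.card := by
      have h1 : (1 : ℝ) ≤ (C.card : ℝ) := by linarith
      exact_mod_cast h1
    have h1 := MB_trace V C (F n) (hFs n) hCV (fun x => (t x : ℝ)) (κ : ℝ) (by
      rcases hκ with h | h <;> rw [h] <;> norm_num) (by
      intro x hx
      rcases ht x hx with h | h <;> rw [h] <;> norm_num) (hF0 n) (by
      intro x hx y hy hxy
      rw [hF]
      simp only [hxy, if_false]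
      rw [hJ x hx y hy hxy]
      push_cast
      ring) hC1
    refine le_trans ?_ h1
    exact pow_le_pow_left₀ hc (by linarith) 4
  refine hlow.trans ?_
  -- expansion
  have hexp : ∑ n ∈ O, ∑ i ∈ V, ∑ k ∈ V, (∑ j ∈ V, F n i j * F n j k) ^ 2 =
      ∑ w ∈ V ×ˢ V ×ˢ V ×ˢ V, ∑ n ∈ O,
        F n w.1 w.2.1 * F n w.2.1 w.2.2.1 * F n w.2.2.1 w.2.2.2 * F n w.2.2.2 w.1 := by
    have e1 : ∀ n ∈ O, ∑ i ∈ V, ∑ k ∈ V, (∑ j ∈ V, F n i j * F n j k) ^ 2 =
        ∑ w ∈ V ×ˢ V ×ˢ V ×ˢ V,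
          F n w.1 w.2.1 * F n w.2.1 w.2.2.1 * F n w.2.2.1 w.2.2.2 * F n w.2.2.2 w.1 :=
      fun n _ => MB_exp V (F n) (hFs n)
    rw [Finset.sum_congr rfl e1]
    exact Finset.sum_comm
  rw [hexp]
  have hOc : (O.card : ℝ) ≤ X := by
    have h1 : O ⊆ (Finset.range (X + 1)).erase 0 := by
      intro n hn
      rw [hO, Finset.mem_filter] at hn
      refine Finset.mem_erase.2 ⟨?_, hn.1⟩
      rintro rfl
      exact absurd hn.2 (by decide)
    have h2 := Finset.card_le_card h1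
    rw [Finset.card_erase_of_mem (Finset.mem_range.2 (by omega)), Finset.card_range,
      Nat.add_sub_cancel] at h2
    exact_mod_cast h2
  have hterm : ∀ w ∈ V ×ˢ V ×ˢ V ×ˢ V, ∑ n ∈ O,
        F n w.1 w.2.1 * F n w.2.1 w.2.2.1 * F n w.2.2.1 w.2.2.2 * F n w.2.2.2 w.1 ≤
      (if w ∈ walks V β then (X : ℝ) else 0) + 4 * (T : ℝ) ^ 4 := by
    rintro ⟨i, j, k, l⟩ hw
    simp only [Finset.mem_product] at hw
    obtain ⟨hi, hj, hk, hl⟩ := hw
    show ∑ n ∈ O, F n i j * F n j k * F n k l * F n l i ≤ _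
    have hT0 : (0 : ℝ) ≤ 4 * (T : ℝ) ^ 4 := by positivity
    by_cases hne : i ≠ j ∧ j ≠ k ∧ k ≠ l ∧ l ≠ i
    · obtain ⟨h1, h2, h3, h4⟩ := hne
      obtain ⟨b, hb⟩ : ∃ b : ℕ, b = β i j * β j k * β k l * β l i := ⟨_, rfl⟩
      have e1 : ∀ n ∈ O, F n i j * F n j k * F n k l * F n l i = (jacobiSym (b : ℤ) n : ℝ) := by
        intro n _
        rw [hF, hb]
        simp only [h1, h2, h3, h4, if_false]
        push_cast
        rw [jacobiSym.mul_left, jacobiSym.mul_left, jacobiSym.mul_left]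
        push_cast
        rfl
      rw [Finset.sum_congr rfl e1]
      by_cases hsq : IsSquare b
      · have hmem : (i, j, k, l) ∈ walks V β := by
          unfold walks
          simp only [Finset.mem_filter, Finset.mem_product]
          exact ⟨⟨hi, hj, hk, hl⟩, h1, h2, h3, h4, by rw [← hb]; exact hsq⟩
        rw [if_pos hmem]
        have e2 : ∑ n ∈ O, (jacobiSym (b : ℤ) n : ℝ) ≤ ∑ n ∈ O, (1 : ℝ) :=
          Finset.sum_le_sum fun n _ => (le_abs_self _).trans (MB_abs _ _)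
        rw [Finset.sum_const, nsmul_eq_mul, mul_one] at e2
        linarith
      · have e2 : (0 : ℝ) ≤ if (i, j, k, l) ∈ walks V β then (X : ℝ) else 0 := by
          split_ifs
          · positivity
          · exact le_rfl
        have hβij := hβ i hi j hj h1
        have hβjk := hβ j hj k hk h2
        have hβkl := hβ k hk l hl h3
        have hβli := hβ l hl i hi h4
        have hb1 : 1 ≤ b := by
          rw [hb]
          exact Nat.mul_pos (Nat.mul_pos (Nat.mul_pos hβij.1 hβjk.1) hβkl.1) hβli.1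
        have hbT : b ≤ T ^ 4 := by
          rw [hb]
          calc β i j * β j k * β k l * β l i ≤ T * T * T * T :=
                Nat.mul_le_mul (Nat.mul_le_mul (Nat.mul_le_mul hβij.2 hβjk.2) hβkl.2) hβli.2
            _ = T ^ 4 := by ring
        have e3 := jacobi_sum_le b X hb1 hsq
        rw [← hO] at e3
        have e4 : ((∑ n ∈ O, jacobiSym (b : ℤ) n : ℤ) : ℝ) ≤ ((4 * b : ℤ) : ℝ) := by
          exact_mod_cast (le_abs_self _).trans e3
        push_cast at e4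
        have e5 : (b : ℝ) ≤ (T : ℝ) ^ 4 := by exact_mod_cast hbT
        linarith
    · have e1 : ∀ n ∈ O, F n i j * F n j k * F n k l * F n l i = 0 := by
        intro n _
        by_cases h1 : i = j
        · rw [h1, hF0]
          ring
        by_cases h2 : j = k
        · rw [h2, hF0 n k]
          ring
        by_cases h3 : k = l
        · rw [h3, hF0 n l]
          ring
        by_cases h4 : l = i
        · rw [h4, hF0 n i]
          ring
        exact absurd ⟨h1, h2, h3, h4⟩ hne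
      rw [Finset.sum_eq_zero e1]
      have e2 : (0 : ℝ) ≤ if (i, j, k, l) ∈ walks V β then (X : ℝ) else 0 := by
        split_ifs
        · positivity
        · exact le_rfl
      linarith
  refine (Finset.sum_le_sum hterm).trans ?_
  have hsub : walks V β ⊆ V ×ˢ V ×ˢ V ×ˢ V := by
    unfold walks
    exact Finset.filter_subset _ _
  rw [Finset.sum_add_distrib, Finset.sum_ite_mem, Finset.inter_eq_right.2 hsub, Finset.sum_const,
    Finset.sum_const, nsmul_eq_mul, nsmul_eq_mul, Finset.card_product, Finset.card_product,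
    Finset.card_product]
  push_cast
  have e6 : (V.card : ℝ) * (V.card * (V.card * V.card)) = (V.card : ℝ) ^ 4 := by ring
  rw [e6, mul_comm ((walks V β).card : ℝ) (X : ℝ)]

end Pool.Agent.Lib.MP_2c6f70_nt.RU
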