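import Pool.Agent.Lib.MP_2c6f70_nt.RU.MB

/-!
# JOB PA: squares and two vertices of a walk

`sq_split`.  `c = c0^2 c1`, `d = d0^2 d1` with `c1, d1` squarefree (`Nat.sq_mul_squarefree`).  `g = gcd (c1, d1)`, `c1 = g u`, `d1 = g v`; `u, v` are coprime and squarefree, so `u v` is squarefree.
`b c d = b u v (g c0 d0)^2` is a square, so `b u v` is a square `s^2` (`Nat.sqrt`-free: if `t^2 * w` is a square and `t ≠ 0` then `w` is a square).  `u v ∣ s^2`, so `u v ∣ s` (`Squarefree.dvd_pow_iff_dvd`), `s = u v f`, `b = u v f^2`.  `m1 = u`, `m2 = v`.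

`exists_il`.  The walks are fibered over `(w.1, w.2.2.2) ∈ V × V`; some fiber has at least `#walks / #V^2 ≥ c #V^2` elements (sum over fibers, `Finset.card_eq_sum_card_fiberwise`);
the fiber over `(i, l)` injects by `w ↦ (w.2.1, w.2.2.1)` into the filter.
-/

set_option autoImplicit false

namespace Pool.Agent.Lib.MP_2c6f70_nt.RU

private theorem PA_sq_of_mul {t w : ℕ} (ht : 1 ≤ t) (h : IsSquare (t ^ 2 * w)) : IsSquare w := by
  obtain ⟨r, hr⟩ := h
  have hd : t ^ 2 ∣ r ^ 2 := ⟨w, by rw [sq r, ← hr]⟩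
  have hd' : t ∣ r := (Nat.pow_dvd_pow_iff (by norm_num)).1 hd
  obtain ⟨s, rfl⟩ := hd'
  refine ⟨s, ?_⟩
  have h0 : 0 < t ^ 2 := by positivity
  apply Nat.eq_of_mul_eq_mul_left h0
  rw [hr]; ring

theorem sq_split {b c d : ℕ} (hb : 1 ≤ b) (hc : 1 ≤ c) (hd : 1 ≤ d) (h : IsSquare (b * c * d)) :
    ∃ m₁ m₂ f : ℕ, b = m₁ * m₂ * f ^ 2 ∧ m₁ ∣ c ∧ m₂ ∣ d ∧ 1 ≤ m₁ ∧ 1 ≤ m₂ ∧ 1 ≤ f := by
  obtain ⟨c1, c0, hc0, hcs⟩ := Nat.sq_mul_squarefree c
  obtain ⟨d1, d0, hd0, hds⟩ := Nat.sq_mul_squarefree d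
  have hc1 : 1 ≤ c1 := Nat.pos_of_ne_zero hcs.ne_zero
  have hd1 : 1 ≤ d1 := Nat.pos_of_ne_zero hds.ne_zero
  have hc01 : 1 ≤ c0 := by
    rcases Nat.eq_zero_or_pos c0 with h0 | h0
    · rw [h0] at hc0; simp at hc0; omega
    · exact h0
  have hd01 : 1 ≤ d0 := by
    rcases Nat.eq_zero_or_pos d0 with h0 | h0
    · rw [h0] at hd0; simp at hd0; omega
    · exact h0
  have hg : 1 ≤ Nat.gcd c1 d1 := Nat.gcd_pos_of_pos_left _ hc1
  obtain ⟨u, hu⟩ := Nat.gcd_dvd_left c1 d1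
  obtain ⟨v, hv⟩ := Nat.gcd_dvd_right c1 d1
  set g := Nat.gcd c1 d1 with hgdef
  have hu1 : 1 ≤ u := by
    rcases Nat.eq_zero_or_pos u with h0 | h0
    · rw [h0] at hu; simp at hu; omega
    · exact h0
  have hv1 : 1 ≤ v := by
    rcases Nat.eq_zero_or_pos v with h0 | h0
    · rw [h0] at hv; simp at hv; omega
    · exact h0
  have huv : Nat.Coprime u v := by
    have := Nat.coprime_div_gcd_div_gcd (m := c1) (n := d1) hg
    rwa [← hgdef, hu, hv, Nat.mul_div_cancel_left _ hg, Nat.mul_div_cancel_left _ hg] at this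
  have hus : Squarefree u := hcs.squarefree_of_dvd ⟨g, by rw [hu]; ring⟩
  have hvs : Squarefree v := hds.squarefree_of_dvd ⟨g, by rw [hv]; ring⟩
  have huvs : Squarefree (u * v) := (Nat.squarefree_mul huv).2 ⟨hus, hvs⟩
  have hbuv : IsSquare (b * u * v) := by
    apply PA_sq_of_mul (t := g * c0 * d0) (by
      exact Nat.mul_pos (Nat.mul_pos hg hc01) hd01)
    have e : (g * c0 * d0) ^ 2 * (b * u * v) = b * c * d := by
      rw [← hc0, ← hd0, hu, hv]; ring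
    rw [e]; exact h
  obtain ⟨s, hs⟩ := hbuv
  have hdvd : u * v ∣ s ^ 2 := ⟨b, by rw [sq, ← hs]; ring⟩
  have hdvd' : u * v ∣ s := (huvs.dvd_pow_iff_dvd (by norm_num)).1 hdvd
  obtain ⟨f, hf⟩ := hdvd'
  have huv0 : 0 < u * v := Nat.mul_pos hu1 hv1
  have hbe : b = u * v * f ^ 2 := by
    apply Nat.eq_of_mul_eq_mul_left huv0
    calc u * v * b = b * u * v := by ring
      _ = s * s := hs
      _ = u * v * (u * v * f ^ 2) := by rw [hf]; ring
  refine ⟨u, v, f, hbe, ?_, ?_, hu1, hv1, ?_⟩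
  · exact ⟨c0 ^ 2 * g, by rw [← hc0, hu]; ring⟩
  · exact ⟨d0 ^ 2 * g, by rw [← hd0, hv]; ring⟩
  · rcases Nat.eq_zero_or_pos f with h0 | h0
    · rw [h0] at hbe; simp at hbe; omega
    · exact h0

open Classical in
theorem exists_il {V : Finset ℕ} {β : ℕ → ℕ → ℕ} {c : ℝ} (hV : V.Nonempty)
    (h : c * (V.card : ℝ) ^ 4 ≤ ((walks V β).card : ℝ)) :
    ∃ i ∈ V, ∃ l ∈ V, c * (V.card : ℝ) ^ 2 ≤
      (((V ×ˢ V).filter (fun t => i ≠ t.1 ∧ t.1 ≠ t.2 ∧ t.2 ≠ l ∧ l ≠ i ∧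
        IsSquare (β i t.1 * β t.1 t.2 * β t.2 l * β l i))).card : ℝ) := by
  by_contra hcon
  push Not at hcon
  have hfib : (walks V β).card = ∑ p ∈ V ×ˢ V, ((walks V β).filter (fun w => (w.1, w.2.2.2) = p)).card := by
    apply Finset.card_eq_sum_card_fiberwise
    intro w hw
    have hw' : w ∈ walks V β := hw
    unfold walks at hw'
    simp only [Finset.mem_filter, Finset.mem_product] at hw'
    simp only [Finset.coe_product, Set.mem_prod, Finset.mem_coe]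
    exact ⟨hw'.1.1, hw'.1.2.2.2⟩
  have hle : ∀ p ∈ V ×ˢ V, (((walks V β).filter (fun w => (w.1, w.2.2.2) = p)).card : ℝ) <
      c * (V.card : ℝ) ^ 2 := by
    intro p hp
    rw [Finset.mem_product] at hp
    refine lt_of_le_of_lt ?_ (hcon p.1 hp.1 p.2 hp.2)
    have : ((walks V β).filter (fun w => (w.1, w.2.2.2) = p)).card ≤
        ((V ×ˢ V).filter (fun t => p.1 ≠ t.1 ∧ t.1 ≠ t.2 ∧ t.2 ≠ p.2 ∧ p.2 ≠ p.1 ∧
        IsSquare (β p.1 t.1 * β t.1 t.2 * β t.2 p.2 * β p.2 p.1))).card := by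
      apply Finset.card_le_card_of_injOn (fun w => (w.2.1, w.2.2.1))
      · intro w hw
        have hw' := Finset.mem_filter.1 hw
        have hw1 := hw'.1
        unfold walks at hw1
        simp only [Finset.mem_filter, Finset.mem_product] at hw1
        obtain ⟨⟨-, h2, h3, -⟩, h5, h6, h7, h8, h9⟩ := hw1
        have e1 : w.1 = p.1 := by rw [← hw'.2]
        have e2 : w.2.2.2 = p.2 := by rw [← hw'.2]
        simp only [Finset.coe_filter, Finset.mem_product, Set.mem_ofPred_eq]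
        rw [← e1, ← e2]
        exact ⟨⟨h2, h3⟩, h5, h6, h7, h8, h9⟩
      · intro w hw w' hw' heq
        have h1 := (Finset.mem_filter.1 hw).2
        have h2 := (Finset.mem_filter.1 hw').2
        have h3 : (w.1, w.2.2.2) = (w'.1, w'.2.2.2) := by rw [h1, h2]
        simp only [Prod.mk.injEq] at heq h3
        obtain ⟨a1, a2, a3, a4⟩ := w
        obtain ⟨b1, b2, b3, b4⟩ := w'
        simp only at heq h3
        simp [heq.1, heq.2, h3.1, h3.2]
    exact_mod_cast this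
  have hVV : (V ×ˢ V).Nonempty := hV.product hV
  have hlt : ((walks V β).card : ℝ) < ∑ _p ∈ V ×ˢ V, c * (V.card : ℝ) ^ 2 := by
    rw [hfib]
    push_cast
    exact Finset.sum_lt_sum_of_nonempty hVV hle
  rw [Finset.sum_const, Finset.card_product, nsmul_eq_mul] at hlt
  push_cast at hlt
  have e : (V.card : ℝ) * V.card * (c * (V.card : ℝ) ^ 2) = c * (V.card : ℝ) ^ 4 := by ring
  rw [e] at hlt
  linarith

end Pool.Agent.Lib.MP_2c6f70_nt.RU
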