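import Mathlib

/-!
# Block S: two popular differences with a given ratio

`rep U d` is the number of `n ∈ U` with `n + d ∈ U`.
`popular_pair`.  Suppose that for every `d ≥ 1` one of `rep U d`, `rep U (w d)` is at most `B`.  Let `E` be the number of `(x, x', y, y') ∈ U^4` with `x + w x' = y + w y'`.
The map `(x, x') ↦ x + w x'` takes `U × U` to `range ((1 + w) N)`, so by Cauchy-Schwarz `#U^4 ≤ (1 + w) N E`.  The quadruples with `x' = y'` have `x = y`: `#U^2` of them.
Those with `x' = y' + d`, `d ≥ 1`, have `y = x + w d`: `∑_{d ≥ 1} rep U d * rep U (w d)`, and the same number with `y' = x' + d`.  As `rep U d * rep U (w d) ≤ B (rep U d + rep U (w d))`,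
`∑_{d ≥ 1} rep U d ≤ #U^2 / 2` and `∑_{d ≥ 1} rep U (w d) ≤ #U^2 / 2`, we get `E ≤ #U^2 + 2 B #U^2`, so `#U^2 ≤ (1 + w) N (1 + 2 B)`, a contradiction.
-/

set_option autoImplicit false

namespace Pool.Agent.Lib.MP_2c6f70_nt.RU

/-- Number of `n ∈ U` with `n + d ∈ U`. -/
def rep (U : Finset ℕ) (d : ℕ) : ℕ := (U.filter (fun n => n + d ∈ U)).card

open Finset

private theorem S_Pop_half (U : Finset ℕ) :
    2 * ((U ×ˢ U).filter (fun t => t.1 < t.2)).card ≤ U.card ^ 2 := by
  have h1 : ((U ×ˢ U).filter (fun t => t.1 < t.2)).card =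
      ((U ×ˢ U).filter (fun t => t.2 < t.1)).card := by
    refine card_bij' (fun t _ => (t.2, t.1)) (fun t _ => (t.2, t.1)) ?_ ?_ ?_ ?_
    · intro t ht
      simp only [mem_filter, mem_product] at ht ⊢
      exact ⟨⟨ht.1.2, ht.1.1⟩, ht.2⟩
    · intro t ht
      simp only [mem_filter, mem_product] at ht ⊢
      exact ⟨⟨ht.1.2, ht.1.1⟩, ht.2⟩
    · intro t _
      rfl
    · intro t _
      rfl
  have h2 : Disjoint ((U ×ˢ U).filter (fun t => t.1 < t.2)) ((U ×ˢ U).filter (fun t => t.2 < t.1)) := by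
    rw [disjoint_filter]
    intro t _ h3 h4
    exact lt_asymm h3 h4
  have h3 : ((U ×ˢ U).filter (fun t => t.1 < t.2)) ∪ ((U ×ˢ U).filter (fun t => t.2 < t.1)) ⊆ U ×ˢ U :=
    union_subset (filter_subset _ _) (filter_subset _ _)
  have h4 := card_le_card h3
  rw [card_union_of_disjoint h2, ← h1, card_product] at h4
  rw [sq, two_mul]
  exact h4

private theorem S_Pop_sum (U : Finset ℕ) (w N : ℕ) (hw : 1 ≤ w) :
    2 * ∑ d ∈ Icc 1 N, rep U (w * d) ≤ U.card ^ 2 := by
  refine le_trans (Nat.mul_le_mul_left 2 ?_) (S_Pop_half U)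
  have h1 : ∀ d ∈ Icc 1 N, rep U (w * d) =
      (((U ×ˢ U).filter (fun t => t.1 < t.2)).filter (fun t => t.2 = t.1 + w * d)).card := by
    intro d hd
    rw [mem_Icc] at hd
    have hwd : 1 ≤ w * d := Nat.mul_pos hw hd.1
    unfold rep
    refine card_bij' (fun n _ => (n, n + w * d)) (fun t _ => t.1) ?_ ?_ ?_ ?_
    · intro n hn
      simp only [mem_filter, mem_product] at hn ⊢
      exact ⟨⟨⟨hn.1, hn.2⟩, by omega⟩, trivial⟩
    · intro t ht
      simp only [mem_filter, mem_product] at ht ⊢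
      refine ⟨ht.1.1.1, ?_⟩
      rw [← ht.2]
      exact ht.1.1.2
    · intro n _
      rfl
    · intro t ht
      simp only [mem_filter, mem_product] at ht
      exact Prod.ext rfl ht.2.symm
  rw [sum_congr rfl h1, ← card_biUnion]
  · exact card_le_card (biUnion_subset.2 fun d _ => filter_subset _ _)
  · intro d _ e _ hde
    rw [Function.onFun, disjoint_filter]
    intro t _ h3 h4
    apply hde
    have h5 : w * d = w * e := by omega
    exact Nat.eq_of_mul_eq_mul_left hw h5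

private theorem S_Pop_side (U : Finset ℕ) (N w : ℕ) (hU : ∀ n ∈ U, n < N) :
    (((U ×ˢ U) ×ˢ (U ×ˢ U)).filter
      (fun t => t.1.1 + w * t.1.2 = t.2.1 + w * t.2.2 ∧ t.2.2 < t.1.2)).card ≤
      ∑ d ∈ Icc 1 N, rep U d * rep U (w * d) := by
  have h1 : ∀ d ∈ Icc 1 N, ((((U ×ˢ U) ×ˢ (U ×ˢ U)).filter
      (fun t => t.1.1 + w * t.1.2 = t.2.1 + w * t.2.2 ∧ t.2.2 < t.1.2)).filter
        (fun t => t.1.2 - t.2.2 = d)).card ≤ rep U d * rep U (w * d) := by
    intro d _
    unfold rep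
    rw [← card_product]
    apply card_le_card_of_injOn (fun t => (t.2.2, t.1.1))
    · intro t ht
      simp only [coe_filter, mem_filter, mem_product, Set.mem_ofPred_eq] at ht
      simp only [coe_product, coe_filter, Set.mem_prod, Set.mem_ofPred_eq]
      obtain ⟨⟨⟨⟨h3, h4⟩, h5, h6⟩, h7, h8⟩, h9⟩ := ht
      refine ⟨⟨h6, ?_⟩, h3, ?_⟩
      · have h10 : t.2.2 + d = t.1.2 := by omega
        rw [h10]
        exact h4
      · have h10 : t.1.2 = t.2.2 + d := by omega
        rw [h10, mul_add] at h7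
        have h11 : t.1.1 + w * d = t.2.1 := by omega
        rw [h11]
        exact h5
    · intro t ht s hs hts
      simp only [coe_filter, mem_filter, mem_product, Set.mem_ofPred_eq] at ht hs
      obtain ⟨⟨_, h7, h8⟩, h9⟩ := ht
      obtain ⟨⟨_, h7', h8'⟩, h9'⟩ := hs
      simp only [Prod.mk.injEq] at hts
      obtain ⟨e1, e2⟩ := hts
      have e3 : t.1.2 = s.1.2 := by omega
      have e4 : t.2.1 = s.2.1 := by
        rw [e2, e3, e1] at h7
        omega
      exact Prod.ext (Prod.ext e2 e3) (Prod.ext e4 e1)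
  rw [card_eq_sum_card_fiberwise (f := fun t : (ℕ × ℕ) × (ℕ × ℕ) => t.1.2 - t.2.2) (t := Icc 1 N)]
  · exact sum_le_sum h1
  · intro t ht
    simp only [coe_filter, mem_product, Set.mem_ofPred_eq] at ht
    rw [coe_Icc, Set.mem_Icc]
    have h3 := hU _ ht.1.1.2
    have h4 := ht.2.2
    dsimp only
    constructor <;> omega

theorem popular_pair (U : Finset ℕ) (N w B : ℕ) (hU : ∀ n ∈ U, n < N) (hw : 1 ≤ w)
    (h : (1 + w) * N * (1 + 2 * B) < U.card ^ 2) :
    ∃ d : ℕ, 1 ≤ d ∧ B < rep U d ∧ B < rep U (w * d) := by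
  by_contra hcon
  have hcon' : ∀ d, 1 ≤ d → rep U d * rep U (w * d) ≤ B * (rep U d + rep U (w * d)) := by
    intro d hd
    by_cases h1 : rep U d ≤ B
    · calc rep U d * rep U (w * d) ≤ B * rep U (w * d) := Nat.mul_le_mul_right _ h1
        _ ≤ B * (rep U d + rep U (w * d)) := Nat.mul_le_mul_left _ (Nat.le_add_left _ _)
    · have h2 : rep U (w * d) ≤ B := by
        by_contra h3
        exact hcon ⟨d, hd, not_le.1 h1, not_le.1 h3⟩
      calc rep U d * rep U (w * d) ≤ rep U d * B := Nat.mul_le_mul_left _ h2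
        _ = B * rep U d := mul_comm _ _
        _ ≤ B * (rep U d + rep U (w * d)) := Nat.mul_le_mul_left _ (Nat.le_add_right _ _)
  -- the quadruples
  obtain ⟨E, hE⟩ : ∃ E, E = ((U ×ˢ U) ×ˢ (U ×ˢ U)).filter
      (fun t : (ℕ × ℕ) × (ℕ × ℕ) => t.1.1 + w * t.1.2 = t.2.1 + w * t.2.2) := ⟨_, rfl⟩
  have hS : 2 * ∑ d ∈ Icc 1 N, rep U d * rep U (w * d) ≤ 2 * B * U.card ^ 2 := by
    have h1 : ∑ d ∈ Icc 1 N, rep U d * rep U (w * d) ≤
        B * (∑ d ∈ Icc 1 N, rep U d + ∑ d ∈ Icc 1 N, rep U (w * d)) := by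
      rw [← sum_add_distrib, mul_sum]
      exact sum_le_sum fun d hd => hcon' d (mem_Icc.1 hd).1
    have h2 := S_Pop_sum U w N hw
    have h3 := S_Pop_sum U 1 N le_rfl
    simp only [one_mul] at h3
    have h4 := Nat.mul_le_mul_left B (Nat.add_le_add h3 h2)
    calc 2 * ∑ d ∈ Icc 1 N, rep U d * rep U (w * d)
        ≤ 2 * (B * (∑ d ∈ Icc 1 N, rep U d + ∑ d ∈ Icc 1 N, rep U (w * d))) := Nat.mul_le_mul_left _ h1
      _ = B * (2 * ∑ d ∈ Icc 1 N, rep U d + 2 * ∑ d ∈ Icc 1 N, rep U (w * d)) := by ring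
      _ ≤ B * (U.card ^ 2 + U.card ^ 2) := h4
      _ = 2 * B * U.card ^ 2 := by ring
  have hEc : E.card ≤ U.card ^ 2 + 2 * B * U.card ^ 2 := by
    have hsub : E ⊆ ((E.filter (fun t => t.1.2 = t.2.2)) ∪ (E.filter (fun t => t.2.2 < t.1.2))) ∪
        (E.filter (fun t => t.1.2 < t.2.2)) := by
      intro t ht
      rw [mem_union, mem_union, mem_filter, mem_filter, mem_filter]
      rcases lt_trichotomy t.1.2 t.2.2 with h1 | h1 | h1
      · exact Or.inr ⟨ht, h1⟩
      · exact Or.inl (Or.inl ⟨ht, h1⟩)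
      · exact Or.inl (Or.inr ⟨ht, h1⟩)
    have h1 : (E.filter (fun t => t.1.2 = t.2.2)).card ≤ U.card ^ 2 := by
      rw [sq, ← card_product]
      apply card_le_card_of_injOn (fun t => t.1)
      · intro t ht
        rw [hE] at ht
        simp only [coe_filter, mem_filter, mem_product, Set.mem_ofPred_eq] at ht
        simp only [coe_product, Set.mem_prod, mem_coe]
        exact ht.1.1.1
      · intro t ht s hs hts
        rw [hE] at ht hs
        simp only [coe_filter, mem_filter, mem_product, Set.mem_ofPred_eq] at ht hs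
        obtain ⟨⟨_, h7⟩, h8⟩ := ht
        obtain ⟨⟨_, h7'⟩, h8'⟩ := hs
        have e1 : t.1 = s.1 := hts
        have e2 : t.2.2 = s.2.2 := by rw [← h8, ← h8', e1]
        have e3 : t.2.1 = s.2.1 := by
          rw [e1, e2] at h7
          omega
        exact Prod.ext e1 (Prod.ext e3 e2)
    have h2 : (E.filter (fun t => t.2.2 < t.1.2)).card ≤
        ∑ d ∈ Icc 1 N, rep U d * rep U (w * d) := by
      rw [hE, filter_filter]
      exact S_Pop_side U N w hU
    have h3 : (E.filter (fun t => t.1.2 < t.2.2)).card = (E.filter (fun t => t.2.2 < t.1.2)).card := by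
      refine card_bij' (fun t _ => (t.2, t.1)) (fun t _ => (t.2, t.1)) ?_ ?_ ?_ ?_
      · intro t ht
        rw [hE] at ht ⊢
        simp only [mem_filter, mem_product] at ht ⊢
        exact ⟨⟨⟨ht.1.1.2, ht.1.1.1⟩, ht.1.2.symm⟩, ht.2⟩
      · intro t ht
        rw [hE] at ht ⊢
        simp only [mem_filter, mem_product] at ht ⊢
        exact ⟨⟨⟨ht.1.1.2, ht.1.1.1⟩, ht.1.2.symm⟩, ht.2⟩
      · intro t _
        rfl
      · intro t _
        rfl
    have h4 := card_le_card hsub
    have h5 := card_union_le ((E.filter (fun t => t.1.2 = t.2.2)) ∪ (E.filter (fun t => t.2.2 < t.1.2)))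
      (E.filter (fun t => t.1.2 < t.2.2))
    have h6 := card_union_le (E.filter (fun t => t.1.2 = t.2.2)) (E.filter (fun t => t.2.2 < t.1.2))
    omega
  -- Cauchy-Schwarz
  have hCS : (U.card ^ 2) ^ 2 ≤ (1 + w) * N * E.card := by
    obtain ⟨R, hR⟩ : ∃ R, R = range ((1 + w) * N) := ⟨_, rfl⟩
    have h1 : U.card ^ 2 = ∑ v ∈ R, ((U ×ˢ U).filter (fun t => t.1 + w * t.2 = v)).card := by
      rw [sq, ← card_product]
      apply card_eq_sum_card_fiberwise
      intro t ht
      rw [mem_coe, mem_product] at ht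
      rw [mem_coe, hR, mem_range]
      have h2 := hU _ ht.1
      have h3 := Nat.mul_le_mul_left w (hU _ ht.2).le
      have h4 : (1 + w) * N = N + w * N := by ring
      dsimp only
      rw [h4]
      omega
    have h2 : E.card = ∑ v ∈ R, ((U ×ˢ U).filter (fun t => t.1 + w * t.2 = v)).card ^ 2 := by
      have h3 : E.card = ∑ v ∈ R, (E.filter (fun t => t.1.1 + w * t.1.2 = v)).card := by
        apply card_eq_sum_card_fiberwise
        intro t ht
        rw [hE] at ht
        simp only [coe_filter, mem_product, Set.mem_ofPred_eq] at ht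
        rw [mem_coe, hR, mem_range]
        have h2 := hU _ ht.1.1.1
        have h3 := Nat.mul_le_mul_left w (hU _ ht.1.1.2).le
        have h4 : (1 + w) * N = N + w * N := by ring
        dsimp only
        rw [h4]
        omega
      rw [h3]
      refine sum_congr rfl fun v _ => ?_
      rw [sq, ← card_product]
      refine congrArg _ ?_
      ext t
      rw [hE]
      simp only [mem_filter, mem_product]
      constructor
      · rintro ⟨⟨⟨h4, h5⟩, h6⟩, h7⟩
        exact ⟨⟨h4, h7⟩, h5, by omega⟩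
      · rintro ⟨⟨h4, h7⟩, h5, h8⟩
        exact ⟨⟨⟨h4, h5⟩, by omega⟩, h7⟩
    rw [h1, h2]
    have h3 := sq_sum_le_card_mul_sum_sq (s := R)
      (f := fun v => ((U ×ˢ U).filter (fun t => t.1 + w * t.2 = v)).card)
    rw [hR, card_range, ← hR] at h3
    exact h3
  have hpos : 0 < U.card ^ 2 := lt_of_le_of_lt (Nat.zero_le _) h
  have h1 : (U.card ^ 2) ^ 2 ≤ (1 + w) * N * (1 + 2 * B) * U.card ^ 2 := by
    calc (U.card ^ 2) ^ 2 ≤ (1 + w) * N * E.card := hCS
      _ ≤ (1 + w) * N * (U.card ^ 2 + 2 * B * U.card ^ 2) := Nat.mul_le_mul_left _ hEc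
      _ = _ := by ring
  have h2 : U.card ^ 2 ≤ (1 + w) * N * (1 + 2 * B) := by
    rw [sq (U.card ^ 2)] at h1
    exact Nat.le_of_mul_le_mul_right h1 hpos
  omega

end Pool.Agent.Lib.MP_2c6f70_nt.RU
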