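import Pool.Agent.Lib.MP_2c6f70_nt.RU.DB
import Pool.Agent.Lib.MP_2c6f70_nt.RU.DC
import Pool.Agent.Lib.MP_2c6f70_nt.RU.S_Pop

/-!
# Block S: popular differences are good, for a given common neighbourhood

Variant of `clique_of_nbhd` (file `DD`, whose proof is followed).  The exceptional pairs are counted for every difference `d` separately: if `x < y` and `|n_x - n_y| = d` then `aa x y` and `bb x y` divide `cq q * d`; a value of `bb` (`aa`)
which is not frequent is taken by fewer than `m` pairs; so among the pairs `x < y` with difference `d` at most `2 m τ(cq q * d)` have a value of `aa` or `bb` that is not frequent.  If `d` is the difference of more pairs, there is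
one with both values frequent, and then `J(d|p) = ω p` for all `p ∈ G` off a set of weight `2 (1/m + c) log q`.
-/

set_option autoImplicit false

namespace Pool.Agent.Lib.MP_2c6f70_nt.RU

open Pool.Agent.Lib.MP_2c6f70_nt Pool.Agent.Lib.MP_2c6f70_nt.KW

/-- All the symbols in question are `± 1`. -/
private theorem S_Nb_cq_pm {q p : ℕ} (hq : q ≠ 0) (hp : p.Prime) (hp2 : p ≠ 2) :
    jacobiSym (cq q : ℤ) p = 1 ∨ jacobiSym (cq q : ℤ) p = -1 := by
  have h8 : cq q ∣ 8 := (prod_mr hq).2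
  have hcop : Nat.Coprime (cq q) p := by
    have h1 : Nat.Coprime 8 p := by
      have : (8 : ℕ) = 2 ^ 3 := by norm_num
      rw [this]
      exact Nat.Coprime.pow_left 3 ((Nat.coprime_primes Nat.prime_two hp).2 (Ne.symm hp2))
    exact Nat.Coprime.coprime_dvd_left h8 h1
  have : (cq q : ℤ).gcd (p : ℤ) = 1 := by
    rw [Int.gcd_natCast_natCast]
    exact hcop
  exact jacobiSym.eq_one_or_neg_one this

/-- Pairs with values in a set `D`, each value taken with `t.1 < t.2` fewer than `m` times. -/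
private theorem S_Nb_count {V D : Finset ℕ} {m : ℕ} {T : Finset (ℕ × ℕ)} (f : ℕ → ℕ → ℕ)
    (hT : ∀ t ∈ T, t.1 ∈ V ∧ t.2 ∈ V ∧ t.1 < t.2 ∧ f t.1 t.2 ∈ D ∧
      ((V ×ˢ V).filter (fun s => s.1 < s.2 ∧ f s.1 s.2 = f t.1 t.2)).card < m) :
    T.card ≤ m * D.card := by
  classical
  have key : ∀ b ∈ D, (T.filter (fun t => f t.1 t.2 = b)).card ≤ m := by
    intro b _
    rcases (T.filter (fun t => f t.1 t.2 = b)).eq_empty_or_nonempty with h0 | ⟨t₀, ht₀⟩
    · rw [h0]; simp
    · rw [Finset.mem_filter] at ht₀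
      obtain ⟨ht₀, hb⟩ := ht₀
      have h1 := (hT t₀ ht₀).2.2.2.2
      rw [hb] at h1
      refine le_trans (Finset.card_le_card ?_) h1.le
      intro t ht
      rw [Finset.mem_filter] at ht
      obtain ⟨ht, hbt⟩ := ht
      obtain ⟨h2, h3, h4, _, _⟩ := hT t ht
      rw [Finset.mem_filter, Finset.mem_product]
      exact ⟨⟨h2, h3⟩, h4, hbt⟩
  exact Finset.card_le_mul_card_image_of_maps_to (fun t ht => (hT t ht).2.2.2.1) m key

/-- The number of pairs of `V` with index difference `d`. -/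
private theorem S_Nb_rep {q a N : ℕ} {S V : Finset ℕ} (h : Ctx q a N S) (d : ℕ) (hd : 1 ≤ d) :
    rep (V.image (nn q a)) d ≤
      ((V ×ˢ V).filter (fun s => s.1 < s.2 ∧ dn q a s.1 s.2 = d)).card := by
  classical
  have hq0 : 0 < q := by have := h.hq; omega
  unfold rep
  have hsub : ((V.image (nn q a)).filter (fun n => n + d ∈ V.image (nn q a))) ⊆
      ((V ×ˢ V).filter (fun s => s.1 < s.2 ∧ dn q a s.1 s.2 = d)).image (fun s => nn q a s.1) := by
    intro n hn
    rw [Finset.mem_filter, Finset.mem_image, Finset.mem_image] at hn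
    obtain ⟨⟨x, hx, hxn⟩, y, hy, hyn⟩ := hn
    rw [Finset.mem_image]
    refine ⟨(x, y), ?_, hxn⟩
    rw [Finset.mem_filter, Finset.mem_product]
    refine ⟨⟨hx, hy⟩, ?_, ?_⟩
    · have h1 : nn q a x < nn q a y := by omega
      by_contra hcon
      have h2 : y ≤ x := not_lt.1 hcon
      have h3 : nn q a y ≤ nn q a x := by
        unfold nn
        exact Nat.div_le_div_right (Nat.sub_le_sub_right (Nat.pow_le_pow_left h2 2) a)
      omega
    · show Nat.dist (nn q a x) (nn q a y) = d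
      rw [Nat.dist_eq_sub_of_le (by omega : nn q a x ≤ nn q a y)]
      omega
  exact (Finset.card_le_card hsub).trans Finset.card_image_le

open Classical in
theorem good_of_nbhd {q a N : ℕ} {S K V : Finset ℕ} {M : Finset (ℕ × ℕ)} {z b₀ b₁ m : ℕ} {c κ₀ : ℝ} (h : Ctx q a N S)
    (hz : z ∈ S) (hc : 0 ≤ c) (hC : Corr q z S c) (hK : K ⊆ S) (hV : V ⊆ S) (hm : 1 ≤ m) (hKm : K.card = m)
    (hb : ∀ x ∈ V, ∀ k ∈ K, x ≠ k ∧ bb q z x k = b₀)
    (hM : M ⊆ pairs V) (hMm : M.card = m)
    (hdis : ∀ s ∈ M, ∀ t ∈ M, s ≠ t → s.1 ≠ t.1 ∧ s.1 ≠ t.2 ∧ s.2 ≠ t.1 ∧ s.2 ≠ t.2)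
    (hb1 : ∀ t ∈ M, bb q z t.1 t.2 = b₁)
    (hVm : 2 * m + 1 ≤ V.card)
    (hκ : 3 * Real.sqrt (1 / m + c) + 2 * (1 / m + c) ≤ κ₀ / 2) (hW : Real.log 8 ≤ κ₀ / 2 * Real.log q) :
    ∃ (G : Finset ℕ) (ω : ℕ → ℤ), G ⊆ q.primeFactors ∧ (∀ p ∈ G, p % 4 = 1 ∧ (ω p = 1 ∨ ω p = -1)) ∧
      (1 - κ₀) * Real.log q ≤ ∑ p ∈ G, wp q p ∧
      ∀ d : ℕ, 1 ≤ d → 2 * m * (cq q * d).divisors.card < rep (V.image (nn q a)) d →
        ∑ p ∈ G.filter (fun p => jacobiSym (d : ℤ) p ≠ ω p), wp q p ≤ κ₀ * Real.log q := by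
  classical
  have hq0 : q ≠ 0 := by have := h.hq; omega
  have hW0 : 0 ≤ Real.log q := Real.log_nonneg (by exact_mod_cast (by have := h.hq; omega : 1 ≤ q))
  have hm0 : (0 : ℝ) < m := by exact_mod_cast hm
  have hmc : 0 ≤ 1 / (m : ℝ) + c := by positivity
  have hs0 : 0 ≤ Real.sqrt (1 / (m : ℝ) + c) := Real.sqrt_nonneg _
  have hκ0 : 0 ≤ κ₀ := by nlinarith
  have hκ2 : 2 * (1 / (m : ℝ) + c) ≤ κ₀ := by nlinarith
  set BS : ℕ → Prop := fun p => (∃ k ∈ K, sg q z p k = 1) ∧ ∃ k ∈ K, sg q z p k = -1 with hBS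
  set G := q.primeFactors.filter (fun p => p % 4 = 1 ∧ BS p) with hG
  have hGsub : G ⊆ q.primeFactors := Finset.filter_subset _ _
  have hodd : ∀ p ∈ q.primeFactors, p ≠ 2 → p % 4 = 1 ∨ p % 4 = 3 := by
    intro p hp hp2
    have hpr := (Nat.prime_of_mem_primeFactors hp)
    have := hpr.eq_two_or_odd
    omega
  -- the values
  have hval : ∀ p, ∃ κ ω : ℤ, p ∈ G → (κ = 1 ∨ κ = -1) ∧ (ω = 1 ∨ ω = -1) ∧ ∀ x ∈ V, ∀ y ∈ V, x ≠ y →
      (sg q z p x = sg q z p y → jacobiSym (bb q z x y) p = κ) ∧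
      (sg q z p x ≠ sg q z p y → jacobiSym (aa q z x y) p = ω) := by
    intro p
    by_cases hp : p ∈ G
    · have hp' := hp
      rw [hG, Finset.mem_filter] at hp'
      obtain ⟨κ, ω, h1, h2, h3⟩ := val_one h hz hK hV hb hp'.1 hp'.2.1 hp'.2.2.1 hp'.2.2.2
      exact ⟨κ, ω, fun _ => ⟨h1, h2, h3⟩⟩
    · exact ⟨1, 1, fun h => absurd h hp⟩
  choose κ ω' hκω using hval
  have hcqpm : ∀ p ∈ G, jacobiSym (cq q : ℤ) p = 1 ∨ jacobiSym (cq q : ℤ) p = -1 := by
    intro p hp
    rw [hG, Finset.mem_filter] at hp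
    apply S_Nb_cq_pm hq0 (Nat.prime_of_mem_primeFactors hp.1)
    rintro rfl
    have := hp.2.1
    omega
  -- the exceptional sets
  set Db : ℕ → Finset ℕ := fun b => G.filter (fun p => jacobiSym (b : ℤ) p ≠ κ p) with hDb
  set Da : ℕ → Finset ℕ := fun a => G.filter (fun p => jacobiSym (a : ℤ) p ≠ ω' p) with hDa
  have hDbw : ∀ b : ℕ, m ≤ ((V ×ˢ V).filter (fun s => s.1 < s.2 ∧ bb q z s.1 s.2 = b)).card →
      ∑ p ∈ Db b, wp q p ≤ (1 / (m : ℝ) + c) * Real.log q := by
    intro b hmb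
    set Mb := (V ×ˢ V).filter (fun s => s.1 < s.2 ∧ bb q z s.1 s.2 = b) with hMb
    have h1 : 1 ≤ Mb.card := hm.trans hmb
    have h2 : ∑ p ∈ Db b, wp q p ≤ (1 / (Mb.card : ℝ) + c) * Real.log q := by
      apply disagree (s := -1) h.hq hc hC _ h1 (Or.inr rfl) ((Finset.filter_subset _ _).trans hGsub)
      · intro t ht p hp
        rw [hMb, Finset.mem_filter, Finset.mem_product] at ht
        obtain ⟨⟨h3, h4⟩, h5, h6⟩ := ht
        rw [Finset.mem_filter] at hp
        obtain ⟨hpG, hne⟩ := hp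
        have h7 := ((hκω p hpG).2.2 t.1 h3 t.2 h4 h5.ne).1
        have h8 : sg q z p t.1 ≠ sg q z p t.2 := by
          intro he
          apply hne
          rw [← h6]
          exact h7 he
        rcases sg_eq_or q z p t.1 with h9 | h9 <;> rcases sg_eq_or q z p t.2 with h10 | h10 <;>
          rw [h9, h10] at h8 ⊢ <;> first | exact absurd rfl h8 | norm_num
      · intro t ht
        rw [hMb, Finset.mem_filter, Finset.mem_product] at ht
        exact ⟨hV ht.1.1, hV ht.1.2, ht.2.1⟩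
    refine h2.trans ?_
    gcongr
  have hDaw : ∀ b : ℕ, m ≤ ((V ×ˢ V).filter (fun s => s.1 < s.2 ∧ aa q z s.1 s.2 = b)).card →
      ∑ p ∈ Da b, wp q p ≤ (1 / (m : ℝ) + c) * Real.log q := by
    intro b hmb
    set Mb := (V ×ˢ V).filter (fun s => s.1 < s.2 ∧ aa q z s.1 s.2 = b) with hMb
    have h1 : 1 ≤ Mb.card := hm.trans hmb
    have h2 : ∑ p ∈ Da b, wp q p ≤ (1 / (Mb.card : ℝ) + c) * Real.log q := by
      apply disagree (s := 1) h.hq hc hC _ h1 (Or.inl rfl) ((Finset.filter_subset _ _).trans hGsub)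
      · intro t ht p hp
        rw [hMb, Finset.mem_filter, Finset.mem_product] at ht
        obtain ⟨⟨h3, h4⟩, h5, h6⟩ := ht
        rw [Finset.mem_filter] at hp
        obtain ⟨hpG, hne⟩ := hp
        have h7 := ((hκω p hpG).2.2 t.1 h3 t.2 h4 h5.ne).2
        have h8 : sg q z p t.1 = sg q z p t.2 := by
          by_contra he
          apply hne
          rw [← h6]
          exact h7 he
        rw [h8]
        exact sg_sq q z p t.2
      · intro t ht
        rw [hMb, Finset.mem_filter, Finset.mem_product] at ht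
        exact ⟨hV ht.1.1, hV ht.1.2, ht.2.1⟩
    refine h2.trans ?_
    gcongr
  have hwG : ∀ D ⊆ G, ∀ p ∈ D, 0 ≤ wp q p := fun D hD p hp => wp_nonneg (hGsub (hD hp))
  refine ⟨G, fun p => jacobiSym (cq q : ℤ) p * κ p * ω' p, hGsub, ?_, ?_, ?_⟩
  · intro p hp
    refine ⟨(Finset.mem_filter.1 hp).2.1, ?_⟩
    obtain ⟨h1, h2, _⟩ := hκω p hp
    dsimp only
    rcases hcqpm p hp with h3 | h3 <;> rcases h1 with h1 | h1 <;> rcases h2 with h2 | h2 <;>
      rw [h3, h1, h2] <;> norm_num
  · -- the weight of `G`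
    set P2 := q.primeFactors.filter (fun p => p = 2) with hP2
    set Bad := q.primeFactors.filter (fun p => ¬ ((∃ k ∈ K, sg q z p k = 1) ∧ ∃ k ∈ K, sg q z p k = -1)) with hBad
    set G3 := q.primeFactors.filter (fun p => p % 4 = 3 ∧ BS p) with hG3
    have hsub : q.primeFactors ⊆ ((G ∪ P2) ∪ Bad) ∪ G3 := by
      intro p hp
      rw [Finset.mem_union, Finset.mem_union, Finset.mem_union]
      by_cases h1 : BS p
      · by_cases h2 : p = 2
        · left; left; right
          rw [hP2, Finset.mem_filter]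
          exact ⟨hp, h2⟩
        · rcases hodd p hp h2 with h3 | h3
          · left; left; left
            rw [hG, Finset.mem_filter]
            exact ⟨hp, h3, h1⟩
          · right
            rw [hG3, Finset.mem_filter]
            exact ⟨hp, h3, h1⟩
      · left; right
        rw [hBad, Finset.mem_filter]
        exact ⟨hp, h1⟩
    have hw : ∀ D ⊆ q.primeFactors, ∀ p ∈ D, 0 ≤ wp q p := fun D hD p hp => wp_nonneg (hD hp)
    have hP2s : P2 ⊆ q.primeFactors := Finset.filter_subset _ _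
    have hBads : Bad ⊆ q.primeFactors := Finset.filter_subset _ _
    have hG3s : G3 ⊆ q.primeFactors := Finset.filter_subset _ _
    have hun : ∀ A B : Finset ℕ, A ⊆ q.primeFactors → B ⊆ q.primeFactors →
        ∑ p ∈ A ∪ B, wp q p ≤ ∑ p ∈ A, wp q p + ∑ p ∈ B, wp q p := by
      intro A B hA hB
      rw [← Finset.sum_union_inter]
      have : 0 ≤ ∑ p ∈ A ∩ B, wp q p :=
        Finset.sum_nonneg (hw _ (Finset.inter_subset_left.trans hA))
      linarith
    have hall : ∑ p ∈ q.primeFactors, wp q p ≤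
        ∑ p ∈ G, wp q p + ∑ p ∈ P2, wp q p + ∑ p ∈ Bad, wp q p + ∑ p ∈ G3, wp q p := by
      have h1 : ∑ p ∈ q.primeFactors, wp q p ≤ ∑ p ∈ ((G ∪ P2) ∪ Bad) ∪ G3, wp q p := by
        apply Finset.sum_le_sum_of_subset_of_nonneg hsub
        intro p hp _
        exact hw _ (Finset.union_subset (Finset.union_subset (Finset.union_subset hGsub hP2s) hBads) hG3s) p hp
      have h2 := hun ((G ∪ P2) ∪ Bad) G3 (Finset.union_subset (Finset.union_subset hGsub hP2s) hBads) hG3s
      have h3 := hun (G ∪ P2) Bad (Finset.union_subset hGsub hP2s) hBads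
      have h4 := hun G P2 hGsub hP2s
      linarith
    have hP2w : ∑ p ∈ P2, wp q p ≤ (1 / (m : ℝ) + c) * Real.log q := by
      by_cases h2 : 2 ∈ q.primeFactors
      · have : P2 = {2} := by
          rw [hP2]
          ext p
          rw [Finset.mem_filter, Finset.mem_singleton]
          constructor
          · exact fun h => h.2
          · rintro rfl
            exact ⟨h2, rfl⟩
        rw [this, Finset.sum_singleton]
        exact weight_two h.hq hc hC hV hm hVm h2
      · have : P2 = ∅ := by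
          rw [hP2]
          apply Finset.filter_eq_empty_iff.2
          intro p hp h3
          exact h2 (h3 ▸ hp)
        rw [this, Finset.sum_empty]
        positivity
    have hBadw : ∑ p ∈ Bad, wp q p ≤ (1 / (m : ℝ) + c) * Real.log q := by
      have := bad_weight h.hq hc hC hK (by rw [hKm]; exact hm)
      rw [hKm] at this
      exact this
    have hG3w : ∑ p ∈ G3, wp q p ≤ 3 * Real.sqrt (1 / (m : ℝ) + c) * Real.log q := by
      have hval3 : ∀ p, ∃ κ : ℤ, p ∈ G3 → (κ = 1 ∨ κ = -1) ∧ ∀ x ∈ V, ∀ y ∈ V, x ≠ y →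
          sg q z p x = sg q z p y →
          ∀ e : ℤ, (e : ℝ) = sg q z p x → jacobiSym (bb q z x y) p = κ * e := by
        intro p
        by_cases hp : p ∈ G3
        · have hp' := hp
          rw [hG3, Finset.mem_filter] at hp'
          obtain ⟨κ, h1, h2⟩ := val_three h hz hK hV hb hp'.1 hp'.2.1 hp'.2.2.1 hp'.2.2.2
          exact ⟨κ, fun _ => ⟨h1, h2⟩⟩
        · exact ⟨1, fun h => absurd h hp⟩
      choose κ3 hκ3 using hval3
      have h3 := weight3 (G := G3) (M := M) (S := S) (z := z)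
        (e := fun p => if (κ3 p * jacobiSym (b₁ : ℤ) p = 1 ∨ κ3 p * jacobiSym (b₁ : ℤ) p = -1) then
          ((κ3 p * jacobiSym (b₁ : ℤ) p : ℤ) : ℝ) else 1) h.hq hc hC
        (by
          intro t ht
          have := hM ht
          rw [pairs, Finset.mem_filter, Finset.mem_product] at this
          exact ⟨hV this.1.1, hV this.1.2, this.2⟩) (by rw [hMm]; exact hm) hdis hG3s
        (by
          intro p hp
          split_ifs with h1
          · rcases h1 with h1 | h1 <;> rw [h1] <;> norm_num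
          · left; rfl)
        (by
          intro t ht p hp hst
          have ht' := hM ht
          rw [pairs, Finset.mem_filter, Finset.mem_product] at ht'
          obtain ⟨⟨h1, h2⟩, hne⟩ := ht'
          obtain ⟨hk, hk2⟩ := hκ3 p hp
          have h3 := hk2 t.1 h1 t.2 h2 hne hst
          rw [hb1 t ht] at h3
          have hkk : κ3 p * κ3 p = 1 := by
            rcases hk with hk | hk <;> rw [hk] <;> norm_num
          rcases sg_eq_or q z p t.1 with h4 | h4
          · have h5 := h3 1 (by rw [h4]; norm_num)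
            have h6 : κ3 p * jacobiSym (b₁ : ℤ) p = 1 := by
              rw [h5, mul_one]; exact hkk
            rw [if_pos (Or.inl h6), h6, h4]
            norm_num
          · have h5 := h3 (-1) (by rw [h4]; norm_num)
            have h6 : κ3 p * jacobiSym (b₁ : ℤ) p = -1 := by
              rw [h5]
              linear_combination (-1 : ℤ) * hkk
            rw [if_pos (Or.inr h6), h6, h4]
            norm_num)
      rw [hMm] at h3
      exact h3
    have htot := (sum_wp hq0).2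
    have hfin : (3 * Real.sqrt (1 / (m : ℝ) + c) + 2 * (1 / (m : ℝ) + c)) * Real.log q ≤
        κ₀ / 2 * Real.log q := mul_le_mul_of_nonneg_right hκ hW0
    nlinarith
  · -- the popular differences
    intro d hd hrep
    set T := (V ×ˢ V).filter (fun s => s.1 < s.2 ∧ dn q a s.1 s.2 = d) with hT
    have hTc : 2 * m * (cq q * d).divisors.card < T.card :=
      lt_of_lt_of_le hrep (S_Nb_rep h d hd)
    have hcq0 : cq q ≠ 0 := by
      intro h0
      have h1 := (prod_mr hq0).1
      rw [h0, zero_mul] at h1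
      exact hq0 h1.symm
    have hcd : cq q * d ≠ 0 := Nat.mul_ne_zero hcq0 (by omega)
    have hdv : ∀ t ∈ T, bb q z t.1 t.2 ∈ (cq q * d).divisors ∧ aa q z t.1 t.2 ∈ (cq q * d).divisors := by
      intro t ht
      rw [hT, Finset.mem_filter, Finset.mem_product] at ht
      obtain ⟨⟨hx, hy⟩, _, hdn⟩ := ht
      have h1 := aa_bb h (hV hx) (hV hy) hz
      rw [hdn] at h1
      rw [Nat.mem_divisors, Nat.mem_divisors, ← h1]
      rw [← h1] at hcd
      exact ⟨⟨Dvd.intro_left _ rfl, hcd⟩, ⟨Dvd.intro _ rfl, hcd⟩⟩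
    -- a pair with both values frequent
    obtain ⟨t, htT, h1, h2⟩ : ∃ t ∈ T,
        m ≤ ((V ×ˢ V).filter (fun s => s.1 < s.2 ∧ bb q z s.1 s.2 = bb q z t.1 t.2)).card ∧
        m ≤ ((V ×ˢ V).filter (fun s => s.1 < s.2 ∧ aa q z s.1 s.2 = aa q z t.1 t.2)).card := by
      by_contra hcon
      have hcon' : ∀ t ∈ T,
          m ≤ ((V ×ˢ V).filter (fun s => s.1 < s.2 ∧ bb q z s.1 s.2 = bb q z t.1 t.2)).card →
          ((V ×ˢ V).filter (fun s => s.1 < s.2 ∧ aa q z s.1 s.2 = aa q z t.1 t.2)).card < m := by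
        intro t ht h1
        by_contra h2
        exact hcon ⟨t, ht, h1, not_lt.1 h2⟩
      set T1 := T.filter (fun t =>
        ((V ×ˢ V).filter (fun s => s.1 < s.2 ∧ bb q z s.1 s.2 = bb q z t.1 t.2)).card < m) with hT1
      set T2 := T.filter (fun t =>
        ((V ×ˢ V).filter (fun s => s.1 < s.2 ∧ aa q z s.1 s.2 = aa q z t.1 t.2)).card < m) with hT2
      have hTmem : ∀ t ∈ T, t.1 ∈ V ∧ t.2 ∈ V ∧ t.1 < t.2 := by
        intro t ht
        rw [hT, Finset.mem_filter, Finset.mem_product] at ht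
        exact ⟨ht.1.1, ht.1.2, ht.2.1⟩
      have hc1 : T1.card ≤ m * (cq q * d).divisors.card := by
        apply S_Nb_count (V := V) (fun x y => bb q z x y)
        intro t ht
        rw [hT1, Finset.mem_filter] at ht
        obtain ⟨h3, h4, h5⟩ := hTmem t ht.1
        exact ⟨h3, h4, h5, (hdv t ht.1).1, ht.2⟩
      have hc2 : T2.card ≤ m * (cq q * d).divisors.card := by
        apply S_Nb_count (V := V) (fun x y => aa q z x y)
        intro t ht
        rw [hT2, Finset.mem_filter] at ht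
        obtain ⟨h3, h4, h5⟩ := hTmem t ht.1
        exact ⟨h3, h4, h5, (hdv t ht.1).2, ht.2⟩
      have hsub : T ⊆ T1 ∪ T2 := by
        intro t ht
        rw [Finset.mem_union]
        by_cases h3 : ((V ×ˢ V).filter (fun s => s.1 < s.2 ∧ bb q z s.1 s.2 = bb q z t.1 t.2)).card < m
        · exact Or.inl (Finset.mem_filter.2 ⟨ht, h3⟩)
        · exact Or.inr (Finset.mem_filter.2 ⟨ht, hcon' t ht (not_lt.1 h3)⟩)
      have h3 : T.card ≤ T1.card + T2.card :=
        (Finset.card_le_card hsub).trans (Finset.card_union_le _ _)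
      have h4 : 2 * m * (cq q * d).divisors.card = m * (cq q * d).divisors.card +
          m * (cq q * d).divisors.card := by ring
      omega
    have htT' := htT
    rw [hT, Finset.mem_filter, Finset.mem_product] at htT'
    obtain ⟨⟨hx, hy⟩, hlt, hdn⟩ := htT'
    have hw1 := hDbw _ h1
    have hw2 := hDaw _ h2
    have hsub2 : G.filter (fun p => jacobiSym (d : ℤ) p ≠
        jacobiSym (cq q : ℤ) p * κ p * ω' p) ⊆ Db (bb q z t.1 t.2) ∪ Da (aa q z t.1 t.2) := by
      intro p hp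
      rw [Finset.mem_filter] at hp
      obtain ⟨hpG, hpne⟩ := hp
      rw [Finset.mem_union]
      by_contra hcon
      rw [not_or] at hcon
      obtain ⟨hd1, hd2⟩ := hcon
      have h3 : jacobiSym (bb q z t.1 t.2 : ℤ) p = κ p := by
        by_contra h
        exact hd1 (by rw [hDb, Finset.mem_filter]; exact ⟨hpG, h⟩)
      have h4 : jacobiSym (aa q z t.1 t.2 : ℤ) p = ω' p := by
        by_contra h
        exact hd2 (by rw [hDa, Finset.mem_filter]; exact ⟨hpG, h⟩)
      apply hpne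
      have h5 : (aa q z t.1 t.2 : ℤ) * (bb q z t.1 t.2 : ℤ) = (cq q : ℤ) * (d : ℤ) := by
        have h6 := aa_bb h (hV hx) (hV hy) hz
        rw [hdn] at h6
        exact_mod_cast h6
      have h6 : jacobiSym ((aa q z t.1 t.2 : ℤ) * (bb q z t.1 t.2 : ℤ)) p =
          jacobiSym ((cq q : ℤ) * (d : ℤ)) p := by rw [h5]
      rw [jacobiSym.mul_left, jacobiSym.mul_left, h3, h4] at h6
      have h7 : jacobiSym (cq q : ℤ) p * jacobiSym (cq q : ℤ) p = 1 := by
        rcases hcqpm p hpG with h | h <;> rw [h] <;> norm_num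
      calc jacobiSym (d : ℤ) p =
          (jacobiSym (cq q : ℤ) p * jacobiSym (cq q : ℤ) p) * jacobiSym (d : ℤ) p := by
            rw [h7, one_mul]
        _ = jacobiSym (cq q : ℤ) p * (jacobiSym (cq q : ℤ) p * jacobiSym (d : ℤ) p) := by
            ring
        _ = jacobiSym (cq q : ℤ) p * (ω' p * κ p) := by rw [← h6]
        _ = jacobiSym (cq q : ℤ) p * κ p * ω' p := by ring
    have hDs : Db (bb q z t.1 t.2) ∪ Da (aa q z t.1 t.2) ⊆ G :=
      Finset.union_subset (Finset.filter_subset _ _) (Finset.filter_subset _ _)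
    have h8 : ∑ p ∈ G.filter (fun p => jacobiSym (d : ℤ) p ≠
        jacobiSym (cq q : ℤ) p * κ p * ω' p), wp q p ≤
        ∑ p ∈ Db (bb q z t.1 t.2) ∪ Da (aa q z t.1 t.2), wp q p :=
      Finset.sum_le_sum_of_subset_of_nonneg hsub2 (fun p hp _ => hwG _ hDs p hp)
    have h9 : ∑ p ∈ Db (bb q z t.1 t.2) ∪ Da (aa q z t.1 t.2), wp q p ≤
        ∑ p ∈ Db (bb q z t.1 t.2), wp q p + ∑ p ∈ Da (aa q z t.1 t.2), wp q p := by
      rw [← Finset.sum_union_inter]
      have : 0 ≤ ∑ p ∈ Db (bb q z t.1 t.2) ∩ Da (aa q z t.1 t.2), wp q p :=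
        Finset.sum_nonneg (hwG _ (Finset.inter_subset_left.trans (Finset.filter_subset _ _)))
      linarith
    have h10 : 2 * (1 / (m : ℝ) + c) * Real.log q ≤ κ₀ * Real.log q :=
      mul_le_mul_of_nonneg_right hκ2 hW0
    exact (h8.trans h9).trans (by linarith)

end Pool.Agent.Lib.MP_2c6f70_nt.RU
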