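import Pool.Agent.Lib.MP_2c6f70_nt.RU.EA

/-!
# Reduction to an extremal coprime progression, with the weights of the primes of `q`

As `EB`, `EC`; in addition the new modulus is `q * t`, `t ≤ N`, because the removed square is prime to `q`.
-/

set_option autoImplicit false

namespace Pool.Agent.Lib.MP_2c6f70_nt.RU

open Pool.Agent.Lib.MP_2c6f70_nt Pool.Agent.Lib.MP_2c6f70_nt.KW

private theorem SE_rpow {p : ℕ} {σ : ℝ} (hp : 2 ≤ p) (hσ : 1 / 2 ≤ σ) :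
    (p : ℝ) ^ (-σ) ≤ 71 / 100 := by
  have hp2 : (2 : ℝ) ≤ p := by exact_mod_cast hp
  have h1 : (p : ℝ) ^ (-σ) ≤ (p : ℝ) ^ (-(1 / 2) : ℝ) :=
    Real.rpow_le_rpow_of_exponent_le (by linarith) (by linarith)
  have h2 : (p : ℝ) ^ (-(1 / 2) : ℝ) ≤ (2 : ℝ) ^ (-(1 / 2) : ℝ) :=
    Real.rpow_le_rpow_of_nonpos (by norm_num) hp2 (by norm_num)
  have h3 : (2 : ℝ) ^ (-(1 / 2) : ℝ) = (Real.sqrt 2)⁻¹ := by
    rw [Real.rpow_neg (by norm_num), ← Real.sqrt_eq_rpow]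
  have h4 : (100 / 71 : ℝ) ≤ Real.sqrt 2 := Real.le_sqrt_of_sq_le (by norm_num)
  have h5 : (Real.sqrt 2)⁻¹ ≤ (100 / 71 : ℝ)⁻¹ := inv_anti₀ (by norm_num) h4
  have h6 : (100 / 71 : ℝ)⁻¹ = 71 / 100 := by norm_num
  rw [h3] at h2
  rw [h6] at h5
  exact (h1.trans h2).trans h5

private theorem SE_cong {p q a x y m n : ℕ} (hp : p.Prime) (hpq : p ∣ q) (hpa : p ∣ a)
    (hnq : ¬ (p * p ∣ q ∧ p * p ∣ a)) (hx : x ^ 2 = a + q * m) (hy : y ^ 2 = a + q * n) :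
    m % p = n % p := by
  have hdv : ∀ {z k : ℕ}, z ^ 2 = a + q * k → p * p ∣ a + q * k := by
    intro z k hz
    have h1 : p ∣ z ^ 2 := by
      rw [hz]
      exact dvd_add hpa (Dvd.dvd.mul_right hpq k)
    have h2 : p ∣ z := hp.dvd_of_dvd_pow h1
    rw [← hz, sq]
    exact mul_dvd_mul h2 h2
  have hdx := hdv hx
  have hdy := hdv hy
  have hq2 : ¬ p * p ∣ q := by
    intro h
    refine hnq ⟨h, ?_⟩
    exact (Nat.dvd_add_left (Dvd.dvd.mul_right h m)).1 hdx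
  obtain ⟨q1, hq1⟩ := hpq
  have hpq1 : ¬ p ∣ q1 := by
    intro h
    refine hq2 ?_
    rw [hq1]
    exact mul_dvd_mul_left p h
  have hz : ((p * p : ℕ) : ℤ) ∣ (q : ℤ) * ((m : ℤ) - n) := by
    have h1 : ((p * p : ℕ) : ℤ) ∣ ((a + q * m : ℕ) : ℤ) := Int.natCast_dvd_natCast.2 hdx
    have h2 : ((p * p : ℕ) : ℤ) ∣ ((a + q * n : ℕ) : ℤ) := Int.natCast_dvd_natCast.2 hdy
    have h3 := dvd_sub h1 h2
    have h4 : ((a + q * m : ℕ) : ℤ) - ((a + q * n : ℕ) : ℤ) = (q : ℤ) * ((m : ℤ) - n) := by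
      push_cast
      ring
    rwa [h4] at h3
  have hp0 : (p : ℤ) ≠ 0 := by exact_mod_cast hp.ne_zero
  have hz2 : (p : ℤ) ∣ (q1 : ℤ) * ((m : ℤ) - n) := by
    have h5 : (p : ℤ) * p ∣ (p : ℤ) * ((q1 : ℤ) * ((m : ℤ) - n)) := by
      have h6 : (p : ℤ) * ((q1 : ℤ) * ((m : ℤ) - n)) = (q : ℤ) * ((m : ℤ) - n) := by
        rw [hq1]
        push_cast
        ring
      rw [h6]
      exact_mod_cast hz
    exact (mul_dvd_mul_iff_left hp0).1 h5
  have hpz : Prime (p : ℤ) := Nat.prime_iff_prime_int.1 hp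
  rcases hpz.dvd_or_dvd hz2 with h | h
  · exact absurd (Int.natCast_dvd_natCast.1 h) hpq1
  · have h7 : (m : ℤ) ≡ n [ZMOD p] := (Int.modEq_iff_dvd.2 h).symm
    exact (Int.natCast_modEq_iff.1 h7)

theorem coprime_of_ext2 {q a N : ℕ} {S : Finset ℕ} {σ : ℝ} (hσ : 1 / 2 ≤ σ) (hq : 1 ≤ q) (ha : 1 ≤ a)
    (hS : Rts q a N S) (hcard : 8 ≤ S.card) (hE : Ext q a S σ) :
    ∃ (b q' a' : ℕ) (S' : Finset ℕ), q = b ^ 2 * q' ∧ a = b ^ 2 * a' ∧ 1 ≤ q' ∧ q' ≤ q ∧ 1 ≤ a' ∧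
      Nat.Coprime q' a' ∧ Rts q' a' N S' ∧ S'.card = S.card ∧ Ext q' a' S' σ := by
  classical
  obtain ⟨d, b, hD, hsf⟩ := Nat.sq_mul_squarefree (Nat.gcd q a)
  have hDpos : 0 < Nat.gcd q a := Nat.gcd_pos_of_pos_left a hq
  have hb : 0 < b := by
    rcases Nat.eq_zero_or_pos b with h | h
    · rw [h] at hD
      rw [← hD] at hDpos
      simp at hDpos
    · exact h
  have hb2 : 0 < b ^ 2 := pow_pos hb 2
  have hbq : b ^ 2 ∣ q := (Dvd.intro d hD).trans (Nat.gcd_dvd_left q a)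
  have hba : b ^ 2 ∣ a := (Dvd.intro d hD).trans (Nat.gcd_dvd_right q a)
  obtain ⟨q', hq'⟩ := hbq
  obtain ⟨a', ha'⟩ := hba
  have hq'1 : 1 ≤ q' := by
    rcases Nat.eq_zero_or_pos q' with h | h
    · rw [h, mul_zero] at hq'
      omega
    · exact h
  have ha'1 : 1 ≤ a' := by
    rcases Nat.eq_zero_or_pos a' with h | h
    · rw [h, mul_zero] at ha'
      omega
    · exact h
  have hgcd : Nat.gcd q' a' = d := by
    have h1 : b ^ 2 * d = b ^ 2 * Nat.gcd q' a' := by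
      rw [hD]
      conv_lhs => rw [hq', ha']
      rw [Nat.gcd_mul_left]
    exact (Nat.eq_of_mul_eq_mul_left hb2 h1).symm
  have key : ∀ x ∈ S, ∃ n < N, x = b * (x / b) ∧ (x / b) ^ 2 = a' + q' * n ∧ nn q a x = n ∧
      nn q' a' (x / b) = n := by
    intro x hx
    obtain ⟨n, hn, hxn⟩ := hS x hx
    have h1 : x ^ 2 = b ^ 2 * (a' + q' * n) := by
      rw [hxn]
      conv_lhs => rw [hq', ha']
      ring
    have h2 : b ∣ x := (Nat.pow_dvd_pow_iff two_ne_zero).1 (Dvd.intro _ h1.symm)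
    have h3 : b * (x / b) = x := Nat.mul_div_cancel' h2
    have h4 : (x / b) ^ 2 = a' + q' * n := by
      have h5 : b ^ 2 * (x / b) ^ 2 = b ^ 2 * (a' + q' * n) := by
        rw [← mul_pow, h3, h1]
      exact Nat.eq_of_mul_eq_mul_left hb2 h5
    refine ⟨n, hn, h3.symm, h4, ?_, ?_⟩
    · unfold nn
      rw [hxn, Nat.add_sub_cancel_left, Nat.mul_div_cancel_left _ hq]
    · unfold nn
      rw [h4, Nat.add_sub_cancel_left, Nat.mul_div_cancel_left _ hq'1]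
  have hR : Rts q' a' N (S.image (fun x => x / b)) := by
    intro y hy
    obtain ⟨x, hx, rfl⟩ := Finset.mem_image.1 hy
    obtain ⟨n, hn, -, h4, -, -⟩ := key x hx
    exact ⟨n, hn, h4⟩
  have hC : (S.image (fun x => x / b)).card = S.card := by
    refine Finset.card_image_of_injOn ?_
    intro x hx y hy h
    obtain ⟨-, -, h1, -⟩ := key x hx
    obtain ⟨-, -, h2, -⟩ := key y hy
    have h3 : x / b = y / b := h
    rw [h1, h2, h3]
  have hX : Ext q' a' (S.image (fun x => x / b)) σ := by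
    intro m r hm
    rw [hC]
    refine le_trans ?_ (hE m r hm)
    have h1 : ((S.image (fun x => x / b)).filter (fun x => nn q' a' x % m = r % m)).card ≤
        (S.filter (fun x => nn q a x % m = r % m)).card := by
      refine le_trans (le_of_eq (congrArg Finset.card ?_))
        (Finset.card_image_le (f := fun x => x / b))
      ext y
      rw [Finset.mem_filter, Finset.mem_image, Finset.mem_image]
      constructor
      · rintro ⟨⟨x, hx, rfl⟩, h2⟩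
        obtain ⟨n, -, -, -, h3, h4⟩ := key x hx
        refine ⟨x, Finset.mem_filter.2 ⟨hx, ?_⟩, rfl⟩
        rw [h3, ← h4]
        exact h2
      · rintro ⟨x, hx, rfl⟩
        obtain ⟨hx1, hx2⟩ := Finset.mem_filter.1 hx
        obtain ⟨n, -, -, -, h3, h4⟩ := key x hx1
        refine ⟨⟨x, hx1, rfl⟩, ?_⟩
        rw [h4, ← h3]
        exact hx2
    exact_mod_cast h1
  refine ⟨b, q', a', S.image (fun x => x / b), hq', ha', hq'1, ?_, ha'1, ?_, hR, hC, hX⟩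
  · rw [hq']
    exact Nat.le_mul_of_pos_left q' hb2
  · by_contra hcop
    have hd1 : d ≠ 1 := by
      intro h
      rw [h] at hgcd
      exact hcop hgcd
    obtain ⟨p, hp, hpd⟩ := Nat.exists_prime_and_dvd hd1
    have hpq : p ∣ q' := by
      rw [← hgcd] at hpd
      exact hpd.trans (Nat.gcd_dvd_left q' a')
    have hpa : p ∣ a' := by
      rw [← hgcd] at hpd
      exact hpd.trans (Nat.gcd_dvd_right q' a')
    have hnpp : ¬ (p * p ∣ q' ∧ p * p ∣ a') := by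
      rintro ⟨h1, h2⟩
      have h3 : p * p ∣ d := by
        rw [← hgcd]
        exact Nat.dvd_gcd h1 h2
      exact hp.one_lt.ne' (Nat.isUnit_iff.1 (hsf p h3))
    have hne : (S.image (fun x => x / b)).Nonempty := by
      rw [← Finset.card_pos, hC]
      omega
    obtain ⟨x0, hx0⟩ := hne
    have hall : (S.image (fun x => x / b)).filter
        (fun x => nn q' a' x % p = nn q' a' x0 % p) = S.image (fun x => x / b) := by
      rw [Finset.filter_eq_self]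
      intro y hy
      obtain ⟨m, -, hm⟩ := hR y hy
      obtain ⟨n, -, hn⟩ := hR x0 hx0
      have h1 : nn q' a' y = m := by
        unfold nn
        rw [hm, Nat.add_sub_cancel_left, Nat.mul_div_cancel_left _ hq'1]
      have h2 : nn q' a' x0 = n := by
        unfold nn
        rw [hn, Nat.add_sub_cancel_left, Nat.mul_div_cancel_left _ hq'1]
      rw [h1, h2]
      exact SE_cong hp hpq hpa hnpp hm hn
    have h1 := hX p (nn q' a' x0) hp.one_le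
    rw [hall, hC] at h1
    have h2 := SE_rpow hp.two_le hσ
    have h3 : (8 : ℝ) ≤ S.card := by exact_mod_cast hcard
    nlinarith



private theorem SE_nn {q a N : ℕ} {S : Finset ℕ} (hq : 1 ≤ q) (hS : Rts q a N S) :
    ∀ x ∈ S, nn q a x < N ∧ x ^ 2 = a + q * nn q a x := by
  intro x hx
  obtain ⟨n, hn, h⟩ := hS x hx
  have h1 : nn q a x = n := by
    unfold nn
    rw [h, Nat.add_sub_cancel_left, Nat.mul_div_cancel_left _ hq]
  rw [h1]
  exact ⟨hn, h⟩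

private theorem SE_inj {q a N : ℕ} {S : Finset ℕ} (hq : 1 ≤ q) (hS : Rts q a N S) :
    ∀ x ∈ S, ∀ y ∈ S, nn q a x = nn q a y → x = y := by
  intro x hx y hy h
  have h1 := (SE_nn hq hS x hx).2
  have h2 := (SE_nn hq hS y hy).2
  have h3 : x ^ 2 = y ^ 2 := by rw [h1, h2, h]
  exact Nat.pow_left_injective (by norm_num : (2 : ℕ) ≠ 0) h3

private theorem SE_card {q a N : ℕ} {S : Finset ℕ} (hq : 1 ≤ q) (hS : Rts q a N S) :
    S.card ≤ N := by
  have h1 : S.card ≤ (Finset.range N).card := by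
    apply Finset.card_le_card_of_injOn (nn q a)
    · intro x hx
      simp only [Finset.coe_range, Set.mem_Iio]
      exact (SE_nn hq hS x hx).1
    · intro x hx y hy h
      exact SE_inj hq hS x hx y hy h
  simpa using h1

private theorem SE_one {a N : ℕ} {S : Finset ℕ} (hS : Rts 1 a N S) : S.card ≤ Nat.sqrt N + 1 := by
  rcases S.eq_empty_or_nonempty with h0 | h0
  · simp [h0]
  · have hmem := S.min'_mem h0
    set x₀ := S.min' h0 with hx₀
    have hsub : S ⊆ Finset.Icc x₀ (x₀ + Nat.sqrt N) := by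
      intro y hy
      have hle : x₀ ≤ y := S.min'_le y hy
      obtain ⟨n, hn, h1⟩ := hS y hy
      obtain ⟨n', hn', h2⟩ := hS x₀ hmem
      obtain ⟨t, ht⟩ := Nat.exists_eq_add_of_le hle
      rw [Finset.mem_Icc]
      refine ⟨hle, ?_⟩
      rw [ht]
      apply Nat.add_le_add_left
      rw [Nat.le_sqrt]
      have h3 : t * t + x₀ ^ 2 ≤ y ^ 2 := by
        rw [ht]
        nlinarith [Nat.zero_le (x₀ * t)]
      omega
    have h1 := Finset.card_le_card hsub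
    rw [Nat.card_Icc] at h1
    omega

theorem reduction3 (ε : ℝ) (hε : 0 < ε) (hε1 : ε ≤ 1 / 4) :
    ∀ N₁ : ℕ, ∃ N₀ : ℕ, ∀ N ≥ N₀, ∀ q a : ℕ, 1 ≤ q → 1 ≤ a → Nat.Coprime q a →
      ∀ T : Finset ℕ, (∀ n ∈ T, n < N ∧ IsSquare (q * n + a)) →
      (N : ℝ) ^ (1 / 2 + 2 * ε) ≤ (T.card : ℝ) →
      ∃ N' ≥ N₁, (N : ℝ) ^ ε ≤ 2 * (N' : ℝ) ∧ ∃ (t q' a' : ℕ) (S' : Finset ℕ), q' = q * t ∧ 1 ≤ t ∧ t ≤ N ∧
        Ctx q' a' N' S' ∧ Ext q' a' S' (1 / 2 + ε) ∧ (N' : ℝ) ^ (1 / 2 + ε) ≤ (S'.card : ℝ) ∧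
        (T.card : ℝ) * ((N' : ℝ) / 2) ^ (1 / 2 + ε) ≤ (S'.card : ℝ) * (N : ℝ) ^ (1 / 2 + ε) := by
  intro N₁
  set M : ℕ := max (max N₁ 64) (Nat.ceil ((3 : ℝ) ^ (1 / ε))) with hMdef
  have hM1 : N₁ ≤ M := le_trans (le_max_left _ _) (le_max_left _ _)
  have hM64 : 64 ≤ M := le_trans (le_max_right _ _) (le_max_left _ _)
  have hM3 : Nat.ceil ((3 : ℝ) ^ (1 / ε)) ≤ M := le_max_right _ _
  refine ⟨Nat.ceil ((2 * (M : ℝ)) ^ (1 / ε)), ?_⟩
  intro N hN q a hq ha hqa T hT hcard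
  have hεne : ε ≠ 0 := ne_of_gt hε
  have hM0 : (64 : ℝ) ≤ (M : ℝ) := by exact_mod_cast hM64
  have hNr : (2 * (M : ℝ)) ^ (1 / ε) ≤ (N : ℝ) := le_trans (Nat.le_ceil _) (by exact_mod_cast hN)
  have hN1r : (1 : ℝ) ≤ (N : ℝ) := by
    refine le_trans ?_ hNr
    apply Real.one_le_rpow
    · linarith
    · positivity
  have hN1 : 1 ≤ N := by exact_mod_cast hN1r
  have hNε : 2 * (M : ℝ) ≤ (N : ℝ) ^ ε := by
    have h1 : (2 * (M : ℝ)) = ((2 * (M : ℝ)) ^ (1 / ε)) ^ ε := by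
      rw [← Real.rpow_mul (by positivity), one_div, inv_mul_cancel₀ hεne, Real.rpow_one]
    rw [h1]
    exact Real.rpow_le_rpow (by positivity) hNr hε.le
  obtain ⟨m, r, hm1, hmN, hrm, hmax⟩ := exists_max_class T N hN1 (1 / 2 + ε)
  set T' : Finset ℕ := T.filter (fun n => n % m = r) with hT'
  have hT'prop : ∀ n ∈ T', n < N ∧ n % m = r ∧ IsSquare (q * n + a) := by
    intro n hn
    rw [hT', Finset.mem_filter] at hn
    exact ⟨(hT n hn.1).1, hn.2, (hT n hn.1).2⟩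
  obtain ⟨S, hSR, hScard, hSmem, hSclass⟩ := class_roots hq hm1 T' hT'prop
  have hqm : 1 ≤ q * m := Nat.one_le_iff_ne_zero.mpr (by positivity)
  have haq : 1 ≤ a + q * r := le_trans ha (Nat.le_add_right _ _)
  have hmr : (1 : ℝ) ≤ (m : ℝ) := by exact_mod_cast hm1
  have hm0 : (0 : ℝ) < (m : ℝ) := by linarith
  have hσ0 : (0 : ℝ) < 1 / 2 + ε := by linarith
  have hmσ : (0 : ℝ) < (m : ℝ) ^ (1 / 2 + ε) := Real.rpow_pos_of_pos hm0 _
  -- the size of the class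
  have hTT : (T.card : ℝ) ≤ (S.card : ℝ) * (m : ℝ) ^ (1 / 2 + ε) := by
    have h1 := hmax 1 0 le_rfl hN1
    have h2 : T.filter (fun n => n % 1 = 0 % 1) = T := by
      apply Finset.filter_true_of_mem
      intro n _
      rw [Nat.mod_one, Nat.zero_mod]
    rw [h2, Nat.cast_one, Real.one_rpow, mul_one] at h1
    rw [hScard]
    exact h1
  -- real quotient
  set ρ : ℝ := (N : ℝ) / m with hρ
  have hρ1 : 1 ≤ ρ := by
    rw [hρ, le_div_iff₀ hm0, one_mul]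
    exact_mod_cast hmN
  have hρ0 : 0 < ρ := by linarith
  have hN0 : (0 : ℝ) < (N : ℝ) := by linarith
  have hSlow : ρ ^ (1 / 2 + ε) * (N : ℝ) ^ ε ≤ (S.card : ℝ) := by
    have h1 : (N : ℝ) ^ (1 / 2 + 2 * ε) ≤ (S.card : ℝ) * (m : ℝ) ^ (1 / 2 + ε) := le_trans hcard hTT
    have h2 : (N : ℝ) ^ (1 / 2 + 2 * ε) = (N : ℝ) ^ (1 / 2 + ε) * (N : ℝ) ^ ε := by
      rw [← Real.rpow_add hN0]
      ring_nf
    rw [h2] at h1
    rw [hρ, Real.div_rpow hN0.le hm0.le, div_mul_eq_mul_div, div_le_iff₀ hmσ]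
    exact h1
  set N' : ℕ := N / m + 1 with hN'
  have hN'ρ : ρ ≤ (N' : ℝ) := by
    rw [hρ, div_le_iff₀ hm0, hN']
    have h1 : N < m * (N / m + 1) := Nat.lt_mul_div_succ N (by omega)
    have h2 : (N : ℝ) < (m : ℝ) * ((N / m + 1 : ℕ) : ℝ) := by exact_mod_cast h1
    linarith
  have hN'2 : (N' : ℝ) ≤ 2 * ρ := by
    have h1 : ((N / m : ℕ) : ℝ) ≤ ρ := Nat.cast_div_le
    have h2 : (N' : ℝ) = ((N / m : ℕ) : ℝ) + 1 := by rw [hN']; push_cast; ring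
    rw [h2]
    linarith
  have hN'0 : (0 : ℝ) < (N' : ℝ) := lt_of_lt_of_le hρ0 hN'ρ
  have hNε2 : (2 : ℝ) ≤ (N : ℝ) ^ ε := by linarith
  have hNε0 : (0 : ℝ) < (N : ℝ) ^ ε := by linarith
  have hρσ : (0 : ℝ) < ρ ^ (1 / 2 + ε) := Real.rpow_pos_of_pos hρ0 _
  have hN'σ : (N' : ℝ) ^ (1 / 2 + ε) ≤ (S.card : ℝ) := by
    have h1 : (N' : ℝ) ^ (1 / 2 + ε) ≤ (2 * ρ) ^ (1 / 2 + ε) :=
      Real.rpow_le_rpow hN'0.le hN'2 hσ0.le
    have h2 : (2 * ρ) ^ (1 / 2 + ε) = (2 : ℝ) ^ (1 / 2 + ε) * ρ ^ (1 / 2 + ε) :=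
      Real.mul_rpow (by norm_num) hρ0.le
    have h3 : (2 : ℝ) ^ (1 / 2 + ε) ≤ 2 := by
      have h4 : (2 : ℝ) ^ (1 / 2 + ε) ≤ (2 : ℝ) ^ (1 : ℝ) :=
        Real.rpow_le_rpow_of_exponent_le (by norm_num) (by linarith)
      rwa [Real.rpow_one] at h4
    calc (N' : ℝ) ^ (1 / 2 + ε) ≤ (2 : ℝ) ^ (1 / 2 + ε) * ρ ^ (1 / 2 + ε) := by rw [← h2]; exact h1
      _ ≤ (N : ℝ) ^ ε * ρ ^ (1 / 2 + ε) :=
          mul_le_mul_of_nonneg_right (le_trans h3 hNε2) hρσ.le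
      _ = ρ ^ (1 / 2 + ε) * (N : ℝ) ^ ε := mul_comm _ _
      _ ≤ (S.card : ℝ) := hSlow
  have hSN' : (S.card : ℝ) ≤ (N' : ℝ) := by exact_mod_cast SE_card hqm hSR
  have hNεN' : (N : ℝ) ^ ε ≤ 2 * (N' : ℝ) := by
    have h1 : ρ ^ (1 / 2 + ε) * (N : ℝ) ^ ε ≤ 2 * ρ := le_trans hSlow (le_trans hSN' hN'2)
    have h2 : ρ = ρ ^ (1 / 2 + ε) * ρ ^ (1 / 2 - ε) := by
      rw [← Real.rpow_add hρ0]
      have h3 : (1 / 2 + ε + (1 / 2 - ε) : ℝ) = 1 := by ring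
      rw [h3, Real.rpow_one]
    have h3 : ρ ^ (1 / 2 + ε) * (N : ℝ) ^ ε ≤ ρ ^ (1 / 2 + ε) * (2 * ρ ^ (1 / 2 - ε)) := by
      calc ρ ^ (1 / 2 + ε) * (N : ℝ) ^ ε ≤ 2 * ρ := h1
        _ = 2 * (ρ ^ (1 / 2 + ε) * ρ ^ (1 / 2 - ε)) := by rw [← h2]
        _ = ρ ^ (1 / 2 + ε) * (2 * ρ ^ (1 / 2 - ε)) := by ring
    have h4 : (N : ℝ) ^ ε ≤ 2 * ρ ^ (1 / 2 - ε) := le_of_mul_le_mul_left h3 hρσ
    have h5 : ρ ^ (1 / 2 - ε) ≤ ρ := by
      have h6 : ρ ^ (1 / 2 - ε) ≤ ρ ^ (1 : ℝ) := Real.rpow_le_rpow_of_exponent_le hρ1 (by linarith)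
      rwa [Real.rpow_one] at h6
    linarith
  have hMN' : (M : ℝ) ≤ (N' : ℝ) := by linarith
  have hMN'n : M ≤ N' := by exact_mod_cast hMN'
  -- `Ext`
  have hExt : Ext (q * m) (a + q * r) S (1 / 2 + ε) := by
    intro m' r' hm'
    have hm'r : (1 : ℝ) ≤ (m' : ℝ) := by exact_mod_cast hm'
    have hm'0 : (0 : ℝ) < (m' : ℝ) := by linarith
    rcases Nat.lt_or_ge N (m * m') with hlt | hge
    · have h1 : N / m < m' := by
        rw [Nat.div_lt_iff_lt_mul (by omega)]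
        rw [mul_comm]
        exact hlt
      have h2 : (S.filter (fun x => nn (q * m) (a + q * r) x % m' = r' % m')).card ≤ 1 := by
        rw [Finset.card_le_one]
        intro x hx y hy
        rw [Finset.mem_filter] at hx hy
        have hx1 := (SE_nn hqm hSR x hx.1).1
        have hy1 := (SE_nn hqm hSR y hy.1).1
        apply SE_inj hqm hSR x hx.1 y hy.1
        have hx2 : nn (q * m) (a + q * r) x % m' = nn (q * m) (a + q * r) x :=
          Nat.mod_eq_of_lt (by omega)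
        have hy2 : nn (q * m) (a + q * r) y % m' = nn (q * m) (a + q * r) y :=
          Nat.mod_eq_of_lt (by omega)
        rw [← hx2, ← hy2, hx.2, hy.2]
      have h3 : ((S.filter (fun x => nn (q * m) (a + q * r) x % m' = r' % m')).card : ℝ) ≤ 1 := by
        exact_mod_cast h2
      have h4 : (0 : ℝ) ≤ S.card * (m' : ℝ) ^ (-(1 / 2 + ε)) := by positivity
      linarith
    · have h1 := hSclass m' r' hm'
      have h2 : (T'.filter (fun n => n % (m * m') = (r + m * (r' % m')) % (m * m'))).card ≤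
          (T.filter (fun n => n % (m * m') = (r + m * (r' % m')) % (m * m'))).card := by
        apply Finset.card_le_card
        apply Finset.filter_subset_filter
        rw [hT']
        exact Finset.filter_subset _ _
      have h3 := hmax (m * m') (r + m * (r' % m')) (Nat.one_le_iff_ne_zero.mpr (by positivity)) hge
      have h4 : ((S.filter (fun x => nn (q * m) (a + q * r) x % m' = r' % m')).card : ℝ) ≤
          ((T.filter (fun n => n % (m * m') = (r + m * (r' % m')) % (m * m'))).card : ℝ) := by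
        exact_mod_cast le_trans h1 h2
      have h5 : (((m * m' : ℕ) : ℝ)) ^ (1 / 2 + ε) = (m : ℝ) ^ (1 / 2 + ε) * (m' : ℝ) ^ (1 / 2 + ε) := by
        rw [Nat.cast_mul, Real.mul_rpow hm0.le hm'0.le]
      have hm'σ : (0 : ℝ) < (m' : ℝ) ^ (1 / 2 + ε) := Real.rpow_pos_of_pos hm'0 _
      have h6 : ((S.filter (fun x => nn (q * m) (a + q * r) x % m' = r' % m')).card : ℝ) *
          ((m : ℝ) ^ (1 / 2 + ε) * (m' : ℝ) ^ (1 / 2 + ε)) ≤ (S.card : ℝ) * (m : ℝ) ^ (1 / 2 + ε) := by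
        rw [hScard, ← h5]
        exact le_trans (mul_le_mul_of_nonneg_right h4 (by positivity)) h3
      have h7 : ((S.filter (fun x => nn (q * m) (a + q * r) x % m' = r' % m')).card : ℝ) *
          (m' : ℝ) ^ (1 / 2 + ε) ≤ (S.card : ℝ) := by
        have h8 : (m : ℝ) ^ (1 / 2 + ε) *
            (((S.filter (fun x => nn (q * m) (a + q * r) x % m' = r' % m')).card : ℝ) *
              (m' : ℝ) ^ (1 / 2 + ε)) ≤ (m : ℝ) ^ (1 / 2 + ε) * (S.card : ℝ) := by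
          nlinarith [h6]
        exact le_of_mul_le_mul_left h8 hmσ
      have h9 : (m' : ℝ) ^ (-(1 / 2 + ε)) = ((m' : ℝ) ^ (1 / 2 + ε))⁻¹ := Real.rpow_neg hm'0.le _
      have h10 : ((S.filter (fun x => nn (q * m) (a + q * r) x % m' = r' % m')).card : ℝ) ≤
          (S.card : ℝ) * (m' : ℝ) ^ (-(1 / 2 + ε)) := by
        rw [h9, ← div_eq_mul_inv, le_div_iff₀ hm'σ]
        exact h7
      linarith
  have hN'1 : (1 : ℝ) ≤ (N' : ℝ) := by linarith
  have hsq : (N' : ℝ) ^ (1 / 2 : ℝ) = Real.sqrt (N' : ℝ) := (Real.sqrt_eq_rpow _).symm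
  have hsqle : Real.sqrt (N' : ℝ) ≤ (N' : ℝ) ^ (1 / 2 + ε) := by
    rw [← hsq]
    exact Real.rpow_le_rpow_of_exponent_le hN'1 (by linarith)
  have hS8 : 8 ≤ S.card := by
    have h1 : (8 : ℝ) ≤ Real.sqrt (N' : ℝ) := by
      rw [show (8 : ℝ) = Real.sqrt (64 : ℝ) by
        rw [show (64 : ℝ) = 8 ^ 2 by norm_num, Real.sqrt_sq (by norm_num)]]
      exact Real.sqrt_le_sqrt (by linarith)
    have h2 : (8 : ℝ) ≤ (S.card : ℝ) := le_trans h1 (le_trans hsqle hN'σ)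
    exact_mod_cast h2
  obtain ⟨b, q', a', S', hqb, hab, hq'1, hq'le, ha'1, hcop, hRts', hS'card, hExt'⟩ :=
    coprime_of_ext2 (by linarith : (1 / 2 : ℝ) ≤ 1 / 2 + ε) hqm haq hSR hS8 hExt
  have hS'σ : (N' : ℝ) ^ (1 / 2 + ε) ≤ (S'.card : ℝ) := by
    rw [hS'card]
    exact hN'σ
  -- `q' ≥ 2`
  have hq'2 : 2 ≤ q' := by
    by_contra hcon
    have hq1 : q' = 1 := by omega
    rw [hq1] at hRts'
    have h1 := SE_one hRts'
    have h2 : (S'.card : ℝ) ≤ Real.sqrt (N' : ℝ) + 1 := by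
      have h3 : (S'.card : ℝ) ≤ (Nat.sqrt N' : ℝ) + 1 := by exact_mod_cast h1
      have h4 : (Nat.sqrt N' : ℝ) ≤ Real.sqrt (N' : ℝ) := Real.nat_sqrt_le_real_sqrt
      linarith
    have h5 : (N' : ℝ) ^ (1 / 2 + ε) = Real.sqrt (N' : ℝ) * (N' : ℝ) ^ ε := by
      rw [Real.rpow_add hN'0, hsq]
    have h6 : (3 : ℝ) ≤ (N' : ℝ) ^ ε := by
      have h7 : (3 : ℝ) ^ (1 / ε) ≤ (N' : ℝ) := by
        refine le_trans (Nat.le_ceil _) ?_
        exact_mod_cast le_trans hM3 hMN'n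
      have h8 : (3 : ℝ) = ((3 : ℝ) ^ (1 / ε)) ^ ε := by
        rw [← Real.rpow_mul (by norm_num), one_div, inv_mul_cancel₀ hεne, Real.rpow_one]
      rw [h8]
      exact Real.rpow_le_rpow (by positivity) h7 hε.le
    have h9 : (1 : ℝ) ≤ Real.sqrt (N' : ℝ) := by
      rw [show (1 : ℝ) = Real.sqrt 1 by rw [Real.sqrt_one]]
      exact Real.sqrt_le_sqrt hN'1
    have h10 : Real.sqrt (N' : ℝ) * 3 ≤ Real.sqrt (N' : ℝ) * (N' : ℝ) ^ ε :=
      mul_le_mul_of_nonneg_left h6 (by linarith)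
    rw [h5] at hS'σ
    linarith
  -- the cofactor
  have hbq : Nat.Coprime (b ^ 2) q := by
    apply Nat.Coprime.pow_left
    rw [Nat.coprime_iff_gcd_eq_one, Nat.eq_one_iff_not_exists_prime_dvd]
    intro p hp hpd
    have hpb : p ∣ b := hpd.trans (Nat.gcd_dvd_left _ _)
    have hpq : p ∣ q := hpd.trans (Nat.gcd_dvd_right _ _)
    have hpaq : p ∣ a + q * r := by
      rw [hab]
      exact Dvd.dvd.mul_right (dvd_pow hpb (by norm_num)) _
    have hpa : p ∣ a := (Nat.dvd_add_left (Dvd.dvd.mul_right hpq r)).1 hpaq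
    have h1 : p ∣ Nat.gcd q a := Nat.dvd_gcd hpq hpa
    rw [hqa] at h1
    exact hp.one_lt.ne' (Nat.dvd_one.1 h1)
  have hbm : b ^ 2 ∣ m := hbq.dvd_of_dvd_mul_left (by rw [hqb]; exact Dvd.intro _ rfl)
  obtain ⟨t, ht⟩ := hbm
  have hb2 : 0 < b ^ 2 := by
    rcases Nat.eq_zero_or_pos (b ^ 2) with h | h
    · rw [h, zero_mul] at ht; omega
    · exact h
  have hq't : q' = q * t := by
    have h1 : b ^ 2 * q' = b ^ 2 * (q * t) := by
      rw [← hqb, ht]; ring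
    exact Nat.eq_of_mul_eq_mul_left hb2 h1
  have ht1 : 1 ≤ t := by
    rcases Nat.eq_zero_or_pos t with h | h
    · rw [h, mul_zero] at ht; omega
    · exact h
  have htN : t ≤ N := by
    have : t ≤ m := by rw [ht]; exact Nat.le_mul_of_pos_left t hb2
    omega
  refine ⟨N', le_trans hM1 hMN'n, hNεN', t, q', a', S', hq't, ht1, htN, ⟨hq'2, ha'1, by omega, hcop, hRts'⟩, hExt', hS'σ, ?_⟩
  rw [hS'card]
  have h1 : ((N' : ℝ) / 2) ^ (1 / 2 + ε) ≤ ρ ^ (1 / 2 + ε) :=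
    Real.rpow_le_rpow (by positivity) (by linarith) hσ0.le
  have h2 : ρ ^ (1 / 2 + ε) * (m : ℝ) ^ (1 / 2 + ε) = (N : ℝ) ^ (1 / 2 + ε) := by
    rw [← Real.mul_rpow hρ0.le hm0.le, hρ, div_mul_cancel₀ _ hm0.ne']
  calc (T.card : ℝ) * ((N' : ℝ) / 2) ^ (1 / 2 + ε) ≤ ((S.card : ℝ) * (m : ℝ) ^ (1 / 2 + ε)) * ρ ^ (1 / 2 + ε) :=
        mul_le_mul hTT h1 (by positivity) (by positivity)
    _ = (S.card : ℝ) * (ρ ^ (1 / 2 + ε) * (m : ℝ) ^ (1 / 2 + ε)) := by ring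
    _ = (S.card : ℝ) * (N : ℝ) ^ (1 / 2 + ε) := by rw [h2]

end Pool.Agent.Lib.MP_2c6f70_nt.RU
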