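import Pool.Agent.Lib.MP_2c6f70_nt.RU.S_Cl
import Pool.Agent.Lib.MP_2a816b_nt.Divisor

/-!
# Block S: small integers are quadratic residues

We may suppose `η ≤ 1/4`.  `popular_good` (with `κ/3` and `η/8`): `V`, `G`, `ω`.  `U` = the set of the indices of `V`, `#U = #V ≥ N^(-η/8) #S`.  `popular_pair` with `|w| N^(1+η) ≤ #S^2` and `B = 2 m T`, `T ≥ τ(cq q * d)` for all `d < N`
(divisor bound): there is `d ≥ 1` such that
`d` and `|w| d` are popular differences.  So `J(d|p) = ω p = J(|w| d|p)`, `J(|w| |p) = 1`, for all `p ∈ G` off a set of weight `(2/3) κ log q`, and `J(-1|p) = 1` since `p = 1 mod 4`; the weight of the `p ∣ q`, `p ∉ G`, is at most `(κ/3) log q`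
(`2 ∉ G`).
-/

set_option autoImplicit false

namespace Pool.Agent.Lib.MP_2c6f70_nt.RU

open Pool.Agent.Lib.MP_2c6f70_nt Pool.Agent.Lib.MP_2c6f70_nt.KW

private theorem S_Res_large (e B : ℝ) (he : 0 < e) : ∃ N₀ : ℕ, ∀ N ≥ N₀, B < (N : ℝ) ^ e := by
  have h1 : Filter.Tendsto (fun N : ℕ => (N : ℝ) ^ e) Filter.atTop Filter.atTop :=
    (tendsto_rpow_atTop he).comp tendsto_natCast_atTop_atTop
  exact Filter.eventually_atTop.mp (h1.eventually_gt_atTop B)

private theorem S_Res_nn {q a N : ℕ} {S : Finset ℕ} (h : Ctx q a N S) {x : ℕ} (hx : x ∈ S) :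
    nn q a x < N := by
  have hq : 0 < q := by have := h.hq; omega
  obtain ⟨n, hn, h1⟩ := h.rts x hx
  have h2 : nn q a x = n := by
    unfold nn
    rw [h1, Nat.add_sub_cancel_left]
    exact Nat.mul_div_cancel_left n hq
  rw [h2]
  exact hn

private theorem S_Res_inj {q a N : ℕ} {S V : Finset ℕ} (h : Ctx q a N S) (hV : V ⊆ S) :
    (V.image (nn q a)).card = V.card := by
  apply Finset.card_image_of_injOn
  intro x hx y hy hxy
  by_contra hne
  have h1 := (dn_bounds h (hV hx) (hV hy) hne).1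
  have h2 : dn q a x y = 0 := by
    unfold dn
    rw [show nn q a x = nn q a y from hxy, Nat.dist_self]
  omega

/-- The arithmetic. -/
private theorem S_Res_num {η n v s t : ℝ} {m : ℕ} {C w T : ℝ} (hη : 0 < η) (hn : 1 ≤ n) (hC : 1 ≤ C)
    (hw1 : 1 ≤ w) (hw : w * n ^ (1 + η) ≤ s ^ 2) (hT : T ≤ C * (8 * n) ^ (η / 8)) (hT0 : 0 ≤ T) (hs : 0 ≤ s)
    (hv : n ^ (-(η / 8)) * s ≤ v) (ht : t = n ^ (5 / 8 * η)) (hbig : 2 + 64 * (m : ℝ) * C < t)
    (hη1 : η ≤ 1 / 4) :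
    (1 + w) * n * (1 + 2 * (2 * m * T)) < v ^ 2 := by
  have hn0 : 0 < n := by linarith
  have h8 : (8 * n) ^ (η / 8) ≤ 8 * n ^ (η / 8) := by
    rw [Real.mul_rpow (by norm_num) hn0.le]
    have h2 : (8 : ℝ) ^ (η / 8) ≤ 8 := by
      calc (8 : ℝ) ^ (η / 8) ≤ (8 : ℝ) ^ (1 : ℝ) :=
            Real.rpow_le_rpow_of_exponent_le (by norm_num) (by linarith)
        _ = 8 := Real.rpow_one 8
    exact mul_le_mul_of_nonneg_right h2 (Real.rpow_nonneg hn0.le _)
  have hT' : T ≤ 8 * C * n ^ (η / 8) := by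
    calc T ≤ C * (8 * n) ^ (η / 8) := hT
      _ ≤ C * (8 * n ^ (η / 8)) := mul_le_mul_of_nonneg_left h8 (by linarith)
      _ = 8 * C * n ^ (η / 8) := by ring
  have hx : 1 ≤ n ^ (η / 8) := Real.one_le_rpow hn (by positivity)
  have hm : (0 : ℝ) ≤ m := Nat.cast_nonneg m
  have h3 : 1 + 2 * (2 * m * T) ≤ (1 + 32 * m * C) * n ^ (η / 8) := by
    have h4 : (m : ℝ) * T ≤ m * (8 * C * n ^ (η / 8)) := mul_le_mul_of_nonneg_left hT' hm
    nlinarith
  have h5 : (1 + w) * n ≤ 2 * w * n := mul_le_mul_of_nonneg_right (by linarith) hn0.le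
  have h6 : 0 ≤ 1 + 2 * (2 * m * T) := by positivity
  have hw0 : 0 < w := by linarith
  have h7 : 0 ≤ 2 * w * n := by positivity
  have h9 : 0 ≤ n ^ (-(η / 8)) := Real.rpow_nonneg hn0.le _
  calc (1 + w) * n * (1 + 2 * (2 * m * T)) ≤ 2 * w * n * (1 + 2 * (2 * m * T)) :=
        mul_le_mul_of_nonneg_right h5 h6
    _ ≤ 2 * w * n * ((1 + 32 * m * C) * n ^ (η / 8)) := mul_le_mul_of_nonneg_left h3 h7
    _ = (2 + 64 * m * C) * (w * n * n ^ (η / 8)) := by ring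
    _ < t * (w * n * n ^ (η / 8)) := mul_lt_mul_of_pos_right hbig (by positivity)
    _ = n ^ (-(η / 8)) * n ^ (-(η / 8)) * (w * n ^ (1 + η)) := by
        have h10 : t * n * n ^ (η / 8) = n ^ (-(η / 8)) * n ^ (-(η / 8)) * n ^ (1 + η) := by
          rw [ht, ← Real.rpow_add hn0, ← Real.rpow_add hn0]
          nth_rewrite 2 [← Real.rpow_one n]
          rw [← Real.rpow_add hn0, ← Real.rpow_add hn0]
          congr 1
          ring
        calc t * (w * n * n ^ (η / 8)) = w * (t * n * n ^ (η / 8)) := by ring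
          _ = w * (n ^ (-(η / 8)) * n ^ (-(η / 8)) * n ^ (1 + η)) := by rw [h10]
          _ = _ := by ring
    _ ≤ n ^ (-(η / 8)) * n ^ (-(η / 8)) * s ^ 2 :=
        mul_le_mul_of_nonneg_left hw (mul_nonneg h9 h9)
    _ = (n ^ (-(η / 8)) * s) * (n ^ (-(η / 8)) * s) := by ring
    _ ≤ v * v := mul_le_mul hv hv (mul_nonneg h9 hs) ((mul_nonneg h9 hs).trans hv)
    _ = v ^ 2 := by ring

theorem small_residues (ε η κ : ℝ) (hε : 0 < ε) (hε1 : ε ≤ 1 / 4) (hη : 0 < η) (hκ : 0 < κ) :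
    ∃ N₀ : ℕ, ∀ N ≥ N₀, ∀ (q a : ℕ) (S : Finset ℕ), Ctx q a N S → Ext q a S (1 / 2 + ε) →
      (N : ℝ) ^ (1 / 2 + ε) ≤ (S.card : ℝ) → ∀ w : ℤ, w ≠ 0 →
      |(w : ℝ)| * (N : ℝ) ^ (1 + η) ≤ (S.card : ℝ) ^ 2 →
      ∑ p ∈ q.primeFactors.filter (fun p => p = 2 ∨ jacobiSym w p ≠ 1), wp q p ≤ κ * Real.log q := by
  -- we may suppose `η ≤ 1/4`
  wlog hη1 : η ≤ 1 / 4 generalizing η with H
  · obtain ⟨N₀, hN₀⟩ := H (1 / 4) (by norm_num) le_rfl
    refine ⟨N₀ + 1, fun N hN q a S h hE hS w hw0 hwN => hN₀ N (by omega) q a S h hE hS w hw0 (le_trans ?_ hwN)⟩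
    have hn : (1 : ℝ) ≤ (N : ℝ) := by
      have : 1 ≤ N := by omega
      exact_mod_cast this
    exact mul_le_mul_of_nonneg_left
      (Real.rpow_le_rpow_of_exponent_le hn (by linarith [not_le.1 hη1])) (abs_nonneg _)
  obtain ⟨m, N₁, hN₁⟩ := popular_good ε (κ / 3) (η / 8) hε hε1 (by positivity) (by positivity)
  obtain ⟨C, hC1, hC⟩ := MP_2a816b_nt.divisor_bound (η / 8) (by positivity)
  obtain ⟨N₂, hN₂⟩ := S_Res_large (5 / 8 * η) (2 + 64 * (m : ℝ) * C) (by positivity)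
  refine ⟨N₁ + N₂ + 1, fun N hN q a S h hE hS w hw0 hwN => ?_⟩
  have hn : (1 : ℝ) ≤ (N : ℝ) := by
    have : 1 ≤ N := by omega
    exact_mod_cast this
  have hn0 : (0 : ℝ) < (N : ℝ) := by linarith
  have hq0 : q ≠ 0 := by have := h.hq; omega
  have hS0 : (0 : ℝ) < (S.card : ℝ) := lt_of_lt_of_le (Real.rpow_pos_of_pos hn0 _) hS
  have hSne : S.Nonempty := by
    rw [← Finset.card_pos]
    exact_mod_cast hS0
  obtain ⟨z, hz⟩ := hSne
  obtain ⟨V, G, ω, hVS, hG, hVc, hGω, hGw, hpop⟩ := hN₁ N (by omega) q a S z h hE hS hz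
  -- the index set
  obtain ⟨U, hU⟩ : ∃ U, U = V.image (nn q a) := ⟨_, rfl⟩
  rw [← hU] at hpop
  have hUc : U.card = V.card := by rw [hU]; exact S_Res_inj h hVS
  have hUN : ∀ n ∈ U, n < N := by
    intro n hn'
    rw [hU, Finset.mem_image] at hn'
    obtain ⟨x, hx, rfl⟩ := hn'
    exact S_Res_nn h (hVS hx)
  obtain ⟨w', hw'⟩ : ∃ w' : ℕ, w' = w.natAbs := ⟨_, rfl⟩
  have hw1 : 1 ≤ w' := by
    rw [hw']
    exact Int.natAbs_pos.2 hw0
  have hw'N : (w' : ℝ) * (N : ℝ) ^ (1 + η) ≤ (S.card : ℝ) ^ 2 := by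
    have h1 : (w' : ℝ) = |(w : ℝ)| := by
      rw [hw', Nat.cast_natAbs, Int.cast_abs]
    rw [h1]
    exact hwN
  have hw1' : (1 : ℝ) ≤ (w' : ℝ) := by exact_mod_cast hw1
  obtain ⟨T, hT⟩ : ∃ T : ℕ, T = ⌊C * (8 * (N : ℝ)) ^ (η / 8)⌋₊ := ⟨_, rfl⟩
  have hTle : (T : ℝ) ≤ C * (8 * (N : ℝ)) ^ (η / 8) := by
    rw [hT]
    exact Nat.floor_le (by positivity)
  have hcount : (1 + w') * N * (1 + 2 * (2 * m * T)) < U.card ^ 2 := by
    have h1 := S_Res_num (m := m) hη hn hC1 hw1' hw'N hTle (Nat.cast_nonneg T) hS0.le hVc rfl (hN₂ N (by omega)) hη1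
    rw [hUc]
    exact_mod_cast h1
  obtain ⟨d, hd1, hd2, hd3⟩ := popular_pair U N w' (2 * m * T) hUN hw1 hcount
  have hcq8 : cq q ≤ 8 := Nat.le_of_dvd (by norm_num) (prod_mr hq0).2
  have hcq0 : 0 < cq q := Nat.pos_of_dvd_of_pos (prod_mr hq0).2 (by norm_num)
  -- popular differences are good
  have hgood : ∀ e : ℕ, 1 ≤ e → 2 * m * T < rep U e →
      ∑ p ∈ G.filter (fun p => jacobiSym (e : ℤ) p ≠ ω p), wp q p ≤ κ / 3 * Real.log q := by
    intro e he hre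
    apply hpop e he
    refine lt_of_le_of_lt ?_ hre
    apply Nat.mul_le_mul_left
    have heN : e < N := by
      have h1 : 0 < rep U e := by omega
      unfold rep at h1
      rw [Finset.card_pos] at h1
      obtain ⟨n, hn'⟩ := h1
      rw [Finset.mem_filter] at hn'
      have := hUN _ hn'.2
      omega
    rw [hT]
    apply Nat.le_floor
    refine (hC (cq q * e) (Nat.mul_pos hcq0 (by omega))).trans ?_
    apply mul_le_mul_of_nonneg_left _ (by linarith)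
    apply Real.rpow_le_rpow (Nat.cast_nonneg _) _ (by positivity)
    have h2 : cq q * e ≤ 8 * N := Nat.mul_le_mul hcq8 heN.le
    exact_mod_cast h2
  have hwd : 1 ≤ w' * d := Nat.mul_pos hw1 hd1
  have hs1 := hgood d hd1 hd2
  have hs2 := hgood (w' * d) hwd hd3
  obtain ⟨D1, hD1⟩ : ∃ D1, D1 = G.filter (fun p => jacobiSym (d : ℤ) p ≠ ω p) := ⟨_, rfl⟩
  obtain ⟨D2, hD2⟩ : ∃ D2, D2 = G.filter (fun p => jacobiSym ((w' * d : ℕ) : ℤ) p ≠ ω p) := ⟨_, rfl⟩
  rw [← hD1] at hs1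
  rw [← hD2] at hs2
  have hsub : q.primeFactors.filter (fun p => p = 2 ∨ jacobiSym w p ≠ 1) ⊆
      ((q.primeFactors \ G) ∪ D1) ∪ D2 := by
    intro p hp
    rw [Finset.mem_filter] at hp
    obtain ⟨hpq, hp2⟩ := hp
    rw [Finset.mem_union, Finset.mem_union, Finset.mem_sdiff]
    by_contra hcon
    rw [not_or, not_or, not_and_not_right] at hcon
    obtain ⟨⟨h1, h2⟩, h3⟩ := hcon
    have hpG := h1 hpq
    have h4 : jacobiSym (d : ℤ) p = ω p := by
      by_contra h5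
      exact h2 (by rw [hD1, Finset.mem_filter]; exact ⟨hpG, h5⟩)
    have h5 : jacobiSym ((w' * d : ℕ) : ℤ) p = ω p := by
      by_contra h6
      exact h3 (by rw [hD2, Finset.mem_filter]; exact ⟨hpG, h6⟩)
    obtain ⟨hp4, hωp⟩ := hGω p hpG
    rw [Nat.cast_mul, jacobiSym.mul_left, h4] at h5
    have h6 : jacobiSym (w' : ℤ) p = 1 := by
      rcases hωp with h7 | h7 <;> rw [h7] at h5 <;> linarith
    have hodd : Odd p := by
      rw [Nat.odd_iff]
      omega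
    have h7 : jacobiSym w p = 1 := by
      rcases Int.natAbs_eq w with h8 | h8
      · rw [h8, ← hw']
        exact h6
      · rw [h8, ← hw', jacobiSym.neg _ hodd, ZMod.χ₄_nat_one_mod_four hp4, one_mul]
        exact h6
    rcases hp2 with h8 | h8
    · rw [h8] at hp4
      omega
    · exact h8 h7
  have hwp : ∀ p ∈ q.primeFactors, 0 ≤ wp q p := fun p hp => wp_nonneg hp
  have hD1s : D1 ⊆ q.primeFactors := by
    rw [hD1]
    exact (Finset.filter_subset _ _).trans hG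
  have hD2s : D2 ⊆ q.primeFactors := by
    rw [hD2]
    exact (Finset.filter_subset _ _).trans hG
  have hun : ∀ A B : Finset ℕ, A ⊆ q.primeFactors → B ⊆ q.primeFactors →
      ∑ p ∈ A ∪ B, wp q p ≤ ∑ p ∈ A, wp q p + ∑ p ∈ B, wp q p := by
    intro A B hA hB
    rw [← Finset.sum_union_inter]
    have : 0 ≤ ∑ p ∈ A ∩ B, wp q p :=
      Finset.sum_nonneg fun p hp => hwp p (hA (Finset.inter_subset_left hp))
    linarith
  have hc := Finset.sum_sdiff (f := fun p => wp q p) hG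
  have htot := (sum_wp hq0).1
  have hsd : q.primeFactors \ G ⊆ q.primeFactors := Finset.sdiff_subset
  have h1 : ∑ p ∈ q.primeFactors.filter (fun p => p = 2 ∨ jacobiSym w p ≠ 1), wp q p ≤
      ∑ p ∈ ((q.primeFactors \ G) ∪ D1) ∪ D2, wp q p :=
    Finset.sum_le_sum_of_subset_of_nonneg hsub
      (fun p hp _ => hwp p (Finset.union_subset (Finset.union_subset hsd hD1s) hD2s hp))
  have h2 := hun ((q.primeFactors \ G) ∪ D1) D2 (Finset.union_subset hsd hD1s) hD2s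
  have h3 := hun (q.primeFactors \ G) D1 hsd hD1s
  have h4 : (1 - κ / 3) * Real.log q = Real.log q - κ / 3 * Real.log q := by ring
  linarith

end Pool.Agent.Lib.MP_2c6f70_nt.RU
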