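import Pool.Agent.Lib.MP_2c6f70_nt.RU.X_Main
import Pool.Agent.Lib.MP_2c6f70_nt.RU.S_Res
import Pool.Agent.Lib.MP_2c6f70_nt.RU.S_E

/-!
# Small integers are squares modulo almost all prime powers of `q`

`e = η/8`.  `Q² ≥ N^(1+η)`, so `log log q > N^(3e/8)` by `rudin_de`, and `reduction3 e` gives `N'`, `q' = q t`, `S'`, with `#S'² ≥ |w| N^(η-2e) (N'/2)^(1+2e) ≥ |w| N'^(1+e)`.
`small_residues e e (δ/2)`; the weight of `p ∣ q` in `q` is at most the weight in `q'`, up to `3 log 2` for `p = 2`, and `log q' ≤ log q + log N`.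
-/

set_option autoImplicit false

namespace Pool.Agent.Lib.MP_2c6f70_nt.RU

open Necdea073 Pool.Agent.Lib.MP_2c6f70_nt Pool.Agent.Lib.MP_2c6f70_nt.KW

private theorem SM_large (c B : ℝ) (hc : 0 < c) : ∃ N₀ : ℕ, ∀ N ≥ N₀, B ≤ (N : ℝ) ^ c := by
  have h1 : Filter.Tendsto (fun N : ℕ => (N : ℝ) ^ c) Filter.atTop Filter.atTop :=
    (tendsto_rpow_atTop hc).comp tendsto_natCast_atTop_atTop
  exact Filter.eventually_atTop.mp (h1.eventually_ge_atTop B)

private theorem SM_log (c : ℝ) (hc : 0 < c) : ∃ N₀ : ℕ, ∀ N ≥ N₀, Real.log N ≤ 1 / 2 * (N : ℝ) ^ c := by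
  have h1 := (isLittleO_log_rpow_atTop hc).bound (by norm_num : (0 : ℝ) < 1 / 2)
  have h2 := tendsto_natCast_atTop_atTop.eventually h1
  obtain ⟨N₀, h⟩ := Filter.eventually_atTop.mp h2
  refine ⟨N₀, ?_⟩
  intro N hN
  have h3 := h N hN
  rw [Real.norm_eq_abs, Real.norm_eq_abs, abs_of_nonneg (Real.rpow_nonneg (Nat.cast_nonneg N) c)] at h3
  exact le_trans (le_abs_self _) h3

/-- The weight of `p` in `q` and in a multiple of `q`. -/
private theorem SM_wp {q q' p : ℕ} (hq' : q' ≠ 0) (hqq : q ∣ q') (hp : p ∈ q.primeFactors) :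
    Real.log (((p ^ q.factorization p : ℕ)) : ℝ) ≤ wp q' p + if p = 2 then 3 * Real.log 2 else 0 := by
  have hpp := Nat.prime_of_mem_primeFactors hp
  have hp1 : (1 : ℝ) ≤ p := by exact_mod_cast hpp.one_le
  have hlog : 0 ≤ Real.log p := Real.log_nonneg hp1
  have hq0 : q ≠ 0 := fun h => hq' (Nat.eq_zero_of_zero_dvd (h ▸ hqq))
  have hfac : q.factorization p ≤ q'.factorization p := (Nat.factorization_le_iff_dvd hq0 hq').2 hqq p
  have hfr : (q.factorization p : ℝ) ≤ (q'.factorization p : ℝ) := by exact_mod_cast hfac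
  rw [Nat.cast_pow, Real.log_pow]
  by_cases h2 : p = 2
  · subst h2
    rw [if_pos rfl]
    have hl2 : 0 < Real.log 2 := Real.log_pos (by norm_num)
    unfold wp mr
    rw [if_pos rfl]
    by_cases h3 : q'.factorization 2 ≤ 3
    · rw [if_pos h3]
      have h4 : (q'.factorization 2 : ℝ) ≤ 3 := by exact_mod_cast h3
      rw [Nat.cast_one, Real.log_one, Nat.cast_ofNat]
      nlinarith
    · rw [if_neg h3, Nat.cast_pow, Real.log_pow, Nat.cast_ofNat]
      have h5 : ((q'.factorization 2 - 2 : ℕ) : ℝ) = (q'.factorization 2 : ℝ) - 2 := by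
        rw [Nat.cast_sub (by omega)]
        norm_num
      rw [h5]
      nlinarith
  · rw [if_neg h2, add_zero]
    unfold wp mr
    rw [if_neg h2, Nat.cast_pow, Real.log_pow]
    exact mul_le_mul_of_nonneg_right hfr hlog

private theorem SM_wp_nonneg {q p : ℕ} (hp : p ∈ q.primeFactors) : 0 ≤ wp q p := by
  unfold wp
  apply Real.log_nonneg
  exact_mod_cast mr_pos hp

private theorem SM_sum {q q' : ℕ} (hq' : q' ≠ 0) (hqq : q ∣ q') (w : ℤ) :
    Real.log ((∏ p ∈ q.primeFactors.filter (fun p => p = 2 ∨ jacobiSym w p ≠ 1), p ^ q.factorization p : ℕ) : ℝ) ≤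
      ∑ p ∈ q'.primeFactors.filter (fun p => p = 2 ∨ jacobiSym w p ≠ 1), wp q' p + 3 * Real.log 2 := by
  have hl2 : 0 < Real.log 2 := Real.log_pos (by norm_num)
  have hsub : q.primeFactors.filter (fun p => p = 2 ∨ jacobiSym w p ≠ 1) ⊆
      q'.primeFactors.filter (fun p => p = 2 ∨ jacobiSym w p ≠ 1) :=
    Finset.filter_subset_filter _ (Nat.primeFactors_mono hqq hq')
  rw [Nat.cast_prod, Real.log_prod]
  · calc ∑ p ∈ q.primeFactors.filter (fun p => p = 2 ∨ jacobiSym w p ≠ 1),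
          Real.log (((p ^ q.factorization p : ℕ)) : ℝ)
        ≤ ∑ p ∈ q.primeFactors.filter (fun p => p = 2 ∨ jacobiSym w p ≠ 1),
          (wp q' p + if p = 2 then 3 * Real.log 2 else 0) := by
          apply Finset.sum_le_sum
          intro p hp
          exact SM_wp hq' hqq (Finset.mem_filter.1 hp).1
      _ = ∑ p ∈ q.primeFactors.filter (fun p => p = 2 ∨ jacobiSym w p ≠ 1), wp q' p +
          ∑ p ∈ q.primeFactors.filter (fun p => p = 2 ∨ jacobiSym w p ≠ 1), (if p = 2 then 3 * Real.log 2 else 0) :=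
          Finset.sum_add_distrib
      _ ≤ ∑ p ∈ q'.primeFactors.filter (fun p => p = 2 ∨ jacobiSym w p ≠ 1), wp q' p + 3 * Real.log 2 := by
          apply add_le_add
          · apply Finset.sum_le_sum_of_subset_of_nonneg hsub
            intro p hp _
            exact SM_wp_nonneg (Finset.mem_filter.1 hp).1
          · rw [Finset.sum_ite_eq']
            split_ifs
            · exact le_rfl
            · linarith
  · intro p hp
    have h1 := (Nat.prime_of_mem_primeFactors (Finset.mem_filter.1 hp).1).pos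
    have h2 : 0 < p ^ q.factorization p := pow_pos h1 _
    exact_mod_cast h2.ne'

/-- The arithmetic of the reduction. -/
private theorem SM_num {n n' Q s w e η : ℝ} (hn : 1 ≤ n) (hn' : 1 ≤ n') (he : 0 < e) (hη : 2 * e ≤ η) (he1 : e ≤ 1 / 4)
    (hw : 0 ≤ w) (hQ0 : 0 ≤ Q) (hQ : w * n ^ (1 + η) ≤ Q ^ 2)
    (h1 : Q * (n' / 2) ^ (1 / 2 + e) ≤ s * n ^ (1 / 2 + e)) (h4 : 4 ≤ n' ^ e) :
    w * n' ^ (1 + e) ≤ s ^ 2 := by
  have hn0 : 0 < n := by linarith
  have hn'0 : 0 < n' := by linarith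
  have hsq : ∀ x : ℝ, 0 < x → (x ^ (1 / 2 + e)) ^ 2 = x ^ (1 + 2 * e) := by
    intro x hx
    rw [sq, ← Real.rpow_add hx]
    congr 1
    ring
  have h2 : Q ^ 2 * (n' / 2) ^ (1 + 2 * e) ≤ s ^ 2 * n ^ (1 + 2 * e) := by
    rw [← hsq _ hn0, ← hsq _ (by positivity : 0 < n' / 2), ← mul_pow, ← mul_pow]
    exact pow_le_pow_left₀ (by positivity) h1 2
  have h3 : n' ^ (1 + e) ≤ (n' / 2) ^ (1 + 2 * e) := by
    rw [Real.div_rpow hn'0.le (by norm_num), le_div_iff₀ (by positivity)]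
    have h5 : (2 : ℝ) ^ (1 + 2 * e) ≤ 4 := by
      calc (2 : ℝ) ^ (1 + 2 * e) ≤ (2 : ℝ) ^ (2 : ℝ) :=
            Real.rpow_le_rpow_of_exponent_le (by norm_num) (by linarith)
        _ = 4 := by norm_num
    have h6 : n' ^ (1 + 2 * e) = n' ^ (1 + e) * n' ^ e := by
      rw [← Real.rpow_add hn'0]
      congr 1
      ring
    rw [h6]
    exact mul_le_mul_of_nonneg_left (le_trans h5 h4) (by positivity)
  have h7 : n ^ (1 + 2 * e) ≤ n ^ (1 + η) := Real.rpow_le_rpow_of_exponent_le hn (by linarith)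
  have hn2 : 0 < n ^ (1 + 2 * e) := Real.rpow_pos_of_pos hn0 _
  have h8 : (w * n' ^ (1 + e)) * n ^ (1 + 2 * e) ≤ s ^ 2 * n ^ (1 + 2 * e) := by
    calc (w * n' ^ (1 + e)) * n ^ (1 + 2 * e) ≤ (w * (n' / 2) ^ (1 + 2 * e)) * n ^ (1 + η) := by
          apply mul_le_mul (mul_le_mul_of_nonneg_left h3 hw) h7 hn2.le (by positivity)
      _ = (w * n ^ (1 + η)) * (n' / 2) ^ (1 + 2 * e) := by ring
      _ ≤ Q ^ 2 * (n' / 2) ^ (1 + 2 * e) := mul_le_mul_of_nonneg_right hQ (by positivity)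
      _ ≤ s ^ 2 * n ^ (1 + 2 * e) := h2
  exact le_of_mul_le_mul_right h8 hn2

/-- Small integers are squares modulo almost all prime powers of `q`. -/
theorem rudin_res (η δ : ℝ) (hη : 0 < η) (hδ : 0 < δ) : ∃ N₀ : ℕ, ∀ N ≥ N₀, ∀ q a : ℕ, 1 ≤ q → 1 ≤ a →
    Nat.Coprime q a → ∀ w : ℤ, w ≠ 0 → |(w : ℝ)| * (N : ℝ) ^ (1 + η) ≤ (Q N q a : ℝ) ^ 2 →
      ((∏ p ∈ q.primeFactors.filter (fun p => p = 2 ∨ jacobiSym w p ≠ 1), p ^ q.factorization p : ℕ) : ℝ) ≤
        (q : ℝ) ^ δ := by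
  rcases le_or_gt η 1 with hη1 | hη1
  · obtain ⟨e, he⟩ : ∃ e : ℝ, e = η / 8 := ⟨_, rfl⟩
    have he0 : 0 < e := by rw [he]; linarith
    have he1 : e ≤ 1 / 4 := by rw [he]; linarith
    have he2 : 8 * e = η := by rw [he]; ring
    obtain ⟨Na, ha⟩ := small_residues e e (δ / 2) he0 he1 he0 (by linarith)
    obtain ⟨Nb, hb⟩ := rudin_de (3 * e) (by linarith)
    obtain ⟨Nc, hc⟩ := SM_log (3 * e / 8) (by linarith)
    obtain ⟨Nd, hd⟩ := SM_large (3 * e / 8) (2 * (6 / δ * Real.log 2)) (by linarith)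
    obtain ⟨Ne, he'⟩ := SM_large e 4 he0
    obtain ⟨Nf, hf⟩ := reduction3 e he0 he1 (max (max Na Ne) 1)
    refine ⟨max (max (max Nb Nc) (max Nd Nf)) 2, ?_⟩
    intro N hN q a hq1 ha1 hcop w hw hQ
    have hN2 : 2 ≤ N := le_trans (le_max_right _ _) hN
    have hN' := le_trans (le_max_left _ _) hN
    have hNb : Nb ≤ N := le_trans (le_trans (le_max_left _ _) (le_max_left _ _)) hN'
    have hNc : Nc ≤ N := le_trans (le_trans (le_max_right _ _) (le_max_left _ _)) hN'
    have hNd : Nd ≤ N := le_trans (le_trans (le_max_left _ _) (le_max_right _ _)) hN'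
    have hNf : Nf ≤ N := le_trans (le_trans (le_max_right _ _) (le_max_right _ _)) hN'
    have hN1r : (1 : ℝ) < N := by exact_mod_cast (by omega : 1 < N)
    have hN0r : (0 : ℝ) < N := by linarith
    have hw1 : (1 : ℝ) ≤ |(w : ℝ)| := by
      have h1 : (1 : ℤ) ≤ |w| := Int.one_le_abs hw
      have h2 : ((1 : ℤ) : ℝ) ≤ ((|w| : ℤ) : ℝ) := by exact_mod_cast h1
      rwa [Int.cast_one, Int.cast_abs] at h2
    have hQ0 : (0 : ℝ) ≤ (Q N q a : ℝ) := Nat.cast_nonneg _
    -- lower bound for `Q`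
    have hQlow : (N : ℝ) ^ (1 / 2 + 4 * e) ≤ (Q N q a : ℝ) := by
      have h1 : ((N : ℝ) ^ (1 / 2 + 4 * e)) ^ 2 = (N : ℝ) ^ (1 + η) := by
        rw [sq, ← Real.rpow_add hN0r]
        congr 1
        linarith
      have h2 : ((N : ℝ) ^ (1 / 2 + 4 * e)) ^ 2 ≤ (Q N q a : ℝ) ^ 2 := by
        rw [h1]
        have h3 : 0 ≤ (N : ℝ) ^ (1 + η) := Real.rpow_nonneg hN0r.le _
        nlinarith
      exact (pow_le_pow_iff_left₀ (Real.rpow_nonneg hN0r.le _) hQ0 (by norm_num)).1 h2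
    -- lower bound for `q`
    have hlog : (N : ℝ) ^ (3 * e / 8) < Real.log (Real.log q) := by
      by_contra hcon
      push Not at hcon
      have h1 := hb N hNb q a hq1 ha1 hcon
      have h2 : (N : ℝ) ^ (1 / 2 + 3 * e) < (N : ℝ) ^ (1 / 2 + 4 * e) :=
        Real.rpow_lt_rpow_of_exponent_lt hN1r (by linarith)
      linarith
    have hq1r : (1 : ℝ) ≤ q := by exact_mod_cast hq1
    have hq0r : (0 : ℝ) < q := by linarith
    have hlogq : 0 < Real.log q := by
      have h1 : 0 ≤ Real.log q := Real.log_nonneg hq1r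
      rcases h1.lt_or_eq with h | h
      · exact h
      · exfalso
        rw [← h, Real.log_zero] at hlog
        have := Real.rpow_nonneg hN0r.le (3 * e / 8)
        linarith
    have hlog2 : Real.log N + 6 / δ * Real.log 2 ≤ Real.log q := by
      have h1 := hc N hNc
      have h2 := hd N hNd
      have h3 : (N : ℝ) ^ (3 * e / 8) ≤ Real.log q := by
        have h4 : Real.exp (Real.log (Real.log q)) = Real.log q := Real.exp_log hlogq
        have h5 := Real.add_one_le_exp (Real.log (Real.log q))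
        rw [h4] at h5
        linarith
      linarith
    -- the reduction
    obtain ⟨T, hT, hTc, -⟩ := XM_card N q a
    have hTlow : (N : ℝ) ^ (1 / 2 + 2 * e) ≤ (T.card : ℝ) := by
      rw [hTc]
      refine le_trans ?_ hQlow
      exact Real.rpow_le_rpow_of_exponent_le hN1r.le (by linarith)
    obtain ⟨N', hN'1, -, t, q', a', S', hqt, ht1, htN, hctx, hext, hcard, hcard2⟩ :=
      hf N hNf q a hq1 ha1 hcop T hT hTlow
    have hNa : Na ≤ N' := le_trans (le_trans (le_max_left _ _) (le_max_left _ _)) hN'1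
    have hNe : Ne ≤ N' := le_trans (le_trans (le_max_right _ _) (le_max_left _ _)) hN'1
    have hN'1r : (1 : ℝ) ≤ N' := by exact_mod_cast le_trans (le_max_right _ _) hN'1
    rw [hTc] at hcard2
    have hw2 : |(w : ℝ)| * (N' : ℝ) ^ (1 + e) ≤ (S'.card : ℝ) ^ 2 :=
      SM_num hN1r.le hN'1r he0 (by linarith) he1 (abs_nonneg _) hQ0 hQ hcard2 (he' N' hNe)
    have h1 := ha N' hNa q' a' S' hctx hext hcard w hw hw2
    have hq'0 : q' ≠ 0 := by have := hctx.hq; omega
    have h2 := SM_sum hq'0 ⟨t, hqt⟩ w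
    have htr : (1 : ℝ) ≤ t := by exact_mod_cast ht1
    have h3 : Real.log q' ≤ Real.log q + Real.log N := by
      rw [hqt, Nat.cast_mul, Real.log_mul hq0r.ne' (by linarith)]
      have h4 : Real.log t ≤ Real.log N := Real.log_le_log (by linarith) (by exact_mod_cast htN)
      linarith
    have h5 : Real.log ((∏ p ∈ q.primeFactors.filter (fun p => p = 2 ∨ jacobiSym w p ≠ 1),
        p ^ q.factorization p : ℕ) : ℝ) ≤ δ * Real.log q := by
      have h6 : δ / 2 * Real.log q' ≤ δ / 2 * (Real.log q + Real.log N) :=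
        mul_le_mul_of_nonneg_left h3 (by linarith)
      have h7 : δ / 2 * (Real.log N + 6 / δ * Real.log 2) ≤ δ / 2 * Real.log q :=
        mul_le_mul_of_nonneg_left hlog2 (by linarith)
      have h8 : δ / 2 * (6 / δ * Real.log 2) = 3 * Real.log 2 := by
        field_simp
        ring
      rw [mul_add, h8] at h7
      rw [mul_add] at h6
      linarith
    have hpos : (0 : ℝ) < ((∏ p ∈ q.primeFactors.filter (fun p => p = 2 ∨ jacobiSym w p ≠ 1),
        p ^ q.factorization p : ℕ) : ℝ) := by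
      have h6 : 0 < ∏ p ∈ q.primeFactors.filter (fun p => p = 2 ∨ jacobiSym w p ≠ 1), p ^ q.factorization p := by
        apply Finset.prod_pos
        intro p hp
        exact pow_pos (Nat.prime_of_mem_primeFactors (Finset.mem_filter.1 hp).1).pos _
      exact_mod_cast h6
    rw [← Real.log_le_log_iff hpos (Real.rpow_pos_of_pos hq0r _), Real.log_rpow hq0r]
    exact h5
  · refine ⟨2, ?_⟩
    intro N hN q a _ _ _ w hw hQ
    exfalso
    have hN1r : (1 : ℝ) < N := by exact_mod_cast (by omega : 1 < N)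
    have hw1 : (1 : ℝ) ≤ |(w : ℝ)| := by
      have h1 : (1 : ℤ) ≤ |w| := Int.one_le_abs hw
      have h2 : ((1 : ℤ) : ℝ) ≤ ((|w| : ℤ) : ℝ) := by exact_mod_cast h1
      rwa [Int.cast_one, Int.cast_abs] at h2
    obtain ⟨T, -, hTc, hTN⟩ := XM_card N q a
    have h1 : (Q N q a : ℝ) ≤ N := by
      rw [← hTc]
      exact_mod_cast hTN
    have h2 : (Q N q a : ℝ) ^ 2 ≤ (N : ℝ) ^ 2 := pow_le_pow_left₀ (Nat.cast_nonneg _) h1 2
    have h3 : (N : ℝ) ^ (2 : ℝ) < (N : ℝ) ^ (1 + η) := Real.rpow_lt_rpow_of_exponent_lt hN1r (by linarith)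
    rw [Real.rpow_two] at h3
    have h4 : 0 ≤ (N : ℝ) ^ (1 + η) := Real.rpow_nonneg (by linarith) _
    nlinarith

end Pool.Agent.Lib.MP_2c6f70_nt.RU
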