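import Pool.Agent.Lib.MP_2c6f70_nt.RU.T_Defs

/-!
# Block T: basic properties of `chi`, `mm`, `ee`

Proofs.
`chi_mul`: `jacobiSym.mul_left`, `Finset.prod_mul_distrib`.  `chi_abs`: `jacobiSym` is `0, 1, -1` (`jacobiSym.trichotomy`), product of numbers of absolute value `≤ 1`.
`chi_union`, `mm_union`: `Finset.prod_union`.  `chi_neg`: `p % 4 = 1`, so `(-1 | p) = 1` (`ZMod.χ₄`, `jacobiSym.at_neg_one`; `jacobiSym.neg`).
`chi_zero`: `(0 | p) = 0` for `p > 1` (`jacobiSym.zero_left`).  `chi_add_mul`: `p ∣ mm K`, `jacobiSym.mod_left` (`Int.emod_emod_of_dvd`...).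
`chi_eq_zero_iff`: `(h | p) = 0` iff not coprime (`jacobiSym.eq_zero_iff_not_coprime`), product over primes.
`chi_mul_chi`: write `K = G ∪ (K \ K')`, `K' = G ∪ (K' \ K)`, `G = K ∩ K'`; `chi G h ^ 2 = 1` or `0`; `symmDiff K K' = (K \ K') ∪ (K' \ K)` (disjoint union).
`coprime_moebius`: for `G` a set of primes: `1` if no `p ∈ G` divides `h`, else `0`: this is `∏ p ∈ G, (1 - [p ∣ h])`, expand with `Finset.prod_one_sub` / `Finset.prod_add` (or `Finset.prod_sub`...), `∏ p ∈ D, [p ∣ h] = [mm D ∣ h]` as the primes are distinct (`Finset.prod_primes_dvd`, or `Int` version through `natAbs`).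
`recip`: quadratic reciprocity `(p | q) = (q | p)` for `p ≡ 1 mod 4` (`jacobiSym.quadratic_reciprocity_one_mod_four`), product over `q ∈ K`; so `chi K p * jacobiSym (mm K) p = ∏ (p|q)^2 = 1` as `p ∤ q`.
`norm_eD`: `mm D = 0` gives `0 ^ (-1/2) = 0` (`Real.zero_rpow`), `mm D ≥ 1` gives `≤ 1` (`Real.rpow_le_one_of_one_le_of_nonpos`).
-/

set_option autoImplicit false

namespace Pool.Agent.Lib.MP_2c6f70_nt.RU.T

open Finset

theorem PP.subset {K K' : Finset ℕ} (h : PP K) (h' : K' ⊆ K) : PP K' := fun p hp => h p (h' hp)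

private theorem T_Bas_zero {p : ℕ} (hp : p.Prime) (a : ℤ) : jacobiSym a p = 0 ↔ (p : ℤ) ∣ a := by
  have : Fact p.Prime := ⟨hp⟩
  rw [← jacobiSym.legendreSym.to_jacobiSym p a, legendreSym.eq_zero_iff,
    ZMod.intCast_zmod_eq_zero_iff_dvd]

private theorem T_Bas_sq1 {p : ℕ} (hp : p.Prime) {a : ℤ} (h : ¬ (p : ℤ) ∣ a) :
    jacobiSym a p * jacobiSym a p = 1 := by
  rcases jacobiSym.trichotomy a p with h1 | h1 | h1
  · exact absurd ((T_Bas_zero hp a).1 h1) h
  · rw [h1, one_mul]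
  · rw [h1]
    norm_num

private theorem T_Bas_mm {P S : Finset ℕ} {Z : ℝ} (hZ : ∀ p ∈ P, (p : ℝ) ≤ Z) (hS : S ⊆ P) :
    (mm S : ℝ) ≤ Z ^ S.card := by
  unfold mm
  rw [Nat.cast_prod, ← Finset.prod_const]
  exact Finset.prod_le_prod (fun p _ => Nat.cast_nonneg p) fun p hp => hZ p (hS hp)

private theorem T_Bas_dvd {D : Finset ℕ} (hD : PP D) (a : ℤ) :
    (∀ p ∈ D, (p : ℤ) ∣ a) ↔ (mm D : ℤ) ∣ a := by
  constructor
  · intro h
    rw [Int.natCast_dvd]
    refine Finset.prod_primes_dvd _ (fun p hp => (hD p hp).1.prime) ?_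
    intro p hp
    exact Int.natCast_dvd.1 (h p hp)
  · intro h p hp
    have h1 : p ∣ mm D := Finset.dvd_prod_of_mem _ hp
    exact (Int.natCast_dvd_natCast.2 h1).trans h

theorem PP.symmDiff {K K' : Finset ℕ} (h : PP K) (h' : PP K') : PP (symmDiff K K') := by
  intro p hp
  rcases Finset.mem_symmDiff.1 hp with h1 | h1
  · exact h p h1.1
  · exact h' p h1.1

theorem mm_pos {K : Finset ℕ} (hK : PP K) : 0 < mm K := by
  exact Finset.prod_pos fun p hp => (hK p hp).1.pos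

theorem mm_union {K K' : Finset ℕ} (h : Disjoint K K') : mm (K ∪ K') = mm K * mm K' := by
  exact Finset.prod_union h

/-- Size of `mm D * mm (symmDiff K K')`. -/
theorem mm_le {P K K' D : Finset ℕ} {Z : ℝ} {j : ℕ} (hP : PP P) (hZ : ∀ p ∈ P, (p : ℝ) ≤ Z) (hZ1 : 1 ≤ Z)
    (hK : K ∈ P.powersetCard j) (hK' : K' ∈ P.powersetCard j) (hD : D ⊆ K ∩ K') :
    (mm D : ℝ) * mm (symmDiff K K') ≤ Z ^ (2 * j) := by
  obtain ⟨hK1, hK2⟩ := Finset.mem_powersetCard.1 hK
  obtain ⟨hK1', hK2'⟩ := Finset.mem_powersetCard.1 hK'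
  have h1 : (mm D : ℝ) ≤ Z ^ D.card :=
    T_Bas_mm hZ fun p hp => hK1 (Finset.mem_inter.1 (hD hp)).1
  have h2 : (mm (symmDiff K K') : ℝ) ≤ Z ^ (symmDiff K K').card := by
    refine T_Bas_mm hZ fun p hp => ?_
    rcases Finset.mem_symmDiff.1 hp with h | h
    · exact hK1 h.1
    · exact hK1' h.1
  have h3 : D.card + (symmDiff K K').card ≤ 2 * j := by
    have h4 := Finset.card_le_card hD
    have h5 : (symmDiff K K').card ≤ (K \ K').card + (K' \ K).card := by
      rw [symmDiff_def]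
      exact Finset.card_union_le _ _
    have h6 := Finset.card_inter_add_card_sdiff K K'
    have h7 : (K' \ K).card ≤ K'.card := Finset.card_le_card Finset.sdiff_subset
    omega
  calc (mm D : ℝ) * mm (symmDiff K K') ≤ Z ^ D.card * Z ^ (symmDiff K K').card :=
        mul_le_mul h1 h2 (Nat.cast_nonneg _) (pow_nonneg (by linarith) _)
    _ = Z ^ (D.card + (symmDiff K K').card) := (pow_add _ _ _).symm
    _ ≤ Z ^ (2 * j) := pow_le_pow_right₀ hZ1 h3

theorem chi_empty (h : ℤ) : chi ∅ h = 1 := by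
  exact Finset.prod_empty

theorem chi_mul (K : Finset ℕ) (a b : ℤ) : chi K (a * b) = chi K a * chi K b := by
  unfold chi
  rw [← Finset.prod_mul_distrib]
  exact Finset.prod_congr rfl fun p _ => jacobiSym.mul_left a b p

theorem chi_abs (K : Finset ℕ) (a : ℤ) : |chi K a| ≤ 1 := by
  unfold chi
  rw [Finset.abs_prod]
  refine Finset.prod_le_one (fun p _ => abs_nonneg _) fun p _ => ?_
  rcases jacobiSym.trichotomy a p with h | h | h <;> rw [h] <;> norm_num

theorem chi_norm (K : Finset ℕ) (a : ℤ) : ‖((chi K a : ℤ) : ℂ)‖ ≤ 1 := by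
  rw [Complex.norm_intCast]
  exact_mod_cast chi_abs K a

theorem chi_union {K K' : Finset ℕ} (h : Disjoint K K') (a : ℤ) : chi (K ∪ K') a = chi K a * chi K' a := by
  exact Finset.prod_union h

theorem chi_neg {K : Finset ℕ} (hK : PP K) (a : ℤ) : chi K (-a) = chi K a := by
  refine Finset.prod_congr rfl fun p hp => ?_
  have h1 := (hK p hp).2
  have hodd : Odd p := Nat.odd_iff.2 (by omega)
  rw [jacobiSym.neg a hodd, ZMod.χ₄_nat_one_mod_four h1, one_mul]

theorem chi_zero {K : Finset ℕ} (hK : PP K) (hne : K.Nonempty) : chi K 0 = 0 := by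
  obtain ⟨p, hp⟩ := hne
  exact Finset.prod_eq_zero hp (jacobiSym.zero_left (hK p hp).1.one_lt)

theorem chi_add_mul {K : Finset ℕ} (hK : PP K) (a n : ℤ) : chi K (a + mm K * n) = chi K a := by
  refine Finset.prod_congr rfl fun p hp => ?_
  refine jacobiSym.mod_left' ?_
  have h1 : p ∣ mm K := Finset.dvd_prod_of_mem _ hp
  obtain ⟨c, hc⟩ := h1
  rw [hc]
  push_cast
  rw [mul_assoc, Int.add_mul_emod_self_left]

theorem chi_mul_chi {K K' : Finset ℕ} (hK : PP K) (hK' : PP K') (a : ℤ) :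
    chi K a * chi K' a = chi (symmDiff K K') a * (if ∀ p ∈ K ∩ K', ¬ (p : ℤ) ∣ a then 1 else 0) := by
  have h1 : chi K a = chi (K ∩ K') a * chi (K \ K') a :=
    (Finset.prod_inter_mul_prod_sdiff K K' _).symm
  have h2 : chi K' a = chi (K ∩ K') a * chi (K' \ K) a := by
    rw [Finset.inter_comm]
    exact (Finset.prod_inter_mul_prod_sdiff K' K _).symm
  have h3 : chi (symmDiff K K') a = chi (K \ K') a * chi (K' \ K) a := by
    rw [symmDiff_def]
    exact chi_union disjoint_sdiff_sdiff a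
  have h4 : chi (K ∩ K') a * chi (K ∩ K') a =
      (if ∀ p ∈ K ∩ K', ¬ (p : ℤ) ∣ a then 1 else 0) := by
    unfold chi
    split_ifs with h
    · rw [← Finset.prod_mul_distrib]
      refine Finset.prod_eq_one fun p hp => ?_
      exact T_Bas_sq1 (hK p (Finset.mem_inter.1 hp).1).1 (h p hp)
    · push Not at h
      obtain ⟨p, hp, hpa⟩ := h
      rw [Finset.prod_eq_zero hp ((T_Bas_zero (hK p (Finset.mem_inter.1 hp).1).1 a).2 hpa),
        zero_mul]
  rw [← h4, h1, h2, h3]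
  ring

theorem coprime_moebius {G : Finset ℕ} (hG : PP G) (a : ℤ) :
    (if ∀ p ∈ G, ¬ (p : ℤ) ∣ a then (1 : ℤ) else 0) =
      ∑ D ∈ G.powerset, (-1) ^ D.card * (if (mm D : ℤ) ∣ a then 1 else 0) := by
  have h1 : (if ∀ p ∈ G, ¬ (p : ℤ) ∣ a then (1 : ℤ) else 0) =
      ∏ p ∈ G, (((-1) * (if (p : ℤ) ∣ a then (1 : ℤ) else 0)) + 1) := by
    have h2 : ∀ p ∈ G, (((-1) * (if (p : ℤ) ∣ a then (1 : ℤ) else 0)) + 1) =
        (if ¬ (p : ℤ) ∣ a then (1 : ℤ) else 0) := by
      intro p _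
      by_cases h : (p : ℤ) ∣ a
      · rw [if_pos h, if_neg (not_not.2 h)]
        norm_num
      · rw [if_neg h, if_pos h]
        norm_num
    rw [Finset.prod_congr rfl h2, Finset.prod_ite_zero, Finset.prod_const_one]
  rw [h1, Finset.prod_add]
  refine Finset.sum_congr rfl fun D hD => ?_
  have hD' : PP D := hG.subset (Finset.mem_powerset.1 hD)
  rw [Finset.prod_const_one, mul_one, Finset.prod_mul_distrib, Finset.prod_const,
    Finset.prod_ite_zero, Finset.prod_const_one]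
  congr 1
  by_cases h : (mm D : ℤ) ∣ a
  · rw [if_pos h, if_pos ((T_Bas_dvd hD' a).2 h)]
  · rw [if_neg h, if_neg (fun h' => h ((T_Bas_dvd hD' a).1 h'))]

theorem recip {K : Finset ℕ} (hK : PP K) {p : ℕ} (hp : p.Prime) (hp4 : p % 4 = 1) (hpK : p ∉ K) :
    chi K (p : ℤ) * jacobiSym (mm K : ℤ) p = 1 := by
  induction K using Finset.induction_on with
  | empty =>
    have h1 : mm ∅ = 1 := Finset.prod_empty
    rw [chi_empty, h1, Nat.cast_one, jacobiSym.one_left, one_mul]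
  | insert q K hq ih =>
    have hq1 := hK q (Finset.mem_insert_self q K)
    have ih' := ih (hK.subset (Finset.subset_insert q K))
      (fun h => hpK (Finset.mem_insert_of_mem h))
    have h1 : chi (insert q K) (p : ℤ) = jacobiSym (p : ℤ) q * chi K (p : ℤ) :=
      Finset.prod_insert hq
    have h2 : mm (insert q K) = q * mm K := Finset.prod_insert hq
    have hqodd : Odd q := Nat.odd_iff.2 (by have := hq1.2; omega)
    have h3 : jacobiSym (p : ℤ) q = jacobiSym (q : ℤ) p :=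
      jacobiSym.quadratic_reciprocity_one_mod_four hp4 hqodd
    have h4 : ¬ (p : ℤ) ∣ (q : ℤ) := by
      intro h
      have h5 := Int.natCast_dvd_natCast.1 h
      have h6 := (Nat.prime_dvd_prime_iff_eq hp hq1.1).1 h5
      exact hpK (h6 ▸ Finset.mem_insert_self q K)
    have h7 := T_Bas_sq1 hp h4
    rw [h1, h2, Nat.cast_mul, jacobiSym.mul_left, h3]
    calc jacobiSym (q : ℤ) p * chi K (p : ℤ) * (jacobiSym (q : ℤ) p * jacobiSym (mm K : ℤ) p)
        = (jacobiSym (q : ℤ) p * jacobiSym (q : ℤ) p) * (chi K (p : ℤ) * jacobiSym (mm K : ℤ) p) := by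
          ring
      _ = 1 := by rw [h7, ih', one_mul]

theorem ee_zero : ee 0 = 1 := by
  unfold ee
  rw [Complex.ofReal_zero, mul_zero, Complex.exp_zero]

theorem ee_add (x y : ℝ) : ee (x + y) = ee x * ee y := by
  unfold ee
  rw [← Complex.exp_add]
  congr 1
  push_cast
  ring

theorem ee_neg (x : ℝ) : ee (-x) = (starRingEnd ℂ) (ee x) := by
  unfold ee
  rw [← Complex.exp_conj]
  congr 1
  rw [map_mul, map_mul, map_mul, Complex.conj_ofReal, Complex.conj_ofReal, Complex.conj_I,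
    Complex.ofReal_neg]
  have h : (starRingEnd ℂ) 2 = 2 := Complex.conj_ofNat 2
  rw [h]
  ring

theorem ee_int (n : ℤ) : ee (n : ℝ) = 1 := by
  unfold ee
  rw [Complex.exp_eq_one_iff]
  refine ⟨n, ?_⟩
  push_cast
  ring

theorem norm_ee (x : ℝ) : ‖ee x‖ = 1 := by
  unfold ee
  have h : 2 * (Real.pi : ℂ) * Complex.I * (x : ℂ) = ((2 * Real.pi * x : ℝ) : ℂ) * Complex.I := by
    push_cast
    ring
  rw [h, Complex.norm_exp_ofReal_mul_I]

theorem continuous_ee : Continuous ee := by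
  unfold ee
  exact Complex.continuous_exp.comp (continuous_const.mul Complex.continuous_ofReal)

theorem ss_eq (p : ℕ) : ss p = 1 ∨ ss p = -1 := by
  unfold ss
  split_ifs
  · exact Or.inl rfl
  · exact Or.inr rfl

theorem norm_bx (ξ : ℝ) (p : ℕ) : ‖bx ξ p‖ ≤ 1 := by
  unfold bx
  rw [norm_mul, norm_ee, mul_one]
  rcases ss_eq p with h | h <;> rw [h] <;> simp

theorem norm_eD (ξ : ℝ) (D : Finset ℕ) : ‖eD ξ D‖ ≤ 1 := by
  unfold eD
  rw [norm_mul, norm_mul, norm_ee, mul_one, norm_pow, norm_neg, norm_one, one_pow, one_mul,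
    Complex.norm_real, Real.norm_eq_abs, abs_of_nonneg (Real.rpow_nonneg (Nat.cast_nonneg _) _)]
  rcases Nat.eq_zero_or_pos (mm D) with h | h
  · rw [h, Nat.cast_zero, Real.zero_rpow (by norm_num)]
    exact zero_le_one
  · have h1 : (1 : ℝ) ≤ (mm D : ℝ) := by exact_mod_cast h
    exact Real.rpow_le_one_of_one_le_of_nonpos h1 (by norm_num)

theorem norm_vl (X ξ : ℝ) (l : ℕ) : ‖vl X ξ l‖ ≤ 1 := by
  unfold vl
  exact (norm_ee _).le

end Pool.Agent.Lib.MP_2c6f70_nt.RU.T
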