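import Pool.Agent.Lib.MP_2c6f70_nt.RU.T_Bas

/-!
# Block T: the characters are correlated with products of elements of the quasi set

`card_meet`: the sets `K` of the family which meet `U` contain an element `u` of `U`, and there are `choose (#P - 1) (j - 1)` sets which contain `u`.
`corr_lower`: the terms with `K` disjoint from the exceptional set are `1`, the others are at least `-1`.
-/

set_option autoImplicit false

namespace Pool.Agent.Lib.MP_2c6f70_nt.RU.T

open Finset

theorem Cmb_mem (P : Finset ℕ) (j u : ℕ) (hu : u ∈ P) :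
    ((P.powersetCard (j + 1)).filter (fun K => u ∈ K)).card ≤ (P.card - 1).choose j := by
  classical
  rw [← card_erase_of_mem hu, ← card_powersetCard]
  refine card_le_card_of_injOn (fun K => K.erase u) ?_ ?_
  · intro K hK
    rw [mem_coe, mem_filter, mem_powersetCard] at hK
    rw [mem_coe, mem_powersetCard]
    refine ⟨erase_subset_erase u hK.1.1, ?_⟩
    rw [card_erase_of_mem hK.2, hK.1.2, Nat.add_sub_cancel]
  · intro K hK K' hK' h
    rw [mem_coe, mem_filter] at hK hK'
    simp only at h
    rw [← insert_erase hK.2, h, insert_erase hK'.2]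

theorem card_meet (P U : Finset ℕ) (j : ℕ) (hU : U ⊆ P) :
    ((P.powersetCard j).filter (fun K => ¬ Disjoint K U)).card * P.card ≤ j * U.card * (P.powersetCard j).card := by
  classical
  rcases j with _ | j
  · have h1 : (P.powersetCard 0).filter (fun K => ¬ Disjoint K U) = ∅ := by
      rw [filter_eq_empty_iff]
      intro K hK
      rw [powersetCard_zero, mem_singleton] at hK
      rw [hK, not_not]
      exact disjoint_empty_left U
    rw [h1, card_empty, zero_mul]
    exact Nat.zero_le _
  · have h1 : (P.powersetCard (j + 1)).filter (fun K => ¬ Disjoint K U) ⊆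
        U.biUnion fun u => (P.powersetCard (j + 1)).filter (fun K => u ∈ K) := by
      intro K hK
      rw [mem_filter] at hK
      obtain ⟨u, hu, hu'⟩ := not_disjoint_iff.mp hK.2
      rw [mem_biUnion]
      exact ⟨u, hu', mem_filter.mpr ⟨hK.1, hu⟩⟩
    have h2 : ((P.powersetCard (j + 1)).filter (fun K => ¬ Disjoint K U)).card ≤
        U.card * (P.card - 1).choose j := by
      refine (card_le_card h1).trans (card_biUnion_le_card_mul _ _ _ fun u hu => ?_)
      exact Cmb_mem P j u (hU hu)
    rcases Nat.eq_zero_or_pos P.card with h0 | h0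
    · rw [h0, mul_zero]
      exact Nat.zero_le _
    · have h3 : P.card * (P.card - 1).choose j = (j + 1) * P.card.choose (j + 1) := by
        obtain ⟨m, hm⟩ := Nat.exists_eq_add_of_le' h0
        rw [hm, Nat.add_sub_cancel, Nat.add_one_mul_choose_eq, mul_comm]
      rw [card_powersetCard]
      calc ((P.powersetCard (j + 1)).filter (fun K => ¬ Disjoint K U)).card * P.card
          ≤ U.card * (P.card - 1).choose j * P.card := Nat.mul_le_mul_right _ h2
        _ = U.card * (P.card * (P.card - 1).choose j) := by ring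
        _ = (j + 1) * U.card * P.card.choose (j + 1) := by rw [h3]; ring

theorem Cmb_jac {r : ℕ} (d : Fin r → ℕ) (p : ℕ) :
    jacobiSym ((∏ i, d i : ℕ) : ℤ) p = ∏ i, jacobiSym (d i : ℤ) p := by
  classical
  have h1 : ∀ s : Finset (Fin r), jacobiSym ((∏ i ∈ s, d i : ℕ) : ℤ) p =
      ∏ i ∈ s, jacobiSym (d i : ℤ) p := by
    intro s
    induction s using Finset.induction_on with
    | empty => rw [prod_empty, prod_empty, Nat.cast_one, jacobiSym.one_left]
    | insert a s ha ih => rw [prod_insert ha, prod_insert ha, Nat.cast_mul, jacobiSym.mul_left, ih]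
  exact h1 univ

theorem corr_lower (P : Finset ℕ) (ω : ℕ → ℤ) (hω : ∀ p ∈ P, ω p = 1 ∨ ω p = -1) (hne : P.Nonempty) (κ : ℝ) (r j : ℕ)
    (hκ : 4 * r * j * κ ≤ 1) (d : Fin r → ℕ) (hd : ∀ i, (exc P ω (d i) : ℝ) ≤ κ * P.card) :
    ((P.powersetCard j).card : ℝ) / 2 ≤
      ∑ K ∈ P.powersetCard j, (((∏ p ∈ K, ω p) ^ r : ℤ) : ℝ) * ((chi K ((∏ i, d i : ℕ) : ℤ) : ℤ) : ℝ) := by
  classical
  obtain ⟨U, hUdef⟩ : ∃ U, U = (univ : Finset (Fin r)).biUnion fun i =>
    P.filter (fun p => jacobiSym (d i : ℤ) p ≠ ω p) := ⟨_, rfl⟩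
  have hUP : U ⊆ P := by
    rw [hUdef]
    exact biUnion_subset.mpr fun i _ => filter_subset _ _
  have hUc : (U.card : ℝ) ≤ r * (κ * P.card) := by
    have h1 : U.card ≤ ∑ i : Fin r, exc P ω (d i) := by
      rw [hUdef]
      exact card_biUnion_le
    have h2 : ((∑ i : Fin r, exc P ω (d i) : ℕ) : ℝ) ≤ ∑ _i : Fin r, κ * P.card := by
      rw [Nat.cast_sum]
      exact sum_le_sum fun i _ => hd i
    rw [sum_const, card_univ, Fintype.card_fin, nsmul_eq_mul] at h2
    exact (Nat.cast_le.mpr h1).trans h2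
  obtain ⟨T, hT⟩ : ∃ T, T = (P.powersetCard j).filter (fun K => ¬ Disjoint K U) := ⟨_, rfl⟩
  have hP0 : (0 : ℝ) < P.card := by
    exact_mod_cast hne.card_pos
  have hTc : (T.card : ℝ) ≤ (P.powersetCard j).card / 4 := by
    have h1 : ((T.card * P.card : ℕ) : ℝ) ≤ ((j * U.card * (P.powersetCard j).card : ℕ) : ℝ) := by
      rw [hT]
      exact Nat.cast_le.mpr (card_meet P U j hUP)
    rw [Nat.cast_mul, Nat.cast_mul, Nat.cast_mul] at h1
    have h2 : (T.card : ℝ) * P.card ≤ (P.powersetCard j).card / 4 * P.card := by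
      calc (T.card : ℝ) * P.card ≤ j * U.card * (P.powersetCard j).card := h1
        _ ≤ j * (r * (κ * P.card)) * (P.powersetCard j).card := by gcongr
        _ = (4 * r * j * κ) * ((P.powersetCard j).card / 4 * P.card) := by ring
        _ ≤ 1 * ((P.powersetCard j).card / 4 * P.card) :=
          mul_le_mul_of_nonneg_right hκ (by positivity)
        _ = _ := one_mul _
    exact le_of_mul_le_mul_right h2 hP0
  have hterm : ∀ K ∈ P.powersetCard j, (1 : ℝ) - 2 * (if ¬ Disjoint K U then 1 else 0) ≤
      (((∏ p ∈ K, ω p) ^ r : ℤ) : ℝ) * ((chi K ((∏ i, d i : ℕ) : ℤ) : ℤ) : ℝ) := by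
    intro K hK
    have hKP := (mem_powersetCard.mp hK).1
    rw [← Int.cast_mul]
    by_cases hdis : Disjoint K U
    · rw [if_neg (not_not.mpr hdis), mul_zero, sub_zero]
      have h1 : (∏ p ∈ K, ω p) ^ r * chi K ((∏ i, d i : ℕ) : ℤ) = 1 := by
        unfold chi
        rw [← prod_pow, ← prod_mul_distrib]
        refine prod_eq_one fun p hp => ?_
        have h2 : ∀ i, jacobiSym (d i : ℤ) p = ω p := by
          intro i
          by_contra hcon
          refine disjoint_left.mp hdis hp ?_
          rw [hUdef, mem_biUnion]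
          exact ⟨i, mem_univ i, mem_filter.mpr ⟨hKP hp, hcon⟩⟩
        rw [Cmb_jac, prod_congr rfl fun i _ => h2 i, prod_const, card_univ, Fintype.card_fin,
          ← mul_pow]
        rcases hω p (hKP hp) with h | h
        · rw [h, one_mul, one_pow]
        · rw [h, neg_mul_neg, one_mul, one_pow]
      rw [h1, Int.cast_one]
    · rw [if_pos hdis]
      have h1 : |(∏ p ∈ K, ω p) ^ r * chi K ((∏ i, d i : ℕ) : ℤ)| ≤ 1 := by
        rw [abs_mul, abs_pow, abs_prod]
        have h2 : ∏ p ∈ K, |ω p| = 1 := by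
          refine prod_eq_one fun p hp => ?_
          rcases hω p (hKP hp) with h | h
          · rw [h, abs_one]
          · rw [h, abs_neg, abs_one]
        rw [h2, one_pow, one_mul]
        exact chi_abs K _
      have h2 := (abs_le.mp h1).1
      have h3 : ((-1 : ℤ) : ℝ) ≤ (((∏ p ∈ K, ω p) ^ r * chi K ((∏ i, d i : ℕ) : ℤ) : ℤ) : ℝ) :=
        Int.cast_le.mpr h2
      rw [Int.cast_neg, Int.cast_one] at h3
      linarith
  have hsum := sum_le_sum hterm
  rw [sum_sub_distrib, sum_const, nsmul_eq_mul, mul_one, ← mul_sum, ← sum_filter, sum_const,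
    nsmul_eq_mul, mul_one, ← hT] at hsum
  linarith

end Pool.Agent.Lib.MP_2c6f70_nt.RU.T
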