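import Pool.Agent.Lib.MP_2c6f70_nt.RU.T_Cmb

/-!
# Block T: counting products

`count_products`: the large sieve inequality for `β K = (∏_{p∈K} ω p)^r` and `corr_lower`.
`mult_bound`: the fibre of `d ↦ ∏ d i` over `h` has at most `(h.divisors.card)^r` elements.
-/

set_option autoImplicit false

namespace Pool.Agent.Lib.MP_2c6f70_nt.RU.T

open Finset

theorem count_products (P : Finset ℕ) (ω : ℕ → ℤ) (hω : ∀ p ∈ P, ω p = 1 ∨ ω p = -1) (hne : P.Nonempty) (κ B : ℝ) (r j Y : ℕ)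
    (hj : j ≤ P.card) (hκ : 4 * r * j * κ ≤ 1) (hLS : LS P j Y B) (H : Finset ℕ) (hH : H ⊆ Icc 1 Y)
    (hd : ∀ h ∈ H, ∃ d : Fin r → ℕ, (∀ i, (exc P ω (d i) : ℝ) ≤ κ * P.card) ∧ h = ∏ i, d i) :
    (H.card : ℝ) * (P.powersetCard j).card ≤ 4 * B := by
  classical
  have hc : (0 : ℝ) < (P.powersetCard j).card := by
    rw [card_powersetCard]
    exact_mod_cast Nat.choose_pos hj
  have h1 := hLS fun K => (((∏ p ∈ K, ω p) ^ r : ℤ) : ℂ)
  have h2 : ∑ K ∈ P.powersetCard j, ‖(((∏ p ∈ K, ω p) ^ r : ℤ) : ℂ)‖ ^ 2 =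
      ((P.powersetCard j).card : ℝ) := by
    have h3 : ∀ K ∈ P.powersetCard j, ‖(((∏ p ∈ K, ω p) ^ r : ℤ) : ℂ)‖ ^ 2 = 1 := by
      intro K hK
      have h4 : |(∏ p ∈ K, ω p) ^ r| = 1 := by
        rw [abs_pow, abs_prod]
        have h5 : ∏ p ∈ K, |ω p| = 1 := by
          refine prod_eq_one fun p hp => ?_
          rcases hω p ((mem_powersetCard.mp hK).1 hp) with h | h
          · rw [h, abs_one]
          · rw [h, abs_neg, abs_one]
        rw [h5, one_pow]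
      rw [Complex.norm_intCast, ← Int.cast_abs, h4, Int.cast_one, one_pow]
    rw [sum_congr rfl h3, sum_const, nsmul_eq_mul, mul_one]
  rw [h2] at h1
  have h3 : ∀ h ∈ H, (((P.powersetCard j).card : ℝ) / 2) ^ 2 ≤
      ‖∑ K ∈ P.powersetCard j, (((∏ p ∈ K, ω p) ^ r : ℤ) : ℂ) * ((chi K (h : ℤ) : ℤ) : ℂ)‖ ^ 2 := by
    intro h hh
    obtain ⟨d, hd1, hd2⟩ := hd h hh
    have h4 := corr_lower P ω hω hne κ r j hκ d hd1
    rw [← hd2] at h4
    have h5 : (∑ K ∈ P.powersetCard j, (((∏ p ∈ K, ω p) ^ r : ℤ) : ℂ) *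
        ((chi K (h : ℤ) : ℤ) : ℂ)) = ((∑ K ∈ P.powersetCard j,
          (((∏ p ∈ K, ω p) ^ r : ℤ) : ℝ) * ((chi K (h : ℤ) : ℤ) : ℝ) : ℝ) : ℂ) := by
      push_cast
      rfl
    rw [h5, Complex.norm_real, Real.norm_eq_abs]
    exact pow_le_pow_left₀ (by positivity) (h4.trans (le_abs_self _)) 2
  have h4 : (H.card : ℝ) * (((P.powersetCard j).card : ℝ) / 2) ^ 2 ≤
      B * ((P.powersetCard j).card : ℝ) := by
    refine le_trans ?_ h1
    rw [← nsmul_eq_mul, ← sum_const]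
    refine (sum_le_sum h3).trans ?_
    exact sum_le_sum_of_subset_of_nonneg hH fun _ _ _ => by positivity
  have h5 : ((H.card : ℝ) * (P.powersetCard j).card) * (P.powersetCard j).card ≤
      4 * B * (P.powersetCard j).card := by nlinarith
  exact le_of_mul_le_mul_right h5 hc

theorem mult_bound (D : Finset ℕ) (N r : ℕ) (hD : D ⊆ Icc 1 N) (C ε : ℝ) (hC : 1 ≤ C) (hε : 0 < ε)
    (hdiv : ∀ n : ℕ, 0 < n → (n.divisors.card : ℝ) ≤ C * (n : ℝ) ^ ε) :
    (D.card : ℝ) ^ r ≤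
      (((Fintype.piFinset (fun _ : Fin r => D)).image (fun d => ∏ i, d i)).card : ℝ) *
        (C * ((N : ℝ) ^ r) ^ ε) ^ r := by
  classical
  have hX0 : (0 : ℝ) ≤ (C * ((N : ℝ) ^ r) ^ ε) ^ r := by positivity
  have h1 : (Fintype.piFinset (fun _ : Fin r => D)).card ≤ ⌊(C * ((N : ℝ) ^ r) ^ ε) ^ r⌋₊ *
      ((Fintype.piFinset (fun _ : Fin r => D)).image (fun d => ∏ i, d i)).card := by
    refine card_le_mul_card_image _ _ fun a ha => ?_
    obtain ⟨d₀, hd₀, rfl⟩ := mem_image.mp ha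
    rw [Fintype.mem_piFinset] at hd₀
    have hpos : 0 < ∏ i, d₀ i := prod_pos fun i _ => (mem_Icc.mp (hD (hd₀ i))).1
    have hle : ∏ i, d₀ i ≤ N ^ r := by
      have h2 : ∏ i, d₀ i ≤ ∏ _i : Fin r, N :=
        prod_le_prod' fun i _ => (mem_Icc.mp (hD (hd₀ i))).2
      rwa [prod_const, card_univ, Fintype.card_fin] at h2
    have hsub : (Fintype.piFinset (fun _ : Fin r => D)).filter (fun d => ∏ i, d i = ∏ i, d₀ i) ⊆
        Fintype.piFinset fun _ : Fin r => (∏ i, d₀ i).divisors := by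
      intro d hd
      rw [mem_filter] at hd
      rw [Fintype.mem_piFinset]
      intro i
      rw [Nat.mem_divisors]
      refine ⟨?_, hpos.ne'⟩
      rw [← hd.2]
      exact dvd_prod_of_mem _ (mem_univ i)
    have hc := card_le_card hsub
    rw [Fintype.card_piFinset, prod_const, card_univ, Fintype.card_fin] at hc
    refine hc.trans (Nat.le_floor ?_)
    rw [Nat.cast_pow]
    refine pow_le_pow_left₀ (Nat.cast_nonneg _) ((hdiv _ hpos).trans ?_) r
    refine mul_le_mul_of_nonneg_left ?_ (by linarith)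
    refine Real.rpow_le_rpow (Nat.cast_nonneg _) ?_ hε.le
    rw [← Nat.cast_pow]
    exact Nat.cast_le.mpr hle
  have h2 : ((Fintype.piFinset (fun _ : Fin r => D)).card : ℝ) = (D.card : ℝ) ^ r := by
    rw [Fintype.card_piFinset, prod_const, card_univ, Fintype.card_fin, Nat.cast_pow]
  rw [← h2]
  have h3 : ((Fintype.piFinset (fun _ : Fin r => D)).card : ℝ) ≤
      (⌊(C * ((N : ℝ) ^ r) ^ ε) ^ r⌋₊ : ℝ) *
      (((Fintype.piFinset (fun _ : Fin r => D)).image (fun d => ∏ i, d i)).card : ℝ) := by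
    rw [← Nat.cast_mul]
    exact Nat.cast_le.mpr h1
  refine h3.trans ?_
  rw [mul_comm]
  exact mul_le_mul_of_nonneg_left (Nat.floor_le hX0) (Nat.cast_nonneg _)

end Pool.Agent.Lib.MP_2c6f70_nt.RU.T
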