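import Pool.Agent.Lib.MP_2c6f70_nt.RU.Defs

/-!
# Block T (few integers have prescribed Legendre symbols): definitions

`mm K` is the product of the elements of `K`, `chi K h = ∏ p ∈ K, (h | p)`, `PP K`: all elements are primes `1 mod 4`.
`LS P j Y B`: the large sieve inequality for the characters `chi K`, `K ⊆ P`, `#K = j`, `1 ≤ h ≤ Y`, constant `B`.
`LSW P j L M`: the same with the weights `h ^ (-1/2)`.
`ww t = (sin (π t) / (π t))^2`, `tri x = max 0 (1 - |x|)`, `ee x = exp (2 π i x)`, `ss p` the sign of the Gauss sum.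
-/

set_option autoImplicit false

namespace Pool.Agent.Lib.MP_2c6f70_nt.RU.T

open Finset

/-- The product of the primes of `K`. -/
def mm (K : Finset ℕ) : ℕ := ∏ p ∈ K, p

/-- The product of the Legendre symbols. -/
def chi (K : Finset ℕ) (h : ℤ) : ℤ := ∏ p ∈ K, jacobiSym h p

/-- All elements of `K` are primes congruent to `1` modulo `4`. -/
def PP (K : Finset ℕ) : Prop := ∀ p ∈ K, p.Prime ∧ p % 4 = 1

/-- Large sieve inequality. -/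
def LS (P : Finset ℕ) (j Y : ℕ) (B : ℝ) : Prop :=
  ∀ β : Finset ℕ → ℂ,
    ∑ h ∈ Icc 1 Y, ‖∑ K ∈ P.powersetCard j, β K * ((chi K (h : ℤ) : ℤ) : ℂ)‖ ^ 2 ≤
      B * ∑ K ∈ P.powersetCard j, ‖β K‖ ^ 2

/-- Large sieve inequality with the weight `h ^ (-1/2)`. -/
def LSW (P : Finset ℕ) (j L : ℕ) (M : ℝ) : Prop :=
  ∀ β : Finset ℕ → ℂ,
    ∑ h ∈ Icc 1 L, (h : ℝ) ^ (-(1 / 2) : ℝ) *
        ‖∑ K ∈ P.powersetCard j, β K * ((chi K (h : ℤ) : ℤ) : ℂ)‖ ^ 2 ≤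
      M * ∑ K ∈ P.powersetCard j, ‖β K‖ ^ 2

/-- `exp (2 π i x)`. -/
noncomputable def ee (x : ℝ) : ℂ := Complex.exp (2 * (Real.pi : ℂ) * Complex.I * (x : ℂ))

/-- The square of the cardinal sine. -/
noncomputable def ww (t : ℝ) : ℝ := Real.sinc (Real.pi * t) ^ 2

/-- The triangle function. -/
noncomputable def tri (x : ℝ) : ℝ := max 0 (1 - |x|)

/-- Sign of the quadratic Gauss sum modulo `p`. -/
noncomputable def ss (p : ℕ) : ℝ :=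
  open Classical in
  if 0 ≤ (∑ b ∈ range p, ((jacobiSym (b : ℤ) p : ℤ) : ℂ) * ee ((b : ℝ) / p)).re then 1 else -1

/-- The factors of the separated sum. -/
noncomputable def eD (ξ : ℝ) (D : Finset ℕ) : ℂ :=
  (-1) ^ D.card * (((mm D : ℝ) ^ (-(1 / 2) : ℝ) : ℝ) : ℂ) * ee (ξ * Real.log (mm D))

noncomputable def bx (ξ : ℝ) (p : ℕ) : ℂ := (ss p : ℂ) * ee (ξ * Real.log p)

noncomputable def vl (X ξ : ℝ) (l : ℕ) : ℂ := ee (-(ξ * Real.log (l * X)))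

/-- The claim with exponent `τ`: the large sieve inequality with constant `N^E (Y + Y^τ #P^j)`. -/
def CLAIM (x B τ E : ℝ) : Prop :=
  ∀ J : ℕ, ∃ N₀ : ℕ, ∀ N ≥ N₀, ∀ (P : Finset ℕ) (Z : ℝ),
    (∀ p ∈ P, p.Prime ∧ p % 4 = 1 ∧ (p : ℝ) ≤ Z) → 1 < Z → Z ≤ (N : ℝ) ^ B → Z ^ x ≤ (P.card : ℝ) →
    ∀ j ≤ J, ∀ Y : ℕ, 1 ≤ Y → LS P j Y ((N : ℝ) ^ E * (Y + (Y : ℝ) ^ τ * (P.card : ℝ) ^ j))

end Pool.Agent.Lib.MP_2c6f70_nt.RU.T
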