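import Pool.Agent.Lib.MP_2c6f70_nt.RU.T_Bas

/-!
# Block T: dyadic sums

PROOF of `dyadic_sum`: each `h ∈ [1, L]` has `2^k ≤ h < 2^(k+1)` with `k = Nat.log 2 h ≤ Nat.log 2 L`; `h^(-1/2) ≤ 2^(-k/2)`.  So the sum is
`≤ ∑_{k ≤ Nat.log 2 L} 2^(-k/2) ∑_{h ≤ 2^(k+1)} a h ≤ ∑_k 2^(-k/2) R (2^(k+1) + 2^((k+1)τ) Q)` and `2^(-k/2) 2^(k+1) = 2 * (2^k)^(1/2) ≤ 2 L^(1/2)`, `2^(-k/2) 2^((k+1)τ) ≤ 2 (2^k)^(τ-1/2) ≤ 2 L^(τ-1/2)` (`τ ≤ 1`, `τ ≥ 1/2`,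
`2^k ≤ L`: `Nat.pow_log_le_self`).  (`Finset.sum_fiberwise_of_maps_to` or `sum_le_sum_of_subset` on a union.)  For `L = 0` the left side is `0`.
PROOF of `lsw_of_ls`: `dyadic_sum` with `a h = ‖∑ β K chi K h‖²` divided by/multiplied with `s = ∑ ‖β‖²`: `∑_{h ≤ Y} a h ≤ R (Y + Y^τ #P^i) s`, `#P^i ≤ #P^j` as `#P ≥ 1`; so `M = 2 R (log L + 1)(L^(1/2) + L^(τ-1/2) #P^j)`.
PROOF of `step_a`: `recursion` with this `M`, `L = ⌊Z^(2j)/Y⌋₊ ≤ Z^(2j)/Y` and `≤ Z^(2j)`: `√Y L^(1/2) ≤ Z^j`, `√Y L^(τ-1/2) ≤ Y^(1/2) (Z^(2j)/Y)^(τ-1/2) = Y^(1-τ) (Z^(2τ-1))^j`.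
-/

set_option autoImplicit false

namespace Pool.Agent.Lib.MP_2c6f70_nt.RU.T

open Finset

theorem dyadic_sum (a : ℕ → ℝ) (ha : ∀ h, 0 ≤ a h) (R Q τ : ℝ) (hR : 0 ≤ R) (hQ : 0 ≤ Q) (h1 : 1 / 2 ≤ τ) (h2 : τ ≤ 1)
    (H : ∀ Y : ℕ, 1 ≤ Y → ∑ h ∈ Icc 1 Y, a h ≤ R * (Y + (Y : ℝ) ^ τ * Q)) (L : ℕ) :
    ∑ h ∈ Icc 1 L, (h : ℝ) ^ (-(1 / 2) : ℝ) * a h ≤
      2 * R * (Nat.log 2 L + 1) * ((L : ℝ) ^ (1 / 2 : ℝ) + (L : ℝ) ^ (τ - 1 / 2) * Q) := by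
  rcases Nat.eq_zero_or_pos L with hL | hL
  · subst hL
    have h0 : Icc 1 0 = (∅ : Finset ℕ) := by decide
    rw [h0, sum_empty]
    positivity
  have hmaps : ∀ h ∈ Icc 1 L, Nat.log 2 h ∈ range (Nat.log 2 L + 1) := by
    intro h hh
    rw [mem_Icc] at hh
    rw [mem_range]
    have := Nat.log_mono_right (b := 2) hh.2
    omega
  rw [← sum_fiberwise_of_maps_to hmaps]
  have hk : ∀ k ∈ range (Nat.log 2 L + 1),
      ∑ h ∈ Icc 1 L with Nat.log 2 h = k, (h : ℝ) ^ (-(1 / 2) : ℝ) * a h ≤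
        2 * R * ((L : ℝ) ^ (1 / 2 : ℝ) + (L : ℝ) ^ (τ - 1 / 2) * Q) := by
    intro k hk
    rw [mem_range] at hk
    have huL' : 2 ^ k ≤ L := by
      calc 2 ^ k ≤ 2 ^ Nat.log 2 L := Nat.pow_le_pow_right (by norm_num) (by omega)
        _ ≤ L := Nat.pow_log_le_self 2 (by omega)
    have huL : ((2 : ℝ) ^ k) ≤ (L : ℝ) := by exact_mod_cast huL'
    have hu0 : (0 : ℝ) < (2 : ℝ) ^ k := by positivity
    have hsub : (Icc 1 L).filter (fun h => Nat.log 2 h = k) ⊆ Icc 1 (2 ^ (k + 1)) := by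
      intro h hh
      rw [mem_filter, mem_Icc] at hh
      rw [mem_Icc]
      refine ⟨hh.1.1, ?_⟩
      have h3 := Nat.lt_pow_succ_log_self (b := 2) (by norm_num) h
      rw [hh.2] at h3
      exact h3.le
    calc ∑ h ∈ Icc 1 L with Nat.log 2 h = k, (h : ℝ) ^ (-(1 / 2) : ℝ) * a h
        ≤ ∑ h ∈ Icc 1 L with Nat.log 2 h = k, ((2 : ℝ) ^ k) ^ (-(1 / 2) : ℝ) * a h := by
          apply sum_le_sum
          intro h hh
          rw [mem_filter, mem_Icc] at hh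
          apply mul_le_mul_of_nonneg_right _ (ha h)
          apply Real.rpow_le_rpow_of_nonpos hu0 _ (by norm_num)
          have h3 : 2 ^ k ≤ h := by
            rw [← hh.2]
            exact Nat.pow_log_le_self 2 (by omega)
          exact_mod_cast h3
      _ ≤ ∑ h ∈ Icc 1 (2 ^ (k + 1)), ((2 : ℝ) ^ k) ^ (-(1 / 2) : ℝ) * a h := by
          apply sum_le_sum_of_subset_of_nonneg hsub
          intro h _ _
          exact mul_nonneg (by positivity) (ha h)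
      _ = ((2 : ℝ) ^ k) ^ (-(1 / 2) : ℝ) * ∑ h ∈ Icc 1 (2 ^ (k + 1)), a h := by rw [mul_sum]
      _ ≤ ((2 : ℝ) ^ k) ^ (-(1 / 2) : ℝ) *
            (R * (((2 ^ (k + 1) : ℕ) : ℝ) + (((2 ^ (k + 1) : ℕ) : ℝ)) ^ τ * Q)) := by
          apply mul_le_mul_of_nonneg_left _ (by positivity)
          exact H _ Nat.one_le_two_pow
      _ ≤ 2 * R * ((L : ℝ) ^ (1 / 2 : ℝ) + (L : ℝ) ^ (τ - 1 / 2) * Q) := by
          have e1 : (((2 ^ (k + 1) : ℕ) : ℝ)) = 2 * (2 : ℝ) ^ k := by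
            push_cast
            rw [pow_succ]
            ring
          rw [e1]
          have e2 : ((2 : ℝ) ^ k) ^ (-(1 / 2) : ℝ) * (2 * (2 : ℝ) ^ k) = 2 * ((2 : ℝ) ^ k) ^ (1 / 2 : ℝ) := by
            have : ((2 : ℝ) ^ k) ^ (1 / 2 : ℝ) = ((2 : ℝ) ^ k) ^ (-(1 / 2) : ℝ) * (2 : ℝ) ^ k := by
              conv_rhs => rw [← Real.rpow_one ((2 : ℝ) ^ k), ← Real.rpow_mul hu0.le]
              rw [← Real.rpow_add hu0]
              norm_num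
            rw [this]
            ring
          have e3 : ((2 : ℝ) ^ k) ^ (-(1 / 2) : ℝ) * (2 * (2 : ℝ) ^ k) ^ τ =
              2 ^ τ * ((2 : ℝ) ^ k) ^ (τ - 1 / 2) := by
            rw [Real.mul_rpow (by norm_num) hu0.le,
              show τ - 1 / 2 = (-(1 / 2) : ℝ) + τ by ring, Real.rpow_add hu0]
            ring
          have e4 : ((2 : ℝ) ^ k) ^ (1 / 2 : ℝ) ≤ (L : ℝ) ^ (1 / 2 : ℝ) :=
            Real.rpow_le_rpow hu0.le huL (by norm_num)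
          have e5 : ((2 : ℝ) ^ k) ^ (τ - 1 / 2) ≤ (L : ℝ) ^ (τ - 1 / 2) :=
            Real.rpow_le_rpow hu0.le huL (by linarith)
          have e6 : (2 : ℝ) ^ τ ≤ 2 := by
            calc (2 : ℝ) ^ τ ≤ 2 ^ (1 : ℝ) := Real.rpow_le_rpow_of_exponent_le (by norm_num) h2
              _ = 2 := Real.rpow_one 2
          have e7 : (2 : ℝ) ^ τ * ((2 : ℝ) ^ k) ^ (τ - 1 / 2) ≤ 2 * (L : ℝ) ^ (τ - 1 / 2) :=
            mul_le_mul e6 e5 (by positivity) (by norm_num)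
          calc ((2 : ℝ) ^ k) ^ (-(1 / 2) : ℝ) * (R * (2 * (2 : ℝ) ^ k + (2 * (2 : ℝ) ^ k) ^ τ * Q))
              = R * (((2 : ℝ) ^ k) ^ (-(1 / 2) : ℝ) * (2 * (2 : ℝ) ^ k) +
                  ((2 : ℝ) ^ k) ^ (-(1 / 2) : ℝ) * (2 * (2 : ℝ) ^ k) ^ τ * Q) := by ring
            _ = R * (2 * ((2 : ℝ) ^ k) ^ (1 / 2 : ℝ) + 2 ^ τ * ((2 : ℝ) ^ k) ^ (τ - 1 / 2) * Q) := by
                rw [e2, e3]
            _ ≤ R * (2 * (L : ℝ) ^ (1 / 2 : ℝ) + 2 * (L : ℝ) ^ (τ - 1 / 2) * Q) := by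
                apply mul_le_mul_of_nonneg_left _ hR
                apply add_le_add
                · linarith
                · exact mul_le_mul_of_nonneg_right e7 hQ
            _ = 2 * R * ((L : ℝ) ^ (1 / 2 : ℝ) + (L : ℝ) ^ (τ - 1 / 2) * Q) := by ring
  calc _ ≤ ∑ _k ∈ range (Nat.log 2 L + 1),
        2 * R * ((L : ℝ) ^ (1 / 2 : ℝ) + (L : ℝ) ^ (τ - 1 / 2) * Q) := sum_le_sum hk
    _ = 2 * R * (Nat.log 2 L + 1) * ((L : ℝ) ^ (1 / 2 : ℝ) + (L : ℝ) ^ (τ - 1 / 2) * Q) := by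
        rw [sum_const, card_range, nsmul_eq_mul]
        push_cast
        ring

theorem lsw_of_ls (P : Finset ℕ) (hne : P.Nonempty) (j : ℕ) (R τ : ℝ) (hR : 0 ≤ R) (h1 : 1 / 2 ≤ τ) (h2 : τ ≤ 1)
    (H : ∀ i ≤ j, ∀ Y : ℕ, 1 ≤ Y → LS P i Y (R * (Y + (Y : ℝ) ^ τ * (P.card : ℝ) ^ i))) (L : ℕ) :
    ∀ i ≤ j, LSW P i L
      (2 * R * (Nat.log 2 L + 1) * ((L : ℝ) ^ (1 / 2 : ℝ) + (L : ℝ) ^ (τ - 1 / 2) * (P.card : ℝ) ^ j)) := by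
  intro i hi β
  have hs0 : 0 ≤ ∑ K ∈ P.powersetCard i, ‖β K‖ ^ 2 := sum_nonneg (fun K _ => by positivity)
  have hc1 : (1 : ℝ) ≤ (P.card : ℝ) := by exact_mod_cast hne.card_pos
  have hpow : (P.card : ℝ) ^ i ≤ (P.card : ℝ) ^ j := pow_le_pow_right₀ hc1 hi
  have key := dyadic_sum (fun h => ‖∑ K ∈ P.powersetCard i, β K * ((chi K (h : ℤ) : ℤ) : ℂ)‖ ^ 2)
    (fun h => by positivity) (R * ∑ K ∈ P.powersetCard i, ‖β K‖ ^ 2) ((P.card : ℝ) ^ j) τ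
    (mul_nonneg hR hs0) (by positivity) h1 h2 ?_ L
  · calc _ ≤ _ := key
      _ = _ := by ring
  · intro Y hY
    have h3 := H i hi Y hY β
    calc _ ≤ _ := h3
      _ ≤ R * (Y + (Y : ℝ) ^ τ * (P.card : ℝ) ^ j) * ∑ K ∈ P.powersetCard i, ‖β K‖ ^ 2 := by
          apply mul_le_mul_of_nonneg_right _ hs0
          apply mul_le_mul_of_nonneg_left _ hR
          have : (Y : ℝ) ^ τ * (P.card : ℝ) ^ i ≤ (Y : ℝ) ^ τ * (P.card : ℝ) ^ j :=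
            mul_le_mul_of_nonneg_left hpow (by positivity)
          linarith
      _ = _ := by ring

end Pool.Agent.Lib.MP_2c6f70_nt.RU.T
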