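import Pool.Agent.Lib.MP_2c6f70_nt.RU.T_Bas

/-!
# Block T: trivial bound and extension to more primes

PROOF of `ls_trivial`: Cauchy - Schwarz (`‖∑ β K c K‖² ≤ (∑ ‖β K‖ )² ≤ #C_j ∑ ‖β K‖²`, `sq_sum_le_card_mul_sum_sq`), `#C_j = choose #P j ≤ #P^j` (`Nat.choose_le_pow`), sum over `Y` values of `h`.
PROOF of `ls_succ`: for `K ∈ C_{j+1}`: `(j+1) β K chi K h = ∑_{p ∈ K} β K chi {p} h chi (K \ {p}) h`, so
`(j+1) ∑_{K ∈ C_{j+1}} β K chi K h = ∑_{p ∈ P} (h|p) ∑_{K₁ ∈ C_j, p ∉ K₁} β (insert p K₁) chi K₁ h` (bijection `(K, p ∈ K) ↔ (p, K₁ = K.erase p)`).  Cauchy - Schwarz over `p`: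
`(j+1)² ‖∑ β K chi K h‖² ≤ #P ∑_p ‖∑_{K₁} γ_p K₁ chi K₁ h‖²`, `γ_p K₁ = if p ∈ K₁ then 0 else β (insert p K₁)`.  Sum over `h`, `LS P j Y B`: `≤ #P B ∑_p ∑_{K₁} ‖γ_p K₁‖² = #P B (j+1) ∑_K ‖β K‖²`.  Divide by `(j+1)² ≥ (j+1)`.
`ls_add`: induction on `i`.
-/

set_option autoImplicit false

namespace Pool.Agent.Lib.MP_2c6f70_nt.RU.T

open Finset

/-- Pairs `(K, p)` with `p ∈ K` correspond to pairs `(p, K₁)` with `p ∉ K₁`. -/
private theorem Ext_swap {α : Type*} [AddCommMonoid α] (P : Finset ℕ) (j : ℕ) (F : ℕ → Finset ℕ → α) :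
    ∑ K ∈ P.powersetCard (j + 1), ∑ p ∈ K, F p (K.erase p) =
      ∑ p ∈ P, ∑ K ∈ P.powersetCard j, if p ∈ K then 0 else F p K := by
  have h1 : ∑ K ∈ P.powersetCard (j + 1), ∑ p ∈ K, F p (K.erase p) =
      ∑ p ∈ P, ∑ K ∈ (P.powersetCard (j + 1)).filter (fun K => p ∈ K), F p (K.erase p) := by
    apply Finset.sum_comm'
    intro K p
    rw [Finset.mem_filter, Finset.mem_powersetCard]
    constructor
    · rintro ⟨⟨h1, h2⟩, h3⟩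
      exact ⟨⟨⟨h1, h2⟩, h3⟩, h1 h3⟩
    · rintro ⟨⟨⟨h1, h2⟩, h3⟩, _⟩
      exact ⟨⟨h1, h2⟩, h3⟩
  rw [h1]
  refine Finset.sum_congr rfl fun p hp => ?_
  have h2 : (∑ K ∈ P.powersetCard j, if p ∈ K then (0 : α) else F p K) =
      ∑ K ∈ (P.powersetCard j).filter (fun K => p ∉ K), F p K := by
    rw [Finset.sum_filter]
    refine Finset.sum_congr rfl fun K _ => ?_
    by_cases h : p ∈ K
    · rw [if_pos h, if_neg (not_not.2 h)]
    · rw [if_neg h, if_pos h]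
  rw [h2]
  refine Finset.sum_bij' (fun K _ => K.erase p) (fun K _ => insert p K) ?_ ?_ ?_ ?_ ?_
  · intro K hK
    rw [Finset.mem_filter, Finset.mem_powersetCard] at hK ⊢
    obtain ⟨⟨h3, h4⟩, h5⟩ := hK
    refine ⟨⟨(Finset.erase_subset _ _).trans h3, ?_⟩, Finset.notMem_erase _ _⟩
    rw [Finset.card_erase_of_mem h5, h4]
    rfl
  · intro K hK
    rw [Finset.mem_filter, Finset.mem_powersetCard] at hK ⊢
    obtain ⟨⟨h3, h4⟩, h5⟩ := hK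
    refine ⟨⟨Finset.insert_subset hp h3, ?_⟩, Finset.mem_insert_self _ _⟩
    rw [Finset.card_insert_of_notMem h5, h4]
  · intro K hK
    rw [Finset.mem_filter] at hK
    exact Finset.insert_erase hK.2
  · intro K hK
    rw [Finset.mem_filter] at hK
    exact Finset.erase_insert hK.2
  · intro K _
    rfl

theorem ls_trivial (P : Finset ℕ) (j Y : ℕ) : LS P j Y (Y * (P.card : ℝ) ^ j) := by
  intro β
  have hS : 0 ≤ ∑ K ∈ P.powersetCard j, ‖β K‖ ^ 2 := Finset.sum_nonneg (fun K _ => by positivity)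
  have hcard : ((P.powersetCard j).card : ℝ) ≤ (P.card : ℝ) ^ j := by
    rw [Finset.card_powersetCard]
    exact_mod_cast Nat.choose_le_pow P.card j
  have key : ∀ h ∈ Icc 1 Y, ‖∑ K ∈ P.powersetCard j, β K * ((chi K ((h : ℕ) : ℤ) : ℤ) : ℂ)‖ ^ 2 ≤
      (P.card : ℝ) ^ j * ∑ K ∈ P.powersetCard j, ‖β K‖ ^ 2 := by
    intro h _
    have h1 : ‖∑ K ∈ P.powersetCard j, β K * ((chi K (h : ℤ) : ℤ) : ℂ)‖ ≤ ∑ K ∈ P.powersetCard j, ‖β K‖ := by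
      refine (norm_sum_le _ _).trans (Finset.sum_le_sum fun K _ => ?_)
      rw [norm_mul]
      calc ‖β K‖ * ‖((chi K (h : ℤ) : ℤ) : ℂ)‖ ≤ ‖β K‖ * 1 :=
            mul_le_mul_of_nonneg_left (chi_norm K h) (norm_nonneg _)
        _ = ‖β K‖ := mul_one _
    calc ‖∑ K ∈ P.powersetCard j, β K * ((chi K (h : ℤ) : ℤ) : ℂ)‖ ^ 2 ≤
          (∑ K ∈ P.powersetCard j, ‖β K‖) ^ 2 := pow_le_pow_left₀ (norm_nonneg _) h1 2
      _ ≤ ((P.powersetCard j).card : ℝ) * ∑ K ∈ P.powersetCard j, ‖β K‖ ^ 2 :=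
          sq_sum_le_card_mul_sum_sq
      _ ≤ _ := mul_le_mul_of_nonneg_right hcard hS
  refine (Finset.sum_le_sum key).trans (le_of_eq ?_)
  rw [Finset.sum_const, Nat.card_Icc, Nat.add_sub_cancel, nsmul_eq_mul, mul_assoc]

theorem ls_succ {P : Finset ℕ} {j Y : ℕ} {B : ℝ} (hB : 0 ≤ B) (h : LS P j Y B) : LS P (j + 1) Y (P.card * B) := by
  intro β
  set γ : ℕ → Finset ℕ → ℂ := fun p K => if p ∈ K then 0 else β (insert p K) with hγ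
  set T : ℕ → ℂ := fun n => ∑ K ∈ P.powersetCard (j + 1), β K * ((chi K (n : ℤ) : ℤ) : ℂ) with hT
  set U : ℕ → ℕ → ℂ := fun p n => ∑ K ∈ P.powersetCard j, γ p K * ((chi K (n : ℤ) : ℤ) : ℂ) with hU
  have hj0 : (0 : ℝ) < (j : ℝ) + 1 := by positivity
  have hid : ∀ n : ℕ, ((j : ℂ) + 1) * T n = ∑ p ∈ P, ((jacobiSym (n : ℤ) p : ℤ) : ℂ) * U p n := by
    intro n
    have h1 : ∑ K ∈ P.powersetCard (j + 1), ∑ p ∈ K,
        (fun p K₁ => ((jacobiSym (n : ℤ) p : ℤ) : ℂ) * (β (insert p K₁) * ((chi K₁ (n : ℤ) : ℤ) : ℂ))) p (K.erase p) =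
        ((j : ℂ) + 1) * T n := by
      rw [hT, Finset.mul_sum]
      refine Finset.sum_congr rfl fun K hK => ?_
      rw [Finset.mem_powersetCard] at hK
      have h2 : ∀ p ∈ K, (fun p K₁ => ((jacobiSym (n : ℤ) p : ℤ) : ℂ) *
          (β (insert p K₁) * ((chi K₁ (n : ℤ) : ℤ) : ℂ))) p (K.erase p) = β K * ((chi K (n : ℤ) : ℤ) : ℂ) := by
        intro p hp
        dsimp only
        rw [Finset.insert_erase hp]
        have h3 : chi K (n : ℤ) = jacobiSym (n : ℤ) p * chi (K.erase p) (n : ℤ) := by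
          unfold chi
          rw [Finset.mul_prod_erase K (fun p => jacobiSym (n : ℤ) p) hp]
        rw [h3]
        push_cast
        ring
      rw [Finset.sum_congr rfl h2, Finset.sum_const, hK.2, nsmul_eq_mul]
      push_cast
      ring
    rw [← h1, Ext_swap P j (fun p K₁ => ((jacobiSym (n : ℤ) p : ℤ) : ℂ) *
      (β (insert p K₁) * ((chi K₁ (n : ℤ) : ℤ) : ℂ)))]
    refine Finset.sum_congr rfl fun p _ => ?_
    rw [hU, Finset.mul_sum]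
    refine Finset.sum_congr rfl fun K _ => ?_
    rw [hγ]
    dsimp only
    split_ifs <;> ring
  have hnorm : ∑ p ∈ P, ∑ K ∈ P.powersetCard j, ‖γ p K‖ ^ 2 =
      ((j : ℝ) + 1) * ∑ K ∈ P.powersetCard (j + 1), ‖β K‖ ^ 2 := by
    have h1 : ∑ K ∈ P.powersetCard (j + 1), ∑ p ∈ K, (fun p K₁ => ‖β (insert p K₁)‖ ^ 2) p (K.erase p) =
        ((j : ℝ) + 1) * ∑ K ∈ P.powersetCard (j + 1), ‖β K‖ ^ 2 := by
      rw [Finset.mul_sum]
      refine Finset.sum_congr rfl fun K hK => ?_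
      rw [Finset.mem_powersetCard] at hK
      have h2 : ∀ p ∈ K, (fun p K₁ => ‖β (insert p K₁)‖ ^ 2) p (K.erase p) = ‖β K‖ ^ 2 := by
        intro p hp
        dsimp only
        rw [Finset.insert_erase hp]
      rw [Finset.sum_congr rfl h2, Finset.sum_const, hK.2, nsmul_eq_mul]
      push_cast
      ring
    rw [← h1, Ext_swap P j (fun p K₁ => ‖β (insert p K₁)‖ ^ 2)]
    refine Finset.sum_congr rfl fun p _ => Finset.sum_congr rfl fun K _ => ?_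
    rw [hγ]
    dsimp only
    split_ifs
    · rw [norm_zero]; norm_num
    · rfl
  have hcs : ∀ n : ℕ, ((j : ℝ) + 1) ^ 2 * ‖T n‖ ^ 2 ≤ P.card * ∑ p ∈ P, ‖U p n‖ ^ 2 := by
    intro n
    have h1 : ((j : ℝ) + 1) * ‖T n‖ ≤ ∑ p ∈ P, ‖U p n‖ := by
      have h2 : ((j : ℝ) + 1) * ‖T n‖ = ‖((j : ℂ) + 1) * T n‖ := by
        rw [norm_mul]
        congr 1
        have : ((j : ℂ) + 1) = (((j : ℝ) + 1 : ℝ) : ℂ) := by push_cast; rfl
        rw [this, Complex.norm_real, Real.norm_of_nonneg hj0.le]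
      rw [h2, hid]
      refine (norm_sum_le _ _).trans (Finset.sum_le_sum fun p _ => ?_)
      rw [norm_mul]
      have h3 : ‖((jacobiSym (n : ℤ) p : ℤ) : ℂ)‖ ≤ 1 := by
        rcases jacobiSym.trichotomy (n : ℤ) p with h | h | h <;> rw [h] <;> simp
      calc ‖((jacobiSym (n : ℤ) p : ℤ) : ℂ)‖ * ‖U p n‖ ≤ 1 * ‖U p n‖ :=
            mul_le_mul_of_nonneg_right h3 (norm_nonneg _)
        _ = ‖U p n‖ := one_mul _
    calc ((j : ℝ) + 1) ^ 2 * ‖T n‖ ^ 2 = (((j : ℝ) + 1) * ‖T n‖) ^ 2 := by ring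
      _ ≤ (∑ p ∈ P, ‖U p n‖) ^ 2 := pow_le_pow_left₀ (by positivity) h1 2
      _ ≤ P.card * ∑ p ∈ P, ‖U p n‖ ^ 2 := sq_sum_le_card_mul_sum_sq
  have hsum : ((j : ℝ) + 1) ^ 2 * ∑ n ∈ Icc 1 Y, ‖T n‖ ^ 2 ≤
      ((j : ℝ) + 1) * (P.card * B * ∑ K ∈ P.powersetCard (j + 1), ‖β K‖ ^ 2) := by
    calc ((j : ℝ) + 1) ^ 2 * ∑ n ∈ Icc 1 Y, ‖T n‖ ^ 2 =
          ∑ n ∈ Icc 1 Y, ((j : ℝ) + 1) ^ 2 * ‖T n‖ ^ 2 := Finset.mul_sum _ _ _
      _ ≤ ∑ n ∈ Icc 1 Y, P.card * ∑ p ∈ P, ‖U p n‖ ^ 2 := Finset.sum_le_sum fun n _ => hcs n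
      _ = P.card * ∑ p ∈ P, ∑ n ∈ Icc 1 Y, ‖U p n‖ ^ 2 := by
          rw [← Finset.mul_sum, Finset.sum_comm]
      _ ≤ P.card * ∑ p ∈ P, B * ∑ K ∈ P.powersetCard j, ‖γ p K‖ ^ 2 := by
          apply mul_le_mul_of_nonneg_left _ (Nat.cast_nonneg _)
          exact Finset.sum_le_sum fun p _ => h (γ p)
      _ = P.card * (B * (((j : ℝ) + 1) * ∑ K ∈ P.powersetCard (j + 1), ‖β K‖ ^ 2)) := by
          rw [← Finset.mul_sum, hnorm]
      _ = _ := by ring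
  have hX : 0 ≤ ∑ n ∈ Icc 1 Y, ‖T n‖ ^ 2 := Finset.sum_nonneg fun n _ => by positivity
  have h1 : ((j : ℝ) + 1) * ∑ n ∈ Icc 1 Y, ‖T n‖ ^ 2 ≤
      P.card * B * ∑ K ∈ P.powersetCard (j + 1), ‖β K‖ ^ 2 := by
    have h2 : ((j : ℝ) + 1) * (((j : ℝ) + 1) * ∑ n ∈ Icc 1 Y, ‖T n‖ ^ 2) ≤
        ((j : ℝ) + 1) * (P.card * B * ∑ K ∈ P.powersetCard (j + 1), ‖β K‖ ^ 2) := by
      calc _ = ((j : ℝ) + 1) ^ 2 * ∑ n ∈ Icc 1 Y, ‖T n‖ ^ 2 := by ring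
        _ ≤ _ := hsum
    exact le_of_mul_le_mul_left h2 hj0
  have h2 : ∑ n ∈ Icc 1 Y, ‖T n‖ ^ 2 ≤ ((j : ℝ) + 1) * ∑ n ∈ Icc 1 Y, ‖T n‖ ^ 2 := by
    have : (0 : ℝ) ≤ j := Nat.cast_nonneg _
    nlinarith
  exact h2.trans h1

theorem ls_add {P : Finset ℕ} {j Y : ℕ} {B : ℝ} (hB : 0 ≤ B) (h : LS P j Y B) (i : ℕ) :
    LS P (j + i) Y ((P.card : ℝ) ^ i * B) := by
  induction i with
  | zero =>
    rw [pow_zero, one_mul, add_zero]
    exact h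
  | succ i ih =>
    have h1 := ls_succ (by positivity) ih
    rw [pow_succ', mul_assoc]
    exact h1

end Pool.Agent.Lib.MP_2c6f70_nt.RU.T
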