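import Pool.Agent.Lib.MP_2c6f70_nt.RU.T_Bas

/-!
# Block T: Fourier transform of the triangle function; bounds of `ww`

PROOF of `fourier_tri`: `𝓕 f t = ∫ x, exp (-2 π i x t) f x` (`Real.fourier_eq'` or `Real.fourierIntegral_eq'`), `tri x = 0` for `|x| ≥ 1`, so it is an integral over `[-1, 1]`
(`intervalIntegral`, `MeasureTheory.setIntegral_eq_integral_of_forall_compl_eq_zero`), `= ∫_0^1 (1 - x) (exp (-2 π i x t) + exp (2 π i x t)) = 2 ∫_0^1 (1 - x) cos (2 π t x) dx`;
for `t = 0` it is `1`; for `t ≠ 0`: antiderivative `(1 - x) sin (2 π t x) / (2 π t) - cos (2 π t x) / (2 π t)^2`, the value is `2 (1 - cos (2 π t)) / (2 π t)^2 = (sin (π t) / (π t))^2`.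
(Alternatively, antiderivative of `(1 ∓ x) exp (-c x)` on each half, `c = 2 π i t`.)
`ww_lower`: for `0 < y ≤ π/2`, `sin y ≥ (2/π) y` (`Real.mul_le_sin`), so `ww t ≥ 4 / π^2 ≥ 2/5` as `π^2 ≤ 10` (`Real.pi_lt_d2` : `π < 3.15`, `3.15^2 = 9.9225`).
`ww_decay`: `|sin| ≤ 1`.  `ww_summable`: comparison with `1/h^2` (`Real.summable_one_div_int_pow`/`summable_int...`), the term `h = 0` is finite.
-/

set_option autoImplicit false

namespace Pool.Agent.Lib.MP_2c6f70_nt.RU.T

open Finset FourierTransform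

theorem tri_nonneg (x : ℝ) : 0 ≤ tri x := le_max_left _ _

theorem tri_eq_zero {x : ℝ} (h : 1 ≤ |x|) : tri x = 0 := by
  unfold tri
  exact max_eq_left (by linarith)

theorem continuous_tri : Continuous tri := by
  unfold tri
  exact continuous_const.max (continuous_const.sub continuous_abs)

private theorem FoA_int (g : ℝ → ℂ) (hg : Continuous g) :
    ∫ v : ℝ, g v • ((tri v : ℝ) : ℂ) =
      (∫ x in (-1 : ℝ)..0, g x * (1 + (x : ℂ))) + ∫ x in (0 : ℝ)..1, g x * (1 - (x : ℂ)) := by
  have hc : Continuous (fun v : ℝ => g v • ((tri v : ℝ) : ℂ)) := by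
    have := continuous_tri
    exact hg.smul (Complex.continuous_ofReal.comp this)
  have h1 : ∫ v : ℝ, g v • ((tri v : ℝ) : ℂ) = ∫ v in (-1 : ℝ)..1, g v • ((tri v : ℝ) : ℂ) := by
    rw [intervalIntegral.integral_of_le (by norm_num)]
    symm
    apply MeasureTheory.setIntegral_eq_integral_of_forall_compl_eq_zero
    intro x hx
    have h2 : 1 ≤ |x| := by
      rw [Set.mem_Ioc, not_and_or, not_lt, not_le] at hx
      rcases hx with h | h
      · rw [abs_of_nonpos (by linarith)]; linarith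
      · rw [abs_of_nonneg (by linarith)]; linarith
    rw [tri_eq_zero h2]
    simp
  rw [h1, ← intervalIntegral.integral_add_adjacent_intervals (hc.intervalIntegrable (-1) 0)
    (hc.intervalIntegrable 0 1)]
  congr 1
  · apply intervalIntegral.integral_congr
    intro x hx
    rw [Set.uIcc_of_le (by norm_num)] at hx
    dsimp only
    have : tri x = 1 + x := by
      unfold tri
      rw [abs_of_nonpos hx.2, max_eq_right (by linarith [hx.1])]
      ring
    rw [this, smul_eq_mul]
    push_cast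
    ring
  · apply intervalIntegral.integral_congr
    intro x hx
    rw [Set.uIcc_of_le (by norm_num)] at hx
    dsimp only
    have : tri x = 1 - x := by
      unfold tri
      rw [abs_of_nonneg hx.1, max_eq_right (by linarith [hx.2])]
    rw [this, smul_eq_mul]
    push_cast
    ring

theorem fourier_tri (t : ℝ) : 𝓕 (fun x : ℝ => (tri x : ℂ)) t = (ww t : ℂ) := by
  rw [Real.fourier_real_eq_integral_exp_smul]
  have hcont : Continuous (fun x : ℝ => Complex.exp (((-2 * Real.pi * x * t : ℝ) : ℂ) * Complex.I)) := by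
    fun_prop
  have h1 : ∫ v : ℝ, Complex.exp (((-2 * Real.pi * v * t : ℝ) : ℂ) * Complex.I) • ((tri v : ℝ) : ℂ) =
      (∫ x in (-1 : ℝ)..0, Complex.exp (((-2 * Real.pi * x * t : ℝ) : ℂ) * Complex.I) * (1 + (x : ℂ))) +
      ∫ x in (0 : ℝ)..1, Complex.exp (((-2 * Real.pi * x * t : ℝ) : ℂ) * Complex.I) * (1 - (x : ℂ)) :=
    FoA_int _ hcont
  rw [h1]
  by_cases ht : t = 0
  · subst ht
    have e1 : ∀ x : ℝ, Complex.exp (((-2 * Real.pi * x * 0 : ℝ) : ℂ) * Complex.I) = 1 := by
      intro x; simp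
    simp only [e1, one_mul]
    have h2 : ∫ x in (-1 : ℝ)..0, (1 + (x : ℂ)) = 1 / 2 := by
      have hd : ∀ x ∈ Set.uIcc (-1 : ℝ) 0, HasDerivAt (fun y : ℝ => ((y : ℂ) + (y : ℂ) ^ 2 / 2)) (1 + (x : ℂ)) x := by
        intro x _
        have h3 : HasDerivAt (fun y : ℝ => (y : ℂ)) 1 x := Complex.ofRealCLM.hasDerivAt
        have h4 := h3.add ((h3.pow 2).div_const 2)
        refine h4.congr_deriv ?_
        norm_num
      rw [intervalIntegral.integral_eq_sub_of_hasDerivAt hd
        ((by fun_prop : Continuous (fun x : ℝ => 1 + (x : ℂ))).intervalIntegrable _ _)]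
      push_cast
      norm_num
    have h3 : ∫ x in (0 : ℝ)..1, (1 - (x : ℂ)) = 1 / 2 := by
      have hd : ∀ x ∈ Set.uIcc (0 : ℝ) 1, HasDerivAt (fun y : ℝ => ((y : ℂ) - (y : ℂ) ^ 2 / 2)) (1 - (x : ℂ)) x := by
        intro x _
        have h3 : HasDerivAt (fun y : ℝ => (y : ℂ)) 1 x := Complex.ofRealCLM.hasDerivAt
        have h4 := h3.sub ((h3.pow 2).div_const 2)
        refine h4.congr_deriv ?_
        norm_num
      rw [intervalIntegral.integral_eq_sub_of_hasDerivAt hd
        ((by fun_prop : Continuous (fun x : ℝ => 1 - (x : ℂ))).intervalIntegrable _ _)]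
      push_cast
      norm_num
    rw [h2, h3]
    have : ww 0 = 1 := by
      unfold ww
      rw [mul_zero, Real.sinc_zero]
      norm_num
    rw [this]
    norm_num
  · set a : ℂ := ((-2 * Real.pi * t : ℝ) : ℂ) * Complex.I with ha
    have ha0 : a ≠ 0 := by
      rw [ha]
      apply mul_ne_zero _ Complex.I_ne_zero
      rw [Complex.ofReal_ne_zero]
      have := Real.pi_ne_zero
      exact mul_ne_zero (mul_ne_zero (by norm_num) this) ht
    have e1 : ∀ x : ℝ, Complex.exp (((-2 * Real.pi * x * t : ℝ) : ℂ) * Complex.I) = Complex.exp (a * x) := by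
      intro x
      rw [ha]
      congr 1
      push_cast
      ring
    simp only [e1]
    have hexp : ∀ x : ℝ, HasDerivAt (fun y : ℝ => Complex.exp (a * y)) (a * Complex.exp (a * x)) x := by
      intro x
      have h3 : HasDerivAt (fun y : ℝ => (y : ℂ)) 1 x := Complex.ofRealCLM.hasDerivAt
      have h4 := (h3.const_mul a).cexp
      refine h4.congr_deriv ?_
      ring
    have hc1 : Continuous (fun x : ℝ => Complex.exp (a * x)) := by fun_prop
    have h2 : ∫ x in (-1 : ℝ)..0, Complex.exp (a * x) * (1 + (x : ℂ)) =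
        1 / a - 1 / a ^ 2 + Complex.exp (-a) / a ^ 2 := by
      have hd : ∀ x ∈ Set.uIcc (-1 : ℝ) 0, HasDerivAt
          (fun y : ℝ => (Complex.exp (a * y) * (1 + (y : ℂ)) / a - Complex.exp (a * y) / a ^ 2))
          (Complex.exp (a * x) * (1 + (x : ℂ))) x := by
        intro x _
        have h3 : HasDerivAt (fun y : ℝ => (y : ℂ)) 1 x := Complex.ofRealCLM.hasDerivAt
        have h4 := (((hexp x).mul (h3.const_add 1)).div_const a).sub ((hexp x).div_const (a ^ 2))
        refine h4.congr_deriv ?_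
        field_simp
        ring
      rw [intervalIntegral.integral_eq_sub_of_hasDerivAt hd
        ((by fun_prop : Continuous (fun x : ℝ => Complex.exp (a * x) * (1 + (x : ℂ)))).intervalIntegrable _ _)]
      push_cast
      rw [mul_zero, Complex.exp_zero, mul_neg, mul_one]
      ring
    have h3 : ∫ x in (0 : ℝ)..1, Complex.exp (a * x) * (1 - (x : ℂ)) =
        Complex.exp a / a ^ 2 - 1 / a - 1 / a ^ 2 := by
      have hd : ∀ x ∈ Set.uIcc (0 : ℝ) 1, HasDerivAt
          (fun y : ℝ => (Complex.exp (a * y) * (1 - (y : ℂ)) / a + Complex.exp (a * y) / a ^ 2))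
          (Complex.exp (a * x) * (1 - (x : ℂ))) x := by
        intro x _
        have h3 : HasDerivAt (fun y : ℝ => (y : ℂ)) 1 x := Complex.ofRealCLM.hasDerivAt
        have h4 := (((hexp x).mul (h3.const_sub 1)).div_const a).add ((hexp x).div_const (a ^ 2))
        refine h4.congr_deriv ?_
        field_simp
        ring
      rw [intervalIntegral.integral_eq_sub_of_hasDerivAt hd
        ((by fun_prop : Continuous (fun x : ℝ => Complex.exp (a * x) * (1 - (x : ℂ)))).intervalIntegrable _ _)]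
      push_cast
      rw [mul_zero, Complex.exp_zero, mul_one]
      ring
    rw [h2, h3]
    have hpt : Real.pi * t ≠ 0 := mul_ne_zero Real.pi_ne_zero ht
    have h4 : Complex.exp a + Complex.exp (-a) = 2 * ((Real.cos (2 * (Real.pi * t)) : ℝ) : ℂ) := by
      rw [Complex.ofReal_cos, Complex.two_cos, ha, add_comm]
      congr 1
      · congr 1
        push_cast
        ring
      · congr 1
        push_cast
        ring
    have h5 : a ^ 2 = ((-(4 * (Real.pi * t) ^ 2) : ℝ) : ℂ) := by
      rw [ha, mul_pow, Complex.I_sq]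
      push_cast
      ring
    have h6 : 1 / a - 1 / a ^ 2 + Complex.exp (-a) / a ^ 2 + (Complex.exp a / a ^ 2 - 1 / a - 1 / a ^ 2) =
        (Complex.exp a + Complex.exp (-a) - 2) / a ^ 2 := by ring
    rw [h6, h4, h5]
    unfold ww
    rw [Real.sinc_of_ne_zero hpt, Real.cos_two_mul, Real.cos_sq']
    have h7 : ((Real.pi * t : ℝ) : ℂ) ≠ 0 := Complex.ofReal_ne_zero.2 hpt
    push_cast at h7 ⊢
    field_simp
    ring

theorem ww_nonneg (t : ℝ) : 0 ≤ ww t := sq_nonneg _

theorem ww_le_one (t : ℝ) : ww t ≤ 1 := by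
  unfold ww
  rw [← sq_abs]
  exact pow_le_one₀ (abs_nonneg _) (Real.abs_sinc_le_one _)

theorem ww_neg (t : ℝ) : ww (-t) = ww t := by
  unfold ww
  rw [mul_neg, Real.sinc_neg]

theorem ww_lower {t : ℝ} (h : |t| ≤ 1 / 2) : 2 / 5 ≤ ww t := by
  have hpos : 2 / 5 ≤ ww |t| := by
    by_cases ht : t = 0
    · subst ht
      unfold ww
      rw [abs_zero, mul_zero, Real.sinc_zero]
      norm_num
    · have h0 : 0 < |t| := abs_pos.2 ht
      have hpi := Real.pi_pos
      have h1 : 0 < Real.pi * |t| := by positivity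
      have h2 : Real.pi * |t| ≤ Real.pi / 2 := by nlinarith
      have h3 := Real.mul_le_sin h1.le h2
      unfold ww
      rw [Real.sinc_of_ne_zero h1.ne']
      have h4 : 2 / Real.pi ≤ Real.sin (Real.pi * |t|) / (Real.pi * |t|) := by
        rw [le_div_iff₀ h1]
        exact h3
      have h5 : 2 / 3.15 ≤ 2 / Real.pi := by
        apply div_le_div_of_nonneg_left (by norm_num) hpi Real.pi_lt_d2.le
      have h6 : (2 / 3.15 : ℝ) ≤ Real.sin (Real.pi * |t|) / (Real.pi * |t|) := h5.trans h4
      calc (2 / 5 : ℝ) ≤ (2 / 3.15) ^ 2 := by norm_num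
        _ ≤ _ := by
          apply pow_le_pow_left₀ (by norm_num) h6
  rcases abs_choice t with h1 | h1
  · rwa [h1] at hpos
  · rwa [h1, ww_neg] at hpos

theorem ww_decay {t : ℝ} (h : t ≠ 0) : ww t ≤ 1 / t ^ 2 := by
  have hpt : Real.pi * t ≠ 0 := mul_ne_zero Real.pi_ne_zero h
  unfold ww
  rw [Real.sinc_of_ne_zero hpt, div_pow]
  have h1 : Real.sin (Real.pi * t) ^ 2 ≤ 1 := Real.sin_sq_le_one _
  have h2 : 0 < t ^ 2 := by positivity
  have h3 : t ^ 2 ≤ (Real.pi * t) ^ 2 := by
    rw [mul_pow]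
    have : 1 ≤ Real.pi ^ 2 := by nlinarith [Real.pi_gt_three]
    nlinarith
  exact div_le_div₀ (by norm_num) h1 h2 h3

theorem ww_summable {X : ℝ} (hX : 0 < X) : Summable (fun h : ℤ => ww (h / X)) := by
  have h1 : Summable (fun n : ℤ => 1 / (n : ℝ) ^ 2) := Real.summable_one_div_int_pow.2 (by norm_num)
  have h2 : Summable (fun n : ℤ => if n = 0 then (1 : ℝ) else 0) := (hasSum_ite_eq 0 1).summable
  refine Summable.of_nonneg_of_le (fun n => ww_nonneg _) ?_ ((h1.mul_left (X ^ 2)).add h2)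
  intro n
  by_cases hn : n = 0
  · subst hn
    simp only [Int.cast_zero, zero_div, if_true]
    have := ww_le_one 0
    have h3 : (0 : ℝ) ≤ X ^ 2 * (1 / (0 : ℝ) ^ 2) := by positivity
    linarith
  · have hn' : (n : ℝ) ≠ 0 := by exact_mod_cast hn
    rw [if_neg hn, add_zero]
    refine (ww_decay (div_ne_zero hn' hX.ne')).trans (le_of_eq ?_)
    rw [div_pow, one_div_div]
    ring

end Pool.Agent.Lib.MP_2c6f70_nt.RU.T
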