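import Mathlib

/-!
# T_PoiH: Poisson summation for the triangle function (helper34)

`wS t = sinc (π t) ^ 2`, `tri L t = max (1 - |t| / L) 0`.
* `tri_fourier`: `∫ tri L t e(-ξ t) dt = L wS (L ξ)`.
* `tri_poisson`: `∑ l, tri L l e(θ l) = ∑ n, L wS (L (n - θ))`.
* `poisson_mod`: `∑ h, wS (h / X) f h = (X / m) ∑ l, tri (m / X) l ∑ x mod m, f x e(l x / m)`.
-/

set_option autoImplicit false

open Set Filter Topology MeasureTheory
open scoped Real FourierTransform

namespace Pool.Agent.Lib.MP_2c6f70_nt.RU.TH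

noncomputable def wS (t : ℝ) : ℝ := Real.sinc (π * t) ^ 2

noncomputable def tri (L t : ℝ) : ℝ := max (1 - |t| / L) 0

theorem wS_nonneg (t : ℝ) : 0 ≤ wS t := sq_nonneg _

theorem wS_neg (t : ℝ) : wS (-t) = wS t := by
  unfold wS
  rw [mul_neg, Real.sinc_neg]

theorem wS_zero : wS 0 = 1 := by
  unfold wS
  rw [mul_zero, Real.sinc_zero, one_pow]

theorem wS_le_one (t : ℝ) : wS t ≤ 1 := by
  unfold wS
  have h := Real.abs_sinc_le_one (π * t)
  rw [← sq_abs]
  exact pow_le_one₀ (abs_nonneg _) h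

theorem wS_le_inv {t : ℝ} (ht : t ≠ 0) : wS t ≤ (t ^ 2)⁻¹ := by
  have hπ := Real.pi_gt_three
  unfold wS
  have h0 : π * t ≠ 0 := mul_ne_zero Real.pi_ne_zero ht
  rw [Real.sinc_of_ne_zero h0, div_pow, ← one_div, div_le_div_iff₀ (by positivity) (by positivity)]
  have h1 : Real.sin (π * t) ^ 2 ≤ 1 := Real.sin_sq_le_one _
  have h2 : t ^ 2 ≤ (π * t) ^ 2 := by
    rw [mul_pow]
    have h3 : (1 : ℝ) ≤ π ^ 2 := by nlinarith
    calc t ^ 2 = 1 * t ^ 2 := (one_mul _).symm
      _ ≤ π ^ 2 * t ^ 2 := mul_le_mul_of_nonneg_right h3 (sq_nonneg t)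
  nlinarith [sq_nonneg t, sq_nonneg (Real.sin (π * t))]

/-- `4 / π ^ 2 ≤ w` on `[-1/2, 1/2]` -/
theorem wS_lower {t : ℝ} (ht : |t| ≤ 1 / 2) : 4 / π ^ 2 ≤ wS t := by
  have hπ := Real.pi_pos
  unfold wS
  have h1 : 2 / π ≤ Real.sinc (π * t) := by
    by_cases h0 : t = 0
    · rw [h0, mul_zero, Real.sinc_zero, div_le_one hπ]
      exact Real.two_le_pi
    · have key : ∀ s : ℝ, 0 < s → s ≤ 1 / 2 → 2 / π ≤ Real.sinc (π * s) := by
        intro s hs hs2
        rw [Real.sinc_of_ne_zero (by positivity), le_div_iff₀ (by positivity)]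
        have h2 := Real.mul_le_sin (x := π * s) (by positivity) (by nlinarith)
        exact h2
      rcases lt_or_gt_of_ne h0 with h | h
      · have h2 := key (-t) (by linarith) (by rw [abs_of_neg h] at ht; exact ht)
        rw [mul_neg, Real.sinc_neg] at h2
        exact h2
      · exact key t h (by rw [abs_of_pos h] at ht; exact ht)
  have h2 : (4 : ℝ) / π ^ 2 = (2 / π) ^ 2 := by
    rw [div_pow]
    norm_num
  rw [h2]
  exact pow_le_pow_left₀ (by positivity) h1 2

theorem tri_nonneg (L t : ℝ) : 0 ≤ tri L t := le_max_right _ _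

theorem tri_le_one {L : ℝ} (hL : 0 < L) (t : ℝ) : tri L t ≤ 1 := by
  unfold tri
  refine max_le ?_ zero_le_one
  have : 0 ≤ |t| / L := by positivity
  linarith

theorem tri_eq_zero {L t : ℝ} (hL : 0 < L) (h : L ≤ |t|) : tri L t = 0 := by
  unfold tri
  refine max_eq_right ?_
  have : 1 ≤ |t| / L := by rwa [le_div_iff₀ hL, one_mul]
  linarith

theorem tri_neg (L t : ℝ) : tri L (-t) = tri L t := by
  unfold tri
  rw [abs_neg]

theorem continuous_tri {L : ℝ} : Continuous (tri L) := by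
  unfold tri
  fun_prop

/-- antiderivative -/
theorem tri_anti {L : ℝ} (hL : 0 < L) {c : ℂ} (hc : c ≠ 0) :
    ∫ t in (0 : ℝ)..L, ((1 - t / L : ℝ) : ℂ) * Complex.exp (c * t) =
      Complex.exp (c * L) / (L * c ^ 2) - 1 / c - 1 / (L * c ^ 2) := by
  have hL' : (L : ℂ) ≠ 0 := by exact_mod_cast hL.ne'
  have hd : ∀ t ∈ uIcc (0 : ℝ) L, HasDerivAt (fun t : ℝ => (((1 - t / L : ℝ) : ℂ) / c + 1 / (L * c ^ 2)) * Complex.exp (c * t))
      (((1 - t / L : ℝ) : ℂ) * Complex.exp (c * t)) t := by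
    intro t _
    have h1 : HasDerivAt (fun t : ℝ => ((1 - t / L : ℝ) : ℂ)) (((0 - 1 / L : ℝ)) : ℂ) t :=
      HasDerivAt.ofReal_comp ((hasDerivAt_const t (1 : ℝ)).sub ((hasDerivAt_id t).div_const L))
    have h2 : HasDerivAt (fun t : ℝ => ((1 - t / L : ℝ) : ℂ) / c + 1 / (L * c ^ 2)) (((0 - 1 / L : ℝ) : ℂ) / c) t :=
      (h1.div_const c).add_const _
    have h3 : HasDerivAt (fun t : ℝ => Complex.exp (c * t)) (Complex.exp (c * t) * c) t := by
      have h4 : HasDerivAt (fun t : ℝ => c * (t : ℂ)) c t := by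
        have := (Complex.ofRealCLM.hasDerivAt (x := t)).const_mul c
        simpa using this
      exact h4.cexp
    refine (h2.mul h3).congr_deriv ?_
    push_cast
    field_simp
    ring
  rw [intervalIntegral.integral_eq_sub_of_hasDerivAt hd]
  · have e : (1 - L / L : ℝ) = 0 := by
      rw [div_self hL.ne', sub_self]
    rw [e]
    simp only [Complex.ofReal_zero, zero_div, sub_zero, Complex.ofReal_one, mul_zero, Complex.exp_zero, zero_add, mul_one]
    ring
  · apply Continuous.intervalIntegrable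
    fun_prop

theorem tri_fourier {L : ℝ} (hL : 0 < L) (ξ : ℝ) :
    ∫ t : ℝ, (tri L t : ℂ) * Complex.exp ((-(2 * π * ξ) * Complex.I) * t) = ((L * wS (L * ξ) : ℝ) : ℂ) := by
  set c : ℂ := -(2 * π * ξ) * Complex.I with hc
  have hsupp : Function.support (fun t : ℝ => (tri L t : ℂ) * Complex.exp (c * t)) ⊆ Ioc (-L) L := by
    intro t ht
    by_contra h
    apply ht
    have h1 : L ≤ |t| := by
      by_contra h2
      rw [not_le, abs_lt] at h2
      exact h ⟨h2.1, h2.2.le⟩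
    show (tri L t : ℂ) * Complex.exp (c * t) = 0
    rw [tri_eq_zero hL h1]
    simp
  rw [← intervalIntegral.integral_eq_integral_of_support_subset hsupp]
  have hcont : Continuous fun t : ℝ => (tri L t : ℂ) * Complex.exp (c * t) := by
    have := continuous_tri (L := L)
    fun_prop
  have hi : ∀ a b : ℝ, IntervalIntegrable (fun t : ℝ => (tri L t : ℂ) * Complex.exp (c * t)) volume a b :=
    fun a b => hcont.intervalIntegrable a b
  rw [← intervalIntegral.integral_add_adjacent_intervals (hi (-L) 0) (hi 0 L)]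
  have hpos : ∫ t in (0 : ℝ)..L, (tri L t : ℂ) * Complex.exp (c * t) =
      ∫ t in (0 : ℝ)..L, ((1 - t / L : ℝ) : ℂ) * Complex.exp (c * t) := by
    refine intervalIntegral.integral_congr fun t ht => ?_
    rw [uIcc_of_le hL.le] at ht
    have e : tri L t = 1 - t / L := by
      unfold tri
      rw [abs_of_nonneg ht.1]
      refine max_eq_left ?_
      have : t / L ≤ 1 := by
        rw [div_le_one hL]
        exact ht.2
      linarith
    show (tri L t : ℂ) * Complex.exp (c * t) = _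
    rw [e]
  have hneg : ∫ t in (-L)..(0 : ℝ), (tri L t : ℂ) * Complex.exp (c * t) =
      ∫ t in (0 : ℝ)..L, ((1 - t / L : ℝ) : ℂ) * Complex.exp ((-c) * t) := by
    have h1 := intervalIntegral.integral_comp_neg (a := 0) (b := L) (fun t : ℝ => (tri L t : ℂ) * Complex.exp (c * t))
    rw [neg_zero] at h1
    rw [← h1]
    refine intervalIntegral.integral_congr fun t ht => ?_
    rw [uIcc_of_le hL.le] at ht
    have e : tri L t = 1 - t / L := by
      unfold tri
      rw [abs_of_nonneg ht.1]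
      refine max_eq_left ?_
      have : t / L ≤ 1 := by
        rw [div_le_one hL]
        exact ht.2
      linarith
    show (tri L (-t) : ℂ) * Complex.exp (c * ((-t : ℝ) : ℂ)) = _
    rw [tri_neg, e]
    push_cast
    ring_nf
  rw [hpos, hneg]
  have hL' : (L : ℂ) ≠ 0 := by exact_mod_cast hL.ne'
  by_cases h0 : ξ = 0
  · have hc0 : c = 0 := by
      rw [hc, h0]
      simp
    rw [hc0, h0, mul_zero, wS_zero, mul_one]
    simp only [neg_zero, zero_mul, Complex.exp_zero, mul_one]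
    have h1 : ∫ t in (0 : ℝ)..L, ((1 - t / L : ℝ) : ℂ) = ((L / 2 : ℝ) : ℂ) := by
      rw [intervalIntegral.integral_ofReal]
      congr 1
      rw [intervalIntegral.integral_sub (by simp) (by apply Continuous.intervalIntegrable; fun_prop)]
      rw [intervalIntegral.integral_const, intervalIntegral.integral_div, integral_id]
      simp only [sub_zero, smul_eq_mul, mul_one]
      field_simp
      ring
    rw [h1]
    push_cast
    ring
  · have hc0 : c ≠ 0 := by
      rw [hc]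
      refine mul_ne_zero (neg_ne_zero.mpr ?_) Complex.I_ne_zero
      exact_mod_cast mul_ne_zero (mul_ne_zero two_ne_zero Real.pi_ne_zero) h0
    rw [tri_anti hL hc0, tri_anti hL (neg_ne_zero.mpr hc0)]
    have hcs : Complex.exp (c * L) + Complex.exp (-c * L) = 2 * Complex.cos (2 * π * ξ * L) := by
      rw [Complex.two_cos, hc, add_comm]
      congr 1 <;> congr 1 <;> ring
    have hcos : Complex.cos (2 * π * ξ * L) = 1 - 2 * Complex.sin (π * (L * ξ)) ^ 2 := by
      have := Complex.cos_sq_add_sin_sq (π * (L * ξ))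
      have h2 := Complex.cos_two_mul (π * (L * ξ))
      rw [show (2 * π * ξ * L : ℂ) = 2 * (π * (L * ξ)) by ring, h2]
      linear_combination 2 * this
    have hsin : L * ξ ≠ 0 := mul_ne_zero hL.ne' h0
    have hw : ((L * wS (L * ξ) : ℝ) : ℂ) = L * (Complex.sin (π * (L * ξ)) / (π * (L * ξ))) ^ 2 := by
      unfold wS
      rw [Real.sinc_of_ne_zero (mul_ne_zero Real.pi_ne_zero hsin)]
      push_cast
      rfl
    have hπc : (π : ℂ) ≠ 0 := by exact_mod_cast Real.pi_ne_zero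
    have hξc : (ξ : ℂ) ≠ 0 := by exact_mod_cast h0
    have hc2 : c ^ 2 = -(4 * π ^ 2 * ξ ^ 2) := by
      rw [hc, mul_pow, Complex.I_sq]
      ring
    have e1 : Complex.exp (-c * L) / (L * (-c) ^ 2) - 1 / -c - 1 / (L * (-c) ^ 2) +
        (Complex.exp (c * L) / (L * c ^ 2) - 1 / c - 1 / (L * c ^ 2)) =
        (Complex.exp (c * L) + Complex.exp (-c * L) - 2) / (L * c ^ 2) := by
      rw [neg_sq]
      field_simp
      ring
    rw [e1, hcs, hcos, hw, hc2]
    field_simp
    ring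

/-! ## summability -/

theorem wS_summable {L : ℝ} (hL : 0 < L) (θ : ℝ) : Summable fun n : ℤ => wS (L * ((n : ℝ) - θ)) := by
  have h1 : (fun n : ℤ => wS (L * ((n : ℝ) - θ))) =O[cofinite] fun n : ℤ => |(n : ℝ)| ^ (-2 : ℝ) := by
    refine Asymptotics.IsBigO.of_bound (4 / L ^ 2) ?_
    have h2 : {n : ℤ | ¬ (2 * |θ| + 1 ≤ |(n : ℝ)|)}.Finite := by
      refine (Set.finite_Icc (-(⌈2 * |θ| + 1⌉)) ⌈2 * |θ| + 1⌉).subset fun n hn => ?_
      simp only [Set.mem_setOf_eq, not_le] at hn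
      rw [abs_lt] at hn
      have h3 := Int.le_ceil (2 * |θ| + 1)
      constructor
      · have : (-(⌈2 * |θ| + 1⌉ : ℤ) : ℝ) ≤ (n : ℝ) := by linarith [hn.1]
        exact_mod_cast this
      · have : (n : ℝ) ≤ ((⌈2 * |θ| + 1⌉ : ℤ) : ℝ) := by linarith [hn.2]
        exact_mod_cast this
    refine h2.subset fun n hn => ?_
    intro hn2
    apply hn
    show ‖wS (L * ((n : ℝ) - θ))‖ ≤ 4 / L ^ 2 * ‖|(n : ℝ)| ^ (-2 : ℝ)‖
    have hn0 : 0 < |(n : ℝ)| := by linarith [abs_nonneg θ]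
    have hn1 : |(n : ℝ)| / 2 ≤ |(n : ℝ) - θ| := by
      have := abs_sub_abs_le_abs_sub (n : ℝ) θ
      linarith
    have hne : (n : ℝ) - θ ≠ 0 := by
      intro h
      rw [h, abs_zero] at hn1
      linarith
    rw [Real.norm_of_nonneg (wS_nonneg _), Real.norm_of_nonneg (Real.rpow_nonneg (abs_nonneg _) _)]
    have h3 : |(n : ℝ)| ^ (-2 : ℝ) = (|(n : ℝ)| ^ 2)⁻¹ := by
      rw [Real.rpow_neg (abs_nonneg _)]
      norm_cast
    rw [h3]
    refine (wS_le_inv (mul_ne_zero hL.ne' hne)).trans ?_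
    have h4 : (|(n : ℝ)| / 2) ^ 2 ≤ ((n : ℝ) - θ) ^ 2 := by
      rw [← sq_abs ((n : ℝ) - θ)]
      exact pow_le_pow_left₀ (by positivity) hn1 2
    have h5 : ((L * ((n : ℝ) - θ)) ^ 2)⁻¹ ≤ (L ^ 2 * (|(n : ℝ)| / 2) ^ 2)⁻¹ := by
      rw [mul_pow]
      exact inv_anti₀ (by positivity) (mul_le_mul_of_nonneg_left h4 (sq_nonneg L))
    refine h5.trans (le_of_eq ?_)
    field_simp
    ring
  exact summable_of_isBigO (Real.summable_abs_int_rpow (by norm_num)) h1

/-- Poisson summation for the triangle function -/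
theorem tri_poisson {L : ℝ} (hL : 0 < L) (θ : ℝ) :
    ∑' l : ℤ, (tri L l : ℂ) * Complex.exp (2 * π * Complex.I * θ * l) =
      ((∑' n : ℤ, L * wS (L * ((n : ℝ) - θ)) : ℝ) : ℂ) := by
  set f : ℝ → ℂ := fun t => (tri L t : ℂ) * Complex.exp (2 * π * Complex.I * θ * t) with hf
  have hc : Continuous f := by
    have := continuous_tri (L := L)
    fun_prop
  have hdec : f =O[cocompact ℝ] fun x : ℝ => |x| ^ (-2 : ℝ) := by
    have h0 : f =ᶠ[cocompact ℝ] fun _ => 0 := by
      have h1 : ∀ᶠ t : ℝ in cocompact ℝ, L ≤ ‖t‖ := tendsto_norm_cocompact_atTop.eventually_ge_atTop L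
      filter_upwards [h1] with t ht
      show (tri L t : ℂ) * Complex.exp (2 * π * Complex.I * θ * t) = 0
      rw [tri_eq_zero hL ht]
      simp
    exact h0.trans_isBigO (Asymptotics.isBigO_zero _ _)
  have hF : ∀ n : ℝ, 𝓕 f n = ((L * wS (L * (n - θ)) : ℝ) : ℂ) := by
    intro n
    rw [Real.fourier_real_eq_integral_exp_smul, ← tri_fourier hL (n - θ)]
    refine integral_congr_ae (Filter.Eventually.of_forall fun t => ?_)
    show Complex.exp (↑(-2 * π * t * n) * Complex.I) • ((tri L t : ℂ) * Complex.exp (2 * π * Complex.I * θ * t)) =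
      (tri L t : ℂ) * Complex.exp ((-(2 * π * ((n - θ : ℝ) : ℂ)) * Complex.I) * t)
    rw [smul_eq_mul, mul_left_comm, ← Complex.exp_add]
    congr 2
    push_cast
    ring
  have hs : Summable fun n : ℤ => 𝓕 f n := by
    have h1 : (fun n : ℤ => 𝓕 f n) = fun n : ℤ => ((L * wS (L * ((n : ℝ) - θ)) : ℝ) : ℂ) := by
      funext n
      exact hF n
    rw [h1]
    have h2 : Summable fun n : ℤ => L * wS (L * ((n : ℝ) - θ)) := (wS_summable hL θ).mul_left L
    exact_mod_cast h2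
  have hP := Real.tsum_eq_tsum_fourier_of_rpow_decay_of_summable hc (by norm_num : (1 : ℝ) < 2) hdec hs 0
  have e1 : ∑' n : ℤ, f (0 + n) = ∑' l : ℤ, (tri L l : ℂ) * Complex.exp (2 * π * Complex.I * θ * l) := by
    refine tsum_congr fun l => ?_
    rw [zero_add, hf]
    simp only [Complex.ofReal_intCast]
  rw [← e1, hP, Complex.ofReal_tsum]
  refine tsum_congr fun n => ?_
  rw [hF]
  have e2 : (fourier n ((0 : ℝ) : UnitAddCircle) : ℂ) = 1 := by
    rw [fourier_coe_apply]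
    simp
  rw [e2, mul_one]

/-- summation by residue classes -/
theorem tsum_residue {m : ℕ} [NeZero m] {F : ℤ → ℂ} (hF : Summable F) :
    ∑' h : ℤ, F h = ∑ x : ZMod m, ∑' n : ℤ, F (n * m + x.val) := by
  have h1 := (Int.divModEquiv m).symm.tsum_eq F
  have h2 : Summable fun p : ℤ × Fin m => F ((Int.divModEquiv m).symm p) := (Int.divModEquiv m).symm.summable_iff.mpr hF
  rw [← h1, h2.tsum_prod]
  have h3 : ∀ n : ℤ, ∑' a : Fin m, F ((Int.divModEquiv m).symm (n, a)) = ∑ a : Fin m, F (n * m + (a : ℕ)) := by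
    intro n
    rw [tsum_fintype]
    refine Finset.sum_congr rfl fun a _ => ?_
    rw [Int.divModEquiv_symm_apply]
  simp only [h3]
  have h4 : ∀ a : Fin m, Summable fun n : ℤ => F (n * m + (a : ℕ)) := by
    intro a
    have h5 : Function.Injective fun n : ℤ => (n * m + (a : ℕ) : ℤ) := by
      intro n n' hn
      simp only [add_left_inj] at hn
      exact mul_right_cancel₀ (by exact_mod_cast NeZero.ne m) hn
    exact hF.comp_injective h5
  rw [Summable.tsum_finsetSum fun a _ => h4 a]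
  refine Fintype.sum_equiv (ZMod.finEquiv m).toEquiv _ _ fun a => ?_
  have e : ((ZMod.finEquiv m) a).val = (a : ℕ) := by
    obtain ⟨k, rfl⟩ : ∃ k, m = k + 1 := ⟨m - 1, (Nat.succ_pred_eq_of_ne_zero (NeZero.ne m)).symm⟩
    rfl
  show _ = ∑' n : ℤ, F (n * m + (((ZMod.finEquiv m) a).val : ℕ))
  rw [e]

theorem summable_wS_mul {m : ℕ} [NeZero m] (f : ZMod m → ℂ) {X : ℝ} (hX : 0 < X) :
    Summable fun h : ℤ => (wS (h / X) : ℂ) * f h := by
  obtain ⟨C, hC⟩ : ∃ C : ℝ, ∀ x, ‖f x‖ ≤ C := by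
    refine ⟨∑ x, ‖f x‖, fun x => ?_⟩
    exact Finset.single_le_sum (f := fun x => ‖f x‖) (fun i _ => norm_nonneg _) (Finset.mem_univ x)
  have h1 : Summable fun h : ℤ => wS (h / X) * C := by
    have h2 := (wS_summable (L := X⁻¹) (by positivity) 0).mul_right C
    refine h2.congr fun h => ?_
    rw [sub_zero, div_eq_inv_mul]
  refine Summable.of_norm_bounded h1 fun h => ?_
  rw [norm_mul, Complex.norm_real, Real.norm_of_nonneg (wS_nonneg _)]
  exact mul_le_mul_of_nonneg_left (hC _) (wS_nonneg _)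

/-- **Poisson summation for periodic functions.** -/
theorem poisson_mod {m : ℕ} [NeZero m] (f : ZMod m → ℂ) {X : ℝ} (hX : 0 < X) :
    ∑' h : ℤ, (wS (h / X) : ℂ) * f h =
      (X / m : ℂ) * ∑' l : ℤ, (tri (m / X) l : ℂ) * ∑ x : ZMod m, f x * ZMod.stdAddChar ((l : ZMod m) * x) := by
  have hm : (0 : ℝ) < m := by exact_mod_cast Nat.pos_of_ne_zero (NeZero.ne m)
  have hL : 0 < (m : ℝ) / X := by positivity
  have hmc : (m : ℂ) ≠ 0 := by exact_mod_cast NeZero.ne m
  have hXc : (X : ℂ) ≠ 0 := by exact_mod_cast hX.ne'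
  rw [tsum_residue (m := m) (summable_wS_mul f hX)]
  -- the dual side, interchange
  have hfin : ∀ x : ZMod m, Summable fun l : ℤ => (tri (m / X) l : ℂ) * (f x * ZMod.stdAddChar ((l : ZMod m) * x)) := by
    intro x
    refine summable_of_finite_support ?_
    refine (Set.finite_Icc (-(⌈(m : ℝ) / X⌉)) ⌈(m : ℝ) / X⌉).subset fun l hl => ?_
    by_contra hcon
    apply hl
    have h1 : (m : ℝ) / X ≤ |(l : ℝ)| := by
      by_contra h2
      rw [not_le, abs_lt] at h2
      apply hcon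
      have h3 := Int.le_ceil ((m : ℝ) / X)
      constructor
      · have : (-(⌈(m : ℝ) / X⌉ : ℤ) : ℝ) ≤ (l : ℝ) := by linarith [h2.1]
        exact_mod_cast this
      · have : (l : ℝ) ≤ ((⌈(m : ℝ) / X⌉ : ℤ) : ℝ) := by linarith [h2.2]
        exact_mod_cast this
    show (tri (m / X) l : ℂ) * (f x * ZMod.stdAddChar ((l : ZMod m) * x)) = 0
    rw [tri_eq_zero hL h1]
    simp
  have hswap : ∑' l : ℤ, (tri (m / X) l : ℂ) * ∑ x : ZMod m, f x * ZMod.stdAddChar ((l : ZMod m) * x) =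
      ∑ x : ZMod m, ∑' l : ℤ, (tri (m / X) l : ℂ) * (f x * ZMod.stdAddChar ((l : ZMod m) * x)) := by
    rw [← Summable.tsum_finsetSum fun x _ => hfin x]
    refine tsum_congr fun l => ?_
    rw [Finset.mul_sum]
  rw [hswap, Finset.mul_sum]
  refine Finset.sum_congr rfl fun x _ => ?_
  have hx : ((x.val : ℤ) : ZMod m) = x := by simp
  have hP := tri_poisson hL ((x.val : ℝ) / m)
  have e1 : ∑' l : ℤ, (tri (m / X) l : ℂ) * (f x * ZMod.stdAddChar ((l : ZMod m) * x)) =
      f x * ∑' l : ℤ, (tri (m / X) l : ℂ) * Complex.exp (2 * π * Complex.I * ((x.val : ℝ) / m : ℝ) * l) := by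
    rw [← tsum_mul_left]
    refine tsum_congr fun l => ?_
    have e2 : (l : ZMod m) * x = ((l * (x.val : ℤ) : ℤ) : ZMod m) := by
      rw [Int.cast_mul, hx]
    rw [e2, ZMod.stdAddChar_coe]
    have e3 : (2 * π * Complex.I * ((l * (x.val : ℤ) : ℤ) : ℂ) / (m : ℂ)) =
        2 * π * Complex.I * (((x.val : ℝ) / m : ℝ) : ℂ) * l := by
      push_cast
      field_simp
    rw [e3]
    ring
  rw [e1, hP]
  -- the other side
  have e4 : ∑' n : ℤ, ((wS (((n * m + x.val : ℤ) : ℝ) / X) : ℝ) : ℂ) * f ((n * m + x.val : ℤ) : ZMod m) =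
      f x * ((∑' n : ℤ, wS ((m : ℝ) / X * ((n : ℝ) - (x.val : ℝ) / m)) : ℝ) : ℂ) := by
    have e5 : ∑' n : ℤ, ((wS (((n * m + x.val : ℤ) : ℝ) / X) : ℝ) : ℂ) * f ((n * m + x.val : ℤ) : ZMod m) =
        ∑' n : ℤ, f x * ((wS ((m : ℝ) / X * (((-n : ℤ) : ℝ) - (x.val : ℝ) / m)) : ℝ) : ℂ) := by
      refine tsum_congr fun n => ?_
      have e6 : ((n * m + x.val : ℤ) : ZMod m) = x := by
        push_cast
        simp
      rw [e6, mul_comm]
      have e7 : (m : ℝ) / X * (((-n : ℤ) : ℝ) - (x.val : ℝ) / m) = -(((n * m + x.val : ℤ) : ℝ) / X) := by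
        push_cast
        field_simp
        ring
      rw [e7, wS_neg]
    rw [e5, tsum_mul_left, Complex.ofReal_tsum]
    congr 1
    exact (Equiv.neg ℤ).tsum_eq (fun n : ℤ => ((wS ((m : ℝ) / X * ((n : ℝ) - (x.val : ℝ) / m)) : ℝ) : ℂ))
  have e8 : ∑' n : ℤ, (wS (((n * m + x.val : ℤ) : ℝ) / X) : ℂ) * f ((n * m + x.val : ℤ) : ZMod m) =
      f x * ((∑' n : ℤ, wS ((m : ℝ) / X * ((n : ℝ) - (x.val : ℝ) / m)) : ℝ) : ℂ) := e4
  rw [e8, tsum_mul_left]
  push_cast
  field_simp

end Pool.Agent.Lib.MP_2c6f70_nt.RU.TH
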