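import Pool.Agent.Lib.MP_2c6f70_nt.RU.T_FoA
import Pool.Agent.Lib.MP_2c6f70_nt.RU.T_PoiH

/-!
# Block T: Poisson summation for the triangle function

PROOF.  `Real.tsum_eq_tsum_fourier_of_rpow_decay` (Mathlib, `Analysis/Fourier/PoissonSummation.lean`) or `..._of_summable` for `f x = X * tri (X x)`, `b = 2`: `f` is continuous and vanishes for `|x| ≥ 1/X`
(so it is `O` of everything on `cocompact`: `Filter.EventuallyEq` with `0`), `𝓕 f n = ww (n / X)`: scaling of the Fourier transform (change of variables `MeasureTheory.Measure.integral_comp_mul_left`,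
`fourier_tri`), which is summable by `ww_summable`.  The term is `ww (n/X) * fourier n (x : UnitAddCircle)` and `fourier n x = exp (2 π i n x)` (`fourier_coe_apply`) `= ee (n x)`.
`sum_ww`: `x = 0`, for `X ≥ 1` only `n = 0` remains on the right side.
-/

set_option autoImplicit false

namespace Pool.Agent.Lib.MP_2c6f70_nt.RU.T

open Finset FourierTransform

theorem poisson_tri {X : ℝ} (hX : 0 < X) (x : ℝ) :
    ∑' n : ℤ, (ww (n / X) : ℂ) * ee (n * x) = (X : ℂ) * ∑' n : ℤ, (tri (X * (x + n)) : ℂ) := by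
  have hXi : 0 < X⁻¹ := inv_pos.mpr hX
  have htri : ∀ y : ℝ, tri (X * y) = TH.tri X⁻¹ y := by
    intro y
    unfold tri TH.tri
    rw [max_comm, abs_mul, abs_of_pos hX, div_inv_eq_mul, mul_comm]
  set f : ℝ → ℂ := fun t => (X : ℂ) * (TH.tri X⁻¹ t : ℂ) with hf
  have hc : Continuous f := by
    have := TH.continuous_tri (L := X⁻¹)
    fun_prop
  have hdec : f =O[Filter.cocompact ℝ] fun x : ℝ => |x| ^ (-2 : ℝ) := by
    have h0 : f =ᶠ[Filter.cocompact ℝ] fun _ => 0 := by
      have h1 : ∀ᶠ t : ℝ in Filter.cocompact ℝ, X⁻¹ ≤ ‖t‖ :=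
        tendsto_norm_cocompact_atTop.eventually_ge_atTop X⁻¹
      filter_upwards [h1] with t ht
      show (X : ℂ) * (TH.tri X⁻¹ t : ℂ) = 0
      rw [TH.tri_eq_zero hXi ht]
      simp
    exact h0.trans_isBigO (Asymptotics.isBigO_zero _ _)
  have hF : ∀ n : ℝ, 𝓕 f n = (ww (n / X) : ℂ) := by
    intro n
    have h2 := TH.tri_fourier hXi n
    have h3 : (ww (n / X) : ℂ) = (X : ℂ) * ((X⁻¹ * TH.wS (X⁻¹ * n) : ℝ) : ℂ) := by
      have h4 : ww (n / X) = X * (X⁻¹ * TH.wS (X⁻¹ * n)) := by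
        rw [← mul_assoc, mul_inv_cancel₀ hX.ne', one_mul]
        unfold ww TH.wS
        rw [div_eq_inv_mul]
      rw [h4, Complex.ofReal_mul]
    rw [h3, ← h2, ← MeasureTheory.integral_const_mul, Real.fourier_real_eq_integral_exp_smul]
    refine MeasureTheory.integral_congr_ae (Filter.Eventually.of_forall fun t => ?_)
    show Complex.exp (↑(-2 * Real.pi * t * n) * Complex.I) • ((X : ℂ) * (TH.tri X⁻¹ t : ℂ)) =
      (X : ℂ) * ((TH.tri X⁻¹ t : ℂ) * Complex.exp ((-(2 * Real.pi * (n : ℂ)) * Complex.I) * t))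
    rw [smul_eq_mul]
    have h5 : (↑(-2 * Real.pi * t * n) * Complex.I : ℂ) = (-(2 * Real.pi * (n : ℂ)) * Complex.I) * t := by
      push_cast
      ring
    rw [h5]
    ring
  have hs : Summable fun n : ℤ => 𝓕 f n := by
    have h1 : (fun n : ℤ => 𝓕 f n) = fun n : ℤ => ((ww ((n : ℝ) / X) : ℝ) : ℂ) := by
      funext n
      exact hF n
    rw [h1]
    have h2 : Summable fun n : ℤ => ww ((n : ℝ) / X) := ww_summable hX
    exact_mod_cast h2
  have hP := Real.tsum_eq_tsum_fourier_of_rpow_decay_of_summable hc (by norm_num : (1 : ℝ) < 2) hdec hs x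
  have e1 : ∑' n : ℤ, f (x + n) = (X : ℂ) * ∑' n : ℤ, (tri (X * (x + n)) : ℂ) := by
    rw [← tsum_mul_left]
    refine tsum_congr fun n => ?_
    rw [htri]
  rw [← e1, hP]
  refine tsum_congr fun n => ?_
  rw [hF, fourier_coe_apply]
  unfold ee
  congr 2
  push_cast
  ring

theorem sum_ww {X : ℝ} (hX : 1 ≤ X) : ∑' n : ℤ, ww (n / X) = X := by
  have hX0 : 0 < X := by linarith
  have h1 := poisson_tri hX0 0
  have h2 : ∑' n : ℤ, (ww (n / X) : ℂ) * ee (n * 0) = ((∑' n : ℤ, ww (n / X) : ℝ) : ℂ) := by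
    rw [Complex.ofReal_tsum]
    refine tsum_congr fun n => ?_
    rw [mul_zero, ee_zero, mul_one]
  have h3 : ∑' n : ℤ, (tri (X * (0 + n)) : ℂ) = 1 := by
    rw [tsum_eq_single 0]
    · unfold tri
      simp
    · intro n hn
      have h4 : 1 ≤ |X * (0 + (n : ℝ))| := by
        rw [zero_add, abs_mul, abs_of_pos hX0]
        have h5 : (1 : ℝ) ≤ |(n : ℝ)| := by
          have := Int.one_le_abs hn
          exact_mod_cast this
        nlinarith
      rw [tri_eq_zero h4]
      simp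
  rw [h2, h3, mul_one] at h1
  exact_mod_cast h1

end Pool.Agent.Lib.MP_2c6f70_nt.RU.T
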