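import Mathlib

/-!
# T_GauH: Gauss sums of Jacobi symbols modulo products of primes `1 mod 4` (helper34)

`Gs m l = ∑ x mod m, J(x | m) e(l x / m)`.  For a finite set `K` of primes `1 mod 4`, `m = ∏ K`: `Gs m l = (∏ g_p) √m J(l | m)` with `g_p = ± 1`.
-/

set_option autoImplicit false

open Finset

namespace Pool.Agent.Lib.MP_2c6f70_nt.RU.TH

open scoped NumberTheorySymbols

/-- the Gauss sum of the Jacobi symbol modulo `m` -/
noncomputable def Gs (m : ℕ) [NeZero m] (l : ℤ) : ℂ :=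
  ∑ x : ZMod m, ((jacobiSym (x.val : ℤ) m : ℤ) : ℂ) * ZMod.stdAddChar ((l : ZMod m) * x)

theorem gau_val {m : ℕ} [NeZero m] (a : ℤ) : jacobiSym ((a : ZMod m).val : ℤ) m = jacobiSym a m := by
  rw [ZMod.val_intCast, ← jacobiSym.mod_left]

/-- the prime case -/
theorem gau_prime {p : ℕ} [Fact p.Prime] (hp : p % 4 = 1) :
    (∀ l : ℤ, Gs p l = (jacobiSym l p : ℤ) * Gs p 1) ∧ Gs p 1 ^ 2 = p := by
  have hp2 : p ≠ 2 := by
    rintro rfl
    norm_num at hp
  have hchar : ringChar (ZMod p) ≠ 2 := by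
    rw [ZMod.ringChar_zmod_n]
    exact hp2
  set χ : MulChar (ZMod p) ℂ := (quadraticChar (ZMod p)).ringHomComp (Int.castRingHom ℂ) with hχ
  have hval : ∀ x : ZMod p, ((jacobiSym (x.val : ℤ) p : ℤ) : ℂ) = χ x := by
    intro x
    rw [← jacobiSym.legendreSym.to_jacobiSym, legendreSym, hχ, MulChar.ringHomComp_apply]
    simp
  have hχ1 : χ ≠ 1 := by
    intro h
    have h1 := quadraticChar_ne_one hchar
    apply h1
    ext a
    have h2 : χ a = 1 := by
      rw [h]
      exact MulChar.one_apply_coe a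
    rw [hχ, MulChar.ringHomComp_apply] at h2
    have h3 : quadraticChar (ZMod p) a = 1 := by
      have h4 : ((quadraticChar (ZMod p) a : ℤ) : ℂ) = 1 := h2
      exact_mod_cast h4
    rw [h3]
    simp
  have hquad : χ.IsQuadratic := by
    intro a
    rcases quadraticChar_isQuadratic (ZMod p) a with h | h | h
    · left
      rw [hχ, MulChar.ringHomComp_apply, h]
      simp
    · right; left
      rw [hχ, MulChar.ringHomComp_apply, h]
      simp
    · right; right
      rw [hχ, MulChar.ringHomComp_apply, h]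
      simp
  have hG : ∀ l : ℤ, Gs p l = gaussSum χ (AddChar.mulShift ZMod.stdAddChar (l : ZMod p)) := by
    intro l
    unfold Gs gaussSum
    refine Finset.sum_congr rfl fun x _ => ?_
    rw [hval, AddChar.mulShift_apply]
  have hG1 : Gs p 1 = gaussSum χ ZMod.stdAddChar := by
    rw [hG, Int.cast_one, AddChar.mulShift_one]
  refine ⟨fun l => ?_, ?_⟩
  · by_cases h0 : (l : ZMod p) = 0
    · rw [hG, h0, AddChar.mulShift_zero]
      have h1 : jacobiSym l p = 0 := by
        rw [← jacobiSym.legendreSym.to_jacobiSym]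
        exact (legendreSym.eq_zero_iff p l).mpr h0
      rw [h1, Int.cast_zero, zero_mul]
      unfold gaussSum
      simp only [AddChar.one_apply, mul_one]
      exact MulChar.sum_eq_zero_of_ne_one hχ1
    · have hu : IsUnit (l : ZMod p) := isUnit_iff_ne_zero.mpr h0
      obtain ⟨u, hu⟩ := hu
      have h1 := gaussSum_mulShift χ ZMod.stdAddChar u
      rw [hu] at h1
      have h2 : χ (l : ZMod p) * χ (l : ZMod p) = 1 := by
        rw [← map_mul]
        have h3 : quadraticChar (ZMod p) ((l : ZMod p) * (l : ZMod p)) = 1 := by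
          rw [← sq]
          exact quadraticChar_sq_one' h0
        rw [hχ, MulChar.ringHomComp_apply, h3]
        simp
      have h3 : ((jacobiSym l p : ℤ) : ℂ) = χ (l : ZMod p) := by
        rw [← hval, gau_val]
      rw [hG, hG1, h3, ← h1, ← mul_assoc, h2, one_mul]
  · rw [hG1, gaussSum_sq hχ1 hquad (ZMod.isPrimitive_stdAddChar p)]
    have h1 : χ (-1) = 1 := by
      rw [hχ, MulChar.ringHomComp_apply, quadraticChar_neg_one hchar, ZMod.card]
      rw [ZMod.χ₄_nat_one_mod_four hp]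
      simp
    rw [h1, one_mul, ZMod.card]

/-- the composite case -/
theorem gau_mul {m n : ℕ} [NeZero m] [NeZero n] [NeZero (m * n)] (h : Nat.Coprime m n) (l : ℤ) :
    ∃ u v : ℤ, u * n + v * m = 1 ∧ Gs (m * n) l = Gs m (l * u) * Gs n (l * v) := by
  have hg : Int.gcd (n : ℤ) (m : ℤ) = 1 := by
    rw [Int.gcd_natCast_natCast]
    exact h.symm
  refine ⟨Int.gcdA n m, Int.gcdB n m, ?_, ?_⟩
  · have := Int.gcd_eq_gcd_ab (n : ℤ) (m : ℤ)
    rw [hg] at this
    push_cast at this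
    linarith
  set u : ℤ := Int.gcdA n m with hu
  set v : ℤ := Int.gcdB n m with hv
  have huv : u * n + v * m = 1 := by
    have := Int.gcd_eq_gcd_ab (n : ℤ) (m : ℤ)
    rw [hg] at this
    push_cast at this
    linarith
  -- the summand at an integer
  have key : ∀ a : ℤ, ((jacobiSym (((a : ZMod (m * n))).val : ℤ) (m * n) : ℤ) : ℂ) *
      ZMod.stdAddChar ((l : ZMod (m * n)) * (a : ZMod (m * n))) =
      (((jacobiSym ((a : ZMod m).val : ℤ) m : ℤ) : ℂ) * ZMod.stdAddChar (((l * u : ℤ) : ZMod m) * (a : ZMod m))) *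
      (((jacobiSym ((a : ZMod n).val : ℤ) n : ℤ) : ℂ) * ZMod.stdAddChar (((l * v : ℤ) : ZMod n) * (a : ZMod n))) := by
    intro a
    rw [gau_val, gau_val, gau_val, jacobiSym.mul_right]
    have e1 : ((l : ZMod (m * n)) * (a : ZMod (m * n))) = ((l * a : ℤ) : ZMod (m * n)) := by push_cast; rfl
    have e2 : (((l * u : ℤ) : ZMod m) * (a : ZMod m)) = ((l * u * a : ℤ) : ZMod m) := by push_cast; rfl
    have e3 : (((l * v : ℤ) : ZMod n) * (a : ZMod n)) = ((l * v * a : ℤ) : ZMod n) := by push_cast; rfl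
    rw [e1, e2, e3, ZMod.stdAddChar_coe, ZMod.stdAddChar_coe, ZMod.stdAddChar_coe]
    have hm : (m : ℂ) ≠ 0 := by exact_mod_cast NeZero.ne m
    have hn : (n : ℂ) ≠ 0 := by exact_mod_cast NeZero.ne n
    have e4 : (2 * Real.pi * Complex.I * ((l * a : ℤ) : ℂ) / ((m * n : ℕ) : ℂ)) =
        2 * Real.pi * Complex.I * ((l * u * a : ℤ) : ℂ) / (m : ℂ) + 2 * Real.pi * Complex.I * ((l * v * a : ℤ) : ℂ) / (n : ℂ) := by
      have huv' : (u : ℂ) * n + v * m = 1 := by exact_mod_cast huv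
      have e5 : ((l * a : ℤ) : ℂ) = ((l : ℂ) * a) * ((u : ℂ) * n + v * m) := by
        rw [huv']
        push_cast
        ring
      rw [e5]
      push_cast
      field_simp
    rw [e4, Complex.exp_add]
    push_cast
    ring
  -- Chinese remainder theorem
  unfold Gs
  rw [Finset.sum_mul_sum, ← Finset.sum_product', Finset.univ_product_univ]
  have hs := (ZMod.chineseRemainder h).toEquiv.sum_comp (fun t : ZMod m × ZMod n =>
    (((jacobiSym (t.1.val : ℤ) m : ℤ) : ℂ) * ZMod.stdAddChar (((l * u : ℤ) : ZMod m) * t.1)) *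
      (((jacobiSym (t.2.val : ℤ) n : ℤ) : ℂ) * ZMod.stdAddChar (((l * v : ℤ) : ZMod n) * t.2)))
  rw [← hs]
  refine Finset.sum_congr rfl fun x _ => ?_
  obtain ⟨a, rfl⟩ := ZMod.intCast_surjective x
  have e : (ZMod.chineseRemainder h).toEquiv (a : ZMod (m * n)) = ((a : ZMod m), (a : ZMod n)) := by
    show (ZMod.chineseRemainder h) (a : ZMod (m * n)) = _
    rw [map_intCast]
    rfl
  rw [e]
  exact key a

theorem gau_step {p m : ℕ} [NeZero p] [NeZero m] (hcop : Nat.Coprime p m) (hp : p % 4 = 1) (hmod : m % 4 = 1)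
    {gp gm : ℝ} (i1 : ∀ l : ℤ, Gs p l = (gp : ℂ) * (Real.sqrt p : ℂ) * ((jacobiSym l p : ℤ) : ℂ))
    (i2 : ∀ l : ℤ, Gs m l = (gm : ℂ) * (Real.sqrt m : ℂ) * ((jacobiSym l m : ℤ) : ℂ)) (M : ℕ) [NeZero M] (hM : M = p * m)
    (l : ℤ) : Gs M l = ((gp * gm : ℝ) : ℂ) * (Real.sqrt (M : ℝ) : ℂ) * ((jacobiSym l M : ℤ) : ℂ) := by
  subst hM
  obtain ⟨u, v, huv, hG⟩ := gau_mul (m := p) (n := m) hcop l
  -- the symbols of u and v
  have s1 : jacobiSym u p * jacobiSym v m = 1 := by
    have c1 : jacobiSym (u * m) p = 1 := by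
      have : (u * m : ℤ) % p = 1 % p := by
        have e : (u * m : ℤ) = 1 - v * p := by linarith
        rw [e, Int.sub_mul_emod_self_right]
      rw [jacobiSym.mod_left, this, ← jacobiSym.mod_left, jacobiSym.one_left]
    have c2 : jacobiSym (v * p) m = 1 := by
      have : (v * p : ℤ) % m = 1 % m := by
        have e : (v * p : ℤ) = 1 - u * m := by linarith
        rw [e, Int.sub_mul_emod_self_right]
      rw [jacobiSym.mod_left, this, ← jacobiSym.mod_left, jacobiSym.one_left]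
    rw [jacobiSym.mul_left] at c1 c2
    have c3 : jacobiSym (m : ℤ) p = jacobiSym (p : ℤ) m :=
      jacobiSym.quadratic_reciprocity_one_mod_four hmod (Nat.odd_iff.mpr (Nat.odd_of_mod_four_eq_one hp))
    have c4 : (jacobiSym u p * jacobiSym v m) * (jacobiSym (m : ℤ) p * jacobiSym (p : ℤ) m) = 1 := by
      calc (jacobiSym u p * jacobiSym v m) * (jacobiSym (m : ℤ) p * jacobiSym (p : ℤ) m)
          = (jacobiSym u p * jacobiSym (m : ℤ) p) * (jacobiSym v m * jacobiSym (p : ℤ) m) := by ring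
        _ = 1 := by rw [c1, c2]; norm_num
    have c5 : jacobiSym (m : ℤ) p * jacobiSym (p : ℤ) m = 1 := by
      rw [← c3]
      have hu : jacobiSym (m : ℤ) p * jacobiSym u p = 1 := by rw [mul_comm]; exact c1
      rcases Int.isUnit_iff.mp (IsUnit.of_mul_eq_one _ hu) with h | h <;> rw [h] <;> norm_num
    rw [c5, mul_one] at c4
    exact c4
  rw [hG, i1, i2, jacobiSym.mul_left, jacobiSym.mul_left, jacobiSym.mul_right]
  have s2 : ((jacobiSym u p : ℤ) : ℂ) * ((jacobiSym v m : ℤ) : ℂ) = 1 := by exact_mod_cast s1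
  have s3 : Real.sqrt ((p * m : ℕ) : ℝ) = Real.sqrt p * Real.sqrt m := by
    rw [Nat.cast_mul, Real.sqrt_mul (Nat.cast_nonneg p)]
  rw [s3]
  push_cast
  linear_combination ((gp : ℂ) * (Real.sqrt p : ℂ) * ((jacobiSym l p : ℤ) : ℂ) * (gm : ℂ) *
    (Real.sqrt m : ℂ) * ((jacobiSym l m : ℤ) : ℂ)) * s2

/-- a sign for every prime -/
theorem exists_gsign : ∃ g : ℕ → ℝ, (∀ p, g p = 1 ∨ g p = -1) ∧
    ∀ (K : Finset ℕ), (∀ p ∈ K, p.Prime ∧ p % 4 = 1) → ∀ [NeZero (∏ p ∈ K, p)] (l : ℤ),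
      Gs (∏ p ∈ K, p) l = ((∏ p ∈ K, g p : ℝ) : ℂ) * (Real.sqrt ((∏ p ∈ K, p : ℕ) : ℝ) : ℂ) *
        ((jacobiSym l (∏ p ∈ K, p) : ℤ) : ℂ) := by
  classical
  have hex : ∀ p : ℕ, ∃ g : ℝ, (g = 1 ∨ g = -1) ∧ ∀ [NeZero p] (_ : p.Prime), p % 4 = 1 → ∀ l : ℤ,
      Gs p l = (g : ℂ) * (Real.sqrt p : ℂ) * ((jacobiSym l p : ℤ) : ℂ) := by
    intro p
    by_cases hp : p.Prime ∧ p % 4 = 1
    · obtain ⟨hp1, hp2⟩ := hp
      have : Fact p.Prime := ⟨hp1⟩
      obtain ⟨h1, h2⟩ := gau_prime (p := p) hp2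
      have h3 : (Gs p 1 - (Real.sqrt p : ℂ)) * (Gs p 1 + (Real.sqrt p : ℂ)) = 0 := by
        have h4 : ((Real.sqrt p : ℝ) : ℂ) ^ 2 = p := by
          rw [← Complex.ofReal_pow, Real.sq_sqrt (Nat.cast_nonneg p)]
          simp
        linear_combination h2 - h4
      rcases mul_eq_zero.mp h3 with h4 | h4
      · refine ⟨1, Or.inl rfl, fun _ _ l => ?_⟩
        rw [h1 l, sub_eq_zero.mp h4]
        push_cast
        ring
      · refine ⟨-1, Or.inr rfl, fun _ _ l => ?_⟩
        rw [h1 l, eq_neg_of_add_eq_zero_left h4]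
        push_cast
        ring
    · exact ⟨1, Or.inl rfl, fun h1 h2 => absurd ⟨h1, h2⟩ hp⟩
  choose g hg1 hg2 using hex
  refine ⟨g, hg1, ?_⟩
  intro K
  induction K using Finset.induction_on with
  | empty =>
    intro _ _ l
    have h1 : ∀ (m : ℕ) [NeZero m], m = 1 → Gs m l = ((jacobiSym l m : ℤ) : ℂ) := by
      intro m _ hm
      subst hm
      unfold Gs
      have h0 : (Finset.univ : Finset (ZMod 1)) = {0} := rfl
      rw [h0, Finset.sum_singleton]
      simp
    rw [h1 _ Finset.prod_empty, Finset.prod_empty]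
    simp
  | insert p K hpK ih =>
    intro hK hne l
    have hp := hK p (Finset.mem_insert_self p K)
    have hK' : ∀ q ∈ K, q.Prime ∧ q % 4 = 1 := fun q hq => hK q (Finset.mem_insert_of_mem hq)
    have hm0 : (∏ q ∈ K, q) ≠ 0 := Finset.prod_ne_zero_iff.mpr fun q hq => (hK' q hq).1.ne_zero
    have n1 : NeZero p := ⟨hp.1.ne_zero⟩
    have n2 : NeZero (∏ q ∈ K, q) := ⟨hm0⟩
    have hcop : Nat.Coprime p (∏ q ∈ K, q) := by
      refine Nat.Coprime.prod_right fun q hq => ?_
      exact (Nat.coprime_primes hp.1 (hK' q hq).1).mpr fun h => hpK (h ▸ hq)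
    have hmod : (∏ q ∈ K, q) % 4 = 1 := by
      have : ∀ s : Finset ℕ, (∀ q ∈ s, q % 4 = 1) → (∏ q ∈ s, q) % 4 = 1 := by
        intro s
        induction s using Finset.induction_on with
        | empty => intro _; rfl
        | insert r s hr ih' =>
          intro hs
          rw [Finset.prod_insert hr, Nat.mul_mod, hs r (Finset.mem_insert_self r s),
            ih' fun q hq => hs q (Finset.mem_insert_of_mem hq)]
      exact this K fun q hq => (hK' q hq).2
    have haux := gau_step hcop hp.2 hmod (fun l => hg2 p hp.1 hp.2 l) (fun l => ih hK' l)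
      (∏ q ∈ insert p K, q) (Finset.prod_insert (f := fun q : ℕ => q) hpK) l
    rw [haux, Finset.prod_insert (f := g) hpK]

end Pool.Agent.Lib.MP_2c6f70_nt.RU.TH
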