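import Pool.Agent.Lib.MP_2c6f70_nt.RU.T_Bas
import Pool.Agent.Lib.MP_2c6f70_nt.RU.T_GauH

/-!
# Block T: the quadratic Gauss sum modulo a prime `p ≡ 1 mod 4`

PROOF.  Let `χ = quadraticChar (ZMod p)` as a `MulChar (ZMod p) ℂ` (`(quadraticChar (ZMod p)).ringHomComp (Int.castRingHom ℂ)`), `ψ = ZMod.stdAddChar` (or the additive
character `b ↦ exp (2 π i b / p)`, `ZMod.stdAddChar_coe`, `ZMod.toCircle_intCast`).  `gaussSum χ ψ = ∑ b, χ b * ψ b`, and `jacobiSym b p = legendreSym p b = quadraticChar (ZMod p) b`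
(`jacobiSym.legendreSym.to_jacobiSym`).  Sum over `range p` = sum over `ZMod p` (`Finset.sum_nbij` with the cast, or `Fin` equivalence; helper: `ZMod.natCast_self_eq_zero`, `ZMod.natCast_zmod_val`).
`gaussSum_sq`: `g^2 = χ (-1) * p = p` as `χ (-1) = 1` for `p ≡ 1 mod 4` (`ZMod.χ₄`, `quadraticChar_neg_one`, or `legendreSym.at_neg_one`).
So `g = ± √p` is real and `g = ss p * √p` (`ss p` is `1` if `0 ≤ g.re`, else `-1`; `√p > 0`).
Shift: for `p ∤ l`: `∑ b, χ b ψ(b l) = χ(l)⁻¹ g = χ(l) g` (`gaussSum_mulShift`, or substitution `b ↦ b l⁻¹`, `χ(l)^2 = 1`); for `p ∣ l`: `∑ b, χ b = 0` (`MulChar.sum_eq_zero_of_ne_one`, `χ ≠ 1`: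
`quadraticChar_ne_one`, p odd) and `jacobiSym l p = 0`.
-/

set_option autoImplicit false

namespace Pool.Agent.Lib.MP_2c6f70_nt.RU.T

open Finset

/-- The sum over `range m` is the sum over `ZMod m`. -/
theorem range_eq_Gs {m : ℕ} [NeZero m] (l : ℤ) :
    ∑ b ∈ range m, ((jacobiSym (b : ℤ) m : ℤ) : ℂ) * ee ((b : ℝ) * l / m) = TH.Gs m l := by
  unfold TH.Gs
  symm
  refine Finset.sum_bij' (fun (x : ZMod m) _ => x.val) (fun (b : ℕ) _ => (b : ZMod m)) ?_ ?_ ?_ ?_ ?_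
  · intro x _
    exact Finset.mem_range.mpr (ZMod.val_lt x)
  · intro b _
    exact Finset.mem_univ _
  · intro x _
    exact ZMod.natCast_zmod_val x
  · intro b hb
    exact ZMod.val_cast_of_lt (Finset.mem_range.mp hb)
  · intro x _
    congr 1
    have h1 : ((l : ZMod m) * x) = ((l * (x.val : ℤ) : ℤ) : ZMod m) := by
      push_cast
      rw [ZMod.natCast_zmod_val]
    rw [h1, ZMod.stdAddChar_coe]
    unfold ee
    congr 1
    push_cast
    ring

theorem gauss_prime {p : ℕ} (hp : p.Prime) (hp4 : p % 4 = 1) :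
    ∀ l : ℤ, ∑ b ∈ range p, ((jacobiSym (b : ℤ) p : ℤ) : ℂ) * ee ((b : ℝ) * l / p) =
        ((ss p * Real.sqrt p : ℝ) : ℂ) * ((jacobiSym l p : ℤ) : ℂ) := by
  have hF : Fact p.Prime := ⟨hp⟩
  have hne : NeZero p := ⟨hp.ne_zero⟩
  obtain ⟨h1, h2⟩ := TH.gau_prime (p := p) hp4
  have hsq : 0 < Real.sqrt p := Real.sqrt_pos.mpr (by exact_mod_cast hp.pos)
  have h3 : (TH.Gs p 1 - (Real.sqrt p : ℂ)) * (TH.Gs p 1 + (Real.sqrt p : ℂ)) = 0 := by
    have h4 : ((Real.sqrt p : ℝ) : ℂ) ^ 2 = p := by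
      rw [← Complex.ofReal_pow, Real.sq_sqrt (Nat.cast_nonneg p)]
      simp
    linear_combination h2 - h4
  have h5 : (∑ b ∈ range p, ((jacobiSym (b : ℤ) p : ℤ) : ℂ) * ee ((b : ℝ) / p)) = TH.Gs p 1 := by
    rw [← range_eq_Gs]
    refine Finset.sum_congr rfl fun b _ => ?_
    rw [Int.cast_one, mul_one]
  have h6 : TH.Gs p 1 = ((ss p * Real.sqrt p : ℝ) : ℂ) := by
    unfold ss
    rw [h5]
    rcases mul_eq_zero.mp h3 with h4 | h4
    · have h7 : TH.Gs p 1 = (Real.sqrt p : ℂ) := sub_eq_zero.mp h4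
      have h8 : 0 ≤ (TH.Gs p 1).re := by
        rw [h7, Complex.ofReal_re]
        exact hsq.le
      rw [if_pos h8, one_mul]
      exact h7
    · have h7 : TH.Gs p 1 = -(Real.sqrt p : ℂ) := eq_neg_of_add_eq_zero_left h4
      have h8 : ¬ 0 ≤ (TH.Gs p 1).re := by
        rw [h7, Complex.neg_re, Complex.ofReal_re]
        linarith
      rw [if_neg h8, h7]
      push_cast
      ring
  intro l
  rw [range_eq_Gs, h1 l, h6]
  ring

end Pool.Agent.Lib.MP_2c6f70_nt.RU.T
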