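import Pool.Agent.Lib.MP_2c6f70_nt.RU.T_GsA

/-!
# Block T: Gauss sum of `chi K`

PROOF.  Induction on `K` (`Finset.induction_on`).  `K = ∅`: `mm = 1`, sum over `range 1`, `ee 0 = 1`.
`insert p K`, `m = mm K`, `p ∤ m`: the map `(b₁, b₂) ↦ (b₁ m + b₂ p) % (p m)`, `range p ×ˢ range m → range (p m)` is a bijection (`p`, `m` coprime; `Nat.chineseRemainder` or injectivity + cardinality:
`Finset.sum_bij'`, `Finset.card_le_card_of_injOn`, `Finset.eq_of_subset_of_card_le`).
Both `chi` and `ee (b l / (p m))` depend only on `b mod p m` (`chi_add_mul`, `ee_int`), and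
`chi (insert p K) (b₁ m + b₂ p) = (b₁ m | p) * chi K (b₂ p) = (b₁|p) (m|p) chi K b₂ * chi K p = (b₁|p) chi K b₂` by `recip`;
`ee ((b₁ m + b₂ p) l / (p m)) = ee (b₁ l / p) * ee (b₂ l / m)`.  So the sum is the product of the sums for `p` (`gauss_prime`) and `K` (induction);
`√(p m) = √p √m`, `chi (insert p K) l = (l | p) * chi K l`.
-/

set_option autoImplicit false

namespace Pool.Agent.Lib.MP_2c6f70_nt.RU.T

open Finset

theorem prod_ss_sq (K : Finset ℕ) : (∏ p ∈ K, ss p) * (∏ p ∈ K, ss p) = 1 := by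
  rw [← Finset.prod_mul_distrib]
  refine Finset.prod_eq_one fun p _ => ?_
  rcases ss_eq p with h | h <;> rw [h] <;> norm_num

theorem chi_eq_jac {K : Finset ℕ} (hK : PP K) (h : ℤ) : chi K h = jacobiSym h (mm K) := by
  unfold chi mm
  induction K using Finset.induction_on with
  | empty => simp
  | insert p K hpK ih =>
    have hK' : PP K := hK.subset (Finset.subset_insert p K)
    have n1 : NeZero p := ⟨(hK p (Finset.mem_insert_self p K)).1.ne_zero⟩
    have n2 : NeZero (∏ q ∈ K, q) := ⟨Finset.prod_ne_zero_iff.mpr fun q hq => (hK' q hq).1.ne_zero⟩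
    rw [Finset.prod_insert hpK, Finset.prod_insert hpK, ih hK', jacobiSym.mul_right]

theorem gauss_chi {K : Finset ℕ} (hK : PP K) (l : ℤ) :
    ∑ b ∈ range (mm K), ((chi K (b : ℤ) : ℤ) : ℂ) * ee ((b : ℝ) * l / mm K) =
      (((∏ p ∈ K, ss p) * Real.sqrt (mm K) : ℝ) : ℂ) * ((chi K l : ℤ) : ℂ) := by
  have key : ∀ (K : Finset ℕ), PP K → ∀ [NeZero (∏ p ∈ K, p)] (l : ℤ),
      TH.Gs (∏ p ∈ K, p) l = ((∏ p ∈ K, ss p : ℝ) : ℂ) * (Real.sqrt ((∏ p ∈ K, p : ℕ) : ℝ) : ℂ) *
        ((jacobiSym l (∏ p ∈ K, p) : ℤ) : ℂ) := by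
    intro K
    induction K using Finset.induction_on with
    | empty =>
      intro _ _ l
      have h1 : ∀ (m : ℕ) [NeZero m], m = 1 → TH.Gs m l = ((jacobiSym l m : ℤ) : ℂ) := by
        intro m _ hm
        subst hm
        unfold TH.Gs
        have h0 : (Finset.univ : Finset (ZMod 1)) = {0} := rfl
        rw [h0, Finset.sum_singleton]
        simp
      rw [h1 _ Finset.prod_empty, Finset.prod_empty]
      simp
    | insert p K hpK ih =>
      intro hK hne l
      have hp := hK p (Finset.mem_insert_self p K)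
      have hK' : PP K := hK.subset (Finset.subset_insert p K)
      have hm0 : (∏ q ∈ K, q) ≠ 0 := Finset.prod_ne_zero_iff.mpr fun q hq => (hK' q hq).1.ne_zero
      have n1 : NeZero p := ⟨hp.1.ne_zero⟩
      have n2 : NeZero (∏ q ∈ K, q) := ⟨hm0⟩
      have hcop : Nat.Coprime p (∏ q ∈ K, q) := by
        refine Nat.Coprime.prod_right fun q hq => ?_
        exact (Nat.coprime_primes hp.1 (hK' q hq).1).mpr fun h => hpK (h ▸ hq)
      have hmod : (∏ q ∈ K, q) % 4 = 1 := by
        have : ∀ s : Finset ℕ, (∀ q ∈ s, q % 4 = 1) → (∏ q ∈ s, q) % 4 = 1 := by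
          intro s
          induction s using Finset.induction_on with
          | empty => intro _; rfl
          | insert r s hr ih' =>
            intro hs
            rw [Finset.prod_insert hr, Nat.mul_mod, hs r (Finset.mem_insert_self r s),
              ih' fun q hq => hs q (Finset.mem_insert_of_mem hq)]
        exact this K fun q hq => (hK' q hq).2
      have hpp : ∀ l : ℤ, TH.Gs p l = (ss p : ℂ) * (Real.sqrt p : ℂ) * ((jacobiSym l p : ℤ) : ℂ) := by
        intro l
        rw [← range_eq_Gs, gauss_prime hp.1 hp.2 l]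
        push_cast
        ring
      have haux := TH.gau_step hcop hp.2 hmod hpp (fun l => ih hK' l)
        (∏ q ∈ insert p K, q) (Finset.prod_insert (f := fun q : ℕ => q) hpK) l
      rw [haux, Finset.prod_insert (f := ss) hpK]
  have hm0 : (∏ q ∈ K, q) ≠ 0 := Finset.prod_ne_zero_iff.mpr fun q hq => (hK q hq).1.ne_zero
  have n2 : NeZero (∏ q ∈ K, q) := ⟨hm0⟩
  have h1 := key K hK l
  rw [← range_eq_Gs] at h1
  have h2 : ∑ b ∈ range (mm K), ((chi K (b : ℤ) : ℤ) : ℂ) * ee ((b : ℝ) * l / mm K) =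
      ∑ b ∈ range (∏ p ∈ K, p), ((jacobiSym (b : ℤ) (∏ p ∈ K, p) : ℤ) : ℂ) *
        ee ((b : ℝ) * l / ((∏ p ∈ K, p : ℕ) : ℝ)) := by
    unfold mm
    refine Finset.sum_congr rfl fun b _ => ?_
    rw [chi_eq_jac hK]
    rfl
  rw [h2, h1, chi_eq_jac hK]
  unfold mm
  push_cast
  ring

end Pool.Agent.Lib.MP_2c6f70_nt.RU.T
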