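import Pool.Agent.Lib.MP_2c6f70_nt.RU.T_Stp

/-!
# Block T: the iteration

PROOF.  `g τ = 1 - τ x/(2τ-1+x)`.  For `1 - x ≤ τ ≤ 1`: `1 - x ≤ g τ ≤ 1` (`τ ≤ 2τ-1+x`), and `g τ - (1-x) = x (τ-(1-x))/(2τ-1+x) ≤ (x/(1-x)) (τ-(1-x))` as `2τ-1+x ≥ 1-x`.  So, by induction on `n` from
`claim_one`, `claim_step`: for all `n` there are `τ`, `E` with `1-x ≤ τ ≤ 1`, `τ ≤ 1-x + (x/(1-x))^n x`, `0 ≤ E`, `CLAIM x B τ E`.  `x/(1-x) < 1`: choose `n` (`exists_pow_lt_of_lt_one`).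
-/

set_option autoImplicit false

namespace Pool.Agent.Lib.MP_2c6f70_nt.RU.T

private theorem T_It_num {x τ : ℝ} (hx0 : 0 < x) (hx : x < 1 / 2) (h1 : 1 - x ≤ τ) :
    1 - x ≤ 1 - τ * x / (2 * τ - 1 + x) ∧ 1 - τ * x / (2 * τ - 1 + x) ≤ 1 ∧
      1 - τ * x / (2 * τ - 1 + x) - (1 - x) ≤ (x / (1 - x)) * (τ - (1 - x)) := by
  have hd : 0 < 2 * τ - 1 + x := by linarith
  have hτ : 0 < τ := by linarith
  have h1x : 0 < 1 - x := by linarith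
  refine ⟨?_, ?_, ?_⟩
  · have h : τ * x / (2 * τ - 1 + x) ≤ x := by
      rw [div_le_iff₀ hd]
      nlinarith
    linarith
  · have h : 0 ≤ τ * x / (2 * τ - 1 + x) := div_nonneg (mul_nonneg hτ.le hx0.le) hd.le
    linarith
  · have e1 : 1 - τ * x / (2 * τ - 1 + x) - (1 - x) = x * (τ - (1 - x)) / (2 * τ - 1 + x) := by
      rw [eq_div_iff hd.ne']
      have e3 : τ * x / (2 * τ - 1 + x) * (2 * τ - 1 + x) = τ * x := div_mul_cancel₀ _ hd.ne'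
      linear_combination -e3
    have e2 : x / (1 - x) * (τ - (1 - x)) = x * (τ - (1 - x)) / (1 - x) := by
      ring
    rw [e1, e2]
    refine div_le_div_of_nonneg_left (mul_nonneg hx0.le (by linarith)) h1x (by linarith)

private theorem T_It_iter (x B : ℝ) (hx0 : 0 < x) (hx : x < 1 / 2) (hB : 0 < B) (n : ℕ) :
    ∃ τ E : ℝ, 1 - x ≤ τ ∧ τ ≤ 1 ∧ τ ≤ 1 - x + (x / (1 - x)) ^ n * x ∧ 0 ≤ E ∧ CLAIM x B τ E := by
  induction n with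
  | zero =>
    refine ⟨1, 0, by linarith, le_refl _, ?_, le_refl _, claim_one x B⟩
    rw [pow_zero]
    linarith
  | succ n ih =>
    obtain ⟨τ, E, h1, h2, h3, h4, h5⟩ := ih
    obtain ⟨g1, g2, g3⟩ := T_It_num hx0 hx h1
    refine ⟨1 - τ * x / (2 * τ - 1 + x), E + B + 1, g1, g2, ?_, by linarith,
      claim_step x B τ E hx0 hx hB h4 h1 h2 h5⟩
    have hr : 0 ≤ x / (1 - x) := div_nonneg hx0.le (by linarith)
    have h6 : x / (1 - x) * (τ - (1 - x)) ≤ x / (1 - x) * ((x / (1 - x)) ^ n * x) :=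
      mul_le_mul_of_nonneg_left (by linarith) hr
    rw [pow_succ]
    have h7 : x / (1 - x) * ((x / (1 - x)) ^ n * x) = (x / (1 - x)) ^ n * (x / (1 - x)) * x := by ring
    linarith

theorem claim_final (x B η : ℝ) (hx0 : 0 < x) (hx : x < 1 / 2) (hB : 0 < B) (hη : 0 < η) :
    ∃ τ E : ℝ, 1 - x ≤ τ ∧ τ ≤ 1 ∧ τ ≤ 1 - x + η ∧ 0 ≤ E ∧ CLAIM x B τ E := by
  have h1x : 0 < 1 - x := by linarith
  have hr0 : 0 ≤ x / (1 - x) := div_nonneg hx0.le h1x.le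
  have hr1 : x / (1 - x) < 1 := by
    rw [div_lt_one h1x]
    linarith
  obtain ⟨n, hn⟩ := exists_pow_lt_of_lt_one hη hr1
  obtain ⟨τ, E, h1, h2, h3, h4, h5⟩ := T_It_iter x B hx0 hx hB n
  refine ⟨τ, E, h1, h2, h3.trans ?_, h4, h5⟩
  have h6 : (x / (1 - x)) ^ n * x ≤ (x / (1 - x)) ^ n * 1 :=
    mul_le_mul_of_nonneg_left (by linarith) (pow_nonneg hr0 n)
  linarith

end Pool.Agent.Lib.MP_2c6f70_nt.RU.T
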