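import Pool.Agent.Lib.MP_2c6f70_nt.RU.T_It
import Pool.Agent.Lib.MP_2c6f70_nt.RU.T_Cnt
import Pool.Agent.Lib.MP_2a816b_nt.Divisor

/-!
# Block T: few integers have prescribed Legendre symbols

PROOF of `quasi_count`.  `claim_final` with `η/4`: `τ ≤ 1-x+η/4`, `E ≥ 0`.  `r ≥ 1` a natural number with `r ≥ 8(E+1)/η`, `j = ⌈r/c⌉₊ ≥ 1`, `κ = 1/(4 r j)`, `ε = η/(8 r)`, `C` of `divisor_bound ε` (in `Pool.Agent.Lib.MP_2a816b_nt.Divisor`), `J = j`.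
`N` large.  `k = #P ≥ N^c ≥ j` for large `N`, `k^j ≥ N^(c j) ≥ N^r`.  `Y = N^r`.  `LS P j Y (N^E (Y + Y^τ k^j))` (`CLAIM`).  `D` = the quasi set `⊆ Icc 1 N`, `H` = image of the products, `H ⊆ Icc 1 (N^r)` (each product of `r` elements of `[1, N]`).
`count_products`: `#H #C_j ≤ 4 N^E (N^r + N^(rτ) k^j)`, `#C_j = choose k j ≥ (k/j)^j = k^j/j^j` (`Nat.pow_le_choose`-type: `Nat.pow_sub_le_descFactorial`... or `Nat.pow_le_choose : (n+1-r)^r ≤ r! choose n r` with `k ≥ 2j`: `(k/2)^j/j!`), so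
`#H ≤ 4 c_j N^E (N^r/k^j + N^(rτ)) ≤ 8 c_j N^(E + rτ)`, `c_j = j^j` or `2^j j!`.  `mult_bound`: `#D^r ≤ 8 c_j N^(E+rτ) (C N^(r ε))^r`.  Take `r`-th roots: `#D ≤ (8 c_j)^(1/r) C N^(E/r + τ + rε) ≤ (8 c_j) C N^(1-x + η/4 + η/8 + η/8)`
and `8 c_j C ≤ N^(η/2)` for large `N`.  (It is simpler to show `#D^r ≤ (N^(1-x+η))^r`, i.e. `8 c_j C^r N^(E + rτ + r² ε) ≤ N^(r(1-x+η))`: exponents: `E ≤ r η/8`, `rτ ≤ r(1-x+η/4)`, `r² ε = r η/8`; constant `≤ N^(r η/2)`.)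
-/

set_option autoImplicit false

namespace Pool.Agent.Lib.MP_2c6f70_nt.RU

open Finset T

/-- Lower bound of the number of subsets. -/
theorem T.choose_lower (k j : ℕ) (h : 2 * j ≤ k) :
    (k : ℝ) ^ j ≤ (2 ^ j * (j.factorial : ℝ)) * (k.choose j : ℝ) := by
  have h1 := Nat.pow_le_choose (α := ℝ) j k
  have h2 : (k : ℝ) / 2 ≤ ((k + 1 - j : ℕ) : ℝ) := by
    have : k ≤ 2 * (k + 1 - j) := by omega
    have h3 : (k : ℝ) ≤ 2 * ((k + 1 - j : ℕ) : ℝ) := by exact_mod_cast this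
    linarith
  have hf : (0 : ℝ) < (j.factorial : ℝ) := by exact_mod_cast j.factorial_pos
  rw [div_le_iff₀ hf] at h1
  have h3 : ((k : ℝ) / 2) ^ j ≤ ((k + 1 - j : ℕ) : ℝ) ^ j := pow_le_pow_left₀ (by positivity) h2 j
  rw [div_pow] at h3
  have h4 : (k : ℝ) ^ j / 2 ^ j ≤ (k.choose j : ℝ) * (j.factorial : ℝ) := h3.trans h1
  rw [div_le_iff₀ (by positivity)] at h4
  calc (k : ℝ) ^ j ≤ (k.choose j : ℝ) * (j.factorial : ℝ) * 2 ^ j := h4
    _ = _ := by ring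

/-- Section 7 of the paper. -/
theorem quasi_count (x B c η : ℝ) (hx0 : 0 < x) (hx : x < 1 / 2) (hB : 0 < B) (hc : 0 < c) (hη : 0 < η) :
    ∃ κ : ℝ, 0 < κ ∧ ∃ N₀ : ℕ, ∀ N ≥ N₀, ∀ (P : Finset ℕ) (Z : ℝ) (ω : ℕ → ℤ),
      (∀ p ∈ P, p.Prime ∧ p % 4 = 1 ∧ (p : ℝ) ≤ Z) → 1 < Z → Z ≤ (N : ℝ) ^ B →
      Z ^ x ≤ (P.card : ℝ) → (N : ℝ) ^ c ≤ (P.card : ℝ) → (∀ p ∈ P, ω p = 1 ∨ ω p = -1) →
      (((Finset.Icc 1 N).filter (fun d => (exc P ω d : ℝ) ≤ κ * P.card)).card : ℝ) ≤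
        (N : ℝ) ^ (1 - x + η) := by
  classical
  obtain ⟨τ, E, hτ1, hτ2, hτ3, hE, hCL⟩ := claim_final x B (η / 4) hx0 hx hB (by positivity)
  have hτ0 : 0 ≤ τ := by linarith
  obtain ⟨r, hr⟩ : ∃ r : ℕ, 8 * (E + 1) / η ≤ r := exists_nat_ge _
  have hrpos : (0 : ℝ) < r := lt_of_lt_of_le (by positivity) hr
  have hr1 : 1 ≤ r := by exact_mod_cast Nat.one_le_iff_ne_zero.2 (by rintro rfl; simp at hrpos)
  have hrE : 8 * (E + 1) ≤ r * η := by rwa [div_le_iff₀ hη] at hr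
  obtain ⟨j, hj⟩ : ∃ j : ℕ, (r : ℝ) / c ≤ j := exists_nat_ge _
  have hjpos : (0 : ℝ) < j := lt_of_lt_of_le (by positivity) hj
  have hcj : (r : ℝ) ≤ c * j := by rw [div_le_iff₀ hc] at hj; linarith
  set κ : ℝ := 1 / (4 * r * j) with hκdef
  have hκ0 : 0 < κ := by positivity
  have hκ : 4 * r * j * κ ≤ 1 := by
    rw [hκdef]; exact le_of_eq (mul_one_div_cancel (by positivity))
  refine ⟨κ, hκ0, ?_⟩
  set ε : ℝ := η / (8 * r) with hεdef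
  have hε : 0 < ε := by positivity
  obtain ⟨C, hC1, hdiv⟩ := Pool.Agent.Lib.MP_2a816b_nt.divisor_bound ε hε
  obtain ⟨N₁, hN₁⟩ := hCL j
  set cj : ℝ := 2 ^ j * (j.factorial : ℝ) with hcjdef
  have hcj0 : 0 < cj := by positivity
  obtain ⟨N₂, hN₂⟩ : ∃ N₂ : ℕ, ∀ N ≥ N₂, 8 * cj * C ^ r ≤ (N : ℝ) ^ (r * (η / 2)) := by
    have := (tendsto_rpow_atTop (by positivity : (0 : ℝ) < r * (η / 2))).comp tendsto_natCast_atTop_atTop
    obtain ⟨N₂, hN₂⟩ := Filter.eventually_atTop.1 (this.eventually_ge_atTop (8 * cj * C ^ r))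
    exact ⟨N₂, hN₂⟩
  obtain ⟨N₃, hN₃⟩ : ∃ N₃ : ℕ, ∀ N ≥ N₃, ((2 * j : ℕ) : ℝ) ≤ (N : ℝ) ^ c := by
    have := (tendsto_rpow_atTop hc).comp tendsto_natCast_atTop_atTop
    obtain ⟨N₃, hN₃⟩ := Filter.eventually_atTop.1 (this.eventually_ge_atTop ((2 * j : ℕ) : ℝ))
    exact ⟨N₃, hN₃⟩
  refine ⟨max 1 (max N₁ (max N₂ N₃)), ?_⟩
  intro N hN P Z ω hP hZ hZB hxk hck hω
  have hN1 : 1 ≤ N := (le_max_left _ _).trans hN
  have hNN1 : N₁ ≤ N := ((le_max_left _ _).trans (le_max_right _ _)).trans hN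
  have hNN2 : N₂ ≤ N := ((le_max_left _ _).trans ((le_max_right _ _).trans (le_max_right _ _))).trans hN
  have hNN3 : N₃ ≤ N := ((le_max_right _ _).trans ((le_max_right _ _).trans (le_max_right _ _))).trans hN
  have hNr : (1 : ℝ) ≤ N := by exact_mod_cast hN1
  have hN0 : (0 : ℝ) < N := by linarith
  have h2j : 2 * j ≤ P.card := by exact_mod_cast (hN₃ N hNN3).trans hck
  have hjk : j ≤ P.card := by omega
  have hkpos : 0 < P.card := by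
    have : 0 < j := by exact_mod_cast hjpos
    omega
  have hne : P.Nonempty := Finset.card_pos.1 hkpos
  have hk0 : (0 : ℝ) < P.card := by exact_mod_cast hkpos
  set D := (Finset.Icc 1 N).filter (fun d => (exc P ω d : ℝ) ≤ κ * P.card) with hDdef
  set H := (Fintype.piFinset (fun _ : Fin r => D)).image (fun d => ∏ i, d i) with hHdef
  have hDsub : D ⊆ Icc 1 N := Finset.filter_subset _ _
  have hLS := hN₁ N hNN1 P Z hP hZ hZB hxk j le_rfl (N ^ r) (Nat.one_le_pow _ _ hN1)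
  have hHsub : H ⊆ Icc 1 (N ^ r) := by
    intro h hh
    rw [hHdef, Finset.mem_image] at hh
    obtain ⟨d, hd, rfl⟩ := hh
    rw [Fintype.mem_piFinset] at hd
    have hd' : ∀ i, 1 ≤ d i ∧ d i ≤ N := fun i => Finset.mem_Icc.1 (hDsub (hd i))
    rw [Finset.mem_Icc]
    refine ⟨Nat.one_le_iff_ne_zero.2 (Finset.prod_ne_zero_iff.2 fun i _ => ?_), ?_⟩
    · have := (hd' i).1; omega
    · calc ∏ i, d i ≤ ∏ _i : Fin r, N := Finset.prod_le_prod' fun i _ => (hd' i).2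
        _ = N ^ r := by simp
  have hcount := count_products P ω hω hne κ _ r j (N ^ r) hjk hκ hLS H hHsub (by
    intro h hh
    rw [hHdef, Finset.mem_image] at hh
    obtain ⟨d, hd, rfl⟩ := hh
    rw [Fintype.mem_piFinset] at hd
    exact ⟨d, fun i => (Finset.mem_filter.1 (hd i)).2, rfl⟩)
  have hmult := mult_bound D N r hDsub C ε hC1 hε hdiv
  rw [Finset.card_powersetCard] at hcount
  -- bound of H
  set k : ℝ := (P.card : ℝ) with hkdef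
  set R : ℝ := (N : ℝ) ^ r with hRdef
  have hR1 : 1 ≤ R := one_le_pow₀ hNr
  have hR0 : 0 < R := by linarith
  have hkj : R ≤ k ^ j := by
    calc R = (N : ℝ) ^ (r : ℝ) := by rw [hRdef, Real.rpow_natCast]
      _ ≤ (N : ℝ) ^ (c * j) := Real.rpow_le_rpow_of_exponent_le hNr hcj
      _ = ((N : ℝ) ^ c) ^ j := by rw [Real.rpow_mul hN0.le, Real.rpow_natCast]
      _ ≤ k ^ j := pow_le_pow_left₀ (by positivity) hck j
  have hRτ : 1 ≤ R ^ τ := Real.one_le_rpow hR1 hτ0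
  have hcast : (((N ^ r : ℕ) : ℝ)) = R := by push_cast; rfl
  rw [hcast] at hcount
  have hNE : 0 < (N : ℝ) ^ E := Real.rpow_pos_of_pos hN0 _
  have hkj0 : 0 < k ^ j := by positivity
  have hHk : (H.card : ℝ) * k ^ j ≤ (8 * cj * ((N : ℝ) ^ E * R ^ τ)) * k ^ j := by
    have h1 : (H.card : ℝ) * k ^ j ≤ (H.card : ℝ) * (cj * (P.card.choose j : ℝ)) :=
      mul_le_mul_of_nonneg_left (T.choose_lower P.card j h2j) (Nat.cast_nonneg _)
    have h2 : (H.card : ℝ) * (cj * (P.card.choose j : ℝ)) = cj * ((H.card : ℝ) * (P.card.choose j : ℝ)) := by ring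
    have h3 : cj * ((H.card : ℝ) * (P.card.choose j : ℝ)) ≤ cj * (4 * ((N : ℝ) ^ E * (R + R ^ τ * k ^ j))) :=
      mul_le_mul_of_nonneg_left hcount hcj0.le
    have h4 : R + R ^ τ * k ^ j ≤ 2 * (R ^ τ * k ^ j) := by
      have : k ^ j ≤ R ^ τ * k ^ j := le_mul_of_one_le_left hkj0.le hRτ
      linarith
    have h5 : cj * (4 * ((N : ℝ) ^ E * (R + R ^ τ * k ^ j))) ≤ cj * (4 * ((N : ℝ) ^ E * (2 * (R ^ τ * k ^ j)))) := by
      gcongr
    calc (H.card : ℝ) * k ^ j ≤ _ := h1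
      _ = _ := h2
      _ ≤ _ := h3
      _ ≤ _ := h5
      _ = _ := by ring
  have hH : (H.card : ℝ) ≤ 8 * cj * ((N : ℝ) ^ E * R ^ τ) := le_of_mul_le_mul_right hHk hkj0
  -- final
  have hC0 : 0 < C := by linarith
  have hpow : (C * (R ^ ε)) ^ r = C ^ r * (N : ℝ) ^ ((r : ℝ) * (r * ε)) := by
    rw [mul_pow, ← Real.rpow_natCast (R ^ ε) r, ← Real.rpow_mul hR0.le, hRdef, ← Real.rpow_natCast (N : ℝ) r, ← Real.rpow_mul hN0.le]
    refine congrArg (fun t => C ^ r * (N : ℝ) ^ t) ?_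
    ring
  have hRτ' : R ^ τ = (N : ℝ) ^ ((r : ℝ) * τ) := by
    rw [hRdef, ← Real.rpow_natCast (N : ℝ) r, ← Real.rpow_mul hN0.le]
  have hDr : (D.card : ℝ) ^ r ≤ ((N : ℝ) ^ (1 - x + η)) ^ r := by
    calc (D.card : ℝ) ^ r ≤ (H.card : ℝ) * (C * (R ^ ε)) ^ r := hmult
      _ ≤ (8 * cj * ((N : ℝ) ^ E * R ^ τ)) * (C * (R ^ ε)) ^ r :=
          mul_le_mul_of_nonneg_right hH (by positivity)
      _ = (8 * cj * C ^ r) * (N : ℝ) ^ (E + r * τ + (r : ℝ) * (r * ε)) := by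
          rw [hpow, hRτ', Real.rpow_add hN0, Real.rpow_add hN0]; ring
      _ ≤ (N : ℝ) ^ (r * (η / 2)) * (N : ℝ) ^ (E + r * τ + (r : ℝ) * (r * ε)) :=
          mul_le_mul_of_nonneg_right (hN₂ N hNN2) (by positivity)
      _ = (N : ℝ) ^ (r * (η / 2) + (E + r * τ + (r : ℝ) * (r * ε))) := (Real.rpow_add hN0 _ _).symm
      _ ≤ (N : ℝ) ^ ((1 - x + η) * r) := by
          refine Real.rpow_le_rpow_of_exponent_le hNr ?_
          have he : (r : ℝ) * (r * ε) = r * η / 8 := by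
            rw [hεdef]; field_simp
          rw [he]
          nlinarith [mul_le_mul_of_nonneg_left hτ3 hrpos.le]
      _ = ((N : ℝ) ^ (1 - x + η)) ^ r := by rw [Real.rpow_mul hN0.le, Real.rpow_natCast]
  exact le_of_pow_le_pow_left₀ (by omega) (by positivity) hDr

end Pool.Agent.Lib.MP_2c6f70_nt.RU
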