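import Pool.Agent.Lib.MP_2c6f70_nt.RU.T_Defs

/-!
# Block T: separation of variables

PROOF.  `φ y = exp (-y/2) * max 0 (1 - exp (-y))` is zero for `y ≤ 0`, continuous and integrable.  Its Fourier transform is
`F ξ = 1/((1/2 + 2 π i ξ)(3/2 + 2 π i ξ))`, and `‖F ξ‖ ≤ 4/(1 + (4 π ξ)²)`, the integral of which is `1`.
Fourier inversion for `y = log u`.
-/

set_option autoImplicit false

namespace Pool.Agent.Lib.MP_2c6f70_nt.RU.T

open MeasureTheory Set
open scoped FourierTransform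

/-- The function to be separated. -/
noncomputable def mPhi (y : ℝ) : ℂ := ((Real.exp (-y / 2) * max 0 (1 - Real.exp (-y)) : ℝ) : ℂ)

/-- The number `1/2 + 2 π i ξ`. -/
noncomputable def mA (ξ : ℝ) : ℂ := ⟨1 / 2, 2 * Real.pi * ξ⟩

/-- The Fourier transform of `mPhi`. -/
noncomputable def mF (ξ : ℝ) : ℂ := 1 / (mA ξ * (mA ξ + 1))

theorem mPhi_continuous : Continuous mPhi := by
  unfold mPhi
  fun_prop

theorem mPhi_eq (y : ℝ) : mPhi y = indicator (Ioi 0)
    (fun y : ℝ => Complex.exp ((-(1 / 2) : ℂ) * y) - Complex.exp ((-(3 / 2) : ℂ) * y)) y := by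
  by_cases hy : 0 < y
  · rw [indicator_of_mem (mem_Ioi.mpr hy)]
    unfold mPhi
    have h1 : (0 : ℝ) ≤ 1 - Real.exp (-y) := by
      have h2 : Real.exp (-y) ≤ 1 := Real.exp_le_one_iff.mpr (by linarith)
      linarith
    rw [max_eq_right h1]
    have h3 : Real.exp (-y / 2) * (1 - Real.exp (-y)) =
        Real.exp (-(1 / 2) * y) - Real.exp (-(3 / 2) * y) := by
      rw [mul_sub, mul_one, ← Real.exp_add]
      congr 2 <;> ring
    rw [h3]
    push_cast
    rfl
  · rw [indicator_of_notMem (by rw [mem_Ioi]; exact hy)]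
    unfold mPhi
    have h1 : 1 - Real.exp (-y) ≤ 0 := by
      have h2 : 1 ≤ Real.exp (-y) := Real.one_le_exp (by linarith [not_lt.mp hy])
      linarith
    rw [max_eq_left h1, mul_zero, Complex.ofReal_zero]

theorem mPhi_integrable : Integrable mPhi := by
  have h1 : mPhi = indicator (Ioi 0)
      (fun y : ℝ => Complex.exp ((-(1 / 2) : ℂ) * y) - Complex.exp ((-(3 / 2) : ℂ) * y)) :=
    funext mPhi_eq
  rw [h1, integrable_indicator_iff measurableSet_Ioi]
  refine Integrable.sub ?_ ?_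
  · exact integrableOn_exp_mul_complex_Ioi (a := (-(1 / 2) : ℂ)) (by norm_num) 0
  · exact integrableOn_exp_mul_complex_Ioi (a := (-(3 / 2) : ℂ)) (by norm_num) 0

theorem mA_ne (ξ : ℝ) : mA ξ ≠ 0 := by
  intro h
  have h1 := congrArg Complex.re h
  simp [mA] at h1

theorem mA1_ne (ξ : ℝ) : mA ξ + 1 ≠ 0 := by
  intro h
  have h1 := congrArg Complex.re h
  simp [mA] at h1
  norm_num at h1

theorem mPhi_fourier (ξ : ℝ) : 𝓕 mPhi ξ = mF ξ := by
  rw [Real.fourier_real_eq_integral_exp_smul]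
  have h1 : (fun v : ℝ => Complex.exp (↑(-2 * Real.pi * v * ξ) * Complex.I) • mPhi v) =
      indicator (Ioi 0) (fun v : ℝ => Complex.exp ((-mA ξ) * v) -
        Complex.exp ((-(mA ξ + 1)) * v)) := by
    funext v
    rw [mPhi_eq]
    by_cases hv : v ∈ Ioi (0 : ℝ)
    · rw [indicator_of_mem hv, indicator_of_mem hv, smul_eq_mul, mul_sub, ← Complex.exp_add,
        ← Complex.exp_add]
      have h2 : mA ξ = 1 / 2 + 2 * Real.pi * ξ * Complex.I := by
        apply Complex.ext <;> simp [mA]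
      rw [h2]
      congr 2 <;> push_cast <;> ring
    · rw [indicator_of_notMem hv, indicator_of_notMem hv, smul_zero]
  rw [h1, integral_indicator measurableSet_Ioi, integral_sub, integral_exp_mul_complex_Ioi,
    integral_exp_mul_complex_Ioi]
  · unfold mF
    have h3 := mA_ne ξ
    have h4 := mA1_ne ξ
    simp only [Complex.ofReal_zero, mul_zero, Complex.exp_zero]
    field_simp
    ring
  · simp [mA]
    norm_num
  · simp [mA]
  · exact integrableOn_exp_mul_complex_Ioi (by simp [mA]) 0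
  · exact integrableOn_exp_mul_complex_Ioi (by simp [mA]; norm_num) 0

theorem mF_norm (ξ : ℝ) : ‖mF ξ‖ ≤ 4 * (1 + (4 * Real.pi * ξ) ^ 2)⁻¹ := by
  unfold mF
  rw [norm_div, norm_one, norm_mul]
  have h1 : ‖mA ξ‖ ^ 2 = (1 + (4 * Real.pi * ξ) ^ 2) / 4 := by
    rw [← Complex.normSq_eq_norm_sq, Complex.normSq_apply]
    simp only [mA]
    ring
  have h2 : ‖mA ξ‖ ≤ ‖mA ξ + 1‖ := by
    refine le_of_sq_le_sq ?_ (norm_nonneg _)
    rw [← Complex.normSq_eq_norm_sq, ← Complex.normSq_eq_norm_sq, Complex.normSq_apply,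
      Complex.normSq_apply]
    simp only [mA, Complex.add_re, Complex.add_im, Complex.one_re, Complex.one_im]
    nlinarith
  have h3 : 0 < ‖mA ξ‖ := norm_pos_iff.mpr (mA_ne ξ)
  have h4 : ‖mA ξ‖ ^ 2 ≤ ‖mA ξ‖ * ‖mA ξ + 1‖ := by
    rw [sq]
    exact mul_le_mul_of_nonneg_left h2 h3.le
  have h5 : (4 : ℝ) * (1 + (4 * Real.pi * ξ) ^ 2)⁻¹ = 1 / ‖mA ξ‖ ^ 2 := by
    rw [h1]
    have h6 : (0 : ℝ) < 1 + (4 * Real.pi * ξ) ^ 2 := by positivity
    field_simp
  rw [h5]
  exact one_div_le_one_div_of_le (by positivity) h4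

theorem mF_continuous : Continuous mF := by
  unfold mF
  have h1 : Continuous mA := by
    have h2 : mA = fun ξ : ℝ => (1 / 2 + 2 * Real.pi * ξ * Complex.I : ℂ) := by
      funext ξ
      apply Complex.ext <;> simp [mA]
    rw [h2]
    fun_prop
  exact continuous_const.div (h1.mul (h1.add continuous_const)) fun ξ =>
    mul_ne_zero (mA_ne ξ) (mA1_ne ξ)

theorem mBound_integrable : Integrable fun ξ : ℝ => 4 * (1 + (4 * Real.pi * ξ) ^ 2)⁻¹ := by
  have h1 : (4 * Real.pi : ℝ) ≠ 0 := by positivity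
  exact ((integrable_inv_one_add_sq).comp_mul_left' h1).const_mul 4

theorem mF_integrable : Integrable mF :=
  mBound_integrable.mono' mF_continuous.aestronglyMeasurable
    (Filter.Eventually.of_forall fun ξ => mF_norm ξ)

theorem mF_integral : (∫ ξ, ‖mF ξ‖) ≤ 1 := by
  have h1 : (∫ ξ, ‖mF ξ‖) ≤ ∫ ξ : ℝ, 4 * (1 + (4 * Real.pi * ξ) ^ 2)⁻¹ :=
    integral_mono mF_integrable.norm mBound_integrable fun ξ => mF_norm ξ
  refine h1.trans (le_of_eq ?_)
  rw [integral_const_mul]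
  have h2 := Measure.integral_comp_mul_left (fun x : ℝ => (1 + x ^ 2)⁻¹) (4 * Real.pi)
  rw [h2, integral_univ_inv_one_add_sq]
  have h3 : (0 : ℝ) < Real.pi := Real.pi_pos
  rw [abs_of_pos (by positivity), smul_eq_mul]
  field_simp

theorem mellin_sep : ∃ F : ℝ → ℂ, Continuous F ∧ Integrable F ∧ (∫ ξ, ‖F ξ‖) ≤ 1 ∧ ∀ u : ℝ, 0 < u →
    ((max 0 (1 - 1 / u) : ℝ) : ℂ) = ((Real.sqrt u : ℝ) : ℂ) * ∫ ξ, F ξ * ee (ξ * Real.log u) := by
  refine ⟨mF, mF_continuous, mF_integrable, mF_integral, fun u hu => ?_⟩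
  have hF : 𝓕 mPhi = mF := funext mPhi_fourier
  have h1 : 𝓕⁻ (𝓕 mPhi) = mPhi :=
    mPhi_continuous.fourierInv_fourier_eq mPhi_integrable (by rw [hF]; exact mF_integrable)
  have h2 := congrFun h1 (Real.log u)
  rw [hF, Real.fourierInv_eq'] at h2
  have h3 : (fun v : ℝ => Complex.exp (↑(2 * Real.pi * inner ℝ v (Real.log u)) * Complex.I) • mF v) =
      fun v : ℝ => mF v * ee (v * Real.log u) := by
    funext v
    rw [smul_eq_mul, mul_comm]
    unfold ee
    congr 2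
    rw [Real.inner_apply]
    push_cast
    ring
  rw [h3] at h2
  rw [h2]
  unfold mPhi
  rw [← Complex.ofReal_mul]
  congr 1
  rw [← mul_assoc, Real.exp_half, Real.exp_neg, Real.exp_log hu, ← Real.sqrt_mul hu.le,
    mul_inv_cancel₀ hu.ne', Real.sqrt_one, one_mul, one_div]

end Pool.Agent.Lib.MP_2c6f70_nt.RU.T
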