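import Mathlib

/-!
# T_MelH: separation of the variables (helper34)

`max (1 - 1 / y) 0 = √y ∫ mk ξ e(ξ log y) dξ` for `y > 0`, `∫ |mk| ≤ 1` (Mellin transform on the line `1/2`).
-/

set_option autoImplicit false

open Set Filter Topology MeasureTheory
open scoped Real FourierTransform

namespace Pool.Agent.Lib.MP_2c6f70_nt.RU.TH

/-- the kernel `1 / (s (s + 1))`, `s = 1 / 2 + 2 π i ξ` -/
noncomputable def mk (ξ : ℝ) : ℂ := 1 / ((1 / 2 + 2 * π * ξ * Complex.I) * (3 / 2 + 2 * π * ξ * Complex.I))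

/-- the function whose Fourier transform is `mk` -/
noncomputable def mphi (u : ℝ) : ℝ := max (1 - Real.exp (-u)) 0 * Real.exp (-u / 2)

theorem continuous_mphi : Continuous mphi := by
  unfold mphi
  fun_prop

theorem mphi_neg {u : ℝ} (hu : u ≤ 0) : mphi u = 0 := by
  unfold mphi
  have : max (1 - Real.exp (-u)) 0 = 0 := by
    refine max_eq_right ?_
    have : 1 ≤ Real.exp (-u) := Real.one_le_exp (by linarith)
    linarith
  rw [this, zero_mul]

theorem mphi_pos {u : ℝ} (hu : 0 ≤ u) : mphi u = Real.exp (-(1 / 2) * u) - Real.exp (-(3 / 2) * u) := by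
  unfold mphi
  have : max (1 - Real.exp (-u)) 0 = 1 - Real.exp (-u) := by
    refine max_eq_left ?_
    have : Real.exp (-u) ≤ 1 := Real.exp_le_one_iff.mpr (by linarith)
    linarith
  rw [this, sub_mul, one_mul, ← Real.exp_add]
  congr 2 <;> ring

theorem mphi_ne (ξ : ℝ) (a : ℝ) (ha : 0 < a) : (a : ℂ) + 2 * π * ξ * Complex.I ≠ 0 := by
  intro h
  have := congrArg Complex.re h
  simp at this
  linarith

theorem integrable_mphi : Integrable (fun u => (mphi u : ℂ)) := by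
  have h1 : IntegrableOn (fun u : ℝ => (mphi u : ℂ)) (Ioi 0) := by
    have h2 : IntegrableOn (fun u : ℝ => Complex.exp ((-(1 / 2 : ℂ)) * u) - Complex.exp ((-(3 / 2 : ℂ)) * u)) (Ioi 0) :=
      (integrableOn_exp_mul_complex_Ioi (by norm_num) 0).sub (integrableOn_exp_mul_complex_Ioi (by norm_num) 0)
    refine h2.congr_fun (fun u hu => ?_) measurableSet_Ioi
    show _ = (mphi u : ℂ)
    rw [mphi_pos (le_of_lt hu)]
    push_cast
    rfl
  have h3 : IntegrableOn (fun u : ℝ => (mphi u : ℂ)) (Iic 0) := by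
    have h4 : IntegrableOn (fun _ : ℝ => (0 : ℂ)) (Iic 0) := integrableOn_zero
    refine h4.congr_fun (fun u hu => ?_) measurableSet_Iic
    show _ = (mphi u : ℂ)
    rw [mphi_neg hu]
    simp
  have h5 := h3.union h1
  rw [Iic_union_Ioi] at h5
  exact integrableOn_univ.mp h5

theorem fourier_mphi (ξ : ℝ) : 𝓕 (fun u => (mphi u : ℂ)) ξ = mk ξ := by
  rw [Real.fourier_real_eq_integral_exp_smul]
  have hsplit : ∫ u : ℝ, Complex.exp (↑(-2 * π * u * ξ) * Complex.I) • (mphi u : ℂ) =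
      ∫ u in Ioi (0 : ℝ), Complex.exp (↑(-2 * π * u * ξ) * Complex.I) • (mphi u : ℂ) := by
    symm
    refine setIntegral_eq_integral_of_forall_compl_eq_zero fun u hu => ?_
    rw [mem_Ioi, not_lt] at hu
    rw [mphi_neg hu]
    simp
  rw [hsplit]
  have h1 : ∫ u in Ioi (0 : ℝ), Complex.exp (↑(-2 * π * u * ξ) * Complex.I) • (mphi u : ℂ) =
      ∫ u in Ioi (0 : ℝ), (Complex.exp ((-((1 / 2 : ℂ) + 2 * π * ξ * Complex.I)) * u) -
        Complex.exp ((-((3 / 2 : ℂ) + 2 * π * ξ * Complex.I)) * u)) := by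
    refine setIntegral_congr_fun measurableSet_Ioi fun u hu => ?_
    show Complex.exp (↑(-2 * π * u * ξ) * Complex.I) • (mphi u : ℂ) = _
    rw [mphi_pos (le_of_lt hu), smul_eq_mul, Complex.ofReal_sub, mul_sub, Complex.ofReal_exp, Complex.ofReal_exp,
      ← Complex.exp_add, ← Complex.exp_add]
    congr 2
    · push_cast
      ring
    · push_cast
      ring
  have hr1 : (-((1 / 2 : ℂ) + 2 * π * ξ * Complex.I)).re < 0 := by
    simp
  have hr3 : (-((3 / 2 : ℂ) + 2 * π * ξ * Complex.I)).re < 0 := by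
    simp
  rw [h1, integral_sub (integrableOn_exp_mul_complex_Ioi hr1 0) (integrableOn_exp_mul_complex_Ioi hr3 0),
    integral_exp_mul_complex_Ioi hr1, integral_exp_mul_complex_Ioi hr3]
  have n1 : (1 / 2 : ℂ) + 2 * π * ξ * Complex.I ≠ 0 := by
    have := mphi_ne ξ (1 / 2) (by norm_num)
    push_cast at this
    exact this
  have n3 : (3 / 2 : ℂ) + 2 * π * ξ * Complex.I ≠ 0 := by
    have := mphi_ne ξ (3 / 2) (by norm_num)
    push_cast at this
    exact this
  unfold mk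
  simp only [Complex.ofReal_zero, mul_zero, Complex.exp_zero]
  rw [div_sub_div _ _ (neg_ne_zero.mpr n1) (neg_ne_zero.mpr n3), div_eq_div_iff
    (mul_ne_zero (neg_ne_zero.mpr n1) (neg_ne_zero.mpr n3)) (mul_ne_zero n1 n3)]
  ring

theorem norm_mk_le (ξ : ℝ) : ‖mk ξ‖ ≤ 4 * (1 + (4 * π * ξ) ^ 2)⁻¹ := by
  unfold mk
  rw [norm_div, norm_one, norm_mul]
  have h1 : ∀ a : ℝ, ‖((a : ℂ) + 2 * π * ξ * Complex.I)‖ ^ 2 = a ^ 2 + (2 * π * ξ) ^ 2 := by
    intro a
    have e : ((a : ℂ) + 2 * π * ξ * Complex.I) = (a : ℂ) + ((2 * π * ξ : ℝ) : ℂ) * Complex.I := by push_cast; ring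
    rw [e, Complex.sq_norm, Complex.normSq_add_mul_I]
  have h2 : ‖((1 / 2 : ℂ) + 2 * π * ξ * Complex.I)‖ ^ 2 = (1 / 2) ^ 2 + (2 * π * ξ) ^ 2 := by
    have := h1 (1 / 2)
    push_cast at this
    exact this
  have h3 : ‖((3 / 2 : ℂ) + 2 * π * ξ * Complex.I)‖ ^ 2 = (3 / 2) ^ 2 + (2 * π * ξ) ^ 2 := by
    have := h1 (3 / 2)
    push_cast at this
    exact this
  have h4 : ‖((1 / 2 : ℂ) + 2 * π * ξ * Complex.I)‖ ≤ ‖((3 / 2 : ℂ) + 2 * π * ξ * Complex.I)‖ := by
    refine le_of_sq_le_sq ?_ (norm_nonneg _)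
    rw [h2, h3]
    norm_num
  have h5 : 0 < ‖((1 / 2 : ℂ) + 2 * π * ξ * Complex.I)‖ := by
    rw [norm_pos_iff]
    have := mphi_ne ξ (1 / 2) (by norm_num)
    push_cast at this
    exact this
  have h6 : (1 / 2 : ℝ) ^ 2 + (2 * π * ξ) ^ 2 ≤
      ‖((1 / 2 : ℂ) + 2 * π * ξ * Complex.I)‖ * ‖((3 / 2 : ℂ) + 2 * π * ξ * Complex.I)‖ := by
    rw [← h2, sq]
    exact mul_le_mul_of_nonneg_left h4 h5.le
  have h7 : 4 * (1 + (4 * π * ξ) ^ 2)⁻¹ = 1 / ((1 / 2 : ℝ) ^ 2 + (2 * π * ξ) ^ 2) := by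
    have : 0 < 1 + (4 * π * ξ) ^ 2 := by positivity
    have h8 : (1 / 2 : ℝ) ^ 2 + (2 * π * ξ) ^ 2 = (1 + (4 * π * ξ) ^ 2) / 4 := by ring
    rw [h8]
    field_simp
  rw [h7]
  exact one_div_le_one_div_of_le (by positivity) h6

theorem continuous_mk : Continuous mk := by
  unfold mk
  refine continuous_const.div (by fun_prop) fun ξ => mul_ne_zero ?_ ?_
  · have := mphi_ne ξ (1 / 2) (by norm_num)
    push_cast at this
    exact this
  · have := mphi_ne ξ (3 / 2) (by norm_num)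
    push_cast at this
    exact this

theorem integrable_mbound : Integrable fun ξ : ℝ => 4 * (1 + (4 * π * ξ) ^ 2)⁻¹ := by
  have h1 : Integrable fun ξ : ℝ => (1 + (4 * π * ξ) ^ 2)⁻¹ :=
    integrable_inv_one_add_sq.comp_mul_left' (by positivity : (4 * π : ℝ) ≠ 0)
  exact h1.const_mul 4

theorem integrable_mk : Integrable mk :=
  integrable_mbound.mono' continuous_mk.aestronglyMeasurable (Filter.Eventually.of_forall norm_mk_le)

theorem integral_norm_mk : ∫ ξ : ℝ, ‖mk ξ‖ ≤ 1 := by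
  have h1 : ∫ ξ : ℝ, ‖mk ξ‖ ≤ ∫ ξ : ℝ, 4 * (1 + (4 * π * ξ) ^ 2)⁻¹ :=
    integral_mono integrable_mk.norm integrable_mbound norm_mk_le
  have h2 : ∫ ξ : ℝ, 4 * (1 + (4 * π * ξ) ^ 2)⁻¹ = 1 := by
    rw [integral_const_mul]
    have h3 := Measure.integral_comp_mul_left (fun ξ : ℝ => (1 + ξ ^ 2)⁻¹) (4 * π)
    rw [h3, integral_univ_inv_one_add_sq, smul_eq_mul, abs_of_pos (by positivity)]
    have := Real.pi_pos
    field_simp
  rw [h2] at h1
  exact h1

/-- **Separation of the variables.** -/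
theorem mellin_sep {y : ℝ} (hy : 0 < y) :
    ((max (1 - 1 / y) 0 : ℝ) : ℂ) = (Real.sqrt y : ℂ) * ∫ ξ : ℝ, mk ξ * Complex.exp (2 * π * Complex.I * ξ * Real.log y) := by
  have hF : 𝓕 (fun u => (mphi u : ℂ)) = mk := funext fourier_mphi
  have hc : Continuous fun u => (mphi u : ℂ) := Complex.continuous_ofReal.comp continuous_mphi
  have hinv := hc.fourierInv_fourier_eq integrable_mphi (by rw [hF]; exact integrable_mk)
  have h1 : 𝓕⁻ (𝓕 (fun u => (mphi u : ℂ))) (Real.log y) = (mphi (Real.log y) : ℂ) := congrFun hinv (Real.log y)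
  rw [hF, Real.fourierInv_eq'] at h1
  have h2 : ∫ ξ : ℝ, mk ξ * Complex.exp (2 * π * Complex.I * ξ * Real.log y) = (mphi (Real.log y) : ℂ) := by
    rw [← h1]
    refine integral_congr_ae (Filter.Eventually.of_forall fun ξ => ?_)
    show mk ξ * Complex.exp (2 * π * Complex.I * ξ * Real.log y) =
      Complex.exp (↑(2 * π * inner ℝ ξ (Real.log y)) * Complex.I) • mk ξ
    rw [smul_eq_mul, mul_comm]
    congr 2
    simp
    ring
  rw [h2, ← Complex.ofReal_mul]
  congr 1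
  unfold mphi
  have e1 : Real.exp (-Real.log y) = 1 / y := by
    rw [Real.exp_neg, Real.exp_log hy, one_div]
  have e2 : Real.exp (-Real.log y / 2) = (Real.sqrt y)⁻¹ := by
    rw [show -Real.log y / 2 = -(Real.log y / 2) by ring, Real.exp_neg]
    congr 1
    rw [← Real.log_sqrt hy.le, Real.exp_log (Real.sqrt_pos.mpr hy)]
  rw [e1, e2]
  have hs : Real.sqrt y ≠ 0 := (Real.sqrt_pos.mpr hy).ne'
  field_simp

end Pool.Agent.Lib.MP_2c6f70_nt.RU.TH
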