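import Pool.Agent.Lib.MP_2c6f70_nt.RU.T_Bas

/-!
# Block T: expansion of the sum over pairs `K ≠ K'` (combinatorial identity)

`C_j = P.powersetCard j`.  PROOF of `expand`: for fixed `K, K' ∈ C_j`, the inner sum of the right side over `G ⊆ K ∩ K'`, `#G < j`, `D ⊆ G`, `C ⊆ (K ∩ K') \ G` of
`(-1)^#C e D a_D(K \ G) a_D(K' \ G)` is: `∑_{C ⊆ (K∩K') \ G} (-1)^#C = [G = K ∩ K']` (`Finset.sum_powerset_neg_one_pow_card`), so only `G = K ∩ K'` remains, and `#(K ∩ K') < j` iff `K ≠ K'`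
(both have `j` elements: `Finset.eq_of_subset_of_card_le`).  For `G = K ∩ K'`: `K \ G = K \ K'`, `K' \ G = K' \ K`, `a_D(K \ K') a_D(K' \ K) = a_D(symmDiff K K')` (`Finset.prod_union`, disjoint;
`symmDiff K K' = (K \ K') ∪ (K' \ K)`).  On the right side all the sums are finite: move the sums over `K`, `K'` outside (`Finset.sum_comm`, or write the conditions `G ∪ C ⊆ K` as
indicators; `Finset.sum_filter`), `(∑_K ...) * (∑_K' ...) = ∑_K ∑_K' ...` (`Finset.sum_mul_sum`).  Conditions: `G ∪ C ⊆ K`, `G ∪ C ⊆ K'`, `C ∩ G = ∅` iff `G ⊆ K ∩ K'` and `C ⊆ (K ∩ K') \ G`.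
`count4`: `∑_{G ⊆ K} ∑_{D ⊆ G} ∑_{C ⊆ K \ G} 1 = ∑_{G ⊆ K} 2^#G 2^(#K - #G) = 4^#K`.
-/

set_option autoImplicit false

namespace Pool.Agent.Lib.MP_2c6f70_nt.RU.T

open Finset

private theorem ofa_sign (P H G : Finset ℕ) (hH : H ⊆ P) :
    ∑ C ∈ (P \ G).powerset, ((-1 : ℂ) ^ C.card * (if G ∪ C ⊆ H then 1 else 0)) = if G = H then 1 else 0 := by
  classical
  by_cases hG : G ⊆ H
  · have h1 : ∑ C ∈ (P \ G).powerset, ((-1 : ℂ) ^ C.card * (if G ∪ C ⊆ H then 1 else 0)) =
        ∑ C ∈ (H \ G).powerset, (-1 : ℂ) ^ C.card := by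
      simp only [mul_ite, mul_one, mul_zero]
      rw [← Finset.sum_filter]
      refine Finset.sum_congr (Finset.ext fun C => ?_) fun _ _ => rfl
      rw [Finset.mem_filter, Finset.mem_powerset, Finset.mem_powerset, Finset.union_subset_iff, Finset.subset_sdiff,
        Finset.subset_sdiff]
      exact ⟨fun h => ⟨h.2.2, h.1.2⟩, fun h => ⟨⟨h.1.trans hH, h.2⟩, hG, h.1⟩⟩
    rw [h1]
    have h2 := Finset.sum_powerset_neg_one_pow_card (x := H \ G)
    have h3 : ∑ C ∈ (H \ G).powerset, (-1 : ℂ) ^ C.card = ((∑ C ∈ (H \ G).powerset, (-1 : ℤ) ^ C.card : ℤ) : ℂ) := by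
      push_cast
      rfl
    rw [h3, h2]
    by_cases hGH : G = H
    · rw [if_pos hGH, if_pos (by rw [hGH, Finset.sdiff_self])]
      exact Int.cast_one
    · rw [if_neg hGH, if_neg fun h => hGH (hG.antisymm (Finset.sdiff_eq_empty_iff_subset.1 h))]
      exact Int.cast_zero
  · rw [if_neg fun h => hG h.le]
    refine Finset.sum_eq_zero fun C _ => ?_
    rw [if_neg fun h => hG ((Finset.subset_union_left).trans h), mul_zero]

private theorem ofa_pair (P : Finset ℕ) (j : ℕ) (e : Finset ℕ → ℂ) (a : Finset ℕ → ℕ → ℂ) (u u' : ℂ) {K K' : Finset ℕ}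
    (hK : K ∈ P.powersetCard j) (hK' : K' ∈ P.powersetCard j) :
    ∑ G ∈ P.powerset.filter (fun G => G.card < j), ∑ D ∈ G.powerset, ∑ C ∈ (P \ G).powerset,
        (-1) ^ C.card * e D * (if G ∪ C ⊆ K then u * ∏ p ∈ K \ G, a D p else 0) *
          (if G ∪ C ⊆ K' then u' * ∏ p ∈ K' \ G, a D p else 0) =
      if K ≠ K' then u * u' * ∑ D ∈ (K ∩ K').powerset, e D * ∏ p ∈ symmDiff K K', a D p else 0 := by
  classical
  obtain ⟨hKP, hKj⟩ := Finset.mem_powersetCard.1 hK
  obtain ⟨hKP', hKj'⟩ := Finset.mem_powersetCard.1 hK'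
  have h1 : ∀ G ∈ P.powerset.filter (fun G => G.card < j), ∑ D ∈ G.powerset, ∑ C ∈ (P \ G).powerset,
        (-1) ^ C.card * e D * (if G ∪ C ⊆ K then u * ∏ p ∈ K \ G, a D p else 0) *
          (if G ∪ C ⊆ K' then u' * ∏ p ∈ K' \ G, a D p else 0) =
      if G = K ∩ K' then u * u' * ∑ D ∈ (K ∩ K').powerset, e D * ∏ p ∈ symmDiff K K', a D p else 0 := by
    intro G _
    have h2 : ∀ D ∈ G.powerset, ∑ C ∈ (P \ G).powerset,
        (-1) ^ C.card * e D * (if G ∪ C ⊆ K then u * ∏ p ∈ K \ G, a D p else 0) *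
          (if G ∪ C ⊆ K' then u' * ∏ p ∈ K' \ G, a D p else 0) =
        e D * (u * ∏ p ∈ K \ G, a D p) * (u' * ∏ p ∈ K' \ G, a D p) * (if G = K ∩ K' then 1 else 0) := by
      intro D _
      rw [← ofa_sign P (K ∩ K') G ((Finset.inter_subset_left).trans hKP), Finset.mul_sum]
      refine Finset.sum_congr rfl fun C _ => ?_
      by_cases h3 : G ∪ C ⊆ K
      · by_cases h4 : G ∪ C ⊆ K'
        · rw [if_pos h3, if_pos h4, if_pos (Finset.subset_inter h3 h4)]
          ring
        · have h7 : ¬ (G ∪ C ⊆ K ∩ K') := fun h => h4 (h.trans Finset.inter_subset_right)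
          rw [if_neg h4, if_neg h7]
          ring
      · have h7 : ¬ (G ∪ C ⊆ K ∩ K') := fun h => h3 (h.trans Finset.inter_subset_left)
        rw [if_neg h3, if_neg h7]
        ring
    rw [Finset.sum_congr rfl h2]
    by_cases hG : G = K ∩ K'
    · subst hG
      simp only [↓reduceIte]
      rw [Finset.mul_sum]
      refine Finset.sum_congr rfl fun D _ => ?_
      have h5 : ∏ p ∈ symmDiff K K', a D p = (∏ p ∈ K \ (K ∩ K'), a D p) * ∏ p ∈ K' \ (K ∩ K'), a D p := by
        rw [Finset.sdiff_inter_self_left, Finset.sdiff_inter_self_right, ← Finset.prod_union disjoint_sdiff_sdiff]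
        rfl
      rw [h5]
      ring
    · simp only [if_neg hG, mul_zero]
      exact Finset.sum_const_zero
  rw [Finset.sum_congr rfl h1, Finset.sum_ite_eq']
  have h6 : K ∩ K' ∈ P.powerset.filter (fun G => G.card < j) ↔ K ≠ K' := by
    rw [Finset.mem_filter, Finset.mem_powerset]
    constructor
    · rintro ⟨-, h⟩ rfl
      rw [Finset.inter_self, hKj] at h
      exact lt_irrefl _ h
    · intro h
      refine ⟨(Finset.inter_subset_left).trans hKP, ?_⟩
      by_contra h7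
      have h8 : K ∩ K' = K := Finset.eq_of_subset_of_card_le Finset.inter_subset_left (by rw [hKj]; omega)
      exact h (Finset.eq_of_subset_of_card_le (Finset.inter_eq_left.1 h8) (by rw [hKj, hKj']))
  by_cases hne : K ≠ K'
  · rw [if_pos hne, if_pos (h6.2 hne)]
  · rw [if_neg hne, if_neg fun h => hne (h6.1 h)]

/-- Expansion: `a D p` arbitrary, `A D S = ∏ p ∈ S, a D p`. -/
theorem expand (P : Finset ℕ) (j : ℕ) (e : Finset ℕ → ℂ) (a : Finset ℕ → ℕ → ℂ) (β β' : Finset ℕ → ℂ) :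
    ∑ K ∈ P.powersetCard j, ∑ K' ∈ (P.powersetCard j).filter (fun K' => K ≠ K'),
        β K * β' K' * ∑ D ∈ (K ∩ K').powerset, e D * ∏ p ∈ symmDiff K K', a D p =
      ∑ G ∈ P.powerset.filter (fun G => G.card < j), ∑ D ∈ G.powerset, ∑ C ∈ (P \ G).powerset,
        (-1) ^ C.card * e D *
          (∑ K ∈ (P.powersetCard j).filter (fun K => G ∪ C ⊆ K), β K * ∏ p ∈ K \ G, a D p) *
          (∑ K' ∈ (P.powersetCard j).filter (fun K => G ∪ C ⊆ K), β' K' * ∏ p ∈ K' \ G, a D p) := by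
  classical
  have h1 : ∀ (G D C : Finset ℕ), (-1) ^ C.card * e D *
          (∑ K ∈ (P.powersetCard j).filter (fun K => G ∪ C ⊆ K), β K * ∏ p ∈ K \ G, a D p) *
          (∑ K' ∈ (P.powersetCard j).filter (fun K => G ∪ C ⊆ K), β' K' * ∏ p ∈ K' \ G, a D p) =
      ∑ q ∈ P.powersetCard j ×ˢ P.powersetCard j, (-1) ^ C.card * e D *
        (if G ∪ C ⊆ q.1 then β q.1 * ∏ p ∈ q.1 \ G, a D p else 0) *
          (if G ∪ C ⊆ q.2 then β' q.2 * ∏ p ∈ q.2 \ G, a D p else 0) := by
    intro G D C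
    rw [Finset.sum_filter, Finset.sum_filter, mul_assoc, Finset.sum_mul_sum, Finset.sum_product, Finset.mul_sum]
    refine Finset.sum_congr rfl fun K _ => ?_
    rw [Finset.mul_sum]
    refine Finset.sum_congr rfl fun K' _ => ?_
    rw [← mul_assoc]
  simp only [h1]
  have h2 : ∀ G : Finset ℕ, ∑ D ∈ G.powerset, ∑ C ∈ (P \ G).powerset, ∑ q ∈ P.powersetCard j ×ˢ P.powersetCard j,
      (-1) ^ C.card * e D *
        (if G ∪ C ⊆ q.1 then β q.1 * ∏ p ∈ q.1 \ G, a D p else 0) *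
          (if G ∪ C ⊆ q.2 then β' q.2 * ∏ p ∈ q.2 \ G, a D p else 0) =
      ∑ q ∈ P.powersetCard j ×ˢ P.powersetCard j, ∑ D ∈ G.powerset, ∑ C ∈ (P \ G).powerset,
      (-1) ^ C.card * e D *
        (if G ∪ C ⊆ q.1 then β q.1 * ∏ p ∈ q.1 \ G, a D p else 0) *
          (if G ∪ C ⊆ q.2 then β' q.2 * ∏ p ∈ q.2 \ G, a D p else 0) := by
    intro G
    rw [Finset.sum_comm (s := P.powersetCard j ×ˢ P.powersetCard j)]
    refine Finset.sum_congr rfl fun D _ => ?_
    exact Finset.sum_comm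
  simp only [h2]
  rw [Finset.sum_comm (t := P.powersetCard j ×ˢ P.powersetCard j), Finset.sum_product]
  refine Finset.sum_congr rfl fun K hK => ?_
  rw [Finset.sum_filter]
  refine Finset.sum_congr rfl fun K' hK' => ?_
  rw [ofa_pair P j e a (β K) (β' K') hK hK']

/-- The number of triples. -/
theorem count4 (P : Finset ℕ) (j : ℕ) (f : Finset ℕ → ℝ) (hf : ∀ K, 0 ≤ f K) :
    ∑ G ∈ P.powerset.filter (fun G => G.card < j), ∑ _D ∈ G.powerset, ∑ C ∈ (P \ G).powerset,
        ∑ K ∈ (P.powersetCard j).filter (fun K => G ∪ C ⊆ K), f K ≤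
      4 ^ j * ∑ K ∈ P.powersetCard j, f K := by
  classical
  have h1 : ∑ G ∈ P.powerset.filter (fun G => G.card < j), ∑ _D ∈ G.powerset, ∑ C ∈ (P \ G).powerset,
        ∑ K ∈ (P.powersetCard j).filter (fun K => G ∪ C ⊆ K), f K =
      ∑ K ∈ P.powersetCard j, ∑ G ∈ P.powerset.filter (fun G => G.card < j), ∑ _D ∈ G.powerset,
        ∑ C ∈ (P \ G).powerset, if G ∪ C ⊆ K then f K else 0 := by
    rw [Finset.sum_comm (s := P.powersetCard j)]
    refine Finset.sum_congr rfl fun G _ => ?_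
    rw [Finset.sum_comm (s := P.powersetCard j)]
    refine Finset.sum_congr rfl fun D _ => ?_
    rw [Finset.sum_comm (s := P.powersetCard j)]
    refine Finset.sum_congr rfl fun C _ => ?_
    rw [Finset.sum_filter]
  rw [h1, Finset.mul_sum]
  refine Finset.sum_le_sum fun K hK => ?_
  obtain ⟨hKP, hKj⟩ := Finset.mem_powersetCard.1 hK
  have h2 : ∀ G ∈ P.powerset.filter (fun G => G.card < j), ∑ _D ∈ G.powerset,
        ∑ C ∈ (P \ G).powerset, (if G ∪ C ⊆ K then f K else 0) ≤ if G ⊆ K then 2 ^ j * f K else 0 := by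
    intro G _
    by_cases hG : G ⊆ K
    · rw [if_pos hG, Finset.sum_const, Finset.card_powerset, nsmul_eq_mul, ← Finset.sum_filter, Finset.sum_const,
        nsmul_eq_mul]
      have h3 : ((P \ G).powerset.filter fun C => G ∪ C ⊆ K).card ≤ 2 ^ (K \ G).card := by
        rw [← Finset.card_powerset]
        refine Finset.card_le_card fun C hC => ?_
        rw [Finset.mem_filter, Finset.mem_powerset, Finset.union_subset_iff, Finset.subset_sdiff] at hC
        rw [Finset.mem_powerset, Finset.subset_sdiff]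
        exact ⟨hC.2.2, hC.1.2⟩
      have h4 : G.card + (K \ G).card = j := by
        rw [Finset.card_sdiff_of_subset hG, hKj]
        have := Finset.card_le_card hG
        omega
      have h5 : (((P \ G).powerset.filter fun C => G ∪ C ⊆ K).card : ℝ) ≤ 2 ^ (K \ G).card := by exact_mod_cast h3
      calc ((2 ^ G.card : ℕ) : ℝ) * ((((P \ G).powerset.filter fun C => G ∪ C ⊆ K).card : ℝ) * f K)
          ≤ ((2 ^ G.card : ℕ) : ℝ) * (2 ^ (K \ G).card * f K) :=
            mul_le_mul_of_nonneg_left (mul_le_mul_of_nonneg_right h5 (hf K)) (Nat.cast_nonneg _)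
        _ = 2 ^ j * f K := by
            rw [← h4, pow_add]
            push_cast
            ring
    · rw [if_neg hG]
      refine le_of_eq (Finset.sum_eq_zero fun D _ => Finset.sum_eq_zero fun C _ => ?_)
      rw [if_neg fun h => hG ((Finset.subset_union_left).trans h)]
  refine (Finset.sum_le_sum h2).trans ?_
  rw [← Finset.sum_filter, Finset.sum_const, nsmul_eq_mul]
  have h6 : ((P.powerset.filter (fun G => G.card < j)).filter fun G => G ⊆ K).card ≤ 2 ^ j := by
    rw [← hKj, ← Finset.card_powerset]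
    refine Finset.card_le_card fun G hG => ?_
    rw [Finset.mem_filter] at hG
    exact Finset.mem_powerset.2 hG.2
  have h7 : (((P.powerset.filter (fun G => G.card < j)).filter fun G => G ⊆ K).card : ℝ) ≤ 2 ^ j := by exact_mod_cast h6
  calc (((P.powerset.filter (fun G => G.card < j)).filter fun G => G ⊆ K).card : ℝ) * (2 ^ j * f K)
      ≤ 2 ^ j * (2 ^ j * f K) := mul_le_mul_of_nonneg_right h7 (mul_nonneg (by positivity) (hf K))
    _ = 4 ^ j * f K := by
      rw [← mul_assoc, ← mul_pow]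
      norm_num

end Pool.Agent.Lib.MP_2c6f70_nt.RU.T
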