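import Pool.Agent.Lib.MP_2c6f70_nt.RU.T_OfA

/-!
# Block T: bound of the off diagonal sum

PROOF of `inner_bound` (one triple `G`, `C`, `D`): with `i = j - #(G ∪ C)`, `K = (G ∪ C) ∪ K₁` disjoint, `K₁ ∈ P.powersetCard i` (bijection `K ↦ K \ (G ∪ C)` from
`{K ∈ C_j, G ∪ C ⊆ K}` to `{K₁ ∈ C_i, Disjoint K₁ (G ∪ C)}`; if `#(G ∪ C) > j` both sides are zero), `K \ G = C ∪ K₁` (disjoint as `C ∩ G = ∅`):
`∏_{p ∈ K \ G} (b p (mm D l | p)) = (∏_{p ∈ C} b p (mm D l | p)) * (∏_{p ∈ K₁} b p (mm D | p)) * chi K₁ l`.  The first factor does not depend on `K` and has norm `≤ 1`.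
So the norm of the sum is `≤ ‖∑_{K₁ ∈ C_i} γ K₁ chi K₁ l‖`, `γ K₁ = (if Disjoint K₁ (G ∪ C) then β (G ∪ C ∪ K₁) * ∏_{p ∈ K₁} b p (mm D | p) else 0)`, and `LSW P i L M` applies; `‖γ K₁‖ ≤ ‖β (G ∪ C ∪ K₁)‖`.
PROOF of `off_bound`: `expand` with `a D p = b p * (mm D * l | p)` (`chi M (mm D * l) * ∏ b p = ∏_{p ∈ M} a D p`, `Finset.prod_mul_distrib`), `β' = conj β`.  Then
`‖∑_l l^(-1/2) v_l ∑_{G,D,C} ... A_l A'_l‖ ≤ ∑_{G,D,C} ∑_l l^(-1/2) ‖A_l‖ ‖A'_l‖ ≤ ∑_{G,D,C} ∑_l l^(-1/2) (‖A_l‖² + ‖A'_l‖²)/2 ≤ ∑_{G,D,C} M ∑_{K ⊇ G ∪ C} ‖β K‖²` by `inner_bound` for `β` and for `conj β`,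
`≤ 4^j M ∑ ‖β K‖²` by `count4`.  (`0 ≤ M`.)
-/

set_option autoImplicit false

namespace Pool.Agent.Lib.MP_2c6f70_nt.RU.T

open Finset

private theorem sum_reindex {E : Type*} [AddCommMonoid E] (P : Finset ℕ) (j : ℕ) (U : Finset ℕ) (hU : U ⊆ P) (hUj : U.card ≤ j)
    (f : Finset ℕ → E) :
    ∑ K ∈ (P.powersetCard j).filter (fun K => U ⊆ K), f K =
      ∑ K₁ ∈ (P.powersetCard (j - U.card)).filter (fun K₁ => Disjoint K₁ U), f (U ∪ K₁) := by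
  refine Finset.sum_bij' (fun K _ => K \ U) (fun K₁ _ => U ∪ K₁) ?_ ?_ ?_ ?_ ?_
  · intro K hK
    rw [mem_filter, mem_powersetCard] at hK
    rw [mem_filter, mem_powersetCard]
    refine ⟨⟨sdiff_subset.trans hK.1.1, ?_⟩, disjoint_sdiff_self_left⟩
    rw [card_sdiff_of_subset hK.2, hK.1.2]
  · intro K hK
    rw [mem_filter, mem_powersetCard] at hK
    rw [mem_filter, mem_powersetCard]
    refine ⟨⟨union_subset hU hK.1.1, ?_⟩, subset_union_left⟩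
    rw [card_union_of_disjoint hK.2.symm, hK.1.2]
    omega
  · intro K hK
    rw [mem_filter] at hK
    exact union_sdiff_of_subset hK.2
  · intro K hK
    rw [mem_filter] at hK
    rw [union_sdiff_left]
    exact sdiff_eq_self_of_disjoint hK.2
  · intro K hK
    rw [mem_filter] at hK
    rw [union_sdiff_of_subset hK.2]

theorem inner_bound (P : Finset ℕ) (j L : ℕ) (M : ℝ) (hM0 : 0 ≤ M) (hM : ∀ i ≤ j, LSW P i L M)
    (b : ℕ → ℂ) (hb : ∀ p, ‖b p‖ ≤ 1) (β : Finset ℕ → ℂ) (G D C : Finset ℕ) (hG : G ⊆ P) (hC : C ⊆ P \ G) :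
    ∑ l ∈ Icc 1 L, (l : ℝ) ^ (-(1 / 2) : ℝ) *
        ‖∑ K ∈ (P.powersetCard j).filter (fun K => G ∪ C ⊆ K),
          β K * ∏ p ∈ K \ G, (b p * ((jacobiSym ((mm D : ℤ) * (l : ℤ)) p : ℤ) : ℂ))‖ ^ 2 ≤
      M * ∑ K ∈ (P.powersetCard j).filter (fun K => G ∪ C ⊆ K), ‖β K‖ ^ 2 := by
  classical
  have hCP : C ⊆ P := hC.trans sdiff_subset
  have hGC : Disjoint C G := disjoint_of_subset_left hC disjoint_sdiff_self_left
  have hUP : G ∪ C ⊆ P := union_subset hG hCP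
  by_cases hU : (G ∪ C).card ≤ j
  swap
  · have hempty : (P.powersetCard j).filter (fun K => G ∪ C ⊆ K) = ∅ := by
      rw [filter_eq_empty_iff]
      intro K hK hsub
      rw [mem_powersetCard] at hK
      exact hU ((card_le_card hsub).trans_eq hK.2)
    rw [hempty]
    simp
  -- the reindexed sums
  have hfac : ∀ l : ℕ, ∀ p, b p * ((jacobiSym ((mm D : ℤ) * (l : ℤ)) p : ℤ) : ℂ)
      = (b p * ((jacobiSym (mm D : ℤ) p : ℤ) : ℂ)) * ((jacobiSym (l : ℤ) p : ℤ) : ℂ) := by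
    intro l p
    rw [jacobiSym.mul_left]
    push_cast
    ring
  set γ : Finset ℕ → ℂ := fun K₁ =>
    if Disjoint K₁ (G ∪ C) then β (G ∪ C ∪ K₁) * ∏ p ∈ K₁, (b p * ((jacobiSym (mm D : ℤ) p : ℤ) : ℂ)) else 0 with hγ
  have hJ : ∀ a : ℤ, ∀ p : ℕ, ‖((jacobiSym a p : ℤ) : ℂ)‖ ≤ 1 := by
    intro a p
    rcases jacobiSym.trichotomy a p with h | h | h <;> rw [h] <;> simp
  have hprodle : ∀ (S : Finset ℕ) (g : ℕ → ℂ), (∀ p, ‖g p‖ ≤ 1) → ‖∏ p ∈ S, g p‖ ≤ 1 := by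
    intro S g hg
    rw [norm_prod]
    exact Finset.prod_le_one (fun p _ => norm_nonneg _) (fun p _ => hg p)
  have hmulle : ∀ x y : ℂ, ‖x‖ ≤ 1 → ‖y‖ ≤ 1 → ‖x * y‖ ≤ 1 := by
    intro x y hx hy
    rw [norm_mul]
    exact mul_le_one₀ hx (norm_nonneg _) hy
  have hS : ∀ l : ℕ, ∑ K ∈ (P.powersetCard j).filter (fun K => G ∪ C ⊆ K),
          β K * ∏ p ∈ K \ G, (b p * ((jacobiSym ((mm D : ℤ) * (l : ℤ)) p : ℤ) : ℂ))
      = (∏ p ∈ C, (b p * ((jacobiSym ((mm D : ℤ) * (l : ℤ)) p : ℤ) : ℂ))) *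
        ∑ K₁ ∈ P.powersetCard (j - (G ∪ C).card), γ K₁ * ((chi K₁ (l : ℤ) : ℤ) : ℂ) := by
    intro l
    rw [sum_reindex P j (G ∪ C) hUP hU, Finset.mul_sum, Finset.sum_filter]
    refine Finset.sum_congr rfl fun K₁ _ => ?_
    simp only [hγ]
    split_ifs with hd
    · have h1 : (G ∪ C ∪ K₁) \ G = C ∪ K₁ := by
        ext p
        have hd' := Finset.disjoint_left.1 hd
        have hGC' := Finset.disjoint_left.1 hGC
        simp only [mem_sdiff, mem_union] at *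
        constructor
        · rintro ⟨(h2 | h2) | h2, h3⟩
          · exact absurd h2 h3
          · exact Or.inl h2
          · exact Or.inr h2
        · rintro (h2 | h2)
          · exact ⟨Or.inl (Or.inr h2), hGC' h2⟩
          · exact ⟨Or.inr h2, fun h3 => hd' h2 (Or.inl h3)⟩
      have h2 : Disjoint C K₁ := by
        refine Disjoint.symm (disjoint_of_subset_right ?_ hd)
        exact subset_union_right
      rw [h1, Finset.prod_union h2]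
      have h3 : ∏ p ∈ K₁, (b p * ((jacobiSym ((mm D : ℤ) * (l : ℤ)) p : ℤ) : ℂ))
          = (∏ p ∈ K₁, (b p * ((jacobiSym (mm D : ℤ) p : ℤ) : ℂ))) * ((chi K₁ (l : ℤ) : ℤ) : ℂ) := by
        simp only [hfac, Finset.prod_mul_distrib, chi]
        push_cast
        ring
      rw [h3]; ring
    · simp
  have hle : ∀ l ∈ Icc 1 L, (l : ℝ) ^ (-(1 / 2) : ℝ) *
        ‖∑ K ∈ (P.powersetCard j).filter (fun K => G ∪ C ⊆ K),
          β K * ∏ p ∈ K \ G, (b p * ((jacobiSym ((mm D : ℤ) * (l : ℤ)) p : ℤ) : ℂ))‖ ^ 2 ≤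
      (l : ℝ) ^ (-(1 / 2) : ℝ) *
        ‖∑ K₁ ∈ P.powersetCard (j - (G ∪ C).card), γ K₁ * ((chi K₁ (l : ℤ) : ℤ) : ℂ)‖ ^ 2 := by
    intro l _
    rw [hS l, norm_mul]
    have h1 : ‖∏ p ∈ C, (b p * ((jacobiSym ((mm D : ℤ) * (l : ℤ)) p : ℤ) : ℂ))‖ ≤ 1 :=
      hprodle _ _ fun p => hmulle _ _ (hb p) (hJ _ _)
    have h2 : ‖∏ p ∈ C, (b p * ((jacobiSym ((mm D : ℤ) * (l : ℤ)) p : ℤ) : ℂ))‖ *
        ‖∑ K₁ ∈ P.powersetCard (j - (G ∪ C).card), γ K₁ * ((chi K₁ (l : ℤ) : ℤ) : ℂ)‖ ≤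
        ‖∑ K₁ ∈ P.powersetCard (j - (G ∪ C).card), γ K₁ * ((chi K₁ (l : ℤ) : ℤ) : ℂ)‖ :=
      mul_le_of_le_one_left (norm_nonneg _) h1
    have h3 : (0 : ℝ) ≤ (l : ℝ) ^ (-(1 / 2) : ℝ) := by positivity
    gcongr
  refine (Finset.sum_le_sum hle).trans ((hM _ (Nat.sub_le _ _) γ).trans ?_)
  refine mul_le_mul_of_nonneg_left ?_ hM0
  rw [sum_reindex P j (G ∪ C) hUP hU, Finset.sum_filter]
  refine Finset.sum_le_sum fun K₁ _ => ?_
  simp only [hγ]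
  split_ifs with hd
  · rw [norm_mul]
    have h1 : ‖∏ p ∈ K₁, (b p * ((jacobiSym (mm D : ℤ) p : ℤ) : ℂ))‖ ≤ 1 :=
      hprodle _ _ fun p => hmulle _ _ (hb p) (hJ _ _)
    have h2 : ‖β (G ∪ C ∪ K₁)‖ * ‖∏ p ∈ K₁, (b p * ((jacobiSym (mm D : ℤ) p : ℤ) : ℂ))‖ ≤ ‖β (G ∪ C ∪ K₁)‖ :=
      mul_le_of_le_one_right (norm_nonneg _) h1
    gcongr
  · simp

theorem off_bound (P : Finset ℕ) (j L : ℕ) (M : ℝ) (hM0 : 0 ≤ M) (hM : ∀ i ≤ j, LSW P i L M)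
    (b : ℕ → ℂ) (hb : ∀ p, ‖b p‖ ≤ 1) (e : Finset ℕ → ℂ) (he : ∀ D, ‖e D‖ ≤ 1) (v : ℕ → ℂ) (hv : ∀ l, ‖v l‖ ≤ 1)
    (β : Finset ℕ → ℂ) :
    ‖∑ l ∈ Icc 1 L, (((l : ℝ) ^ (-(1 / 2) : ℝ) : ℝ) : ℂ) * v l *
        ∑ K ∈ P.powersetCard j, ∑ K' ∈ (P.powersetCard j).filter (fun K' => K ≠ K'),
          β K * (starRingEnd ℂ) (β K') * ∑ D ∈ (K ∩ K').powerset,
            e D * (((chi (symmDiff K K') ((mm D : ℤ) * (l : ℤ)) : ℤ) : ℂ) * ∏ p ∈ symmDiff K K', b p)‖ ≤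
      4 ^ j * M * ∑ K ∈ P.powersetCard j, ‖β K‖ ^ 2 := by
  classical
  set a : ℕ → Finset ℕ → ℕ → ℂ := fun l D p => b p * ((jacobiSym ((mm D : ℤ) * (l : ℤ)) p : ℤ) : ℂ) with ha
  set A : ℕ → Finset ℕ → Finset ℕ → Finset ℕ → (Finset ℕ → ℂ) → ℂ := fun l G D C θ =>
    ∑ K ∈ (P.powersetCard j).filter (fun K => G ∪ C ⊆ K), θ K * ∏ p ∈ K \ G, a l D p with hA
  set β' : Finset ℕ → ℂ := fun K => (starRingEnd ℂ) (β K) with hβ'
  have hexp : ∀ l : ℕ, ∑ K ∈ P.powersetCard j, ∑ K' ∈ (P.powersetCard j).filter (fun K' => K ≠ K'),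
          β K * (starRingEnd ℂ) (β K') * ∑ D ∈ (K ∩ K').powerset,
            e D * (((chi (symmDiff K K') ((mm D : ℤ) * (l : ℤ)) : ℤ) : ℂ) * ∏ p ∈ symmDiff K K', b p)
      = ∑ G ∈ P.powerset.filter (fun G => G.card < j), ∑ D ∈ G.powerset, ∑ C ∈ (P \ G).powerset,
        (-1) ^ C.card * e D * A l G D C β * A l G D C β' := by
    intro l
    have h1 := expand P j e (a l) β β'
    rw [← h1]
    refine Finset.sum_congr rfl fun K _ => Finset.sum_congr rfl fun K' _ => ?_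
    congr 1
    refine Finset.sum_congr rfl fun D _ => ?_
    congr 1
    simp only [ha, Finset.prod_mul_distrib, chi]
    push_cast
    ring
  -- weights
  set w : ℕ → ℝ := fun l => (l : ℝ) ^ (-(1 / 2) : ℝ) with hw
  have hw0 : ∀ l, 0 ≤ w l := fun l => by simp only [hw]; positivity
  have hterm : ∀ l ∈ Icc 1 L, ‖(((l : ℝ) ^ (-(1 / 2) : ℝ) : ℝ) : ℂ) * v l *
        ∑ K ∈ P.powersetCard j, ∑ K' ∈ (P.powersetCard j).filter (fun K' => K ≠ K'),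
          β K * (starRingEnd ℂ) (β K') * ∑ D ∈ (K ∩ K').powerset,
            e D * (((chi (symmDiff K K') ((mm D : ℤ) * (l : ℤ)) : ℤ) : ℂ) * ∏ p ∈ symmDiff K K', b p)‖ ≤
      ∑ G ∈ P.powerset.filter (fun G => G.card < j), ∑ D ∈ G.powerset, ∑ C ∈ (P \ G).powerset,
        (w l * ‖A l G D C β‖ ^ 2 + w l * ‖A l G D C β'‖ ^ 2) / 2 := by
    intro l _
    rw [hexp l, norm_mul, norm_mul, Complex.norm_real, Real.norm_of_nonneg (hw0 l)]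
    have h1 : ‖∑ G ∈ P.powerset.filter (fun G => G.card < j), ∑ D ∈ G.powerset, ∑ C ∈ (P \ G).powerset,
        (-1) ^ C.card * e D * A l G D C β * A l G D C β'‖ ≤
        ∑ G ∈ P.powerset.filter (fun G => G.card < j), ∑ D ∈ G.powerset, ∑ C ∈ (P \ G).powerset,
          (‖A l G D C β‖ ^ 2 + ‖A l G D C β'‖ ^ 2) / 2 := by
      refine (norm_sum_le _ _).trans (Finset.sum_le_sum fun G _ => ?_)
      refine (norm_sum_le _ _).trans (Finset.sum_le_sum fun D _ => ?_)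
      refine (norm_sum_le _ _).trans (Finset.sum_le_sum fun C _ => ?_)
      rw [norm_mul, norm_mul, norm_mul, norm_pow, norm_neg, norm_one, one_pow, one_mul]
      have h2 : ‖e D‖ * ‖A l G D C β‖ ≤ ‖A l G D C β‖ := mul_le_of_le_one_left (norm_nonneg _) (he D)
      have h3 : ‖e D‖ * ‖A l G D C β‖ * ‖A l G D C β'‖ ≤ ‖A l G D C β‖ * ‖A l G D C β'‖ :=
        mul_le_mul_of_nonneg_right h2 (norm_nonneg _)
      nlinarith [sq_nonneg (‖A l G D C β‖ - ‖A l G D C β'‖)]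
    have h4 : w l * ‖v l‖ ≤ w l := mul_le_of_le_one_right (hw0 l) (hv l)
    refine (mul_le_mul h4 h1 (norm_nonneg _) (hw0 l)).trans (le_of_eq ?_)
    simp only [Finset.mul_sum]
    refine Finset.sum_congr rfl fun G _ => Finset.sum_congr rfl fun D _ => Finset.sum_congr rfl fun C _ => ?_
    ring
  refine (norm_sum_le _ _).trans ((Finset.sum_le_sum hterm).trans ?_)
  rw [Finset.sum_comm]
  have hG : ∀ G ∈ P.powerset.filter (fun G => G.card < j),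
      ∑ l ∈ Icc 1 L, ∑ D ∈ G.powerset, ∑ C ∈ (P \ G).powerset,
        (w l * ‖A l G D C β‖ ^ 2 + w l * ‖A l G D C β'‖ ^ 2) / 2 ≤
      ∑ _D ∈ G.powerset, ∑ C ∈ (P \ G).powerset, ∑ K ∈ (P.powersetCard j).filter (fun K => G ∪ C ⊆ K), M * ‖β K‖ ^ 2 := by
    intro G hGm
    rw [mem_filter, mem_powerset] at hGm
    rw [Finset.sum_comm]
    refine Finset.sum_le_sum fun D _ => ?_
    rw [Finset.sum_comm]
    refine Finset.sum_le_sum fun C hCm => ?_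
    rw [mem_powerset] at hCm
    have h1 := inner_bound P j L M hM0 hM b hb β G D C hGm.1 hCm
    have h2 := inner_bound P j L M hM0 hM b hb β' G D C hGm.1 hCm
    have h3 : ∀ K, ‖β' K‖ = ‖β K‖ := fun K => by simp only [hβ']; exact RCLike.norm_conj _
    simp only [h3] at h2
    rw [← Finset.sum_div, Finset.sum_add_distrib, ← Finset.mul_sum]
    have h4 : ∑ l ∈ Icc 1 L, w l * ‖A l G D C β‖ ^ 2 ≤
        M * ∑ K ∈ (P.powersetCard j).filter (fun K => G ∪ C ⊆ K), ‖β K‖ ^ 2 := h1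
    have h5 : ∑ l ∈ Icc 1 L, w l * ‖A l G D C β'‖ ^ 2 ≤
        M * ∑ K ∈ (P.powersetCard j).filter (fun K => G ∪ C ⊆ K), ‖β K‖ ^ 2 := h2
    linarith
  refine (Finset.sum_le_sum hG).trans ((count4 P j (fun K => M * ‖β K‖ ^ 2) (fun K => by positivity)).trans (le_of_eq ?_))
  rw [← Finset.mul_sum]
  ring

end Pool.Agent.Lib.MP_2c6f70_nt.RU.T
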