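import Pool.Agent.Lib.MP_2c6f70_nt.RU.T_Poi

/-!
# Block T: the sum for a pair `K ≠ K'`

PROOF of `pair_sum`.  `chi K h * chi K' h = ∑ D ⊆ K ∩ K', (-1)^#D * (if mm D ∣ h then chi (symmDiff K K') h else 0)` (`chi_mul_chi`, `coprime_moebius`); exchange the finite sum and the `tsum`
(summable by `ww_summable` and `|chi| ≤ 1`); the multiples of `d = mm D`: `∑' h, [d ∣ h] f h = ∑' k, f (d k)` (injective map `k ↦ d k`: `Function.Injective.tsum_eq`), `ww (d k/X) = ww (k/(X/d))`,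
`chi M (d k) = chi M d * chi M k`, and `poisson_chi` for `M = symmDiff K K'` (nonempty as `K ≠ K'`: `Finset.symmDiff_nonempty`), `X/d` in place of `X`.
`diag_sum`: `(chi K h)^2 ≤ 1`, `sum_ww`, `tsum_le_tsum`.
-/

set_option autoImplicit false

namespace Pool.Agent.Lib.MP_2c6f70_nt.RU.T

open Finset

private theorem T_Pair_summable {X : ℝ} (hX : 0 < X) (M : Finset ℕ) :
    Summable (fun h : ℤ => ww (h / X) * ((chi M h : ℤ) : ℝ)) := by
  have h1 := chi_summable hX M ∅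
  refine h1.congr fun h => ?_
  rw [chi_empty]
  push_cast
  ring

/-- The multiples of `d`. -/
private theorem T_Pair_mult {M : Finset ℕ} (hM : PP M) (hne : M.Nonempty) {X : ℝ} (hX : 0 < X) {d : ℕ}
    (hd : 0 < d) {L : ℕ} (hL : (d : ℝ) * mm M ≤ X * (L + 1)) :
    ∑' h : ℤ, (if (d : ℤ) ∣ h then ww (h / X) * ((chi M h : ℤ) : ℝ) else 0) =
      2 * X / (d * Real.sqrt (mm M)) * (∏ p ∈ M, ss p) *
        ∑ l ∈ Icc 1 L, ((chi M (d * l : ℤ) : ℤ) : ℝ) * max 0 (1 - l * X / (d * mm M)) := by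
  have hd' : (0 : ℝ) < d := by exact_mod_cast hd
  have hm : (0 : ℝ) < mm M := by exact_mod_cast mm_pos hM
  have hdz : (d : ℤ) ≠ 0 := by exact_mod_cast hd.ne'
  have hinj : Function.Injective (fun k : ℤ => (d : ℤ) * k) := fun a b h => mul_left_cancel₀ hdz h
  have h1 := hinj.tsum_eq (f := fun h : ℤ => if (d : ℤ) ∣ h then ww (h / X) * ((chi M h : ℤ) : ℝ) else 0) (by
    intro h hh
    rw [Function.mem_support] at hh
    by_cases hdh : (d : ℤ) ∣ h
    · obtain ⟨k, hk⟩ := hdh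
      exact ⟨k, hk.symm⟩
    · exact absurd (if_neg hdh) hh)
  rw [← h1]
  have h2 : ∀ k : ℤ, (if (d : ℤ) ∣ (d : ℤ) * k then
      ww (((d : ℤ) * k : ℤ) / X) * ((chi M ((d : ℤ) * k) : ℤ) : ℝ) else 0) =
      ((chi M (d : ℤ) : ℤ) : ℝ) * (ww ((k : ℝ) / (X / d)) * ((chi M k : ℤ) : ℝ)) := by
    intro k
    rw [if_pos (dvd_mul_right _ _), chi_mul]
    push_cast
    have h3 : (d : ℝ) * k / X = k / (X / d) := by
      field_simp
    rw [h3]
    ring
  rw [tsum_congr h2, tsum_mul_left, poisson_chi hM hne (div_pos hX hd') (L := L) (by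
    rw [div_mul_eq_mul_div, le_div_iff₀ hd']
    linarith)]
  rw [Finset.mul_sum, Finset.mul_sum, Finset.mul_sum]
  refine Finset.sum_congr rfl fun l _ => ?_
  have h4 : 2 * (X / (d : ℝ)) / Real.sqrt (mm M) = 2 * X / (d * Real.sqrt (mm M)) := by
    field_simp
  have h5 : (l : ℝ) * (X / d) / mm M = l * X / (d * mm M) := by
    field_simp
  rw [h4, h5, chi_mul]
  push_cast
  ring

theorem pair_sum {K K' : Finset ℕ} (hK : PP K) (hK' : PP K') (hne : K ≠ K') {X : ℝ} (hX : 0 < X) {L : ℕ}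
    (hL : ∀ D ⊆ K ∩ K', (mm D : ℝ) * mm (symmDiff K K') ≤ X * (L + 1)) :
    ∑' h : ℤ, ww (h / X) * (((chi K h : ℤ) : ℝ) * ((chi K' h : ℤ) : ℝ)) =
      ∑ D ∈ (K ∩ K').powerset, (-1) ^ D.card * (2 * X / (mm D * Real.sqrt (mm (symmDiff K K')))) *
        (∏ p ∈ symmDiff K K', ss p) *
        ∑ l ∈ Icc 1 L, ((chi (symmDiff K K') (mm D * l : ℤ) : ℤ) : ℝ) *
          max 0 (1 - l * X / (mm D * mm (symmDiff K K'))) := by
  classical
  have hM : PP (symmDiff K K') := hK.symmDiff hK'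
  have hMne : (symmDiff K K').Nonempty := by
    rw [Finset.symmDiff_nonempty]
    exact hne
  have hG : PP (K ∩ K') := hK.subset Finset.inter_subset_left
  have h1 : ∀ h : ℤ, ww (h / X) * (((chi K h : ℤ) : ℝ) * ((chi K' h : ℤ) : ℝ)) =
      ∑ D ∈ (K ∩ K').powerset, (-1) ^ D.card * (if (mm D : ℤ) ∣ h then
        ww (h / X) * ((chi (symmDiff K K') h : ℤ) : ℝ) else 0) := by
    intro h
    have h2 : ((chi K h : ℤ) : ℝ) * ((chi K' h : ℤ) : ℝ) = ((chi K h * chi K' h : ℤ) : ℝ) := by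
      push_cast
      rfl
    rw [h2, chi_mul_chi hK hK', coprime_moebius hG, Finset.mul_sum]
    push_cast
    rw [Finset.mul_sum]
    refine Finset.sum_congr rfl fun D _ => ?_
    split_ifs <;> ring
  have hs : ∀ D ∈ (K ∩ K').powerset, Summable (fun h : ℤ => (-1 : ℝ) ^ D.card * (if (mm D : ℤ) ∣ h then
        ww (h / X) * ((chi (symmDiff K K') h : ℤ) : ℝ) else 0)) := by
    intro D _
    refine Summable.mul_left _ ?_
    have h2 := (T_Pair_summable hX (symmDiff K K')).indicator {h : ℤ | (mm D : ℤ) ∣ h}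
    refine h2.congr fun h => ?_
    by_cases hd : (mm D : ℤ) ∣ h
    · rw [if_pos hd, Set.indicator_of_mem (show h ∈ {h : ℤ | (mm D : ℤ) ∣ h} from hd)]
    · rw [if_neg hd, Set.indicator_of_notMem (show h ∉ {h : ℤ | (mm D : ℤ) ∣ h} from hd)]
  rw [tsum_congr h1, Summable.tsum_finsetSum hs]
  refine Finset.sum_congr rfl fun D hD => ?_
  rw [tsum_mul_left, T_Pair_mult hM hMne hX (mm_pos (hG.subset (Finset.mem_powerset.1 hD)))
    (hL D (Finset.mem_powerset.1 hD))]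
  ring

theorem diag_sum (K : Finset ℕ) {X : ℝ} (hX : 1 ≤ X) :
    ∑' h : ℤ, ww (h / X) * (((chi K h : ℤ) : ℝ) * ((chi K h : ℤ) : ℝ)) ≤ X := by
  have hX0 : 0 < X := by linarith
  refine le_trans (Summable.tsum_le_tsum (g := fun h : ℤ => ww (h / X)) ?_ (chi_summable hX0 K K) ?_)
    (le_of_eq (sum_ww hX))
  · intro h
    have h1 : ((chi K h : ℤ) : ℝ) * ((chi K h : ℤ) : ℝ) ≤ 1 := by
      have h2 : |((chi K h : ℤ) : ℝ)| ≤ 1 := by
        have := chi_abs K h
        exact_mod_cast this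
      have h3 := abs_le.1 h2
      nlinarith
    have h4 : 0 ≤ ww ((h : ℝ) / X) := by
      unfold ww
      exact sq_nonneg _
    exact mul_le_of_le_one_right h4 h1
  · have h1 := chi_summable hX0 ∅ ∅
    refine h1.congr fun h => ?_
    rw [chi_empty]
    push_cast
    ring

end Pool.Agent.Lib.MP_2c6f70_nt.RU.T
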