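import Pool.Agent.Lib.MP_2c6f70_nt.RU.T_FoB
import Pool.Agent.Lib.MP_2c6f70_nt.RU.T_GsB
import Pool.Agent.Lib.MP_2c6f70_nt.RU.T_PoiH

/-!
# Block T: Poisson summation with the character `chi K`

PROOF.  `m = mm K`, `s = ∏ ss p` (`s * s = 1`, `prod_ss_sq`).  By `gauss_chi` with `l = n`: `chi K n = (s / √m) ∑_{b < m} chi K b ee (b n / m)`.  So
`∑' n, ww (n/X) chi K n = (s/√m) ∑_{b<m} chi K b ∑' n, ww (n/X) ee (n b/m) = (s/√m) X ∑_{b<m} chi K b ∑' n, tri (X (b/m + n))` (`poisson_tri`; the exchange of a finite sum and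
`tsum` needs `ww_summable` and `norm_ee`), `b/m + n = (b + m n)/m` and `chi K b = chi K (b + m n)` (`chi_add_mul`); the map `(b, n) ↦ b + m n` is a bijection `range m × ℤ → ℤ`
(`Int.emod_add_mul_ediv`), so this is `(s X/√m) ∑' l : ℤ, chi K l tri (X l/m)`; only `|l| ≤ L` contribute since `tri (X l / m) = 0` for `|l| ≥ L + 1` (`m ≤ X (L+1)`), `l = 0` contributes `0` (`chi_zero`),
and `l`, `-l` contribute the same (`chi_neg`): `= (2 s X/√m) ∑_{1 ≤ l ≤ L} chi K l max 0 (1 - l X/m)`.  (Work over `ℂ` and take the real part / `Complex.ofReal_injective` at the end.)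
-/

set_option autoImplicit false

namespace Pool.Agent.Lib.MP_2c6f70_nt.RU.T

open Finset

theorem chi_abs_real (K : Finset ℕ) (a : ℤ) : |((chi K a : ℤ) : ℝ)| ≤ 1 := by
  have h := chi_abs K a
  exact_mod_cast h

theorem chi_summable {X : ℝ} (hX : 0 < X) (K K' : Finset ℕ) :
    Summable (fun h : ℤ => ww (h / X) * ((chi K h : ℤ) * (chi K' h : ℤ) : ℝ)) := by
  refine Summable.of_norm_bounded (ww_summable hX) fun h => ?_
  rw [Real.norm_eq_abs, abs_mul, abs_of_nonneg (ww_nonneg _), abs_mul]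
  have h1 : |((chi K h : ℤ) : ℝ)| * |((chi K' h : ℤ) : ℝ)| ≤ 1 :=
    mul_le_one₀ (chi_abs_real K h) (abs_nonneg _) (chi_abs_real K' h)
  calc ww (h / X) * (|((chi K h : ℤ) : ℝ)| * |((chi K' h : ℤ) : ℝ)|)
      ≤ ww (h / X) * 1 := mul_le_mul_of_nonneg_left h1 (ww_nonneg _)
    _ = ww (h / X) := mul_one _

theorem tsum_even {F : ℤ → ℂ} (L : ℕ) (h0 : F 0 = 0) (heven : ∀ l, F (-l) = F l)
    (hz : ∀ l : ℕ, L < l → F l = 0) : ∑' l : ℤ, F l = 2 * ∑ l ∈ Icc 1 L, F (l : ℤ) := by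
  have h1 : HasSum (fun n : ℕ => F (n : ℤ)) (∑ n ∈ Icc 1 L, F (n : ℤ)) := by
    refine hasSum_sum_of_ne_finset_zero fun n hn => ?_
    rcases Nat.eq_zero_or_pos n with h | h
    · rw [h]
      exact h0
    · refine hz n ?_
      by_contra h2
      exact hn (Finset.mem_Icc.mpr ⟨h, not_lt.mp h2⟩)
  have h2 : HasSum (fun n : ℕ => F (-((n : ℤ) + 1))) (∑ n ∈ range L, F (-((n : ℤ) + 1))) := by
    refine hasSum_sum_of_ne_finset_zero fun n hn => ?_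
    rw [heven]
    have h3 : ((n : ℤ) + 1) = ((n + 1 : ℕ) : ℤ) := by push_cast; rfl
    rw [h3]
    refine hz (n + 1) ?_
    rw [Finset.mem_range, not_lt] at hn
    omega
  have h3 : ∑ n ∈ range L, F (-((n : ℤ) + 1)) = ∑ n ∈ Icc 1 L, F (n : ℤ) := by
    refine Finset.sum_nbij' (fun n => n + 1) (fun n => n - 1) ?_ ?_ ?_ ?_ ?_
    · intro n hn
      rw [Finset.mem_range] at hn
      rw [Finset.mem_Icc]
      omega
    · intro n hn
      rw [Finset.mem_Icc] at hn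
      rw [Finset.mem_range]
      omega
    · intro n _
      simp
    · intro n hn
      rw [Finset.mem_Icc] at hn
      exact Nat.sub_add_cancel hn.1
    · intro n _
      rw [heven]
      push_cast
      rfl
  rw [h3] at h2
  rw [(HasSum.of_nat_of_neg_add_one h1 h2).tsum_eq]
  ring

theorem poisson_chi {K : Finset ℕ} (hK : PP K) (hne : K.Nonempty) {X : ℝ} (hX : 0 < X) {L : ℕ}
    (hL : (mm K : ℝ) ≤ X * (L + 1)) :
    ∑' h : ℤ, ww (h / X) * ((chi K h : ℤ) : ℝ) =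
      2 * X / Real.sqrt (mm K) * (∏ p ∈ K, ss p) *
        ∑ l ∈ Icc 1 L, ((chi K (l : ℤ) : ℤ) : ℝ) * max 0 (1 - l * X / mm K) := by
  have hm0 : 0 < mm K := mm_pos hK
  have n2 : NeZero (mm K) := ⟨hm0.ne'⟩
  have hm : (0 : ℝ) < mm K := by exact_mod_cast hm0
  have hmX : 0 < (mm K : ℝ) / X := by positivity
  have h1 := TH.poisson_mod (m := mm K) (fun x : ZMod (mm K) => ((jacobiSym (x.val : ℤ) (mm K) : ℤ) : ℂ)) hX
  have h2 : ∀ l : ℤ, ∑ x : ZMod (mm K), ((jacobiSym (x.val : ℤ) (mm K) : ℤ) : ℂ) *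
      ZMod.stdAddChar ((l : ZMod (mm K)) * x) =
      (((∏ p ∈ K, ss p) * Real.sqrt (mm K) : ℝ) : ℂ) * ((chi K l : ℤ) : ℂ) := by
    intro l
    rw [← gauss_chi hK l]
    have h3 : ∑ b ∈ range (mm K), ((chi K (b : ℤ) : ℤ) : ℂ) * ee ((b : ℝ) * l / mm K) =
        ∑ b ∈ range (mm K), ((jacobiSym (b : ℤ) (mm K) : ℤ) : ℂ) * ee ((b : ℝ) * l / mm K) :=
      Finset.sum_congr rfl fun b _ => by rw [chi_eq_jac hK]
    rw [h3, range_eq_Gs]
    rfl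
  have h4 : ∑' h : ℤ, (TH.wS (h / X) : ℂ) * ((jacobiSym (((h : ZMod (mm K))).val : ℤ) (mm K) : ℤ) : ℂ) =
      ((∑' h : ℤ, ww (h / X) * ((chi K h : ℤ) : ℝ) : ℝ) : ℂ) := by
    rw [Complex.ofReal_tsum]
    refine tsum_congr fun h => ?_
    rw [TH.gau_val, chi_eq_jac hK]
    push_cast
    rfl
  rw [h4] at h1
  have h5 : ∑' l : ℤ, (TH.tri ((mm K : ℝ) / X) l : ℂ) *
      ((((∏ p ∈ K, ss p) * Real.sqrt (mm K) : ℝ) : ℂ) * ((chi K l : ℤ) : ℂ)) =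
      2 * ∑ l ∈ Icc 1 L, (TH.tri ((mm K : ℝ) / X) ((l : ℤ) : ℝ) : ℂ) *
      ((((∏ p ∈ K, ss p) * Real.sqrt (mm K) : ℝ) : ℂ) * ((chi K (l : ℤ) : ℤ) : ℂ)) := by
    refine tsum_even L ?_ ?_ ?_
    · rw [chi_zero hK hne]
      simp
    · intro l
      rw [chi_neg hK, Int.cast_neg, TH.tri_neg]
    · intro l hl
      rw [TH.tri_eq_zero hmX]
      · simp
      · rw [div_le_iff₀ hX]
        have h6 : ((L : ℝ) + 1) ≤ |((l : ℤ) : ℝ)| := by
          rw [Int.cast_natCast, Nat.abs_cast]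
          exact_mod_cast hl
        calc (mm K : ℝ) ≤ X * (L + 1) := hL
          _ ≤ X * |((l : ℤ) : ℝ)| := mul_le_mul_of_nonneg_left h6 hX.le
          _ = |((l : ℤ) : ℝ)| * X := mul_comm _ _
  have h6 : ∑' l : ℤ, (TH.tri ((mm K : ℝ) / X) l : ℂ) * ∑ x : ZMod (mm K),
      ((jacobiSym (x.val : ℤ) (mm K) : ℤ) : ℂ) * ZMod.stdAddChar ((l : ZMod (mm K)) * x) =
      ∑' l : ℤ, (TH.tri ((mm K : ℝ) / X) l : ℂ) *
      ((((∏ p ∈ K, ss p) * Real.sqrt (mm K) : ℝ) : ℂ) * ((chi K l : ℤ) : ℂ)) :=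
    tsum_congr fun l => by rw [h2]
  rw [h6, h5] at h1
  have h7 : ∀ l ∈ Icc 1 L, (TH.tri ((mm K : ℝ) / X) ((l : ℤ) : ℝ) : ℂ) *
      ((((∏ p ∈ K, ss p) * Real.sqrt (mm K) : ℝ) : ℂ) * ((chi K (l : ℤ) : ℤ) : ℂ)) =
      ((((∏ p ∈ K, ss p) * Real.sqrt (mm K)) * (((chi K (l : ℤ) : ℤ) : ℝ) * max 0 (1 - l * X / mm K)) : ℝ) : ℂ) := by
    intro l _
    have h8 : TH.tri ((mm K : ℝ) / X) ((l : ℤ) : ℝ) = max 0 (1 - l * X / mm K) := by
      unfold TH.tri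
      rw [max_comm, Int.cast_natCast, Nat.abs_cast, div_div_eq_mul_div]
    rw [h8]
    push_cast
    ring
  rw [Finset.sum_congr rfl h7, ← Complex.ofReal_sum, ← Finset.mul_sum] at h1
  have h9 : ((∑' h : ℤ, ww (h / X) * ((chi K h : ℤ) : ℝ) : ℝ) : ℂ) =
      ((X / mm K * (2 * (((∏ p ∈ K, ss p) * Real.sqrt (mm K)) *
        ∑ l ∈ Icc 1 L, ((chi K (l : ℤ) : ℤ) : ℝ) * max 0 (1 - l * X / mm K))) : ℝ) : ℂ) := by
    rw [h1]
    push_cast
    ring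
  have h10 := Complex.ofReal_injective h9
  rw [h10]
  have hs : Real.sqrt (mm K) * Real.sqrt (mm K) = mm K := Real.mul_self_sqrt hm.le
  have hs0 : Real.sqrt (mm K) ≠ 0 := (Real.sqrt_pos.mpr hm).ne'
  have h11 : X / mm K * Real.sqrt (mm K) = X / Real.sqrt (mm K) := by
    rw [div_mul_eq_mul_div, div_eq_div_iff hm.ne' hs0, mul_assoc, hs]
  calc X / mm K * (2 * (((∏ p ∈ K, ss p) * Real.sqrt (mm K)) *
        ∑ l ∈ Icc 1 L, ((chi K (l : ℤ) : ℤ) : ℝ) * max 0 (1 - l * X / mm K)))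
      = (X / mm K * Real.sqrt (mm K)) * (2 * ((∏ p ∈ K, ss p) *
        ∑ l ∈ Icc 1 L, ((chi K (l : ℤ) : ℤ) : ℝ) * max 0 (1 - l * X / mm K))) := by ring
    _ = _ := by
      rw [h11]
      ring

end Pool.Agent.Lib.MP_2c6f70_nt.RU.T
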