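import Pool.Agent.Lib.MP_2c6f70_nt.RU.T_Pair

/-!
# Block T: from `[1, Y]` to the smooth sum over `ℤ`

PROOF.  `X = 2 Y`.  `∑_{1≤h≤Y} ‖∑_K β K chi K h‖² ≤ (5/2) ∑' h : ℤ, ww (h/X) ‖∑_K β K chi K h‖²` (`ww_lower` since `|h/X| ≤ 1/2`; nonnegative terms: `sum_le_tsum`-type lemma with the injection `ℕ → ℤ`, e.g.
`Summable.sum_le_tsum` on the finset image; the function is summable since `‖∑_K β K chi K h‖² ≤ (∑ ‖β K‖)²` and `ww_summable`).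
`‖∑_K β K chi K h‖² = ∑_K ∑_K' β K conj (β K') chi K h chi K' h` as a complex number (`Complex.mul_conj'`/`RCLike.mul_conj`, `chi` is real); exchange the finite sums and `tsum` (`Summable.tsum_finsetSum`, summable: `chi_summable`):
`∑' h, ww (h/X) ‖..‖² = ∑_K ∑_K' β K conj (β K') T K K'`, `T K K' = ∑' h, ww (h/X) (chi K h chi K' h)`.  Split `K' = K` and `K' ≠ K` (`Finset.sum_filter_add_sum_filter_not` or `Finset.sum_erase`/`Finset.add_sum_erase`);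
diagonal: `β K conj (β K) = ‖β K‖²`, `0 ≤ T K K ≤ X` (`diag_sum`).  Take the norm (the left side is a nonnegative real).
-/

set_option autoImplicit false

namespace Pool.Agent.Lib.MP_2c6f70_nt.RU.T

open Finset

/-- `‖∑ β K chi K h‖ ^ 2` as a double sum. -/
theorem norm_sq_pairs (C : Finset (Finset ℕ)) (β : Finset ℕ → ℂ) (h : ℤ) :
    ((‖∑ K ∈ C, β K * ((chi K h : ℤ) : ℂ)‖ ^ 2 : ℝ) : ℂ) =
      ∑ K ∈ C, ∑ K' ∈ C, β K * (starRingEnd ℂ) (β K') *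
        (((((chi K h : ℤ) : ℝ) * ((chi K' h : ℤ) : ℝ)) : ℝ) : ℂ) := by
  have h1 := Complex.mul_conj' (∑ K ∈ C, β K * ((chi K h : ℤ) : ℂ))
  rw [Complex.ofReal_pow, ← h1, map_sum, Finset.sum_mul_sum]
  refine Finset.sum_congr rfl fun K _ => Finset.sum_congr rfl fun K' _ => ?_
  rw [map_mul, map_intCast]
  push_cast
  ring

theorem hasSum_pairs (C : Finset (Finset ℕ)) (β : Finset ℕ → ℂ) {X : ℝ} (hX : 0 < X) :
    HasSum (fun h : ℤ => ((ww (h / X) * ‖∑ K ∈ C, β K * ((chi K h : ℤ) : ℂ)‖ ^ 2 : ℝ) : ℂ))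
      (∑ K ∈ C, ∑ K' ∈ C, β K * (starRingEnd ℂ) (β K') *
        ((∑' h : ℤ, ww (h / X) * (((chi K h : ℤ) : ℝ) * ((chi K' h : ℤ) : ℝ)) : ℝ) : ℂ)) := by
  have h1 : ∀ K ∈ C, HasSum (fun h : ℤ => ∑ K' ∈ C, β K * (starRingEnd ℂ) (β K') *
      ((ww (h / X) * (((chi K h : ℤ) : ℝ) * ((chi K' h : ℤ) : ℝ)) : ℝ) : ℂ))
      (∑ K' ∈ C, β K * (starRingEnd ℂ) (β K') *
        ((∑' h : ℤ, ww (h / X) * (((chi K h : ℤ) : ℝ) * ((chi K' h : ℤ) : ℝ)) : ℝ) : ℂ)) := by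
    intro K _
    refine hasSum_sum fun K' _ => ?_
    refine HasSum.mul_left _ ?_
    have h2 := (chi_summable hX K K').hasSum
    exact Complex.hasSum_ofReal.mpr h2
  have h3 := hasSum_sum h1
  have h4 : (fun h : ℤ => ((ww (h / X) * ‖∑ K ∈ C, β K * ((chi K h : ℤ) : ℂ)‖ ^ 2 : ℝ) : ℂ)) =
      fun h : ℤ => ∑ K ∈ C, ∑ K' ∈ C, β K * (starRingEnd ℂ) (β K') *
      ((ww (h / X) * (((chi K h : ℤ) : ℝ) * ((chi K' h : ℤ) : ℝ)) : ℝ) : ℂ) := by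
    funext h
    rw [Complex.ofReal_mul, norm_sq_pairs, Finset.mul_sum]
    refine Finset.sum_congr rfl fun K _ => ?_
    rw [Finset.mul_sum]
    refine Finset.sum_congr rfl fun K' _ => ?_
    push_cast
    ring
  rw [h4]
  exact h3

theorem sum_le_pairs (P : Finset ℕ) (j Y : ℕ) (hY : 1 ≤ Y) (β : Finset ℕ → ℂ) :
    ∑ h ∈ Icc 1 Y, ‖∑ K ∈ P.powersetCard j, β K * ((chi K (h : ℤ) : ℤ) : ℂ)‖ ^ 2 ≤
      5 / 2 * (2 * Y * (∑ K ∈ P.powersetCard j, ‖β K‖ ^ 2) +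
        ‖∑ K ∈ P.powersetCard j, ∑ K' ∈ (P.powersetCard j).filter (fun K' => K ≠ K'),
          β K * (starRingEnd ℂ) (β K') *
            ((∑' h : ℤ, ww (h / (2 * Y)) * (((chi K h : ℤ) : ℝ) * ((chi K' h : ℤ) : ℝ)) : ℝ) : ℂ)‖) := by
  classical
  set C := P.powersetCard j with hC
  have hYr : (1 : ℝ) ≤ Y := by exact_mod_cast hY
  set X : ℝ := 2 * Y with hXdef
  have hX1 : 1 ≤ X := by rw [hXdef]; linarith
  have hX0 : 0 < X := by linarith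
  set S : ℤ → ℂ := fun h => ∑ K ∈ C, β K * ((chi K h : ℤ) : ℂ) with hS
  set T : Finset ℕ → Finset ℕ → ℝ := fun K K' =>
    ∑' h : ℤ, ww (h / X) * (((chi K h : ℤ) : ℝ) * ((chi K' h : ℤ) : ℝ)) with hT
  have h1 : HasSum (fun h : ℤ => ((ww (h / X) * ‖S h‖ ^ 2 : ℝ) : ℂ))
      (∑ K ∈ C, ∑ K' ∈ C, β K * (starRingEnd ℂ) (β K') * ((T K K' : ℝ) : ℂ)) := hasSum_pairs C β hX0
  have hsum : Summable (fun h : ℤ => ww (h / X) * ‖S h‖ ^ 2) := Complex.summable_ofReal.mp h1.summable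
  have h2 : ((∑' h : ℤ, ww (h / X) * ‖S h‖ ^ 2 : ℝ) : ℂ) =
      ∑ K ∈ C, ∑ K' ∈ C, β K * (starRingEnd ℂ) (β K') * ((T K K' : ℝ) : ℂ) := by
    rw [Complex.ofReal_tsum]
    exact h1.tsum_eq
  -- from `[1, Y]` to `ℤ`
  have h3 : ∑ h ∈ Icc 1 Y, ‖S (h : ℤ)‖ ^ 2 ≤ 5 / 2 * ∑' h : ℤ, ww (h / X) * ‖S h‖ ^ 2 := by
    have h4 : ∑ h ∈ (Icc 1 Y).map Nat.castEmbedding, ww ((h : ℤ) / X) * ‖S h‖ ^ 2 ≤
        ∑' h : ℤ, ww (h / X) * ‖S h‖ ^ 2 :=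
      hsum.sum_le_tsum _ fun h _ => mul_nonneg (ww_nonneg _) (sq_nonneg _)
    rw [Finset.sum_map] at h4
    have h5 : ∀ h ∈ Icc 1 Y, ‖S (h : ℤ)‖ ^ 2 ≤
        5 / 2 * (ww (((Nat.castEmbedding h : ℤ) : ℝ) / X) * ‖S (Nat.castEmbedding h : ℤ)‖ ^ 2) := by
      intro h hh
      rw [Finset.mem_Icc] at hh
      have e : (Nat.castEmbedding h : ℤ) = (h : ℤ) := rfl
      rw [e, Int.cast_natCast]
      have h6 : 2 / 5 ≤ ww ((h : ℝ) / X) := by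
        refine ww_lower ?_
        rw [abs_of_nonneg (by positivity), div_le_div_iff₀ hX0 two_pos, hXdef]
        have h7 : (h : ℝ) ≤ Y := by exact_mod_cast hh.2
        linarith
      nlinarith [sq_nonneg ‖S (h : ℤ)‖]
    calc ∑ h ∈ Icc 1 Y, ‖S (h : ℤ)‖ ^ 2
        ≤ ∑ h ∈ Icc 1 Y, 5 / 2 * (ww (((Nat.castEmbedding h : ℤ) : ℝ) / X) * ‖S (Nat.castEmbedding h : ℤ)‖ ^ 2) :=
          Finset.sum_le_sum h5
      _ = 5 / 2 * ∑ h ∈ Icc 1 Y, (ww (((Nat.castEmbedding h : ℤ) : ℝ) / X) * ‖S (Nat.castEmbedding h : ℤ)‖ ^ 2) := by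
          rw [Finset.mul_sum]
      _ ≤ 5 / 2 * ∑' h : ℤ, ww (h / X) * ‖S h‖ ^ 2 :=
          mul_le_mul_of_nonneg_left h4 (by norm_num)
  -- splitting off the diagonal
  have h8 : ∑ K ∈ C, ∑ K' ∈ C, β K * (starRingEnd ℂ) (β K') * ((T K K' : ℝ) : ℂ) =
      ∑ K ∈ C, ((‖β K‖ ^ 2 * T K K : ℝ) : ℂ) +
      ∑ K ∈ C, ∑ K' ∈ C.filter (fun K' => K ≠ K'), β K * (starRingEnd ℂ) (β K') * ((T K K' : ℝ) : ℂ) := by
    rw [← Finset.sum_add_distrib]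
    refine Finset.sum_congr rfl fun K hK => ?_
    rw [Finset.filter_ne, ← Finset.add_sum_erase C _ hK, Complex.mul_conj']
    push_cast
    rfl
  have h9 : 0 ≤ ∑' h : ℤ, ww (h / X) * ‖S h‖ ^ 2 :=
    tsum_nonneg fun h => mul_nonneg (ww_nonneg _) (sq_nonneg _)
  have h10 : ∑' h : ℤ, ww (h / X) * ‖S h‖ ^ 2 ≤ X * (∑ K ∈ C, ‖β K‖ ^ 2) +
      ‖∑ K ∈ C, ∑ K' ∈ C.filter (fun K' => K ≠ K'), β K * (starRingEnd ℂ) (β K') * ((T K K' : ℝ) : ℂ)‖ := by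
    have h11 : ∑' h : ℤ, ww (h / X) * ‖S h‖ ^ 2 = ‖((∑' h : ℤ, ww (h / X) * ‖S h‖ ^ 2 : ℝ) : ℂ)‖ := by
      rw [Complex.norm_real, Real.norm_eq_abs, abs_of_nonneg h9]
    rw [h11, h2, h8]
    refine (norm_add_le _ _).trans (add_le_add ?_ le_rfl)
    refine (norm_sum_le _ _).trans ?_
    rw [Finset.mul_sum]
    refine Finset.sum_le_sum fun K _ => ?_
    have h12 : 0 ≤ T K K := tsum_nonneg fun h => mul_nonneg (ww_nonneg _) (mul_self_nonneg _)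
    have h13 : T K K ≤ X := diag_sum K hX1
    rw [Complex.norm_real, Real.norm_eq_abs, abs_of_nonneg (mul_nonneg (sq_nonneg _) h12), mul_comm X]
    exact mul_le_mul_of_nonneg_left h13 (sq_nonneg _)
  exact h3.trans (mul_le_mul_of_nonneg_left h10 (by norm_num))

end Pool.Agent.Lib.MP_2c6f70_nt.RU.T
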