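import Pool.Agent.Lib.MP_2c6f70_nt.RU.T_Pair

/-!
# Block T: the pair sum as an integral of separated sums

`ReB_sep`: the separated sum is a finite sum of constants times `ee (ξ θ)`, `θ = log (mm D) + ∑ log p - log (l X)`, which is `log u`, `u = mm D * mm M / (l X)`.
`ReB_term`: the term of `pair_sum` for `D`, `l` is the integral of `F ξ` times the term of the separated sum.
-/

set_option autoImplicit false

namespace Pool.Agent.Lib.MP_2c6f70_nt.RU.T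

open Finset MeasureTheory

/-- The separated sum of a pair. -/
noncomputable def sep (K K' : Finset ℕ) (X : ℝ) (L : ℕ) (ξ : ℝ) : ℂ :=
  ∑ l ∈ Icc 1 L, (((l : ℝ) ^ (-(1 / 2) : ℝ) : ℝ) : ℂ) * vl X ξ l *
    ∑ D ∈ (K ∩ K').powerset,
      eD ξ D * (((chi (symmDiff K K') ((mm D : ℤ) * (l : ℤ)) : ℤ) : ℂ) * ∏ p ∈ symmDiff K K', bx ξ p)

/-- The phase. -/
noncomputable def rTh (M D : Finset ℕ) (X : ℝ) (l : ℕ) : ℝ :=
  Real.log (mm D) + ∑ p ∈ M, Real.log p - Real.log (l * X)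

/-- The constant. -/
noncomputable def rC (M D : Finset ℕ) (l : ℕ) : ℝ :=
  (l : ℝ) ^ (-(1 / 2) : ℝ) * ((-1) ^ D.card * (mm D : ℝ) ^ (-(1 / 2) : ℝ) *
    (((chi M ((mm D : ℤ) * (l : ℤ)) : ℤ) : ℝ) * ∏ p ∈ M, ss p))

theorem ReB_prod (M : Finset ℕ) (ξ : ℝ) :
    ∏ p ∈ M, bx ξ p = ((∏ p ∈ M, ss p : ℝ) : ℂ) * ee (ξ * ∑ p ∈ M, Real.log p) := by
  classical
  induction M using Finset.induction_on with
  | empty => rw [prod_empty, prod_empty, sum_empty, mul_zero, ee_zero, Complex.ofReal_one, mul_one]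
  | insert a s ha ih =>
    rw [prod_insert ha, ih, prod_insert ha, sum_insert ha, mul_add, ee_add, Complex.ofReal_mul]
    unfold bx
    ring

theorem ReB_sep (K K' : Finset ℕ) (X : ℝ) (L : ℕ) (ξ : ℝ) :
    sep K K' X L ξ = ∑ l ∈ Icc 1 L, ∑ D ∈ (K ∩ K').powerset,
      ((rC (symmDiff K K') D l : ℝ) : ℂ) * ee (ξ * rTh (symmDiff K K') D X l) := by
  unfold sep
  refine sum_congr rfl fun l _ => ?_
  rw [mul_sum]
  refine sum_congr rfl fun D _ => ?_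
  rw [ReB_prod]
  have h1 : ee (ξ * rTh (symmDiff K K') D X l) = ee (ξ * Real.log (mm D)) *
      ee (ξ * ∑ p ∈ symmDiff K K', Real.log p) * ee (-(ξ * Real.log (l * X))) := by
    rw [← ee_add, ← ee_add]
    congr 1
    unfold rTh
    ring
  rw [h1]
  unfold eD vl rC
  push_cast
  ring

theorem ReB_int {F : ℝ → ℂ} (hFi : Integrable F) (c : ℂ) (θ : ℝ) :
    Integrable (fun ξ => F ξ * (c * ee (ξ * θ))) := by
  refine hFi.mul_bdd (c := ‖c‖) ?_ (Filter.Eventually.of_forall fun ξ => ?_)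
  · exact (continuous_const.mul (continuous_ee.comp (continuous_id.mul continuous_const))).aestronglyMeasurable
  · rw [norm_mul, norm_ee, mul_one]

theorem sep_integrable {F : ℝ → ℂ} (hFi : Integrable F) (K K' : Finset ℕ) (X : ℝ) (L : ℕ) :
    Integrable (fun ξ => F ξ * sep K K' X L ξ) := by
  have h1 : (fun ξ => F ξ * sep K K' X L ξ) = fun ξ => ∑ l ∈ Icc 1 L, ∑ D ∈ (K ∩ K').powerset,
      F ξ * (((rC (symmDiff K K') D l : ℝ) : ℂ) * ee (ξ * rTh (symmDiff K K') D X l)) := by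
    funext ξ
    rw [ReB_sep, mul_sum]
    exact sum_congr rfl fun l _ => mul_sum _ _ _
  rw [h1]
  exact integrable_finsetSum _ fun l _ => integrable_finsetSum _ fun D _ => ReB_int hFi _ _

theorem ReB_sepint {F : ℝ → ℂ} (hFi : Integrable F) (K K' : Finset ℕ) (X : ℝ) (L : ℕ) :
    ∫ ξ, F ξ * sep K K' X L ξ = ∑ l ∈ Icc 1 L, ∑ D ∈ (K ∩ K').powerset,
      ((rC (symmDiff K K') D l : ℝ) : ℂ) * ∫ ξ, F ξ * ee (ξ * rTh (symmDiff K K') D X l) := by
  have h1 : (fun ξ => F ξ * sep K K' X L ξ) = fun ξ => ∑ l ∈ Icc 1 L, ∑ D ∈ (K ∩ K').powerset,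
      F ξ * (((rC (symmDiff K K') D l : ℝ) : ℂ) * ee (ξ * rTh (symmDiff K K') D X l)) := by
    funext ξ
    rw [ReB_sep, mul_sum]
    exact sum_congr rfl fun l _ => mul_sum _ _ _
  rw [h1, integral_finsetSum _ fun l _ => integrable_finsetSum _ fun D _ => ReB_int hFi _ _]
  refine sum_congr rfl fun l _ => ?_
  rw [integral_finsetSum _ fun D _ => ReB_int hFi _ _]
  refine sum_congr rfl fun D _ => ?_
  rw [← integral_const_mul]
  congr 1
  funext ξ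
  ring

theorem ReB_log (M : Finset ℕ) (hM : PP M) : Real.log (mm M) = ∑ p ∈ M, Real.log p := by
  unfold mm
  rw [Nat.cast_prod, Real.log_prod]
  intro p hp
  exact Nat.cast_ne_zero.mpr (hM p hp).1.ne_zero

theorem ReB_rTh {M D : Finset ℕ} (hM : PP M) (hD : PP D) {X : ℝ} (hX : 0 < X) {l : ℕ} (hl : 1 ≤ l) :
    rTh M D X l = Real.log ((mm D : ℝ) * mm M / (l * X)) := by
  have h1 : (0 : ℝ) < mm D := Nat.cast_pos.mpr (mm_pos hD)
  have h2 : (0 : ℝ) < mm M := Nat.cast_pos.mpr (mm_pos hM)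
  have h3 : (0 : ℝ) < l := Nat.cast_pos.mpr hl
  unfold rTh
  rw [Real.log_div (by positivity) (by positivity), Real.log_mul h1.ne' h2.ne', ReB_log M hM]

theorem ReB_const {a m l X : ℝ} (ha : 0 < a) (hm : 0 < m) (hl : 0 < l) (hX : 0 < X) :
    2 * X / (a * Real.sqrt m) * Real.sqrt (a * m / (l * X)) =
      2 * Real.sqrt X * (l ^ (-(1 / 2) : ℝ) * a ^ (-(1 / 2) : ℝ)) := by
  rw [Real.rpow_neg hl.le, Real.rpow_neg ha.le, ← Real.sqrt_eq_rpow, ← Real.sqrt_eq_rpow,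
    Real.sqrt_div (by positivity), Real.sqrt_mul ha.le, Real.sqrt_mul hl.le]
  have h1 := Real.sqrt_pos.mpr ha
  have h2 := Real.sqrt_pos.mpr hm
  have h3 := Real.sqrt_pos.mpr hl
  have h4 := Real.sqrt_pos.mpr hX
  have h5 := Real.mul_self_sqrt ha.le
  have h6 := Real.mul_self_sqrt hX.le
  field_simp
  rw [Real.sq_sqrt ha.le, Real.sq_sqrt hX.le]
  ring

theorem pair_int {F : ℝ → ℂ} (hFi : Integrable F)
    (hF : ∀ u : ℝ, 0 < u → ((max 0 (1 - 1 / u) : ℝ) : ℂ) = ((Real.sqrt u : ℝ) : ℂ) * ∫ ξ, F ξ * ee (ξ * Real.log u))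
    {K K' : Finset ℕ} (hK : PP K) (hK' : PP K') (hne : K ≠ K') {X : ℝ} (hX : 0 < X) {L : ℕ}
    (hL : ∀ D ⊆ K ∩ K', (mm D : ℝ) * mm (symmDiff K K') ≤ X * (L + 1)) :
    ((∑' h : ℤ, ww (h / X) * (((chi K h : ℤ) : ℝ) * ((chi K' h : ℤ) : ℝ)) : ℝ) : ℂ) =
      2 * ((Real.sqrt X : ℝ) : ℂ) * ∫ ξ, F ξ * sep K K' X L ξ := by
  have hM : PP (symmDiff K K') := hK.symmDiff hK'
  rw [pair_sum hK hK' hne hX hL, ReB_sepint hFi, sum_comm, mul_sum, Complex.ofReal_sum]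
  refine sum_congr rfl fun D hD => ?_
  have hDP : PP D := hK.subset ((mem_powerset.mp hD).trans inter_subset_left)
  rw [mul_sum, mul_sum, Complex.ofReal_sum]
  refine sum_congr rfl fun l hl => ?_
  have hl1 : 1 ≤ l := (mem_Icc.mp hl).1
  have h1 : (0 : ℝ) < mm D := Nat.cast_pos.mpr (mm_pos hDP)
  have h2 : (0 : ℝ) < mm (symmDiff K K') := Nat.cast_pos.mpr (mm_pos hM)
  have h3 : (0 : ℝ) < l := Nat.cast_pos.mpr hl1
  have hu : (0 : ℝ) < (mm D : ℝ) * mm (symmDiff K K') / (l * X) := by positivity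
  have h4 := hF _ hu
  rw [one_div_div, ← ReB_rTh hM hDP hX hl1] at h4
  have h5 := ReB_const h1 h2 h3 hX
  generalize (∫ ξ, F ξ * ee (ξ * rTh (symmDiff K K') D X l)) = I at h4 ⊢
  have h6 : (((2 * X / (mm D * Real.sqrt (mm (symmDiff K K'))) *
      Real.sqrt ((mm D : ℝ) * mm (symmDiff K K') / (l * X)) : ℝ)) : ℂ) =
      ((2 * Real.sqrt X * ((l : ℝ) ^ (-(1 / 2) : ℝ) * (mm D : ℝ) ^ (-(1 / 2) : ℝ)) : ℝ) : ℂ) := by
    rw [h5]
  rw [Complex.ofReal_mul, Complex.ofReal_mul _ (max 0 _), h4]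
  unfold rC
  push_cast at h6 ⊢
  linear_combination ((-1) ^ D.card * (∏ p ∈ symmDiff K K', (ss p : ℂ)) *
    ((chi (symmDiff K K') ((mm D : ℤ) * (l : ℤ)) : ℤ) : ℂ) * I) * h6

end Pool.Agent.Lib.MP_2c6f70_nt.RU.T
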