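import Pool.Agent.Lib.MP_2c6f70_nt.RU.T_ReA
import Pool.Agent.Lib.MP_2c6f70_nt.RU.T_ReB
import Pool.Agent.Lib.MP_2c6f70_nt.RU.T_Mel
import Pool.Agent.Lib.MP_2c6f70_nt.RU.T_OfB

/-!
# Block T: the recursion (7.2)

PROOF.  `X = 2 Y`, `L = ⌊Z^(2j) / Y⌋₊`, `C_j = P.powersetCard j`, `F` of `mellin_sep`.  `sum_le_pairs`, and `pair_int` for each pair (hypothesis `hL`: `mm D * mm (symmDiff K K') ≤ Z^(2j) ≤ Y (L+1) ≤ X (L+1)`: `mm_le`, `Nat.lt_floor_add_one`):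
`∑_K ∑_{K' ≠ K} β K conj (β K') T = 2 √X ∫ F ξ (∑_K ∑_{K' ≠ K} β K conj (β K') sep K K' X L ξ) dξ` (`integral_finsetSum`, `sep_integrable`), and by exchange of finite sums
`∑_K ∑_{K'} β K conj (β K') sep K K' X L ξ = ∑_l l^(-1/2) vl X ξ l ∑_K ∑_{K'} β K conj (β K') ∑_D eD ξ D (chi .. ∏ bx ξ p)`, of norm `≤ 4^j M ∑ ‖β K‖²` by `off_bound` (`norm_bx`, `norm_eD`, `norm_vl`).
`‖∫ F ξ G ξ‖ ≤ ∫ ‖F ξ‖ * bound ≤ bound` (`norm_integral_le_of_norm_le` with `hFi.norm.mul_const`).  Total: `S ≤ (5/2)(2 Y + 2 √(2Y) 4^j M) ∑ ‖β K‖² ≤ 10 * 4^j (Y + √Y M) ∑ ‖β K‖²`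
(`√(2Y) = √2 √Y`, `5 √2 ≤ 10`).
-/

set_option autoImplicit false

namespace Pool.Agent.Lib.MP_2c6f70_nt.RU.T

open Finset MeasureTheory

/-- exchange of the sums over `l` and over the pairs -/
theorem sep_exchange (C : Finset (Finset ℕ)) (β : Finset ℕ → ℂ) (X : ℝ) (L : ℕ) (ξ : ℝ) :
    ∑ K ∈ C, ∑ K' ∈ C.filter (fun K' => K ≠ K'), β K * (starRingEnd ℂ) (β K') * sep K K' X L ξ =
      ∑ l ∈ Icc 1 L, (((l : ℝ) ^ (-(1 / 2) : ℝ) : ℝ) : ℂ) * vl X ξ l *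
        ∑ K ∈ C, ∑ K' ∈ C.filter (fun K' => K ≠ K'),
          β K * (starRingEnd ℂ) (β K') * ∑ D ∈ (K ∩ K').powerset,
            eD ξ D * (((chi (symmDiff K K') ((mm D : ℤ) * (l : ℤ)) : ℤ) : ℂ) *
              ∏ p ∈ symmDiff K K', bx ξ p) := by
  have h1 : ∀ K ∈ C, ∑ K' ∈ C.filter (fun K' => K ≠ K'), β K * (starRingEnd ℂ) (β K') * sep K K' X L ξ =
      ∑ l ∈ Icc 1 L, ∑ K' ∈ C.filter (fun K' => K ≠ K'), (((l : ℝ) ^ (-(1 / 2) : ℝ) : ℝ) : ℂ) * vl X ξ l *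
        (β K * (starRingEnd ℂ) (β K') * ∑ D ∈ (K ∩ K').powerset,
            eD ξ D * (((chi (symmDiff K K') ((mm D : ℤ) * (l : ℤ)) : ℤ) : ℂ) *
              ∏ p ∈ symmDiff K K', bx ξ p)) := by
    intro K _
    rw [Finset.sum_comm]
    refine Finset.sum_congr rfl fun K' _ => ?_
    unfold sep
    rw [Finset.mul_sum]
    refine Finset.sum_congr rfl fun l _ => ?_
    ring
  rw [Finset.sum_congr rfl h1, Finset.sum_comm]
  refine Finset.sum_congr rfl fun l _ => ?_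
  rw [Finset.mul_sum]
  refine Finset.sum_congr rfl fun K _ => ?_
  rw [Finset.mul_sum]

theorem recursion (P : Finset ℕ) (Z : ℝ) (hP : PP P) (hZ : ∀ p ∈ P, (p : ℝ) ≤ Z) (hZ1 : 1 ≤ Z) (j Y : ℕ) (hY : 1 ≤ Y)
    (M : ℝ) (hM0 : 0 ≤ M) (hM : ∀ i ≤ j, LSW P i ⌊Z ^ (2 * j) / (Y : ℝ)⌋₊ M) :
    LS P j Y (10 * 4 ^ j * (Y + Real.sqrt Y * M)) := by
  intro β
  obtain ⟨F, _, hFi, hF1, hF⟩ := mellin_sep
  have hYr : (1 : ℝ) ≤ Y := by exact_mod_cast hY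
  have hY0 : (0 : ℝ) < Y := by linarith
  set C := P.powersetCard j with hC
  set L : ℕ := ⌊Z ^ (2 * j) / (Y : ℝ)⌋₊ with hL
  set X : ℝ := 2 * Y with hX
  have hX0 : 0 < X := by rw [hX]; linarith
  set Q : ℝ := ∑ K ∈ C, ‖β K‖ ^ 2 with hQ
  have hQ0 : 0 ≤ Q := Finset.sum_nonneg fun K _ => sq_nonneg _
  set G : ℝ → ℂ := fun ξ => ∑ K ∈ C, ∑ K' ∈ C.filter (fun K' => K ≠ K'),
    β K * (starRingEnd ℂ) (β K') * sep K K' X L ξ with hG
  have h1 := sum_le_pairs P j Y hY β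
  -- each pair is an integral
  have h2 : ∀ K ∈ C, ∀ K' ∈ C.filter (fun K' => K ≠ K'),
      ((∑' h : ℤ, ww (h / X) * (((chi K h : ℤ) : ℝ) * ((chi K' h : ℤ) : ℝ)) : ℝ) : ℂ) =
      2 * ((Real.sqrt X : ℝ) : ℂ) * ∫ ξ, F ξ * sep K K' X L ξ := by
    intro K hK K' hK'
    rw [Finset.mem_filter] at hK'
    have hKP : K ⊆ P := (Finset.mem_powersetCard.mp hK).1
    have hKP' : K' ⊆ P := (Finset.mem_powersetCard.mp hK'.1).1
    refine pair_int hFi hF (hP.subset hKP) (hP.subset hKP') hK'.2 hX0 ?_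
    intro D hD
    have h3 := mm_le hP hZ hZ1 hK hK'.1 hD
    refine h3.trans ?_
    have h4 : Z ^ (2 * j) / (Y : ℝ) ≤ L + 1 := (Nat.lt_floor_add_one _).le
    rw [div_le_iff₀ hY0] at h4
    have h5 : (0 : ℝ) ≤ L := Nat.cast_nonneg L
    rw [hX]
    nlinarith
  -- the sum over the pairs is an integral
  have h6 : ∑ K ∈ C, ∑ K' ∈ C.filter (fun K' => K ≠ K'), β K * (starRingEnd ℂ) (β K') *
      ((∑' h : ℤ, ww (h / X) * (((chi K h : ℤ) : ℝ) * ((chi K' h : ℤ) : ℝ)) : ℝ) : ℂ) =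
      2 * ((Real.sqrt X : ℝ) : ℂ) * ∫ ξ, F ξ * G ξ := by
    have h7 : ∀ ξ : ℝ, F ξ * G ξ = ∑ K ∈ C, ∑ K' ∈ C.filter (fun K' => K ≠ K'),
        β K * (starRingEnd ℂ) (β K') * (F ξ * sep K K' X L ξ) := by
      intro ξ
      rw [hG, Finset.mul_sum]
      refine Finset.sum_congr rfl fun K _ => ?_
      rw [Finset.mul_sum]
      refine Finset.sum_congr rfl fun K' _ => ?_
      ring
    have h8 : ∫ ξ, F ξ * G ξ = ∑ K ∈ C, ∑ K' ∈ C.filter (fun K' => K ≠ K'),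
        β K * (starRingEnd ℂ) (β K') * ∫ ξ, F ξ * sep K K' X L ξ := by
      rw [integral_congr_ae (Filter.Eventually.of_forall h7), integral_finsetSum]
      · refine Finset.sum_congr rfl fun K _ => ?_
        rw [integral_finsetSum]
        · refine Finset.sum_congr rfl fun K' _ => ?_
          rw [integral_const_mul]
        · intro K' _
          exact (sep_integrable hFi K K' X L).const_mul _
      · intro K _
        refine integrable_finsetSum _ fun K' _ => ?_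
        exact (sep_integrable hFi K K' X L).const_mul _
    rw [h8, Finset.mul_sum]
    refine Finset.sum_congr rfl fun K hK => ?_
    rw [Finset.mul_sum]
    refine Finset.sum_congr rfl fun K' hK' => ?_
    rw [h2 K hK K' hK']
    ring
  -- the bound of the integrand
  have h9 : ∀ ξ : ℝ, ‖G ξ‖ ≤ 4 ^ j * M * Q := by
    intro ξ
    rw [hG]
    show ‖∑ K ∈ C, ∑ K' ∈ C.filter (fun K' => K ≠ K'), β K * (starRingEnd ℂ) (β K') * sep K K' X L ξ‖ ≤ _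
    rw [sep_exchange]
    exact off_bound P j L M hM0 hM (bx ξ) (norm_bx ξ) (eD ξ) (norm_eD ξ) (vl X ξ) (norm_vl X ξ) β
  have hB0 : 0 ≤ 4 ^ j * M * Q := by positivity
  have h10 : ‖∫ ξ, F ξ * G ξ‖ ≤ 4 ^ j * M * Q := by
    have h11 : ‖∫ ξ, F ξ * G ξ‖ ≤ ∫ ξ, ‖F ξ‖ * (4 ^ j * M * Q) := by
      refine norm_integral_le_of_norm_le (hFi.norm.mul_const _) (Filter.Eventually.of_forall fun ξ => ?_)
      rw [norm_mul]
      exact mul_le_mul_of_nonneg_left (h9 ξ) (norm_nonneg _)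
    rw [integral_mul_const] at h11
    refine h11.trans ?_
    calc (∫ ξ, ‖F ξ‖) * (4 ^ j * M * Q) ≤ 1 * (4 ^ j * M * Q) := mul_le_mul_of_nonneg_right hF1 hB0
      _ = 4 ^ j * M * Q := one_mul _
  have h12 : ‖∑ K ∈ C, ∑ K' ∈ C.filter (fun K' => K ≠ K'), β K * (starRingEnd ℂ) (β K') *
      ((∑' h : ℤ, ww (h / X) * (((chi K h : ℤ) : ℝ) * ((chi K' h : ℤ) : ℝ)) : ℝ) : ℂ)‖ ≤
      2 * Real.sqrt X * (4 ^ j * M * Q) := by
    rw [h6, norm_mul]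
    have h13 : ‖(2 * ((Real.sqrt X : ℝ) : ℂ))‖ = 2 * Real.sqrt X := by
      rw [norm_mul, Complex.norm_real, Real.norm_eq_abs, abs_of_nonneg (Real.sqrt_nonneg X)]
      norm_num
    rw [h13]
    exact mul_le_mul_of_nonneg_left h10 (by positivity)
  have h14 : Real.sqrt X ≤ 2 * Real.sqrt Y := by
    rw [hX, Real.sqrt_le_left (by positivity), mul_pow, Real.sq_sqrt hY0.le]
    linarith
  have h15 : (1 : ℝ) ≤ 4 ^ j := one_le_pow₀ (by norm_num)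
  have hsY := Real.sqrt_nonneg (Y : ℝ)
  have h16 : ∑ h ∈ Icc 1 Y, ‖∑ K ∈ C, β K * ((chi K (h : ℤ) : ℤ) : ℂ)‖ ^ 2 ≤
      5 / 2 * (2 * Y * Q + 2 * Real.sqrt X * (4 ^ j * M * Q)) := by
    refine h1.trans (mul_le_mul_of_nonneg_left (add_le_add le_rfl h12) (by norm_num))
  refine h16.trans ?_
  have h17 : Real.sqrt X * (4 ^ j * M * Q) ≤ 2 * Real.sqrt Y * (4 ^ j * M * Q) :=
    mul_le_mul_of_nonneg_right h14 hB0
  have h18 : (Y : ℝ) * Q ≤ 4 ^ j * (Y * Q) := by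
    have : 0 ≤ (Y : ℝ) * Q := mul_nonneg hY0.le hQ0
    nlinarith
  calc 5 / 2 * (2 * Y * Q + 2 * Real.sqrt X * (4 ^ j * M * Q))
      = 5 * (Y * Q) + 5 * (Real.sqrt X * (4 ^ j * M * Q)) := by ring
    _ ≤ 5 * (4 ^ j * (Y * Q)) + 5 * (2 * Real.sqrt Y * (4 ^ j * M * Q)) := by
        have h19 : 0 ≤ 4 ^ j * ((Y : ℝ) * Q) := by positivity
        linarith
    _ ≤ 10 * (4 ^ j * (Y * Q)) + 10 * (Real.sqrt Y * (4 ^ j * M * Q)) := by
        have h19 : 0 ≤ 4 ^ j * ((Y : ℝ) * Q) := by positivity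
        linarith
    _ = 10 * 4 ^ j * (Y + Real.sqrt Y * M) * Q := by ring

end Pool.Agent.Lib.MP_2c6f70_nt.RU.T
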