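import Pool.Agent.Lib.MP_2c6f70_nt.RU.T_Rec
import Pool.Agent.Lib.MP_2c6f70_nt.RU.T_Dy

/-!
# Block T: first half of the step (see the docstring of `T_Dy`)

PROOF of `step_a`: `recursion` with `M` of `lsw_of_ls`, `L = ⌊Z^(2j)/Y⌋₊ ≤ Z^(2j)/Y` and `≤ Z^(2j)` (so `Nat.log 2 L ≤ Nat.log 2 ⌊Z^(2j)⌋₊`, `Nat.log_mono_right`, `Nat.floor_mono`):
`√Y L^(1/2) ≤ Z^j`, `√Y L^(τ-1/2) ≤ Y^(1/2) (Z^(2j)/Y)^(τ-1/2) = Y^(1-τ) (Z^(2τ-1))^j` (`Real.rpow_le_rpow`, `Real.div_rpow`, `Real.rpow_natCast_mul`...).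
So `10 * 4^j (Y + √Y M) ≤ 10 * 4^j (Y + 2 R (log+1) (Z^j + Y^(1-τ) (Z^(2τ-1))^j #P^j)) ≤ 20 * 4^j R (log + 1) (Y + Z^j + Y^(1-τ) (Z^(2τ-1) #P)^j)` as `R ≥ 1`.  `LS` is monotone in the constant (`ls_mono`).
-/

set_option autoImplicit false

namespace Pool.Agent.Lib.MP_2c6f70_nt.RU.T

open Finset

theorem ls_mono {P : Finset ℕ} {j Y : ℕ} {B B' : ℝ} (h : LS P j Y B) (hB : B ≤ B') : LS P j Y B' := by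
  intro β
  exact (h β).trans (mul_le_mul_of_nonneg_right hB (sum_nonneg (fun K _ => by positivity)))

theorem step_a (P : Finset ℕ) (Z : ℝ) (hP : PP P) (hne : P.Nonempty) (hZ : ∀ p ∈ P, (p : ℝ) ≤ Z) (hZ1 : 1 ≤ Z)
    (j Y : ℕ) (hY : 1 ≤ Y) (R τ : ℝ) (hR : 1 ≤ R) (h1 : 1 / 2 ≤ τ) (h2 : τ ≤ 1)
    (H : ∀ i ≤ j, ∀ Y : ℕ, 1 ≤ Y → LS P i Y (R * (Y + (Y : ℝ) ^ τ * (P.card : ℝ) ^ i))) :
    LS P j Y (20 * 4 ^ j * R * (Nat.log 2 ⌊Z ^ (2 * j)⌋₊ + 1) *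
      (Y + Z ^ j + (Y : ℝ) ^ (1 - τ) * (Z ^ (2 * τ - 1) * (P.card : ℝ)) ^ j)) := by
  have hR0 : (0 : ℝ) ≤ R := by linarith
  have hZ0 : (0 : ℝ) < Z := by linarith
  have hY0 : (0 : ℝ) < (Y : ℝ) := by exact_mod_cast hY
  have hY1 : (1 : ℝ) ≤ (Y : ℝ) := by exact_mod_cast hY
  obtain ⟨L, hLdef⟩ : ∃ L, L = ⌊Z ^ (2 * j) / (Y : ℝ)⌋₊ := ⟨_, rfl⟩
  have hq0 : (0 : ℝ) ≤ Z ^ (2 * j) / (Y : ℝ) := by positivity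
  have hL1 : (L : ℝ) ≤ Z ^ (2 * j) / (Y : ℝ) := by
    rw [hLdef]
    exact Nat.floor_le hq0
  have hL2 : Nat.log 2 L ≤ Nat.log 2 ⌊Z ^ (2 * j)⌋₊ := by
    apply Nat.log_mono_right
    rw [hLdef]
    apply Nat.floor_mono
    exact div_le_self (by positivity) hY1
  have hlg : (Nat.log 2 L : ℝ) + 1 ≤ (Nat.log 2 ⌊Z ^ (2 * j)⌋₊ : ℝ) + 1 := by
    have : (Nat.log 2 L : ℝ) ≤ (Nat.log 2 ⌊Z ^ (2 * j)⌋₊ : ℝ) := by exact_mod_cast hL2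
    linarith
  have hlg0 : (0 : ℝ) ≤ (Nat.log 2 L : ℝ) + 1 := by positivity
  have hlg1 : (1 : ℝ) ≤ (Nat.log 2 ⌊Z ^ (2 * j)⌋₊ : ℝ) + 1 := by
    have : (0 : ℝ) ≤ (Nat.log 2 ⌊Z ^ (2 * j)⌋₊ : ℝ) := by positivity
    linarith
  have hM := lsw_of_ls P hne j R τ hR0 h1 h2 H L
  rw [hLdef] at hM
  have hrec := recursion P Z hP hZ hZ1 j Y hY _ (by positivity) hM
  rw [← hLdef] at hrec
  apply ls_mono hrec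
  have hc0 : (0 : ℝ) ≤ (P.card : ℝ) ^ j := by positivity
  -- the two estimates
  have hYL : (Y : ℝ) * (L : ℝ) ≤ Z ^ (2 * j) := by
    rw [le_div_iff₀ hY0] at hL1
    linarith
  have e1 : Real.sqrt Y * (L : ℝ) ^ (1 / 2 : ℝ) ≤ Z ^ j := by
    rw [← Real.sqrt_eq_rpow, ← Real.sqrt_mul hY0.le]
    calc Real.sqrt ((Y : ℝ) * (L : ℝ)) ≤ Real.sqrt (Z ^ (2 * j)) := Real.sqrt_le_sqrt hYL
      _ = Z ^ j := by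
        rw [mul_comm 2 j, pow_mul]
        exact Real.sqrt_sq (by positivity)
  have e2 : Real.sqrt Y * (L : ℝ) ^ (τ - 1 / 2) ≤ (Y : ℝ) ^ (1 - τ) * (Z ^ (2 * τ - 1)) ^ j := by
    have e3 : (L : ℝ) ^ (τ - 1 / 2) ≤ (Z ^ (2 * j) / (Y : ℝ)) ^ (τ - 1 / 2) :=
      Real.rpow_le_rpow (by positivity) hL1 (by linarith)
    have e4 : (Z ^ (2 * j)) ^ (τ - 1 / 2) = (Z ^ (2 * τ - 1)) ^ j := by
      rw [← Real.rpow_natCast Z (2 * j), ← Real.rpow_mul hZ0.le, ← Real.rpow_natCast (Z ^ (2 * τ - 1)) j,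
        ← Real.rpow_mul hZ0.le]
      congr 1
      push_cast
      ring
    calc Real.sqrt Y * (L : ℝ) ^ (τ - 1 / 2)
        ≤ Real.sqrt Y * (Z ^ (2 * j) / (Y : ℝ)) ^ (τ - 1 / 2) :=
          mul_le_mul_of_nonneg_left e3 (Real.sqrt_nonneg _)
      _ = (Y : ℝ) ^ (1 - τ) * (Z ^ (2 * τ - 1)) ^ j := by
          rw [Real.div_rpow (by positivity) hY0.le, e4, Real.sqrt_eq_rpow,
            show (1 : ℝ) - τ = 1 / 2 - (τ - 1 / 2) by ring, Real.rpow_sub hY0 (1 / 2) (τ - 1 / 2)]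
          ring
  have e5 : Real.sqrt Y * (2 * R * ((Nat.log 2 L : ℝ) + 1) *
      ((L : ℝ) ^ (1 / 2 : ℝ) + (L : ℝ) ^ (τ - 1 / 2) * (P.card : ℝ) ^ j)) ≤
      2 * R * ((Nat.log 2 ⌊Z ^ (2 * j)⌋₊ : ℝ) + 1) *
        (Z ^ j + (Y : ℝ) ^ (1 - τ) * (Z ^ (2 * τ - 1) * (P.card : ℝ)) ^ j) := by
    have e6 : Real.sqrt Y * ((L : ℝ) ^ (1 / 2 : ℝ) + (L : ℝ) ^ (τ - 1 / 2) * (P.card : ℝ) ^ j) ≤
        Z ^ j + (Y : ℝ) ^ (1 - τ) * (Z ^ (2 * τ - 1) * (P.card : ℝ)) ^ j := by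
      rw [mul_add, mul_pow]
      apply add_le_add e1
      calc Real.sqrt Y * ((L : ℝ) ^ (τ - 1 / 2) * (P.card : ℝ) ^ j)
          = (Real.sqrt Y * (L : ℝ) ^ (τ - 1 / 2)) * (P.card : ℝ) ^ j := by ring
        _ ≤ ((Y : ℝ) ^ (1 - τ) * (Z ^ (2 * τ - 1)) ^ j) * (P.card : ℝ) ^ j :=
            mul_le_mul_of_nonneg_right e2 hc0
        _ = (Y : ℝ) ^ (1 - τ) * ((Z ^ (2 * τ - 1)) ^ j * (P.card : ℝ) ^ j) := by ring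
    calc Real.sqrt Y * (2 * R * ((Nat.log 2 L : ℝ) + 1) *
          ((L : ℝ) ^ (1 / 2 : ℝ) + (L : ℝ) ^ (τ - 1 / 2) * (P.card : ℝ) ^ j))
        = (2 * R * ((Nat.log 2 L : ℝ) + 1)) *
          (Real.sqrt Y * ((L : ℝ) ^ (1 / 2 : ℝ) + (L : ℝ) ^ (τ - 1 / 2) * (P.card : ℝ) ^ j)) := by ring
      _ ≤ (2 * R * ((Nat.log 2 ⌊Z ^ (2 * j)⌋₊ : ℝ) + 1)) *
          (Z ^ j + (Y : ℝ) ^ (1 - τ) * (Z ^ (2 * τ - 1) * (P.card : ℝ)) ^ j) := by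
          apply mul_le_mul _ e6 (by positivity) (by positivity)
          exact mul_le_mul_of_nonneg_left hlg (by positivity)
  have e7 : (Y : ℝ) ≤ 2 * R * ((Nat.log 2 ⌊Z ^ (2 * j)⌋₊ : ℝ) + 1) * Y := by
    have : (1 : ℝ) ≤ 2 * R * ((Nat.log 2 ⌊Z ^ (2 * j)⌋₊ : ℝ) + 1) := by nlinarith
    nlinarith
  calc 10 * 4 ^ j * ((Y : ℝ) + Real.sqrt Y * (2 * R * ((Nat.log 2 L : ℝ) + 1) *
          ((L : ℝ) ^ (1 / 2 : ℝ) + (L : ℝ) ^ (τ - 1 / 2) * (P.card : ℝ) ^ j)))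
      ≤ 10 * 4 ^ j * (2 * R * ((Nat.log 2 ⌊Z ^ (2 * j)⌋₊ : ℝ) + 1) * Y +
          2 * R * ((Nat.log 2 ⌊Z ^ (2 * j)⌋₊ : ℝ) + 1) *
            (Z ^ j + (Y : ℝ) ^ (1 - τ) * (Z ^ (2 * τ - 1) * (P.card : ℝ)) ^ j)) :=
        mul_le_mul_of_nonneg_left (add_le_add e7 e5) (by positivity)
    _ = _ := by ring

end Pool.Agent.Lib.MP_2c6f70_nt.RU.T
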