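import Pool.Agent.Lib.MP_2c6f70_nt.RU.T_Bas

/-!
# Block T: numbers for the step (7.3)

`Λ = Z^(2τ-1) k`.
`step_num_a`: `Λ^i ≤ Y^τ` implies `Z^i ≤ Y`: `Λ ≥ Z^(2τ-1+x) ≥ Z^τ` (`k ≥ Z^x`, `τ ≥ 1-x`), so `(Z^i)^τ ≤ Λ^i ≤ Y^τ` and `τ > 0` (`Real.rpow_le_rpow_iff`).
`step_num_b`: `Z ≤ k^(1/x)`, `Λ ≤ k^((2τ-1)/x + 1) = k^((2τ-1+x)/x)`, so `Y^τ < k^(i (2τ-1+x)/x)`, raise to the power `x/(2τ-1+x) > 0`.
`step_num_c`: `Nat.log 2 ⌊Z^(2i)⌋₊ ≤ log (Z^(2i))/log 2 ≤ 2 J B log N/log 2` (`Nat.log` and `Real.logb`: `Real.natLog_le_logb` or `2^(Nat.log 2 n) ≤ n`), and `60 * 4^J (2 J B log N/log 2 + 1) ≤ N` for large `N` (`Real.isLittleO_log_id_atTop`, or `log N ≤ 2 √N`).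
`card_le_Z`: `P ⊆ Icc 1 ⌊Z⌋₊`.
-/

set_option autoImplicit false

namespace Pool.Agent.Lib.MP_2c6f70_nt.RU.T

open Finset

theorem step_num_a (x τ Z k Y : ℝ) (i : ℕ) (hx0 : 0 < x) (hτ : 1 - x ≤ τ) (hτ1 : τ ≤ 1) (hx : x < 1 / 2) (hZ : 1 < Z) (hk : Z ^ x ≤ k)
    (hY : 1 ≤ Y) (h : (Z ^ (2 * τ - 1) * k) ^ i ≤ Y ^ τ) : Z ^ i ≤ Y := by
  have hZ0 : 0 < Z := by linarith
  have hτ0 : 0 < τ := by linarith
  have h1 : Z ^ τ ≤ Z ^ (2 * τ - 1) * k := by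
    calc Z ^ τ ≤ Z ^ (2 * τ - 1 + x) := Real.rpow_le_rpow_of_exponent_le hZ.le (by linarith)
      _ = Z ^ (2 * τ - 1) * Z ^ x := Real.rpow_add hZ0 _ _
      _ ≤ Z ^ (2 * τ - 1) * k := mul_le_mul_of_nonneg_left hk (Real.rpow_nonneg hZ0.le _)
  have h2 : (Z ^ i) ^ τ ≤ Y ^ τ := by
    calc (Z ^ i) ^ τ = (Z ^ τ) ^ i := by
          rw [← Real.rpow_natCast, ← Real.rpow_natCast, ← Real.rpow_mul hZ0.le, ← Real.rpow_mul hZ0.le,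
            mul_comm]
      _ ≤ (Z ^ (2 * τ - 1) * k) ^ i := pow_le_pow_left₀ (Real.rpow_nonneg hZ0.le _) h1 i
      _ ≤ Y ^ τ := h
  exact (Real.rpow_le_rpow_iff (pow_nonneg hZ0.le i) (by linarith) hτ0).1 h2

theorem step_num_b (x τ Z k Y : ℝ) (i : ℕ) (hx0 : 0 < x) (hτ : 1 - x ≤ τ) (hτ1 : τ ≤ 1) (hx : x < 1 / 2) (hZ : 1 < Z) (hk : Z ^ x ≤ k)
    (hY : 1 ≤ Y) (h : Y ^ τ < (Z ^ (2 * τ - 1) * k) ^ i) : Y ^ (τ * x / (2 * τ - 1 + x)) ≤ k ^ i := by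
  have hZ0 : 0 < Z := by linarith
  have hY0 : 0 < Y := by linarith
  have hk0 : 0 < k := lt_of_lt_of_le (Real.rpow_pos_of_pos hZ0 x) hk
  have hθ : 0 < 2 * τ - 1 + x := by linarith
  have h1 : Z ≤ k ^ (1 / x) := by
    calc Z = (Z ^ x) ^ (1 / x) := by
          rw [← Real.rpow_mul hZ0.le, mul_one_div_cancel hx0.ne', Real.rpow_one]
      _ ≤ k ^ (1 / x) := Real.rpow_le_rpow (Real.rpow_nonneg hZ0.le _) hk (by positivity)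
  have h2 : Z ^ (2 * τ - 1) * k ≤ k ^ ((2 * τ - 1 + x) / x) := by
    calc Z ^ (2 * τ - 1) * k ≤ (k ^ (1 / x)) ^ (2 * τ - 1) * k :=
          mul_le_mul_of_nonneg_right (Real.rpow_le_rpow hZ0.le h1 (by linarith)) hk0.le
      _ = k ^ (1 / x * (2 * τ - 1)) * k ^ (1 : ℝ) := by rw [← Real.rpow_mul hk0.le, Real.rpow_one]
      _ = k ^ ((2 * τ - 1 + x) / x) := by
          rw [← Real.rpow_add hk0]
          congr 1
          field_simp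
  have h3 : Y ^ τ ≤ (k ^ i) ^ ((2 * τ - 1 + x) / x) := by
    calc Y ^ τ ≤ (Z ^ (2 * τ - 1) * k) ^ i := h.le
      _ ≤ (k ^ ((2 * τ - 1 + x) / x)) ^ i :=
          pow_le_pow_left₀ (mul_nonneg (Real.rpow_nonneg hZ0.le _) hk0.le) h2 i
      _ = (k ^ i) ^ ((2 * τ - 1 + x) / x) := by
          rw [← Real.rpow_natCast, ← Real.rpow_natCast, ← Real.rpow_mul hk0.le, ← Real.rpow_mul hk0.le,
            mul_comm]
  calc Y ^ (τ * x / (2 * τ - 1 + x)) = (Y ^ τ) ^ (x / (2 * τ - 1 + x)) := by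
        rw [← Real.rpow_mul hY0.le]
        congr 1
        ring
    _ ≤ ((k ^ i) ^ ((2 * τ - 1 + x) / x)) ^ (x / (2 * τ - 1 + x)) :=
        Real.rpow_le_rpow (Real.rpow_nonneg hY0.le _) h3 (by positivity)
    _ = k ^ i := by
        rw [← Real.rpow_mul (pow_nonneg hk0.le i)]
        have : (2 * τ - 1 + x) / x * (x / (2 * τ - 1 + x)) = 1 := by
          field_simp
        rw [this, Real.rpow_one]

private theorem step_num_c_log (Z : ℝ) (hZ : 1 < Z) (n : ℕ) :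
    (Nat.log 2 ⌊Z ^ n⌋₊ : ℝ) ≤ n * Real.log Z / Real.log 2 := by
  have hZn : 1 ≤ Z ^ n := one_le_pow₀ hZ.le
  have hl2 : 0 < Real.log 2 := Real.log_pos one_lt_two
  have hf : ⌊Z ^ n⌋₊ ≠ 0 := by
    have : 1 ≤ ⌊Z ^ n⌋₊ := Nat.le_floor (by exact_mod_cast hZn)
    omega
  have h1 : (2 : ℝ) ^ (Nat.log 2 ⌊Z ^ n⌋₊) ≤ Z ^ n := by
    have h2 : 2 ^ (Nat.log 2 ⌊Z ^ n⌋₊) ≤ ⌊Z ^ n⌋₊ := Nat.pow_log_le_self 2 hf
    have h3 : ((2 ^ (Nat.log 2 ⌊Z ^ n⌋₊) : ℕ) : ℝ) ≤ (⌊Z ^ n⌋₊ : ℝ) := by exact_mod_cast h2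
    have h4 : (⌊Z ^ n⌋₊ : ℝ) ≤ Z ^ n := Nat.floor_le (by linarith)
    push_cast at h3
    linarith
  have h2 := Real.log_le_log (by positivity) h1
  rw [Real.log_pow, Real.log_pow] at h2
  rw [le_div_iff₀ hl2]
  exact h2

theorem step_num_c (B : ℝ) (hB : 0 < B) (J : ℕ) : ∃ N₀ : ℕ, ∀ N ≥ N₀, ∀ Z : ℝ, 1 < Z → Z ≤ (N : ℝ) ^ B → ∀ i ≤ J,
    60 * 4 ^ i * ((Nat.log 2 ⌊Z ^ (2 * i)⌋₊ : ℝ) + 1) ≤ N := by
  have hl2 : 0 < Real.log 2 := Real.log_pos one_lt_two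
  set K : ℝ := 60 * 4 ^ J * (2 * J * B / Real.log 2 + 1) with hK
  have hKpos : 0 < K := by positivity
  have h1 := Real.isLittleO_log_id_atTop.bound (inv_pos.2 hKpos)
  have h2 := (h1.and (Filter.eventually_ge_atTop (Real.exp 1)))
  have h3 := (tendsto_natCast_atTop_atTop (R := ℝ)).eventually h2
  obtain ⟨N₀, hN₀⟩ := Filter.eventually_atTop.1 h3
  refine ⟨N₀, fun N hN Z hZ hZN i hi => ?_⟩
  obtain ⟨h4, h5⟩ := hN₀ N hN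
  have hN1 : 1 ≤ (N : ℝ) := le_trans (Real.one_le_exp (by norm_num)) h5
  have hlN : 1 ≤ Real.log N := by
    rw [Real.le_log_iff_exp_le (by linarith)]
    exact h5
  rw [Real.norm_eq_abs, id, Real.norm_eq_abs, abs_of_nonneg (by linarith : (0 : ℝ) ≤ Real.log N),
    abs_of_nonneg (by linarith : (0 : ℝ) ≤ (N : ℝ))] at h4
  have hlZ : Real.log Z ≤ B * Real.log N := by
    have := Real.log_le_log (by linarith) hZN
    rwa [Real.log_rpow (by linarith)] at this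
  have h6 : (Nat.log 2 ⌊Z ^ (2 * i)⌋₊ : ℝ) ≤ 2 * J * B / Real.log 2 * Real.log N := by
    refine (step_num_c_log Z hZ (2 * i)).trans ?_
    have hi' : (i : ℝ) ≤ J := by exact_mod_cast hi
    have hlZ0 : 0 ≤ Real.log Z := Real.log_nonneg hZ.le
    have h7 : ((2 * i : ℕ) : ℝ) * Real.log Z ≤ 2 * J * (B * Real.log N) := by
      push_cast
      exact mul_le_mul (by linarith) hlZ hlZ0 (by positivity)
    calc ((2 * i : ℕ) : ℝ) * Real.log Z / Real.log 2 ≤ 2 * J * (B * Real.log N) / Real.log 2 :=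
          div_le_div_of_nonneg_right h7 hl2.le
      _ = 2 * J * B / Real.log 2 * Real.log N := by ring
  have h8 : (60 : ℝ) * 4 ^ i ≤ 60 * 4 ^ J :=
    mul_le_mul_of_nonneg_left (pow_le_pow_right₀ (by norm_num) hi) (by norm_num)
  calc 60 * 4 ^ i * ((Nat.log 2 ⌊Z ^ (2 * i)⌋₊ : ℝ) + 1)
      ≤ 60 * 4 ^ J * (2 * J * B / Real.log 2 * Real.log N + Real.log N) :=
        mul_le_mul h8 (by linarith) (by positivity) (by positivity)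
    _ = K * Real.log N := by rw [hK]; ring
    _ ≤ K * (K⁻¹ * N) := mul_le_mul_of_nonneg_left h4 hKpos.le
    _ = N := by rw [← mul_assoc, mul_inv_cancel₀ hKpos.ne', one_mul]

theorem card_le_Z {P : Finset ℕ} {Z : ℝ} (hZ1 : 1 ≤ Z) (hP : ∀ p ∈ P, p.Prime ∧ p % 4 = 1 ∧ (p : ℝ) ≤ Z) :
    (P.card : ℝ) ≤ Z := by
  have h1 : P ⊆ Finset.Icc 1 ⌊Z⌋₊ := by
    intro p hp
    obtain ⟨h1, _, h3⟩ := hP p hp
    exact Finset.mem_Icc.2 ⟨h1.one_lt.le, Nat.le_floor h3⟩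
  have h2 := Finset.card_le_card h1
  rw [Nat.card_Icc, Nat.add_sub_cancel] at h2
  calc (P.card : ℝ) ≤ (⌊Z⌋₊ : ℝ) := by exact_mod_cast h2
    _ ≤ Z := Nat.floor_le (by linarith)

end Pool.Agent.Lib.MP_2c6f70_nt.RU.T
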