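import Pool.Agent.Lib.MP_2c6f70_nt.RU.T_StA
import Pool.Agent.Lib.MP_2c6f70_nt.RU.T_Ext
import Pool.Agent.Lib.MP_2c6f70_nt.RU.T_StN

/-!
# Block T: the step (7.3)

PROOF of `claim_step`: given `J`, take `N₀` of `CLAIM x B τ E` for `J`, `N₀` of `step_num_c`, and `N ≥ 1`.  `k = #P` (real), `Λ = Z^(2τ-1) k`, `R = N^E ≥ 1`, `τ' = 1 - τ x/(2τ-1+x)`.
`Z > 1` and `Z^x ≤ k`, `x > 0` give `k > 1`, so `P` is nonempty.  For `j ≤ J`, `Y ≥ 1`: `i ≤ j` the greatest index with `Λ^i ≤ Y^τ` (`Nat.findGreatest`; `i = 0` works).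
`step_a` for `i` (hypothesis `H` from `CLAIM`) and `step_num_a`: `LS P i Y (R' * 3 Y)`, `R' = 20 * 4^i R (Nat.log 2 ⌊Z^(2i)⌋₊ + 1)`, since `Z^i ≤ Y` and `Y^(1-τ) Λ^i ≤ Y^(1-τ) Y^τ = Y`.  `3 R' ≤ N^(E+1)` by `step_num_c`.
If `i = j` done: `3 R' Y ≤ N^(E+B+1) (Y + ...)`.  If `i < j`: `ls_add`: `LS P j Y (k^(j-i) 3 R' Y)`, and `Λ^(i+1) > Y^τ` (maximality, `i + 1 ≤ j`), `step_num_b`: `Y^(1-τ') ≤ k^(i+1)`, so `Y k^(j-i) = Y^τ' Y^(1-τ') k^(j-i) ≤ Y^τ' k^(j+1)`, `k ≤ Z ≤ N^B`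
(`card_le_Z`).  So the constant is `≤ 3 R' N^B Y^τ' k^j ≤ N^(E+B+1) Y^τ' k^j`.  (`ls_mono`.)
PROOF of `claim_one`: `ls_trivial`, `N^0 = 1`, `Y^1 = Y`.
-/

set_option autoImplicit false

namespace Pool.Agent.Lib.MP_2c6f70_nt.RU.T

open Finset

theorem claim_one (x B : ℝ) : CLAIM x B 1 0 := by
  intro J
  refine ⟨0, fun N _ P Z _ _ _ _ j _ Y _ => ls_mono (ls_trivial P j Y) ?_⟩
  rw [Real.rpow_zero, Real.rpow_one, one_mul]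
  have : (0 : ℝ) ≤ Y := Nat.cast_nonneg _
  linarith

theorem claim_step (x B τ E : ℝ) (hx0 : 0 < x) (hx : x < 1 / 2) (hB : 0 < B) (hE : 0 ≤ E) (hτ : 1 - x ≤ τ) (hτ1 : τ ≤ 1)
    (H : CLAIM x B τ E) : CLAIM x B (1 - τ * x / (2 * τ - 1 + x)) (E + B + 1) := by
  classical
  intro J
  obtain ⟨N₁, hN₁⟩ := H J
  obtain ⟨N₂, hN₂⟩ := step_num_c B hB J
  refine ⟨max (max N₁ N₂) 1, fun N hN P Z hP hZ1 hZB hcard j hj Y hY => ?_⟩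
  have hNa : N₁ ≤ N := (le_max_left _ _).trans ((le_max_left _ _).trans hN)
  have hNb : N₂ ≤ N := (le_max_right _ _).trans ((le_max_left _ _).trans hN)
  have hN1 : (1 : ℝ) ≤ (N : ℝ) := by exact_mod_cast (le_max_right _ _).trans hN
  have hN0 : (0 : ℝ) < (N : ℝ) := by linarith
  have hY1 : (1 : ℝ) ≤ (Y : ℝ) := by exact_mod_cast hY
  have hY0 : (0 : ℝ) < (Y : ℝ) := by linarith
  have hZ0 : (0 : ℝ) < Z := by linarith
  have hτ0 : 0 < τ := by linarith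
  have hτh : 1 / 2 ≤ τ := by linarith
  obtain ⟨k, hk⟩ : ∃ k : ℝ, k = (P.card : ℝ) := ⟨_, rfl⟩
  have hkZ : Z ^ x ≤ k := by rw [hk]; exact hcard
  have hk1 : 1 < k := (Real.one_lt_rpow hZ1 hx0).trans_le hkZ
  have hk0 : 0 < k := by linarith
  have hkN : k ≤ (N : ℝ) ^ B := by
    rw [hk]
    exact (card_le_Z hZ1.le hP).trans hZB
  have hne : P.Nonempty := by
    rw [← Finset.card_pos]
    have : (0 : ℝ) < (P.card : ℝ) := by rw [← hk]; exact hk0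
    exact_mod_cast this
  have hPP : PP P := fun p hp => ⟨(hP p hp).1, (hP p hp).2.1⟩
  have hNE1 : 1 ≤ (N : ℝ) ^ E := Real.one_le_rpow hN1 hE
  have hNE0 : 0 < (N : ℝ) ^ E := by linarith
  -- the greatest index
  obtain ⟨p, hp⟩ : ∃ p : ℕ → Prop, ∀ i, p i ↔ (Z ^ (2 * τ - 1) * k) ^ i ≤ (Y : ℝ) ^ τ := ⟨_, fun i => Iff.rfl⟩
  obtain ⟨i, hi⟩ : ∃ i, i = Nat.findGreatest p j := ⟨_, rfl⟩
  have hij : i ≤ j := by rw [hi]; exact Nat.findGreatest_le j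
  have hp0 : p 0 := by
    rw [hp, pow_zero]
    exact Real.one_le_rpow hY1 hτ0.le
  have hpi : p i := by
    rw [hi]
    exact Nat.findGreatest_spec (P := p) (Nat.zero_le j) hp0
  have hpi' := (hp i).1 hpi
  have hiJ : i ≤ J := hij.trans hj
  have hst := step_a P Z hPP hne (fun q hq => (hP q hq).2.2) hZ1.le i Y hY ((N : ℝ) ^ E) τ hNE1 hτh hτ1
    (fun i' hi' Y' hY' => hN₁ N hNa P Z hP hZ1 hZB hcard i' (hi'.trans hiJ) Y' hY')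
  rw [← hk] at hst
  have ha : Z ^ i ≤ (Y : ℝ) := step_num_a x τ Z k Y i hx0 hτ hτ1 hx hZ1 hkZ hY1 hpi'
  have hb : (Y : ℝ) ^ (1 - τ) * (Z ^ (2 * τ - 1) * k) ^ i ≤ (Y : ℝ) := by
    calc (Y : ℝ) ^ (1 - τ) * (Z ^ (2 * τ - 1) * k) ^ i ≤ (Y : ℝ) ^ (1 - τ) * (Y : ℝ) ^ τ := by
          exact mul_le_mul_of_nonneg_left hpi' (Real.rpow_nonneg hY0.le _)
      _ = (Y : ℝ) := by
          rw [← Real.rpow_add hY0]
          norm_num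
  have hc := hN₂ N hNb Z hZ1 hZB i hiJ
  have hNE : (N : ℝ) ^ (E + 1) = (N : ℝ) ^ E * N := by rw [Real.rpow_add hN0, Real.rpow_one]
  have hLS : LS P i Y ((N : ℝ) ^ (E + 1) * Y) := by
    refine ls_mono hst ?_
    have hq : 0 ≤ 20 * 4 ^ i * (N : ℝ) ^ E * ((Nat.log 2 ⌊Z ^ (2 * i)⌋₊ : ℝ) + 1) := by positivity
    calc 20 * 4 ^ i * (N : ℝ) ^ E * ((Nat.log 2 ⌊Z ^ (2 * i)⌋₊ : ℝ) + 1) *
        (Y + Z ^ i + (Y : ℝ) ^ (1 - τ) * (Z ^ (2 * τ - 1) * k) ^ i)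
        ≤ 20 * 4 ^ i * (N : ℝ) ^ E * ((Nat.log 2 ⌊Z ^ (2 * i)⌋₊ : ℝ) + 1) * (3 * Y) := by
          exact mul_le_mul_of_nonneg_left (by linarith) hq
      _ = (60 * 4 ^ i * ((Nat.log 2 ⌊Z ^ (2 * i)⌋₊ : ℝ) + 1)) * ((N : ℝ) ^ E * Y) := by ring
      _ ≤ (N : ℝ) * ((N : ℝ) ^ E * Y) := by
          exact mul_le_mul_of_nonneg_right hc (by positivity)
      _ = (N : ℝ) ^ (E + 1) * Y := by rw [hNE]; ring
  have hB1 : 1 ≤ (N : ℝ) ^ B := Real.one_le_rpow hN1 hB.le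
  have hNEB : (N : ℝ) ^ (E + B + 1) = (N : ℝ) ^ (E + 1) * (N : ℝ) ^ B := by
    rw [← Real.rpow_add hN0]
    congr 1
    ring
  have hNE10 : 0 < (N : ℝ) ^ (E + 1) := Real.rpow_pos_of_pos hN0 _
  rw [← hk]
  obtain ⟨τ', hτ'⟩ : ∃ τ' : ℝ, τ' = 1 - τ * x / (2 * τ - 1 + x) := ⟨_, rfl⟩
  rw [← hτ']
  have hYτ' : 0 < (Y : ℝ) ^ τ' := Real.rpow_pos_of_pos hY0 _
  rcases hij.eq_or_lt with hije | hijl
  · rw [← hije]
    refine ls_mono hLS ?_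
    rw [hNEB]
    have h1 : (Y : ℝ) ≤ (Y : ℝ) + (Y : ℝ) ^ τ' * k ^ i := by
      have : 0 ≤ (Y : ℝ) ^ τ' * k ^ i := by positivity
      linarith
    calc (N : ℝ) ^ (E + 1) * Y ≤ (N : ℝ) ^ (E + 1) * (N : ℝ) ^ B * Y := by
          exact mul_le_mul_of_nonneg_right (le_mul_of_one_le_right hNE10.le hB1) hY0.le
      _ ≤ _ := mul_le_mul_of_nonneg_left h1 (by positivity)
  · have hnp : ¬ p (i + 1) := by
      have h1 : Nat.findGreatest p j < i + 1 := by rw [← hi]; exact Nat.lt_succ_self i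
      exact Nat.findGreatest_is_greatest h1 hijl
    have hlt : (Y : ℝ) ^ τ < (Z ^ (2 * τ - 1) * k) ^ (i + 1) := by
      rw [hp] at hnp
      exact not_le.1 hnp
    have hd := step_num_b x τ Z k Y (i + 1) hx0 hτ hτ1 hx hZ1 hkZ hY1 hlt
    have hYle : (Y : ℝ) ≤ (Y : ℝ) ^ τ' * k ^ (i + 1) := by
      calc (Y : ℝ) = (Y : ℝ) ^ τ' * (Y : ℝ) ^ (τ * x / (2 * τ - 1 + x)) := by
            rw [← Real.rpow_add hY0, hτ']
            norm_num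
        _ ≤ _ := mul_le_mul_of_nonneg_left hd hYτ'.le
    have hadd := ls_add (by positivity) hLS (j - i)
    rw [← hk, Nat.add_sub_cancel' hij] at hadd
    refine ls_mono hadd ?_
    have hkj : k ^ (j - i) * k ^ (i + 1) = k * k ^ j := by
      rw [← pow_add, ← pow_succ']
      congr 1
      omega
    calc k ^ (j - i) * ((N : ℝ) ^ (E + 1) * Y)
        ≤ k ^ (j - i) * ((N : ℝ) ^ (E + 1) * ((Y : ℝ) ^ τ' * k ^ (i + 1))) := by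
          exact mul_le_mul_of_nonneg_left (mul_le_mul_of_nonneg_left hYle hNE10.le) (by positivity)
      _ = (N : ℝ) ^ (E + 1) * ((Y : ℝ) ^ τ' * (k ^ (j - i) * k ^ (i + 1))) := by ring
      _ = k * ((N : ℝ) ^ (E + 1) * ((Y : ℝ) ^ τ' * k ^ j)) := by rw [hkj]; ring
      _ ≤ (N : ℝ) ^ B * ((N : ℝ) ^ (E + 1) * ((Y : ℝ) ^ τ' * k ^ j)) := by
          exact mul_le_mul_of_nonneg_right hkN (by positivity)
      _ = (N : ℝ) ^ (E + B + 1) * ((Y : ℝ) ^ τ' * k ^ j) := by rw [hNEB]; ring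
      _ ≤ (N : ℝ) ^ (E + B + 1) * (Y + (Y : ℝ) ^ τ' * k ^ j) := by
          exact mul_le_mul_of_nonneg_left (by linarith) (by positivity)

end Pool.Agent.Lib.MP_2c6f70_nt.RU.T
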