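import Pool.Agent.Lib.MP_2c6f70_nt.RU.T_StA
import Pool.Agent.Lib.MP_2c6f70_nt.RU.T_Ext
import Pool.Agent.Lib.MP_2c6f70_nt.RU.T_StN

/-!
# The large sieve claim without `N`

As `T_Stp`, `T_It` (copy and adapt the proofs), with the constant `C #P^E` instead of `N^E`; `k = #P`.
`claimF_num`: `Nat.log 2 ⌊Z^(2i)⌋₊ ≤ 2 J log Z / log 2`, `log Z ≤ Z^x / x` (`Real.log_le_rpow_div`), `1 < Z^x ≤ k`.
`claimF_one`: `ls_trivial`, `C = 1`, `k^0 = 1`, `Y^1 = Y`.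
`claimF_step`: given `J`: `C₁` from `H J`, `C₂` from `claimF_num`.  `R = C₁ k^E ≥ 1` (`k ≥ 1`, in fact `k > 1` because `Z^x > 1`).  For `j ≤ J`, `Y ≥ 1`: `i ≤ j` the greatest index with `Λ^i ≤ Y^τ`, `Λ = Z^(2τ-1) k`;
`step_a` and `step_num_a`: `LS P i Y (R' * 3 Y)`, `R' = 20 * 4^i R (Nat.log 2 ⌊Z^(2i)⌋₊ + 1)`, `3 R' ≤ C₁ C₂ k^(E+1)`.
`i = j`: done.  `i < j`: `ls_add` and `step_num_b` (`Y^(1-τ') ≤ k^(i+1)`): constant `≤ C₁ C₂ k^(E+1) Y k^(j-i) ≤ C₁ C₂ k^(E+1) k Y^τ' k^j = C₁ C₂ k^(E+2) Y^τ' k^j`.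
`claimF_final`: the same iteration as `claim_final` (`T_It`).
-/

set_option autoImplicit false

namespace Pool.Agent.Lib.MP_2c6f70_nt.RU.T

open Finset

/-- The claim with exponent `τ`, constant `C #P^E`. -/
def CLAIMF (x τ E : ℝ) : Prop :=
  ∀ J : ℕ, ∃ C : ℝ, 1 ≤ C ∧ ∀ (P : Finset ℕ) (Z : ℝ),
    (∀ p ∈ P, p.Prime ∧ p % 4 = 1 ∧ (p : ℝ) ≤ Z) → 1 < Z → Z ^ x ≤ (P.card : ℝ) →
    ∀ j ≤ J, ∀ Y : ℕ, 1 ≤ Y → LS P j Y (C * (P.card : ℝ) ^ E * (Y + (Y : ℝ) ^ τ * (P.card : ℝ) ^ j))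

private theorem X_Cl_log (Z : ℝ) (hZ : 1 < Z) (n : ℕ) :
    (Nat.log 2 ⌊Z ^ n⌋₊ : ℝ) ≤ n * Real.log Z / Real.log 2 := by
  have hZn : 1 ≤ Z ^ n := one_le_pow₀ hZ.le
  have hl2 : 0 < Real.log 2 := Real.log_pos one_lt_two
  have hf : ⌊Z ^ n⌋₊ ≠ 0 := by
    have : 1 ≤ ⌊Z ^ n⌋₊ := Nat.le_floor (by exact_mod_cast hZn)
    omega
  have h1 : (2 : ℝ) ^ (Nat.log 2 ⌊Z ^ n⌋₊) ≤ Z ^ n := by
    have h2 : 2 ^ (Nat.log 2 ⌊Z ^ n⌋₊) ≤ ⌊Z ^ n⌋₊ := Nat.pow_log_le_self 2 hf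
    have h3 : ((2 ^ (Nat.log 2 ⌊Z ^ n⌋₊) : ℕ) : ℝ) ≤ (⌊Z ^ n⌋₊ : ℝ) := by exact_mod_cast h2
    have h4 : (⌊Z ^ n⌋₊ : ℝ) ≤ Z ^ n := Nat.floor_le (by linarith)
    push_cast at h3
    linarith
  have h2 := Real.log_le_log (by positivity) h1
  rw [Real.log_pow, Real.log_pow] at h2
  rw [le_div_iff₀ hl2]
  exact h2

theorem claimF_num (x : ℝ) (hx0 : 0 < x) (J : ℕ) : ∃ C : ℝ, 1 ≤ C ∧ ∀ (P : Finset ℕ) (Z : ℝ),
    1 < Z → Z ^ x ≤ (P.card : ℝ) → ∀ i ≤ J,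
      60 * 4 ^ i * ((Nat.log 2 ⌊Z ^ (2 * i)⌋₊ : ℝ) + 1) ≤ C * (P.card : ℝ) := by
  have hl2 : 0 < Real.log 2 := Real.log_pos one_lt_two
  have hJ4 : (1 : ℝ) ≤ 4 ^ J := one_le_pow₀ (by norm_num)
  have hq : 0 ≤ 2 * (J : ℝ) / x / Real.log 2 := by positivity
  refine ⟨60 * 4 ^ J * (2 * J / x / Real.log 2 + 1), ?_, ?_⟩
  · nlinarith
  intro P Z hZ hcard i hi
  have hZ0 : 0 < Z := by linarith
  have hk1 : 1 < (P.card : ℝ) := (Real.one_lt_rpow hZ hx0).trans_le hcard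
  have hlZ0 : 0 ≤ Real.log Z := Real.log_nonneg hZ.le
  have hlZ : Real.log Z ≤ (P.card : ℝ) / x :=
    (Real.log_le_rpow_div hZ0.le hx0).trans (div_le_div_of_nonneg_right hcard hx0.le)
  have h6 : (Nat.log 2 ⌊Z ^ (2 * i)⌋₊ : ℝ) ≤ 2 * J / x / Real.log 2 * (P.card : ℝ) := by
    refine (X_Cl_log Z hZ (2 * i)).trans ?_
    have hi' : (i : ℝ) ≤ J := by exact_mod_cast hi
    have h7 : ((2 * i : ℕ) : ℝ) * Real.log Z ≤ 2 * J * ((P.card : ℝ) / x) := by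
      push_cast
      exact mul_le_mul (by linarith) hlZ hlZ0 (by positivity)
    calc ((2 * i : ℕ) : ℝ) * Real.log Z / Real.log 2 ≤ 2 * J * ((P.card : ℝ) / x) / Real.log 2 :=
          div_le_div_of_nonneg_right h7 hl2.le
      _ = 2 * J / x / Real.log 2 * (P.card : ℝ) := by ring
  have h8 : (60 : ℝ) * 4 ^ i ≤ 60 * 4 ^ J :=
    mul_le_mul_of_nonneg_left (pow_le_pow_right₀ (by norm_num) hi) (by norm_num)
  calc 60 * 4 ^ i * ((Nat.log 2 ⌊Z ^ (2 * i)⌋₊ : ℝ) + 1)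
      ≤ 60 * 4 ^ J * (2 * J / x / Real.log 2 * (P.card : ℝ) + (P.card : ℝ)) :=
        mul_le_mul h8 (by linarith) (by positivity) (by positivity)
    _ = 60 * 4 ^ J * (2 * J / x / Real.log 2 + 1) * (P.card : ℝ) := by ring

theorem claimF_one (x : ℝ) : CLAIMF x 1 0 := by
  intro J
  refine ⟨1, le_refl _, fun P Z _ _ _ j _ Y _ => ls_mono (ls_trivial P j Y) ?_⟩
  rw [Real.rpow_zero, Real.rpow_one, one_mul, one_mul]
  have : (0 : ℝ) ≤ Y := Nat.cast_nonneg _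
  linarith

theorem claimF_step (x τ E : ℝ) (hx0 : 0 < x) (hx : x < 1 / 2) (hE : 0 ≤ E) (hτ : 1 - x ≤ τ) (hτ1 : τ ≤ 1)
    (H : CLAIMF x τ E) : CLAIMF x (1 - τ * x / (2 * τ - 1 + x)) (E + 2) := by
  classical
  intro J
  obtain ⟨C₁, hC₁, hN₁⟩ := H J
  obtain ⟨C₂, hC₂, hN₂⟩ := claimF_num x hx0 J
  have hC₁0 : 0 < C₁ := by linarith
  have hC₂0 : 0 < C₂ := by linarith
  refine ⟨C₁ * C₂, by nlinarith, fun P Z hP hZ1 hcard j hj Y hY => ?_⟩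
  have hY1 : (1 : ℝ) ≤ (Y : ℝ) := by exact_mod_cast hY
  have hY0 : (0 : ℝ) < (Y : ℝ) := by linarith
  have hZ0 : (0 : ℝ) < Z := by linarith
  have hτ0 : 0 < τ := by linarith
  have hτh : 1 / 2 ≤ τ := by linarith
  obtain ⟨k, hk⟩ : ∃ k : ℝ, k = (P.card : ℝ) := ⟨_, rfl⟩
  have hkZ : Z ^ x ≤ k := by rw [hk]; exact hcard
  have hk1 : 1 < k := (Real.one_lt_rpow hZ1 hx0).trans_le hkZ
  have hk0 : 0 < k := by linarith
  have hne : P.Nonempty := by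
    rw [← Finset.card_pos]
    have : (0 : ℝ) < (P.card : ℝ) := by rw [← hk]; exact hk0
    exact_mod_cast this
  have hPP : PP P := fun p hp => ⟨(hP p hp).1, (hP p hp).2.1⟩
  have hkE1 : 1 ≤ k ^ E := Real.one_le_rpow hk1.le hE
  have hkE0 : 0 < k ^ E := by linarith
  have hR1 : 1 ≤ C₁ * k ^ E := by nlinarith
  -- the greatest index
  obtain ⟨p, hp⟩ : ∃ p : ℕ → Prop, ∀ i, p i ↔ (Z ^ (2 * τ - 1) * k) ^ i ≤ (Y : ℝ) ^ τ := ⟨_, fun i => Iff.rfl⟩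
  obtain ⟨i, hi⟩ : ∃ i, i = Nat.findGreatest p j := ⟨_, rfl⟩
  have hij : i ≤ j := by rw [hi]; exact Nat.findGreatest_le j
  have hp0 : p 0 := by
    rw [hp, pow_zero]
    exact Real.one_le_rpow hY1 hτ0.le
  have hpi : p i := by
    rw [hi]
    exact Nat.findGreatest_spec (P := p) (Nat.zero_le j) hp0
  have hpi' := (hp i).1 hpi
  have hiJ : i ≤ J := hij.trans hj
  have hst := step_a P Z hPP hne (fun q hq => (hP q hq).2.2) hZ1.le i Y hY (C₁ * k ^ E) τ hR1 hτh hτ1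
    (fun i' hi' Y' hY' => by
      have h := hN₁ P Z hP hZ1 hcard i' (hi'.trans hiJ) Y' hY'
      rw [← hk] at h ⊢
      exact h)
  rw [← hk] at hst
  have ha : Z ^ i ≤ (Y : ℝ) := step_num_a x τ Z k Y i hx0 hτ hτ1 hx hZ1 hkZ hY1 hpi'
  have hb : (Y : ℝ) ^ (1 - τ) * (Z ^ (2 * τ - 1) * k) ^ i ≤ (Y : ℝ) := by
    calc (Y : ℝ) ^ (1 - τ) * (Z ^ (2 * τ - 1) * k) ^ i ≤ (Y : ℝ) ^ (1 - τ) * (Y : ℝ) ^ τ := by
          exact mul_le_mul_of_nonneg_left hpi' (Real.rpow_nonneg hY0.le _)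
      _ = (Y : ℝ) := by
          rw [← Real.rpow_add hY0]
          norm_num
  have hc := hN₂ P Z hZ1 hcard i hiJ
  rw [← hk] at hc
  have hkE : k ^ (E + 1) = k ^ E * k := by rw [Real.rpow_add hk0, Real.rpow_one]
  have hkE2 : k ^ (E + 2) = k ^ (E + 1) * k := by
    rw [show E + 2 = E + 1 + 1 by ring, Real.rpow_add hk0, Real.rpow_one]
  have hLS : LS P i Y (C₁ * C₂ * k ^ (E + 1) * Y) := by
    refine ls_mono hst ?_
    have hq : 0 ≤ 20 * 4 ^ i * (C₁ * k ^ E) * ((Nat.log 2 ⌊Z ^ (2 * i)⌋₊ : ℝ) + 1) := by positivity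
    calc 20 * 4 ^ i * (C₁ * k ^ E) * ((Nat.log 2 ⌊Z ^ (2 * i)⌋₊ : ℝ) + 1) *
        (Y + Z ^ i + (Y : ℝ) ^ (1 - τ) * (Z ^ (2 * τ - 1) * k) ^ i)
        ≤ 20 * 4 ^ i * (C₁ * k ^ E) * ((Nat.log 2 ⌊Z ^ (2 * i)⌋₊ : ℝ) + 1) * (3 * Y) := by
          exact mul_le_mul_of_nonneg_left (by linarith) hq
      _ = (60 * 4 ^ i * ((Nat.log 2 ⌊Z ^ (2 * i)⌋₊ : ℝ) + 1)) * (C₁ * k ^ E * Y) := by ring
      _ ≤ (C₂ * k) * (C₁ * k ^ E * Y) := by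
          exact mul_le_mul_of_nonneg_right hc (by positivity)
      _ = C₁ * C₂ * k ^ (E + 1) * Y := by rw [hkE]; ring
  have hkE10 : 0 < k ^ (E + 1) := Real.rpow_pos_of_pos hk0 _
  rw [← hk]
  obtain ⟨τ', hτ'⟩ : ∃ τ' : ℝ, τ' = 1 - τ * x / (2 * τ - 1 + x) := ⟨_, rfl⟩
  rw [← hτ']
  have hYτ' : 0 < (Y : ℝ) ^ τ' := Real.rpow_pos_of_pos hY0 _
  rcases hij.eq_or_lt with hije | hijl
  · rw [← hije]
    refine ls_mono hLS ?_
    rw [hkE2]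
    have h1 : (Y : ℝ) ≤ (Y : ℝ) + (Y : ℝ) ^ τ' * k ^ i := by
      have : 0 ≤ (Y : ℝ) ^ τ' * k ^ i := by positivity
      linarith
    have h2 : C₁ * C₂ * k ^ (E + 1) ≤ C₁ * C₂ * (k ^ (E + 1) * k) := by
      rw [← mul_assoc]
      exact le_mul_of_one_le_right (by positivity) hk1.le
    exact mul_le_mul h2 h1 hY0.le (by positivity)
  · have hnp : ¬ p (i + 1) := by
      have h1 : Nat.findGreatest p j < i + 1 := by rw [← hi]; exact Nat.lt_succ_self i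
      exact Nat.findGreatest_is_greatest h1 hijl
    have hlt : (Y : ℝ) ^ τ < (Z ^ (2 * τ - 1) * k) ^ (i + 1) := by
      rw [hp] at hnp
      exact not_le.1 hnp
    have hd := step_num_b x τ Z k Y (i + 1) hx0 hτ hτ1 hx hZ1 hkZ hY1 hlt
    have hYle : (Y : ℝ) ≤ (Y : ℝ) ^ τ' * k ^ (i + 1) := by
      calc (Y : ℝ) = (Y : ℝ) ^ τ' * (Y : ℝ) ^ (τ * x / (2 * τ - 1 + x)) := by
            rw [← Real.rpow_add hY0, hτ']
            norm_num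
        _ ≤ _ := mul_le_mul_of_nonneg_left hd hYτ'.le
    have hadd := ls_add (by positivity) hLS (j - i)
    rw [← hk, Nat.add_sub_cancel' hij] at hadd
    refine ls_mono hadd ?_
    have hkj : k ^ (j - i) * k ^ (i + 1) = k * k ^ j := by
      rw [← pow_add, ← pow_succ']
      congr 1
      omega
    calc k ^ (j - i) * (C₁ * C₂ * k ^ (E + 1) * Y)
        ≤ k ^ (j - i) * (C₁ * C₂ * k ^ (E + 1) * ((Y : ℝ) ^ τ' * k ^ (i + 1))) := by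
          exact mul_le_mul_of_nonneg_left (mul_le_mul_of_nonneg_left hYle (by positivity)) (by positivity)
      _ = C₁ * C₂ * k ^ (E + 1) * ((Y : ℝ) ^ τ' * (k ^ (j - i) * k ^ (i + 1))) := by ring
      _ = C₁ * C₂ * k ^ (E + 2) * ((Y : ℝ) ^ τ' * k ^ j) := by rw [hkj, hkE2]; ring
      _ ≤ C₁ * C₂ * k ^ (E + 2) * (Y + (Y : ℝ) ^ τ' * k ^ j) := by
          exact mul_le_mul_of_nonneg_left (by linarith) (by positivity)

private theorem X_Cl_num {x τ : ℝ} (hx0 : 0 < x) (hx : x < 1 / 2) (h1 : 1 - x ≤ τ) :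
    1 - x ≤ 1 - τ * x / (2 * τ - 1 + x) ∧ 1 - τ * x / (2 * τ - 1 + x) ≤ 1 ∧
      1 - τ * x / (2 * τ - 1 + x) - (1 - x) ≤ (x / (1 - x)) * (τ - (1 - x)) := by
  have hd : 0 < 2 * τ - 1 + x := by linarith
  have hτ : 0 < τ := by linarith
  have h1x : 0 < 1 - x := by linarith
  refine ⟨?_, ?_, ?_⟩
  · have h : τ * x / (2 * τ - 1 + x) ≤ x := by
      rw [div_le_iff₀ hd]
      nlinarith
    linarith
  · have h : 0 ≤ τ * x / (2 * τ - 1 + x) := div_nonneg (mul_nonneg hτ.le hx0.le) hd.le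
    linarith
  · have e1 : 1 - τ * x / (2 * τ - 1 + x) - (1 - x) = x * (τ - (1 - x)) / (2 * τ - 1 + x) := by
      rw [eq_div_iff hd.ne']
      have e3 : τ * x / (2 * τ - 1 + x) * (2 * τ - 1 + x) = τ * x := div_mul_cancel₀ _ hd.ne'
      linear_combination -e3
    have e2 : x / (1 - x) * (τ - (1 - x)) = x * (τ - (1 - x)) / (1 - x) := by
      ring
    rw [e1, e2]
    refine div_le_div_of_nonneg_left (mul_nonneg hx0.le (by linarith)) h1x (by linarith)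

private theorem X_Cl_iter (x : ℝ) (hx0 : 0 < x) (hx : x < 1 / 2) (n : ℕ) :
    ∃ τ E : ℝ, 1 - x ≤ τ ∧ τ ≤ 1 ∧ τ ≤ 1 - x + (x / (1 - x)) ^ n * x ∧ 0 ≤ E ∧ CLAIMF x τ E := by
  induction n with
  | zero =>
    refine ⟨1, 0, by linarith, le_refl _, ?_, le_refl _, claimF_one x⟩
    rw [pow_zero]
    linarith
  | succ n ih =>
    obtain ⟨τ, E, h1, h2, h3, h4, h5⟩ := ih
    obtain ⟨g1, g2, g3⟩ := X_Cl_num hx0 hx h1
    refine ⟨1 - τ * x / (2 * τ - 1 + x), E + 2, g1, g2, ?_, by linarith,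
      claimF_step x τ E hx0 hx h4 h1 h2 h5⟩
    have hr : 0 ≤ x / (1 - x) := div_nonneg hx0.le (by linarith)
    have h6 : x / (1 - x) * (τ - (1 - x)) ≤ x / (1 - x) * ((x / (1 - x)) ^ n * x) :=
      mul_le_mul_of_nonneg_left (by linarith) hr
    rw [pow_succ]
    have h7 : x / (1 - x) * ((x / (1 - x)) ^ n * x) = (x / (1 - x)) ^ n * (x / (1 - x)) * x := by ring
    linarith

theorem claimF_final (x η : ℝ) (hx0 : 0 < x) (hx : x < 1 / 2) (hη : 0 < η) :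
    ∃ τ E : ℝ, 1 - x ≤ τ ∧ τ ≤ 1 ∧ τ ≤ 1 - x + η ∧ 0 ≤ E ∧ CLAIMF x τ E := by
  have h1x : 0 < 1 - x := by linarith
  have hr0 : 0 ≤ x / (1 - x) := div_nonneg hx0.le h1x.le
  have hr1 : x / (1 - x) < 1 := by
    rw [div_lt_one h1x]
    linarith
  obtain ⟨n, hn⟩ := exists_pow_lt_of_lt_one hη hr1
  obtain ⟨τ, E, h1, h2, h3, h4, h5⟩ := X_Cl_iter x hx0 hx n
  refine ⟨τ, E, h1, h2, h3.trans ?_, h4, h5⟩
  have h6 : (x / (1 - x)) ^ n * x ≤ (x / (1 - x)) ^ n * 1 :=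
    mul_le_mul_of_nonneg_left (by linarith) (pow_nonneg hr0 n)
  linarith

end Pool.Agent.Lib.MP_2c6f70_nt.RU.T
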