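import Pool.Agent.Lib.MP_2c6f70_nt.RU.DE

/-!
# The near clique, with the size of `V` relative to `S`

Copy the proof of `near_clique` (`DE.lean`, with its private lemmas under new names): the last step uses `hVδ : N^(-δ) #S ≤ #V`, `δ ≤ η` instead of `hVlow`.
-/

set_option autoImplicit false

namespace Pool.Agent.Lib.MP_2c6f70_nt.RU

open Pool.Agent.Lib.MP_2c6f70_nt Pool.Agent.Lib.MP_2c6f70_nt.KW

private theorem X_DE_large (e B : ℝ) (he : 0 < e) : ∃ N₀ : ℕ, ∀ N ≥ N₀, B ≤ (N : ℝ) ^ e := by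
  have h1 : Filter.Tendsto (fun N : ℕ => (N : ℝ) ^ e) Filter.atTop Filter.atTop :=
    (tendsto_rpow_atTop he).comp tendsto_natCast_atTop_atTop
  exact Filter.eventually_atTop.mp (h1.eventually_ge_atTop B)

private theorem X_DE_params (κ : ℝ) (hκ : 0 < κ) : ∃ (m : ℕ) (c : ℝ), 1 ≤ m ∧ 0 < c ∧
    3 * Real.sqrt (1 / m + c) + 2 * (1 / m + c) ≤ κ / 2 := by
  set u : ℝ := min ((κ / 12) ^ 2) (κ / 8) with hu
  have hu0 : 0 < u := lt_min (by positivity) (by positivity)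
  obtain ⟨m, hm⟩ := exists_nat_ge (2 / u)
  have hm0 : (0 : ℝ) < m := lt_of_lt_of_le (by positivity) hm
  refine ⟨m, u / 2, by exact_mod_cast hm0, by positivity, ?_⟩
  have h1 : 1 / (m : ℝ) ≤ u / 2 := by
    rw [div_le_div_iff₀ hm0 (by norm_num)]
    rw [div_le_iff₀ hu0] at hm
    linarith
  have h2 : 1 / (m : ℝ) + u / 2 ≤ u := by linarith
  have h3 : Real.sqrt (1 / (m : ℝ) + u / 2) ≤ κ / 12 := by
    have h4 : Real.sqrt (1 / (m : ℝ) + u / 2) ≤ Real.sqrt ((κ / 12) ^ 2) :=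
      Real.sqrt_le_sqrt (h2.trans (min_le_left _ _))
    rwa [Real.sqrt_sq (by positivity)] at h4
  have h5 : 1 / (m : ℝ) + u / 2 ≤ κ / 8 := h2.trans (min_le_right _ _)
  linarith

open Classical in
theorem near_clique2 (ε κ η : ℝ) (hε : 0 < ε) (hε1 : ε ≤ 1 / 4) (hκ : 0 < κ) (hη : 0 < η) :
    ∃ (C : ℝ) (N₀ : ℕ), ∀ N ≥ N₀, ∀ (q a : ℕ) (S : Finset ℕ) (z : ℕ),
    Ctx q a N S → Ext q a S (1 / 2 + ε) → (N : ℝ) ^ (1 / 2 + ε) ≤ (S.card : ℝ) → z ∈ S →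
      ∃ (V G : Finset ℕ) (ω : ℕ → ℤ), V ⊆ S ∧ G ⊆ q.primeFactors ∧
        (N : ℝ) ^ (-η) * S.card ≤ (V.card : ℝ) ∧ (∀ p ∈ G, p % 4 = 1 ∧ (ω p = 1 ∨ ω p = -1)) ∧
        (1 - κ) * Real.log q ≤ ∑ p ∈ G, wp q p ∧
        (((pairs V).filter (fun t => κ * Real.log q <
          ∑ p ∈ G.filter (fun p => jacobiSym (dn q a t.1 t.2) p ≠ ω p), wp q p)).card : ℝ) ≤ C * N := by
  obtain ⟨m, c, hm1, hc, hmc⟩ := X_DE_params κ hκ
  have hmR : (1 : ℝ) ≤ (m : ℝ) := by exact_mod_cast hm1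
  have hm0 : (0 : ℝ) < (m : ℝ) := by linarith
  set δ : ℝ := min (ε / 64) η with hδ
  have hδ0 : 0 < δ := lt_min (by positivity) hη
  have hδ1 : δ ≤ ε / 64 := min_le_left _ _
  have hδ2 : δ ≤ η := min_le_right _ _
  set e : ℝ := δ / (3 * m) with he
  have he0 : 0 < e := by positivity
  have hem : e * m = δ / 3 := by rw [he]; field_simp
  have heδ : e ≤ δ / 3 := by
    rw [← hem]
    calc e = e * 1 := (mul_one e).symm
      _ ≤ e * m := mul_le_mul_of_nonneg_left hmR he0.le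
  obtain ⟨N₁, hN₁⟩ := common_b ε 0 e hε hε1 le_rfl (by positivity) he0
  obtain ⟨N₂, hN₂⟩ := common_b ε δ e hε hε1 hδ0.le (by linarith) he0
  obtain ⟨N₃, hN₃⟩ := corr24 c hc
  obtain ⟨N₄, hN₄⟩ := many_primes ε hε
  obtain ⟨N₅, hN₅⟩ := X_DE_large (1 / 4) (max (2 * (m : ℝ) ^ 2) (max (4 * m + 1) (Real.log 8 / (κ / 2)))) (by norm_num)
  obtain ⟨N₆, hN₆⟩ := X_DE_large (2 * δ / 3) 2 (by positivity)
  refine ⟨32 * m, N₁ + N₂ + N₃ + N₄ + N₅ + N₆ + 1, fun N hN q a S z h hE hS hz => ?_⟩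
  have hn : (1 : ℝ) ≤ (N : ℝ) := by
    have : 1 ≤ N := by omega
    exact_mod_cast this
  have hn0 : (0 : ℝ) < (N : ℝ) := by linarith
  have hL := hN₅ N (by omega)
  have hL1 : 2 * (m : ℝ) ^ 2 ≤ (N : ℝ) ^ (1 / 4 : ℝ) := (le_max_left _ _).trans hL
  have hL2 : 4 * (m : ℝ) + 1 ≤ (N : ℝ) ^ (1 / 4 : ℝ) := ((le_max_left _ _).trans (le_max_right _ _)).trans hL
  have hL3 : Real.log 8 / (κ / 2) ≤ (N : ℝ) ^ (1 / 4 : ℝ) := ((le_max_right _ _).trans (le_max_right _ _)).trans hL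
  have hlogq : (N : ℝ) ^ (1 / 4 : ℝ) ≤ Real.log q := (hN₄ N (by omega) q a S h hS).2
  have hs4 : (N : ℝ) ^ (1 / 4 : ℝ) ≤ (S.card : ℝ) :=
    le_trans (Real.rpow_le_rpow_of_exponent_le hn (by linarith)) hS
  have hcorr : Corr q z S c := hN₃ N (by omega) q a S z h hlogq hs4 hz
  have hs0 : (0 : ℝ) < (S.card : ℝ) := lt_of_lt_of_le (Real.rpow_pos_of_pos hn0 _) hS
  have hSne : S.Nonempty := ⟨z, hz⟩
  -- first common value
  have hS0 : (N : ℝ) ^ (-(0 : ℝ)) * S.card ≤ (S.card : ℝ) := by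
    rw [neg_zero, Real.rpow_zero, one_mul]
  obtain ⟨b₀, hb₀⟩ := hN₁ N (by omega) q a S S z h hE hS hz (Finset.Subset.refl S) hS0
  have hexp0 : -(8 * 0 / ε + e) = -e := by ring
  rw [hexp0] at hb₀
  have hb₀' : ∀ inst : DecidablePred (fun t : ℕ × ℕ => bb q z t.1 t.2 = b₀), (N : ℝ) ^ (-e) * (S.card : ℝ) ^ 2 ≤
      ((@Finset.filter (ℕ × ℕ) (fun t => bb q z t.1 t.2 = b₀) inst (pairs S)).card : ℝ) := by
    intro inst
    have hinst : inst = fun t : ℕ × ℕ => instDecidableEqNat (bb q z t.1 t.2) b₀ := Subsingleton.elim _ _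
    rw [hinst]
    exact hb₀
  have hθ : 0 < (N : ℝ) ^ (-e) := Real.rpow_pos_of_pos hn0 _
  have hθm : ((N : ℝ) ^ (-e)) ^ m = (N : ℝ) ^ (-(δ / 3)) := by
    rw [← Real.rpow_natCast, ← Real.rpow_mul hn0.le]
    congr 1
    rw [← hem]; ring
  have hbig0 : (N : ℝ) ^ (1 / 4 : ℝ) ≤ (N : ℝ) ^ (-(δ / 3)) * S.card := by
    have h1 : (N : ℝ) ^ (1 / 4 : ℝ) ≤ (N : ℝ) ^ (-(δ / 3) + (1 / 2 + ε)) :=
      Real.rpow_le_rpow_of_exponent_le hn (by linarith)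
    rw [Real.rpow_add hn0 (-(δ / 3)) (1 / 2 + ε)] at h1
    have h2 : (N : ℝ) ^ (-(δ / 3)) * (N : ℝ) ^ (1 / 2 + ε) ≤ (N : ℝ) ^ (-(δ / 3)) * S.card :=
      mul_le_mul_of_nonneg_left hS (Real.rpow_nonneg hn0.le _)
    linarith
  have hbig : (m : ℝ) ^ 2 ≤ ((N : ℝ) ^ (-e)) ^ m / 2 * S.card := by
    rw [hθm]
    linarith
  obtain ⟨K, hKS, hKm, V, hVS, hVcard, hVK⟩ :=
    common_nbhd (S := S) (fun x y => bb q z x y = b₀) hθ hSne (hb₀' _) m hm1 hbig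
  rw [hθm] at hVcard
  -- the size of `V`
  have hVδ : (N : ℝ) ^ (-δ) * S.card ≤ (V.card : ℝ) := by
    have h1 : (N : ℝ) ^ (-(δ / 3)) = (N : ℝ) ^ (-δ) * (N : ℝ) ^ (2 * δ / 3) := by
      rw [← Real.rpow_add hn0]; congr 1; ring
    have h2 : 2 ≤ (N : ℝ) ^ (2 * δ / 3) := hN₆ N (by omega)
    have h3 : (N : ℝ) ^ (-δ) * 2 ≤ (N : ℝ) ^ (-δ) * (N : ℝ) ^ (2 * δ / 3) :=
      mul_le_mul_of_nonneg_left h2 (Real.rpow_nonneg hn0.le _)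
    rw [← h1] at h3
    have h4 : (N : ℝ) ^ (-δ) * S.card ≤ (N : ℝ) ^ (-(δ / 3)) / 2 * S.card :=
      mul_le_mul_of_nonneg_right (by linarith) hs0.le
    linarith
  have hVlow : (N : ℝ) ^ (-δ + (1 / 2 + ε)) ≤ (V.card : ℝ) := by
    rw [Real.rpow_add hn0 (-δ) (1 / 2 + ε)]
    have h2 : (N : ℝ) ^ (-δ) * (N : ℝ) ^ (1 / 2 + ε) ≤ (N : ℝ) ^ (-δ) * S.card :=
      mul_le_mul_of_nonneg_left hS (Real.rpow_nonneg hn0.le _)
    linarith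
  have hVhalf : (N : ℝ) ^ (1 / 4 + 1 / 4 : ℝ) ≤ (V.card : ℝ) :=
    le_trans (Real.rpow_le_rpow_of_exponent_le hn (by linarith)) hVlow
  have hV0 : (0 : ℝ) < (V.card : ℝ) := lt_of_lt_of_le (Real.rpow_pos_of_pos hn0 _) hVhalf
  have hn4 : (1 : ℝ) ≤ (N : ℝ) ^ (1 / 4 : ℝ) := Real.one_le_rpow hn (by norm_num)
  have hVq : (N : ℝ) ^ (1 / 4 : ℝ) ≤ (V.card : ℝ) :=
    le_trans (Real.rpow_le_rpow_of_exponent_le hn (by norm_num)) hVhalf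
  -- second common value
  obtain ⟨b₁, hb₁⟩ := hN₂ N (by omega) q a S V z h hE hS hz hVS hVδ
  set P := (pairs V).filter (fun t => bb q z t.1 t.2 = b₁) with hP
  have hPsub : P ⊆ pairs V := Finset.filter_subset _ _
  have hexp : (N : ℝ) ^ (-(1 / 4) : ℝ) ≤ (N : ℝ) ^ (-(8 * δ / ε + e)) := by
    apply Real.rpow_le_rpow_of_exponent_le hn
    have h1 : 8 * δ / ε ≤ 1 / 8 := by
      rw [div_le_iff₀ hε]; linarith
    linarith
  have hPbig : 4 * m * V.card < P.card := by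
    have h1 : (4 * (m : ℝ) + 1) * V.card ≤ (P.card : ℝ) := by
      have h2 : (N : ℝ) ^ (1 / 4 : ℝ) * (N : ℝ) ^ (1 / 4 : ℝ) ≤ (V.card : ℝ) := by
        rw [← Real.rpow_add hn0]; exact hVhalf
      have h3 : (N : ℝ) ^ (-(1 / 4) : ℝ) * ((N : ℝ) ^ (1 / 4 : ℝ) * (N : ℝ) ^ (1 / 4 : ℝ)) ≤
          (N : ℝ) ^ (-(1 / 4) : ℝ) * V.card := mul_le_mul_of_nonneg_left h2 (Real.rpow_nonneg hn0.le _)
      have h4 : (N : ℝ) ^ (-(1 / 4) : ℝ) * (N : ℝ) ^ (1 / 4 : ℝ) = 1 := by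
        rw [← Real.rpow_add hn0, neg_add_cancel, Real.rpow_zero]
      have h5 : (N : ℝ) ^ (-(1 / 4) : ℝ) * ((N : ℝ) ^ (1 / 4 : ℝ) * (N : ℝ) ^ (1 / 4 : ℝ)) = (N : ℝ) ^ (1 / 4 : ℝ) := by
        rw [← mul_assoc, h4, one_mul]
      rw [h5] at h3
      have h6 : (4 * (m : ℝ) + 1) * V.card ≤ ((N : ℝ) ^ (-(1 / 4) : ℝ) * V.card) * V.card :=
        mul_le_mul_of_nonneg_right (hL2.trans h3) hV0.le
      have h7 : (N : ℝ) ^ (-(1 / 4) : ℝ) * (V.card : ℝ) ^ 2 ≤ (N : ℝ) ^ (-(8 * δ / ε + e)) * (V.card : ℝ) ^ 2 :=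
        mul_le_mul_of_nonneg_right hexp (by positivity)
      have h8 : ((N : ℝ) ^ (-(1 / 4) : ℝ) * V.card) * V.card = (N : ℝ) ^ (-(1 / 4) : ℝ) * (V.card : ℝ) ^ 2 := by ring
      linarith
    have h2 : (4 * (m : ℝ)) * V.card < (P.card : ℝ) := by linarith
    exact_mod_cast h2
  obtain ⟨M, hMP, hMm, hdis⟩ := matching P hPsub m hPbig
  have hVm : 2 * m + 1 ≤ V.card := by
    have : 2 * (m : ℝ) + 1 ≤ (V.card : ℝ) := by linarith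
    exact_mod_cast this
  have hW : Real.log 8 ≤ κ / 2 * Real.log q := by
    have h1 := hL3.trans hlogq
    rw [div_le_iff₀ (by positivity)] at h1
    linarith
  obtain ⟨G, ω, hG, hGω, hGw, hfin⟩ := clique_of_nbhd (q := q) (a := a) (N := N) (S := S) (K := K) (V := V) (M := M)
    (z := z) (b₀ := b₀) (b₁ := b₁) (m := m) (c := c) (κ₀ := κ) h hz hc.le hcorr hKS hVS hm1 hKm hVK (hMP.trans hPsub) hMm hdis
    (fun t ht => (Finset.mem_filter.mp (hMP ht)).2) hVm hmc hW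
  refine ⟨V, G, ω, hVS, hG, ?_, hGω, hGw, hfin⟩
  exact le_trans (mul_le_mul_of_nonneg_right (Real.rpow_le_rpow_of_exponent_le hn (by linarith)) hs0.le) hVδ

end Pool.Agent.Lib.MP_2c6f70_nt.RU
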