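import Pool.Agent.Lib.MP_2c6f70_nt.RU.EA
import Pool.Agent.Lib.MP_2c6f70_nt.RU.EB

/-!
# Reduction to an extremal coprime progression, doubly exponential range (adapt `EC`)

`gr ε i = min (1/4) (ε (1 + i/4))`: the grid of exponents.
PROOF: as `reduction` in `EC.lean` (copy): `σ = 1/2 + ε`, `m`, `r`, `N' = N/m + 1`, `S'`; `ν = N/m` (real), `ν < N' ≤ 2 ν`.  Let `t = log N/log N'` (so `N = N'^t`, `t > 0`).
`#S' = #S ≥ ν^(1/2+ε) N^ε ≥ (N'/2)^(1/2+ε) N'^(ε t) ≥ N'^(1/2 + ε + ε t - ε/8)` for large `N'` (`2^(1/2+ε) ≤ 2 ≤ N'^(ε/8)`).  `#S' ≤ N'`, so `ε t ≤ 1/2 - 7ε/8`.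
`log log q' ≤ log (log q + log N) ≤ log 2 + max (log log q) (log log N) ≤ (3/2) N^(ε/4)` (for large `N`) `≤ N'^(t ε/4 + ε/16)` for large `N'`.  (`log q' > 0` as `q' ≥ 2`; if `log q ≤ log N` use `log (2 log N)`.)
Choice of `i`: `e° = ε + ε t - ε/8`.  If `e° ≥ 1/4`: any `i ≤ ⌈1/ε⌉₊` with `ε(1 + i/4) ≥ 1/4` (`i = ⌈1/ε⌉₊` works), `gr = 1/4 ≤ e°`, and `t ε/4 + ε/16 ≤ 1/8 - 7ε/32 + ε/16 ≤ 1/8 = gr/2`.
If `e° < 1/4`: `i = ⌊4 (e°/ε - 1)⌋₊` (`e° ≥ ε` since `t ≥ 1/8`: indeed `N' ≤ 2N` so `t ≥ 1/2` for large `N`), `ε (1 + i/4) ≤ e° < ε (1 + (i+1)/4)`, so `gr ε i = ε(1+i/4) ≥ e° - ε/4 = ε (t + 5/8)` and `gr/2 ≥ ε t/4 + ε/16`; `i ≤ 4 · (1/4)/ε ≤ ⌈1/ε⌉₊`.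
`N'` large when `N` is large: `N^ε ≤ 2 N'` as in `EC`.
-/

set_option autoImplicit false

namespace Pool.Agent.Lib.MP_2c6f70_nt.RU

open Pool.Agent.Lib.MP_2c6f70_nt Pool.Agent.Lib.MP_2c6f70_nt.KW

private theorem XE_nn {q a N : ℕ} {S : Finset ℕ} (hq : 1 ≤ q) (hS : Rts q a N S) :
    ∀ x ∈ S, nn q a x < N ∧ x ^ 2 = a + q * nn q a x := by
  intro x hx
  obtain ⟨n, hn, h⟩ := hS x hx
  have h1 : nn q a x = n := by
    unfold nn
    rw [h, Nat.add_sub_cancel_left, Nat.mul_div_cancel_left _ hq]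
  rw [h1]
  exact ⟨hn, h⟩

private theorem XE_inj {q a N : ℕ} {S : Finset ℕ} (hq : 1 ≤ q) (hS : Rts q a N S) :
    ∀ x ∈ S, ∀ y ∈ S, nn q a x = nn q a y → x = y := by
  intro x hx y hy h
  have h1 := (XE_nn hq hS x hx).2
  have h2 := (XE_nn hq hS y hy).2
  have h3 : x ^ 2 = y ^ 2 := by rw [h1, h2, h]
  exact Nat.pow_left_injective (by norm_num : (2 : ℕ) ≠ 0) h3

private theorem XE_card {q a N : ℕ} {S : Finset ℕ} (hq : 1 ≤ q) (hS : Rts q a N S) :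
    S.card ≤ N := by
  have h1 : S.card ≤ (Finset.range N).card := by
    apply Finset.card_le_card_of_injOn (nn q a)
    · intro x hx
      simp only [Finset.coe_range, Set.mem_Iio]
      exact (XE_nn hq hS x hx).1
    · intro x hx y hy h
      exact XE_inj hq hS x hx y hy h
  simpa using h1

private theorem XE_one {a N : ℕ} {S : Finset ℕ} (hS : Rts 1 a N S) : S.card ≤ Nat.sqrt N + 1 := by
  rcases S.eq_empty_or_nonempty with h0 | h0
  · simp [h0]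
  · have hmem := S.min'_mem h0
    set x₀ := S.min' h0 with hx₀
    have hsub : S ⊆ Finset.Icc x₀ (x₀ + Nat.sqrt N) := by
      intro y hy
      have hle : x₀ ≤ y := S.min'_le y hy
      obtain ⟨n, hn, h1⟩ := hS y hy
      obtain ⟨n', hn', h2⟩ := hS x₀ hmem
      obtain ⟨t, ht⟩ := Nat.exists_eq_add_of_le hle
      rw [Finset.mem_Icc]
      refine ⟨hle, ?_⟩
      rw [ht]
      apply Nat.add_le_add_left
      rw [Nat.le_sqrt]
      have h3 : t * t + x₀ ^ 2 ≤ y ^ 2 := by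
        rw [ht]
        nlinarith [Nat.zero_le (x₀ * t)]
      omega
    have h1 := Finset.card_le_card hsub
    rw [Nat.card_Icc] at h1
    omega

/-- The grid of exponents. -/
noncomputable def gr (ε : ℝ) (i : ℕ) : ℝ := min (1 / 4) (ε * (1 + (i : ℝ) / 4))

theorem reduction2 (ε : ℝ) (hε : 0 < ε) (hε1 : ε ≤ 1 / 4) :
    ∀ N₁ : ℕ, ∃ N₀ : ℕ, ∀ N ≥ N₀, ∀ q a : ℕ, 1 ≤ q → 1 ≤ a → Real.log (Real.log q) ≤ (N : ℝ) ^ (ε / 4) →
      ∀ T : Finset ℕ, (∀ n ∈ T, n < N ∧ IsSquare (q * n + a)) →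
      (N : ℝ) ^ (1 / 2 + 2 * ε) ≤ (T.card : ℝ) →
      ∃ N' ≥ N₁, ∃ (q' a' : ℕ) (S' : Finset ℕ), ∃ i ≤ ⌈1 / ε⌉₊, Ctx q' a' N' S' ∧ Ext q' a' S' (1 / 2 + ε) ∧
        (N' : ℝ) ^ (1 / 2 + gr ε i) ≤ (S'.card : ℝ) ∧ Real.log (Real.log q') ≤ (N' : ℝ) ^ (gr ε i / 2) := by
  intro N₁
  obtain ⟨M, hMdef⟩ : ∃ M : ℕ, M = max (max N₁ 64) (max (Nat.ceil ((3 : ℝ) ^ (1 / ε)))
    (Nat.ceil ((2 : ℝ) ^ (16 / ε)))) := ⟨_, rfl⟩
  have hM1 : N₁ ≤ M := by
    rw [hMdef]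
    exact le_trans (le_max_left _ _) (le_max_left _ _)
  have hM64 : 64 ≤ M := by
    rw [hMdef]
    exact le_trans (le_max_right _ _) (le_max_left _ _)
  have hM3 : Nat.ceil ((3 : ℝ) ^ (1 / ε)) ≤ M := by
    rw [hMdef]
    exact le_trans (le_max_left _ _) (le_max_right _ _)
  have hM16 : Nat.ceil ((2 : ℝ) ^ (16 / ε)) ≤ M := by
    rw [hMdef]
    exact le_trans (le_max_right _ _) (le_max_right _ _)
  refine ⟨max 2 (max (Nat.ceil ((2 * (M : ℝ)) ^ (1 / ε))) (Nat.ceil ((8 / ε) ^ (8 / ε)))), ?_⟩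
  intro N hNN q a hq ha hlog T hT hcard
  have hN2 : 2 ≤ N := le_trans (le_max_left _ _) hNN
  have hN : Nat.ceil ((2 * (M : ℝ)) ^ (1 / ε)) ≤ N :=
    le_trans (le_trans (le_max_left _ _) (le_max_right _ _)) hNN
  have hN8 : Nat.ceil ((8 / ε) ^ (8 / ε)) ≤ N :=
    le_trans (le_trans (le_max_right _ _) (le_max_right _ _)) hNN
  have hεne : ε ≠ 0 := ne_of_gt hε
  have hM0 : (64 : ℝ) ≤ (M : ℝ) := by exact_mod_cast hM64
  have hNr : (2 * (M : ℝ)) ^ (1 / ε) ≤ (N : ℝ) := le_trans (Nat.le_ceil _) (by exact_mod_cast hN)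
  have hN1r : (1 : ℝ) ≤ (N : ℝ) := by
    refine le_trans ?_ hNr
    apply Real.one_le_rpow
    · linarith
    · positivity
  have hN1 : 1 ≤ N := by exact_mod_cast hN1r
  have hNε : 2 * (M : ℝ) ≤ (N : ℝ) ^ ε := by
    have h1 : (2 * (M : ℝ)) = ((2 * (M : ℝ)) ^ (1 / ε)) ^ ε := by
      rw [← Real.rpow_mul (by positivity), one_div, inv_mul_cancel₀ hεne, Real.rpow_one]
    rw [h1]
    exact Real.rpow_le_rpow (by positivity) hNr hε.le
  obtain ⟨m, r, hm1, hmN, hrm, hmax⟩ := exists_max_class T N hN1 (1 / 2 + ε)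
  set T' : Finset ℕ := T.filter (fun n => n % m = r) with hT'
  have hT'prop : ∀ n ∈ T', n < N ∧ n % m = r ∧ IsSquare (q * n + a) := by
    intro n hn
    rw [hT', Finset.mem_filter] at hn
    exact ⟨(hT n hn.1).1, hn.2, (hT n hn.1).2⟩
  obtain ⟨S, hSR, hScard, hSmem, hSclass⟩ := class_roots hq hm1 T' hT'prop
  have hqm : 1 ≤ q * m := Nat.one_le_iff_ne_zero.mpr (by positivity)
  have haq : 1 ≤ a + q * r := le_trans ha (Nat.le_add_right _ _)
  have hmr : (1 : ℝ) ≤ (m : ℝ) := by exact_mod_cast hm1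
  have hm0 : (0 : ℝ) < (m : ℝ) := by linarith
  have hσ0 : (0 : ℝ) < 1 / 2 + ε := by linarith
  have hmσ : (0 : ℝ) < (m : ℝ) ^ (1 / 2 + ε) := Real.rpow_pos_of_pos hm0 _
  -- the size of the class
  have hTT : (T.card : ℝ) ≤ (S.card : ℝ) * (m : ℝ) ^ (1 / 2 + ε) := by
    have h1 := hmax 1 0 le_rfl hN1
    have h2 : T.filter (fun n => n % 1 = 0 % 1) = T := by
      apply Finset.filter_true_of_mem
      intro n _
      rw [Nat.mod_one, Nat.zero_mod]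
    rw [h2, Nat.cast_one, Real.one_rpow, mul_one] at h1
    rw [hScard]
    exact h1
  -- real quotient
  set ρ : ℝ := (N : ℝ) / m with hρ
  have hρ1 : 1 ≤ ρ := by
    rw [hρ, le_div_iff₀ hm0, one_mul]
    exact_mod_cast hmN
  have hρ0 : 0 < ρ := by linarith
  have hN0 : (0 : ℝ) < (N : ℝ) := by linarith
  have hSlow : ρ ^ (1 / 2 + ε) * (N : ℝ) ^ ε ≤ (S.card : ℝ) := by
    have h1 : (N : ℝ) ^ (1 / 2 + 2 * ε) ≤ (S.card : ℝ) * (m : ℝ) ^ (1 / 2 + ε) := le_trans hcard hTT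
    have h2 : (N : ℝ) ^ (1 / 2 + 2 * ε) = (N : ℝ) ^ (1 / 2 + ε) * (N : ℝ) ^ ε := by
      rw [← Real.rpow_add hN0]
      ring_nf
    rw [h2] at h1
    rw [hρ, Real.div_rpow hN0.le hm0.le, div_mul_eq_mul_div, div_le_iff₀ hmσ]
    exact h1
  set N' : ℕ := N / m + 1 with hN'
  have hN'ρ : ρ ≤ (N' : ℝ) := by
    rw [hρ, div_le_iff₀ hm0, hN']
    have h1 : N < m * (N / m + 1) := Nat.lt_mul_div_succ N (by omega)
    have h2 : (N : ℝ) < (m : ℝ) * ((N / m + 1 : ℕ) : ℝ) := by exact_mod_cast h1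
    linarith
  have hN'2 : (N' : ℝ) ≤ 2 * ρ := by
    have h1 : ((N / m : ℕ) : ℝ) ≤ ρ := Nat.cast_div_le
    have h2 : (N' : ℝ) = ((N / m : ℕ) : ℝ) + 1 := by rw [hN']; push_cast; ring
    rw [h2]
    linarith
  have hN'0 : (0 : ℝ) < (N' : ℝ) := lt_of_lt_of_le hρ0 hN'ρ
  have hNε2 : (2 : ℝ) ≤ (N : ℝ) ^ ε := by linarith
  have hNε0 : (0 : ℝ) < (N : ℝ) ^ ε := by linarith
  have hρσ : (0 : ℝ) < ρ ^ (1 / 2 + ε) := Real.rpow_pos_of_pos hρ0 _
  have hN'σ : (N' : ℝ) ^ (1 / 2 + ε) ≤ (S.card : ℝ) := by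
    have h1 : (N' : ℝ) ^ (1 / 2 + ε) ≤ (2 * ρ) ^ (1 / 2 + ε) :=
      Real.rpow_le_rpow hN'0.le hN'2 hσ0.le
    have h2 : (2 * ρ) ^ (1 / 2 + ε) = (2 : ℝ) ^ (1 / 2 + ε) * ρ ^ (1 / 2 + ε) :=
      Real.mul_rpow (by norm_num) hρ0.le
    have h3 : (2 : ℝ) ^ (1 / 2 + ε) ≤ 2 := by
      have h4 : (2 : ℝ) ^ (1 / 2 + ε) ≤ (2 : ℝ) ^ (1 : ℝ) :=
        Real.rpow_le_rpow_of_exponent_le (by norm_num) (by linarith)
      rwa [Real.rpow_one] at h4
    calc (N' : ℝ) ^ (1 / 2 + ε) ≤ (2 : ℝ) ^ (1 / 2 + ε) * ρ ^ (1 / 2 + ε) := by rw [← h2]; exact h1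
      _ ≤ (N : ℝ) ^ ε * ρ ^ (1 / 2 + ε) :=
          mul_le_mul_of_nonneg_right (le_trans h3 hNε2) hρσ.le
      _ = ρ ^ (1 / 2 + ε) * (N : ℝ) ^ ε := mul_comm _ _
      _ ≤ (S.card : ℝ) := hSlow
  have hSN' : (S.card : ℝ) ≤ (N' : ℝ) := by exact_mod_cast XE_card hqm hSR
  have hNεN' : (N : ℝ) ^ ε ≤ 2 * (N' : ℝ) := by
    have h1 : ρ ^ (1 / 2 + ε) * (N : ℝ) ^ ε ≤ 2 * ρ := le_trans hSlow (le_trans hSN' hN'2)
    have h2 : ρ = ρ ^ (1 / 2 + ε) * ρ ^ (1 / 2 - ε) := by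
      rw [← Real.rpow_add hρ0]
      have h3 : (1 / 2 + ε + (1 / 2 - ε) : ℝ) = 1 := by ring
      rw [h3, Real.rpow_one]
    have h3 : ρ ^ (1 / 2 + ε) * (N : ℝ) ^ ε ≤ ρ ^ (1 / 2 + ε) * (2 * ρ ^ (1 / 2 - ε)) := by
      calc ρ ^ (1 / 2 + ε) * (N : ℝ) ^ ε ≤ 2 * ρ := h1
        _ = 2 * (ρ ^ (1 / 2 + ε) * ρ ^ (1 / 2 - ε)) := by rw [← h2]
        _ = ρ ^ (1 / 2 + ε) * (2 * ρ ^ (1 / 2 - ε)) := by ring
    have h4 : (N : ℝ) ^ ε ≤ 2 * ρ ^ (1 / 2 - ε) := le_of_mul_le_mul_left h3 hρσ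
    have h5 : ρ ^ (1 / 2 - ε) ≤ ρ := by
      have h6 : ρ ^ (1 / 2 - ε) ≤ ρ ^ (1 : ℝ) := Real.rpow_le_rpow_of_exponent_le hρ1 (by linarith)
      rwa [Real.rpow_one] at h6
    linarith
  have hMN' : (M : ℝ) ≤ (N' : ℝ) := by linarith
  have hMN'n : M ≤ N' := by exact_mod_cast hMN'
  -- `Ext`
  have hExt : Ext (q * m) (a + q * r) S (1 / 2 + ε) := by
    intro m' r' hm'
    have hm'r : (1 : ℝ) ≤ (m' : ℝ) := by exact_mod_cast hm'
    have hm'0 : (0 : ℝ) < (m' : ℝ) := by linarith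
    rcases Nat.lt_or_ge N (m * m') with hlt | hge
    · have h1 : N / m < m' := by
        rw [Nat.div_lt_iff_lt_mul (by omega)]
        rw [mul_comm]
        exact hlt
      have h2 : (S.filter (fun x => nn (q * m) (a + q * r) x % m' = r' % m')).card ≤ 1 := by
        rw [Finset.card_le_one]
        intro x hx y hy
        rw [Finset.mem_filter] at hx hy
        have hx1 := (XE_nn hqm hSR x hx.1).1
        have hy1 := (XE_nn hqm hSR y hy.1).1
        apply XE_inj hqm hSR x hx.1 y hy.1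
        have hx2 : nn (q * m) (a + q * r) x % m' = nn (q * m) (a + q * r) x :=
          Nat.mod_eq_of_lt (by omega)
        have hy2 : nn (q * m) (a + q * r) y % m' = nn (q * m) (a + q * r) y :=
          Nat.mod_eq_of_lt (by omega)
        rw [← hx2, ← hy2, hx.2, hy.2]
      have h3 : ((S.filter (fun x => nn (q * m) (a + q * r) x % m' = r' % m')).card : ℝ) ≤ 1 := by
        exact_mod_cast h2
      have h4 : (0 : ℝ) ≤ S.card * (m' : ℝ) ^ (-(1 / 2 + ε)) := by positivity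
      linarith
    · have h1 := hSclass m' r' hm'
      have h2 : (T'.filter (fun n => n % (m * m') = (r + m * (r' % m')) % (m * m'))).card ≤
          (T.filter (fun n => n % (m * m') = (r + m * (r' % m')) % (m * m'))).card := by
        apply Finset.card_le_card
        apply Finset.filter_subset_filter
        rw [hT']
        exact Finset.filter_subset _ _
      have h3 := hmax (m * m') (r + m * (r' % m')) (Nat.one_le_iff_ne_zero.mpr (by positivity)) hge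
      have h4 : ((S.filter (fun x => nn (q * m) (a + q * r) x % m' = r' % m')).card : ℝ) ≤
          ((T.filter (fun n => n % (m * m') = (r + m * (r' % m')) % (m * m'))).card : ℝ) := by
        exact_mod_cast le_trans h1 h2
      have h5 : (((m * m' : ℕ) : ℝ)) ^ (1 / 2 + ε) = (m : ℝ) ^ (1 / 2 + ε) * (m' : ℝ) ^ (1 / 2 + ε) := by
        rw [Nat.cast_mul, Real.mul_rpow hm0.le hm'0.le]
      have hm'σ : (0 : ℝ) < (m' : ℝ) ^ (1 / 2 + ε) := Real.rpow_pos_of_pos hm'0 _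
      have h6 : ((S.filter (fun x => nn (q * m) (a + q * r) x % m' = r' % m')).card : ℝ) *
          ((m : ℝ) ^ (1 / 2 + ε) * (m' : ℝ) ^ (1 / 2 + ε)) ≤ (S.card : ℝ) * (m : ℝ) ^ (1 / 2 + ε) := by
        rw [hScard, ← h5]
        exact le_trans (mul_le_mul_of_nonneg_right h4 (by positivity)) h3
      have h7 : ((S.filter (fun x => nn (q * m) (a + q * r) x % m' = r' % m')).card : ℝ) *
          (m' : ℝ) ^ (1 / 2 + ε) ≤ (S.card : ℝ) := by
        have h8 : (m : ℝ) ^ (1 / 2 + ε) *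
            (((S.filter (fun x => nn (q * m) (a + q * r) x % m' = r' % m')).card : ℝ) *
              (m' : ℝ) ^ (1 / 2 + ε)) ≤ (m : ℝ) ^ (1 / 2 + ε) * (S.card : ℝ) := by
          linarith only [h6]
        exact le_of_mul_le_mul_left h8 hmσ
      have h9 : (m' : ℝ) ^ (-(1 / 2 + ε)) = ((m' : ℝ) ^ (1 / 2 + ε))⁻¹ := Real.rpow_neg hm'0.le _
      have h10 : ((S.filter (fun x => nn (q * m) (a + q * r) x % m' = r' % m')).card : ℝ) ≤
          (S.card : ℝ) * (m' : ℝ) ^ (-(1 / 2 + ε)) := by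
        rw [h9, ← div_eq_mul_inv, le_div_iff₀ hm'σ]
        exact h7
      linarith
  have hN'1 : (1 : ℝ) ≤ (N' : ℝ) := by linarith
  have hsq : (N' : ℝ) ^ (1 / 2 : ℝ) = Real.sqrt (N' : ℝ) := (Real.sqrt_eq_rpow _).symm
  have hsqle : Real.sqrt (N' : ℝ) ≤ (N' : ℝ) ^ (1 / 2 + ε) := by
    rw [← hsq]
    exact Real.rpow_le_rpow_of_exponent_le hN'1 (by linarith)
  have hS8 : 8 ≤ S.card := by
    have h1 : (8 : ℝ) ≤ Real.sqrt (N' : ℝ) := by
      rw [show (8 : ℝ) = Real.sqrt (64 : ℝ) by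
        rw [show (64 : ℝ) = 8 ^ 2 by norm_num, Real.sqrt_sq (by norm_num)]]
      exact Real.sqrt_le_sqrt (by linarith)
    have h2 : (8 : ℝ) ≤ (S.card : ℝ) := le_trans h1 (le_trans hsqle hN'σ)
    exact_mod_cast h2
  obtain ⟨q', a', S', hq'1, hq'le, ha'1, hcop, hRts', hS'card, hExt'⟩ :=
    coprime_of_ext (by linarith : (1 / 2 : ℝ) ≤ 1 / 2 + ε) hqm haq hSR hS8 hExt
  have hS'σ : (N' : ℝ) ^ (1 / 2 + ε) ≤ (S'.card : ℝ) := by
    rw [hS'card]
    exact hN'σ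
  -- `q' ≥ 2`
  have hq'2 : 2 ≤ q' := by
    by_contra hcon
    have hq1 : q' = 1 := by omega
    rw [hq1] at hRts'
    have h1 := XE_one hRts'
    have h2 : (S'.card : ℝ) ≤ Real.sqrt (N' : ℝ) + 1 := by
      have h3 : (S'.card : ℝ) ≤ (Nat.sqrt N' : ℝ) + 1 := by exact_mod_cast h1
      have h4 : (Nat.sqrt N' : ℝ) ≤ Real.sqrt (N' : ℝ) := Real.nat_sqrt_le_real_sqrt
      linarith
    have h5 : (N' : ℝ) ^ (1 / 2 + ε) = Real.sqrt (N' : ℝ) * (N' : ℝ) ^ ε := by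
      rw [Real.rpow_add hN'0, hsq]
    have h6 : (3 : ℝ) ≤ (N' : ℝ) ^ ε := by
      have h7 : (3 : ℝ) ^ (1 / ε) ≤ (N' : ℝ) := by
        refine le_trans (Nat.le_ceil _) ?_
        exact_mod_cast le_trans hM3 hMN'n
      have h8 : (3 : ℝ) = ((3 : ℝ) ^ (1 / ε)) ^ ε := by
        rw [← Real.rpow_mul (by norm_num), one_div, inv_mul_cancel₀ hεne, Real.rpow_one]
      rw [h8]
      exact Real.rpow_le_rpow (by positivity) h7 hε.le
    have h9 : (1 : ℝ) ≤ Real.sqrt (N' : ℝ) := by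
      rw [show (1 : ℝ) = Real.sqrt 1 by rw [Real.sqrt_one]]
      exact Real.sqrt_le_sqrt hN'1
    have h10 : Real.sqrt (N' : ℝ) * 3 ≤ Real.sqrt (N' : ℝ) * (N' : ℝ) ^ ε :=
      mul_le_mul_of_nonneg_left h6 (by linarith)
    rw [h5] at hS'σ
    linarith
  -- the exponents
  have hL' : 0 < Real.log (N' : ℝ) := Real.log_pos (by linarith)
  have hN2r : (2 : ℝ) ≤ (N : ℝ) := by exact_mod_cast hN2
  have hL : 0 < Real.log (N : ℝ) := Real.log_pos (by linarith)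
  obtain ⟨t, ht⟩ : ∃ t : ℝ, t = Real.log (N : ℝ) / Real.log (N' : ℝ) := ⟨_, rfl⟩
  have hNt : (N : ℝ) = (N' : ℝ) ^ t := by
    rw [Real.rpow_def_of_pos hN'0, ht, mul_div_cancel₀ _ hL'.ne', Real.exp_log hN0]
  have ht2 : 1 / 2 ≤ t := by
    have h1 : ρ ≤ (N : ℝ) := by
      rw [hρ]
      exact div_le_self hN0.le hmr
    have h2 : (N' : ℝ) ≤ (N : ℝ) ^ 2 := by nlinarith only [hN'2, h1, hN2r]
    have h3 : Real.log (N' : ℝ) ≤ 2 * Real.log (N : ℝ) := by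
      have h4 := Real.log_le_log hN'0 h2
      rw [Real.log_pow] at h4
      exact_mod_cast h4
    rw [ht, div_le_div_iff₀ (by norm_num) hL']
    linarith
  have hN'16 : (2 : ℝ) ≤ (N' : ℝ) ^ (ε / 16) := by
    have h7 : (2 : ℝ) ^ (16 / ε) ≤ (N' : ℝ) := by
      refine le_trans (Nat.le_ceil _) ?_
      exact_mod_cast le_trans hM16 hMN'n
    have h8 : (2 : ℝ) = ((2 : ℝ) ^ (16 / ε)) ^ (ε / 16) := by
      rw [← Real.rpow_mul (by norm_num)]
      have h9 : 16 / ε * (ε / 16) = 1 := by field_simp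
      rw [h9, Real.rpow_one]
    rw [h8]
    exact Real.rpow_le_rpow (by positivity) h7 (by positivity)
  have hN'8 : (2 : ℝ) ≤ (N' : ℝ) ^ (ε / 8) :=
    le_trans hN'16 (Real.rpow_le_rpow_of_exponent_le hN'1 (by linarith))
  have hbig : (N' : ℝ) ^ (1 / 2 + (ε + ε * t - ε / 8)) ≤ (S'.card : ℝ) := by
    rw [hS'card]
    refine le_trans ?_ hSlow
    have h1 : ((N' : ℝ) / 2) ^ (1 / 2 + ε) ≤ ρ ^ (1 / 2 + ε) :=
      Real.rpow_le_rpow (by positivity) (by linarith) hσ0.le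
    have h3 : (2 : ℝ) ^ (1 / 2 + ε) ≤ 2 := by
      have h4 : (2 : ℝ) ^ (1 / 2 + ε) ≤ (2 : ℝ) ^ (1 : ℝ) :=
        Real.rpow_le_rpow_of_exponent_le (by norm_num) (by linarith)
      rwa [Real.rpow_one] at h4
    have h4 : (N' : ℝ) ^ (1 / 2 + ε - ε / 8) ≤ ((N' : ℝ) / 2) ^ (1 / 2 + ε) := by
      have h2p : (0 : ℝ) < (2 : ℝ) ^ (1 / 2 + ε) := by positivity
      rw [Real.div_rpow hN'0.le (by norm_num), le_div_iff₀ h2p, Real.rpow_sub hN'0,
        div_mul_eq_mul_div, div_le_iff₀ (Real.rpow_pos_of_pos hN'0 _)]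
      exact mul_le_mul_of_nonneg_left (le_trans h3 hN'8) (by positivity)
    have h5 : (N : ℝ) ^ ε = (N' : ℝ) ^ (ε * t) := by
      rw [hNt, ← Real.rpow_mul hN'0.le, mul_comm t ε]
    have h6 : (N' : ℝ) ^ (1 / 2 + (ε + ε * t - ε / 8)) =
        (N' : ℝ) ^ (1 / 2 + ε - ε / 8) * (N' : ℝ) ^ (ε * t) := by
      rw [← Real.rpow_add hN'0]
      congr 1
      ring
    rw [h6, h5]
    exact mul_le_mul_of_nonneg_right (le_trans h4 h1) (by positivity)
  have hup : ε + ε * t - ε / 8 ≤ 1 / 2 := by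
    have h1 : (N' : ℝ) ^ (1 / 2 + (ε + ε * t - ε / 8)) ≤ (N' : ℝ) ^ (1 : ℝ) := by
      rw [Real.rpow_one]
      refine le_trans hbig ?_
      rw [hS'card]
      exact hSN'
    have h2 := (Real.rpow_le_rpow_left_iff (by linarith : (1 : ℝ) < (N' : ℝ))).mp h1
    linarith
  have hll : Real.log (Real.log q') ≤ (N' : ℝ) ^ (t * ε / 4 + ε / 16) := by
    have h0 : (N' : ℝ) ^ (t * ε / 4 + ε / 16) = (N : ℝ) ^ (ε / 4) * (N' : ℝ) ^ (ε / 16) := by
      rw [Real.rpow_add hN'0]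
      congr 1
      rw [hNt, ← Real.rpow_mul hN'0.le]
      congr 1
      ring
    have hN4 : (1 : ℝ) ≤ (N : ℝ) ^ (ε / 4) := Real.one_le_rpow hN1r (by positivity)
    have hln2 : Real.log 2 ≤ 1 := by
      have := Real.log_le_sub_one_of_pos (by norm_num : (0 : ℝ) < 2)
      linarith
    have h1 : Real.log (Real.log q') ≤ 2 * (N : ℝ) ^ (ε / 4) := by
      have hq'r : (2 : ℝ) ≤ (q' : ℝ) := by exact_mod_cast hq'2
      have hq'0 : (0 : ℝ) < (q' : ℝ) := by linarith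
      have hlq' : 0 < Real.log (q' : ℝ) := Real.log_pos (by linarith)
      have h1 : (q' : ℝ) ≤ (q : ℝ) * (m : ℝ) := by exact_mod_cast hq'le
      have hq0 : (q : ℝ) ≠ 0 := by
        have : q ≠ 0 := by omega
        exact_mod_cast this
      have h2 : Real.log (q' : ℝ) ≤ Real.log q + Real.log N := by
        have h3 : Real.log (q' : ℝ) ≤ Real.log q + Real.log m := by
          rw [← Real.log_mul hq0 hm0.ne']
          exact Real.log_le_log hq'0 h1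
        have h4 : Real.log (m : ℝ) ≤ Real.log (N : ℝ) :=
          Real.log_le_log hm0 (by exact_mod_cast hmN)
        linarith
      rcases le_total (Real.log (q : ℝ)) (Real.log (N : ℝ)) with hc | hc
      · have h3 : Real.log (Real.log q') ≤ Real.log (2 * Real.log (N : ℝ)) :=
          Real.log_le_log hlq' (by linarith)
        rw [Real.log_mul (by norm_num) hL.ne'] at h3
        have h4 : Real.log (Real.log (N : ℝ)) ≤ Real.log (N : ℝ) - 1 :=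
          Real.log_le_sub_one_of_pos hL
        have h5 : Real.log (N : ℝ) ≤ (N : ℝ) ^ (ε / 8) / (ε / 8) :=
          Real.log_le_rpow_div hN0.le (by positivity)
        have h6 : 8 / ε ≤ (N : ℝ) ^ (ε / 8) := by
          have h7 : (8 / ε) ^ (8 / ε) ≤ (N : ℝ) := le_trans (Nat.le_ceil _) (by exact_mod_cast hN8)
          have h8 : 8 / ε = ((8 / ε) ^ (8 / ε)) ^ (ε / 8) := by
            rw [← Real.rpow_mul (by positivity)]
            have h9 : 8 / ε * (ε / 8) = 1 := by field_simp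
            rw [h9, Real.rpow_one]
          rw [h8]
          exact Real.rpow_le_rpow (by positivity) h7 (by positivity)
        have h7 : (N : ℝ) ^ (ε / 8) / (ε / 8) ≤ (N : ℝ) ^ (ε / 4) := by
          have h8 : (N : ℝ) ^ (ε / 8) / (ε / 8) = (N : ℝ) ^ (ε / 8) * (8 / ε) := by
            field_simp
          have h9 : (N : ℝ) ^ (ε / 4) = (N : ℝ) ^ (ε / 8) * (N : ℝ) ^ (ε / 8) := by
            rw [← Real.rpow_add hN0]
            congr 1
            ring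
          rw [h8, h9]
          exact mul_le_mul_of_nonneg_left h6 (by positivity)
        linarith
      · have hlq : 0 < Real.log (q : ℝ) := lt_of_lt_of_le hL hc
        have h3 : Real.log (Real.log q') ≤ Real.log (2 * Real.log (q : ℝ)) :=
          Real.log_le_log hlq' (by linarith)
        rw [Real.log_mul (by norm_num) hlq.ne'] at h3
        linarith
    rw [h0]
    calc Real.log (Real.log q') ≤ 2 * (N : ℝ) ^ (ε / 4) := h1
      _ = (N : ℝ) ^ (ε / 4) * 2 := mul_comm _ _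
      _ ≤ (N : ℝ) ^ (ε / 4) * (N' : ℝ) ^ (ε / 16) :=
          mul_le_mul_of_nonneg_left hN'16 (by positivity)
  -- the choice of `i`
  have key : ∃ i ≤ ⌈1 / ε⌉₊, gr ε i ≤ ε + ε * t - ε / 8 ∧ t * ε / 4 + ε / 16 ≤ gr ε i / 2 := by
    have htε : 0 ≤ t * ε := by positivity
    rcases le_or_gt (1 / 4) (ε + ε * t - ε / 8) with hc | hc
    · refine ⟨⌈1 / ε⌉₊, le_rfl, ?_, ?_⟩
      · exact le_trans (min_le_left _ _) hc
      · have h1 : (1 : ℝ) / ε ≤ (⌈1 / ε⌉₊ : ℝ) := Nat.le_ceil _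
        have h2 : 1 ≤ ε * (⌈1 / ε⌉₊ : ℝ) := by
          have h3 := mul_le_mul_of_nonneg_left h1 hε.le
          rwa [mul_one_div_cancel hεne] at h3
        have h3 : gr ε ⌈1 / ε⌉₊ = 1 / 4 := by
          unfold gr
          apply min_eq_left
          linarith only [h2, hε]
        rw [h3]
        nlinarith only [hup, hε]
    · obtain ⟨x, hx⟩ : ∃ x : ℝ, x = 4 * ((ε + ε * t - ε / 8) / ε - 1) := ⟨_, rfl⟩
      have hx' : ε * (1 + x / 4) = ε + ε * t - ε / 8 := by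
        rw [hx]
        field_simp
        ring
      have hx'' : x = 4 * (t - 1 / 8) := by
        have h1 : ε * (1 + x / 4) = ε * (1 + (t - 1 / 8)) := by
          rw [hx']
          ring
        have h2 := mul_left_cancel₀ hεne h1
        linarith
      have hx0 : 0 ≤ x := by
        rw [hx'']
        linarith
      have h1 : (⌊x⌋₊ : ℝ) ≤ x := Nat.floor_le hx0
      have h2 : x < (⌊x⌋₊ : ℝ) + 1 := Nat.lt_floor_add_one x
      have h3 : ε * (1 + (⌊x⌋₊ : ℝ) / 4) ≤ ε + ε * t - ε / 8 := by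
        rw [← hx']
        exact mul_le_mul_of_nonneg_left (by linarith) hε.le
      have h4 : gr ε ⌊x⌋₊ = ε * (1 + (⌊x⌋₊ : ℝ) / 4) := by
        unfold gr
        apply min_eq_right
        linarith
      refine ⟨⌊x⌋₊, ?_, ?_, ?_⟩
      · apply Nat.floor_le_of_le
        have h5 : x ≤ 1 / ε := by
          rw [le_div_iff₀ hε, hx'']
          nlinarith only [hc, hε]
        exact le_trans h5 (Nat.le_ceil _)
      · rw [h4]
        exact h3
      · rw [h4]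
        have h5 : ε * (1 + (x - 1) / 4) ≤ ε * (1 + (⌊x⌋₊ : ℝ) / 4) :=
          mul_le_mul_of_nonneg_left (by linarith) hε.le
        have h6 : ε * x = ε * (4 * (t - 1 / 8)) := by rw [← hx'']
        linarith only [h5, h6, htε, hε]
  obtain ⟨i, hi, hi1, hi2⟩ := key
  refine ⟨N', le_trans hM1 hMN'n, q', a', S', i, hi, ⟨hq'2, ha'1, by omega, hcop, hRts'⟩, hExt',
    ?_, ?_⟩
  · exact le_trans (Real.rpow_le_rpow_of_exponent_le hN'1 (by linarith)) hbig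
  · exact le_trans hll (Real.rpow_le_rpow_of_exponent_le hN'1 hi2)

end Pool.Agent.Lib.MP_2c6f70_nt.RU
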