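import Pool.Agent.Lib.MP_2c6f70_nt.RU.X_IC
import Pool.Agent.Lib.MP_2c6f70_nt.RU.DC

/-!
# Many small primes, doubly exponential range (adapt `FA`)

`W = log q`, `η = θ = ε/8`, `Γ = (2 + η)/(1/2 + ε/2)` (`sharp_moment2` with `c = ε/2`): `∑_p wp² ≤ Γ W log W`.  `P = {p ∈ G : (1/2) log W ≤ wp q p ≤ (1+θ) Γ log W}`, `Z = exp ((1+θ) Γ log W) = W^((1+θ)Γ)`; `p ≤ Z` for `p ∈ P`
(`wp q p ≥ log p`: `p ∣ mr q p` for odd `p ∣ q`).  `x = 1/4 + ε/8`.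
* `∑_{p ∣ q, wp > (1+θ)Γ log W} wp ≤ ∑ wp²/((1+θ) Γ log W) ≤ W/(1+θ)`.
* `∑_{p ∈ G, wp < (1/2) log W} wp ≤ W^(1/2) (1/2) log W` (such `p` satisfy `p ≤ exp (wp) < W^(1/2)`), `≤ (θ/8) W` for large `N` (`W ≥ N^(1/4)`).
* `κ₁ = θ/8`, `1/(1+θ) ≤ 1 - θ/2`: `∑_{p ∈ P} wp ≥ W (1 - θ/8 - 1/(1+θ) - θ/8) ≥ (θ/4) W`.
* `#P ≥ (θ/4) W/((1+θ) Γ log W) ≥ (θ/(5Γ)) W/log W ≥ N^(1/5)` for large `N`; `#P ≤ W` because `wp ≥ (1/2) log W ≥ 1` on `P` and `∑ wp ≤ W`.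
* `(1+θ) Γ x = (1+θ)(1+η/2)(1+ε/2)/(1+ε) ≤ 1 - 0.2 ε` (`ε ≤ 1/4`), so `Z^x ≤ W^(1-0.2ε) ≤ #P` for large `N`.  `1 < Z`.
* for `X ⊆ P` with `∑_X wp ≤ δ W`: `#X (1/2) log W ≤ δ W`, `#X ≤ 2 δ W/log W ≤ (10 Γ/θ) δ #P`: `c₁ = θ/(10 Γ)`.  (If `δ < 0` impossible.)
-/

set_option autoImplicit false

namespace Pool.Agent.Lib.MP_2c6f70_nt.RU

open Pool.Agent.Lib.MP_2c6f70_nt Pool.Agent.Lib.MP_2c6f70_nt.KW

private theorem XFA_num {ε : ℝ} (hε : 0 < ε) (hε1 : ε ≤ 1 / 4) :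
    (1 + ε / 8) * ((2 + ε / 8) / (1 / 2 + ε - ε / 2)) * (1 / 4 + ε / 8) ≤ 1 - 1 / 5 * ε := by
  have h1 : (0 : ℝ) < 1 / 2 + ε - ε / 2 := by linarith
  rw [mul_div_assoc', div_mul_eq_mul_div, div_le_iff₀ h1]
  have h2 : 0 ≤ ε * (1 / 4 - ε) := mul_nonneg hε.le (sub_nonneg.mpr hε1)
  have h3 : 0 ≤ ε * ε * (1 / 4 - ε) := mul_nonneg (mul_pos hε hε).le (sub_nonneg.mpr hε1)
  nlinarith [mul_pos hε hε, mul_pos (mul_pos hε hε) hε]

/-- The mass of the middle part. -/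
private theorem XFA_mass {G : Finset ℕ} {w : ℕ → ℝ} {W T ℓ θ : ℝ} (hW : 0 < W) (hT : 0 < T) (hθ : 0 < θ)
    (hθ1 : θ ≤ 1 / 32) (hG : (1 - θ / 8) * W ≤ ∑ p ∈ G, w p)
    (hsq : ∑ p ∈ G, w p ^ 2 ≤ T * W / (1 + θ))
    (hl : ∑ p ∈ G.filter (fun p => w p < ℓ), w p ≤ θ / 8 * W) :
    θ / 2 * W ≤ ((G.filter (fun p => ℓ ≤ w p ∧ w p ≤ T)).card : ℝ) * T := by
  have hdec : ∑ p ∈ G, w p ≤ ∑ p ∈ G.filter (fun p => w p < ℓ), w p +
      ∑ p ∈ G.filter (fun p => ℓ ≤ w p ∧ w p ≤ T), w p + ∑ p ∈ G.filter (fun p => ¬ w p ≤ T ∧ ¬ w p < ℓ), w p := by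
    have e1 := Finset.sum_filter_add_sum_filter_not G (fun p => w p < ℓ) w
    have e2 := Finset.sum_filter_add_sum_filter_not (G.filter (fun p => ¬ w p < ℓ)) (fun p => w p ≤ T) w
    rw [Finset.filter_filter, Finset.filter_filter] at e2
    have e3 : G.filter (fun p => ¬ w p < ℓ ∧ w p ≤ T) = G.filter (fun p => ℓ ≤ w p ∧ w p ≤ T) := by
      refine Finset.filter_congr (fun p _ => ?_)
      rw [not_lt]
    have e4 : G.filter (fun p => ¬ w p < ℓ ∧ ¬ w p ≤ T) = G.filter (fun p => ¬ w p ≤ T ∧ ¬ w p < ℓ) := by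
      refine Finset.filter_congr (fun p _ => ?_)
      rw [and_comm]
    rw [e3, e4] at e2
    linarith
  have hheavy : ∑ p ∈ G.filter (fun p => ¬ w p ≤ T ∧ ¬ w p < ℓ), w p ≤ W / (1 + θ) := by
    have h1 : T * ∑ p ∈ G.filter (fun p => ¬ w p ≤ T ∧ ¬ w p < ℓ), w p ≤ T * W / (1 + θ) := by
      rw [Finset.mul_sum]
      refine le_trans (Finset.sum_le_sum (fun p hp => ?_)) (le_trans
        (Finset.sum_le_sum_of_subset_of_nonneg (Finset.filter_subset _ _) (fun p _ _ => sq_nonneg (w p))) hsq)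
      have h2 := (Finset.mem_filter.mp hp).2.1
      rw [not_le] at h2
      rw [pow_two]
      exact mul_le_mul_of_nonneg_right h2.le (hT.le.trans h2.le)
    have h3 : T * W / (1 + θ) = T * (W / (1 + θ)) := by ring
    rw [h3] at h1
    exact le_of_mul_le_mul_left h1 hT
  have hmid : ∑ p ∈ G.filter (fun p => ℓ ≤ w p ∧ w p ≤ T), w p ≤
      ((G.filter (fun p => ℓ ≤ w p ∧ w p ≤ T)).card : ℝ) * T := by
    rw [← nsmul_eq_mul]
    exact Finset.sum_le_card_nsmul _ _ _ (fun p hp => (Finset.mem_filter.mp hp).2.2)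
  have h5 : W / (1 + θ) ≤ W * (1 - 3 / 4 * θ) := by
    rw [div_le_iff₀ (by linarith)]
    have : W ≤ W * ((1 - 3 / 4 * θ) * (1 + θ)) := by
      refine le_mul_of_one_le_right hW.le ?_
      nlinarith
    linarith
  nlinarith

private theorem XFA_ev (θ C ε : ℝ) (hθ : 0 < θ) (hC : 0 < C) (hε : 0 < ε) :
    ∃ N₀ : ℕ, ∀ N ≥ N₀, ∀ W : ℝ, (N : ℝ) ^ (1 / 4 : ℝ) ≤ W →
      1 < W ∧ 2 ≤ Real.log W ∧ Real.log W ≤ θ * W ^ (1 / 2 : ℝ) ∧ 1 ≤ C * W ^ (ε / 10) := by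
  have h0 : ∀ᶠ x : ℝ in Filter.atTop, 2 ≤ Real.log x :=
    Real.tendsto_log_atTop.eventually_ge_atTop 2
  have h1 : ∀ᶠ x : ℝ in Filter.atTop, Real.log x ≤ θ * x ^ (1 / 2 : ℝ) := by
    have h := (isLittleO_log_rpow_atTop (r := 1 / 2) (by norm_num)).bound hθ
    filter_upwards [h, Filter.eventually_ge_atTop (1 : ℝ)] with x hx hx1
    rw [Real.norm_eq_abs, Real.norm_eq_abs, abs_of_nonneg (Real.log_nonneg hx1),
      abs_of_nonneg (Real.rpow_nonneg (by linarith) _)] at hx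
    exact hx
  have h2 : ∀ᶠ x : ℝ in Filter.atTop, 1 ≤ C * x ^ (ε / 10) := by
    have h := (tendsto_rpow_atTop (y := ε / 10) (by positivity)).eventually_ge_atTop (1 / C)
    filter_upwards [h] with x hx
    rw [div_le_iff₀ hC] at hx
    linarith
  obtain ⟨X₀, hX₀⟩ := Filter.eventually_atTop.mp
    ((Filter.eventually_gt_atTop (1 : ℝ)).and (h0.and (h1.and h2)))
  have h3 : ∀ᶠ x : ℝ in Filter.atTop, X₀ ≤ x ^ (1 / 4 : ℝ) :=
    (tendsto_rpow_atTop (y := 1 / 4) (by norm_num)).eventually_ge_atTop X₀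
  obtain ⟨N₀, hN₀⟩ := Filter.eventually_atTop.mp ((tendsto_natCast_atTop_atTop (R := ℝ)).eventually h3)
  exact ⟨N₀, fun N hN W hW => hX₀ W ((hN₀ N hN).trans hW)⟩

private theorem XFA_wp {q p : ℕ} (hp : p ∈ q.primeFactors) (hp4 : p % 4 = 1) : Real.log p ≤ wp q p := by
  have hpp := Nat.prime_of_mem_primeFactors hp
  have h2 : p ≠ 2 := by rintro rfl; omega
  have hv : 1 ≤ q.factorization p :=
    hpp.factorization_pos_of_dvd (Nat.mem_primeFactors.mp hp).2.2 (Nat.mem_primeFactors.mp hp).2.1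
  unfold wp mr
  rw [if_neg h2]
  refine Real.log_le_log (by exact_mod_cast hpp.pos) ?_
  have : p ^ 1 ≤ p ^ q.factorization p := Nat.pow_le_pow_right hpp.pos hv
  rw [pow_one] at this
  exact_mod_cast this

/-- The light part. -/
private theorem XFA_light {q : ℕ} {G : Finset ℕ} {θ W : ℝ} (hG : G ⊆ q.primeFactors)
    (hG4 : ∀ p ∈ G, p % 4 = 1) (hW : 0 < W) (hlW : 0 ≤ Real.log W)
    (hL : Real.log W ≤ θ / 4 * W ^ (1 / 2 : ℝ)) :
    ∑ p ∈ G.filter (fun p => wp q p < 1 / 2 * Real.log W), wp q p ≤ θ / 8 * W := by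
  have hx0 : 0 ≤ W ^ (1 / 2 : ℝ) := Real.rpow_nonneg hW.le _
  have hcard : ((G.filter (fun p => wp q p < 1 / 2 * Real.log W)).card : ℝ) ≤ W ^ (1 / 2 : ℝ) := by
    have hsub : G.filter (fun p => wp q p < 1 / 2 * Real.log W) ⊆ Finset.Ioc 0 ⌊W ^ (1 / 2 : ℝ)⌋₊ := by
      intro p hp
      obtain ⟨hpG, hpw⟩ := Finset.mem_filter.mp hp
      have hpp := Nat.prime_of_mem_primeFactors (hG hpG)
      have h1 := XFA_wp (hG hpG) (hG4 p hpG)
      have h2 : Real.log p ≤ Real.log (W ^ (1 / 2 : ℝ)) := by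
        rw [Real.log_rpow hW]
        linarith
      have h3 : (p : ℝ) ≤ W ^ (1 / 2 : ℝ) :=
        (Real.log_le_log_iff (by exact_mod_cast hpp.pos) (Real.rpow_pos_of_pos hW _)).mp h2
      rw [Finset.mem_Ioc]
      exact ⟨hpp.pos, Nat.le_floor h3⟩
    calc ((G.filter (fun p => wp q p < 1 / 2 * Real.log W)).card : ℝ)
        ≤ ((Finset.Ioc 0 ⌊W ^ (1 / 2 : ℝ)⌋₊).card : ℝ) := by exact_mod_cast Finset.card_le_card hsub
      _ = (⌊W ^ (1 / 2 : ℝ)⌋₊ : ℝ) := by rw [Nat.card_Ioc, Nat.sub_zero]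
      _ ≤ _ := Nat.floor_le hx0
  have h1 : ∑ p ∈ G.filter (fun p => wp q p < 1 / 2 * Real.log W), wp q p ≤
      ((G.filter (fun p => wp q p < 1 / 2 * Real.log W)).card : ℝ) * (1 / 2 * Real.log W) := by
    rw [← nsmul_eq_mul]
    exact Finset.sum_le_card_nsmul _ _ _ (fun p hp => (Finset.mem_filter.mp hp).2.le)
  have h2 : W = W ^ (1 / 2 : ℝ) * W ^ (1 / 2 : ℝ) := by
    rw [← Real.rpow_add hW]
    norm_num
  calc _ ≤ _ := h1
    _ ≤ W ^ (1 / 2 : ℝ) * (1 / 2 * Real.log W) := mul_le_mul_of_nonneg_right hcard (by positivity)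
    _ ≤ W ^ (1 / 2 : ℝ) * (1 / 2 * (θ / 4 * W ^ (1 / 2 : ℝ))) :=
        mul_le_mul_of_nonneg_left (by linarith) hx0
    _ = θ / 8 * (W ^ (1 / 2 : ℝ) * W ^ (1 / 2 : ℝ)) := by ring
    _ = θ / 8 * W := by rw [← h2]

theorem prime_set2 (ε : ℝ) (hε : 0 < ε) (hε1 : ε ≤ 1 / 4) :
    ∃ c₁ κ₁ : ℝ, 0 < c₁ ∧ 0 < κ₁ ∧ ∃ N₀ : ℕ, ∀ N ≥ N₀, ∀ (q a : ℕ) (S G : Finset ℕ),
    Ctx q a N S → (N : ℝ) ^ (1 / 4 : ℝ) ≤ Real.log q → Real.log (Real.log q) ≤ (N : ℝ) ^ (ε / 2) →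
    (N : ℝ) ^ (1 / 2 + ε) ≤ (S.card : ℝ) → G ⊆ q.primeFactors → (∀ p ∈ G, p % 4 = 1) →
    (1 - κ₁) * Real.log q ≤ ∑ p ∈ G, wp q p →
      ∃ P ⊆ G, (∃ Z : ℝ, 1 < Z ∧ (∀ p ∈ P, (p : ℝ) ≤ Z) ∧ Z ^ (1 / 4 + ε / 8) ≤ (P.card : ℝ)) ∧
        (N : ℝ) ^ (1 / 5 : ℝ) ≤ (P.card : ℝ) ∧ (P.card : ℝ) ≤ Real.log q ∧
        ∀ X ⊆ P, ∀ δ : ℝ, ∑ p ∈ X, wp q p ≤ δ * Real.log q → (X.card : ℝ) ≤ δ / c₁ * P.card := by
  set θ : ℝ := ε / 8 with hθdef
  set Γ : ℝ := (2 + ε / 8) / (1 / 2 + ε - ε / 2) with hΓdef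
  have hθ : 0 < θ := by positivity
  have hθ1 : θ ≤ 1 / 32 := by rw [hθdef]; linarith
  have hΓ : 0 < Γ := div_pos (by linarith) (by linarith)
  set C : ℝ := (θ / 2) / ((1 + θ) * Γ) with hCdef
  have hC : 0 < C := by positivity
  obtain ⟨N₁, hN₁⟩ := sharp_moment2 ε (ε / 2) (ε / 8) hε (by positivity) (by linarith) (by positivity)
  obtain ⟨N₂, hN₂⟩ := XFA_ev (θ / 4) (C * (ε / 10)) ε (by positivity) (by positivity) hε
  refine ⟨C / 2, θ / 8, by positivity, by positivity, max (max N₁ N₂) 2, ?_⟩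
  intro N hN q a S G hctx hW1 hW2 hS hG hG4 hmass
  have hNN₁ : N₁ ≤ N := (le_max_left _ _).trans ((le_max_left _ _).trans hN)
  have hNN₂ : N₂ ≤ N := (le_max_right _ _).trans ((le_max_left _ _).trans hN)
  have hN2 : 2 ≤ N := (le_max_right _ _).trans hN
  obtain ⟨hWone, hlW2, hL, hbig⟩ := hN₂ N hNN₂ (Real.log q) hW1
  have hsm := hN₁ N hNN₁ q a S hctx hW1 hW2 hS
  rw [← hΓdef] at hsm
  have hN1r : (1 : ℝ) < N := by exact_mod_cast (by omega : 1 < N)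
  have hN0r : (0 : ℝ) < N := by linarith
  have hq0 : q ≠ 0 := by
    have := hctx.hq
    omega
  have hsw := (sum_wp hq0).1
  set W := Real.log q with hWdef
  have hW0 : 0 < W := by linarith
  have hlW : 0 < Real.log W := by linarith
  set T : ℝ := (1 + θ) * Γ * Real.log W with hTdef
  have hT : 0 < T := by positivity
  -- the middle part
  have hmid := XFA_mass (G := G) (w := wp q) (W := W) (T := T) (ℓ := 1 / 2 * Real.log W) (θ := θ) hW0 hT hθ hθ1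
    hmass
    (by
      refine (Finset.sum_le_sum_of_subset_of_nonneg hG (fun p _ _ => sq_nonneg _)).trans (hsm.trans (le_of_eq ?_))
      rw [hTdef]
      field_simp)
    (XFA_light hG hG4 hW0 hlW.le hL)
  set P := G.filter (fun p => 1 / 2 * Real.log W ≤ wp q p ∧ wp q p ≤ T) with hPdef
  -- first lower bound
  have hP1 : C * W ≤ (P.card : ℝ) * Real.log W := by
    have e : C * W = (θ / 2 * W) / ((1 + θ) * Γ) := by rw [hCdef]; ring
    rw [e, div_le_iff₀ (by positivity)]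
    calc θ / 2 * W ≤ (P.card : ℝ) * T := hmid
      _ = _ := by rw [hTdef]; ring
  -- second lower bound
  have hP2 : W ^ (1 - 1 / 5 * ε) ≤ (P.card : ℝ) := by
    have h1 : Real.log W ≤ W ^ (ε / 10) / (ε / 10) := Real.log_le_rpow_div hW0.le (by positivity)
    have h2 : C * (ε / 10) * W ≤ (P.card : ℝ) * W ^ (ε / 10) := by
      have h3 : C * W ≤ (P.card : ℝ) * (W ^ (ε / 10) / (ε / 10)) :=
        hP1.trans (mul_le_mul_of_nonneg_left h1 (Nat.cast_nonneg _))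
      have h4 : (P.card : ℝ) * (W ^ (ε / 10) / (ε / 10)) = ((P.card : ℝ) * W ^ (ε / 10)) / (ε / 10) := by ring
      rw [h4, le_div_iff₀ (by positivity)] at h3
      linarith
    have h7 : 0 < W ^ (ε / 10) := Real.rpow_pos_of_pos hW0 _
    refine le_of_mul_le_mul_right ?_ h7
    have h8 : W ^ (1 - 1 / 5 * ε) * W ^ (ε / 10) * W ^ (ε / 10) = W := by
      rw [← Real.rpow_add hW0, ← Real.rpow_add hW0]
      have : 1 - 1 / 5 * ε + ε / 10 + ε / 10 = 1 := by ring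
      rw [this, Real.rpow_one]
    calc W ^ (1 - 1 / 5 * ε) * W ^ (ε / 10)
        ≤ W ^ (1 - 1 / 5 * ε) * W ^ (ε / 10) * (C * (ε / 10) * W ^ (ε / 10)) :=
          le_mul_of_one_le_right (by positivity) hbig
      _ = C * (ε / 10) * (W ^ (1 - 1 / 5 * ε) * W ^ (ε / 10) * W ^ (ε / 10)) := by ring
      _ = C * (ε / 10) * W := by rw [h8]
      _ ≤ _ := h2
  refine ⟨P, Finset.filter_subset _ _, ⟨Real.exp T, Real.one_lt_exp_iff.mpr hT, ?_, ?_⟩, ?_, ?_, ?_⟩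
  · intro p hp
    obtain ⟨hpG, -, hpT⟩ := Finset.mem_filter.mp hp
    have hpp := Nat.prime_of_mem_primeFactors (hG hpG)
    have h1 := (XFA_wp (hG hpG) (hG4 p hpG)).trans hpT
    exact (Real.log_le_iff_le_exp (by exact_mod_cast hpp.pos)).mp h1
  · refine le_trans (le_of_eq ?_) (le_trans (Real.rpow_le_rpow_of_exponent_le hWone.le (XFA_num hε hε1)) hP2)
    rw [← Real.exp_mul, Real.rpow_def_of_pos hW0, hTdef, hΓdef, hθdef]
    congr 1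
    ring
  · refine le_trans ?_ hP2
    calc (N : ℝ) ^ (1 / 5 : ℝ) = ((N : ℝ) ^ (1 / 4 : ℝ)) ^ (4 / 5 : ℝ) := by
          rw [← Real.rpow_mul hN0r.le]
          norm_num
      _ ≤ W ^ (4 / 5 : ℝ) := Real.rpow_le_rpow (Real.rpow_nonneg hN0r.le _) hW1 (by norm_num)
      _ ≤ _ := Real.rpow_le_rpow_of_exponent_le hWone.le (by linarith)
  · -- `#P ≤ W`
    have h1 : (P.card : ℝ) * 1 ≤ ∑ p ∈ P, wp q p := by
      rw [← nsmul_eq_mul]
      exact Finset.card_nsmul_le_sum _ _ _ (fun p hp => by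
        have := (Finset.mem_filter.mp hp).2.1
        linarith)
    have h2 : ∑ p ∈ P, wp q p ≤ ∑ p ∈ q.primeFactors, wp q p :=
      Finset.sum_le_sum_of_subset_of_nonneg ((Finset.filter_subset _ _).trans hG) (fun p hp _ => wp_nonneg hp)
    linarith
  · intro X hX δ hδ
    have h1 : (X.card : ℝ) * (1 / 2 * Real.log W) ≤ ∑ p ∈ X, wp q p := by
      rw [← nsmul_eq_mul]
      exact Finset.card_nsmul_le_sum _ _ _ (fun p hp => (Finset.mem_filter.mp (hX hp)).2.1)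
    have h2 : (X.card : ℝ) * (1 / 2 * Real.log W) ≤ δ * W := h1.trans hδ
    have hδ0 : 0 ≤ δ := by
      by_contra hneg
      rw [not_le] at hneg
      have h3 : 0 ≤ (X.card : ℝ) * (1 / 2 * Real.log W) := by positivity
      have h4 : δ * W < 0 := mul_neg_of_neg_of_pos hneg hW0
      linarith
    have h4 : (X.card : ℝ) * C * Real.log W ≤ 2 * δ * (P.card : ℝ) * Real.log W := by
      calc (X.card : ℝ) * C * Real.log W = 2 * C * ((X.card : ℝ) * (1 / 2 * Real.log W)) := by ring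
        _ ≤ 2 * C * (δ * W) := mul_le_mul_of_nonneg_left h2 (by positivity)
        _ = 2 * δ * (C * W) := by ring
        _ ≤ 2 * δ * ((P.card : ℝ) * Real.log W) := mul_le_mul_of_nonneg_left hP1 (by positivity)
        _ = _ := by ring
    have h5 : (X.card : ℝ) * C ≤ 2 * δ * (P.card : ℝ) := le_of_mul_le_mul_right h4 hlW
    have h6 : δ / (C / 2) * (P.card : ℝ) = 2 * δ * (P.card : ℝ) / C := by
      field_simp
    rw [h6, le_div_iff₀ hC]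
    exact h5

end Pool.Agent.Lib.MP_2c6f70_nt.RU
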