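import Pool.Agent.Lib.MP_2c6f70_nt.RU.FD

/-!
# Many equivalent pairs (adapt `double_count` of `FD` and `many_edges` of `FE`)

`G t u = #(Hs P ω H (3^t κ₀) u)`, `F t u = #{u' ∈ 𝒰 : Eqv P (2 * (3^t κ₀)) u u'}`, `R₀ = 2 H + 1`.  `G 0 u ≥ 1` (a shape exists because `σ > 0`), `G T u ≤ 2 H ≤ lam^T`, so for `u ∈ 𝒰` there is `t < T` with `G (t+1) u ≤ lam G t u`;
pigeonhole: some `t < T` works for `𝒰' ⊆ 𝒰`, `#𝒰' ≥ #𝒰/T`.  With `κ = 3^t κ₀`: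
(1) `∑_{u ∈ 𝒰} G t u / F t u ≤ R₀` (for fixed `h` the `u ∈ 𝒰` with `h ∈ Hs κ u` are pairwise `Eqv (2κ)`, `eqv_of_common`; proof of `double_count`);
(2) `σ F t u ≤ K₀ (G (t+1) u)³ ≤ K₀ lam³ (G t u)³` for `u ∈ 𝒰'` (`mem_of_eqv`; proof of `double_count`).
By (1) at least `#𝒰'/2` of the `u ∈ 𝒰'` have `G/F ≤ 2 R₀/#𝒰'` (Markov), and for these `(σ/(K₀ lam³)) F ≤ G³ ≤ (2 R₀/#𝒰')³ F³`, `F ≥ 1` (`Eqv (2κ) u u` because `Hs κ u` is nonempty), so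
`F ≥ sqrt (σ/(K₀ lam³) (#𝒰'/(2 R₀))³) ≥ sqrt (σ/(K₀ lam³) (#𝒰/(2 T R₀))³)`.  Sum: `∑ F ≥ #𝒰/(2T) * that`.
-/

set_option autoImplicit false

namespace Pool.Agent.Lib.MP_2c6f70_nt.RU

private theorem XFE_mem_Hs {P : Finset ℕ} {ω : ℕ → ℤ} {H : ℕ} {κ : ℝ} {u : ℕ} {h : ℤ} :
    h ∈ Hs P ω H κ u ↔ (h ∈ Finset.Icc (-(H : ℤ)) H) ∧ h ≠ 0 ∧ (exc P ω (u * h.natAbs) : ℝ) ≤ κ * P.card := by
  unfold Hs
  rw [Finset.mem_filter]

private theorem XFE_mono {P : Finset ℕ} {ω : ℕ → ℤ} {H : ℕ} {κ κ' : ℝ} (h : κ ≤ κ') (u : ℕ) :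
    Hs P ω H κ u ⊆ Hs P ω H κ' u := by
  classical
  intro x hx
  unfold Hs at hx ⊢
  rw [Finset.mem_filter] at hx ⊢
  exact ⟨hx.1, hx.2.1, hx.2.2.trans (mul_le_mul_of_nonneg_right h (Nat.cast_nonneg _))⟩

private theorem XFE_card_le {P : Finset ℕ} {ω : ℕ → ℤ} {H : ℕ} {κ : ℝ} (u : ℕ) :
    (Hs P ω H κ u).card ≤ 2 * H := by
  classical
  have h1 : Hs P ω H κ u ⊆ (Finset.Icc (-(H : ℤ)) H).erase 0 := by
    intro x hx
    unfold Hs at hx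
    rw [Finset.mem_filter] at hx
    exact Finset.mem_erase.mpr ⟨hx.2.1, hx.1⟩
  have h2 := Finset.card_le_card h1
  have h3 : (0 : ℤ) ∈ Finset.Icc (-(H : ℤ)) H := by
    rw [Finset.mem_Icc]
    constructor <;> omega
  rw [Finset.card_erase_of_mem h3, Int.card_Icc] at h2
  omega

private theorem XFE_growth {g : ℕ → ℝ} {lam : ℝ} {T : ℕ} (hlam : 1 ≤ lam) (hT : 1 ≤ T) (h0 : 1 ≤ g 0)
    (hgT : g T ≤ lam ^ T) : ∃ t < T, g (t + 1) ≤ lam * g t := by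
  by_contra hcon
  push Not at hcon
  have h1 : ∀ t ≤ T, lam ^ t ≤ g t := by
    intro t
    induction t with
    | zero => intro _; simpa using h0
    | succ t ih =>
      intro ht
      have h2 := ih (by omega)
      have h3 := hcon t (by omega)
      calc lam ^ (t + 1) = lam * lam ^ t := by ring
        _ ≤ lam * g t := mul_le_mul_of_nonneg_left h2 (by linarith)
        _ ≤ g (t + 1) := h3.le
  obtain ⟨s, rfl⟩ : ∃ s, T = s + 1 := ⟨T - 1, by omega⟩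
  have h2 := h1 s (by omega)
  have h3 := hcon s (by omega)
  have h4 : lam * lam ^ s ≤ lam * g s := mul_le_mul_of_nonneg_left h2 (by linarith)
  have h5 : lam ^ (s + 1) = lam * lam ^ s := by ring
  linarith

/-- Step (1): `∑ G/F ≤ 2 H + 1`. -/
private theorem XFE_one {P 𝒰 : Finset ℕ} {ω : ℕ → ℤ} {H : ℕ} {κ : ℝ}
    (hω : ∀ p ∈ P, ω p = 1 ∨ ω p = -1) (F : ℕ → ℕ)
    (hF : ∀ u, ∀ D : Finset ℕ, (∀ u' ∈ D, u' ∈ 𝒰 ∧ Eqv P (2 * κ) u u') → D.card ≤ F u) :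
    ∑ u ∈ 𝒰, ((Hs P ω H κ u).card : ℝ) / (F u : ℝ) ≤ 2 * H + 1 := by
  classical
  have hFD : ∀ h : ℤ, ∀ u ∈ 𝒰.filter (fun u => h ∈ Hs P ω H κ u),
      (𝒰.filter (fun u => h ∈ Hs P ω H κ u)).card ≤ F u := by
    intro h u hu
    refine hF u _ ?_
    intro u' hu'
    rw [Finset.mem_filter] at hu hu'
    exact ⟨hu'.1, eqv_of_common hω hu.2 hu'.2⟩
  have e1 : ∀ u ∈ 𝒰, ((Hs P ω H κ u).card : ℝ) / (F u : ℝ) =
      ∑ h ∈ Finset.Icc (-(H : ℤ)) H, if h ∈ Hs P ω H κ u then (1 : ℝ) / (F u : ℝ) else 0 := by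
    intro u _
    rw [← Finset.sum_filter, Finset.sum_const, nsmul_eq_mul]
    have : (Finset.Icc (-(H : ℤ)) H).filter (fun h => h ∈ Hs P ω H κ u) = Hs P ω H κ u := by
      ext h
      rw [Finset.mem_filter]
      constructor
      · exact fun hh => hh.2
      · exact fun hh => ⟨(XFE_mem_Hs.mp hh).1, hh⟩
    rw [this]
    ring
  rw [Finset.sum_congr rfl e1, Finset.sum_comm]
  have e2 : ∀ h ∈ Finset.Icc (-(H : ℤ)) H,
      (∑ u ∈ 𝒰, if h ∈ Hs P ω H κ u then (1 : ℝ) / (F u : ℝ) else 0) ≤ 1 := by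
    intro h _
    rw [← Finset.sum_filter]
    rcases Nat.eq_zero_or_pos (𝒰.filter (fun u => h ∈ Hs P ω H κ u)).card with h0 | h0
    · rw [Finset.card_eq_zero.mp h0, Finset.sum_empty]
      exact zero_le_one
    · have hcR : (0 : ℝ) < ((𝒰.filter (fun u => h ∈ Hs P ω H κ u)).card : ℝ) := by exact_mod_cast h0
      calc ∑ u ∈ 𝒰.filter (fun u => h ∈ Hs P ω H κ u), (1 : ℝ) / (F u : ℝ)
          ≤ ∑ u ∈ 𝒰.filter (fun u => h ∈ Hs P ω H κ u),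
            (1 : ℝ) / ((𝒰.filter (fun u => h ∈ Hs P ω H κ u)).card : ℝ) := by
            refine Finset.sum_le_sum (fun u hu => ?_)
            exact one_div_le_one_div_of_le hcR (by exact_mod_cast hFD h u hu)
        _ = 1 := by
            rw [Finset.sum_const, nsmul_eq_mul, mul_one_div, div_self hcR.ne']
  refine (Finset.sum_le_sum e2).trans (le_of_eq ?_)
  rw [Finset.sum_const, nsmul_eq_mul, mul_one, Int.card_Icc]
  have : ((H : ℤ) + 1 - -(H : ℤ)).toNat = 2 * H + 1 := by omega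
  rw [this]
  push_cast
  ring

/-- Step (2): `σ F ≤ K₀ G³`. -/
private theorem XFE_two {P 𝒰 : Finset ℕ} {ω : ℕ → ℤ} {H : ℕ} {κ₀ κ σ K₀ : ℝ}
    (hω : ∀ p ∈ P, ω p = 1 ∨ ω p = -1) (hκ : κ₀ ≤ κ)
    (Sh : ℕ → Finset (Fin 3 → ℤ)) (hSh : ∀ u ∈ 𝒰, σ ≤ ((Sh u).card : ℝ))
    (hSh1 : ∀ u ∈ 𝒰, ∀ h ∈ Sh u, ∀ i, h i ∈ Hs P ω H κ₀ u)
    (hSh2 : ∀ (D : Finset ℕ) (h : Fin 3 → ℤ), (∀ u ∈ D, u ∈ 𝒰 ∧ h ∈ Sh u) → (D.card : ℝ) ≤ K₀)
    (u : ℕ) (C : Finset ℕ) (hC : ∀ u' ∈ C, u' ∈ 𝒰 ∧ Eqv P (2 * κ) u u') :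
    σ * (C.card : ℝ) ≤ K₀ * ((Hs P ω H (3 * κ) u).card : ℝ) ^ 3 := by
  classical
  set B := Fintype.piFinset (fun _ : Fin 3 => Hs P ω H (3 * κ) u) with hB
  have hSB : ∀ u' ∈ C, Sh u' ⊆ B := by
    intro u' hu' h hh
    rw [hB, Fintype.mem_piFinset]
    intro i
    have h3 := mem_of_eqv hω (hSh1 u' (hC u' hu').1 h hh i) (hC u' hu').2
    have h4 := XFE_mem_Hs.mp h3
    refine XFE_mem_Hs.mpr ⟨h4.1, h4.2.1, h4.2.2.trans ?_⟩
    exact mul_le_mul_of_nonneg_right (by linarith) (Nat.cast_nonneg _)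
  have h5 : σ * (C.card : ℝ) ≤ ∑ u' ∈ C, ((Sh u').card : ℝ) := by
    calc σ * (C.card : ℝ) = ∑ _u' ∈ C, σ := by
          rw [Finset.sum_const, nsmul_eq_mul, mul_comm]
      _ ≤ ∑ u' ∈ C, ((Sh u').card : ℝ) := by
          refine Finset.sum_le_sum (fun u' hu' => ?_)
          exact hSh u' (hC u' hu').1
  refine h5.trans ?_
  have h6 : ∀ u' ∈ C, ((Sh u').card : ℝ) = ∑ h ∈ B, if h ∈ Sh u' then (1 : ℝ) else 0 := by
    intro u' hu'
    rw [← Finset.sum_filter, Finset.sum_const, nsmul_eq_mul, mul_one]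
    have : B.filter (fun h => h ∈ Sh u') = Sh u' := by
      ext h
      rw [Finset.mem_filter]
      exact ⟨fun hh => hh.2, fun hh => ⟨hSB u' hu' hh, hh⟩⟩
    rw [this]
  rw [Finset.sum_congr rfl h6, Finset.sum_comm]
  have h7 : ∀ h ∈ B, (∑ u' ∈ C, if h ∈ Sh u' then (1 : ℝ) else 0) ≤ K₀ := by
    intro h _
    rw [← Finset.sum_filter, Finset.sum_const, nsmul_eq_mul, mul_one]
    refine hSh2 _ h ?_
    intro u' hu'
    rw [Finset.mem_filter] at hu'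
    exact ⟨(hC u' hu'.1).1, hu'.2⟩
  refine (Finset.sum_le_sum h7).trans (le_of_eq ?_)
  rw [Finset.sum_const, nsmul_eq_mul, hB, Fintype.card_piFinset, Finset.prod_const, Finset.card_univ,
    Fintype.card_fin]
  push_cast
  ring

/-- Step (3): the averaging. -/
private theorem XFE_mean {ι : Type} (s : Finset ι) (G F : ι → ℝ) (hG : ∀ i ∈ s, 0 < G i)
    (hF : ∀ i ∈ s, 0 < F i) {c R : ℝ} (hc : 0 < c)
    (hR : 0 < R) (h2 : ∀ i ∈ s, c * F i ≤ G i ^ 3) (h : ∑ i ∈ s, G i / F i ≤ R) :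
    (s.card : ℝ) / 2 * Real.sqrt (c * ((s.card : ℝ) / (2 * R)) ^ 3) ≤ ∑ i ∈ s, F i := by
  rcases s.eq_empty_or_nonempty with hs | hs
  · subst hs
    simp
  have hm : (0 : ℝ) < s.card := by exact_mod_cast hs.card_pos
  set a : ℝ := (s.card : ℝ) / (2 * R) with ha
  have ha0 : 0 < a := by positivity
  set f := Real.sqrt (c * a ^ 3) with hf
  have hf2 : f ^ 2 = c * a ^ 3 := Real.sq_sqrt (by positivity)
  have hf0 : 0 < f := Real.sqrt_pos.mpr (by positivity)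
  have key : ∀ i ∈ s, f - f * a * (G i / F i) ≤ F i := by
    intro i hi
    have hGi := hG i hi
    have hFi := hF i hi
    rcases le_or_gt (F i) (a * G i) with hle | hlt
    · have h3 : 1 ≤ a * (G i / F i) := by
        rw [← mul_div_assoc]
        exact (one_le_div hFi).mpr hle
      have h4 : f * 1 ≤ f * (a * (G i / F i)) := mul_le_mul_of_nonneg_left h3 hf0.le
      have h5 : f * a * (G i / F i) = f * (a * (G i / F i)) := by ring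
      rw [h5]
      linarith
    · have h3 : (a * G i) ^ 3 < F i ^ 3 := pow_lt_pow_left₀ hlt (by positivity) (by norm_num)
      have h4 : c * F i * a ^ 3 ≤ G i ^ 3 * a ^ 3 := mul_le_mul_of_nonneg_right (h2 i hi) (by positivity)
      have h5 : f ^ 2 * F i < F i ^ 2 * F i := by
        rw [hf2]
        calc c * a ^ 3 * F i = c * F i * a ^ 3 := by ring
          _ ≤ G i ^ 3 * a ^ 3 := h4
          _ = (a * G i) ^ 3 := by ring
          _ < F i ^ 3 := h3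
          _ = F i ^ 2 * F i := by ring
      have h6 : f ^ 2 < F i ^ 2 := lt_of_mul_lt_mul_right h5 hFi.le
      have h7 : f < F i := lt_of_pow_lt_pow_left₀ 2 hFi.le h6
      have h8 : 0 ≤ f * a * (G i / F i) := by positivity
      linarith
  have h1 := Finset.sum_le_sum key
  rw [Finset.sum_sub_distrib, Finset.sum_const, nsmul_eq_mul, ← Finset.mul_sum] at h1
  have h3 : f * a * ∑ i ∈ s, G i / F i ≤ f * a * R :=
    mul_le_mul_of_nonneg_left h (by positivity)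
  have h4 : f * a * R = s.card / 2 * f := by
    rw [ha]
    field_simp
  linarith

open Classical in
theorem many_pairs {P 𝒰 : Finset ℕ} {ω : ℕ → ℤ} {H T : ℕ} {κ₀ σ K₀ lam : ℝ}
    (hω : ∀ p ∈ P, ω p = 1 ∨ ω p = -1) (hκ₀ : 0 < κ₀) (hσ : 0 < σ) (hK₀ : 0 < K₀) (hlam : 1 ≤ lam) (hT : 1 ≤ T)
    (hlamT : 2 * (H : ℝ) ≤ lam ^ T)
    (Sh : ℕ → Finset (Fin 3 → ℤ)) (hSh : ∀ u ∈ 𝒰, σ ≤ ((Sh u).card : ℝ))
    (hSh1 : ∀ u ∈ 𝒰, ∀ h ∈ Sh u, ∀ i, h i ∈ Hs P ω H κ₀ u)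
    (hSh2 : ∀ h : Fin 3 → ℤ, ((𝒰.filter (fun u => h ∈ Sh u)).card : ℝ) ≤ K₀) :
    ∃ t < T, (𝒰.card : ℝ) / (2 * T) *
        Real.sqrt (σ / (K₀ * lam ^ 3) * ((𝒰.card : ℝ) / (2 * T * (2 * H + 1))) ^ 3) ≤
      ∑ u ∈ 𝒰, ((𝒰.filter (fun u' => Eqv P (2 * (3 ^ t * κ₀)) u u')).card : ℝ) := by
  have hTR : (0 : ℝ) < T := by exact_mod_cast hT
  -- the good exponents
  set 𝒱 : ℕ → Finset ℕ := fun t => 𝒰.filter (fun u => ((Hs P ω H (3 * (3 ^ t * κ₀)) u).card : ℝ) ≤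
    lam * (Hs P ω H (3 ^ t * κ₀) u).card) with h𝒱
  have hG0 : ∀ u ∈ 𝒰, (1 : ℝ) ≤ ((Hs P ω H κ₀ u).card : ℝ) := by
    intro u hu
    have h1 : 0 < (Sh u).card := by
      have : (0 : ℝ) < (Sh u).card := lt_of_lt_of_le hσ (hSh u hu)
      exact_mod_cast this
    obtain ⟨h, hh⟩ := Finset.card_pos.mp h1
    have h2 : 0 < (Hs P ω H κ₀ u).card := Finset.card_pos.mpr ⟨_, hSh1 u hu h hh 0⟩
    exact_mod_cast h2
  have hmono : ∀ t : ℕ, κ₀ ≤ 3 ^ t * κ₀ := by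
    intro t
    have : (1 : ℝ) ≤ 3 ^ t := one_le_pow₀ (by norm_num)
    nlinarith
  have hG : ∀ u ∈ 𝒰, ∀ t : ℕ, (1 : ℝ) ≤ ((Hs P ω H (3 ^ t * κ₀) u).card : ℝ) := by
    intro u hu t
    refine (hG0 u hu).trans ?_
    exact_mod_cast Finset.card_le_card (XFE_mono (hmono t) u)
  have hcov : 𝒰 ⊆ (Finset.range T).biUnion 𝒱 := by
    intro u hu
    have h1 := XFE_growth (g := fun t => ((Hs P ω H (3 ^ t * κ₀) u).card : ℝ)) hlam hT (hG u hu 0)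
      (by
        refine le_trans ?_ hlamT
        exact_mod_cast XFE_card_le (P := P) (ω := ω) (H := H) (κ := 3 ^ T * κ₀) u)
    obtain ⟨t, ht, h2⟩ := h1
    refine Finset.mem_biUnion.mpr ⟨t, Finset.mem_range.mpr ht, ?_⟩
    refine Finset.mem_filter.mpr ⟨hu, ?_⟩
    have e : (3 : ℝ) * (3 ^ t * κ₀) = 3 ^ (t + 1) * κ₀ := by ring
    rw [e]
    exact h2
  have hcard : 𝒰.card ≤ ∑ t ∈ Finset.range T, (𝒱 t).card :=
    (Finset.card_le_card hcov).trans Finset.card_biUnion_le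
  obtain ⟨t, ht, hmax⟩ := Finset.exists_max_image (Finset.range T) (fun t => (𝒱 t).card)
    ⟨0, Finset.mem_range.mpr (by omega)⟩
  have hcard2 : (𝒰.card : ℝ) ≤ T * (𝒱 t).card := by
    have h1 : ∑ t' ∈ Finset.range T, (𝒱 t').card ≤ ∑ _t' ∈ Finset.range T, (𝒱 t).card :=
      Finset.sum_le_sum fun t' ht' => hmax t' ht'
    rw [Finset.sum_const, Finset.card_range, smul_eq_mul] at h1
    exact_mod_cast hcard.trans h1
  refine ⟨t, Finset.mem_range.mp ht, ?_⟩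
  set F : ℕ → ℕ := fun u => (𝒰.filter (fun u' => Eqv P (2 * (3 ^ t * κ₀)) u u')).card with hF
  have hFle : ∀ u, ∀ D : Finset ℕ, (∀ u' ∈ D, u' ∈ 𝒰 ∧ Eqv P (2 * (3 ^ t * κ₀)) u u') → D.card ≤ F u := by
    intro u D hD
    refine Finset.card_le_card fun u' hu' => ?_
    exact Finset.mem_filter.mpr (hD u' hu')
  have hF1 : ∀ u ∈ 𝒰, (0 : ℝ) < (F u : ℝ) := by
    intro u hu
    have h1 : 0 < (Hs P ω H (3 ^ t * κ₀) u).card := by
      have : (0 : ℝ) < ((Hs P ω H (3 ^ t * κ₀) u).card : ℝ) := lt_of_lt_of_le one_pos (hG u hu t)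
      exact_mod_cast this
    obtain ⟨h, hh⟩ := Finset.card_pos.mp h1
    have h2 := hFle u {u} (by
      intro u' hu'
      rw [Finset.mem_singleton] at hu'
      subst hu'
      exact ⟨hu, eqv_of_common hω hh hh⟩)
    rw [Finset.card_singleton] at h2
    exact_mod_cast h2
  have hone := XFE_one (P := P) (𝒰 := 𝒰) (ω := ω) (H := H) (κ := 3 ^ t * κ₀) hω F hFle
  have hlam0 : 0 < lam := by linarith
  have hc : 0 < σ / (K₀ * lam ^ 3) := by positivity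
  have hR : (0 : ℝ) < 2 * H + 1 := by positivity
  have htwo : ∀ u ∈ 𝒱 t, σ / (K₀ * lam ^ 3) * (F u : ℝ) ≤ ((Hs P ω H (3 ^ t * κ₀) u).card : ℝ) ^ 3 := by
    intro u hu
    obtain ⟨hu1, hu2⟩ := Finset.mem_filter.mp hu
    have h1 := XFE_two (P := P) (𝒰 := 𝒰) (ω := ω) (H := H) (κ₀ := κ₀) (κ := 3 ^ t * κ₀) (σ := σ)
      (K₀ := K₀) hω (hmono t) Sh hSh hSh1
      (fun D h hD => le_trans (by
        have : D ⊆ 𝒰.filter (fun u => h ∈ Sh u) := fun x hx => Finset.mem_filter.mpr (hD x hx)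
        exact_mod_cast Finset.card_le_card this) (hSh2 h)) u
      (𝒰.filter (fun u' => Eqv P (2 * (3 ^ t * κ₀)) u u')) (fun u' hu' => Finset.mem_filter.mp hu')
    have h2 : ((Hs P ω H (3 * (3 ^ t * κ₀)) u).card : ℝ) ^ 3 ≤ (lam * (Hs P ω H (3 ^ t * κ₀) u).card) ^ 3 :=
      pow_le_pow_left₀ (Nat.cast_nonneg _) hu2 3
    have h3 : σ * (F u : ℝ) ≤ K₀ * lam ^ 3 * ((Hs P ω H (3 ^ t * κ₀) u).card : ℝ) ^ 3 := by
      calc σ * (F u : ℝ) ≤ K₀ * ((Hs P ω H (3 * (3 ^ t * κ₀)) u).card : ℝ) ^ 3 := h1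
        _ ≤ K₀ * (lam * (Hs P ω H (3 ^ t * κ₀) u).card) ^ 3 := mul_le_mul_of_nonneg_left h2 hK₀.le
        _ = K₀ * lam ^ 3 * ((Hs P ω H (3 ^ t * κ₀) u).card : ℝ) ^ 3 := by ring
    have h4 : 0 < K₀ * lam ^ 3 := by positivity
    rw [div_mul_eq_mul_div, div_le_iff₀ h4]
    linarith
  have hdc : ∑ u ∈ 𝒱 t, ((Hs P ω H (3 ^ t * κ₀) u).card : ℝ) / (F u : ℝ) ≤ 2 * H + 1 := by
    refine le_trans ?_ hone
    refine Finset.sum_le_sum_of_subset_of_nonneg (Finset.filter_subset _ _) ?_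
    intro u _ _
    positivity
  have hmean := XFE_mean (𝒱 t) (fun u => ((Hs P ω H (3 ^ t * κ₀) u).card : ℝ)) (fun u => (F u : ℝ))
    (fun u hu => lt_of_lt_of_le one_pos (hG u (Finset.mem_filter.mp hu).1 t))
    (fun u hu => hF1 u (Finset.mem_filter.mp hu).1) hc hR htwo hdc
  have hsub : ∑ u ∈ 𝒱 t, (F u : ℝ) ≤ ∑ u ∈ 𝒰, (F u : ℝ) :=
    Finset.sum_le_sum_of_subset_of_nonneg (Finset.filter_subset _ _) fun _ _ _ => Nat.cast_nonneg _
  refine le_trans (le_trans ?_ hmean) hsub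
  have hm : (𝒰.card : ℝ) / T ≤ (𝒱 t).card := by
    rw [div_le_iff₀ hTR]
    linarith
  refine mul_le_mul ?_ ?_ (Real.sqrt_nonneg _) (by positivity)
  · have e : (𝒰.card : ℝ) / (2 * T) = (𝒰.card : ℝ) / T / 2 := by
      field_simp
    rw [e]
    exact div_le_div_of_nonneg_right hm (by norm_num)
  · refine Real.sqrt_le_sqrt ?_
    refine mul_le_mul_of_nonneg_left ?_ hc.le
    refine pow_le_pow_left₀ (by positivity) ?_ 3
    have e : (𝒰.card : ℝ) / (2 * T * (2 * H + 1)) = (𝒰.card : ℝ) / T / (2 * (2 * H + 1)) := by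
      field_simp
    rw [e]
    exact div_le_div_of_nonneg_right hm (by positivity)

end Pool.Agent.Lib.MP_2c6f70_nt.RU
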