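import Mathlib

/-!
# Comparison of exponents, doubly exponential range (adapt `final_compare` of `FF`)

Everything is a power of `N`.  Lower bound: `u/(2T) sqrt (σ/N^(4δ) (u/(2T(2H+1)))³)` with `u ≥ N^(1/2+97δ)`, `σ ≥ N^(1/2+101δ)/512`, `2H+1 ≤ 5 N^(1/2-97δ)`: `≥ c_T N^e`, `e = 1/2 + 97δ + (1/2)(1/2 + 101δ - 4δ + 3·194δ) = 3/4 + 436.5 δ`.
Upper bound: `lk² N^δ U^(2(1-x)) ≤ N^(100δ + δ + (1/2+98δ)(3/2-25δ)) ≤ N^(101δ + 3/4 + 134.5δ) = N^(3/4 + 235.5 δ)`.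
-/

set_option autoImplicit false

namespace Pool.Agent.Lib.MP_2c6f70_nt.RU

private theorem XFF_big (r c : ℝ) (hr : 0 < r) :
    ∀ᶠ N : ℕ in Filter.atTop, c < (N : ℝ) ^ r := by
  have h1 := (tendsto_rpow_atTop hr).comp (tendsto_natCast_atTop_atTop (R := ℝ))
  exact h1.eventually_gt_atTop c

theorem final_compare2 (δ : ℝ) (hδ : 0 < δ) (hδ1 : δ ≤ 1 / 400) (T : ℕ) (hT : 1 ≤ T) : ∃ N₀ : ℕ, ∀ N ≥ N₀,
    ∀ (H : ℕ) (u σ F lk : ℝ), (N : ℝ) ^ (1 / 2 + 97 * δ) ≤ u → (N : ℝ) ^ (1 / 2 + 101 * δ) / 512 ≤ σ →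
      (H : ℝ) ≤ 2 * (N : ℝ) ^ (1 / 2 - 97 * δ) → 0 ≤ lk → lk ≤ (N : ℝ) ^ (50 * δ) →
      u / (2 * T) * Real.sqrt (σ / ((N : ℝ) ^ δ * ((N : ℝ) ^ δ) ^ 3) * (u / (2 * T * (2 * H + 1))) ^ 3) ≤ F →
      F ≤ lk ^ 2 * (N : ℝ) ^ δ * ((N : ℝ) ^ (1 / 2 + 98 * δ)) ^ (2 * (1 - (1 / 4 + 25 / 2 * δ))) → False := by
  have e1 := XFF_big δ (1440 * (T : ℝ) ^ 3) hδ
  obtain ⟨N₀, hN₀⟩ := Filter.eventually_atTop.1 (e1.and (Filter.eventually_ge_atTop 1))
  refine ⟨N₀, fun N hN => ?_⟩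
  obtain ⟨h1, h2⟩ := hN₀ N hN
  intro H u σ F lk hu hσ hH hlk0 hlk hL hF
  have hN1 : (1 : ℝ) ≤ N := by exact_mod_cast h2
  have hT1 : (1 : ℝ) ≤ T := by exact_mod_cast hT
  obtain ⟨x, hx⟩ : ∃ x : ℝ, x = N := ⟨_, rfl⟩
  rw [← hx] at h1 hu hσ hH hlk hL hF hN1
  have hx0 : 0 < x := by linarith
  have hpow : ∀ a b : ℝ, x ^ (a + b) = x ^ a * x ^ b := fun a b => Real.rpow_add hx0 a b
  have hpos : ∀ a : ℝ, 0 < x ^ a := fun a => Real.rpow_pos_of_pos hx0 a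
  have hge1 : ∀ a : ℝ, 0 ≤ a → 1 ≤ x ^ a := fun a ha => Real.one_le_rpow hN1 ha
  have hu0 : 0 < u := (hpos _).trans_le hu
  have hσ0 : 0 < σ := (div_pos (hpos _) (by norm_num)).trans_le hσ
  have hT3 : (T : ℝ) ^ 3 ≤ (T : ℝ) ^ 4 := pow_le_pow_right₀ hT1 (by norm_num)
  have hx4 : x ^ δ * (x ^ δ) ^ 3 = x ^ (4 * δ) := by
    rw [← Real.rpow_natCast (x ^ δ) 3, ← Real.rpow_mul hx0.le, ← Real.rpow_add hx0]
    congr 1
    push_cast
    ring
  -- the two factors under the square root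
  have hH1 : 2 * (H : ℝ) + 1 ≤ 5 * x ^ (1 / 2 - 97 * δ) := by
    have := hge1 (1 / 2 - 97 * δ) (by linarith)
    linarith
  have hH0 : (0 : ℝ) < 2 * H + 1 := by positivity
  have hA : x ^ (1 / 2 + 97 * δ) / 512 ≤ σ / (x ^ δ * (x ^ δ) ^ 3) := by
    rw [hx4, le_div_iff₀ (hpos _)]
    refine le_trans (le_of_eq ?_) hσ
    have h3 : x ^ (1 / 2 + 101 * δ) = x ^ (1 / 2 + 97 * δ) * x ^ (4 * δ) := by
      rw [← hpow]
      congr 1
      ring
    rw [h3]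
    ring
  have hB : x ^ (194 * δ) / (10 * T) ≤ u / (2 * T * (2 * H + 1)) := by
    rw [div_le_div_iff₀ (by positivity) (by positivity)]
    have h3 : x ^ (194 * δ) * (2 * T * (2 * H + 1)) ≤
        x ^ (194 * δ) * (2 * T * (5 * x ^ (1 / 2 - 97 * δ))) :=
      mul_le_mul_of_nonneg_left (mul_le_mul_of_nonneg_left hH1 (by positivity)) (hpos _).le
    have h4 : x ^ (194 * δ) * (2 * T * (5 * x ^ (1 / 2 - 97 * δ))) =
        x ^ (1 / 2 + 97 * δ) * (10 * T) := by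
      have h5 : x ^ (1 / 2 + 97 * δ) = x ^ (194 * δ) * x ^ (1 / 2 - 97 * δ) := by
        rw [← hpow]
        congr 1
        ring
      rw [h5]
      ring
    rw [h4] at h3
    exact h3.trans (mul_le_mul_of_nonneg_right hu (by positivity))
  have hB3 : x ^ (582 * δ) / (1000 * (T : ℝ) ^ 3) ≤ (u / (2 * T * (2 * H + 1))) ^ 3 := by
    have h3 := pow_le_pow_left₀ (div_nonneg (hpos _).le (by positivity)) hB 3
    refine le_trans (le_of_eq ?_) h3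
    rw [div_pow, ← Real.rpow_natCast (x ^ (194 * δ)) 3, ← Real.rpow_mul hx0.le]
    have h4 : 194 * δ * ((3 : ℕ) : ℝ) = 582 * δ := by
      push_cast
      ring
    rw [h4]
    congr 1
    ring
  -- the square root
  have hs : x ^ (1 / 4 + 339 * δ) / (720 * (T : ℝ) ^ 2) ≤
      Real.sqrt (σ / (x ^ δ * (x ^ δ) ^ 3) * (u / (2 * T * (2 * H + 1))) ^ 3) := by
    refine Real.le_sqrt_of_sq_le ?_
    have h3 : x ^ (1 / 2 + 97 * δ) / 512 * (x ^ (582 * δ) / (1000 * (T : ℝ) ^ 3)) ≤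
        σ / (x ^ δ * (x ^ δ) ^ 3) * (u / (2 * T * (2 * H + 1))) ^ 3 :=
      mul_le_mul hA hB3 (div_nonneg (hpos _).le (by positivity))
        ((div_nonneg (hpos _).le (by norm_num)).trans hA)
    refine le_trans ?_ h3
    have h4 : (x ^ (1 / 4 + 339 * δ) / (720 * (T : ℝ) ^ 2)) ^ 2 =
        x ^ (1 / 2 + 678 * δ) * (518400 * (T : ℝ) ^ 4)⁻¹ := by
      rw [div_pow, ← Real.rpow_natCast (x ^ (1 / 4 + 339 * δ)) 2, ← Real.rpow_mul hx0.le]
      have h5 : (1 / 4 + 339 * δ) * ((2 : ℕ) : ℝ) = 1 / 2 + 678 * δ := by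
        push_cast
        ring
      rw [h5, div_eq_mul_inv]
      congr 2
      ring
    have h5 : x ^ (1 / 2 + 97 * δ) / 512 * (x ^ (582 * δ) / (1000 * (T : ℝ) ^ 3)) =
        x ^ (1 / 2 + 679 * δ) * (512000 * (T : ℝ) ^ 3)⁻¹ := by
      have h6 : x ^ (1 / 2 + 679 * δ) = x ^ (1 / 2 + 97 * δ) * x ^ (582 * δ) := by
        rw [← hpow]
        congr 1
        ring
      rw [h6, div_mul_div_comm, div_eq_mul_inv]
      congr 2
      ring
    rw [h4, h5]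
    refine mul_le_mul (Real.rpow_le_rpow_of_exponent_le hN1 (by linarith)) ?_
      (inv_nonneg.2 (by positivity)) (hpos _).le
    exact inv_anti₀ (by positivity) (by nlinarith [hT3, pow_pos (lt_of_lt_of_le one_pos hT1) 4])
  have hlow : x ^ (3 / 4 + 436 * δ) / (1440 * (T : ℝ) ^ 3) ≤ F := by
    refine le_trans ?_ hL
    have h3 : x ^ (1 / 2 + 97 * δ) / (2 * T) ≤ u / (2 * T) := by
      rw [div_le_div_iff_of_pos_right (by positivity)]
      exact hu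
    refine le_trans (le_of_eq ?_) (mul_le_mul h3 hs (div_nonneg (hpos _).le (by positivity))
      (div_nonneg hu0.le (by positivity)))
    have h4 : x ^ (3 / 4 + 436 * δ) = x ^ (1 / 2 + 97 * δ) * x ^ (1 / 4 + 339 * δ) := by
      rw [← hpow]
      congr 1
      ring
    rw [h4, div_mul_div_comm]
    congr 1
    ring
  have hup : F ≤ x ^ (3 / 4 + 236 * δ) := by
    refine hF.trans ?_
    have h3 : lk ^ 2 ≤ x ^ (100 * δ) := by
      have h4 := pow_le_pow_left₀ hlk0 hlk 2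
      refine h4.trans (le_of_eq ?_)
      rw [← Real.rpow_natCast (x ^ (50 * δ)) 2, ← Real.rpow_mul hx0.le]
      congr 1
      push_cast
      ring
    have h4 : (x ^ (1 / 2 + 98 * δ)) ^ (2 * (1 - (1 / 4 + 25 / 2 * δ))) ≤
        x ^ (3 / 4 + 135 * δ) := by
      rw [← Real.rpow_mul hx0.le]
      refine Real.rpow_le_rpow_of_exponent_le hN1 ?_
      nlinarith [sq_nonneg δ]
    have h5 : x ^ (3 / 4 + 236 * δ) = x ^ (100 * δ) * x ^ δ * x ^ (3 / 4 + 135 * δ) := by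
      rw [← hpow, ← hpow]
      congr 1
      ring
    rw [h5]
    refine mul_le_mul (mul_le_mul_of_nonneg_right h3 (hpos _).le) h4
      (Real.rpow_nonneg (hpos _).le _) ?_
    exact mul_nonneg (hpos _).le (hpos _).le
  have h3 : x ^ (3 / 4 + 436 * δ) ≤ 1440 * (T : ℝ) ^ 3 * x ^ (3 / 4 + 236 * δ) := by
    have h4 := hlow.trans hup
    rw [div_le_iff₀ (by positivity)] at h4
    refine h4.trans (le_of_eq ?_)
    ring
  have h4 : x ^ (3 / 4 + 436 * δ) = x ^ (200 * δ) * x ^ (3 / 4 + 236 * δ) := by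
    rw [← hpow]
    congr 1
    ring
  rw [h4] at h3
  have h5 := le_of_mul_le_mul_right h3 (hpos _)
  have h6 : x ^ δ ≤ x ^ (200 * δ) := Real.rpow_le_rpow_of_exponent_le hN1 (by linarith)
  linarith

end Pool.Agent.Lib.MP_2c6f70_nt.RU
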