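import Pool.Agent.Lib.MP_2c6f70_nt.RU.T_Cmb

/-!
# Moments over products of pairs: lower bound by the power mean inequality

`C_j = P.powersetCard j`, `D t = t.1 * t.2`, `F K K' = ∑_{t ∈ 𝒟} chi K (D t) * chi K' (D t)` (real).
`∑_{f ∈ 𝒟^r} (∑_K chi K (∏ D (f i)))² = ∑_{K,K'} (F K K')^r` (`chi_mul` for a product, `Finset.prod_univ_sum`).  `r` even: power mean (`Real.pow_arith_mean_le_arith_mean_pow_of_even`, weights `1/#C_j²` on `C_j ×ˢ C_j`):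
`≥ #C_j² (#C_j^(-2) ∑_{K,K'} F K K')^r`, and `∑_{K,K'} F K K' = ∑_t (∑_K chi K (D t))² ≥ #𝒟 (#C_j/2)²` since `∑_K chi K (D t) ≥ #C_j/2` (`corr_lower` with `ω = 1`, `r = 1`, `4 j κ ≤ 1`).
(`#C_j = 0` is trivial.)
-/

set_option autoImplicit false

namespace Pool.Agent.Lib.MP_2c6f70_nt.RU.T

open Finset

private theorem X_Mom_chi (K : Finset ℕ) {r : ℕ} (f : Fin r → ℕ × ℕ) :
    ((chi K ((∏ i, ((f i).1 * (f i).2) : ℕ) : ℤ) : ℤ) : ℝ) =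
      ∏ i, ((chi K (((f i).1 * (f i).2 : ℕ) : ℤ) : ℤ) : ℝ) := by
  rw [← Int.cast_prod]
  refine congrArg _ ?_
  unfold chi
  rw [prod_comm]
  exact prod_congr rfl fun p _ => Cmb_jac (fun i => (f i).1 * (f i).2) p

private theorem X_Mom_low (P : Finset ℕ) (hne : P.Nonempty) (j : ℕ) (κ : ℝ) (hκ : 4 * j * κ ≤ 1)
    (t : ℕ × ℕ) (h : (exc P (fun _ => 1) (t.1 * t.2) : ℝ) ≤ κ * P.card) :
    ((P.powersetCard j).card : ℝ) / 2 ≤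
      ∑ K ∈ P.powersetCard j, ((chi K ((t.1 * t.2 : ℕ) : ℤ) : ℤ) : ℝ) := by
  have h1 := corr_lower P (fun _ => 1) (fun _ _ => Or.inl rfl) hne κ 1 j
    (by rw [Nat.cast_one, mul_one]; exact hκ) (fun _ => t.1 * t.2) (fun _ => h)
  refine h1.trans (le_of_eq ?_)
  refine sum_congr rfl fun K _ => ?_
  rw [prod_const_one, one_pow, Int.cast_one, one_mul]
  refine congrArg (fun z : ℕ => ((chi K (z : ℤ) : ℤ) : ℝ)) ?_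
  rw [prod_const, card_univ, Fintype.card_fin, pow_one]

private theorem X_Mom_ex {ι : Type*} (C : Finset (Finset ℕ)) (S : Finset ι) (G : Finset ℕ → ι → ℝ) :
    ∑ f ∈ S, (∑ K ∈ C, G K f) ^ 2 = ∑ x ∈ C ×ˢ C, ∑ f ∈ S, G x.1 f * G x.2 f := by
  rw [sum_comm]
  refine sum_congr rfl fun f _ => ?_
  rw [sq, sum_mul_sum, sum_product]

theorem moment_lower (P : Finset ℕ) (hne : P.Nonempty) (j r : ℕ) (hr : Even r) (κ : ℝ) (hκ : 4 * j * κ ≤ 1)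
    (𝒟 : Finset (ℕ × ℕ)) (h : ∀ t ∈ 𝒟, (exc P (fun _ => 1) (t.1 * t.2) : ℝ) ≤ κ * P.card) :
    ((P.powersetCard j).card : ℝ) ^ 2 * ((𝒟.card : ℝ) / 4) ^ r ≤
      ∑ f ∈ Fintype.piFinset (fun _ : Fin r => 𝒟),
        (∑ K ∈ P.powersetCard j, ((chi K ((∏ i, ((f i).1 * (f i).2) : ℕ) : ℤ) : ℤ) : ℝ)) ^ 2 := by
  obtain ⟨C, hC⟩ : ∃ C, C = P.powersetCard j := ⟨_, rfl⟩
  rw [← hC]
  rcases Nat.eq_zero_or_pos C.card with h0 | h0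
  · rw [h0, Nat.cast_zero, zero_pow two_ne_zero, zero_mul]
    exact sum_nonneg fun f _ => sq_nonneg _
  have hC0 : (0 : ℝ) < C.card := Nat.cast_pos.mpr h0
  have hM0 : (0 : ℝ) < (C.card : ℝ) ^ 2 := by positivity
  have hMc : ((C ×ˢ C).card : ℝ) = (C.card : ℝ) ^ 2 := by
    rw [card_product, Nat.cast_mul, sq]
  -- the sums over the products
  have h1 : ∑ f ∈ Fintype.piFinset (fun _ : Fin r => 𝒟),
      (∑ K ∈ C, ((chi K ((∏ i, ((f i).1 * (f i).2) : ℕ) : ℤ) : ℤ) : ℝ)) ^ 2 =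
      ∑ x ∈ C ×ˢ C, (∑ t ∈ 𝒟, ((chi x.1 ((t.1 * t.2 : ℕ) : ℤ) : ℤ) : ℝ) *
        ((chi x.2 ((t.1 * t.2 : ℕ) : ℤ) : ℤ) : ℝ)) ^ r := by
    rw [X_Mom_ex]
    refine sum_congr rfl fun x _ => ?_
    rw [sum_pow']
    refine sum_congr rfl fun f _ => ?_
    rw [X_Mom_chi, X_Mom_chi, prod_mul_distrib]
  have h2 : (𝒟.card : ℝ) * ((C.card : ℝ) / 2) ^ 2 ≤
      ∑ x ∈ C ×ˢ C, ∑ t ∈ 𝒟, ((chi x.1 ((t.1 * t.2 : ℕ) : ℤ) : ℤ) : ℝ) *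
        ((chi x.2 ((t.1 * t.2 : ℕ) : ℤ) : ℤ) : ℝ) := by
    rw [← X_Mom_ex C 𝒟 (fun K t => ((chi K ((t.1 * t.2 : ℕ) : ℤ) : ℤ) : ℝ)), ← nsmul_eq_mul,
      ← sum_const]
    refine sum_le_sum fun t ht => ?_
    refine pow_le_pow_left₀ (by positivity) ?_ 2
    rw [hC]
    exact X_Mom_low P hne j κ hκ t (h t ht)
  rw [h1]
  have h3 := Real.pow_arith_mean_le_arith_mean_pow_of_even (C ×ˢ C)
    (fun _ => ((C.card : ℝ) ^ 2)⁻¹)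
    (fun x => ∑ t ∈ 𝒟, ((chi x.1 ((t.1 * t.2 : ℕ) : ℤ) : ℤ) : ℝ) *
        ((chi x.2 ((t.1 * t.2 : ℕ) : ℤ) : ℤ) : ℝ))
    (fun _ _ => inv_nonneg.mpr hM0.le)
    (by rw [sum_const, nsmul_eq_mul, hMc]; exact mul_inv_cancel₀ hM0.ne') hr
  rw [← mul_sum, ← mul_sum] at h3
  have h4 : (𝒟.card : ℝ) / 4 ≤ ((C.card : ℝ) ^ 2)⁻¹ *
      ∑ x ∈ C ×ˢ C, ∑ t ∈ 𝒟, ((chi x.1 ((t.1 * t.2 : ℕ) : ℤ) : ℤ) : ℝ) *
        ((chi x.2 ((t.1 * t.2 : ℕ) : ℤ) : ℤ) : ℝ) := by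
    rw [inv_mul_eq_div, le_div_iff₀ hM0]
    refine le_trans (le_of_eq ?_) h2
    ring
  have h5 := (pow_le_pow_left₀ (by positivity) h4 r).trans h3
  rw [inv_mul_eq_div, le_div_iff₀ hM0] at h5
  linarith

end Pool.Agent.Lib.MP_2c6f70_nt.RU.T
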