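import Pool.Agent.Lib.MP_2c6f70_nt.RU.T_Bas

/-!
# Moments over products of pairs of primes: upper bound

Group the `f ∈ 𝒟^r` by `h = ∏ (f i).1 (f i).2 ∈ [1, Y]`.  For given `h` all `(f i).1`, `(f i).2` are prime divisors of `h`, and `h` has at most `2 r` prime divisors (each of them divides, so equals, one of the `2 r` primes);
so at most `((2 r)²)^r = (2 r)^(2 r)` functions `f` (`f` is determined by a function `Fin r → h.primeFactors × h.primeFactors`; `Fintype.card_piFinset`).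
Then `∑_f (∑_K chi K h)² ≤ (2r)^(2r) ∑_{h ≤ Y} (∑_K chi K h)² ≤ (2r)^(2r) B #C_j` (`LS` with `β = 1`; the square of the real number is the square of the norm of the complex one).
-/

set_option autoImplicit false

namespace Pool.Agent.Lib.MP_2c6f70_nt.RU.T

open Finset

private theorem X_Mul_fiber (r h : ℕ) (𝒟 : Finset (ℕ × ℕ)) (hp : ∀ t ∈ 𝒟, t.1.Prime ∧ t.2.Prime) :
    (((Fintype.piFinset (fun _ : Fin r => 𝒟)).filter
      (fun f => ∏ i, ((f i).1 * (f i).2) = h)).card : ℝ) ≤ (2 * (r : ℝ)) ^ (2 * r) := by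
  classical
  rcases ((Fintype.piFinset (fun _ : Fin r => 𝒟)).filter
      (fun f => ∏ i, ((f i).1 * (f i).2) = h)).eq_empty_or_nonempty with he | hne
  · rw [he, Finset.card_empty, Nat.cast_zero]
    positivity
  obtain ⟨f0, hf0⟩ := hne
  obtain ⟨hf0D, hf0h⟩ := Finset.mem_filter.1 hf0
  have hpos : ∀ f ∈ Fintype.piFinset (fun _ : Fin r => 𝒟), ∀ i, (f i).1.Prime ∧ (f i).2.Prime :=
    fun f hf i => hp (f i) (Fintype.mem_piFinset.1 hf i)
  have hne0 : h ≠ 0 := by
    rw [← hf0h]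
    exact Finset.prod_ne_zero_iff.2 fun i _ =>
      mul_ne_zero (hpos f0 hf0D i).1.ne_zero (hpos f0 hf0D i).2.ne_zero
  have hcard : h.primeFactors.card ≤ 2 * r := by
    have hsub : h.primeFactors ⊆ (Finset.univ.image fun i : Fin r => (f0 i).1) ∪
        (Finset.univ.image fun i : Fin r => (f0 i).2) := by
      intro q hq
      have hqp := Nat.prime_of_mem_primeFactors hq
      have hqd := Nat.dvd_of_mem_primeFactors hq
      rw [← hf0h] at hqd
      obtain ⟨i, _, hi⟩ := (Nat.Prime.prime hqp).exists_mem_finset_dvd hqd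
      rcases (Nat.Prime.dvd_mul hqp).1 hi with h1 | h1
      · refine Finset.mem_union_left _ (Finset.mem_image.2 ⟨i, Finset.mem_univ _, ?_⟩)
        exact ((Nat.prime_dvd_prime_iff_eq hqp (hpos f0 hf0D i).1).1 h1).symm
      · refine Finset.mem_union_right _ (Finset.mem_image.2 ⟨i, Finset.mem_univ _, ?_⟩)
        exact ((Nat.prime_dvd_prime_iff_eq hqp (hpos f0 hf0D i).2).1 h1).symm
    have h1 := Finset.card_le_card hsub
    have h2 := Finset.card_union_le (Finset.univ.image fun i : Fin r => (f0 i).1)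
      (Finset.univ.image fun i : Fin r => (f0 i).2)
    have h3 : (Finset.univ.image fun i : Fin r => (f0 i).1).card ≤ r := by
      have := Finset.card_image_le (s := (Finset.univ : Finset (Fin r))) (f := fun i => (f0 i).1)
      rwa [Finset.card_univ, Fintype.card_fin] at this
    have h4 : (Finset.univ.image fun i : Fin r => (f0 i).2).card ≤ r := by
      have := Finset.card_image_le (s := (Finset.univ : Finset (Fin r))) (f := fun i => (f0 i).2)
      rwa [Finset.card_univ, Fintype.card_fin] at this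
    omega
  have hsub2 : (Fintype.piFinset (fun _ : Fin r => 𝒟)).filter
      (fun f => ∏ i, ((f i).1 * (f i).2) = h) ⊆
      Fintype.piFinset (fun _ : Fin r => h.primeFactors ×ˢ h.primeFactors) := by
    intro f hf
    obtain ⟨hfD, hfh⟩ := Finset.mem_filter.1 hf
    rw [Fintype.mem_piFinset]
    intro i
    have hd : (f i).1 * (f i).2 ∣ h := by
      rw [← hfh]
      exact Finset.dvd_prod_of_mem (fun i => (f i).1 * (f i).2) (Finset.mem_univ i)
    rw [Finset.mem_product, Nat.mem_primeFactors, Nat.mem_primeFactors]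
    exact ⟨⟨(hpos f hfD i).1, (Dvd.intro _ rfl).trans hd, hne0⟩,
      ⟨(hpos f hfD i).2, (Dvd.intro_left _ rfl).trans hd, hne0⟩⟩
  have h5 := Finset.card_le_card hsub2
  rw [Fintype.card_piFinset, Finset.prod_const, Finset.card_univ, Fintype.card_fin,
    Finset.card_product] at h5
  have h6 : (h.primeFactors.card * h.primeFactors.card) ^ r ≤ (2 * r) ^ (2 * r) := by
    rw [pow_mul, sq]
    exact Nat.pow_le_pow_left (Nat.mul_le_mul hcard hcard) r
  exact_mod_cast h5.trans h6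

theorem moment_upper (P : Finset ℕ) (j r Y : ℕ) (B : ℝ) (hLS : LS P j Y B) (𝒟 : Finset (ℕ × ℕ))
    (hp : ∀ t ∈ 𝒟, t.1.Prime ∧ t.2.Prime)
    (hY : ∀ f ∈ Fintype.piFinset (fun _ : Fin r => 𝒟), ∏ i, ((f i).1 * (f i).2) ≤ Y) :
    ∑ f ∈ Fintype.piFinset (fun _ : Fin r => 𝒟),
        (∑ K ∈ P.powersetCard j, ((chi K ((∏ i, ((f i).1 * (f i).2) : ℕ) : ℤ) : ℤ) : ℝ)) ^ 2 ≤
      (2 * (r : ℝ)) ^ (2 * r) * (B * (P.powersetCard j).card) := by
  classical
  have hmaps : ∀ f ∈ Fintype.piFinset (fun _ : Fin r => 𝒟),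
      (∏ i, ((f i).1 * (f i).2)) ∈ Icc 1 Y := by
    intro f hf
    refine Finset.mem_Icc.2 ⟨?_, hY f hf⟩
    refine Nat.one_le_iff_ne_zero.2 (Finset.prod_ne_zero_iff.2 fun i _ => ?_)
    have h1 := hp (f i) (Fintype.mem_piFinset.1 hf i)
    exact mul_ne_zero h1.1.ne_zero h1.2.ne_zero
  rw [← Finset.sum_fiberwise_of_maps_to hmaps]
  have h1 : ∀ h ∈ Icc 1 Y, ∑ f ∈ (Fintype.piFinset (fun _ : Fin r => 𝒟)).filter
      (fun f => ∏ i, ((f i).1 * (f i).2) = h),
        (∑ K ∈ P.powersetCard j, ((chi K ((∏ i, ((f i).1 * (f i).2) : ℕ) : ℤ) : ℤ) : ℝ)) ^ 2 ≤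
      (2 * (r : ℝ)) ^ (2 * r) * (∑ K ∈ P.powersetCard j, ((chi K (h : ℤ) : ℤ) : ℝ)) ^ 2 := by
    intro h _
    have h2 : ∑ f ∈ (Fintype.piFinset (fun _ : Fin r => 𝒟)).filter
        (fun f => ∏ i, ((f i).1 * (f i).2) = h),
          (∑ K ∈ P.powersetCard j, ((chi K ((∏ i, ((f i).1 * (f i).2) : ℕ) : ℤ) : ℤ) : ℝ)) ^ 2 =
        ∑ f ∈ (Fintype.piFinset (fun _ : Fin r => 𝒟)).filter
        (fun f => ∏ i, ((f i).1 * (f i).2) = h),
          (∑ K ∈ P.powersetCard j, ((chi K (h : ℤ) : ℤ) : ℝ)) ^ 2 := by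
      refine Finset.sum_congr rfl fun f hf => ?_
      rw [(Finset.mem_filter.1 hf).2]
    rw [h2, Finset.sum_const, nsmul_eq_mul]
    exact mul_le_mul_of_nonneg_right (X_Mul_fiber r h 𝒟 hp) (sq_nonneg _)
  refine (Finset.sum_le_sum h1).trans ?_
  rw [← Finset.mul_sum]
  refine mul_le_mul_of_nonneg_left ?_ (by positivity)
  have h3 := hLS (fun _ => 1)
  have h4 : ∑ K ∈ P.powersetCard j, ‖(1 : ℂ)‖ ^ 2 = ((P.powersetCard j).card : ℝ) := by
    rw [norm_one, one_pow, Finset.sum_const, nsmul_eq_mul, mul_one]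
  rw [h4] at h3
  refine le_trans (le_of_eq ?_) h3
  refine Finset.sum_congr rfl fun h _ => ?_
  have h5 : ∑ K ∈ P.powersetCard j, (1 : ℂ) * ((chi K (h : ℤ) : ℤ) : ℂ) =
      ((∑ K ∈ P.powersetCard j, ((chi K (h : ℤ) : ℤ) : ℝ) : ℝ) : ℂ) := by
    rw [Complex.ofReal_sum]
    refine Finset.sum_congr rfl fun K _ => ?_
    rw [one_mul, Complex.ofReal_intCast]
  rw [h5, Complex.norm_real, Real.norm_eq_abs, sq_abs]

end Pool.Agent.Lib.MP_2c6f70_nt.RU.T
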