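import Pool.Agent.Lib.MP_2c6f70_nt.RU.X_Cl
import Pool.Agent.Lib.MP_2c6f70_nt.RU.X_Mom
import Pool.Agent.Lib.MP_2c6f70_nt.RU.X_Mul
import Pool.Agent.Lib.MP_2c6f70_nt.RU.T_Main

/-!
# Few pairs of primes have equal symbols

PROOF.  `claimF_final x (η/8)`: `τ ≤ 1-x+η/8`, `E ≥ 0`.  `j ≥ 1` natural with `j ≥ 16 (E+1)/η`, `j ≥ 8/c`.  `C` from `CLAIMF` with `J = j`.  `κ = 1/(4 j)`.  `cj = 2^j j!`.  `N` large.
`𝒟 = ∅` trivial.  Otherwise `U ≥ 2`; `λ = log U`, `log 2 ≤ λ ≤ log N`; `k = #P`, `log k ≥ c log N`, `2 j ≤ k` (N large).  `A = j log k/(4 λ) ≥ 2` (`j c ≥ 8`).  `r = 2 ⌊A⌋₊` even, `j log k/(4λ) ≤ r ≤ j log k/(2λ)`.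
`Y = ⌊U^(2r)⌋₊`, `1 ≤ Y ≤ U^(2r) = exp(2 r λ) ≤ exp (j log k) = k^j`; products of `2 r` primes `≤ U` are `≤ Y`.  `moment_lower`, `moment_upper` with `B = C k^E (Y + Y^τ k^j)`:
`#C_j² (#𝒟/4)^r ≤ (2r)^(2r) B #C_j`, `#C_j = choose k j ≥ k^j/cj` (`T.choose_lower`, `2j ≤ k`, in `T_Main`; full name `Pool.Agent.Lib.MP_2c6f70_nt.RU.T.choose_lower`), `Y ≤ k^j ≤ Y^τ k^j`: `(#𝒟/4)^r ≤ 2 cj C (2r)^(2r) k^E Y^τ`, `Y^τ ≤ U^(2 r τ)`.
`k^E ≤ (U^(4E/j))^r ≤ (N^(η/4))^r` as `E log k ≤ r E 4 λ/j` (`r ≥ j log k/(4 λ)`), `2 cj C ≤ (2 cj C)^r`, `(2r)^(2r) = ((2r)²)^r`, `2 r ≤ j log k/λ ≤ 2 j log k` (`λ ≥ log 2 ≥ 1/2`), `U^(2τ) ≤ U^(2(1-x)) U^(η/4) ≤ U^(2(1-x)) N^(η/4)`.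
So `#𝒟^r ≤ (8 cj C (2j)² (log k)² N^(η/4) N^(η/4) U^(2(1-x)))^r ≤ ((log k)² N^η U^(2(1-x)))^r` for large `N`; `r ≥ 1` (`le_of_pow_le_pow_left₀`).
-/

set_option autoImplicit false

namespace Pool.Agent.Lib.MP_2c6f70_nt.RU

open Finset T

/-- Choice of the number of factors. -/
private theorem Qp_choice {A : ℝ} (hA : 2 ≤ A) : ∃ r : ℕ, Even r ∧ 1 ≤ r ∧ A ≤ (r : ℝ) ∧ (r : ℝ) ≤ 2 * A := by
  refine ⟨2 * ⌊A⌋₊, even_two_mul _, ?_, ?_, ?_⟩
  · have : 2 ≤ ⌊A⌋₊ := Nat.le_floor (by exact_mod_cast hA)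
    omega
  · have h1 : A < ⌊A⌋₊ + 1 := Nat.lt_floor_add_one A
    have h2 : 2 ≤ ⌊A⌋₊ := Nat.le_floor (by exact_mod_cast hA)
    have h3 : (2 : ℝ) ≤ ⌊A⌋₊ := by exact_mod_cast h2
    push_cast
    linarith
  · have h1 : (⌊A⌋₊ : ℝ) ≤ A := Nat.floor_le (by linarith)
    push_cast
    linarith

theorem quasi_pairs (x c η : ℝ) (hx0 : 0 < x) (hx : x < 1 / 2) (hc : 0 < c) (hη : 0 < η) :
    ∃ κ : ℝ, 0 < κ ∧ ∃ N₀ : ℕ, ∀ N ≥ N₀, ∀ (P : Finset ℕ) (𝒟 : Finset (ℕ × ℕ)) (Z U : ℝ),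
      (∀ p ∈ P, p.Prime ∧ p % 4 = 1 ∧ (p : ℝ) ≤ Z) → 1 < Z → Z ^ x ≤ (P.card : ℝ) →
      (N : ℝ) ^ c ≤ (P.card : ℝ) → 1 ≤ U → U ≤ (N : ℝ) →
      (∀ t ∈ 𝒟, t.1.Prime ∧ t.2.Prime ∧ (t.1 : ℝ) ≤ U ∧ (t.2 : ℝ) ≤ U ∧
        (exc P (fun _ => 1) (t.1 * t.2) : ℝ) ≤ κ * P.card) →
      (𝒟.card : ℝ) ≤ Real.log P.card ^ 2 * (N : ℝ) ^ η * U ^ (2 * (1 - x)) := by
  classical
  obtain ⟨τ, E, hτ1, hτ2, hτ3, hE, hCL⟩ := claimF_final x (η / 8) hx0 hx (by positivity)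
  have hτ0 : 0 ≤ τ := by linarith
  obtain ⟨j, hj⟩ : ∃ j : ℕ, max (16 * (E + 1) / η) (8 / c) ≤ j := exists_nat_ge _
  have hj1 : 16 * (E + 1) / η ≤ j := (le_max_left _ _).trans hj
  have hj2 : 8 / c ≤ j := (le_max_right _ _).trans hj
  have hjpos : (0 : ℝ) < j := lt_of_lt_of_le (by positivity) hj2
  have hjE : 16 * (E + 1) ≤ j * η := by rwa [div_le_iff₀ hη] at hj1
  have hjc : 8 ≤ j * c := by rwa [div_le_iff₀ hc] at hj2
  obtain ⟨C, hC1, hC⟩ := hCL j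
  have hC0 : 0 < C := by linarith
  set κ : ℝ := 1 / (4 * j) with hκdef
  have hκ0 : 0 < κ := by positivity
  have hκ : 4 * j * κ ≤ 1 := by
    rw [hκdef]; exact le_of_eq (mul_one_div_cancel (by positivity))
  refine ⟨κ, hκ0, ?_⟩
  set cj : ℝ := 2 ^ j * (j.factorial : ℝ) with hcjdef
  have hcj0 : 0 < cj := by positivity
  have hcj1 : 1 ≤ cj := by
    have h1 : (1 : ℝ) ≤ 2 ^ j := one_le_pow₀ (by norm_num)
    have h2 : (1 : ℝ) ≤ (j.factorial : ℝ) := by exact_mod_cast j.factorial_pos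
    exact one_le_mul_of_one_le_of_one_le h1 h2
  obtain ⟨N₂, hN₂⟩ : ∃ N₂ : ℕ, ∀ N ≥ N₂, 8 * cj * C * (2 * j) ^ 2 ≤ (N : ℝ) ^ (η / 2) := by
    have := (tendsto_rpow_atTop (by positivity : (0 : ℝ) < η / 2)).comp tendsto_natCast_atTop_atTop
    obtain ⟨N₂, hN₂⟩ := Filter.eventually_atTop.1 (this.eventually_ge_atTop (8 * cj * C * (2 * j) ^ 2))
    exact ⟨N₂, hN₂⟩
  obtain ⟨N₃, hN₃⟩ : ∃ N₃ : ℕ, ∀ N ≥ N₃, ((2 * j : ℕ) : ℝ) ≤ (N : ℝ) ^ c := by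
    have := (tendsto_rpow_atTop hc).comp tendsto_natCast_atTop_atTop
    obtain ⟨N₃, hN₃⟩ := Filter.eventually_atTop.1 (this.eventually_ge_atTop ((2 * j : ℕ) : ℝ))
    exact ⟨N₃, hN₃⟩
  refine ⟨max 2 (max N₂ N₃), ?_⟩
  intro N hN P 𝒟 Z U hP hZ hxk hck hU1 hUN hD
  have hN1 : 2 ≤ N := (le_max_left _ _).trans hN
  have hNN2 : N₂ ≤ N := ((le_max_left _ _).trans (le_max_right _ _)).trans hN
  have hNN3 : N₃ ≤ N := ((le_max_right _ _).trans (le_max_right _ _)).trans hN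
  have hNr : (2 : ℝ) ≤ N := by exact_mod_cast hN1
  have hN0 : (0 : ℝ) < N := by linarith
  have h2j : 2 * j ≤ P.card := by exact_mod_cast (hN₃ N hNN3).trans hck
  have hjk : j ≤ P.card := by omega
  have hkpos : 0 < P.card := by
    have : 0 < j := by exact_mod_cast hjpos
    omega
  have hne : P.Nonempty := Finset.card_pos.1 hkpos
  set k : ℝ := (P.card : ℝ) with hkdef
  have hk0 : (0 : ℝ) < k := by rw [hkdef]; exact_mod_cast hkpos
  have hk1 : (1 : ℝ) ≤ k := by rw [hkdef]; exact_mod_cast hkpos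
  have hRHS : 0 ≤ Real.log k ^ 2 * (N : ℝ) ^ η * U ^ (2 * (1 - x)) := by positivity
  rcases Finset.eq_empty_or_nonempty 𝒟 with hemp | ⟨t₀, ht₀⟩
  · rw [hemp]; simpa using hRHS
  have hU2 : 2 ≤ U := by
    obtain ⟨h1, _, h3, _, _⟩ := hD t₀ ht₀
    have h2 : (2 : ℝ) ≤ (t₀.1 : ℝ) := by exact_mod_cast h1.two_le
    linarith
  have hU0 : 0 < U := by linarith
  set lam : ℝ := Real.log U with hlam
  have hlam2 : Real.log 2 ≤ lam := Real.log_le_log (by norm_num) hU2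
  have hlog2 : (1 : ℝ) / 2 ≤ Real.log 2 := by
    have := Real.log_two_gt_d9; linarith
  have hlam0 : 0 < lam := by linarith
  have hlamN : lam ≤ Real.log N := Real.log_le_log hU0 hUN
  have hlogN : 0 < Real.log N := by linarith
  have hlogk : c * Real.log N ≤ Real.log k := by
    have := Real.log_le_log (Real.rpow_pos_of_pos hN0 c) hck
    rwa [Real.log_rpow hN0] at this
  have hlogk0 : 0 < Real.log k := lt_of_lt_of_le (by positivity) hlogk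
  set A : ℝ := j * Real.log k / (4 * lam) with hAdef
  have hA2 : 2 ≤ A := by
    rw [hAdef, le_div_iff₀ (by positivity)]
    calc 2 * (4 * lam) = 8 * lam := by ring
      _ ≤ (j * c) * Real.log N := by
          calc 8 * lam ≤ 8 * Real.log N := by linarith
            _ ≤ (j * c) * Real.log N := mul_le_mul_of_nonneg_right hjc hlogN.le
      _ = j * (c * Real.log N) := by ring
      _ ≤ j * Real.log k := mul_le_mul_of_nonneg_left hlogk hjpos.le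
  obtain ⟨r, hrev, hr1, hrA, hr2A⟩ := Qp_choice hA2
  have hrpos : (0 : ℝ) < r := by exact_mod_cast hr1
  have hrlam : 2 * (r : ℝ) * lam ≤ j * Real.log k := by
    have h1 : (r : ℝ) ≤ 2 * (j * Real.log k / (4 * lam)) := hr2A
    have h2 : 2 * (j * Real.log k / (4 * lam)) = j * Real.log k / (2 * lam) := by
      field_simp; ring
    rw [h2, le_div_iff₀ (by positivity)] at h1
    linarith
  have hrlow : j * Real.log k ≤ r * (4 * lam) := by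
    have h1 : j * Real.log k / (4 * lam) ≤ r := hrA
    rwa [div_le_iff₀ (by positivity)] at h1
  -- the length
  set Yr : ℝ := U ^ (2 * r) with hYr
  have hYr1 : 1 ≤ Yr := one_le_pow₀ hU1
  have hYrk : Yr ≤ k ^ j := by
    have h1 : Yr = Real.exp (2 * r * lam) := by
      rw [hYr, hlam, ← Real.rpow_natCast, Real.rpow_def_of_pos hU0]
      push_cast
      refine congrArg Real.exp ?_
      ring
    have h2 : k ^ j = Real.exp (j * Real.log k) := by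
      rw [← Real.rpow_natCast, Real.rpow_def_of_pos hk0]
      refine congrArg Real.exp ?_
      ring
    rw [h1, h2]
    exact Real.exp_le_exp.2 hrlam
  set Y : ℕ := ⌊Yr⌋₊ with hYdef
  have hY1 : 1 ≤ Y := Nat.le_floor (by exact_mod_cast hYr1)
  have hYle : (Y : ℝ) ≤ Yr := Nat.floor_le (by linarith)
  have hLS := hC P Z hP hZ hxk j le_rfl Y hY1
  have hlow := moment_lower P hne j r hrev κ hκ 𝒟 (fun t ht => (hD t ht).2.2.2.2)
  have hup := moment_upper P j r Y _ hLS 𝒟 (fun t ht => ⟨(hD t ht).1, (hD t ht).2.1⟩) (by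
    intro f hf
    rw [Fintype.mem_piFinset] at hf
    rw [hYdef]
    refine Nat.le_floor ?_
    have h1 : ∀ i, (((f i).1 * (f i).2 : ℕ) : ℝ) ≤ U ^ 2 := by
      intro i
      obtain ⟨_, _, h3, h4, _⟩ := hD _ (hf i)
      push_cast
      rw [sq]
      exact mul_le_mul h3 h4 (Nat.cast_nonneg _) hU0.le
    calc ((∏ i, ((f i).1 * (f i).2) : ℕ) : ℝ) = ∏ i, (((f i).1 * (f i).2 : ℕ) : ℝ) := by push_cast; rfl
      _ ≤ ∏ _i : Fin r, U ^ 2 := Finset.prod_le_prod (fun i _ => Nat.cast_nonneg _) (fun i _ => h1 i)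
      _ = Yr := by rw [Finset.prod_const, Finset.card_univ, Fintype.card_fin, hYr, ← pow_mul])
  rw [Finset.card_powersetCard] at hlow hup
  set n : ℝ := ((P.card.choose j : ℕ) : ℝ) with hn
  have hn0 : 0 < n := by rw [hn]; exact_mod_cast Nat.choose_pos hjk
  set B : ℝ := C * k ^ E * (Y + (Y : ℝ) ^ τ * k ^ j) with hBdef
  have hmain : n ^ 2 * ((𝒟.card : ℝ) / 4) ^ r ≤ (2 * (r : ℝ)) ^ (2 * r) * (B * n) := hlow.trans hup
  have hkE : 0 < k ^ E := Real.rpow_pos_of_pos hk0 _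
  have hkj0 : 0 < k ^ j := by positivity
  have hnk : k ^ j ≤ cj * n := T.choose_lower P.card j h2j
  have hYτ : 1 ≤ (Y : ℝ) ^ τ := Real.one_le_rpow (by exact_mod_cast hY1) hτ0
  have hY0 : (0 : ℝ) ≤ Y := Nat.cast_nonneg _
  have hYτU : (Y : ℝ) ^ τ ≤ (U ^ (2 * τ)) ^ r := by
    calc (Y : ℝ) ^ τ ≤ Yr ^ τ := Real.rpow_le_rpow hY0 hYle hτ0
      _ = (U ^ (2 * τ)) ^ r := by
          rw [hYr, ← Real.rpow_natCast U (2 * r), ← Real.rpow_mul hU0.le, ← Real.rpow_natCast (U ^ (2 * τ)) r, ← Real.rpow_mul hU0.le]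
          refine congrArg (fun t => U ^ t) ?_
          push_cast
          ring
  have hB2 : B ≤ 2 * C * k ^ E * (U ^ (2 * τ)) ^ r * k ^ j := by
    have h1 : (Y : ℝ) ≤ (Y : ℝ) ^ τ * k ^ j := by
      calc (Y : ℝ) ≤ Yr := hYle
        _ ≤ k ^ j := hYrk
        _ ≤ (Y : ℝ) ^ τ * k ^ j := le_mul_of_one_le_left hkj0.le hYτ
    have h2 : (Y : ℝ) ^ τ * k ^ j ≤ (U ^ (2 * τ)) ^ r * k ^ j := mul_le_mul_of_nonneg_right hYτU hkj0.le
    calc B ≤ C * k ^ E * (2 * ((U ^ (2 * τ)) ^ r * k ^ j)) := by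
          rw [hBdef]
          refine mul_le_mul_of_nonneg_left ?_ (by positivity)
          linarith
      _ = _ := by ring
  have hq : ((𝒟.card : ℝ) / 4) ^ r ≤ (2 * (r : ℝ)) ^ (2 * r) * (2 * cj * C * k ^ E * (U ^ (2 * τ)) ^ r) := by
    have h1 : n * ((𝒟.card : ℝ) / 4) ^ r ≤ (2 * (r : ℝ)) ^ (2 * r) * B := by
      refine le_of_mul_le_mul_right ?_ hn0
      calc n * ((𝒟.card : ℝ) / 4) ^ r * n = n ^ 2 * ((𝒟.card : ℝ) / 4) ^ r := by ring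
        _ ≤ _ := hmain
        _ = _ := by ring
    have h2 : n * ((𝒟.card : ℝ) / 4) ^ r ≤ n * ((2 * (r : ℝ)) ^ (2 * r) * (2 * cj * C * k ^ E * (U ^ (2 * τ)) ^ r)) := by
      calc n * ((𝒟.card : ℝ) / 4) ^ r ≤ (2 * (r : ℝ)) ^ (2 * r) * B := h1
        _ ≤ (2 * (r : ℝ)) ^ (2 * r) * (2 * C * k ^ E * (U ^ (2 * τ)) ^ r * k ^ j) :=
            mul_le_mul_of_nonneg_left hB2 (by positivity)
        _ ≤ (2 * (r : ℝ)) ^ (2 * r) * (2 * C * k ^ E * (U ^ (2 * τ)) ^ r * (cj * n)) := by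
            refine mul_le_mul_of_nonneg_left (mul_le_mul_of_nonneg_left hnk (by positivity)) (by positivity)
        _ = _ := by ring
    exact le_of_mul_le_mul_left h2 hn0
  -- r-th powers
  have hkEr : k ^ E ≤ ((N : ℝ) ^ (η / 4)) ^ r := by
    have h1 : k ^ E = Real.exp (E * Real.log k) := by
      rw [Real.rpow_def_of_pos hk0]; refine congrArg Real.exp ?_; ring
    have h2 : ((N : ℝ) ^ (η / 4)) ^ r = Real.exp (r * (η / 4) * Real.log N) := by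
      rw [← Real.rpow_natCast, ← Real.rpow_mul hN0.le, Real.rpow_def_of_pos hN0]
      refine congrArg Real.exp ?_; ring
    rw [h1, h2]
    refine Real.exp_le_exp.2 ?_
    -- E log k ≤ r (η/4) log N
    have h3 : j * (E * Real.log k) ≤ j * (r * (η / 4) * Real.log N) := by
      calc j * (E * Real.log k) = E * (j * Real.log k) := by ring
        _ ≤ E * (r * (4 * lam)) := mul_le_mul_of_nonneg_left hrlow hE
        _ ≤ E * (r * (4 * Real.log N)) := by gcongr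
        _ = (16 * E) * (r * Real.log N / 4) := by ring
        _ ≤ (j * η) * (r * Real.log N / 4) := by
            refine mul_le_mul_of_nonneg_right (by linarith) (by positivity)
        _ = _ := by ring
    exact le_of_mul_le_mul_left h3 hjpos
  have hcC : 2 * cj * C ≤ (2 * cj * C) ^ r := by
    refine le_self_pow₀ ?_ (by omega)
    nlinarith only [hcj1, hC1]
  have h2r : (2 * (r : ℝ)) ^ (2 * r) ≤ ((2 * j * Real.log k) ^ 2) ^ r := by
    rw [pow_mul]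
    refine pow_le_pow_left₀ (by positivity) (pow_le_pow_left₀ (by positivity) ?_ 2) r
    have h1 : 2 * (r : ℝ) * (1 / 2) ≤ 2 * r * lam := mul_le_mul_of_nonneg_left (by linarith) (by positivity)
    have h3 : 2 * (r : ℝ) ≤ 2 * (j * Real.log k) := by linarith
    linarith
  have hUτ : U ^ (2 * τ) ≤ (N : ℝ) ^ (η / 4) * U ^ (2 * (1 - x)) := by
    calc U ^ (2 * τ) ≤ U ^ (η / 4 + 2 * (1 - x)) :=
          Real.rpow_le_rpow_of_exponent_le hU1 (by linarith)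
      _ = U ^ (η / 4) * U ^ (2 * (1 - x)) := Real.rpow_add hU0 _ _
      _ ≤ (N : ℝ) ^ (η / 4) * U ^ (2 * (1 - x)) :=
          mul_le_mul_of_nonneg_right (Real.rpow_le_rpow hU0.le hUN (by positivity)) (by positivity)
  set G : ℝ := Real.log k ^ 2 * (N : ℝ) ^ η * U ^ (2 * (1 - x)) with hG
  have hfin : (𝒟.card : ℝ) ^ r ≤ G ^ r := by
    have h4 : (𝒟.card : ℝ) ^ r = 4 ^ r * ((𝒟.card : ℝ) / 4) ^ r := by
      rw [← mul_pow]; refine congrArg (fun t => t ^ r) ?_; ring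
    have hNη : (N : ℝ) ^ η = (N : ℝ) ^ (η / 4) * (N : ℝ) ^ (η / 4) * (N : ℝ) ^ (η / 2) := by
      rw [← Real.rpow_add hN0, ← Real.rpow_add hN0]; refine congrArg (fun t => (N : ℝ) ^ t) ?_; ring
    calc (𝒟.card : ℝ) ^ r = 4 ^ r * ((𝒟.card : ℝ) / 4) ^ r := h4
      _ ≤ 4 ^ r * ((2 * (r : ℝ)) ^ (2 * r) * (2 * cj * C * k ^ E * (U ^ (2 * τ)) ^ r)) :=
          mul_le_mul_of_nonneg_left hq (by positivity)
      _ ≤ 4 ^ r * (((2 * j * Real.log k) ^ 2) ^ r * ((2 * cj * C) ^ r * ((N : ℝ) ^ (η / 4)) ^ r *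
            ((N : ℝ) ^ (η / 4) * U ^ (2 * (1 - x))) ^ r)) := by
          have ha : (U ^ (2 * τ)) ^ r ≤ ((N : ℝ) ^ (η / 4) * U ^ (2 * (1 - x))) ^ r :=
            pow_le_pow_left₀ (by positivity) hUτ r
          gcongr
      _ = (4 * (2 * j * Real.log k) ^ 2 * (2 * cj * C) * (N : ℝ) ^ (η / 4) *
            ((N : ℝ) ^ (η / 4) * U ^ (2 * (1 - x)))) ^ r := by
          simp only [mul_pow]; ring
      _ ≤ G ^ r := by
          refine pow_le_pow_left₀ (by positivity) ?_ r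
          calc 4 * (2 * j * Real.log k) ^ 2 * (2 * cj * C) * (N : ℝ) ^ (η / 4) *
                ((N : ℝ) ^ (η / 4) * U ^ (2 * (1 - x)))
              = (8 * cj * C * (2 * j) ^ 2) * (Real.log k ^ 2 * ((N : ℝ) ^ (η / 4) * (N : ℝ) ^ (η / 4)) *
                U ^ (2 * (1 - x))) := by ring
            _ ≤ (N : ℝ) ^ (η / 2) * (Real.log k ^ 2 * ((N : ℝ) ^ (η / 4) * (N : ℝ) ^ (η / 4)) *
                U ^ (2 * (1 - x))) := mul_le_mul_of_nonneg_right (hN₂ N hNN2) (by positivity)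
            _ = G := by rw [hG, hNη]; ring
  exact le_of_pow_le_pow_left₀ (by omega) hRHS hfin

end Pool.Agent.Lib.MP_2c6f70_nt.RU
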