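import Pool.Agent.Lib.MP_2c6f70_nt.RU.X_FA
import Pool.Agent.Lib.MP_2c6f70_nt.RU.X_FE
import Pool.Agent.Lib.MP_2c6f70_nt.RU.X_FF
import Pool.Agent.Lib.MP_2c6f70_nt.RU.X_DE
import Pool.Agent.Lib.MP_2c6f70_nt.RU.X_Qp
import Pool.Agent.Lib.MP_2c6f70_nt.RU.FGA
import Pool.Agent.Lib.MP_2c6f70_nt.RU.FGB

/-!
# There is no extremal configuration, doubly exponential range (adapt `FG`)

`relation_bound2`: as `relation_bound` of `FG` with `many_pairs` instead of `many_edges` and `final_compare2` (by contradiction, `lk = N^(50 δ)`); `𝒰` from `star_family`.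
`no_extremal2`: `δ = e/100 ≤ 1/400`.  `prime_set2 e`: `c₁, κ₁`.  `quasi_pairs (x := 1/4 + e/8) (c := 1/5) (η := δ)`: `κT`.  `T = ⌈2/δ⌉₊`, `κ₀ = κT/(2 * 3^T)`, `κ = min κ₁ (κ₀ c₁)`.  `near_clique2 ε κ δ`: `C` (`N^(1/2+ε) ≤ N^(1/2+e) ≤ #S`), `#V ≥ N^(-δ) N^(1/2+100δ)`.
`log q ≥ N^(1/4)` (`many_primes ε`).  `P ⊆ G`, `Z` from `prime_set2` (size hypothesis with `e`).  `bad_pairs`, `relation_bound2`: `t < T`, `𝒰`.  `𝒟 = {(u,u') ∈ 𝒰² : Eqv P (2 * (3^t κ₀)) u u'}`, `#𝒟` = the sum.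
`Eqv P κ' u u'` gives `exc P (fun _ => 1) (u * u') ≤ κ' #P`: `(u u'|p) = (u|p)(u'|p) = 1` outside the exceptional set (`jacobiSym.mul_left`, values `± 1`), `κ' = 2 * 3^t κ₀ ≤ κT`.
`quasi_pairs` with `U = N^(1/2+98δ)`: `#𝒟 ≤ (log #P)² N^δ U^(2(1-x))`, `0 ≤ log #P ≤ log (log q) ≤ N^(e/2) = N^(50δ)`, `x = 1/4 + 25/2 δ`: contradiction with `relation_bound2`.
-/

set_option autoImplicit false

namespace Pool.Agent.Lib.MP_2c6f70_nt.RU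

open Pool.Agent.Lib.MP_2c6f70_nt Pool.Agent.Lib.MP_2c6f70_nt.KW

/-- Outside the exceptional set of `Eqv` the symbol of the product is `1`. -/
private theorem X_FG_exc {P : Finset ℕ} {κ : ℝ} {u u' : ℕ} (h : Eqv P κ u u') :
    (exc P (fun _ => 1) (u * u') : ℝ) ≤ κ * P.card := by
  classical
  unfold Eqv at h
  refine le_trans ?_ h
  unfold exc
  refine Nat.cast_le.mpr (Finset.card_le_card ?_)
  intro p hp
  rw [Finset.mem_filter] at hp ⊢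
  refine ⟨hp.1, ?_⟩
  by_contra hc
  push Not at hc
  apply hp.2
  rw [Nat.cast_mul, jacobiSym.mul_left, ← hc.1]
  rcases jacobiSym.trichotomy (u : ℤ) p with h1 | h1 | h1
  · exact absurd h1 hc.2
  · rw [h1]; norm_num
  · rw [h1]; norm_num

open Classical in
private theorem X_FG_pairs {P 𝒰 : Finset ℕ} {κ : ℝ} :
    (((𝒰 ×ˢ 𝒰).filter (fun t => Eqv P κ t.1 t.2)).card : ℝ) =
      ∑ u ∈ 𝒰, ((𝒰.filter (fun u' => Eqv P κ u u')).card : ℝ) := by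
  rw [← Nat.cast_sum, Nat.cast_inj, Finset.card_filter, Finset.sum_product]
  refine Finset.sum_congr rfl fun u _ => ?_
  rw [Finset.card_filter]

open Classical in
theorem relation_bound2 (δ C : ℝ) (hδ : 0 < δ) (hδ1 : δ ≤ 1 / 400) (T : ℕ) (hT : 2 / δ ≤ T) :
    ∃ N₀ : ℕ, ∀ N ≥ N₀, ∀ (q a : ℕ) (S V P : Finset ℕ) (ω : ℕ → ℤ) (κ₀ : ℝ),
    Ctx q a N S → (N : ℝ) ^ (1 / 4 : ℝ) ≤ Real.log q → V ⊆ S → (N : ℝ) ^ (1 / 2 + 99 * δ) ≤ (V.card : ℝ) →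
    0 < κ₀ → (∀ p ∈ P, ω p = 1 ∨ ω p = -1) →
    (((pairs (V.image (nn q a))).filter
      (fun t => ¬ ((exc P ω (Nat.dist t.1 t.2) : ℝ) ≤ κ₀ * P.card))).card : ℝ) ≤ C * N →
      ∃ t < T, ∃ 𝒰 : Finset ℕ, (∀ u ∈ 𝒰, u.Prime ∧ (u : ℝ) ≤ (N : ℝ) ^ (1 / 2 + 98 * δ)) ∧
        ((N : ℝ) ^ (50 * δ)) ^ 2 * (N : ℝ) ^ δ * ((N : ℝ) ^ (1 / 2 + 98 * δ)) ^ (2 * (1 - (1 / 4 + 25 / 2 * δ))) <
          ∑ u ∈ 𝒰, ((𝒰.filter (fun u' => Eqv P (2 * (3 ^ t * κ₀)) u u')).card : ℝ) := by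
  have hTR : (1 : ℝ) ≤ (T : ℝ) := by
    refine le_trans ?_ hT
    rw [le_div_iff₀ hδ]
    linarith
  have hT1 : 1 ≤ T := by exact_mod_cast hTR
  obtain ⟨N₁, hN₁⟩ := star_family δ C hδ hδ1
  obtain ⟨N₂, hN₂⟩ := shape_occ δ hδ
  obtain ⟨N₃, hN₃⟩ := final_compare2 δ hδ hδ1 T hT1
  refine ⟨N₁ + N₂ + N₃ + 4, fun N hN q a S V P ω κ₀ hC hlog hVS hVc hκ₀ hω hbad => ?_⟩
  have hNR4 : (4 : ℝ) ≤ (N : ℝ) := by
    have : 4 ≤ N := by omega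
    exact_mod_cast this
  have hn : (1 : ℝ) ≤ (N : ℝ) := by linarith
  have hn0 : (0 : ℝ) < (N : ℝ) := by linarith
  set W := V.image (nn q a) with hW
  have hWN : ∀ n ∈ W, n < N := by
    intro n hn'
    obtain ⟨x, hx, rfl⟩ := Finset.mem_image.mp hn'
    exact (nn_spec hC (hVS hx)).1
  have hWc : (W.card : ℝ) = (V.card : ℝ) := by
    have h1 : W.card = V.card := by
      rw [hW]
      refine Finset.card_image_of_injOn ?_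
      intro x hx y hy hxy
      exact nn_inj hC (Finset.mem_coe.mpr (hVS (Finset.mem_coe.mp hx)))
        (Finset.mem_coe.mpr (hVS (Finset.mem_coe.mp hy))) hxy
    rw [h1]
  obtain ⟨𝒰, h𝒰, h𝒰c, hst⟩ := hN₁ N (by omega) W (fun d => (exc P ω d : ℝ) ≤ κ₀ * P.card) hWN
    (by rw [hWc]; exact hVc) hbad
  have h𝒰1 : ∀ u ∈ 𝒰, 1 ≤ u ∧ u ≤ N := by
    intro u hu
    refine ⟨(h𝒰 u hu).1.one_le, ?_⟩
    have h1 := (h𝒰 u hu).2.2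
    have h2 : (N : ℝ) ^ (1 / 2 + 98 * δ) ≤ (N : ℝ) ^ (1 : ℝ) :=
      Real.rpow_le_rpow_of_exponent_le hn (by linarith)
    rw [Real.rpow_one] at h2
    exact_mod_cast h1.trans h2
  have hocc := hN₂ N (by omega) q a S V hC hlog hVS 𝒰 (fun d => (exc P ω d : ℝ) ≤ κ₀ * P.card) h𝒰1
  set Sh : ℕ → Finset (Fin 3 → ℤ) := fun u => shapes W u (fun d => (exc P ω d : ℝ) ≤ κ₀ * P.card) with hSh
  set H : ℕ := ⌈(N : ℝ) / (N : ℝ) ^ (1 / 2 + 97 * δ)⌉₊ with hH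
  have hδp : 0 < (N : ℝ) ^ δ := Real.rpow_pos_of_pos hn0 _
  have hdiv : (N : ℝ) / (N : ℝ) ^ (1 / 2 + 97 * δ) = (N : ℝ) ^ (1 / 2 - 97 * δ) := by
    have h1 : (N : ℝ) ^ (1 / 2 - 97 * δ) = (N : ℝ) ^ ((1 : ℝ) - (1 / 2 + 97 * δ)) := by
      have e : (1 / 2 - 97 * δ : ℝ) = 1 - (1 / 2 + 97 * δ) := by ring
      rw [e]
    rw [h1, Real.rpow_sub hn0, Real.rpow_one]
  have hHge : (N : ℝ) / (N : ℝ) ^ (1 / 2 + 97 * δ) ≤ (H : ℝ) := Nat.le_ceil _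
  have hHle : (H : ℝ) ≤ 2 * (N : ℝ) ^ (1 / 2 - 97 * δ) := by
    have h1 : (H : ℝ) < (N : ℝ) / (N : ℝ) ^ (1 / 2 + 97 * δ) + 1 := Nat.ceil_lt_add_one (by positivity)
    rw [hdiv] at h1
    have h2 : (1 : ℝ) ≤ (N : ℝ) ^ (1 / 2 - 97 * δ) := Real.one_le_rpow hn (by linarith)
    linarith
  have hσ : ∀ u ∈ 𝒰, (N : ℝ) ^ (1 / 2 + 101 * δ) / 512 ≤ ((Sh u).card : ℝ) := by
    intro u hu
    have h1 := shapes_ge (V := W) (u := u) (R := fun d => (exc P ω d : ℝ) ≤ κ₀ * P.card) (K₀ := (N : ℝ) ^ δ)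
      (h𝒰1 u hu).1 hδp.le (fun h hh => (hocc h ⟨u, hu, hh⟩).1 u hu)
    have h2 := (hst u hu).trans h1
    have h3 : (N : ℝ) ^ (1 / 2 + 102 * δ) = (N : ℝ) ^ δ * (N : ℝ) ^ (1 / 2 + 101 * δ) := by
      rw [← Real.rpow_add hn0]
      have e : (1 / 2 + 102 * δ : ℝ) = δ + (1 / 2 + 101 * δ) := by ring
      rw [e]
    rw [h3, mul_div_assoc] at h2
    exact le_of_mul_le_mul_left h2 hδp
  have hSh1 : ∀ u ∈ 𝒰, ∀ h ∈ Sh u, ∀ i, h i ∈ Hs P ω H κ₀ u := by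
    intro u hu h hh i
    obtain ⟨-, hne, hlt, hR, -⟩ := shapes_props (h𝒰1 u hu).1 hWN hh
    unfold Hs
    rw [Finset.mem_filter, Finset.mem_Icc]
    refine ⟨?_, hne i, hR i⟩
    rw [← abs_le]
    have h1 : (u : ℝ) * |((h i : ℤ) : ℝ)| < (N : ℝ) := by exact_mod_cast hlt i
    have h2 : (N : ℝ) ^ (1 / 2 + 97 * δ) < (u : ℝ) := (h𝒰 u hu).2.1
    have h3 : 0 < (N : ℝ) ^ (1 / 2 + 97 * δ) := Real.rpow_pos_of_pos hn0 _
    have h4 : |((h i : ℤ) : ℝ)| ≤ (N : ℝ) / (N : ℝ) ^ (1 / 2 + 97 * δ) := by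
      rw [le_div_iff₀ h3]
      have h5 := mul_le_mul_of_nonneg_left h2.le (abs_nonneg ((h i : ℤ) : ℝ))
      linarith
    exact_mod_cast h4.trans hHge
  have hSh2 : ∀ h : Fin 3 → ℤ, ((𝒰.filter (fun u => h ∈ Sh u)).card : ℝ) ≤ (N : ℝ) ^ δ := by
    intro h
    by_cases hex : ∃ u ∈ 𝒰, h ∈ Sh u
    · exact (hocc h hex).2
    · push Not at hex
      have h1 : 𝒰.filter (fun u => h ∈ Sh u) = ∅ := Finset.filter_eq_empty_iff.mpr (fun u hu => hex u hu)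
      rw [h1, Finset.card_empty, Nat.cast_zero]
      exact hδp.le
  have hlamT : 2 * (H : ℝ) ≤ ((N : ℝ) ^ δ) ^ T := by
    have h1 : ((N : ℝ) ^ δ) ^ T = (N : ℝ) ^ (δ * (T : ℝ)) := by
      rw [Real.rpow_mul hn0.le, Real.rpow_natCast]
    have h2 : (2 : ℝ) ≤ δ * T := by
      rw [div_le_iff₀ hδ] at hT
      linarith
    have h3 : (N : ℝ) ^ (2 : ℝ) ≤ (N : ℝ) ^ (δ * (T : ℝ)) := Real.rpow_le_rpow_of_exponent_le hn h2
    have h4 : (N : ℝ) ^ (1 / 2 - 97 * δ) ≤ (N : ℝ) ^ (1 : ℝ) := Real.rpow_le_rpow_of_exponent_le hn (by linarith)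
    rw [Real.rpow_one] at h4
    have h5 : (N : ℝ) ^ (2 : ℝ) = N * N := by
      rw [Real.rpow_two]
      ring
    have h6 : 4 * (N : ℝ) ≤ N * N := mul_le_mul_of_nonneg_right hNR4 hn0.le
    rw [h1]
    rw [h5] at h3
    exact le_trans (by linarith) h3
  obtain ⟨t, ht, hmp⟩ := many_pairs (P := P) (𝒰 := 𝒰) (ω := ω) (H := H) (T := T) (κ₀ := κ₀)
    (σ := (N : ℝ) ^ (1 / 2 + 101 * δ) / 512) (K₀ := (N : ℝ) ^ δ) (lam := (N : ℝ) ^ δ) hω hκ₀ (by positivity) hδp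
    (Real.one_le_rpow hn hδ.le) hT1 hlamT Sh hσ hSh1 hSh2
  refine ⟨t, ht, 𝒰, fun u hu => ⟨(h𝒰 u hu).1, (h𝒰 u hu).2.2⟩, ?_⟩
  by_contra hcon
  push Not at hcon
  exact hN₃ N (by omega) H _ _ _ ((N : ℝ) ^ (50 * δ)) h𝒰c le_rfl hHle (by positivity) le_rfl hmp hcon

theorem no_extremal2 (ε e : ℝ) (hε : 0 < ε) (hεe : ε ≤ e) (he1 : e ≤ 1 / 4) :
    ∃ N₀ : ℕ, ∀ N ≥ N₀, ∀ (q a : ℕ) (S : Finset ℕ),
    Ctx q a N S → Ext q a S (1 / 2 + ε) → (N : ℝ) ^ (1 / 2 + e) ≤ (S.card : ℝ) →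
    Real.log (Real.log q) ≤ (N : ℝ) ^ (e / 2) → False := by
  classical
  have he : 0 < e := lt_of_lt_of_le hε hεe
  set δ : ℝ := e / 100 with hδd
  have hδ : 0 < δ := by positivity
  have hδ1 : δ ≤ 1 / 400 := by rw [hδd]; linarith
  have heδ : e = 100 * δ := by rw [hδd]; ring
  obtain ⟨c₁, κ₁, hc₁, hκ₁, N₁, hN₁⟩ := prime_set2 e he he1
  obtain ⟨κT, hκT, N₂, hN₂⟩ := quasi_pairs (1 / 4 + e / 8) (1 / 5) δ (by positivity) (by linarith) (by norm_num) hδ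
  set T : ℕ := ⌈2 / δ⌉₊ with hTd
  have hT : 2 / δ ≤ (T : ℝ) := Nat.le_ceil _
  have h3T : (0 : ℝ) < 3 ^ T := by positivity
  set κ₀ : ℝ := κT / (2 * 3 ^ T) with hκ₀d
  have hκ₀ : 0 < κ₀ := by positivity
  set κ : ℝ := min κ₁ (κ₀ * c₁) with hκd
  have hκ : 0 < κ := lt_min hκ₁ (by positivity)
  obtain ⟨C, N₃, hN₃⟩ := near_clique2 ε κ δ hε (hεe.trans he1) hκ hδ
  obtain ⟨N₄, hN₄⟩ := many_primes ε hε
  obtain ⟨N₅, hN₅⟩ := relation_bound2 δ C hδ hδ1 T hT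
  refine ⟨N₁ + N₂ + N₃ + N₄ + N₅ + 1, fun N hN q a S hC hE hS hloglog => ?_⟩
  have hn : (1 : ℝ) ≤ (N : ℝ) := by
    have : 1 ≤ N := by omega
    exact_mod_cast this
  have hn0 : (0 : ℝ) < (N : ℝ) := by linarith
  have hSε : (N : ℝ) ^ (1 / 2 + ε) ≤ (S.card : ℝ) :=
    le_trans (Real.rpow_le_rpow_of_exponent_le hn (by linarith)) hS
  have hlogq : (N : ℝ) ^ (1 / 4 : ℝ) ≤ Real.log q := (hN₄ N (by omega) q a S hC hSε).2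
  have hlogq0 : 0 ≤ Real.log q := le_trans (Real.rpow_nonneg hn0.le _) hlogq
  have hS0 : 0 < S.card := by
    have h1 : (0 : ℝ) < (S.card : ℝ) := lt_of_lt_of_le (Real.rpow_pos_of_pos hn0 _) hSε
    exact_mod_cast h1
  obtain ⟨z, hz⟩ := Finset.card_pos.mp hS0
  obtain ⟨V, G, ω, hVS, hGq, hVc, hGω, hGw, hVbad⟩ := hN₃ N (by omega) q a S z hC hE hSε hz
  have hVc' : (N : ℝ) ^ (1 / 2 + 99 * δ) ≤ (V.card : ℝ) := by
    refine le_trans ?_ hVc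
    have h1 : (N : ℝ) ^ (1 / 2 + 99 * δ) = (N : ℝ) ^ (-δ) * (N : ℝ) ^ (1 / 2 + e) := by
      rw [← Real.rpow_add hn0]
      have e1 : (1 / 2 + 99 * δ : ℝ) = -δ + (1 / 2 + e) := by rw [heδ]; ring
      rw [e1]
    rw [h1]
    exact mul_le_mul_of_nonneg_left hS (Real.rpow_nonneg hn0.le _)
  have hGw' : (1 - κ₁) * Real.log q ≤ ∑ p ∈ G, wp q p := by
    refine le_trans (mul_le_mul_of_nonneg_right ?_ hlogq0) hGw
    have := min_le_left κ₁ (κ₀ * c₁)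
    linarith
  obtain ⟨P, hPG, ⟨Z, hZ1, hPZ, hZP⟩, hP5, hPW, hX⟩ :=
    hN₁ N (by omega) q a S G hC hlogq hloglog hS hGq (fun p hp => (hGω p hp).1) hGw'
  have hPc1 : (1 : ℝ) ≤ (P.card : ℝ) := le_trans (Real.one_le_rpow hn (by norm_num)) hP5
  have hX' : ∀ X ⊆ P, ∑ p ∈ X, wp q p ≤ κ * Real.log q → (X.card : ℝ) ≤ κ₀ * P.card := by
    intro X hXP hXs
    refine (hX X hXP κ hXs).trans (mul_le_mul_of_nonneg_right ?_ (by linarith))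
    rw [div_le_iff₀ hc₁]
    exact min_le_right _ _
  have hbad := bad_pairs (D := C * N) hC hVS hGq hPG hX' hVbad
  obtain ⟨t, ht, 𝒰, h𝒰, hbig⟩ := hN₅ N (by omega) q a S V P ω κ₀ hC hlogq hVS hVc' hκ₀
    (fun p hp => (hGω p (hPG hp)).2) (by
      refine le_trans (le_of_eq ?_) hbad
      rfl)
  rw [← X_FG_pairs] at hbig
  have hκt : 2 * (3 ^ t * κ₀) ≤ κT := by
    have h1 : (3 : ℝ) ^ t ≤ 3 ^ T := pow_le_pow_right₀ (by norm_num) ht.le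
    have h2 : (3 : ℝ) ^ t * κ₀ ≤ 3 ^ T * κ₀ := mul_le_mul_of_nonneg_right h1 hκ₀.le
    have h3 : 3 ^ T * κ₀ = κT / 2 := by
      rw [hκ₀d]
      field_simp
    linarith
  have hq := hN₂ N (by omega) P ((𝒰 ×ˢ 𝒰).filter (fun t' => Eqv P (2 * (3 ^ t * κ₀)) t'.1 t'.2)) Z
    ((N : ℝ) ^ (1 / 2 + 98 * δ))
    (fun p hp => ⟨Nat.prime_of_mem_primeFactors (hGq (hPG hp)), (hGω p (hPG hp)).1, hPZ p hp⟩)
    hZ1 hZP hP5 (Real.one_le_rpow hn (by positivity))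
    (by
      have h2 : (N : ℝ) ^ (1 / 2 + 98 * δ) ≤ (N : ℝ) ^ (1 : ℝ) :=
        Real.rpow_le_rpow_of_exponent_le hn (by linarith)
      rwa [Real.rpow_one] at h2)
    (by
      intro w hw
      rw [Finset.mem_filter, Finset.mem_product] at hw
      obtain ⟨⟨hw1, hw2⟩, hw3⟩ := hw
      refine ⟨(h𝒰 _ hw1).1, (h𝒰 _ hw2).1, (h𝒰 _ hw1).2, (h𝒰 _ hw2).2, ?_⟩
      exact (X_FG_exc hw3).trans (mul_le_mul_of_nonneg_right hκt (by linarith)))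
  have hexp : 2 * (1 - (1 / 4 + e / 8)) = 2 * (1 - (1 / 4 + 25 / 2 * δ)) := by rw [heδ]; ring
  rw [hexp] at hq
  have hlogP0 : 0 ≤ Real.log P.card := Real.log_nonneg hPc1
  have hlogP : Real.log P.card ≤ (N : ℝ) ^ (50 * δ) := by
    have h1 : Real.log P.card ≤ Real.log (Real.log q) := Real.log_le_log (by linarith) hPW
    have h2 : (N : ℝ) ^ (50 * δ) = (N : ℝ) ^ (e / 2) := by
      have e1 : 50 * δ = e / 2 := by rw [heδ]; ring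
      rw [e1]
    rw [h2]
    exact h1.trans hloglog
  have hfin : Real.log P.card ^ 2 * (N : ℝ) ^ δ * ((N : ℝ) ^ (1 / 2 + 98 * δ)) ^ (2 * (1 - (1 / 4 + 25 / 2 * δ))) ≤
      ((N : ℝ) ^ (50 * δ)) ^ 2 * (N : ℝ) ^ δ * ((N : ℝ) ^ (1 / 2 + 98 * δ)) ^ (2 * (1 - (1 / 4 + 25 / 2 * δ))) := by
    have h1 : Real.log P.card ^ 2 ≤ ((N : ℝ) ^ (50 * δ)) ^ 2 := pow_le_pow_left₀ hlogP0 hlogP 2
    have h2 : 0 ≤ (N : ℝ) ^ δ := Real.rpow_nonneg hn0.le _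
    have h3 : 0 ≤ ((N : ℝ) ^ (1 / 2 + 98 * δ)) ^ (2 * (1 - (1 / 4 + 25 / 2 * δ))) :=
      Real.rpow_nonneg (Real.rpow_nonneg hn0.le _) _
    exact mul_le_mul_of_nonneg_right (mul_le_mul_of_nonneg_right h1 h2) h3
  have := hq.trans hfin
  linarith

end Pool.Agent.Lib.MP_2c6f70_nt.RU
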