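import Pool.Agent.Lib.MP_2c6f70_nt.RU.IC
import Pool.Agent.Lib.MP_2c6f70_nt.RU.CCor
import Pool.Agent.Lib.MP_2c6f70_nt.RU.CRank

/-!
# Sharp second moment of the weights, doubly exponential range (adapt `CFin`)

PROOF.  `W = log q`, `L = log N`, `ℓ = log (8N)`, `T = #S`, `s' = 1/2 + ε - c`, `η' > 0` small (in terms of `η`).  `k = ⌈(1+η') log W/(s' L)⌉₊` (`≥ 1`), `(k - 1) ≤ (1+η') log W/(s' L)`, `k ≤ N^c` for large `N`,
so `choose T k ≥ (T/k)^k ≥ (N^s')^k ≥ W^(1+η')`.  `Λ = LL q a N k`, `K = max k ⌈sqrt ((k-1)(W+Λ)/(2ℓ))⌉₊`; `corr_sharp`: for `J ⊆ S`, `#J = 2 j`, `1 ≤ j ≤ k`: `|GG + Λ| ≤ E`,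
`E = sqrt (2 (k-1)(W+Λ) ℓ) + (41 k + 1) ℓ + 2 log (K)`.  `rank_gen`: `∑ wp² + Λ² ≤ (W+Λ)²/W^(1+η') + E²`.  Since `W ≥ N^(1/4)`, `ℓ` and `k` are `≤ W^(1/100)` for large `N`, so first `Λ ≤ W^(0.9)` and then
`∑ wp² ≤ (2+η)/s' W log W` (`ℓ/L → 1`).
-/

set_option autoImplicit false

namespace Pool.Agent.Lib.MP_2c6f70_nt.RU

open Pool.Agent.Lib.MP_2c6f70_nt Pool.Agent.Lib.MP_2c6f70_nt.KW

private theorem X_IC_core {q a N k : ℕ} {S : Finset ℕ} (hctx : Ctx q a N S) (hk : 1 ≤ k)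
    (hT : 2 * k ≤ S.card) {X l : ℝ} (hX : X = Real.log q + LL q a N k) (hl : l = Real.log (8 * N))
    (hX1 : 1 ≤ X) :
    ∑ p ∈ q.primeFactors, wp q p ^ 2 + LL q a N k ^ 2 ≤ X ^ 2 * ((2 * (k : ℝ)) ^ k / (S.card : ℝ) ^ k) +
      (2 * Real.sqrt (((k : ℝ) - 1) * X * l / 2) + (42 * k + 1) * l + 2 * Real.log (4 * k * X)) ^ 2 := by
  obtain ⟨hq, ha, hN, hc, hS⟩ := hctx
  have hkr : (1 : ℝ) ≤ k := by exact_mod_cast hk
  have hNr : (1 : ℝ) ≤ N := by exact_mod_cast hN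
  have hl1 : 1 ≤ l := by
    rw [hl]
    have h1 : Real.log 8 ≤ Real.log (8 * N) := Real.log_le_log (by norm_num) (by linarith)
    have h2 : Real.log 8 = 3 * Real.log 2 := by
      rw [show (8 : ℝ) = 2 ^ 3 by norm_num, Real.log_pow]
      push_cast
      ring
    linarith [Real.log_two_gt_d9]
  have hSne : S.Nonempty := by
    rw [← Finset.card_pos]
    omega
  obtain ⟨z, hz⟩ := hSne
  obtain ⟨r, hr⟩ : ∃ r : ℝ, r = Real.sqrt (((k : ℝ) - 1) * X / (2 * l)) := ⟨_, rfl⟩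
  have hr0 : 0 ≤ r := by rw [hr]; exact Real.sqrt_nonneg _
  have hr2 : r ^ 2 = ((k : ℝ) - 1) * X / (2 * l) := by
    rw [hr, Real.sq_sqrt]
    exact div_nonneg (mul_nonneg (by linarith) (by linarith)) (by linarith)
  have hr3 : r ^ 2 * l = ((k : ℝ) - 1) * X / 2 := by
    rw [hr2]
    field_simp
  have hrl : r * l = Real.sqrt (((k : ℝ) - 1) * X * l / 2) := by
    have h1 : ((k : ℝ) - 1) * X * l / 2 = (r * l) ^ 2 := by
      have h2 : (r * l) ^ 2 = (r ^ 2 * l) * l := by ring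
      rw [h2, hr3]
      ring
    rw [h1, Real.sqrt_sq (by positivity)]
  have hrk : r ≤ k * X := by
    refine le_of_sq_le_sq ?_ (by positivity)
    rw [hr2, div_le_iff₀ (by linarith)]
    have h1 : ((k : ℝ) - 1) * X ≤ k * X := by
      have : 0 ≤ X := by linarith
      linarith only [this]
    have h2 : (k : ℝ) * X ≤ (k * X) ^ 2 := by
      have h3 : 1 ≤ (k : ℝ) * X := by nlinarith only [hkr, hX1]
      nlinarith only [h3]
    have h4 : ((k : ℝ) * X) ^ 2 ≤ (k * X) ^ 2 * (2 * l) := by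
      have : 0 ≤ ((k : ℝ) * X) ^ 2 := by positivity
      nlinarith only [this, hl1]
    linarith
  obtain ⟨K, hK⟩ : ∃ K : ℕ, K = ⌈r⌉₊ + k := ⟨_, rfl⟩
  have hkK : k ≤ K := by omega
  have hK1 : (1 : ℝ) ≤ K := by
    have : 1 ≤ K := hk.trans hkK
    exact_mod_cast this
  have hKr : r ≤ K := by
    have h1 := Nat.le_ceil r
    rw [hK]
    push_cast
    linarith
  have hKu : (K : ℝ) ≤ r + 1 + k := by
    have h1 := Nat.ceil_lt_add_one hr0
    rw [hK]
    push_cast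
    linarith
  have hKX : (K : ℝ) ≤ 4 * k * X := by
    have h1 : (k : ℝ) ≤ k * X := le_mul_of_one_le_right (by linarith) hX1
    linarith
  obtain ⟨E, hE⟩ : ∃ E : ℝ, E = 2 * Real.sqrt (((k : ℝ) - 1) * X * l / 2) + (42 * k + 1) * l +
      2 * Real.log (4 * k * X) := ⟨_, rfl⟩
  have hlogK : Real.log K ≤ Real.log (4 * k * X) := Real.log_le_log (by linarith) hKX
  have hlogK0 : 0 ≤ Real.log K := Real.log_nonneg hK1
  have hE0 : 0 ≤ E := by
    rw [hE]
    have h1 := Real.sqrt_nonneg (((k : ℝ) - 1) * X * l / 2)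
    have h2 : 0 ≤ (42 * (k : ℝ) + 1) * l := mul_nonneg (by linarith) (by linarith)
    linarith
  have hcor : ∀ j, 1 ≤ j → j ≤ k → ∀ J ⊆ S, J.card = 2 * j → |GG q z J + LL q a N k| ≤ E := by
    intro j hj hjk J hJ hJc
    have h1 := corr_sharp hq ha hN hc hS hJ hJc hj hjk hkK hz
    rw [← hX, ← hl] at h1
    refine h1.trans ?_
    have h2 : ((k : ℝ) - 1) / (2 * K) * X ≤ r * l := by
      have h3 : ((k : ℝ) - 1) / (2 * K) * X = (r ^ 2 * l) / K := by
        rw [hr3]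
        field_simp
      rw [h3, div_le_iff₀ (by linarith)]
      have h4 : r * l * r ≤ r * l * K := mul_le_mul_of_nonneg_left hKr (by positivity)
      linarith only [h4]
    have h5 : (K : ℝ) * l ≤ (r + 1 + k) * l := mul_le_mul_of_nonneg_right hKu (by linarith)
    rw [hE, ← hrl]
    have h6 : (k : ℝ) * l ≥ 0 := by positivity
    have h7 : ((K : ℝ) + 40 * k) * l = K * l + 40 * (k * l) := by ring
    have h8 : (r + 1 + k) * l = r * l + l + k * l := by ring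
    have h9 : (42 * (k : ℝ) + 1) * l = 42 * (k * l) + l := by ring
    rw [h7, h9]
    linarith
  have hmain := rank_gen hq hN hk E hE0 hcor
  rw [← hX] at hmain
  rw [← hE]
  -- the binomial coefficient
  obtain ⟨n, hn⟩ : ∃ n : ℝ, n = ((S.card.choose k : ℕ) : ℝ) := ⟨_, rfl⟩
  rw [← hn] at hmain
  have hTr : (2 : ℝ) * k ≤ S.card := by exact_mod_cast hT
  have hT0 : (0 : ℝ) < S.card := by linarith
  have hnlow : (S.card : ℝ) ^ k / (2 * (k : ℝ)) ^ k ≤ n := by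
    have h2 : (((S.card + 1 - k : ℕ) : ℝ) ^ k) / (k.factorial : ℝ) ≤ (S.card.choose k : ℝ) :=
      Nat.pow_le_choose (α := ℝ) k S.card
    have hf0 : (0 : ℝ) < (k.factorial : ℝ) := by exact_mod_cast k.factorial_pos
    have hf1 : (k.factorial : ℝ) ≤ (k : ℝ) ^ k := by exact_mod_cast k.factorial_le_pow
    have h3 : (S.card : ℝ) / 2 ≤ ((S.card + 1 - k : ℕ) : ℝ) := by
      rw [Nat.cast_sub (by omega)]
      push_cast
      linarith
    rw [hn]
    refine le_trans ?_ h2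
    rw [div_le_div_iff₀ (by positivity) hf0]
    have h4 : ((S.card : ℝ) / 2) ^ k ≤ ((S.card + 1 - k : ℕ) : ℝ) ^ k :=
      pow_le_pow_left₀ (by positivity) h3 k
    have h5 : (S.card : ℝ) ^ k = 2 ^ k * ((S.card : ℝ) / 2) ^ k := by
      rw [← mul_pow]
      congr 1
      ring
    rw [h5, mul_pow]
    calc 2 ^ k * ((S.card : ℝ) / 2) ^ k * (k.factorial : ℝ) ≤
        2 ^ k * ((S.card + 1 - k : ℕ) : ℝ) ^ k * (k : ℝ) ^ k := by
          refine mul_le_mul ?_ hf1 hf0.le (by positivity)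
          exact mul_le_mul_of_nonneg_left h4 (by positivity)
      _ = ((S.card + 1 - k : ℕ) : ℝ) ^ k * (2 ^ k * (k : ℝ) ^ k) := by ring
  have hn0 : 0 < n := lt_of_lt_of_le (by positivity) hnlow
  have hsum : ∑ p ∈ q.primeFactors, wp q p ^ 2 + LL q a N k ^ 2 ≤
      ∑ p ∈ q.primeFactors, Real.log (mr q p) ^ 2 + LL q a N k ^ 2 := by
    have h1 : ∑ p ∈ q.primeFactors, wp q p ^ 2 = ∑ p ∈ q.primeFactors, Real.log (mr q p) ^ 2 := rfl
    rw [h1]
  refine hsum.trans ?_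
  obtain ⟨M, hM⟩ : ∃ M : ℝ, M = ∑ p ∈ q.primeFactors, Real.log (mr q p) ^ 2 + LL q a N k ^ 2 :=
    ⟨_, rfl⟩
  rw [← hM] at hmain ⊢
  have h1 : M ≤ X ^ 2 / n + E ^ 2 := by
    refine le_of_mul_le_mul_left ?_ hn0
    rw [mul_add, mul_div_cancel₀ _ hn0.ne']
    exact hmain
  refine h1.trans ?_
  have h2 : X ^ 2 / n ≤ X ^ 2 * ((2 * (k : ℝ)) ^ k / (S.card : ℝ) ^ k) := by
    rw [div_eq_mul_inv]
    refine mul_le_mul_of_nonneg_left ?_ (sq_nonneg _)
    rw [inv_eq_one_div, div_le_iff₀ hn0]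
    have h3 : (1 : ℝ) = (2 * (k : ℝ)) ^ k / (S.card : ℝ) ^ k *
        ((S.card : ℝ) ^ k / (2 * (k : ℝ)) ^ k) := by
      field_simp
    calc (1 : ℝ) = (2 * (k : ℝ)) ^ k / (S.card : ℝ) ^ k *
        ((S.card : ℝ) ^ k / (2 * (k : ℝ)) ^ k) := h3
      _ ≤ _ := mul_le_mul_of_nonneg_left hnlow (by positivity)
  linarith

/-- Elementary: `(x + y)^2 ≤ (1 + θ) x^2 + (1 + 1/θ) y^2`. -/
private theorem X_IC_sq {θ x y : ℝ} (hθ : 0 < θ) :
    (x + y) ^ 2 ≤ (1 + θ) * x ^ 2 + (1 + 1 / θ) * y ^ 2 := by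
  have h1 : (1 + θ) * x ^ 2 + (1 + 1 / θ) * y ^ 2 - (x + y) ^ 2 = (θ * x - y) ^ 2 / θ := by
    field_simp
    ring
  have h2 : 0 ≤ (θ * x - y) ^ 2 / θ := by positivity
  linarith

/-- The weight at infinity is small. -/
private theorem X_IC_lam {Λ W k l θ B R : ℝ} (hθ : 0 < θ) (hB : B = 1 + 1 / θ) (hk : 1 ≤ k)
    (hl : 1 ≤ l) (hΛ : 0 ≤ Λ) (hW : 4 * B ^ 2 ≤ W) (hR : R ≤ 1 / W)
    (hkl : 600 * (k * l * B) ≤ θ * W)
    (h : Λ ^ 2 ≤ (W + Λ) ^ 2 * R +
      (2 * Real.sqrt ((k - 1) * (W + Λ) * l / 2) + (42 * k + 1) * l +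
        2 * Real.log (4 * k * (W + Λ))) ^ 2) : Λ ≤ θ * W := by
  by_contra hcon
  have hcon' : θ * W < Λ := lt_of_not_ge hcon
  have hB1 : 1 ≤ B := by
    rw [hB]
    have : 0 < 1 / θ := by positivity
    linarith
  have hW4 : 4 ≤ W := by nlinarith only [hW, hB1]
  have hΛ0 : 0 < Λ := lt_of_le_of_lt (by positivity) hcon'
  have hkl1 : 1 ≤ k * l := by nlinarith only [hk, hl]
  have hklB : k * l ≤ k * l * B := le_mul_of_one_le_right (by linarith) hB1
  have hkB : k * B ≤ k * l * B := by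
    have h1 : k ≤ k * l := le_mul_of_one_le_right (by linarith) hl
    exact mul_le_mul_of_nonneg_right h1 (by linarith)
  obtain ⟨X, hX⟩ : ∃ X : ℝ, X = W + Λ := ⟨_, rfl⟩
  rw [← hX] at h
  have hX0 : 0 < X := by rw [hX]; linarith
  have hXB : X ≤ B * Λ := by
    have h1 : W ≤ Λ / θ := by
      rw [le_div_iff₀ hθ]
      linarith
    have h2 : B * Λ = Λ + Λ / θ := by
      rw [hB]
      ring
    rw [hX, h2]
    linarith
  -- first term
  have t1 : X ^ 2 * R ≤ Λ ^ 2 / 4 := by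
    have h1 : X ^ 2 * R ≤ X ^ 2 * (1 / W) := mul_le_mul_of_nonneg_left hR (sq_nonneg _)
    have h2 : X ^ 2 * (1 / W) ≤ Λ ^ 2 / 4 := by
      rw [mul_one_div, div_le_div_iff₀ (by linarith) (by norm_num)]
      have h3 : X ^ 2 ≤ (B * Λ) ^ 2 := pow_le_pow_left₀ hX0.le hXB 2
      have h4 : (4 * B ^ 2) * Λ ^ 2 ≤ W * Λ ^ 2 := mul_le_mul_of_nonneg_right hW (sq_nonneg _)
      linarith only [h3, h4]
    exact h1.trans h2
  -- the square root
  obtain ⟨u, hu⟩ : ∃ u : ℝ, u = 2 * Real.sqrt ((k - 1) * X * l / 2) := ⟨_, rfl⟩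
  have hu2 : u ^ 2 ≤ Λ ^ 2 / 100 := by
    have h0 : 0 ≤ (k - 1) * X * l / 2 := by
      have : 0 ≤ k - 1 := by linarith
      positivity
    have h1 : u ^ 2 = 2 * ((k - 1) * X * l) := by
      rw [hu, mul_pow, Real.sq_sqrt h0]
      ring
    have h2 : (k - 1) * X * l ≤ (k * l * B) * Λ := by
      have h3 : (k - 1) * X * l ≤ k * X * l := by
        have : 0 ≤ X * l := by positivity
        linarith only [this]
      have h4 : k * l * X ≤ k * l * (B * Λ) := mul_le_mul_of_nonneg_left hXB (by linarith)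
      linarith only [h3, h4]
    have h5 : 200 * ((k * l * B) * Λ) ≤ Λ ^ 2 := by
      have h6 : 200 * (k * l * B) ≤ Λ := by
        have : 0 ≤ k * l * B := by positivity
        linarith
      nlinarith only [h6, hΛ0]
    rw [h1]
    linarith
  -- the rest
  obtain ⟨v, hv⟩ : ∃ v : ℝ, v = (42 * k + 1) * l + 2 * Real.log (4 * k * X) := ⟨_, rfl⟩
  have hv1 : v ≤ Λ / 2 := by
    have h1 : (42 * k + 1) * l ≤ 43 * (k * l * B) := by nlinarith only [hkl1, hklB, hk, hl, hB1]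
    have h2 : Real.log (4 * k * X) ≤ 96 * (k * l * B) + Λ / 24 := by
      have h3 : 4 * k * X ≤ (96 * (k * B)) * (Λ / 24) := by
        have h4 : 4 * k * X ≤ 4 * k * (B * Λ) := mul_le_mul_of_nonneg_left hXB (by linarith)
        have h5 : (96 * (k * B)) * (Λ / 24) = 4 * k * (B * Λ) := by ring
        linarith
      have h6 : Real.log (4 * k * X) ≤ Real.log ((96 * (k * B)) * (Λ / 24)) :=
        Real.log_le_log (by positivity) h3
      have hkB0 : 0 < 96 * (k * B) := by positivity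
      have hL0 : 0 < Λ / 24 := by positivity
      rw [Real.log_mul hkB0.ne' hL0.ne'] at h6
      have h7 := Real.log_le_sub_one_of_pos hkB0
      have h8 := Real.log_le_sub_one_of_pos hL0
      linarith
    rw [hv]
    have h9 : 0 ≤ k * l * B := by positivity
    linarith
  have hv0 : 0 ≤ v := by
    have h1 : 0 ≤ Real.log (4 * k * X) := by
      refine Real.log_nonneg ?_
      have h2 : 4 ≤ X := by rw [hX]; linarith
      nlinarith only [h2, hk]
    have h2 : 0 ≤ (42 * k + 1) * l := mul_nonneg (by linarith) (by linarith)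
    rw [hv]
    linarith
  have hv2 : v ^ 2 ≤ Λ ^ 2 / 4 := by
    have h1 : v ^ 2 ≤ (Λ / 2) ^ 2 := pow_le_pow_left₀ hv0 hv1 2
    have h2 : (Λ / 2) ^ 2 = Λ ^ 2 / 4 := by ring
    linarith
  have huv : 2 * Real.sqrt ((k - 1) * X * l / 2) + (42 * k + 1) * l +
      2 * Real.log (4 * k * X) = u + v := by
    rw [hu, hv]
    ring
  rw [huv] at h
  have h10 : (u + v) ^ 2 ≤ 2 * u ^ 2 + 2 * v ^ 2 := by nlinarith only [sq_nonneg (u - v)]
  have h11 : 0 < Λ ^ 2 := by positivity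
  linarith

/-- The inequality for fixed `N`, with all the conditions of largeness. -/
private theorem X_IC_det {q a N k : ℕ} {S : Finset ℕ} {s θ B D : ℝ} (hctx : Ctx q a N S) (hk : 1 ≤ k)
    (hT : 2 * k ≤ S.card) (hθ : 0 < θ) (hθ1 : θ ≤ 1) (hs : 0 < s) (hB : B = 1 + 1 / θ)
    (hD : D = 2 / s + 8)
    (hL1 : 1 ≤ Real.log N) (hL8 : Real.log 8 ≤ θ * Real.log N)
    (hWB : 4 * B ^ 2 ≤ Real.log q) (hwL : Real.log N ≤ 4 * Real.log (Real.log q))
    (hwW : 600 * (D * Real.log (Real.log q) * B) ≤ θ * Real.log q)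
    (hTk : Real.log q * (2 * (k : ℝ)) ^ k ≤ (S.card : ℝ) ^ k)
    (hk1 : ((k : ℝ) - 1) * (s * Real.log N) ≤ Real.log (Real.log q)) :
    ∑ p ∈ q.primeFactors, wp q p ^ 2 ≤ 4 * Real.log q +
      (2 * (1 + θ) ^ 3 / s * (Real.log q * Real.log (Real.log q)) +
      (1 + 1 / θ) * ((59 * D + 2) * Real.log (Real.log q)) ^ 2) := by
  obtain ⟨X, hX⟩ : ∃ X : ℝ, X = Real.log q + LL q a N k := ⟨_, rfl⟩
  obtain ⟨l, hl⟩ : ∃ l : ℝ, l = Real.log (8 * N) := ⟨_, rfl⟩
  obtain ⟨W, hW⟩ : ∃ W : ℝ, W = Real.log q := ⟨_, rfl⟩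
  obtain ⟨L, hL⟩ : ∃ L : ℝ, L = Real.log N := ⟨_, rfl⟩
  obtain ⟨w, hw⟩ : ∃ w : ℝ, w = Real.log W := ⟨_, rfl⟩
  have hN := hctx.hN
  have hNr : (1 : ℝ) ≤ N := by exact_mod_cast hN
  have hkr : (1 : ℝ) ≤ k := by exact_mod_cast hk
  have hLL0 : 0 ≤ LL q a N k := LL_nonneg (by have := hctx.hq; omega) hN
  have hB1 : 1 ≤ B := by
    rw [hB]
    have : 0 < 1 / θ := by positivity
    linarith
  have hWge : 4 ≤ Real.log q := by nlinarith only [hWB, hB1]
  have h0 := X_IC_core hctx hk hT hX hl (by rw [hX]; linarith)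
  rw [← hW] at hX hwL hTk hk1 hWB hwW hWge ⊢
  rw [← hw] at hwL hk1 hwW ⊢
  rw [← hL] at hL1 hL8 hwL hk1
  have hw0 : 0 ≤ w := by linarith
  have hlL : l = Real.log 8 + L := by
    rw [hl, hL, Real.log_mul (by norm_num) (by linarith)]
  have hl1 : l ≤ (1 + θ) * L := by rw [hlL]; linarith
  have hl2 : l ≤ 2 * L := by
    have : θ * L ≤ 1 * L := mul_le_mul_of_nonneg_right hθ1 (by linarith)
    linarith
  have hlge : 1 ≤ l := by
    rw [hlL]
    have : 0 ≤ Real.log 8 := Real.log_nonneg (by norm_num)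
    linarith
  -- `k l` is small
  have hkL : ((k : ℝ) - 1) * L ≤ w / s := by
    rw [le_div_iff₀ hs]
    linarith
  have hkl : (k : ℝ) * l ≤ D * w := by
    have h1 : (k : ℝ) * l ≤ k * (2 * L) := mul_le_mul_of_nonneg_left hl2 (by linarith)
    have h2 : (k : ℝ) * (2 * L) = 2 * (((k : ℝ) - 1) * L) + 2 * L := by ring
    have h3 : D * w = 2 * (w / s) + 8 * w := by
      rw [hD]
      ring
    rw [h3]
    linarith
  -- the quotient
  obtain ⟨R, hR⟩ : ∃ R : ℝ, R = (2 * (k : ℝ)) ^ k / (S.card : ℝ) ^ k := ⟨_, rfl⟩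
  have hTpos : (0 : ℝ) < (S.card : ℝ) := by
    have h1 : (2 : ℝ) * k ≤ S.card := by exact_mod_cast hT
    linarith
  have hRW : R ≤ 1 / W := by
    rw [hR, div_le_div_iff₀ (by positivity) (by linarith)]
    linarith
  rw [← hR] at h0
  -- the weight at infinity
  have hlam : LL q a N k ≤ θ * W := by
    refine X_IC_lam (k := (k : ℝ)) (l := l) (B := B) (R := R) hθ hB hkr hlge hLL0 hWB hRW ?_ ?_
    · have h1 : (k : ℝ) * l * B ≤ D * w * B := mul_le_mul_of_nonneg_right hkl (by linarith)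
      linarith
    · rw [← hX]
      have h1 : 0 ≤ ∑ p ∈ q.primeFactors, wp q p ^ 2 := Finset.sum_nonneg fun p _ => sq_nonneg _
      linarith
  have hXW : X ≤ (1 + θ) * W := by rw [hX]; linarith
  have hX2 : X ≤ 2 * W := by
    have : θ * W ≤ 1 * W := mul_le_mul_of_nonneg_right hθ1 (by linarith)
    linarith
  have hX1 : 1 ≤ X := by rw [hX]; linarith
  have h00 : ∑ p ∈ q.primeFactors, wp q p ^ 2 ≤ X ^ 2 * R +
      (2 * Real.sqrt (((k : ℝ) - 1) * X * l / 2) + (42 * k + 1) * l + 2 * Real.log (4 * k * X)) ^ 2 := by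
    have h1 := sq_nonneg (LL q a N k)
    linarith
  refine h00.trans (add_le_add ?_ ?_)
  · -- first term
    have h1 : X ^ 2 * R ≤ X ^ 2 * (1 / W) := mul_le_mul_of_nonneg_left hRW (sq_nonneg _)
    refine h1.trans ?_
    rw [mul_one_div, div_le_iff₀ (by linarith)]
    nlinarith only [hX2, hX1, hWge]
  · -- second term
    have h1 : (2 * Real.sqrt (((k : ℝ) - 1) * X * l / 2) + (42 * k + 1) * l + 2 * Real.log (4 * k * X)) ^ 2 ≤
        (1 + θ) * (2 * Real.sqrt (((k : ℝ) - 1) * X * l / 2)) ^ 2 +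
          (1 + 1 / θ) * ((42 * k + 1) * l + 2 * Real.log (4 * k * X)) ^ 2 := by
      rw [add_assoc]
      exact X_IC_sq hθ
    refine h1.trans (add_le_add ?_ ?_)
    · have hnn : 0 ≤ ((k : ℝ) - 1) * X * l / 2 := by
        have : 0 ≤ (k : ℝ) - 1 := by linarith
        positivity
      rw [mul_pow, Real.sq_sqrt hnn]
      have h2 : ((k : ℝ) - 1) * l ≤ (1 + θ) * (w / s) := by
        have h3 : ((k : ℝ) - 1) * l ≤ ((k : ℝ) - 1) * ((1 + θ) * L) :=
          mul_le_mul_of_nonneg_left hl1 (by linarith)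
        have h5 : ((k : ℝ) - 1) * ((1 + θ) * L) = (1 + θ) * (((k : ℝ) - 1) * L) := by ring
        rw [h5] at h3
        exact h3.trans (mul_le_mul_of_nonneg_left hkL (by linarith))
      have h6 : X * (((k : ℝ) - 1) * l) ≤ ((1 + θ) * W) * ((1 + θ) * (w / s)) :=
        mul_le_mul hXW h2 (mul_nonneg (by linarith) (by linarith)) (mul_nonneg (by linarith) (by linarith))
      have h7 : (1 + θ) * (2 ^ 2 * (((k : ℝ) - 1) * X * l / 2)) = 2 * (1 + θ) * (X * (((k : ℝ) - 1) * l)) := by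
        ring
      rw [h7]
      calc 2 * (1 + θ) * (X * (((k : ℝ) - 1) * l)) ≤ 2 * (1 + θ) * (((1 + θ) * W) * ((1 + θ) * (w / s))) :=
            mul_le_mul_of_nonneg_left h6 (by linarith)
        _ = 2 * (1 + θ) ^ 3 / s * (W * w) := by ring
    · have h2 : Real.log (4 * k * X) ≤ 8 * (k * l) + w := by
        have h3 : (4 : ℝ) * k * X ≤ (8 * k) * W := by
          have h4 : (4 : ℝ) * k * X ≤ 4 * k * (2 * W) := mul_le_mul_of_nonneg_left hX2 (by linarith)
          linarith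
        have h4 : Real.log (4 * k * X) ≤ Real.log ((8 * k) * W) :=
          Real.log_le_log (by positivity) h3
        have h5 : Real.log ((8 * k) * W) = Real.log (8 * k) + w := by
          have h7 : (8 * (k : ℝ)) ≠ 0 := by
            have : (0 : ℝ) < 8 * k := by linarith
            exact this.ne'
          have h9 : W ≠ 0 := by
            have : (0 : ℝ) < W := by linarith
            exact this.ne'
          rw [Real.log_mul h7 h9, hw]
        have h6 : Real.log (8 * (k : ℝ)) ≤ 8 * k - 1 := Real.log_le_sub_one_of_pos (by linarith)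
        have h8 : (k : ℝ) ≤ k * l := le_mul_of_one_le_right (by linarith) hlge
        linarith
      have h2' : 0 ≤ Real.log (4 * k * X) := by
        refine Real.log_nonneg ?_
        have : (1 : ℝ) ≤ 4 * k := by linarith
        nlinarith only [this, hX1]
      have h3 : (42 * (k : ℝ) + 1) * l + 2 * Real.log (4 * k * X) ≤ (59 * D + 2) * w := by
        have h4 : (42 * (k : ℝ) + 1) * l ≤ 43 * (k * l) := by nlinarith only [hkr, hlge]
        have h5 : (59 * D + 2) * w = 59 * (D * w) + 2 * w := by ring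
        rw [h5]
        linarith
      have h4 : 0 ≤ (42 * (k : ℝ) + 1) * l + 2 * Real.log (4 * k * X) := by
        have : 0 ≤ (42 * (k : ℝ) + 1) * l := mul_nonneg (by linarith) (by linarith)
        linarith
      refine mul_le_mul_of_nonneg_left ?_ (by positivity)
      exact pow_le_pow_left₀ h4 h3 2

theorem sharp_moment2 (ε c η : ℝ) (hε : 0 < ε) (hc : 0 < c) (hcε : c < 1 / 2 + ε) (hη : 0 < η) :
    ∃ N₀ : ℕ, ∀ N ≥ N₀, ∀ (q a : ℕ) (S : Finset ℕ),
    Ctx q a N S → (N : ℝ) ^ (1 / 4 : ℝ) ≤ Real.log q → Real.log (Real.log q) ≤ (N : ℝ) ^ c →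
    (N : ℝ) ^ (1 / 2 + ε) ≤ (S.card : ℝ) →
      ∑ p ∈ q.primeFactors, wp q p ^ 2 ≤
        (2 + η) / (1 / 2 + ε - c) * Real.log q * Real.log (Real.log q) := by
  obtain ⟨s, hs⟩ : ∃ s : ℝ, s = 1 / 2 + ε - c := ⟨_, rfl⟩
  have hs0 : 0 < s := by rw [hs]; linarith
  obtain ⟨θ, hθd⟩ : ∃ θ : ℝ, θ = min 1 (η / 28) := ⟨_, rfl⟩
  have hθ0 : 0 < θ := by rw [hθd]; exact lt_min one_pos (by positivity)
  have hθ1 : θ ≤ 1 := by rw [hθd]; exact min_le_left _ _
  have hθ2 : θ ≤ η / 28 := by rw [hθd]; exact min_le_right _ _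
  obtain ⟨B, hB⟩ : ∃ B : ℝ, B = 1 + 1 / θ := ⟨_, rfl⟩
  have hB1 : 1 ≤ B := by
    rw [hB]
    have : 0 < 1 / θ := by positivity
    linarith
  obtain ⟨D, hD⟩ : ∃ D : ℝ, D = 2 / s + 8 := ⟨_, rfl⟩
  have hD0 : 0 < D := by rw [hD]; positivity
  obtain ⟨C₂, hC₂⟩ : ∃ C : ℝ, C = (1 + 1 / θ) * (59 * D + 2) ^ 2 := ⟨_, rfl⟩
  have hC₂0 : 0 ≤ C₂ := by rw [hC₂]; positivity
  -- the conditions of largeness
  have t1 : Filter.Tendsto (fun N : ℕ => Real.log (N : ℝ)) Filter.atTop Filter.atTop :=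
    Real.tendsto_log_atTop.comp tendsto_natCast_atTop_atTop
  have t2 : Filter.Tendsto (fun N : ℕ => (N : ℝ) ^ c) Filter.atTop Filter.atTop :=
    (tendsto_rpow_atTop hc).comp tendsto_natCast_atTop_atTop
  have t3 : Filter.Tendsto (fun N : ℕ => (N : ℝ) ^ (1 / 4 : ℝ)) Filter.atTop Filter.atTop :=
    (tendsto_rpow_atTop (by norm_num)).comp tendsto_natCast_atTop_atTop
  obtain ⟨δ, hδ⟩ : ∃ δ : ℝ, δ = min (θ / (600 * (D * B))) (η / (4 * s * C₂ + 1)) := ⟨_, rfl⟩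
  have hδ0 : 0 < δ := by
    rw [hδ]
    exact lt_min (by positivity) (by positivity)
  obtain ⟨W₀, hW₀⟩ : ∃ W₀ : ℝ, ∀ W ≥ W₀, Real.log W ≤ δ * W := by
    have h1 := Real.isLittleO_log_id_atTop.def hδ0
    obtain ⟨W₀, h2⟩ := Filter.eventually_atTop.1 h1
    refine ⟨max W₀ 1, fun W hW => ?_⟩
    have h3 := h2 W (le_trans (le_max_left _ _) hW)
    have h4 : 1 ≤ W := le_trans (le_max_right _ _) hW
    rw [Real.norm_of_nonneg (Real.log_nonneg h4), id, Real.norm_of_nonneg (by linarith)] at h3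
    exact h3
  obtain ⟨N₂, hN₂⟩ := Filter.eventually_atTop.1
    (((t1.eventually_ge_atTop (max 1 (max (Real.log 8 / θ) (max (4 / s) (64 * s / η))))).and
      (t2.eventually_ge_atTop 4)).and (t3.eventually_ge_atTop (max W₀ (4 * B ^ 2))))
  refine ⟨max N₂ 1, ?_⟩
  intro N hN q a S hctx hW1 hWA hT
  have hNN2 : N₂ ≤ N := le_trans (le_max_left _ _) hN
  have hN1 : 1 ≤ N := le_trans (le_max_right _ _) hN
  have hNr : (1 : ℝ) ≤ N := by exact_mod_cast hN1
  have hN0 : (0 : ℝ) < N := by linarith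
  obtain ⟨⟨hlog, hNc⟩, hquart⟩ := hN₂ N hNN2
  have hL1 : 1 ≤ Real.log (N : ℝ) := le_trans (le_max_left _ _) hlog
  have hLθ : Real.log 8 / θ ≤ Real.log (N : ℝ) :=
    le_trans (le_trans (le_max_left _ _) (le_max_right _ _)) hlog
  have hLs : 4 / s ≤ Real.log (N : ℝ) :=
    le_trans (le_trans (le_trans (le_max_left _ _) (le_max_right _ _)) (le_max_right _ _)) hlog
  have hLη : 64 * s / η ≤ Real.log (N : ℝ) :=
    le_trans (le_trans (le_trans (le_max_right _ _) (le_max_right _ _)) (le_max_right _ _)) hlog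
  rw [← hs]
  have hWB : 4 * B ^ 2 ≤ Real.log (q : ℝ) := le_trans (le_trans (le_max_right _ _) hquart) hW1
  have hWW0 : W₀ ≤ Real.log (q : ℝ) := le_trans (le_trans (le_max_left _ _) hquart) hW1
  have hlogW := hW₀ _ hWW0
  obtain ⟨L, hL⟩ : ∃ L : ℝ, L = Real.log (N : ℝ) := ⟨_, rfl⟩
  obtain ⟨W, hW⟩ : ∃ W : ℝ, W = Real.log (q : ℝ) := ⟨_, rfl⟩
  obtain ⟨w, hw⟩ : ∃ w : ℝ, w = Real.log W := ⟨_, rfl⟩
  have hW4 : 4 ≤ Real.log (q : ℝ) := by nlinarith only [hWB, hB1]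
  have hwL : L ≤ 4 * w := by
    rw [hw, hL, hW]
    have h1 := Real.log_le_log (by positivity) hW1
    rw [Real.log_rpow hN0] at h1
    linarith
  rw [← hL] at hL1 hLθ hLs hLη
  rw [← hW] at hWA hlogW hW4 hWB
  rw [← hw] at hWA hlogW
  have hw0 : 0 < w := by linarith
  have hsL : 0 < s * L := mul_pos hs0 (by linarith)
  -- the choice of k
  obtain ⟨k, hk⟩ : ∃ k : ℕ, k = ⌈w / (s * L)⌉₊ := ⟨_, rfl⟩
  have hk1 : 1 ≤ k := by
    rw [hk]
    exact Nat.one_le_ceil_iff.2 (by positivity)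
  have hkr : (1 : ℝ) ≤ k := by exact_mod_cast hk1
  have hkup : (k : ℝ) - 1 < w / (s * L) := by
    have h1 := Nat.ceil_lt_add_one (show 0 ≤ w / (s * L) by positivity)
    rw [← hk] at h1
    linarith
  have hklow : w / (s * L) ≤ k := by rw [hk]; exact Nat.le_ceil _
  have hk2 : 2 * (k : ℝ) ≤ (N : ℝ) ^ c := by
    have h1 : w / (s * L) ≤ (N : ℝ) ^ c / 4 := by
      have h2 : 4 ≤ s * L := by
        rw [div_le_iff₀ hs0] at hLs
        linarith
      have h3 : w / (s * L) ≤ w / 4 := div_le_div_of_nonneg_left hw0.le (by norm_num) h2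
      linarith
    linarith
  have hkm : ((k : ℝ) - 1) * (s * L) ≤ w := by
    rw [lt_div_iff₀ hsL] at hkup
    linarith
  -- the size of S
  have hNs : (N : ℝ) ^ s * (2 * (k : ℝ)) ≤ (S.card : ℝ) := by
    refine le_trans ?_ hT
    have h1 : (N : ℝ) ^ (1 / 2 + ε) = (N : ℝ) ^ s * (N : ℝ) ^ c := by
      rw [← Real.rpow_add hN0, hs]
      congr 1
      ring
    rw [h1]
    exact mul_le_mul_of_nonneg_left hk2 (by positivity)
  have hNs1 : (1 : ℝ) ≤ (N : ℝ) ^ s := Real.one_le_rpow hNr hs0.le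
  have hTT : (2 * (k : ℝ)) ≤ S.card := by
    refine le_trans ?_ hNs
    exact le_mul_of_one_le_left (by linarith) hNs1
  have hTnat : 2 * k ≤ S.card := by exact_mod_cast hTT
  have hTk : W * (2 * (k : ℝ)) ^ k ≤ (S.card : ℝ) ^ k := by
    have h1 : ((N : ℝ) ^ s * (2 * (k : ℝ))) ^ k ≤ (S.card : ℝ) ^ k :=
      pow_le_pow_left₀ (by positivity) hNs k
    refine le_trans ?_ h1
    rw [mul_pow ((N : ℝ) ^ s) (2 * (k : ℝ)) k]
    have h2 : W ≤ ((N : ℝ) ^ s) ^ k := by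
      rw [← Real.log_le_log_iff (by linarith) (by positivity), Real.log_pow, Real.log_rpow hN0,
        ← hw, ← hL]
      rw [div_le_iff₀ hsL] at hklow
      exact hklow
    have h3 : (0 : ℝ) ≤ (2 * (k : ℝ)) ^ k := by positivity
    exact mul_le_mul_of_nonneg_right h2 h3
  have hδ1 : δ ≤ θ / (600 * (D * B)) := by rw [hδ]; exact min_le_left _ _
  have hδ2 : δ ≤ η / (4 * s * C₂ + 1) := by rw [hδ]; exact min_le_right _ _
  have hWpos : 0 < W := by linarith
  have hmain := X_IC_det (s := s) (θ := θ) (B := B) (D := D) hctx hk1 hTnat hθ0 hθ1 hs0 hB hD (by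
    rw [← hL]
    exact hL1) (by
    rw [← hL]
    rw [div_le_iff₀ hθ0] at hLθ
    linarith) (by
    rw [← hW]
    exact hWB) (by
    rw [← hL, ← hW, ← hw]
    exact hwL) (by
    rw [← hW, ← hw]
    have h1 : w ≤ θ / (600 * (D * B)) * W :=
      hlogW.trans (mul_le_mul_of_nonneg_right hδ1 hWpos.le)
    have h2 : 600 * (D * w * B) = (600 * (D * B)) * w := by ring
    have h3 : (600 * (D * B)) * (θ / (600 * (D * B)) * W) = θ * W := by
      have h4 : 600 * (D * B) ≠ 0 := by positivity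
      rw [← mul_assoc, mul_div_cancel₀ _ h4]
    rw [h2, ← h3]
    exact mul_le_mul_of_nonneg_left h1 (by positivity)) (by
    rw [← hW]
    exact hTk) (by
    rw [← hW, ← hw, ← hL]
    exact hkm)
  rw [← hW, ← hw] at hmain ⊢
  refine hmain.trans ?_
  have e1 : (1 + 1 / θ) * ((59 * D + 2) * w) ^ 2 = C₂ * w ^ 2 := by
    rw [hC₂]
    ring
  rw [e1]
  have hθ3 : 2 * (1 + θ) ^ 3 ≤ 2 + η / 2 := by
    have h1 : θ ^ 2 ≤ θ := by nlinarith only [hθ0, hθ1]
    have h2 : θ ^ 3 ≤ θ := by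
      have : θ ^ 3 = θ * θ ^ 2 := by ring
      nlinarith only [this, h1, hθ0, hθ1]
    nlinarith only [h1, h2, hθ2]
  have hWw : 0 ≤ W * w := by positivity
  have e2 : 2 * (1 + θ) ^ 3 / s * (W * w) ≤ (2 + η / 2) / s * (W * w) :=
    mul_le_mul_of_nonneg_right (div_le_div_of_nonneg_right hθ3 hs0.le) hWw
  have e3 : 4 * W ≤ η / 4 / s * (W * w) := by
    have h1 : 64 * s ≤ L * η := by
      rw [div_le_iff₀ hη] at hLη
      exact hLη
    have h2 : 16 * s ≤ η * w := by nlinarith only [h1, hwL, hη]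
    have h3 : 4 ≤ η / 4 / s * w := by
      rw [div_div, div_mul_eq_mul_div, le_div_iff₀ (by positivity)]
      linarith
    calc 4 * W ≤ (η / 4 / s * w) * W := mul_le_mul_of_nonneg_right h3 hWpos.le
      _ = η / 4 / s * (W * w) := by ring
  have e4 : C₂ * w ^ 2 ≤ η / 4 / s * (W * w) := by
    have h1 : (4 * s * C₂ + 1) * w ≤ η * W := by
      have h2 : w ≤ η / (4 * s * C₂ + 1) * W :=
        hlogW.trans (mul_le_mul_of_nonneg_right hδ2 hWpos.le)
      have h3 : (4 * s * C₂ + 1) * (η / (4 * s * C₂ + 1) * W) = η * W := by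
        have h4 : 4 * s * C₂ + 1 ≠ 0 := by positivity
        rw [← mul_assoc, mul_div_cancel₀ _ h4]
      rw [← h3]
      exact mul_le_mul_of_nonneg_left h2 (by positivity)
    have h2 : 4 * s * (C₂ * w ^ 2) ≤ η * (W * w) := by
      have h3 : ((4 * s * C₂ + 1) * w) * w ≤ (η * W) * w :=
        mul_le_mul_of_nonneg_right h1 hw0.le
      nlinarith only [h3, sq_nonneg w]
    rw [div_div, div_mul_eq_mul_div, le_div_iff₀ (by positivity)]
    linarith
  have e5 : (2 + η) / s * W * w = (2 + η / 2) / s * (W * w) + η / 4 / s * (W * w) +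
      η / 4 / s * (W * w) := by
    field_simp
    ring
  rw [e5]
  linarith

end Pool.Agent.Lib.MP_2c6f70_nt.RU
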