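import Pool.Agent.Lib.MP_2c6f70_nt.RU.X_FG
import Pool.Agent.Lib.MP_2c6f70_nt.RU.X_E
import Pool.Prelude.Def_F_e853f830

/-!
# The theorem, doubly exponential range

`ε ≤ 1/2`: `ε' = ε/2 ≤ 1/4`.  If `Q N q a > N^(1/2+ε) = N^(1/2+2ε')`: `T = (Finset.range N).filter (fun n => IsSquare (q * n + a))`, `#T = Q N q a` (see `FH.lean`).  `N₁` = the maximum over `i ≤ ⌈1/ε'⌉₊` of the `N₀` of `no_extremal2 ε' (gr ε' i)`
(`ε' ≤ gr ε' i ≤ 1/4`), `reduction2 ε' N₁` (`log log q ≤ N^(ε/8) = N^(ε'/4)`): contradiction.  `ε > 1/2`: `Q N q a ≤ N ≤ N^(1/2+ε)`.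
-/

set_option autoImplicit false

namespace Pool.Agent.Lib.MP_2c6f70_nt.RU

open Necdea073

theorem XM_card (N q a : ℕ) :
    ∃ T : Finset ℕ, (∀ n ∈ T, n < N ∧ IsSquare (q * n + a)) ∧ T.card = Q N q a ∧ T.card ≤ N := by
  classical
  refine ⟨(Finset.range N).filter fun n => IsSquare (q * n + a), ?_, ?_, ?_⟩
  · intro n hn
    rw [Finset.mem_filter, Finset.mem_range] at hn
    exact hn
  · unfold Q
    rw [← Set.ncard_coe_finset]
    congr 1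
    ext n
    simp
  · have h := Finset.card_filter_le (Finset.range N) fun n => IsSquare (q * n + a)
    rwa [Finset.card_range] at h

private theorem XM_gr {ε : ℝ} (hε : 0 < ε) (hε1 : ε ≤ 1 / 4) (i : ℕ) :
    ε ≤ gr ε i ∧ gr ε i ≤ 1 / 4 := by
  refine ⟨le_min hε1 ?_, min_le_left _ _⟩
  have h : (0 : ℝ) ≤ (i : ℝ) := Nat.cast_nonneg i
  nlinarith

theorem rudin_de (ε : ℝ) (hε : 0 < ε) : ∃ N₀ : ℕ, ∀ N ≥ N₀, ∀ q a : ℕ, 1 ≤ q → 1 ≤ a →
    Real.log (Real.log q) ≤ (N : ℝ) ^ (ε / 8) → (Q N q a : ℝ) ≤ (N : ℝ) ^ (1 / 2 + ε) := by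
  rcases le_or_gt ε (1 / 2) with hε1 | hε1
  · obtain ⟨e, he⟩ : ∃ e : ℝ, e = ε / 2 := ⟨_, rfl⟩
    have he0 : 0 < e := by rw [he]; linarith
    have he1 : e ≤ 1 / 4 := by rw [he]; linarith
    choose f hf using fun i : ℕ => no_extremal2 e (gr e i) he0 (XM_gr he0 he1 i).1 (XM_gr he0 he1 i).2
    obtain ⟨N₀, h₀⟩ := reduction2 e he0 he1 ((Finset.range (⌈1 / e⌉₊ + 1)).sup f)
    refine ⟨N₀, ?_⟩
    intro N hN q a hq1 ha1 hll
    by_contra hcon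
    push Not at hcon
    obtain ⟨T, hT, hTc, -⟩ := XM_card N q a
    have h1 : Real.log (Real.log q) ≤ (N : ℝ) ^ (e / 4) := by
      have h2 : e / 4 = ε / 8 := by rw [he]; ring
      rw [h2]
      exact hll
    have h2 : (N : ℝ) ^ (1 / 2 + 2 * e) ≤ (T.card : ℝ) := by
      have h3 : 1 / 2 + 2 * e = 1 / 2 + ε := by rw [he]; ring
      rw [h3, hTc]
      exact hcon.le
    obtain ⟨N', hN', q', a', S', i, hi, hC, hE, hs, hl⟩ := h₀ N hN q a hq1 ha1 h1 T hT h2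
    have h3 : f i ≤ N' := by
      refine le_trans ?_ hN'
      apply Finset.le_sup
      rw [Finset.mem_range]
      omega
    exact hf i N' h3 q' a' S' hC hE hs hl
  · refine ⟨1, ?_⟩
    intro N hN q a _ _ _
    obtain ⟨T, -, hTc, hTN⟩ := XM_card N q a
    have hN1 : (1 : ℝ) ≤ (N : ℝ) := by exact_mod_cast hN
    have h1 : (Q N q a : ℝ) ≤ (N : ℝ) := by
      rw [← hTc]
      exact_mod_cast hTN
    refine le_trans h1 ?_
    have h2 : (N : ℝ) ^ (1 : ℝ) ≤ (N : ℝ) ^ (1 / 2 + ε) :=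
      Real.rpow_le_rpow_of_exponent_le hN1 (by linarith)
    rwa [Real.rpow_one] at h2

end Pool.Agent.Lib.MP_2c6f70_nt.RU
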