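import Mathlib

/-!
# Block BZ: the curve

`ZW A B C` is the curve `y ^ 2 = x ^ 3 + A x ^ 2 + B x + C` over the rational numbers.  For the star with
differences `h 0, h 1, h 2` we use `A = zA h`, `B = zB h`, `C = zC h`, for which
`x ^ 3 + A x ^ 2 + B x + C = (x + h 1 h 2) (x + h 0 h 2) (x + h 0 h 1)`.
-/

set_option autoImplicit false

namespace Pool.Agent.Lib.MP_2c6f70_nt.RU

/-- The curve `y ^ 2 = x ^ 3 + A x ^ 2 + B x + C`. -/
def ZW (A B C : ℤ) : WeierstrassCurve ℚ := ⟨0, A, 0, B, C⟩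

/-- The product of the three differences. -/
def zd (h : Fin 3 → ℤ) : ℤ := h 0 * h 1 * h 2

def zA (h : Fin 3 → ℤ) : ℤ := h 0 * h 1 + h 0 * h 2 + h 1 * h 2

def zB (h : Fin 3 → ℤ) : ℤ := zd h * (h 0 + h 1 + h 2)

def zC (h : Fin 3 → ℤ) : ℤ := zd h ^ 2

/-- The roots. -/
def ze (h : Fin 3 → ℤ) : Fin 3 → ℤ := ![-(h 1 * h 2), -(h 0 * h 2), -(h 0 * h 1)]

/-- The curve of the star. -/
def ZE (h : Fin 3 → ℤ) : WeierstrassCurve ℚ := ZW (zA h) (zB h) (zC h)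

/-- The relation between `X = x (P + Q)` or `X = x (P - Q)` and `x = x (P)`, `y = x (Q)` on the curve
`ZW A B C`. -/
def ZG (A B C X x y : ℚ) : ℚ :=
  (x - y) ^ 2 * X ^ 2 - 2 * ((x + y) * (x * y + B) + 2 * A * x * y + 2 * C) * X + (x * y - B) ^ 2 -
    4 * C * (x + y + A)

theorem ZW_b2 (A B C : ℤ) : (ZW A B C).b₂ = 4 * A := by
  simp [ZW, WeierstrassCurve.b₂]

theorem ZW_b4 (A B C : ℤ) : (ZW A B C).b₄ = 2 * B := by
  simp [ZW, WeierstrassCurve.b₄]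

theorem ZW_b6 (A B C : ℤ) : (ZW A B C).b₆ = 4 * C := by
  simp [ZW, WeierstrassCurve.b₆]

theorem ZW_b8 (A B C : ℤ) : (ZW A B C).b₈ = 4 * A * C - B ^ 2 := by
  simp [ZW, WeierstrassCurve.b₈]

theorem ZW_disc (A B C : ℤ) : (ZW A B C).Δ =
    16 * (A ^ 2 * B ^ 2 - 4 * A ^ 3 * C - 4 * B ^ 3 - 27 * C ^ 2 + 18 * A * B * C) := by
  rw [WeierstrassCurve.Δ, ZW_b2, ZW_b4, ZW_b6, ZW_b8]
  ring

theorem ZE_disc (h : Fin 3 → ℤ) : (ZE h).Δ =
    16 * (((ze h 0 - ze h 1) * (ze h 0 - ze h 2) * (ze h 1 - ze h 2) : ℤ) : ℚ) ^ 2 := by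
  rw [ZE, ZW_disc]
  simp only [zA, zB, zC, zd, ze, Matrix.cons_val_zero, Matrix.cons_val_one, Matrix.cons_val]
  push_cast
  ring

theorem ze_injective (h : Fin 3 → ℤ) (hinj : Function.Injective h) (h0 : ∀ i, h i ≠ 0) :
    Function.Injective (ze h) := by
  have h01 : h 0 ≠ h 1 := hinj.ne (by decide)
  have h02 : h 0 ≠ h 2 := hinj.ne (by decide)
  have h12 : h 1 ≠ h 2 := hinj.ne (by decide)
  have e01 : ze h 0 ≠ ze h 1 := by
    intro e
    simp only [ze, Matrix.cons_val_zero, Matrix.cons_val_one] at e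
    exact h01 (mul_right_cancel₀ (h0 2) (neg_injective e).symm)
  have e02 : ze h 0 ≠ ze h 2 := by
    intro e
    simp only [ze, Matrix.cons_val_zero, Matrix.cons_val] at e
    have e2 : h 2 * h 1 = h 0 * h 1 := by linarith
    exact h02 (mul_right_cancel₀ (h0 1) e2).symm
  have e12 : ze h 1 ≠ ze h 2 := by
    intro e
    simp only [ze, Matrix.cons_val_one, Matrix.cons_val] at e
    exact h12 (mul_left_cancel₀ (h0 0) (neg_injective e)).symm
  intro i j hij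
  fin_cases i <;> fin_cases j
  · rfl
  · exact absurd hij e01
  · exact absurd hij e02
  · exact absurd hij e01.symm
  · rfl
  · exact absurd hij e12
  · exact absurd hij e02.symm
  · exact absurd hij e12.symm
  · rfl

theorem ZE_disc_ne_zero (h : Fin 3 → ℤ) (hinj : Function.Injective h) (h0 : ∀ i, h i ≠ 0) :
    (ZE h).Δ ≠ 0 := by
  have hi := ze_injective h hinj h0
  rw [ZE_disc]
  refine mul_ne_zero (by norm_num) (pow_ne_zero 2 ?_)
  rw [Int.cast_ne_zero]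
  refine mul_ne_zero (mul_ne_zero (sub_ne_zero.2 (hi.ne (by decide))) (sub_ne_zero.2 (hi.ne (by decide))))
    (sub_ne_zero.2 (hi.ne (by decide)))

theorem ZE_isElliptic (h : Fin 3 → ℤ) (hinj : Function.Injective h) (h0 : ∀ i, h i ≠ 0) :
    (ZE h).IsElliptic :=
  ⟨isUnit_iff_ne_zero.2 (ZE_disc_ne_zero h hinj h0)⟩

end Pool.Agent.Lib.MP_2c6f70_nt.RU
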