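import Mathlib

/-!
# Block BZ: a constant to the number of prime factors
-/

set_option autoImplicit false

namespace Pool.Agent.Lib.MP_2c6f70_nt.RU

/-- `K ^ ω (n) ≤ C n ^ η`.
Proof. Let `Y` be a natural number with `K ≤ Y ^ η`, `C = (max K 1) ^ Y`. The prime factors `p ≥ Y` contribute
`K ≤ p ^ η` each, the product of the prime factors is at most `n` (`Nat.prod_primeFactors_dvd`), and there
are at most `Y` prime factors `< Y`. -/
theorem Z_omega (K : ℕ) (η : ℝ) (hη : 0 < η) :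
    ∃ C : ℝ, 0 < C ∧ ∀ n : ℕ, n ≠ 0 → (K : ℝ) ^ n.primeFactors.card ≤ C * (n : ℝ) ^ η := by
  classical
  set M : ℝ := max (K : ℝ) 1 with hM
  have hM1 : 1 ≤ M := le_max_right _ _
  have hKM : (K : ℝ) ≤ M := le_max_left _ _
  have hM0 : 0 < M := lt_of_lt_of_le one_pos hM1
  obtain ⟨Y, hY⟩ := exists_nat_ge (M ^ (1 / η))
  have hMY : M ≤ (Y : ℝ) ^ η := by
    have h1 : (M ^ (1 / η)) ^ η ≤ (Y : ℝ) ^ η :=
      Real.rpow_le_rpow (Real.rpow_nonneg hM0.le _) hY hη.le
    rwa [← Real.rpow_mul hM0.le, one_div, inv_mul_cancel₀ hη.ne', Real.rpow_one] at h1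
  refine ⟨M ^ Y, pow_pos hM0 Y, ?_⟩
  intro n hn
  have hp1 : ∀ p ∈ n.primeFactors, (1 : ℝ) ≤ (p : ℝ) ^ η := by
    intro p hp
    have h1 : 1 ≤ p := (Nat.prime_of_mem_primeFactors hp).one_le
    exact Real.one_le_rpow (by exact_mod_cast h1) hη.le
  have h1 : (K : ℝ) ^ n.primeFactors.card ≤ ∏ p ∈ n.primeFactors, M := by
    rw [Finset.prod_const]
    exact pow_le_pow_left₀ (Nat.cast_nonneg K) hKM _
  have h2 : ∏ _p ∈ n.primeFactors, M ≤
      ∏ p ∈ n.primeFactors, ((if p < Y then M else 1) * (p : ℝ) ^ η) := by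
    refine Finset.prod_le_prod (fun p _ => hM0.le) ?_
    intro p hp
    split_ifs with h
    · exact le_mul_of_one_le_right hM0.le (hp1 p hp)
    · rw [one_mul]
      have h3 : (Y : ℝ) ≤ p := by exact_mod_cast not_lt.1 h
      exact hMY.trans (Real.rpow_le_rpow (Nat.cast_nonneg Y) h3 hη.le)
  have h3 : ∏ p ∈ n.primeFactors, (if p < Y then M else 1) ≤ M ^ Y := by
    rw [← Finset.prod_filter, Finset.prod_const]
    refine pow_le_pow_right₀ hM1 ?_
    have h4 : n.primeFactors.filter (fun p => p < Y) ⊆ Finset.range Y := by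
      intro p hp
      exact Finset.mem_range.2 (Finset.mem_filter.1 hp).2
    have h5 := Finset.card_le_card h4
    rwa [Finset.card_range] at h5
  have h4 : ∏ p ∈ n.primeFactors, (p : ℝ) ^ η ≤ (n : ℝ) ^ η := by
    rw [Real.finsetProd_rpow _ _ (fun p _ => Nat.cast_nonneg p)]
    refine Real.rpow_le_rpow (Finset.prod_nonneg fun p _ => Nat.cast_nonneg p) ?_ hη.le
    have h5 := Nat.le_of_dvd (Nat.pos_of_ne_zero hn) (Nat.prod_primeFactors_dvd n)
    calc ∏ p ∈ n.primeFactors, (p : ℝ) = ((∏ p ∈ n.primeFactors, p : ℕ) : ℝ) := by rw [Nat.cast_prod]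
      _ ≤ n := Nat.cast_le.2 h5
  rw [Finset.prod_mul_distrib] at h2
  refine (h1.trans h2).trans ?_
  exact mul_le_mul h3 h4 (Finset.prod_nonneg fun p _ => Real.rpow_nonneg (Nat.cast_nonneg p) _)
    (pow_nonneg hM0.le _)

end Pool.Agent.Lib.MP_2c6f70_nt.RU
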