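import Pool.Agent.Lib.MP_2c6f70_nt.RU.Z_Defs
import Pool.Agent.Lib.MP_2c6f70_nt.RU.Z_Ht
import Pool.Agent.Lib.MP_17a322_nt.RO.A1

/-!
# Block BZ: the approximate parallelogram law with an explicit constant
-/

set_option autoImplicit false

namespace Pool.Agent.Lib.MP_2c6f70_nt.RU

open Height MvPolynomial WeierstrassCurve

/-- The three forms. -/
private def Z_Par_F {R : Type*} [CommRing R] (A B C s t u : R) : Fin 3 → R :=
  ![s ^ 2 - 2 * B * s * u - 4 * C * t * u - (4 * A * C - B ^ 2) * u ^ 2,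
    2 * t * s + 4 * A * s * u + 2 * B * t * u + 4 * C * u ^ 2,
    t ^ 2 - 4 * s * u]

/-- A quadratic form with given coefficients. -/
private def Z_Par_Q {R : Type*} [CommRing R] (c1 c2 c3 c4 c5 c6 s t u : R) : R :=
  c1 * s ^ 2 + c2 * (s * t) + c3 * (s * u) + c4 * t ^ 2 + c5 * (t * u) + c6 * u ^ 2

/-- The coefficients of the combinations. -/
private def Z_Par_q {R : Type*} [CommRing R] (b2 b4 b6 b8 s t u : R) : Fin 3 → Fin 3 → R :=
  ![![Z_Par_Q (-(b2 ^ 2 * b8) + 9 * b2 * b4 * b6 - 8 * b4 ^ 3 - 27 * b6 ^ 2)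
          (2 * b2 * b4 * b8 - 2 * b4 ^ 2 * b6 - 10 * b6 * b8) (-(b2 * b6 * b8) + b4 * b6 ^ 2)
          (3 * b4 ^ 2 * b8 - 3 * b4 * b6 ^ 2) (3 * b4 * b6 * b8 - 3 * b6 ^ 3) 0 s t u,
      Z_Par_Q (-(b2 * b4 * b8) + b4 ^ 2 * b6 + 5 * b6 * b8)
          (2 * b2 * b6 * b8 - 2 * b4 * b6 ^ 2 - 10 * b8 ^ 2) (-(b2 * b8 ^ 2) + b4 * b6 * b8)
          (3 * b4 * b6 * b8 - 3 * b6 ^ 3) (3 * b4 * b8 ^ 2 - 3 * b6 ^ 2 * b8) 0 s t u,
      Z_Par_Q (b2 * b6 * b8 - 8 * b4 ^ 2 * b8 + 7 * b4 * b6 ^ 2)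
          (-(6 * b4 * b6 * b8) + 6 * b6 ^ 3) (-(8 * b4 * b8 ^ 2) + 8 * b6 ^ 2 * b8) 0 0 0 s t u],
    ![Z_Par_Q 0 (96 * b6) 0 (12 * b2 * b6 - 64 * b8) (16 * b4 * b6) 0 s t u,
      Z_Par_Q (-(48 * b6)) (32 * b8) 0 (-(4 * b2 * b8) + 16 * b4 * b6) (16 * b4 * b8) 0 s t u,
      Z_Par_Q (-(12 * b2 * b6)) (8 * b2 * b8 - 32 * b4 * b6) (-(12 * b6 ^ 2))
          (-(b2 ^ 2 * b8) + 9 * b2 * b4 * b6 - 8 * b4 ^ 3 - 27 * b6 ^ 2)
          (4 * b2 * b4 * b8 - 4 * b2 * b6 ^ 2) 0 s t u],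
    ![Z_Par_Q 0 0 0 (-12) (-(4 * b2)) (b2 ^ 2 - 32 * b4) s t u,
      Z_Par_Q 0 6 (-b2) 0 (-(5 * b4)) (b2 * b4 - 27 * b6) s t u,
      Z_Par_Q 0 0 (-(8 * b4)) 0 (-(12 * b6)) (b4 ^ 2 - 28 * b8) s t u]]

private theorem Z_Par_cast_F (A B C s t u : ℤ) (i : Fin 3) :
    ((Z_Par_F A B C s t u i : ℤ) : ℝ) = Z_Par_F (A : ℝ) B C s t u i := by
  fin_cases i <;> simp [Z_Par_F]

private theorem Z_Par_cast_FQ (A B C s t u : ℤ) (i : Fin 3) :
    ((Z_Par_F A B C s t u i : ℤ) : ℚ) = Z_Par_F (A : ℚ) B C s t u i := by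
  fin_cases i <;> simp [Z_Par_F]

private theorem Z_Par_cast_q (b2 b4 b6 b8 s t u : ℤ) (k j : Fin 3) :
    ((Z_Par_q b2 b4 b6 b8 s t u k j : ℤ) : ℝ) = Z_Par_q (b2 : ℝ) b4 b6 b8 s t u k j := by
  fin_cases k <;> fin_cases j <;> simp [Z_Par_q, Z_Par_Q]

private theorem Z_Par_id (A B C : ℤ) (v : Fin 3 → ℤ) (k : Fin 3) :
    ∑ j, Z_Par_q (4 * A) (2 * B) (4 * C) (4 * A * C - B ^ 2) (v 0) (v 1) (v 2) k j *
        Z_Par_F A B C (v 0) (v 1) (v 2) j =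
      16 * (A ^ 2 * B ^ 2 - 4 * A ^ 3 * C - 4 * B ^ 3 - 27 * C ^ 2 + 18 * A * B * C) * v k ^ 4 := by
  rw [Fin.sum_univ_three]
  fin_cases k
  · simp [Z_Par_q, Z_Par_Q, Z_Par_F]
    ring
  · simp [Z_Par_q, Z_Par_Q, Z_Par_F]
    ring
  · simp [Z_Par_q, Z_Par_Q, Z_Par_F]
    ring

private theorem Z_Par_bAdd {x y X Y : ℝ} (hx : |x| ≤ X) (hy : |y| ≤ Y) : |x + y| ≤ X + Y :=
  (abs_add_le x y).trans (add_le_add hx hy)

private theorem Z_Par_bSub {x y X Y : ℝ} (hx : |x| ≤ X) (hy : |y| ≤ Y) : |x - y| ≤ X + Y :=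
  (abs_sub x y).trans (add_le_add hx hy)

private theorem Z_Par_bNeg {x X : ℝ} (hx : |x| ≤ X) : |-x| ≤ X := by
  rw [abs_neg]
  exact hx

private theorem Z_Par_bMul {x y X Y : ℝ} (hx : |x| ≤ X) (hy : |y| ≤ Y) : |x * y| ≤ X * Y := by
  rw [abs_mul]
  exact mul_le_mul hx hy (abs_nonneg y) ((abs_nonneg x).trans hx)

private theorem Z_Par_bPow {x X : ℝ} (n : ℕ) (hx : |x| ≤ X) : |x ^ n| ≤ X ^ n := by
  rw [abs_pow]
  exact pow_le_pow_left₀ (abs_nonneg x) hx n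

private theorem Z_Par_bNum (n : ℕ) [n.AtLeastTwo] : |(OfNat.ofNat n : ℝ)| ≤ OfNat.ofNat n := by
  rw [abs_of_nonneg]
  exact Nat.ofNat_nonneg n

private theorem Z_Par_bZero : |(0 : ℝ)| ≤ 0 := by simp

private theorem Z_Par_bFin {x X Y : ℝ} (h : |x| ≤ X) (h2 : X ≤ Y) : |x| ≤ Y := h.trans h2

private theorem Z_Par_bQ {c1 c2 c3 c4 c5 c6 s t u K V : ℝ} (hs : |s| ≤ V) (ht : |t| ≤ V)
    (hu : |u| ≤ V) (h1 : |c1| ≤ K) (h2 : |c2| ≤ K) (h3 : |c3| ≤ K) (h4 : |c4| ≤ K) (h5 : |c5| ≤ K)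
    (h6 : |c6| ≤ K) : |Z_Par_Q c1 c2 c3 c4 c5 c6 s t u| ≤ 6 * K * V ^ 2 := by
  unfold Z_Par_Q
  refine (Z_Par_bAdd (Z_Par_bAdd (Z_Par_bAdd (Z_Par_bAdd (Z_Par_bAdd
    (Z_Par_bMul h1 (Z_Par_bPow 2 hs)) (Z_Par_bMul h2 (Z_Par_bMul hs ht)))
    (Z_Par_bMul h3 (Z_Par_bMul hs hu))) (Z_Par_bMul h4 (Z_Par_bPow 2 ht)))
    (Z_Par_bMul h5 (Z_Par_bMul ht hu))) (Z_Par_bMul h6 (Z_Par_bPow 2 hu))).trans (le_of_eq ?_)
  ring

private theorem Z_Par_bound {b2 b4 b6 b8 s t u M V : ℝ} (hM : 2 ≤ M) (h2 : |b2| ≤ 4 * M)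
    (h4 : |b4| ≤ 2 * M) (h6 : |b6| ≤ 4 * M) (h8 : |b8| ≤ 5 * M ^ 2)
    (hs : |s| ≤ V) (ht : |t| ≤ V) (hu : |u| ≤ V) (k j : Fin 3) :
    |Z_Par_q b2 b4 b6 b8 s t u k j| ≤ 6 * (800 * M ^ 5) * V ^ 2 := by
  have m0 : 0 ≤ M := by linarith
  have m1 : 2 * M ≤ M ^ 2 := by nlinarith
  have m2 : 2 * M ^ 2 ≤ M ^ 3 := by nlinarith [sq_nonneg M]
  have m3 : 2 * M ^ 3 ≤ M ^ 4 := by nlinarith [pow_nonneg m0 3]
  have m4 : 2 * M ^ 4 ≤ M ^ 5 := by nlinarith [pow_nonneg m0 4]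
  have z : (0 : ℝ) ≤ 800 * M ^ 5 := by positivity
  have z0 : |(0 : ℝ)| ≤ 800 * M ^ 5 := by simpa using z
  fin_cases k <;> fin_cases j <;>
    (simp only [Z_Par_q, Matrix.cons_val_zero, Matrix.cons_val_one, Matrix.cons_val, Fin.zero_eta,
      Fin.mk_one, Fin.reduceFinMk]
     refine Z_Par_bQ hs ht hu ?_ ?_ ?_ ?_ ?_ ?_ <;>
      first
      | exact z0
      | (apply Z_Par_bFin
         · repeat' (first
            | exact h2 | exact h4 | exact h6 | exact h8 | exact Z_Par_bNum _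
            | apply Z_Par_bAdd | apply Z_Par_bSub | apply Z_Par_bNeg | apply Z_Par_bMul
            | apply Z_Par_bPow)
         · nlinarith))

private theorem Z_Par_cop {n : ℕ} (v : Fin n → ℤ) (hv : Finset.univ.gcd v = 1) (D d : ℤ) (e : ℕ)
    (h : ∀ k, d ∣ D * v k ^ e) : d ∣ D := by
  have h1 : Ideal.span (Set.range v) = ⊤ := by
    obtain ⟨g, hg⟩ := (IsPrincipalIdealRing.principal (Ideal.span (Set.range v))).principal
    have h0 : g ∣ 1 := by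
      rw [← hv]
      refine Finset.dvd_gcd fun k _ => ?_
      have hk : v k ∈ Ideal.span (Set.range v) := Ideal.subset_span ⟨k, rfl⟩
      rw [hg] at hk
      exact Ideal.mem_span_singleton.1 hk
    rw [Ideal.eq_top_iff_one, hg]
    exact Ideal.mem_span_singleton.2 h0
  have h2 := Ideal.span_pow_eq_top _ h1 e
  have h3 : ∀ x ∈ Ideal.span ((fun x : ℤ => x ^ e) '' Set.range v), d ∣ D * x := by
    intro x hx
    induction hx using Submodule.span_induction with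
    | mem x hx =>
      obtain ⟨y, ⟨k, rfl⟩, rfl⟩ := hx
      exact h k
    | zero => simp
    | add x y _ _ hx hy =>
      rw [mul_add]
      exact dvd_add hx hy
    | smul a x _ hx =>
      rw [smul_eq_mul, mul_left_comm]
      exact Dvd.dvd.mul_left hx a
  have h4 := h3 1 (by rw [h2]; exact Submodule.mem_top)
  rwa [mul_one] at h4

private theorem Z_Par_eval (A B C : ℤ) (c : ℚ) (v : Fin 3 → ℤ) (i : Fin 3) :
    eval (fun k => c * (v k : ℚ)) (addSubMap (ZW A B C) i) =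
      c ^ 2 * ((Z_Par_F A B C (v 0) (v 1) (v 2) i : ℤ) : ℚ) := by
  fin_cases i
  · refine (Pool.Agent.Lib.MP_17a322_nt.RO.A1_eval0 _ _).trans ?_
    rw [ZW_b4, ZW_b6, ZW_b8]
    simp [Z_Par_F]
    ring
  · refine (Pool.Agent.Lib.MP_17a322_nt.RO.A1_eval1 _ _).trans ?_
    rw [ZW_b2, ZW_b4, ZW_b6]
    simp [Z_Par_F]
    ring
  · refine (Pool.Agent.Lib.MP_17a322_nt.RO.A1_eval2 _ _).trans ?_
    simp [Z_Par_F]
    ring

private theorem Z_Par_boundF {A B C s t u M V : ℝ} (hM : 2 ≤ M) (hA : |A| ≤ M)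
    (hB : |B| ≤ M) (hC : |C| ≤ M) (hs : |s| ≤ V) (ht : |t| ≤ V) (hu : |u| ≤ V) (i : Fin 3) :
    |Z_Par_F A B C s t u i| ≤ 12 * M ^ 2 * V ^ 2 := by
  have m0 : 0 ≤ M := by linarith
  have m1 : 2 * M ≤ M ^ 2 := by nlinarith
  have v0 : 0 ≤ V ^ 2 := sq_nonneg V
  have m2 : (4 : ℝ) ≤ M ^ 2 := by nlinarith
  have m3 : 2 * M * V ^ 2 ≤ M ^ 2 * V ^ 2 := mul_le_mul_of_nonneg_right m1 v0
  have m4 : 4 * V ^ 2 ≤ M ^ 2 * V ^ 2 := mul_le_mul_of_nonneg_right m2 v0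
  fin_cases i <;>
    (simp only [Z_Par_F, Matrix.cons_val_zero, Matrix.cons_val_one, Matrix.cons_val, Fin.zero_eta,
      Fin.mk_one, Fin.reduceFinMk]
     apply Z_Par_bFin
     · repeat' (first
        | exact hA | exact hB | exact hC | exact hs | exact ht | exact hu | exact Z_Par_bNum _
        | apply Z_Par_bAdd | apply Z_Par_bSub | apply Z_Par_bNeg | apply Z_Par_bMul
        | apply Z_Par_bPow)
     · nlinarith)

private theorem Z_Par_log {M : ℝ} (hM : 2 ≤ M) (n : ℕ) {N : ℝ} (hN : 0 < N) (h : N ≤ 2 ^ n) :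
    Real.log N ≤ n * Real.log M := by
  have h1 : Real.log N ≤ Real.log (2 ^ n) := Real.log_le_log hN h
  rw [Real.log_pow] at h1
  exact h1.trans (mul_le_mul_of_nonneg_left (Real.log_le_log (by norm_num) hM) (Nat.cast_nonneg n))

private theorem Z_Par_main (A B C : ℤ) (M : ℝ) (hM : 2 ≤ M) (hA : |(A : ℝ)| ≤ M)
    (hB : |(B : ℝ)| ≤ M) (hC : |(C : ℝ)| ≤ M) (hD : (ZW A B C).Δ ≠ 0) (v : Fin 3 → ℤ)
    (hv : Finset.univ.gcd v = 1) :
    |logHeight (fun i => ((Z_Par_F A B C (v 0) (v 1) (v 2) i : ℤ) : ℚ)) -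
      2 * logHeight (fun i => (v i : ℚ))| ≤ 20 * Real.log M := by
  obtain ⟨k, hk, hmax, hht⟩ := Z_ht_prim v hv
  have hV1 : 1 ≤ |(v k : ℝ)| := by
    rw [← Int.cast_abs]
    exact_mod_cast Int.one_le_abs hk
  obtain ⟨D, hDd⟩ : ∃ D : ℤ, D = 16 * (A ^ 2 * B ^ 2 - 4 * A ^ 3 * C - 4 * B ^ 3 - 27 * C ^ 2 +
      18 * A * B * C) := ⟨_, rfl⟩
  have hD0 : D ≠ 0 := by
    intro h
    apply hD
    rw [ZW_disc]
    have h1 := congrArg (Int.cast : ℤ → ℚ) (hDd.symm.trans h)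
    push_cast at h1
    exact h1
  obtain ⟨F, hF⟩ : ∃ F : Fin 3 → ℤ, F = Z_Par_F A B C (v 0) (v 1) (v 2) := ⟨_, rfl⟩
  have hid : ∀ l, ∑ j, Z_Par_q (4 * A) (2 * B) (4 * C) (4 * A * C - B ^ 2) (v 0) (v 1) (v 2) l j *
      F j = D * v l ^ 4 := by
    intro l
    rw [hF, hDd]
    exact Z_Par_id A B C v l
  have hFb : ∀ i, |(F i : ℝ)| ≤ 12 * M ^ 2 * |(v k : ℝ)| ^ 2 := by
    intro i
    rw [hF, Z_Par_cast_F]
    exact Z_Par_boundF hM hA hB hC (hmax 0) (hmax 1) (hmax 2) i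
  rw [← hF, hht]
  obtain ⟨m, hm⟩ := Finite.exists_max (fun i => |(F i : ℝ)|)
  have hlow : |(D : ℝ)| * |(v k : ℝ)| ^ 4 ≤
      3 * (6 * (800 * M ^ 5) * |(v k : ℝ)| ^ 2) * |(F m : ℝ)| := by
    have e : (D : ℝ) * (v k : ℝ) ^ 4 =
        ∑ j, ((Z_Par_q (4 * A) (2 * B) (4 * C) (4 * A * C - B ^ 2) (v 0) (v 1) (v 2) k j : ℤ) : ℝ) *
          (F j : ℝ) := by
      exact_mod_cast (hid k).symm
    rw [← abs_pow, ← abs_mul, e]
    refine (Finset.abs_sum_le_sum_abs _ _).trans ?_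
    have h1 : ∀ j ∈ (Finset.univ : Finset (Fin 3)),
        |((Z_Par_q (4 * A) (2 * B) (4 * C) (4 * A * C - B ^ 2) (v 0) (v 1) (v 2) k j : ℤ) : ℝ) *
          (F j : ℝ)| ≤ (6 * (800 * M ^ 5) * |(v k : ℝ)| ^ 2) * |(F m : ℝ)| := by
      intro j _
      refine (Z_Par_bMul ?_ (hm j))
      rw [Z_Par_cast_q]
      have hA4 : |((4 * A : ℤ) : ℝ)| ≤ 4 * M := by
        push_cast
        exact Z_Par_bMul (Z_Par_bNum 4) hA
      have hB2 : |((2 * B : ℤ) : ℝ)| ≤ 2 * M := by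
        push_cast
        exact Z_Par_bMul (Z_Par_bNum 2) hB
      have hC4 : |((4 * C : ℤ) : ℝ)| ≤ 4 * M := by
        push_cast
        exact Z_Par_bMul (Z_Par_bNum 4) hC
      have h8 : |((4 * A * C - B ^ 2 : ℤ) : ℝ)| ≤ 5 * M ^ 2 := by
        push_cast
        refine (Z_Par_bSub (Z_Par_bMul (Z_Par_bMul (Z_Par_bNum 4) hA) hC)
          (Z_Par_bPow 2 hB)).trans (le_of_eq ?_)
        ring
      exact Z_Par_bound hM hA4 hB2 hC4 h8 (hmax 0) (hmax 1) (hmax 2) k j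
    refine (Finset.sum_le_sum h1).trans (le_of_eq ?_)
    rw [Finset.sum_const, Finset.card_univ, Fintype.card_fin, nsmul_eq_mul]
    push_cast
    ring
  have hVp : 0 < |(v k : ℝ)| := by linarith
  have hMp : 0 < M := by linarith
  have hDp : 0 < |(D : ℝ)| := abs_pos.2 (Int.cast_ne_zero.2 hD0)
  have hlow2 : |(D : ℝ)| * |(v k : ℝ)| ^ 2 ≤ 14400 * M ^ 5 * |(F m : ℝ)| := by
    have h1 : 0 < |(v k : ℝ)| ^ 2 := by positivity
    have h2 : (|(D : ℝ)| * |(v k : ℝ)| ^ 2) * |(v k : ℝ)| ^ 2 ≤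
        (14400 * M ^ 5 * |(F m : ℝ)|) * |(v k : ℝ)| ^ 2 := by
      calc (|(D : ℝ)| * |(v k : ℝ)| ^ 2) * |(v k : ℝ)| ^ 2 = |(D : ℝ)| * |(v k : ℝ)| ^ 4 := by ring
        _ ≤ _ := hlow
        _ = _ := by ring
    exact le_of_mul_le_mul_right h2 h1
  have hFm : 0 < |(F m : ℝ)| := by
    rcases (abs_nonneg (F m : ℝ)).lt_or_eq with h | h
    · exact h
    · exfalso
      rw [← h, mul_zero] at hlow2
      have h3 : 0 < |(D : ℝ)| * |(v k : ℝ)| ^ 2 := by positivity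
      linarith
  have hF0 : F ≠ 0 := by
    intro h
    rw [h] at hFm
    simp at hFm
  have hup := Z_ht_le F hF0 _ hFb
  have hdn := Z_ht_ge F hF0 D hD0 (fun d hd => Z_Par_cop v hv D d 4 (fun l => by
    rw [← hid l]
    exact Finset.dvd_sum fun j _ => Dvd.dvd.mul_left (hd j) _)) m
  have e1 : Real.log (12 * M ^ 2 * |(v k : ℝ)| ^ 2) =
      Real.log 12 + 2 * Real.log M + 2 * Real.log |(v k : ℝ)| := by
    rw [Real.log_mul (by positivity) (by positivity), Real.log_mul (by positivity) (by positivity),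
      Real.log_pow, Real.log_pow]
    push_cast
    ring
  have e2 : Real.log (|(D : ℝ)| * |(v k : ℝ)| ^ 2) =
      Real.log |(D : ℝ)| + 2 * Real.log |(v k : ℝ)| := by
    rw [Real.log_mul (by positivity) (by positivity), Real.log_pow]
    push_cast
    ring
  have e3 : Real.log (14400 * M ^ 5 * |(F m : ℝ)|) =
      Real.log 14400 + 5 * Real.log M + Real.log |(F m : ℝ)| := by
    rw [Real.log_mul (by positivity) (by positivity), Real.log_mul (by positivity) (by positivity),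
      Real.log_pow]
    push_cast
    ring
  have e4 := Real.log_le_log (by positivity) hlow2
  rw [e2, e3] at e4
  rw [e1] at hup
  have l1 := Z_Par_log hM 4 (N := 12) (by norm_num) (by norm_num)
  have l2 := Z_Par_log hM 14 (N := 14400) (by norm_num) (by norm_num)
  have l0 : 0 ≤ Real.log M := Real.log_nonneg (by linarith)
  push_cast at l1 l2
  rw [abs_le]
  constructor <;> linarith

/-- The map `addSubMap` changes heights by a factor `2` up to `c log M`, `M` a bound of the coefficients.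

Proof. For `x = 0` the vector on the left is `0` (its entries are homogeneous of degree `2`) and both heights
are `0`. For `x ≠ 0` write `x = a v`, `v` primitive integral (`Z_prim`); the map is homogeneous of degree
`2`, so by `logHeight_smul_eq_logHeight` we may take `x = v`. Let `V = max |v i|`, so `logHeight v = log V`
(`Z_ht_prim`), `V ≥ 1`. The entries of the map at `v` are the integers (`A1_eval0`, `A1_eval1`, `A1_eval2` of
RO/A1 and `ZW_b2`, ..., `ZW_b8`)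
  `F0 = v0² - 2B v0 v2 - 4C v1 v2 - (4AC - B²) v2²`, `F1 = 2 v0 v1 + 4A v0 v2 + 2B v1 v2 + 4C v2²`,
  `F2 = v1² - 4 v0 v2`.
Upper bound: `|Fi| ≤ 12 M² V²`, so `Z_ht_le`: `logHeight F ≤ log (12 M² V²) ≤ 2 log V + 6 log M`.
Lower bound: Mathlib's `addSubMapCoeff (k, j)` evaluated at `v` is an integer `q_kj` with
`|q_kj| ≤ 5000 M⁵ V²` and `∑ j, q_kj Fj = Δ v_k⁴`, `Δ = ZW_disc` (nonzero integer; the identity
`addSubMapCoeff_condition` or, after `simp [addSubMapCoeff]` for each of the nine entries, directly by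
`ring` in `A`, `B`, `C`, `v`). So a common divisor of the `Fj` divides `Δ v_k⁴` for all `k`, hence
`Δ` (`v` primitive: the gcd of the `v_k⁴` is `1`; e.g. a prime power argument or
`Finset.gcd` / `IsCoprime` of powers), and for `k` with `|v_k| = V` we get
`|Δ| V⁴ ≤ 3 * 5000 M⁵ V² * max |Fj|`; `Z_ht_ge` with `g = Δ`:
`logHeight F ≥ log (max |Fj|) - log |Δ| ≥ 2 log V - log (15000 M⁵) ≥ 2 log V - 20 log M`. So `c = 20` works. -/
theorem Z_addSub : ∃ c : ℝ, 0 < c ∧ ∀ (A B C : ℤ) (M : ℝ), 2 ≤ M → |(A : ℝ)| ≤ M → |(B : ℝ)| ≤ M →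
    |(C : ℝ)| ≤ M → (ZW A B C).Δ ≠ 0 → ∀ x : Fin 3 → ℚ,
      |logHeight (fun i => eval x (addSubMap (ZW A B C) i)) - 2 * logHeight x| ≤ c * Real.log M := by
  refine ⟨20, by norm_num, ?_⟩
  intro A B C M hM hA hB hC hD x
  by_cases hx : x = 0
  · have l0 : 0 ≤ Real.log M := Real.log_nonneg (by linarith)
    have h1 : (fun i => eval x (addSubMap (ZW A B C) i)) = 0 := by
      have h2 : x = fun k => (0 : ℚ) * (((0 : Fin 3 → ℤ) k : ℤ) : ℚ) := by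
        rw [hx]
        funext k
        simp
      funext i
      rw [h2, Z_Par_eval]
      simp
    rw [h1, hx, logHeight_zero, mul_zero, sub_zero, abs_zero]
    linarith
  · obtain ⟨c, v, hc, hv, hxv⟩ := Z_prim x hx
    have hx1 : x = c • (fun i => (v i : ℚ)) := by
      funext i
      rw [hxv i]
      rfl
    have hx2 : x = fun k => c * (v k : ℚ) := funext hxv
    have h1 : (fun i => eval x (addSubMap (ZW A B C) i)) =
        (c ^ 2) • (fun i => ((Z_Par_F A B C (v 0) (v 1) (v 2) i : ℤ) : ℚ)) := by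
      funext i
      rw [hx2, Z_Par_eval]
      rfl
    rw [h1, logHeight_smul_eq_logHeight _ (pow_ne_zero 2 hc), hx1, logHeight_smul_eq_logHeight _ hc]
    exact Z_Par_main A B C M hM hA hB hC hD v hv

end Pool.Agent.Lib.MP_2c6f70_nt.RU
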