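import Pool.Agent.Lib.MP_2c6f70_nt.RU.Z_Defs
import Pool.Agent.Lib.MP_17a322_nt.VJ.MW1

/-!
# Block BZ: the curve of the star, its roots and the relation for differences
-/

set_option autoImplicit false

namespace Pool.Agent.Lib.MP_2c6f70_nt.RU

open Pool.Agent.Lib.MP_17a322_nt.VJ Pool.Agent.Lib.MP_17a322_nt.RO

/-- The roots of the curve of the star. -/
theorem ZE_FT (h : Fin 3 → ℤ) : FT (ZE h) (fun i => (ze h i : ℚ)) := by
  refine ⟨?_, ?_, ?_⟩
  · rw [ZE, ZW_b2]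
    simp only [zA, ze, Matrix.cons_val_zero, Matrix.cons_val_one, Matrix.cons_val]
    push_cast
    ring
  · rw [ZE, ZW_b4]
    simp only [zB, zd, ze, Matrix.cons_val_zero, Matrix.cons_val_one, Matrix.cons_val]
    push_cast
    ring
  · rw [ZE, ZW_b6]
    simp only [zC, zd, ze, Matrix.cons_val_zero, Matrix.cons_val_one, Matrix.cons_val]
    push_cast
    ring

/-- The relation for the difference of two points with different abscissas.
Proof. `A1_exists` (RO/A1) or `addSub_sym2x`: the vector `addSubMap` at `P.sym2x Q` is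
`c * (P + Q).sym2x (P - Q)`. `P`, `Q` affine with abscissas `x ≠ y`; `P + Q` and `P - Q` are affine (`P ≠ ± Q`
as `x ≠ y`; `xRep_neg`), with abscissas `X'`, `X`. The entries (`A1_eval0`, `A1_eval1`, `A1_eval2`):
`c X' X = (x y)² - b₄ x y - b₆ (x + y) - b₈`, `c (X' + X) = 2 (x + y) x y + b₂ x y + b₄ (x + y) + b₆`,
`c = (x + y)² - 4 x y = (x - y)²`; and `c X² - c (X' + X) X + c X' X = 0`; use `ZW_b2`, ..., `ZW_b8`. -/
theorem Z_rel (A B C : ℤ) [(ZW A B C).IsElliptic] (P Q : (ZW A B C).toAffine.Point) (hP : P ≠ 0)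
    (hQ : Q ≠ 0) (hne : P.xRep 0 ≠ Q.xRep 0) :
    P - Q ≠ 0 ∧ ZG A B C ((P - Q).xRep 0) (P.xRep 0) (Q.xRep 0) = 0 := by
  have hsub : P - Q ≠ 0 := by
    intro h
    rw [sub_eq_zero] at h
    exact hne (by rw [h])
  have hadd : P + Q ≠ 0 := by
    intro h
    rw [add_eq_zero_iff_eq_neg] at h
    apply hne
    rw [h, WeierstrassCurve.Affine.Point.xRep_neg]
  refine ⟨hsub, ?_⟩
  obtain ⟨c, hc⟩ := A1_exists (ZW A B C) P Q
  have h0 := hc 0
  have h1 := hc 1
  have h2 := hc 2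
  rw [A1_eval0] at h0
  rw [A1_eval1] at h1
  rw [A1_eval2] at h2
  generalize hS : P + Q = S at h0 h1 h2 hadd
  generalize hT : P - Q = T at h0 h1 h2 hsub ⊢
  rcases P with _ | ⟨x, y, hxy⟩
  · exact absurd rfl hP
  rcases Q with _ | ⟨x', y', hxy'⟩
  · exact absurd rfl hQ
  rcases S with _ | ⟨X', Y', hS'⟩
  · exact absurd rfl hadd
  rcases T with _ | ⟨X, Y, hT'⟩
  · exact absurd rfl hsub
  rw [WeierstrassCurve.Affine.Point.sym2x_some_some, WeierstrassCurve.Affine.Point.sym2x_some_some] at h0 h1 h2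
  rw [ZW_b4, ZW_b6, ZW_b8] at h0
  rw [ZW_b2, ZW_b4, ZW_b6] at h1
  simp only [Matrix.cons_val_zero, Matrix.cons_val_one, Matrix.cons_val] at h0 h1 h2
  simp only [WeierstrassCurve.Affine.Point.xRep_some, Matrix.cons_val_zero]
  unfold ZG
  linear_combination X ^ 2 * h2 - X * h1 + h0

end Pool.Agent.Lib.MP_2c6f70_nt.RU
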