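import Mathlib

/-!
# Block BZ: classes of rational numbers modulo squares
-/

set_option autoImplicit false

namespace Pool.Agent.Lib.MP_2c6f70_nt.RU

private theorem Z_Val_natSquare (n : ℕ) (hn : n ≠ 0)
    (h : ∀ p : ℕ, p.Prime → Even (n.factorization p)) : IsSquare n := by
  obtain ⟨a, b, hab, hsq⟩ := Nat.sq_mul_squarefree n
  have hb0 : b ≠ 0 := by
    rintro rfl
    apply hn
    rw [← hab]
    simp
  have ha0 : a ≠ 0 := hsq.ne_zero
  have ha1 : a = 1 := by
    by_contra hne
    obtain ⟨p, hp, hpa⟩ := Nat.exists_prime_and_dvd hne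
    have h1 := h p hp
    have h2 : n.factorization p = 2 * b.factorization p + a.factorization p := by
      rw [← hab, Nat.factorization_mul (pow_ne_zero 2 hb0) ha0, Nat.factorization_pow]
      simp
    have h3 : a.factorization p = 1 := by
      have h4 : a.factorization p ≤ 1 := hsq.natFactorization_le_one p
      have h5 : 0 < a.factorization p := hp.factorization_pos_of_dvd ha0 hpa
      omega
    rw [h2, h3] at h1
    rcases h1 with ⟨k, hk⟩
    omega
  rw [ha1, mul_one] at hab
  exact ⟨b, by rw [← hab, sq]⟩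

/-- A positive rational number all of whose valuations are even is a square.
Proof. `t = a / b`, `a = t.num.natAbs`, `b = t.den` coprime, so `t * b ^ 2 = a * b` and it is enough that the
natural number `a * b` is a square; its factorization is even at every prime, since
`padicValRat p t = padicValNat p a - padicValNat p b` and one of the two is `0` (or only the parity of the
sum). -/
theorem Z_isSquare (t : ℚ) (ht : 0 < t) (h : ∀ p : ℕ, p.Prime → Even (padicValRat p t)) :
    IsSquare t := by
  have hnum : 0 < t.num := Rat.num_pos.mpr ht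
  set a : ℕ := t.num.natAbs with ha
  set b : ℕ := t.den with hb
  have ha0 : a ≠ 0 := by rw [ha]; exact Int.natAbs_ne_zero.mpr hnum.ne'
  have hb0 : b ≠ 0 := t.den_nz
  have hnumc : (t.num : ℚ) = (a : ℚ) := by
    have h1 : (t.num : ℤ) = (a : ℤ) := by rw [ha]; exact (Int.natAbs_of_nonneg hnum.le).symm
    rw [h1]
    norm_cast
  have htab : t * (b : ℚ) = (a : ℚ) := by
    rw [hb, Rat.mul_den_eq_num, hnumc]
  have hsq : IsSquare (a * b) := by
    apply Z_Val_natSquare _ (Nat.mul_ne_zero ha0 hb0)
    intro p hp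
    have h1 := h p hp
    have h2 : padicValRat p t = (padicValNat p a : ℤ) - (padicValNat p b : ℤ) := by
      rw [padicValRat, padicValInt]
    rw [Nat.factorization_mul ha0 hb0, Finsupp.add_apply, Nat.factorization_def _ hp,
      Nat.factorization_def _ hp]
    rw [h2] at h1
    rcases h1 with ⟨k, hk⟩
    rw [Nat.even_iff]
    omega
  obtain ⟨c, hc⟩ := hsq
  have hbq : (b : ℚ) ≠ 0 := by exact_mod_cast hb0
  refine ⟨(c : ℚ) / b, ?_⟩
  have hcq : (a : ℚ) * b = (c : ℚ) * c := by exact_mod_cast hc
  rw [div_mul_div_comm, ← hcq, eq_div_iff (mul_ne_zero hbq hbq), ← htab]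
  ring

private theorem Z_Val_three (p : ℕ) [Fact p.Prime] (a b c : ℚ) (w : ℤ) (ha : a ≠ 0) (hb : b ≠ 0)
    (hc : c ≠ 0) (hab0 : a - b ≠ 0) (hac0 : a - c ≠ 0) (hab : padicValRat p (a - b) = 0)
    (hac : padicValRat p (a - c) = 0)
    (hw : padicValRat p a + padicValRat p b + padicValRat p c = 2 * w) :
    Even (padicValRat p a) := by
  have key : ∀ x y : ℚ, x ≠ 0 → y ≠ 0 → x - y ≠ 0 → padicValRat p (x - y) = 0 →
      padicValRat p x < 0 → padicValRat p y = padicValRat p x := by
    intro x y hx hy hxy0 hxy hneg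
    have h1 : y = x + (-(x - y)) := by ring
    have h2 : padicValRat p (-(x - y)) = 0 := by rw [padicValRat.neg, hxy]
    have h3 := padicValRat.add_eq_of_lt (p := p) (q := x) (r := -(x - y)) (by rw [← h1]; exact hy) hx
      (neg_ne_zero.mpr hxy0) (by rw [h2]; exact hneg)
    rw [← h1] at h3
    exact h3
  have hba0 : b - a ≠ 0 := by
    intro h
    apply hab0
    linarith
  have hca0 : c - a ≠ 0 := by
    intro h
    apply hac0
    linarith
  have hba : padicValRat p (b - a) = 0 := by
    rw [← padicValRat.neg, neg_sub]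
    exact hab
  have hca : padicValRat p (c - a) = 0 := by
    rw [← padicValRat.neg, neg_sub]
    exact hac
  rcases lt_trichotomy (padicValRat p a) 0 with h | h | h
  · have h1 := key a b ha hb hab0 hab h
    have h2 := key a c ha hc hac0 hac h
    rw [h1, h2] at hw
    rw [Int.even_iff]
    omega
  · rw [h]
    exact Even.zero
  · have h1 : ∀ y : ℚ, y ≠ 0 → a - y ≠ 0 → padicValRat p (a - y) = 0 → y - a ≠ 0 →
        padicValRat p (y - a) = 0 → padicValRat p y = 0 := by
      intro y hy hay0 hay hya0 hya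
      rcases lt_trichotomy (padicValRat p y) 0 with h2 | h2 | h2
      · have h3 := key y a hy ha hya0 hya h2
        omega
      · exact h2
      · exfalso
        have h3 := padicValRat.min_le_padicValRat_add (p := p) (q := a) (r := -y)
          (by rw [← sub_eq_add_neg]; exact hay0)
        rw [← sub_eq_add_neg, hay, padicValRat.neg] at h3
        have h4 : 0 < min (padicValRat p a) (padicValRat p y) := lt_min h h2
        omega
    have h2 := h1 b hb hab0 hab hba0 hba
    have h3 := h1 c hc hac0 hac hca0 hca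
    rw [h2, h3] at hw
    exact ⟨w, by omega⟩

/-- Outside of the differences of the roots all valuations are even.
Proof. `v = padicValRat p`. If `v x < 0` then (`v (e i) ≥ 0` or `e i = 0`) `v (x - e i) = v x` for all `i`
(`padicValRat.add_eq_of_lt` or similar), so `2 * v η = 3 * v x` and `v x` is even. If `x = 0` or
`v x ≥ 0` then `v (x - e j) ≥ 0` for all `j` (all `x - e j ≠ 0` as `η ≠ 0`) and at most one of them is
positive, since `p` does not divide `e i - e j = (x - e j) - (x - e i)`; the sum of the three is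
`2 * v η`; so each of them is `0` or `2 * v η`. -/
theorem Z_even (p : ℕ) (hp : p.Prime) (e : Fin 3 → ℤ) (he : ∀ i j, i ≠ j → ¬ (p : ℤ) ∣ e i - e j)
    (x η : ℚ) (h : η ^ 2 = ∏ i, (x - e i)) (hη : η ≠ 0) (i : Fin 3) :
    Even (padicValRat p (x - e i)) := by
  have : Fact p.Prime := ⟨hp⟩
  rw [Fin.prod_univ_three] at h
  have hη2 : η ^ 2 ≠ 0 := pow_ne_zero 2 hη
  have hprod : (x - (e 0 : ℚ)) * (x - (e 1 : ℚ)) * (x - (e 2 : ℚ)) ≠ 0 := by rw [← h]; exact hη2
  have h0 : x - (e 0 : ℚ) ≠ 0 := by
    intro h'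
    apply hprod
    rw [h']
    ring
  have h1 : x - (e 1 : ℚ) ≠ 0 := by
    intro h'
    apply hprod
    rw [h']
    ring
  have h2 : x - (e 2 : ℚ) ≠ 0 := by
    intro h'
    apply hprod
    rw [h']
    ring
  have hsum : padicValRat p (x - e 0) + padicValRat p (x - e 1) + padicValRat p (x - e 2) =
      2 * padicValRat p η := by
    have h3 : padicValRat p (η ^ 2) = 2 * padicValRat p η := by
      rw [padicValRat.pow]
      norm_num
    rw [← h3, h, padicValRat.mul (mul_ne_zero h0 h1) h2, padicValRat.mul h0 h1]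
  have hdiff : ∀ j k : Fin 3, j ≠ k →
      (x - (e j : ℚ)) - (x - (e k : ℚ)) ≠ 0 ∧ padicValRat p ((x - (e j : ℚ)) - (x - (e k : ℚ))) = 0 := by
    intro j k hjk
    have h4 : (x - (e j : ℚ)) - (x - (e k : ℚ)) = ((e k - e j : ℤ) : ℚ) := by push_cast; ring
    have h5 : ¬ (p : ℤ) ∣ e k - e j := he k j (Ne.symm hjk)
    have h6 : e k - e j ≠ 0 := by
      intro h'
      apply h5
      rw [h']
      exact dvd_zero _
    rw [h4]
    refine ⟨by exact_mod_cast h6, ?_⟩
    rw [padicValRat.of_int, padicValInt.eq_zero_of_not_dvd h5]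
    norm_num
  have hd01 := hdiff 0 1 (by decide)
  have hd02 := hdiff 0 2 (by decide)
  have hd10 := hdiff 1 0 (by decide)
  have hd12 := hdiff 1 2 (by decide)
  have hd20 := hdiff 2 0 (by decide)
  have hd21 := hdiff 2 1 (by decide)
  have g0 : Even (padicValRat p (x - e 0)) :=
    Z_Val_three p _ _ _ (padicValRat p η) h0 h1 h2 hd01.1 hd02.1 hd01.2 hd02.2 (by omega)
  have g1 : Even (padicValRat p (x - e 1)) :=
    Z_Val_three p _ _ _ (padicValRat p η) h1 h0 h2 hd10.1 hd12.1 hd10.2 hd12.2 (by omega)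
  have g2 : Even (padicValRat p (x - e 2)) :=
    Z_Val_three p _ _ _ (padicValRat p η) h2 h0 h1 hd20.1 hd21.1 hd20.2 hd21.2 (by omega)
  fin_cases i
  · exact g0
  · exact g1
  · exact g2

/-- The class: the sign and the primes of `D` with odd valuation. -/
noncomputable def zcl (D : ℕ) (t : ℚ) : Bool × Finset ℕ :=
  open Classical in (decide (0 < t), D.primeFactors.filter (fun p => ¬ Even (padicValRat p t)))

/-- Numbers of the same class differ by a square. Proof. `t * t' > 0` has even valuation at every prime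
(`Z_isSquare`): for `p ∤ D` both valuations are even, for `p ∣ D` they have the same parity. If
`t * t' = s ^ 2` then `t = t' * (s / t') ^ 2`. -/
theorem Z_class (D : ℕ) (hD : D ≠ 0) (t t' : ℚ) (ht : t ≠ 0) (ht' : t' ≠ 0)
    (hv : ∀ p : ℕ, p.Prime → ¬ p ∣ D → Even (padicValRat p t))
    (hv' : ∀ p : ℕ, p.Prime → ¬ p ∣ D → Even (padicValRat p t')) (hc : zcl D t = zcl D t') :
    ∃ c : ℚ, c ≠ 0 ∧ t = t' * c ^ 2 := by
  unfold zcl at hc
  rw [Prod.mk.injEq] at hc
  obtain ⟨hc1, hc2⟩ := hc
  have hsign : (0 < t) ↔ (0 < t') := by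
    constructor
    · intro h
      have h1 : decide (0 < t) = true := decide_eq_true h
      rw [hc1] at h1
      exact of_decide_eq_true h1
    · intro h
      have h1 : decide (0 < t') = true := decide_eq_true h
      rw [← hc1] at h1
      exact of_decide_eq_true h1
  have hpos : 0 < t * t' := by
    rcases lt_or_gt_of_ne ht with h | h
    · have h1 : ¬ 0 < t' := fun h' => absurd (hsign.mpr h') (not_lt.mpr h.le)
      have h2 : t' < 0 := lt_of_le_of_ne (not_lt.mp h1) ht'
      exact mul_pos_of_neg_of_neg h h2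
    · exact mul_pos h (hsign.mp h)
  have hsq : IsSquare (t * t') := by
    apply Z_isSquare _ hpos
    intro p hp
    have : Fact p.Prime := ⟨hp⟩
    rw [padicValRat.mul ht ht']
    by_cases hpD : p ∣ D
    · have hmem : p ∈ D.primeFactors := Nat.mem_primeFactors.mpr ⟨hp, hpD, hD⟩
      rw [Int.even_add]
      have h1 := Finset.ext_iff.mp hc2 p
      rw [Finset.mem_filter, Finset.mem_filter] at h1
      have h2 : ¬ Even (padicValRat p t) ↔ ¬ Even (padicValRat p t') :=
        ⟨fun h => (h1.mp ⟨hmem, h⟩).2, fun h => (h1.mpr ⟨hmem, h⟩).2⟩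
      exact not_iff_not.mp h2
    · exact (hv p hp hpD).add (hv' p hp hpD)
  obtain ⟨s, hs⟩ := hsq
  have hs0 : s ≠ 0 := by
    rintro rfl
    rw [mul_zero] at hs
    exact (mul_ne_zero ht ht') hs
  refine ⟨s / t', div_ne_zero hs0 ht', ?_⟩
  rw [div_pow, sq s, ← hs]
  field_simp

/-- All classes are in a set with `2 * 2 ^ ω (D)` elements. -/
theorem Z_class_mem (D : ℕ) (t : ℚ) :
    zcl D t ∈ (Finset.univ : Finset Bool) ×ˢ D.primeFactors.powerset := by
  unfold zcl
  rw [Finset.mem_product]
  refine ⟨Finset.mem_univ _, ?_⟩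
  rw [Finset.mem_powerset]
  exact Finset.filter_subset _ _

end Pool.Agent.Lib.MP_2c6f70_nt.RU
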